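import Mathlib

/-! Lattice estimates for `{(f, g) : f ≡ g α mod M}`. -/

namespace Pool.Agent.H9.Adic

open Finset

/-- sup norm -/
def nrm (f g : ℤ) : ℕ := max f.natAbs g.natAbs

def InL (M α f g : ℤ) : Prop := M ∣ g * α - f

/-- first minimum -/
noncomputable def lam (M α : ℤ) : ℕ :=
  sInf {t | ∃ f g : ℤ, ¬ (f = 0 ∧ g = 0) ∧ InL M α f g ∧ t = nrm f g}

lemma lam_spec (M α : ℤ) : ∃ f g : ℤ, ¬ (f = 0 ∧ g = 0) ∧ InL M α f g ∧ lam M α = nrm f g :=
  Nat.sInf_mem (s := {t | ∃ f g : ℤ, ¬ (f = 0 ∧ g = 0) ∧ InL M α f g ∧ t = nrm f g})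
    ⟨_, α, 1, by simp, by simp [InL], rfl⟩

lemma lam_le {M α f g : ℤ} (h0 : ¬ (f = 0 ∧ g = 0)) (h : InL M α f g) : lam M α ≤ nrm f g :=
  Nat.sInf_le ⟨f, g, h0, h, rfl⟩

lemma lam_pos (M α : ℤ) : 0 < lam M α := by
  obtain ⟨f, g, h0, _, h⟩ := lam_spec M α
  rw [h, nrm]
  omega

lemma reduce (p r : ℤ) (hp : p ≠ 0) : ∃ c : ℤ, 2 * |r - c * p| ≤ |p| := by
  have h1 := Int.emod_nonneg r hp
  have h2 := Int.emod_lt_abs r hp
  have h3 := Int.emod_add_mul_ediv r p
  by_cases h : 2 * (r % p) ≤ |p|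
  · refine ⟨r / p, ?_⟩
    have : r - r / p * p = r % p := by linarith
    rw [this, abs_of_nonneg h1]; exact h
  · refine ⟨r / p + Int.sign p, ?_⟩
    have e : Int.sign p * p = |p| := Int.sign_mul_self_eq_abs p
    have : r - (r / p + Int.sign p) * p = r % p - |p| := by linarith
    rw [this, abs_of_nonpos (by linarith)]
    linarith

lemma second_aux (M t p q r s : ℤ) (ht : 0 < t) (hp : |p| = t) (hq : |q| ≤ t)
    (hr : 2 * |r| ≤ t) (hdet : |p * s - q * r| = M) (hbig : t ≤ |r| ∨ t ≤ |s|) :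
    t * t ≤ 2 * M ∧ t * |r| ≤ 2 * M ∧ t * |s| ≤ 2 * M := by
  have hr0 := abs_nonneg r
  have hs : t ≤ |s| := by
    rcases hbig with h | h
    · linarith
    · exact h
  have h1 : |p * s| ≤ |p * s - q * r| + |q * r| := by
    have := abs_add_le (p * s - q * r) (q * r)
    simpa using this
  rw [hdet, abs_mul, abs_mul, hp] at h1
  have h2 : |q| * |r| ≤ t * |r| := mul_le_mul_of_nonneg_right hq hr0
  have h3 : t * (2 * |r|) ≤ t * t := mul_le_mul_of_nonneg_left hr ht.le
  have h4 : t * t ≤ t * |s| := mul_le_mul_of_nonneg_left hs ht.le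
  have h5 : 0 ≤ t * t := mul_self_nonneg t
  refine ⟨by linarith, by linarith, by linarith⟩

lemma exists_coprime_shift (N : ℕ) (hN : N ≠ 0) (y s : ℤ) (h : IsCoprime y s) :
    ∃ a : ℕ, a ≤ N ∧ IsCoprime (s + a * y) N := by
  classical
  let a := ∏ p ∈ N.primeFactors.filter (fun p : ℕ => ¬ (p : ℤ) ∣ s), p
  have ha : a ∣ N := (Finset.prod_dvd_prod_of_subset _ _ _ (Finset.filter_subset _ _)).trans
    (Nat.prod_primeFactors_dvd N)
  refine ⟨a, Nat.le_of_dvd (Nat.pos_of_ne_zero hN) ha, ?_⟩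
  rw [Int.isCoprime_iff_gcd_eq_one]
  by_contra hne
  obtain ⟨p, hp, hd⟩ := Nat.exists_prime_and_dvd hne
  have hp1 : (p : ℤ) ∣ s + a * y := (Int.natCast_dvd_natCast.2 hd).trans (Int.gcd_dvd_left _ _)
  have hp2 : (p : ℤ) ∣ (N : ℤ) := (Int.natCast_dvd_natCast.2 hd).trans (Int.gcd_dvd_right _ _)
  have hpZ : Prime (p : ℤ) := Nat.prime_iff_prime_int.1 hp
  by_cases hs : (p : ℤ) ∣ s
  · have h3 : (p : ℤ) ∣ a * y := (dvd_add_right hs).1 hp1
    rcases hpZ.dvd_or_dvd h3 with h4 | h4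
    · have h5 : p ∣ a := Int.natCast_dvd_natCast.1 h4
      obtain ⟨q, hq, hpq⟩ := (Prime.dvd_finsetProd_iff hp.prime _).1 h5
      rw [Finset.mem_filter] at hq
      have : p = q := (Nat.prime_dvd_prime_iff_eq hp (Nat.prime_of_mem_primeFactors hq.1)).1 hpq
      exact hq.2 (this ▸ hs)
    · exact hpZ.not_isUnit (h.isUnit_of_dvd' h4 hs)
  · have h5 : p ∣ a := Finset.dvd_prod_of_mem _ (Finset.mem_filter.2
      ⟨Nat.mem_primeFactors.2 ⟨hp, Int.natCast_dvd_natCast.1 hp2, hN⟩, hs⟩)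
    have h6 : (p : ℤ) ∣ a * y := Dvd.dvd.mul_right (Int.natCast_dvd_natCast.2 h5) y
    exact hs ((dvd_add_left h6).1 hp1)

lemma nrm_cast (f g : ℤ) : ((nrm f g : ℕ) : ℤ) = max |f| |g| := by
  simp [nrm, Nat.cast_max]

lemma good_vector (N : ℕ) (hN : N ≠ 0) (M α : ℤ) (hM : 0 < M) :
    ∃ f g : ℤ, InL M α f g ∧ IsCoprime g N ∧
      (lam M α : ℤ) * nrm f g ≤ (2 + 2 * N) * M := by
  obtain ⟨p, y, h0, ⟨x, hx⟩, hl⟩ := lam_spec M α
  have ht := lam_pos M α
  set t := lam M α with htdef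
  have hcop : IsCoprime x y := by
    rw [Int.isCoprime_iff_gcd_eq_one]
    by_contra hne
    have hd0 : Int.gcd x y ≠ 0 := by
      intro h
      rw [Int.gcd_eq_zero_iff] at h
      apply h0
      rw [h.1, h.2] at hx
      exact ⟨by linarith, h.2⟩
    obtain ⟨x', hx'⟩ := Int.gcd_dvd_left x y
    obtain ⟨y', hy'⟩ := Int.gcd_dvd_right x y
    generalize Int.gcd x y = d at hne hd0 hx' hy'
    have hp : p = d * (y' * α - M * x') := by
      rw [hx', hy'] at hx; linarith
    have h1 : lam M α ≤ nrm (y' * α - M * x') y' := lam_le (by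
      rintro ⟨h1, h2⟩
      apply h0
      rw [hp, hy', h1, h2]; simp) ⟨x', by ring⟩
    have h2 : nrm p y = d * nrm (y' * α - M * x') y' := by
      rw [hp, hy']
      simp only [nrm, Int.natAbs_mul, Int.natAbs_natCast]
      exact (Nat.mul_max_mul_left _ _ _)
    have h3 : 2 * nrm (y' * α - M * x') y' ≤ d * nrm (y' * α - M * x') y' :=
      Nat.mul_le_mul_right _ (by omega)
    omega
  obtain ⟨u, v, huv⟩ := hcop
  have hp : p = y * α - M * x := by linarith
  have key : ∀ c : ℤ, ∃ r s : ℤ, r = (u * α + M * v) - c * p ∧ s = u - c * y ∧ InL M α r s ∧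
      |p * s - y * r| = M ∧ IsCoprime y s ∧ ((t : ℤ) ≤ |r| ∨ (t : ℤ) ≤ |s|) := by
    intro c
    have hdet : p * (u - c * y) - y * ((u * α + M * v) - c * p) = -M := by
      rw [hp]; linear_combination (-M) * huv
    have hin : InL M α ((u * α + M * v) - c * p) (u - c * y) :=
      ⟨c * x * (-1) - v, by rw [hp]; ring⟩
    refine ⟨_, _, rfl, rfl, hin, by rw [hdet, abs_neg, abs_of_pos hM],
      ⟨v + c * x, x, by linear_combination huv⟩, ?_⟩
    have h1 := lam_le (by
      rintro ⟨h1, h2⟩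
      rw [h1, h2] at hdet
      linarith) hin
    have h2 : (t : ℤ) ≤ nrm ((u * α + M * v) - c * p) (u - c * y) := by exact_mod_cast h1
    rw [nrm_cast] at h2
    exact le_max_iff.1 h2
  have htz : (0 : ℤ) < t := by exact_mod_cast ht
  have hn : (t : ℤ) = max |p| |y| := by rw [hl, nrm_cast]
  have main : ∃ r s : ℤ, InL M α r s ∧ IsCoprime y s ∧ (t : ℤ) * t ≤ 2 * M ∧
      (t : ℤ) * |r| ≤ 2 * M ∧ (t : ℤ) * |s| ≤ 2 * M := by
    rcases le_total |y| |p| with h | h
    · rw [max_eq_left h] at hn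
      obtain ⟨c, hc⟩ := reduce p (u * α + M * v) (by intro h; rw [h] at hn; simp at hn; omega)
      obtain ⟨r, s, e1, _, h1, h2, h3, h4⟩ := key c
      rw [← e1, ← hn] at hc
      exact ⟨r, s, h1, h3, second_aux M t p y r s htz hn.symm (hn ▸ h) hc h2 h4⟩
    · rw [max_eq_right h] at hn
      obtain ⟨c, hc⟩ := reduce y u (by intro h; rw [h] at hn; simp at hn; omega)
      obtain ⟨r, s, _, e2, h1, h2, h3, h4⟩ := key c
      rw [← e2, ← hn] at hc
      have := second_aux M t y p s r htz hn.symm (hn ▸ h) hc (by rw [abs_sub_comm]; exact h2)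
        h4.symm
      exact ⟨r, s, h1, h3, this.1, this.2.2, this.2.1⟩
  obtain ⟨r, s, ⟨z, hz⟩, h2, h3, h4, h5⟩ := main
  obtain ⟨a, ha, hc⟩ := exists_coprime_shift N hN y s h2
  refine ⟨r + a * p, s + a * y, ⟨z + a * x, by rw [hp]; linear_combination hz⟩, hc, ?_⟩
  have haN : (a : ℤ) ≤ N := by exact_mod_cast ha
  have ha0 : (0 : ℤ) ≤ a := by positivity
  have bnd : ∀ w q : ℤ, (t : ℤ) * |w| ≤ 2 * M → |q| ≤ t →
      (t : ℤ) * |w + a * q| ≤ (2 + 2 * N) * M := by
    intro w q hw hq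
    have e1 : |w + a * q| ≤ |w| + a * t := by
      have := abs_add_le w (a * q)
      rw [abs_mul, abs_of_nonneg ha0] at this
      nlinarith
    have e2 : (t : ℤ) * |w + a * q| ≤ t * (|w| + a * t) := mul_le_mul_of_nonneg_left e1 htz.le
    have e3 : (a : ℤ) * (t * t) ≤ N * (2 * M) :=
      mul_le_mul haN h3 (by positivity) (by positivity)
    nlinarith
  rw [nrm_cast]
  rcases le_total |r + a * p| |s + a * y| with h | h
  · rw [max_eq_right h]; exact bnd s y h5 (hn ▸ le_max_right _ _)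
  · rw [max_eq_left h]; exact bnd r p h4 (hn ▸ le_max_left _ _)

lemma count_small (M s : ℕ) (hs : s < M) :
    ((range M).filter fun α : ℕ => lam M α ≤ s).card ≤ 6 * s ^ 2 := by
  classical
  have hsub : ((range M).filter fun α : ℕ => lam M α ≤ s) ⊆
      (Icc 1 s).biUnion fun g => (range (g + 1) ×ˢ range (2 * s / g + 1)).biUnion fun xq =>
        (range M).filter fun α => (g * α + s - M * xq.1) / g = xq.2 ∧ M * xq.1 ≤ g * α + s := by
    intro α hα
    rw [mem_filter, mem_range] at hα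
    obtain ⟨f0, g0, h0, hin, hl⟩ := lam_spec M α
    have : ∃ (f : ℤ) (g : ℕ), ¬ (f = 0 ∧ g = 0) ∧ InL M α f g ∧ |f| ≤ s ∧ g ≤ s := by
      have hb := hα.2
      rw [hl, nrm] at hb
      rcases le_total 0 g0 with h | h
      · refine ⟨f0, g0.natAbs, by omega, ?_, by rw [Int.abs_eq_natAbs]; omega, by omega⟩
        rwa [Int.natCast_natAbs, abs_of_nonneg h]
      · refine ⟨-f0, g0.natAbs, by omega, ?_, by rw [Int.abs_eq_natAbs]; omega, by omega⟩
        rw [Int.natCast_natAbs, abs_of_nonpos h]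
        obtain ⟨x, hx⟩ := hin
        exact ⟨-x, by linarith⟩
    obtain ⟨f, g, h0, ⟨x, hx⟩, hf, hg⟩ := this
    rw [abs_le] at hf
    have hMs : (s : ℤ) < M := by exact_mod_cast hs
    have hαM : (α : ℤ) < M := by exact_mod_cast hα.1
    have hgα : (0 : ℤ) ≤ g * α := by positivity
    have hx0 : 0 ≤ x := by
      by_contra h
      have : (M : ℤ) * x ≤ M * (-1) := mul_le_mul_of_nonneg_left (by omega) (by positivity)
      linarith
    have hxg : x ≤ g := by
      by_contra h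
      have h1 : (M : ℤ) * (g + 1) ≤ M * x := mul_le_mul_of_nonneg_left (by omega) (by positivity)
      have h2 : (g : ℤ) * α ≤ g * M := mul_le_mul_of_nonneg_left hαM.le (by positivity)
      linarith
    have hg1 : 1 ≤ g := by
      by_contra h
      have hg0 : g = 0 := by omega
      subst hg0
      have : x = 0 := by omega
      subst this
      apply h0
      simp at hx
      exact ⟨hx, rfl⟩
    obtain ⟨x', rfl⟩ := Int.eq_ofNat_of_zero_le hx0
    have e1 : M * x' ≤ g * α + s := by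
      have : (M : ℤ) * x' ≤ g * α + s := by linarith
      exact_mod_cast this
    have e2 : g * α + s - M * x' ≤ 2 * s := by
      have : (g : ℤ) * α + s ≤ 2 * s + M * x' := by linarith
      have h3 : g * α + s ≤ 2 * s + M * x' := by exact_mod_cast this
      omega
    simp only [mem_biUnion, mem_Icc, mem_product, mem_range, mem_filter]
    refine ⟨g, ⟨hg1, hg⟩, (x', (g * α + s - M * x') / g), ⟨by omega, ?_⟩, hα.1, rfl, e1⟩
    exact Nat.lt_succ_of_le (Nat.div_le_div_right e2)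
  refine (card_le_card hsub).trans (card_biUnion_le.trans ?_)
  have : ∀ g ∈ Icc 1 s, ((range (g + 1) ×ˢ range (2 * s / g + 1)).biUnion fun xq =>
      (range M).filter fun α => (g * α + s - M * xq.1) / g = xq.2 ∧ M * xq.1 ≤ g * α + s).card
      ≤ 6 * s := by
    intro g hg
    rw [mem_Icc] at hg
    refine card_biUnion_le.trans ((sum_le_card_nsmul _ _ 1 ?_).trans ?_)
    · intro xq _
      rw [card_le_one]
      have aux : ∀ a b : ℕ, a < b → M * xq.1 ≤ g * a + s →
          (g * a + s - M * xq.1) / g < (g * b + s - M * xq.1) / g := by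
        intro a b hab h1
        have h2 : g * (a + 1) ≤ g * b := Nat.mul_le_mul_left _ hab
        have h3 : (g * a + s - M * xq.1) + g ≤ g * b + s - M * xq.1 := by
          rw [mul_add, mul_one] at h2; omega
        have h4 := Nat.div_le_div_right (c := g) h3
        rw [Nat.add_div_right _ (by omega)] at h4
        omega
      intro a ha b hb
      rw [mem_filter] at ha hb
      rcases lt_trichotomy a b with h | h | h
      · have := aux a b h ha.2.2; omega
      · exact h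
      · have := aux b a h hb.2.2; omega
    · simp only [card_product, card_range, smul_eq_mul, mul_one]
      have h1 : g * (2 * s / g) ≤ 2 * s := Nat.mul_div_le _ _
      have h2 : 2 * s / g ≤ 2 * s := Nat.div_le_self _ _
      nlinarith
  refine (sum_le_card_nsmul _ _ _ this).trans ?_
  simp only [Nat.card_Icc, smul_eq_mul]
  have : s + 1 - 1 = s := by omega
  rw [this]; nlinarith

lemma inv_le (t S : ℕ) (ht : 0 < t) : (1 : ℝ) / t ≤ 1 / ((S : ℝ) + 1) +
    ∑ s ∈ range S, if t ≤ s + 1 then 1 / (((s : ℝ) + 1) * (s + 2)) else 0 := by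
  induction S with
  | zero =>
    simp only [CharP.cast_eq_zero, zero_add, range_zero, sum_empty, add_zero]
    exact one_div_le_one_div_of_le (by norm_num) (by exact_mod_cast ht)
  | succ S ih =>
    rw [sum_range_succ]
    push_cast
    split_ifs with h
    · have : (1 : ℝ) / ((S : ℝ) + 1) = 1 / (S + 1 + 1) + 1 / ((S + 1) * (S + 2)) := by
        field_simp; ring
      linarith
    · have h1 : (1 : ℝ) / t ≤ 1 / (S + 1 + 1) :=
        one_div_le_one_div_of_le (by positivity) (by exact_mod_cast (by omega : S + 1 + 1 ≤ t))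
      have h2 : (0 : ℝ) ≤ ∑ s ∈ range S,
          if t ≤ s + 1 then 1 / (((s : ℝ) + 1) * (s + 2)) else 0 :=
        sum_nonneg fun s _ => by split_ifs <;> positivity
      linarith

lemma sum_inv_lam (M : ℕ) (hM : 0 < M) :
    ∑ α ∈ range M, Real.sqrt M / lam M (α : ℕ) ≤ 8 * M := by
  set R := Nat.sqrt M with hR
  have hR1 : 1 ≤ R := Nat.sqrt_pos.2 hM
  have hRM : R ≤ M := Nat.sqrt_le_self M
  obtain ⟨S, hS⟩ : ∃ S, R = S + 1 := ⟨R - 1, by omega⟩
  have h1 : ∑ α ∈ range M, (1 : ℝ) / lam M (α : ℕ) ≤ M / R + 6 * S := by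
    refine (sum_le_sum fun α _ => inv_le _ S (lam_pos _ _)).trans ?_
    rw [sum_add_distrib, sum_comm]
    apply add_le_add
    · simp [hS, div_eq_mul_inv]
    · have : ∀ s ∈ range S, ∑ α ∈ range M,
          (if lam M (α : ℕ) ≤ s + 1 then 1 / (((s : ℝ) + 1) * (s + 2)) else 0) ≤ 6 := by
        intro s hs
        rw [mem_range] at hs
        rw [← sum_filter, sum_const, nsmul_eq_mul]
        have h2 := count_small M (s + 1) (by omega)
        have h3 : (((range M).filter fun α : ℕ => lam M α ≤ s + 1).card : ℝ) ≤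
          6 * ((s : ℝ) + 1) ^ 2 := by exact_mod_cast h2
        rw [mul_one_div, div_le_iff₀ (by positivity)]
        nlinarith [(Nat.cast_nonneg s : (0 : ℝ) ≤ s)]
      refine (sum_le_card_nsmul _ _ _ this).trans ?_
      simp [mul_comm]
  have hsq : Real.sqrt M ≤ R + 1 := by
    rw [Real.sqrt_le_left (by positivity)]
    exact_mod_cast (Nat.lt_succ_sqrt' M).le
  have hsq2 : (R : ℝ) * R ≤ M := by exact_mod_cast Nat.sqrt_le M
  have hRr : (1 : ℝ) ≤ R := by exact_mod_cast hR1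
  have hSr : (S : ℝ) = R - 1 := by rw [hS]; push_cast; ring
  have h2 : ∑ α ∈ range M, Real.sqrt M / lam M (α : ℕ) =
      Real.sqrt M * ∑ α ∈ range M, (1 : ℝ) / lam M (α : ℕ) := by
    rw [mul_sum]; simp [div_eq_mul_inv]
  rw [h2]
  have h3 : (0 : ℝ) ≤ M / R + 6 * S := by positivity
  calc _ ≤ Real.sqrt M * (M / R + 6 * S) := mul_le_mul_of_nonneg_left h1 (Real.sqrt_nonneg _)
    _ ≤ (R + 1) * (M / R + 6 * S) := mul_le_mul_of_nonneg_right hsq h3
    _ ≤ 8 * M := by
      have h4 : ((R : ℝ) + 1) * (M / R) ≤ 2 * M := by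
        rw [← mul_div_assoc, div_le_iff₀ (by positivity)]
        nlinarith [(Nat.cast_nonneg M : (0 : ℝ) ≤ M)]
      rw [hSr]
      nlinarith

end Pool.Agent.H9.Adic
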