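import Mathlib

namespace Pool.Agent.H9.Alzer

open Set MeasureTheory Real

variable {A : Type*} [CStarAlgebra A] [PartialOrder A] [StarOrderedRing A]

def Refl (Zp Zm X : A) : Prop :=
  ∀ w : A, w + star w + X ≤ star (1 + w) * Zp * (1 + w) - star (1 - w) * Zm * (1 - w)

omit [PartialOrder A] [StarOrderedRing A] in
lemma par_id (P Q S y r : A) (hP : star P = P) (hS : star S = S)
    (h1 : (P + Q) * S = 1) (h2 : S * (P + Q) = 1) :
    star (y - r) * P * (y - r) + star r * Q * r - star y * (P - P * S * P) * y =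
      star (r - S * P * y) * (P + Q) * (r - S * P * y) := by
  have e : star (r - S * P * y) * (P + Q) * (r - S * P * y) =
      star r * (P + Q) * r - star r * ((P + Q) * S) * P * y - star y * P * (S * (P + Q)) * r
        + star y * P * (S * (P + Q)) * S * P * y := by
    simp only [star_sub, star_mul, hP, hS]
    noncomm_ring
  rw [e, h1, h2, star_sub]
  noncomm_ring

lemma base (a : A) (h : 0 ≤ 1 - (2 : ℝ) • a) :
    Refl (1 - a) a (1 - (2 : ℝ) • a) := by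
  intro w
  have h1 := star_left_conjugate_nonneg h w
  have e : star (1 + w) * (1 - a) * (1 + w) - star (1 - w) * a * (1 - w) =
      (w + star w + (1 - (2 : ℝ) • a)) + star w * (1 - (2 : ℝ) • a) * w := by
    simp only [two_smul, star_add, star_sub, star_one]
    noncomm_ring
  rw [e]
  exact le_add_of_nonneg_right h1

lemma stepT {Zp Zm X1 Yp Ym X2 Sp Sm : A} (t : ℝ) (ht : 0 < t)
    (hZ : Refl Zp Zm X1) (hY : Refl Yp Ym X2)
    (hZp : star Zp = Zp) (hZm : 0 ≤ Zm) (hYm : 0 ≤ Ym)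
    (hSp : star Sp = Sp) (hSm : star Sm = Sm)
    (p1 : (t • Zp + Yp) * Sp = 1) (p2 : Sp * (t • Zp + Yp) = 1)
    (m1 : (t • Zm + Ym) * Sm = 1) (m2 : Sm * (t • Zm + Ym) = 1) (w : A) :
    (t⁻¹ - (t + 1)⁻¹) • (w + star w + X1) + ((t + 1) ^ 2)⁻¹ • (X2 - X1) ≤
      star (1 + w) * (t⁻¹ • Zp - Zp * Sp * Zp) * (1 + w)
        - star (1 - w) * (t⁻¹ • Zm - Zm * Sm * Zm) * (1 - w) := by
  have ht' : t ≠ 0 := ht.ne'
  have ht1 : t + 1 ≠ 0 := by positivity
  have sc : ∀ Z Y S : A, (t • Z + Y) * S = 1 → S * (t • Z + Y) = 1 →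
      (t⁻¹ • Z + (t ^ 2)⁻¹ • Y) * (t ^ 2 • S) = 1 ∧ (t ^ 2 • S) * (t⁻¹ • Z + (t ^ 2)⁻¹ • Y) = 1 ∧
      (t⁻¹ • Z) * (t ^ 2 • S) * (t⁻¹ • Z) = Z * S * Z := by
    intro Z Y S h1 h2
    refine ⟨?_, ?_, ?_⟩
    · rw [← h1]
      simp only [add_mul, smul_mul_assoc, mul_smul_comm, smul_add, smul_smul]
      match_scalars <;> field_simp
    · rw [← h2]
      simp only [mul_add, smul_mul_assoc, mul_smul_comm, smul_add, smul_smul]
      match_scalars <;> field_simp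
    · simp only [smul_mul_assoc, mul_smul_comm, smul_smul]
      match_scalars; field_simp
  obtain ⟨a1, a2, a3⟩ := sc _ _ _ p1 p2
  obtain ⟨b1, b2, b3⟩ := sc _ _ _ m1 m2
  set r : A := (t ^ 2 • Sp) * (t⁻¹ • Zp) * (1 + w) with hr
  have ep := par_id (t⁻¹ • Zp) ((t ^ 2)⁻¹ • Yp) (t ^ 2 • Sp) (1 + w) r (by simp [hZp])
    (by simp [hSp]) a1 a2
  rw [← hr, sub_self, mul_zero, a3, sub_eq_zero] at ep
  clear_value r
  set w1 : A := (t + 1) • (1 + w - r) - 1 with hw1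
  set w2 : A := ((t + 1) / t) • r - 1 with hw2
  have em := par_id (t⁻¹ • Zm) ((t ^ 2)⁻¹ • Ym) (t ^ 2 • Sm) (1 - w) ((t / (t + 1)) • (1 - w2))
    (by simp [hZm.isSelfAdjoint.star_eq]) (by simp [hSm]) b1 b2
  have hpos : 0 ≤ t⁻¹ • Zm + (t ^ 2)⁻¹ • Ym := by positivity
  have em' := star_left_conjugate_nonneg hpos
    ((t / (t + 1)) • (1 - w2) - (t ^ 2 • Sm) * (t⁻¹ • Zm) * (1 - w))
  rw [← em, b3, sub_nonneg] at em'
  have c1 : 1 + w - r = (t + 1)⁻¹ • (1 + w1) := by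
    rw [hw1]; match_scalars <;> field_simp <;> ring
  have c2 : r = (t / (t + 1)) • (1 + w2) := by
    rw [hw2]; match_scalars <;> field_simp <;> ring
  have c3 : 1 - w - (t / (t + 1)) • (1 - w2) = (t + 1)⁻¹ • (1 - w1) := by
    rw [hw1, hw2]; match_scalars <;> field_simp <;> ring
  have c4 : w = (t + 1)⁻¹ • w1 + (t / (t + 1)) • w2 := by
    rw [hw1, hw2]; match_scalars <;> field_simp <;> ring
  rw [c3] at em'
  rw [c1] at ep
  clear_value w1 w2
  rw [c2] at ep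
  have i1 := smul_le_smul_of_nonneg_left (hZ w1) (show (0 : ℝ) ≤ (t * (t + 1) ^ 2)⁻¹ by positivity)
  have i2 := smul_le_smul_of_nonneg_left (hY w2) (show (0 : ℝ) ≤ ((t + 1) ^ 2)⁻¹ by positivity)
  rw [← ep]
  refine le_trans (le_of_eq ?_) (le_trans (add_le_add i1 i2) (le_trans (le_of_eq ?_)
    (sub_le_sub_left em' _)))
  · rw [c4]
    simp only [star_add, star_smul, star_trivial]
    match_scalars <;> field_simp <;> ring
  · generalize 1 + w1 = u1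
    generalize 1 - w1 = v1
    generalize 1 + w2 = u2
    generalize 1 - w2 = v2
    simp only [star_smul, star_trivial, smul_mul_assoc, mul_smul_comm, smul_smul]
    match_scalars <;> field_simp

lemma cfc_formula {p t : ℝ} (hp : p ∈ Ioo (0 : ℝ) 1) (ht : 0 < t) (x : A) (hx : 0 ≤ x) :
    cfcₙ (rpowIntegrand₀₁ p t) x =
      t ^ p • (t⁻¹ • (1 : A) - Ring.inverse (algebraMap ℝ A t + x)) := by
  have hc : ContinuousOn (rpowIntegrand₀₁ p t) (quasispectrum ℝ x) :=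
    (continuousOn_rpowIntegrand₀₁_Ici hp ht).mono (by grind)
  rw [cfcₙ_eq_cfc hc rpowIntegrand₀₁_zero_right, rpowIntegrand₀₁_eq_sub (by grind) ht]
  have hg : ContinuousOn (fun z : ℝ => (t + z)⁻¹) (spectrum ℝ x) := by
    fun_prop (disch := grind -abstractProof)
  have hspectrum :  ∀ r ∈ spectrum ℝ x, t + r ≠ 0 := by grind
  have := cfc_sub (fun _ : ℝ => t ^ (p - 1)) (fun z : ℝ => t ^ p * (t + z)⁻¹) x
  rw [this, cfc_const .., cfc_const_mul .., cfc_inv _ _ hspectrum .., cfc_const_add ..,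
      cfc_id' .., smul_sub, smul_smul, Algebra.algebraMap_eq_smul_one, rpow_sub_one ht.ne',
      div_eq_mul_inv]

lemma op_integral {p : NNReal} (hp : p ∈ Ioo (0 : NNReal) 1) {μ : Measure ℝ}
    (hμ : ∀ x ∈ Ici (0 : ℝ), (IntegrableOn (fun t => rpowIntegrand₀₁ p t x) (Ioi 0) μ)
      ∧ x ^ (p : ℝ) = ∫ t in Ioi 0, rpowIntegrand₀₁ p t x ∂μ) (a : A) (ha : 0 ≤ a) :
    (IntegrableOn (fun t => cfcₙ (rpowIntegrand₀₁ p t) a) (Ioi 0) μ)
      ∧ a ^ p = ∫ t in Ioi 0, cfcₙ (rpowIntegrand₀₁ p t) a ∂μ := by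
  nontriviality A
  have p_pos : 0 < (p : ℝ) := by exact_mod_cast hp.1
  let f t := rpowIntegrand₀₁ p t
  let maxr := sSup (quasispectrum ℝ a)
  have maxr_nonneg : 0 ≤ maxr :=
    le_csSup_of_le (b := 0) (IsCompact.bddAbove (by grind)) (by simp) (by simp)
  let bound (t : ℝ) := ‖f t maxr‖
  have hf : ContinuousOn (Function.uncurry f) (Ioi (0 : ℝ) ×ˢ quasispectrum ℝ a) := by
    refine continuousOn_rpowIntegrand₀₁_uncurry hp (quasispectrum ℝ a) ?_
    grind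
  have hbound : ∀ᵐ t ∂μ.restrict (Ioi 0), ∀ z ∈ quasispectrum ℝ a, ‖f t z‖ ≤ bound t := by
    filter_upwards [ae_restrict_mem measurableSet_Ioi] with t ht
    intro z hz
    have hz' : 0 ≤ z := by grind
    unfold bound f
    rw [Real.norm_of_nonneg (rpowIntegrand₀₁_nonneg p_pos (le_of_lt ht) hz'),
        Real.norm_of_nonneg (rpowIntegrand₀₁_nonneg p_pos (le_of_lt ht) maxr_nonneg)]
    refine rpowIntegrand₀₁_monotoneOn hp (le_of_lt ht) hz' maxr_nonneg ?_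
    exact le_csSup (IsCompact.bddAbove (quasispectrum.isCompact _)) hz
  have hbound_finite_integral : HasFiniteIntegral bound (μ.restrict (Ioi 0)) := by
    rw [hasFiniteIntegral_norm_iff]
    exact (hμ maxr maxr_nonneg).1.2
  have hmapzero : ∀ᵐ (x : ℝ) ∂μ.restrict (Ioi 0), rpowIntegrand₀₁ p x 0 = 0 := by
    filter_upwards [ae_restrict_mem measurableSet_Ioi]
    simp
  refine ⟨?integrable, ?integral⟩
  case integrable =>
    exact integrableOn_cfcₙ measurableSet_Ioi _ bound a hf hmapzero hbound hbound_finite_integral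
  case integral => calc
    a ^ p = cfcₙ (fun r => ∫ t in Ioi 0, rpowIntegrand₀₁ p t r ∂μ) a := by
      rw [CFC.nnrpow_eq_cfcₙ_real _ _]
      exact cfcₙ_congr fun r _ ↦ (hμ r (by grind)).2
    _ = _ := cfcₙ_setIntegral measurableSet_Ioi _ bound a hf hmapzero hbound
                hbound_finite_integral ha.isSelfAdjoint

lemma moment {p : ℝ} (hp : p ∈ Ioo (0 : ℝ) 1) {μ : Measure ℝ}
    (hμ : ∀ x ∈ Ici (0 : ℝ), (IntegrableOn (fun t => rpowIntegrand₀₁ p t x) (Ioi 0) μ)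
      ∧ x ^ (p : ℝ) = ∫ t in Ioi 0, rpowIntegrand₀₁ p t x ∂μ) :
    IntegrableOn (fun t : ℝ => t ^ p * ((t + 1) ^ 2)⁻¹) (Ioi 0) μ ∧
      ∫ t in Ioi 0, t ^ p * ((t + 1) ^ 2)⁻¹ ∂μ = p := by
  have h1 := hμ 1 (by simp)
  have hi : IntegrableOn (fun t : ℝ => t ^ p * ((t + 1) ^ 2)⁻¹) (Ioi 0) μ := by
    refine Integrable.mono' h1.1 ?_ ?_
    · refine ContinuousOn.aestronglyMeasurable ?_ measurableSet_Ioi
      refine ContinuousOn.mul (continuousOn_id.rpow_const fun x hx => Or.inl (ne_of_gt hx)) ?_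
      refine ContinuousOn.inv₀ (by fun_prop) fun x hx => ?_
      have : 0 < x := hx
      positivity
    · filter_upwards [ae_restrict_mem measurableSet_Ioi] with t ht
      have ht : 0 < t := ht
      rw [Real.norm_of_nonneg (by positivity), rpowIntegrand₀₁]
      refine mul_le_mul_of_nonneg_left ?_ (by positivity)
      have : t⁻¹ - (t + 1)⁻¹ - ((t + 1) ^ 2)⁻¹ = (t * (t + 1) ^ 2)⁻¹ := by field_simp; ring
      have : 0 ≤ (t * (t + 1) ^ 2)⁻¹ := by positivity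
      linarith
  refine ⟨hi, ?_⟩
  set σ := ∫ t in Ioi 0, t ^ p * ((t + 1) ^ 2)⁻¹ ∂μ with hσ
  have key : ∀ x : ℝ, 0 ≤ x → x ^ p - σ * x ≤ (1 : ℝ) ^ p - σ * 1 := by
    intro x hx
    have h2 := hμ x hx
    have h3 : ∫ t in Ioi 0, rpowIntegrand₀₁ p t x ∂μ ≤
        ∫ t in Ioi 0, (rpowIntegrand₀₁ p t 1 + (x - 1) * (t ^ p * ((t + 1) ^ 2)⁻¹)) ∂μ := by
      refine setIntegral_mono_on h2.1 (h1.1.add (hi.const_mul _)) measurableSet_Ioi ?_
      intro t ht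
      have ht : 0 < t := ht
      have e : rpowIntegrand₀₁ p t 1 + (x - 1) * (t ^ p * ((t + 1) ^ 2)⁻¹) - rpowIntegrand₀₁ p t x
          = t ^ p * ((x - 1) ^ 2 / ((t + x) * (t + 1) ^ 2)) := by
        unfold rpowIntegrand₀₁; field_simp; ring
      have : 0 ≤ t ^ p * ((x - 1) ^ 2 / ((t + x) * (t + 1) ^ 2)) := by positivity
      linarith
    rw [integral_add h1.1 (hi.const_mul _), integral_const_mul, ← h1.2, ← h2.2, ← hσ] at h3
    linarith
  have hmax : IsLocalMax (fun x : ℝ => x ^ p - σ * x) 1 := by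
    filter_upwards [Ici_mem_nhds (show (0 : ℝ) < 1 by norm_num)] with x hx using key x hx
  have hd : HasDerivAt (fun x : ℝ => x ^ p - σ * x) (p * (1 : ℝ) ^ (p - 1) - σ * 1) 1 :=
    (Real.hasDerivAt_rpow_const (Or.inl one_ne_zero)).sub ((hasDerivAt_id (1 : ℝ)).const_mul σ)
  have := hmax.hasDerivAt_eq_zero hd
  simp at this
  linarith

noncomputable def Phi (p : ℝ) (X Y : A) : A :=
  Y ^ (1 / 2 : ℝ) * (Y ^ (-(1 / 2) : ℝ) * X * Y ^ (-(1 / 2) : ℝ)) ^ p * Y ^ (1 / 2 : ℝ)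

lemma conj_pos {X Y : A} (hX : IsStrictlyPositive X) (hY : IsStrictlyPositive Y) :
    IsStrictlyPositive (Y * X * Y) := by
  refine ⟨?_, (hY.isUnit.mul hX.isUnit).mul hY.isUnit⟩
  have := star_left_conjugate_nonneg hX.nonneg Y
  rwa [hY.nonneg.isSelfAdjoint.star_eq] at this

lemma Phi_pos (p : ℝ) {X Y : A} (hX : IsStrictlyPositive X) (hY : IsStrictlyPositive Y) :
    IsStrictlyPositive (Phi p X Y) :=
  conj_pos ((conj_pos hX (hY.rpow _ _)).rpow _ _) (hY.rpow _ _)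

lemma sandwich {p t : ℝ} (hp : p ∈ Ioo (0 : ℝ) 1) (ht : 0 < t) {X Z : A}
    (hX : IsStrictlyPositive X) (hZ : IsStrictlyPositive Z) :
    ∃ S : A, star S = S ∧ (t • Z + X) * S = 1 ∧ S * (t • Z + X) = 1 ∧
      Z ^ (1 / 2 : ℝ) * cfcₙ (rpowIntegrand₀₁ p t) (Z ^ (-(1 / 2) : ℝ) * X * Z ^ (-(1 / 2) : ℝ))
        * Z ^ (1 / 2 : ℝ) = t ^ p • (t⁻¹ • Z - Z * S * Z) := by
  have hC := conj_pos hX (hZ.rpow Z (-(1 / 2) : ℝ))
  have h1 := CFC.rpow_mul_rpow_neg (1 / 2 : ℝ) hZ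
  have h2 := CFC.rpow_neg_mul_rpow (1 / 2 : ℝ) hZ
  have h3 : Z ^ (1 / 2 : ℝ) * Z ^ (1 / 2 : ℝ) = Z := by
    rw [← CFC.rpow_add hZ.isUnit]; norm_num; exact CFC.rpow_one Z hZ.nonneg
  have hg : star (Z ^ (-(1 / 2) : ℝ)) = Z ^ (-(1 / 2) : ℝ) := CFC.rpow_nonneg.isSelfAdjoint.star_eq
  rw [cfc_formula hp ht _ hC.nonneg]
  generalize Z ^ (1 / 2 : ℝ) = h at *
  generalize Z ^ (-(1 / 2) : ℝ) = g at *
  have hD : IsStrictlyPositive (algebraMap ℝ A t + g * X * g) := by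
    refine IsStrictlyPositive.nonneg_add ?_ hC
    rw [Algebra.algebraMap_eq_smul_one]
    exact smul_nonneg ht.le zero_le_one
  have w1 := Ring.mul_inverse_cancel _ hD.isUnit
  have w2 := Ring.inverse_mul_cancel _ hD.isUnit
  have w3 := hD.ringInverse.nonneg.isSelfAdjoint.star_eq
  generalize Ring.inverse (algebraMap ℝ A t + g * X * g) = W at *
  have e : t • Z + X = h * (algebraMap ℝ A t + g * X * g) * h := by
    have : h * (g * X * g) * h = (h * g) * X * (g * h) := by noncomm_ring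
    rw [mul_add, add_mul, this, h1, h2, Algebra.algebraMap_eq_smul_one, ← h3]
    simp
  refine ⟨g * W * g, by simp [star_mul, hg, w3, mul_assoc], ?_, ?_, ?_⟩
  · rw [e]
    calc _ = h * ((algebraMap ℝ A t + g * X * g) * (h * g) * W) * g := by noncomm_ring
      _ = 1 := by rw [h1, mul_one, w1, mul_one, h1]
  · rw [e]
    calc _ = g * (W * (g * h) * (algebraMap ℝ A t + g * X * g)) * h := by noncomm_ring
      _ = 1 := by rw [h2, mul_one, w2, mul_one, h2]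
  · have : Z * (g * W * g) * Z = h * W * h := by
      rw [← h3]
      calc _ = h * (h * g) * W * (g * h) * h := by noncomm_ring
        _ = _ := by rw [h1, h2]; simp
    rw [this, ← h3]
    simp [mul_sub, sub_mul]

lemma step {p : ℝ} (hp : p ∈ Ioo (0 : ℝ) 1) {Zp Zm X1 Yp Ym X2 : A}
    (hZ : Refl Zp Zm X1) (hY : Refl Yp Ym X2)
    (hZp : IsStrictlyPositive Zp) (hZm : IsStrictlyPositive Zm)
    (hYp : IsStrictlyPositive Yp) (hYm : IsStrictlyPositive Ym) :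
    Refl (Phi p Yp Zp) (Phi p Ym Zm) (X1 + p • (X2 - X1)) := by
  intro w
  obtain ⟨μ, hμ⟩ := exists_measure_rpow_eq_integral_rpowIntegrand₀₁ hp
  lift p to NNReal using hp.1.le
  have hp' : p ∈ Ioo (0 : NNReal) 1 := ⟨by exact_mod_cast hp.1, by exact_mod_cast hp.2⟩
  have key : ∀ (Y Z u : A), IsStrictlyPositive Y → IsStrictlyPositive Z →
      IntegrableOn (fun t => star u * (Z ^ (1 / 2 : ℝ) * cfcₙ (rpowIntegrand₀₁ p t)
        (Z ^ (-(1 / 2) : ℝ) * Y * Z ^ (-(1 / 2) : ℝ)) * Z ^ (1 / 2 : ℝ)) * u) (Ioi 0) μ ∧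
      star u * Phi p Y Z * u = ∫ t in Ioi 0, star u * (Z ^ (1 / 2 : ℝ) * cfcₙ (rpowIntegrand₀₁ p t)
        (Z ^ (-(1 / 2) : ℝ) * Y * Z ^ (-(1 / 2) : ℝ)) * Z ^ (1 / 2 : ℝ)) * u ∂μ := by
    intro Y Z u hY hZ
    obtain ⟨i1, i2⟩ := op_integral hp' hμ _ (conj_pos hY (hZ.rpow Z (-(1 / 2) : ℝ))).nonneg
    let L := ContinuousLinearMap.mulLeftRight ℝ A (star u * Z ^ (1 / 2 : ℝ)) (Z ^ (1 / 2 : ℝ) * u)
    have hL : ∀ x, L x = star u * (Z ^ (1 / 2 : ℝ) * x * Z ^ (1 / 2 : ℝ)) * u := by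
      intro x; simp [L, mul_assoc]
    simp only [← hL]
    refine ⟨L.integrable_comp i1, ?_⟩
    rw [L.integral_comp_comm i1, ← i2, hL, Phi, CFC.nnrpow_eq_rpow hp'.1]
  obtain ⟨a1, a2⟩ := key Yp Zp (1 + w) hYp hZp
  obtain ⟨b1, b2⟩ := key Ym Zm (1 - w) hYm hZm
  obtain ⟨c1, c2⟩ := moment hp hμ
  obtain ⟨d1, d2⟩ := hμ 1 (by simp)
  rw [Real.one_rpow] at d2
  have e : w + star w + (X1 + (p : ℝ) • (X2 - X1)) = ∫ t in Ioi 0,
      (rpowIntegrand₀₁ p t 1 • (w + star w + X1) + (t ^ (p : ℝ) * ((t + 1) ^ 2)⁻¹) • (X2 - X1)) ∂μ := by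
    rw [integral_add (d1.smul_const _) (c1.smul_const _), integral_smul_const, integral_smul_const,
      ← d2, c2, one_smul, add_assoc (w + star w)]
  rw [a2, b2, e, ← integral_sub a1 b1]
  refine integral_mono_ae ((d1.smul_const _).add (c1.smul_const _)) (a1.sub b1) ?_
  filter_upwards [ae_restrict_mem measurableSet_Ioi] with t ht
  have ht : 0 < t := ht
  obtain ⟨Sp, s1, s2, s3, s4⟩ := sandwich hp ht hYp hZp
  obtain ⟨Sm, r1, r2, r3, r4⟩ := sandwich hp ht hYm hZm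
  have := stepT t ht hZ hY hZp.nonneg.isSelfAdjoint.star_eq hZm.nonneg hYm.nonneg s1 r1 s2 s3 r2 r3 w
  have h2 := smul_le_smul_of_nonneg_left this (show (0 : ℝ) ≤ t ^ (p : ℝ) by positivity)
  rw [s4, r4, rpowIntegrand₀₁]
  simp only [mul_smul_comm, smul_mul_assoc]
  rw [← smul_sub, mul_smul, mul_smul, ← smul_add]
  exact h2

end Pool.Agent.H9.Alzer
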