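import Mathlib

/-! The bidual of a normed algebra with the first Arens product, and the group algebra `ℓ¹(ℤ)`. -/
namespace Pool.Agent.H9.Arens
open Filter Topology

/-- The continuous dual of a complex normed space. -/
def Dual (E : Type) [NormedAddCommGroup E] [NormedSpace ℂ E] : Type := E →L[ℂ] ℂ

noncomputable instance (E : Type) [NormedAddCommGroup E] [NormedSpace ℂ E] :
    NormedAddCommGroup (Dual E) := (inferInstance : NormedAddCommGroup (E →L[ℂ] ℂ))
noncomputable instance (E : Type) [NormedAddCommGroup E] [NormedSpace ℂ E] :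
    NormedSpace ℂ (Dual E) := (inferInstance : NormedSpace ℂ (E →L[ℂ] ℂ))

/-- Evaluation of a functional. -/
noncomputable def Dual.ev {E : Type} [NormedAddCommGroup E] [NormedSpace ℂ E] (f : Dual E) (x : E) : ℂ :=
  (show E →L[ℂ] ℂ from f) x

/-- The functional given by a bounded linear function. -/
noncomputable def Dual.mk {E : Type} [NormedAddCommGroup E] [NormedSpace ℂ E] (g : E → ℂ)
    (h : IsBoundedLinearMap ℂ g) : Dual E := h.toContinuousLinearMap g

section bidual
variable (A : Type) [NormedRing A] [NormedAlgebra ℂ A]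

/-- The bidual `A''` of a normed algebra. -/
def Bidual : Type := Dual (Dual A)

noncomputable instance : AddCommGroup (Bidual A) :=
  (inferInstance : AddCommGroup (Dual (Dual A)))

variable {A}

/-- the underlying functional on `A'` -/
def Bidual.toFun (Φ : Bidual A) : StrongDual ℂ (StrongDual ℂ A) := Φ

lemma dualAct_bdd (f : Dual A) (a : A) : IsBoundedLinearMap ℂ fun b : A => f.ev (a * b) :=
  ((show A →L[ℂ] ℂ from f).comp (ContinuousLinearMap.mul ℂ A a)).isBoundedLinearMap

/-- `f · a`, where `(f · a) b = f (a * b)` -/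
noncomputable def dAct (f : Dual A) (a : A) : Dual A :=
  Dual.mk (fun b => f.ev (a * b)) (dualAct_bdd f a)

lemma bidualAct_bdd (Ψ : Dual (Dual A)) (f : Dual A) :
    IsBoundedLinearMap ℂ fun a : A => Ψ.ev (dAct f a) :=
  ((show StrongDual ℂ A →L[ℂ] ℂ from Ψ).comp
    ((ContinuousLinearMap.compL ℂ A A ℂ f).comp (ContinuousLinearMap.mul ℂ A))).isBoundedLinearMap

/-- `Ψ · f`, where `(Ψ · f) a = Ψ (f · a)` -/
noncomputable def bAct (Ψ : Dual (Dual A)) (f : Dual A) : Dual A :=
  Dual.mk (fun a => Ψ.ev (dAct f a)) (bidualAct_bdd Ψ f)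

lemma arens_bdd (Φ Ψ : Dual (Dual A)) :
    IsBoundedLinearMap ℂ fun f : Dual A => Φ.ev (bAct Ψ f) :=
  ((show StrongDual ℂ A →L[ℂ] ℂ from Φ).comp
    ((ContinuousLinearMap.compL ℂ A (StrongDual ℂ A) ℂ Ψ).comp
    (((ContinuousLinearMap.compL ℂ A (A →L[ℂ] A) (StrongDual ℂ A)).flip
      (ContinuousLinearMap.mul ℂ A)).comp (ContinuousLinearMap.compL ℂ A A ℂ)))).isBoundedLinearMap

/-- The first Arens product: `(Φ □ Ψ) f = Φ (Ψ · f)`. -/
noncomputable instance : Mul (Bidual A) :=
  ⟨fun Φ Ψ => Dual.mk (fun f => Dual.ev Φ (bAct Ψ f)) (arens_bdd Φ Ψ)⟩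

lemma one_bdd : IsBoundedLinearMap ℂ fun f : Dual A => f.ev 1 :=
  (NormedSpace.inclusionInDoubleDual ℂ A 1).isBoundedLinearMap

/-- The unit of the bidual: evaluation at the unit of `A`. -/
noncomputable instance : One (Bidual A) := ⟨Dual.mk (fun f => f.ev 1) one_bdd⟩

noncomputable def dualAct (f : StrongDual ℂ A) (a : A) : StrongDual ℂ A := dAct f a

noncomputable def bidualAct (Ψ : StrongDual ℂ (StrongDual ℂ A)) (f : StrongDual ℂ A) :
    StrongDual ℂ A := bAct Ψ f

lemma dualAct_apply (f : StrongDual ℂ A) (a b : A) : dualAct f a b = f (a * b) := rfl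

lemma bidualAct_apply (Ψ : StrongDual ℂ (StrongDual ℂ A)) (f : StrongDual ℂ A) (a : A) :
    bidualAct Ψ f a = Ψ (dualAct f a) := rfl

lemma mul_apply (Φ Ψ : Bidual A) (f : StrongDual ℂ A) :
    (Φ * Ψ).toFun f = Φ.toFun (bidualAct Ψ.toFun f) := rfl

lemma one_apply (f : StrongDual ℂ A) : (1 : Bidual A).toFun f = f 1 := rfl

lemma bext {Φ Ψ : Bidual A} (h : ∀ f, Φ.toFun f = Ψ.toFun f) : Φ = Ψ :=
  ContinuousLinearMap.ext h

noncomputable instance : Ring (Bidual A) := Ring.ofMinimalAxioms
  add_assoc zero_add neg_add_cancel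
  (fun Φ Ψ Θ => bext fun f => by
    rw [mul_apply, mul_apply, mul_apply]
    congr 1
    ext a
    rw [bidualAct_apply, bidualAct_apply, mul_apply]
    congr 1
    ext b
    rw [dualAct_apply, bidualAct_apply, bidualAct_apply]
    congr 1
    ext c
    simp only [dualAct_apply, mul_assoc])
  (fun Φ => bext fun f => by
    rw [mul_apply, one_apply, bidualAct_apply]
    congr 1
    ext c
    rw [dualAct_apply, one_mul])
  (fun Φ => bext fun f => by
    rw [mul_apply]
    congr 1
    ext c
    rw [bidualAct_apply, one_apply, dualAct_apply, mul_one])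
  (fun Φ Ψ Θ => bext fun f => by
    have : bidualAct (Ψ + Θ).toFun f = bidualAct Ψ.toFun f + bidualAct Θ.toFun f := by
      ext c; rfl
    rw [mul_apply, this, map_add]; rfl)
  (fun Φ Ψ Θ => bext fun f => rfl)

end bidual

/-- The Banach space `ℓ¹(ℤ)`. -/
abbrev L1 : Type := lp (fun _ : ℤ => ℂ) 1

/-- the coefficients of an element of `ℓ¹(ℤ)` -/
def L1.val (a : L1) : ℤ → ℂ := a

lemma mem_of {f : ℤ → ℂ} (h : Summable fun n => ‖f n‖) : Memℓp f 1 :=
  memℓp_gen (by simpa using h)

lemma hasSum_norm (a : L1) : HasSum (fun n => ‖a.val n‖) ‖a‖ := by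
  have := lp.hasSum_norm (p := 1) (by simp) (show lp (fun _ : ℤ => ℂ) 1 from a)
  simp only [ENNReal.toReal_one, Real.rpow_one] at this
  exact this

lemma lext {a b : L1} (h : ∀ n, a.val n = b.val n) : a = b := lp.ext (funext h)

def eqv : ℤ × ℤ ≃ ℤ × ℤ where
  toFun p := (p.2, p.1 - p.2)
  invFun p := (p.1 + p.2, p.1)
  left_inv p := by simp
  right_inv p := by simp

lemma hasSum2 (a b : L1) :
    HasSum (fun p : ℤ × ℤ => ‖a.val p.2 * b.val (p.1 - p.2)‖) (‖a‖ * ‖b‖) := by
  have h := (hasSum_norm a).mul (hasSum_norm b) (Summable.mul_of_nonneg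
    (hasSum_norm a).summable (hasSum_norm b).summable (fun _ => norm_nonneg _)
    (fun _ => norm_nonneg _))
  simp only [norm_mul]
  exact (eqv.hasSum_iff).2 h

lemma summable_conv (a b : L1) (n : ℤ) : Summable fun k => ‖a.val k * b.val (n - k)‖ :=
  (hasSum2 a b).summable.prod_factor n

lemma conv_le (a b : L1) (n : ℤ) :
    ‖∑' k, a.val k * b.val (n - k)‖ ≤ ∑' k, ‖a.val k * b.val (n - k)‖ :=
  norm_tsum_le_tsum_norm (summable_conv a b n)

lemma hasSum_conv (a b : L1) :
    HasSum (fun n => ∑' k, ‖a.val k * b.val (n - k)‖) (‖a‖ * ‖b‖) :=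
  (hasSum2 a b).prod_fiberwise fun n => (summable_conv a b n).hasSum

/-- Convolution on `ℓ¹(ℤ)`. -/
noncomputable instance : Mul L1 := ⟨fun a b =>
  (⟨fun n => ∑' k, a.val k * b.val (n - k), mem_of (Summable.of_nonneg_of_le
    (fun _ => norm_nonneg _) (conv_le a b) (hasSum_conv a b).summable)⟩ :
      lp (fun _ : ℤ => ℂ) 1)⟩

/-- point mass -/
noncomputable def delta (n : ℤ) : L1 := lp.single (E := fun _ : ℤ => ℂ) 1 n 1

noncomputable instance : One L1 := ⟨delta 0⟩

lemma mul_val (a b : L1) (n : ℤ) : (a * b).val n = ∑' k, a.val k * b.val (n - k) := rfl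
lemma add_val (a b : L1) (n : ℤ) : (a + b).val n = a.val n + b.val n := rfl
lemma smul_val (c : ℂ) (a : L1) (n : ℤ) : (c • a).val n = c * a.val n := rfl
lemma delta_val (n k : ℤ) : (delta n).val k = if k = n then 1 else 0 := by
  show lp.single (E := fun _ : ℤ => ℂ) 1 n 1 k = _
  rw [lp.single_apply, Pi.single_apply]

lemma norm_mul_le' (a b : L1) : ‖a * b‖ ≤ ‖a‖ * ‖b‖ :=
  hasSum_le (conv_le a b) (hasSum_norm (a * b)) (hasSum_conv a b)

lemma mul_comm' (a b : L1) : a * b = b * a := lext fun n => by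
  rw [mul_val, mul_val, ← (Equiv.subLeft n).tsum_eq]
  simp [mul_comm]

lemma mul_add' (a b c : L1) : a * (b + c) = a * b + a * c := lext fun n => by
  simp only [mul_val, add_val, mul_add]
  exact (summable_conv a b n).of_norm.tsum_add (summable_conv a c n).of_norm

lemma mul_smul' (c : ℂ) (a b : L1) : a * (c • b) = c • (a * b) := lext fun n => by
  simp only [mul_val, smul_val, ← tsum_mul_left, mul_left_comm]

lemma delta_mul (i : ℤ) (b : L1) (n : ℤ) : (delta i * b).val n = b.val (n - i) := by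
  rw [mul_val, tsum_eq_single i (fun k hk => by simp [delta_val, hk])]
  simp [delta_val]

noncomputable def mulL (a : L1) : L1 →L[ℂ] L1 :=
  LinearMap.mkContinuous ⟨⟨fun b => a * b, mul_add' a⟩, fun c b => mul_smul' c a b⟩ ‖a‖
    (norm_mul_le' a)

lemma clm_ext {F : Type} [NormedAddCommGroup F] [NormedSpace ℂ F] {f g : L1 →L[ℂ] F}
    (h : ∀ i, f (delta i) = g (delta i)) : f = g :=
  lp.ext_continuousLinearMap (E := fun _ : ℤ => ℂ) (p := 1) (by simp) fun i => by
    ext
    exact h i

lemma mul_assoc' (a b c : L1) : a * b * c = a * (b * c) := by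
  have : (mulL c).comp (mulL b) = mulL (b * c) := clm_ext fun i => by
    show c * (b * delta i) = b * c * delta i
    rw [mul_comm' c, mul_comm' b, mul_comm' (b * c)]
    refine lext fun n => ?_
    rw [delta_mul, mul_val, mul_val, ← (Equiv.addRight i).tsum_eq]
    refine tsum_congr fun k => ?_
    rw [delta_mul, Equiv.coe_addRight, add_sub_cancel_right]
    congr 2; ring
  have h : c * (b * a) = b * c * a := ContinuousLinearMap.ext_iff.1 this a
  rw [mul_comm' (a * b), mul_comm' a b, h, mul_comm']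

noncomputable instance : NormedCommRing L1 :=
  { (inferInstance : NormedAddCommGroup L1) with
    mul_assoc := mul_assoc'
    one_mul := fun a => lext fun n => by
      show (delta 0 * a).val n = _
      rw [delta_mul, sub_zero]
    mul_one := fun a => lext fun n => by
      show (a * delta 0).val n = _
      rw [mul_comm', delta_mul, sub_zero]
    left_distrib := mul_add'
    right_distrib := fun a b c => by rw [mul_comm', mul_add', mul_comm' c, mul_comm' c]
    zero_mul := fun a => by rw [mul_comm']; exact (mulL a).map_zero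
    mul_zero := fun a => (mulL a).map_zero
    mul_comm := mul_comm'
    norm_mul_le := norm_mul_le' }

noncomputable instance : Algebra ℂ L1 := Algebra.ofModule
  (fun c a b => by rw [mul_comm, mul_smul', mul_comm]) (fun c a b => mul_smul' c a b)

noncomputable instance : NormedAlgebra ℂ L1 where
  norm_smul_le := norm_smul_le

end Pool.Agent.H9.Arens
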