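import Pool.Agent.H9.Arens

/-! Radical elements of `ℓ¹(ℤ)''` with non-zero product. -/
namespace Pool.Agent.H9.Arens2
open Filter Topology Pool.Agent.H9.Arens

section abstract
variable {A : Type} [NormedCommRing A] [NormedAlgebra ℂ A]

lemma exists_lim (ψ : ℕ → A) (h : ∀ k, ‖ψ k‖ ≤ 1) : ∃ Ψ : Bidual A,
    ∀ f : StrongDual ℂ A, Tendsto (fun k => f (ψ k)) (hyperfilter ℕ) (𝓝 (Ψ.toFun f)) := by
  have hc := WeakDual.isCompact_closedBall (𝕜 := ℂ) (E := StrongDual ℂ A) 0 1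
  let u : ℕ → WeakDual ℂ (StrongDual ℂ A) := fun k =>
    StrongDual.toWeakDual (NormedSpace.inclusionInDoubleDual ℂ A (ψ k))
  obtain ⟨Ψ, -, hΨ⟩ := hc.ultrafilter_le_nhds ((hyperfilter ℕ).map u) (by
    rw [Ultrafilter.coe_map, le_principal_iff, mem_map]
    refine Eventually.of_forall fun k => ?_
    simp only [Set.mem_preimage, mem_closedBall_zero_iff]
    exact (NormedSpace.double_dual_bound ℂ A (ψ k)).trans (h k))
  refine ⟨WeakDual.toStrongDual Ψ, fun f => ?_⟩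
  exact ((WeakDual.eval_continuous f).tendsto Ψ).comp hΨ

lemma sq_zero (ψ : ℕ → A) (θ : ℕ → ℝ) (hθ : Tendsto θ atTop (𝓝 0))
    (h : ∀ k l, k ≤ l → ‖ψ k * ψ l‖ ≤ θ k) (Ψ : Bidual A)
    (hΨ : ∀ f : StrongDual ℂ A, Tendsto (fun k => f (ψ k)) (hyperfilter ℕ) (𝓝 (Ψ.toFun f)))
    (Θ : Bidual A) : Ψ * (Θ * Ψ) = 0 := by
  refine bext fun f => ?_
  have hU : (hyperfilter ℕ : Filter ℕ) ≤ atTop := Nat.hyperfilter_le_atTop
  rw [mul_apply]
  refine tendsto_nhds_unique (hΨ _) ?_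
  show Tendsto _ _ (𝓝 0)
  have h0 : Tendsto (fun k => ‖Θ.toFun‖ * (‖f‖ * θ k)) (hyperfilter ℕ) (𝓝 0) := by
    simpa using ((hθ.const_mul ‖f‖).const_mul ‖Θ.toFun‖).mono_left hU
  refine squeeze_zero_norm (fun k => ?_) h0
  rw [bidualAct_apply, mul_apply]
  have hk : 0 ≤ θ k := (norm_nonneg _).trans (h k k le_rfl)
  refine (Θ.toFun.le_opNorm _).trans (mul_le_mul_of_nonneg_left ?_ (norm_nonneg _))
  refine ContinuousLinearMap.opNorm_le_bound _ (by positivity) fun b => ?_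
  rw [bidualAct_apply]
  refine le_of_tendsto (hΨ _).norm (hU ?_)
  filter_upwards [eventually_ge_atTop k] with l hl
  show ‖f (ψ k * (b * ψ l))‖ ≤ _
  rw [mul_left_comm]
  calc _ ≤ ‖f‖ * ‖b * (ψ k * ψ l)‖ := f.le_opNorm _
    _ ≤ ‖f‖ * (‖b‖ * θ k) := by
      gcongr
      exact (norm_mul_le _ _).trans (mul_le_mul_of_nonneg_left (h k l hl) (norm_nonneg _))
    _ = _ := by ring

lemma mem_jac {B : Type} [Ring B] (x : B) (h : ∀ y, x * (y * x) = 0) : x ∈ Ring.jacobson B := by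
  rw [← Ideal.jacobson_bot, Ideal.mem_jacobson_iff]
  intro y
  refine ⟨1 - y * x, ?_⟩
  rw [Ideal.mem_bot]
  have : (1 - y * x) * y * x + (1 - y * x) - 1 = -(y * (x * (y * x))) := by noncomm_ring
  rw [this, h, mul_zero, neg_zero]

lemma mul_lim (φ ψ : ℕ → A) (Φ Ψ : Bidual A) (f : StrongDual ℂ A)
    (hΦ : ∀ f : StrongDual ℂ A, Tendsto (fun k => f (φ k)) (hyperfilter ℕ) (𝓝 (Φ.toFun f)))
    (hΨ : ∀ f : StrongDual ℂ A, Tendsto (fun k => f (ψ k)) (hyperfilter ℕ) (𝓝 (Ψ.toFun f)))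
    (h : ∀ k l, f (φ k * ψ l) = 1) : (Φ * Ψ).toFun f = 1 := by
  rw [mul_apply]
  refine tendsto_nhds_unique (hΦ _) (tendsto_const_nhds.congr fun k => ?_)
  rw [bidualAct_apply]
  exact tendsto_nhds_unique (tendsto_const_nhds.congr fun l => (h k l).symm) (hΨ _)

noncomputable def pp (x : A) : A := (1 / 3 : ℂ) • (1 + x - x ^ 2)

variable (h1 : ‖(1 : A)‖ ≤ 1)
include h1

lemma pow_le {x : A} (hx : ‖x‖ ≤ 1) (n : ℕ) : ‖x ^ n‖ ≤ 1 := by
  induction n with
  | zero => simpa using h1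
  | succ k ih =>
    rw [pow_succ]
    exact (norm_mul_le _ _).trans (mul_le_one₀ ih (norm_nonneg _) hx)

lemma pp_le {x : A} (hx : ‖x‖ ≤ 1) : ‖pp x‖ ≤ 1 := by
  have h2 := pow_le h1 hx 2
  have := norm_sub_le (1 + x) (x ^ 2)
  have := norm_add_le 1 x
  rw [pp, norm_smul]
  norm_num
  linarith

lemma pp_sq {x : A} (hx : ‖x‖ ≤ 1) : ‖pp x * pp x‖ ≤ 7 / 9 := by
  have e : pp x * pp x = (1 / 9 : ℂ) • (1 + x + x - x ^ 2 - x ^ 3 - x ^ 3 + x ^ 4) := by
    rw [pp, smul_mul_smul_comm]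
    congr 1
    · norm_num
    · ring
  have h2 := pow_le h1 hx 2
  have h3 := pow_le h1 hx 3
  have h4 := pow_le h1 hx 4
  have := norm_add_le (1 + x + x - x ^ 2 - x ^ 3 - x ^ 3) (x ^ 4)
  have := norm_sub_le (1 + x + x - x ^ 2 - x ^ 3) (x ^ 3)
  have := norm_sub_le (1 + x + x - x ^ 2) (x ^ 3)
  have := norm_sub_le (1 + x + x) (x ^ 2)
  have := norm_add_le (1 + x) x
  have := norm_add_le 1 x
  rw [e, norm_smul]
  norm_num
  linarith

lemma prod_le (s : Finset ℕ) (q : ℕ → A) (c : ℝ) (hc : 0 ≤ c) (hq : ∀ j, ‖q j‖ ≤ c) :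
    ‖∏ j ∈ s, q j‖ ≤ c ^ s.card := by
  induction s using Finset.induction_on with
  | empty => simpa using h1
  | insert a s ha ih =>
    rw [Finset.prod_insert ha, Finset.card_insert_of_notMem ha, pow_succ']
    exact (norm_mul_le _ _).trans (mul_le_mul (hq a) ih (norm_nonneg _) hc)

lemma exists_rad (x : ℕ → A) (hx : ∀ j, ‖x j‖ ≤ 1) : ∃ Ψ ∈ Ring.jacobson (Bidual A),
    ∀ f : StrongDual ℂ A, Tendsto (fun k => f (∏ j ∈ Finset.range k, pp (x j))) (hyperfilter ℕ)
      (𝓝 (Ψ.toFun f)) := by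
  obtain ⟨Ψ, hΨ⟩ := exists_lim (fun k => ∏ j ∈ Finset.range k, pp (x j)) fun k => by
    simpa using prod_le h1 (Finset.range k) _ 1 zero_le_one fun j => pp_le h1 (hx j)
  refine ⟨Ψ, mem_jac _ (sq_zero _ (fun k => (7 / 9) ^ k)
    (tendsto_pow_atTop_nhds_zero_of_lt_one (by norm_num) (by norm_num)) (fun k l hkl => ?_) Ψ hΨ),
    hΨ⟩
  rw [← Finset.prod_range_mul_prod_Ico _ hkl, ← mul_assoc, ← Finset.prod_mul_distrib]
  have a1 := prod_le h1 (Finset.range k) _ (7 / 9) (by norm_num) fun j => pp_sq h1 (hx j)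
  have a2 := prod_le h1 (Finset.Ico k l) _ 1 zero_le_one fun j => pp_le h1 (hx j)
  rw [Finset.card_range] at a1
  rw [one_pow] at a2
  exact (norm_mul_le _ _).trans ((mul_le_of_le_one_right (norm_nonneg _) a2).trans a1)

end abstract

lemma norm_delta (n : ℤ) : ‖delta n‖ = 1 :=
  (lp.norm_single (E := fun _ : ℤ => ℂ) (by simp) n 1).trans norm_one

lemma delta_add (n m : ℤ) : delta n * delta m = delta (n + m) := lext fun k => by
  rw [delta_mul, delta_val, delta_val]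
  exact if_congr (by omega) rfl rfl

noncomputable def sg (d : ℕ) : ℂ := if d = 2 then -1 else 1

noncomputable def t (n : ℕ) : ℂ := ((Nat.digits 3 n).map sg).prod

lemma t_step (q d : ℕ) (hd : d < 3) : t (d + 3 * q) = sg d * t q := by
  by_cases h : d ≠ 0 ∨ q ≠ 0
  · rw [t, Nat.digits_add 3 (by norm_num) d q hd h]; simp [t]
  · obtain ⟨rfl, rfl⟩ : d = 0 ∧ q = 0 := by omega
    simp [sg]

lemma t_norm (n : ℕ) : ‖t n‖ = 1 := by
  unfold t
  induction Nat.digits 3 n with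
  | nil => simp
  | cons a l ih =>
    rw [List.map_cons, List.prod_cons, norm_mul, ih, sg]
    split_ifs <;> simp

lemma summ (a : L1) : Summable fun n : ℤ => ‖a.val n * t n.toNat‖ := by
  simpa only [norm_mul, t_norm, mul_one] using (hasSum_norm a).summable

noncomputable def F : StrongDual ℂ L1 := LinearMap.mkContinuous
  ⟨⟨fun a => ∑' n : ℤ, a.val n * t n.toNat, fun a b => by
    simp only [add_val, add_mul]
    exact (summ a).of_norm.tsum_add (summ b).of_norm⟩, fun c a => by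
    simp only [smul_val, mul_assoc, tsum_mul_left, RingHom.id_apply, smul_eq_mul]⟩ 1 fun a => by
    refine (norm_tsum_le_tsum_norm (summ a)).trans ?_
    simp only [norm_mul, t_norm, mul_one, one_mul]
    exact (hasSum_norm a).tsum_eq.le

lemma F_delta (n : ℕ) : F (delta n) = t n := by
  show ∑' k : ℤ, (delta n).val k * t k.toNat = _
  rw [tsum_eq_single (n : ℤ) (fun k hk => by simp [delta_val, hk])]
  simp [delta_val]

lemma F_prod (L : ℕ) : ∀ (s : Finset ℕ), s ⊆ Finset.range L → ∀ q : ℕ,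
    F (delta (3 ^ L * q : ℕ) * ∏ j ∈ s, pp (delta (3 ^ j : ℕ))) = t q := by
  induction L with
  | zero =>
    intro s hs q
    obtain rfl : s = ∅ := by simpa using hs
    simp [F_delta]
  | succ L ih =>
    intro s hs q
    have h0 : t (3 * q) = t q := by simpa [sg] using t_step q 0 (by norm_num)
    have hsub : s.erase L ⊆ Finset.range L := fun j hj => by
      have := Finset.mem_range.1 (hs (Finset.mem_of_mem_erase hj))
      have := Finset.ne_of_mem_erase hj
      exact Finset.mem_range.2 (by omega)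
    by_cases h : L ∈ s
    · rw [← Finset.mul_prod_erase _ _ h, ← mul_assoc]
      have e : delta (3 ^ (L + 1) * q : ℕ) * pp (delta (3 ^ L : ℕ)) = (1 / 3 : ℂ) •
          (delta (3 ^ L * (3 * q) : ℕ) + delta (3 ^ L * (1 + 3 * q) : ℕ) -
            delta (3 ^ L * (2 + 3 * q) : ℕ)) := by
        rw [pp, mul_smul_comm, mul_sub, mul_add, mul_one, sq, delta_add, delta_add, delta_add]
        congr 4 <;> push_cast <;> ring
      rw [e, smul_mul_assoc, sub_mul, add_mul, map_smul, map_sub, map_add, ih _ hsub, ih _ hsub,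
        ih _ hsub, h0, t_step q 1 (by norm_num), t_step q 2 (by norm_num)]
      simp only [sg, smul_eq_mul]
      norm_num
      ring
    · rw [Finset.erase_eq_of_notMem h] at hsub
      rw [← h0, ← ih _ hsub, pow_succ, mul_assoc]

theorem main : ∃ Φ ∈ Ring.jacobson (Bidual L1), ∃ Ψ ∈ Ring.jacobson (Bidual L1), Φ * Ψ ≠ 0 := by
  have h1 : ‖(1 : L1)‖ ≤ 1 := (norm_delta 0).le
  obtain ⟨Φ, hΦ, h2⟩ := exists_rad h1 (fun j => delta (3 ^ (2 * j + 1) : ℕ))
    fun j => (norm_delta _).le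
  obtain ⟨Ψ, hΨ, h3⟩ := exists_rad h1 (fun j => delta (3 ^ (2 * j) : ℕ)) fun j => (norm_delta _).le
  refine ⟨Φ, hΦ, Ψ, hΨ, fun h => ?_⟩
  have := mul_lim _ _ Φ Ψ F h2 h3 fun k l => by
    have e1 := Finset.prod_image (s := Finset.range k) (g := fun j => 2 * j + 1)
      (f := fun j => pp (delta (3 ^ j : ℕ))) (fun a _ b _ e => by simpa using e)
    have e2 := Finset.prod_image (s := Finset.range l) (g := fun j => 2 * j)
      (f := fun j => pp (delta (3 ^ j : ℕ))) (fun a _ b _ e => by simpa using e)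
    rw [← e1, ← e2, ← Finset.prod_union (by
      rw [Finset.disjoint_left]
      simp only [Finset.mem_image]
      rintro _ ⟨a, -, rfl⟩ ⟨b, -, e⟩
      omega)]
    have := F_prod (2 * k + 2 * l) (((Finset.range k).image fun j => 2 * j + 1) ∪
      ((Finset.range l).image fun j => 2 * j)) (fun j hj => by
        simp only [Finset.mem_union, Finset.mem_image, Finset.mem_range] at hj ⊢
        rcases hj with ⟨a, ha, rfl⟩ | ⟨a, ha, rfl⟩ <;> omega) 0
    rw [mul_zero, Nat.cast_zero] at this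
    rw [← one_mul (Finset.prod _ _)]
    exact this.trans (by simp [t])
  rw [h] at this
  exact zero_ne_one this

end Pool.Agent.H9.Arens2
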