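import Mathlib

/-! The bidual of a normed algebra with the first Arens product, and the group algebra `ℓ¹(G)`. -/
namespace Pool.Agent.H9.Bid
open Filter Topology

/-- The continuous dual of a complex normed space. -/
def Dual (E : Type) [NormedAddCommGroup E] [NormedSpace ℂ E] : Type := E →L[ℂ] ℂ

noncomputable instance (E : Type) [NormedAddCommGroup E] [NormedSpace ℂ E] :
    NormedAddCommGroup (Dual E) := (inferInstance : NormedAddCommGroup (E →L[ℂ] ℂ))
noncomputable instance (E : Type) [NormedAddCommGroup E] [NormedSpace ℂ E] :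
    NormedSpace ℂ (Dual E) := (inferInstance : NormedSpace ℂ (E →L[ℂ] ℂ))

/-- Evaluation of a functional. -/
noncomputable def Dual.ev {E : Type} [NormedAddCommGroup E] [NormedSpace ℂ E] (f : Dual E) (x : E) : ℂ :=
  (show E →L[ℂ] ℂ from f) x

/-- The functional given by a bounded linear function. -/
noncomputable def Dual.mk {E : Type} [NormedAddCommGroup E] [NormedSpace ℂ E] (g : E → ℂ)
    (h : IsBoundedLinearMap ℂ g) : Dual E := h.toContinuousLinearMap g

section bidual
variable (A : Type) [NormedRing A] [NormedAlgebra ℂ A]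

/-- The bidual `A''` of a normed algebra. -/
def Bidual : Type := Dual (Dual A)

noncomputable instance : AddCommGroup (Bidual A) :=
  (inferInstance : AddCommGroup (Dual (Dual A)))

variable {A}

/-- the underlying functional on `A'` -/
def Bidual.toFun (Φ : Bidual A) : StrongDual ℂ (StrongDual ℂ A) := Φ

lemma dualAct_bdd (f : Dual A) (a : A) : IsBoundedLinearMap ℂ fun b : A => f.ev (a * b) :=
  ((show A →L[ℂ] ℂ from f).comp (ContinuousLinearMap.mul ℂ A a)).isBoundedLinearMap

/-- `f · a`, where `(f · a) b = f (a * b)` -/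
noncomputable def dAct (f : Dual A) (a : A) : Dual A :=
  Dual.mk (fun b => f.ev (a * b)) (dualAct_bdd f a)

lemma bidualAct_bdd (Ψ : Dual (Dual A)) (f : Dual A) :
    IsBoundedLinearMap ℂ fun a : A => Ψ.ev (dAct f a) :=
  ((show StrongDual ℂ A →L[ℂ] ℂ from Ψ).comp
    ((ContinuousLinearMap.compL ℂ A A ℂ f).comp (ContinuousLinearMap.mul ℂ A))).isBoundedLinearMap

/-- `Ψ · f`, where `(Ψ · f) a = Ψ (f · a)` -/
noncomputable def bAct (Ψ : Dual (Dual A)) (f : Dual A) : Dual A :=
  Dual.mk (fun a => Ψ.ev (dAct f a)) (bidualAct_bdd Ψ f)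

lemma arens_bdd (Φ Ψ : Dual (Dual A)) :
    IsBoundedLinearMap ℂ fun f : Dual A => Φ.ev (bAct Ψ f) :=
  ((show StrongDual ℂ A →L[ℂ] ℂ from Φ).comp
    ((ContinuousLinearMap.compL ℂ A (StrongDual ℂ A) ℂ Ψ).comp
    (((ContinuousLinearMap.compL ℂ A (A →L[ℂ] A) (StrongDual ℂ A)).flip
      (ContinuousLinearMap.mul ℂ A)).comp (ContinuousLinearMap.compL ℂ A A ℂ)))).isBoundedLinearMap

/-- The first Arens product: `(Φ □ Ψ) f = Φ (Ψ · f)`. -/
noncomputable instance : Mul (Bidual A) :=
  ⟨fun Φ Ψ => Dual.mk (fun f => Dual.ev Φ (bAct Ψ f)) (arens_bdd Φ Ψ)⟩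

lemma one_bdd : IsBoundedLinearMap ℂ fun f : Dual A => f.ev 1 :=
  (NormedSpace.inclusionInDoubleDual ℂ A 1).isBoundedLinearMap

/-- The unit of the bidual: evaluation at the unit of `A`. -/
noncomputable instance : One (Bidual A) := ⟨Dual.mk (fun f => f.ev 1) one_bdd⟩

noncomputable def dualAct (f : StrongDual ℂ A) (a : A) : StrongDual ℂ A := dAct f a

noncomputable def bidualAct (Ψ : StrongDual ℂ (StrongDual ℂ A)) (f : StrongDual ℂ A) :
    StrongDual ℂ A := bAct Ψ f

lemma dualAct_apply (f : StrongDual ℂ A) (a b : A) : dualAct f a b = f (a * b) := rfl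

lemma bidualAct_apply (Ψ : StrongDual ℂ (StrongDual ℂ A)) (f : StrongDual ℂ A) (a : A) :
    bidualAct Ψ f a = Ψ (dualAct f a) := rfl

lemma mul_apply (Φ Ψ : Bidual A) (f : StrongDual ℂ A) :
    (Φ * Ψ).toFun f = Φ.toFun (bidualAct Ψ.toFun f) := rfl

lemma one_apply (f : StrongDual ℂ A) : (1 : Bidual A).toFun f = f 1 := rfl

lemma bext {Φ Ψ : Bidual A} (h : ∀ f, Φ.toFun f = Ψ.toFun f) : Φ = Ψ :=
  ContinuousLinearMap.ext h

lemma bmul_assoc (Φ Ψ Θ : Bidual A) : Φ * Ψ * Θ = Φ * (Ψ * Θ) := bext fun f => by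
  rw [mul_apply, mul_apply, mul_apply]
  congr 1
  ext a
  rw [bidualAct_apply, bidualAct_apply, mul_apply]
  congr 1
  ext b
  rw [dualAct_apply, bidualAct_apply, bidualAct_apply]
  congr 1
  ext c
  simp only [dualAct_apply, mul_assoc]

lemma bone_mul (Φ : Bidual A) : 1 * Φ = Φ := bext fun f => by
  rw [mul_apply, one_apply, bidualAct_apply]
  congr 1
  ext c
  rw [dualAct_apply, one_mul]

lemma bmul_one (Φ : Bidual A) : Φ * 1 = Φ := bext fun f => by
  rw [mul_apply]
  congr 1
  ext c
  rw [bidualAct_apply, one_apply, dualAct_apply, mul_one]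

lemma bmul_add (Φ Ψ Θ : Bidual A) : Φ * (Ψ + Θ) = Φ * Ψ + Φ * Θ := bext fun f => by
  have : bidualAct (Ψ + Θ).toFun f = bidualAct Ψ.toFun f + bidualAct Θ.toFun f := by
    ext c; rfl
  rw [mul_apply, this, map_add]; rfl

lemma badd_mul (Φ Ψ Θ : Bidual A) : (Φ + Ψ) * Θ = Φ * Θ + Ψ * Θ := bext fun _ => rfl

lemma bzero_mul (Φ : Bidual A) : 0 * Φ = 0 := bext fun _ => rfl

lemma bmul_zero (Φ : Bidual A) : Φ * 0 = 0 := bext fun f => by
  have : bidualAct (0 : Bidual A).toFun f = 0 := by ext c; rfl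
  rw [mul_apply, this, map_zero]; rfl

noncomputable instance : Ring (Bidual A) :=
  { (inferInstance : AddCommGroup (Bidual A)) with
    mul_assoc := bmul_assoc
    one_mul := bone_mul
    mul_one := bmul_one
    left_distrib := bmul_add
    right_distrib := badd_mul
    zero_mul := bzero_mul
    mul_zero := bmul_zero }

end bidual

/-- The Banach space `ℓ¹(G)`. -/
abbrev L1 (G : Type) : Type := lp (fun _ : G => ℂ) 1

variable {G : Type}

/-- the coefficients of an element of `ℓ¹(G)` -/
def L1.val (a : L1 G) : G → ℂ := a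

lemma mem_of {f : G → ℂ} (h : Summable fun n => ‖f n‖) : Memℓp f 1 :=
  memℓp_gen (by simpa using h)

lemma hasSum_norm (a : L1 G) : HasSum (fun n => ‖a.val n‖) ‖a‖ := by
  have := lp.hasSum_norm (p := 1) (by simp) a
  simp only [ENNReal.toReal_one, Real.rpow_one] at this
  exact this

lemma lext {a b : L1 G} (h : ∀ n, a.val n = b.val n) : a = b := lp.ext (funext h)

open Classical in
/-- point mass -/
noncomputable def delta (n : G) : L1 G := lp.single (E := fun _ : G => ℂ) 1 n 1

lemma add_val (a b : L1 G) (n : G) : (a + b).val n = a.val n + b.val n := rfl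
lemma smul_val (c : ℂ) (a : L1 G) (n : G) : (c • a).val n = c * a.val n := rfl

open Classical in
lemma delta_val (n k : G) : (delta n).val k = if k = n then 1 else 0 := by
  show lp.single (E := fun _ : G => ℂ) 1 n 1 k = _
  rw [lp.single_apply, Pi.single_apply]

open Classical in
lemma clm_ext {F : Type} [NormedAddCommGroup F] [NormedSpace ℂ F] {f g : L1 G →L[ℂ] F}
    (h : ∀ i, f (delta i) = g (delta i)) : f = g :=
  lp.ext_continuousLinearMap (E := fun _ : G => ℂ) (p := 1) (by simp) fun i => by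
    ext
    exact h i

variable [Group G]

def eqv : G × G ≃ G × G where
  toFun p := (p.2, p.2⁻¹ * p.1)
  invFun p := (p.1 * p.2, p.1)
  left_inv p := by simp
  right_inv p := by simp

lemma hasSum2 (a b : L1 G) :
    HasSum (fun p : G × G => ‖a.val p.2 * b.val (p.2⁻¹ * p.1)‖) (‖a‖ * ‖b‖) := by
  have h := (hasSum_norm a).mul (hasSum_norm b) (Summable.mul_of_nonneg
    (hasSum_norm a).summable (hasSum_norm b).summable (fun _ => norm_nonneg _)
    (fun _ => norm_nonneg _))
  simp only [norm_mul]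
  exact (eqv.hasSum_iff).2 h

lemma summable_conv (a b : L1 G) (n : G) : Summable fun k => ‖a.val k * b.val (k⁻¹ * n)‖ :=
  (hasSum2 a b).summable.prod_factor n

lemma conv_le (a b : L1 G) (n : G) :
    ‖∑' k, a.val k * b.val (k⁻¹ * n)‖ ≤ ∑' k, ‖a.val k * b.val (k⁻¹ * n)‖ :=
  norm_tsum_le_tsum_norm (summable_conv a b n)

lemma hasSum_conv (a b : L1 G) :
    HasSum (fun n => ∑' k, ‖a.val k * b.val (k⁻¹ * n)‖) (‖a‖ * ‖b‖) :=
  (hasSum2 a b).prod_fiberwise fun n => (summable_conv a b n).hasSum

lemma conv_mem (a b : L1 G) : Memℓp (fun n => ∑' k, a.val k * b.val (k⁻¹ * n)) 1 :=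
  mem_of (Summable.of_nonneg_of_le (fun _ => norm_nonneg _) (conv_le a b)
    (hasSum_conv a b).summable)

/-- Convolution on `ℓ¹(G)`. -/
noncomputable instance : Mul (L1 G) :=
  ⟨fun a b => ⟨fun n => ∑' k, a.val k * b.val (k⁻¹ * n), conv_mem a b⟩⟩

noncomputable instance : One (L1 G) := ⟨delta 1⟩

lemma mul_val (a b : L1 G) (n : G) : (a * b).val n = ∑' k, a.val k * b.val (k⁻¹ * n) := rfl

lemma norm_mul_le' (a b : L1 G) : ‖a * b‖ ≤ ‖a‖ * ‖b‖ :=
  hasSum_le (conv_le a b) (hasSum_norm (a * b)) (hasSum_conv a b)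

lemma mul_add' (a b c : L1 G) : a * (b + c) = a * b + a * c := lext fun n => by
  simp only [mul_val, add_val, mul_add]
  exact (summable_conv a b n).of_norm.tsum_add (summable_conv a c n).of_norm

lemma add_mul' (a b c : L1 G) : (a + b) * c = a * c + b * c := lext fun n => by
  simp only [mul_val, add_val, add_mul]
  exact (summable_conv a c n).of_norm.tsum_add (summable_conv b c n).of_norm

lemma mul_smul' (c : ℂ) (a b : L1 G) : a * (c • b) = c • (a * b) := lext fun n => by
  simp only [mul_val, smul_val, ← tsum_mul_left, mul_left_comm]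

lemma smul_mul' (c : ℂ) (a b : L1 G) : (c • a) * b = c • (a * b) := lext fun n => by
  simp only [mul_val, smul_val, ← tsum_mul_left, mul_assoc]

lemma delta_mul (i : G) (b : L1 G) (n : G) : (delta i * b).val n = b.val (i⁻¹ * n) := by
  rw [mul_val, tsum_eq_single i (fun k hk => by simp [delta_val, hk])]
  simp [delta_val]

noncomputable def mulR (a : L1 G) : L1 G →L[ℂ] L1 G :=
  LinearMap.mkContinuous ⟨⟨fun b => b * a, fun b c => add_mul' b c a⟩,
    fun c b => smul_mul' c b a⟩ ‖a‖ fun b => (norm_mul_le' b a).trans_eq (mul_comm _ _)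

lemma mul_assoc' (a b c : L1 G) : a * b * c = a * (b * c) := by
  have : (mulR c).comp (mulR b) = mulR (b * c) := clm_ext fun i => by
    show delta i * b * c = delta i * (b * c)
    refine lext fun n => ?_
    rw [delta_mul, mul_val, mul_val, ← (Equiv.mulLeft i).tsum_eq]
    refine tsum_congr fun k => ?_
    rw [delta_mul, Equiv.coe_mulLeft, inv_mul_cancel_left, mul_inv_rev, mul_assoc]
  exact ContinuousLinearMap.ext_iff.1 this a

lemma one_mul' (a : L1 G) : 1 * a = a := lext fun n => by
  show (delta 1 * a).val n = _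
  rw [delta_mul, inv_one, one_mul]

lemma mul_one' (a : L1 G) : a * 1 = a := lext fun n => by
  show (a * delta 1).val n = _
  rw [mul_val, tsum_eq_single n (fun k hk => by
    rw [delta_val, if_neg (fun e => hk (inv_mul_eq_one.1 e)), mul_zero])]
  simp [delta_val]

lemma zero_mul' (a : L1 G) : 0 * a = 0 := (mulR a).map_zero

lemma mul_zero' (a : L1 G) : a * 0 = 0 := by
  simpa using mul_smul' 0 a 0

noncomputable instance : NormedRing (L1 G) :=
  { (inferInstance : NormedAddCommGroup (L1 G)) with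
    mul_assoc := mul_assoc'
    one_mul := one_mul'
    mul_one := mul_one'
    left_distrib := mul_add'
    right_distrib := add_mul'
    zero_mul := zero_mul'
    mul_zero := mul_zero'
    norm_mul_le := norm_mul_le' }

noncomputable instance : Algebra ℂ (L1 G) := Algebra.ofModule smul_mul' mul_smul'

noncomputable instance : NormedAlgebra ℂ (L1 G) where
  norm_smul_le := norm_smul_le

end Pool.Agent.H9.Bid
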