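import Pool.Agent.H9.Arens2
import Pool.Agent.H9.Bid

/-! The compact convex semigroup of states in a bidual and its minimal left ideals. -/
namespace Pool.Agent.H9.Arens3
open Filter Topology Pool.Agent.H9.Bid

lemma sep {E : Type} [NormedAddCommGroup E] [NormedSpace ℂ E] (S : Set (WeakDual ℂ E))
    (hv : Convex ℝ S) (hc : IsClosed S) (Θ : WeakDual ℂ E) (h : Θ ∉ S) :
    ∃ f : E, ∃ u : ℝ, (Θ f).re < u ∧ ∀ x ∈ S, u < (x f).re := by
  have i1 : IsScalarTower ℝ ℂ (WeakDual ℂ E) :=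
    ⟨fun a b c => DFunLike.ext _ _ fun f => smul_assoc a b _⟩
  have i2 : LocallyConvexSpace ℝ (WeakDual ℂ E) :=
    (WeakDual.withSeminorms ℂ E).toLocallyConvexSpace
  obtain ⟨φ, u, hu, hS⟩ := @RCLike.geometric_hahn_banach_point_closed ℂ (WeakDual ℂ E)
    _ _ _ _ _ _ _ i1 _ _ i2 hv hc h
  have := @LinearMap.dualEmbedding_surjective ℂ (E →L[ℂ] ℂ) E _ _ _ _ _ (topDualPairing ℂ E) φ
  obtain ⟨f, rfl⟩ := this
  exact ⟨f, u, hu, hS⟩

variable {A : Type} [NormedRing A] [NormedAlgebra ℂ A]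

abbrev W (A : Type) [NormedRing A] [NormedAlgebra ℂ A] : Type :=
  WeakDual ℂ (StrongDual ℂ A)

noncomputable instance : TopologicalSpace (Bidual A) := (inferInstance : TopologicalSpace (W A))
instance : T2Space (Bidual A) := (inferInstance : T2Space (WeakDual ℂ (StrongDual ℂ A)))
noncomputable instance : Module ℂ (Bidual A) :=
  (inferInstance : Module ℂ (StrongDual ℂ (StrongDual ℂ A)))

lemma add_apply (Φ Ψ : Bidual A) (f : StrongDual ℂ A) :
    (Φ + Ψ).toFun f = Φ.toFun f + Ψ.toFun f := rfl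
lemma sub_apply (Φ Ψ : Bidual A) (f : StrongDual ℂ A) :
    (Φ - Ψ).toFun f = Φ.toFun f - Ψ.toFun f := rfl
lemma smul_apply (c : ℂ) (Φ : Bidual A) (f : StrongDual ℂ A) :
    (c • Φ).toFun f = c * Φ.toFun f := rfl
lemma zero_apply (f : StrongDual ℂ A) : (0 : Bidual A).toFun f = 0 := rfl

lemma cont_eval (f : StrongDual ℂ A) : Continuous fun Φ : Bidual A => Φ.toFun f :=
  WeakDual.eval_continuous f

lemma cont_of {X : Type} [TopologicalSpace X] {g : X → Bidual A}
    (h : ∀ f, Continuous fun x => (g x).toFun f) : Continuous g :=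
  WeakDual.continuous_of_continuous_eval h

lemma cont_mul (Ψ : Bidual A) : Continuous fun Φ : Bidual A => Φ * Ψ :=
  cont_of fun _ => cont_eval _

lemma smul_mul' (c : ℂ) (Φ Ψ : Bidual A) : (c • Φ) * Ψ = c • (Φ * Ψ) := bext fun _ => rfl

lemma mul_smul' (c : ℂ) (Φ Ψ : Bidual A) : Φ * (c • Ψ) = c • (Φ * Ψ) := bext fun f => by
  have : bidualAct (c • Ψ).toFun f = c • bidualAct Ψ.toFun f := by ext; rfl
  rw [mul_apply, this, map_smul]; rfl

/-- `Φ` has norm at most `C` -/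
def Bd (Φ : Bidual A) (C : ℝ) : Prop := ∀ f, ‖Φ.toFun f‖ ≤ C * ‖f‖

lemma Bd.mul {Φ Ψ : Bidual A} {C D : ℝ} (h : Bd Φ C) (h' : Bd Ψ D) (hC : 0 ≤ C) (hD : 0 ≤ D) :
    Bd (Φ * Ψ) (C * D) := fun f => by
  rw [mul_apply, mul_assoc]
  refine (h _).trans (mul_le_mul_of_nonneg_left ?_ hC)
  refine ContinuousLinearMap.opNorm_le_bound _ (by positivity) fun a => ?_
  rw [bidualAct_apply, mul_assoc]
  refine (h' _).trans (mul_le_mul_of_nonneg_left ?_ hD)
  refine ContinuousLinearMap.opNorm_le_bound _ (by positivity) fun b => ?_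
  rw [dualAct_apply, mul_assoc]
  exact (f.le_opNorm _).trans (mul_le_mul_of_nonneg_left (norm_mul_le _ _) (norm_nonneg _))

lemma compact_of {s : Set (Bidual A)} (hs : IsClosed s) (C : ℝ) (hC : 0 ≤ C)
    (h : ∀ Φ ∈ s, Bd Φ C) : IsCompact s := by
  refine (WeakDual.isCompact_closedBall (𝕜 := ℂ) (E := StrongDual ℂ A) 0 C).of_isClosed_subset hs
    fun Φ hΦ => ?_
  simp only [Set.mem_preimage, mem_closedBall_zero_iff]
  exact ContinuousLinearMap.opNorm_le_bound _ hC (h Φ hΦ)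

/-- the canonical embedding -/
noncomputable def emb (a : A) : Bidual A := NormedSpace.inclusionInDoubleDual ℂ A a

lemma emb_apply (a : A) (f : StrongDual ℂ A) : (emb a).toFun f = f a := rfl

variable (ε : StrongDual ℂ A)

/-- states -/
def P : Set (Bidual A) := {Φ | Bd Φ 1 ∧ Φ.toFun ε = 1}

lemma P_closed : IsClosed (P ε) := by
  refine IsClosed.inter ?_ (isClosed_eq (cont_eval ε) continuous_const)
  show IsClosed {Φ : Bidual A | ∀ f, ‖Φ.toFun f‖ ≤ 1 * ‖f‖}
  rw [Set.setOf_forall]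
  exact isClosed_iInter fun f => isClosed_le (cont_eval f).norm continuous_const

lemma P_compact : IsCompact (P ε) := compact_of (P_closed ε) 1 zero_le_one fun _ h => h.1

variable {ε}

lemma span_P (h1 : ‖ε‖ ≤ 1) (Δ : Set A) (hΔ : ∀ d ∈ Δ, ‖d‖ ≤ 1 ∧ ε d = 1)
    (hn : ∀ (f : StrongDual ℂ A) (C : ℝ), 0 ≤ C → (∀ d ∈ Δ, ‖f d‖ ≤ C) → ‖f‖ ≤ C)
    (T : Submodule ℂ (Bidual A)) (hT : P ε ⊆ T) (Θ : Bidual A) : Θ ∈ T := by
  let S0 : Set (Bidual A) := {Φ | Bd Φ (Φ.toFun ε).re ∧ (Φ.toFun ε).re ≤ 1}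
  have hS0 : ∀ Φ ∈ S0, Φ ∈ T := by
    rintro Φ ⟨h, -⟩
    rcases le_or_gt (Φ.toFun ε).re 0 with hc | hc
    · have : Φ = 0 := bext fun f => norm_le_zero_iff.1
        ((h f).trans (mul_nonpos_of_nonpos_of_nonneg hc (norm_nonneg _)))
      rw [this]; exact T.zero_mem
    · set c := (Φ.toFun ε).re with hcd
      have hle : ‖Φ.toFun ε‖ ≤ c := (h ε).trans (mul_le_of_le_one_right hc.le h1)
      have hre : Φ.toFun ε = c := by
        have := Complex.re_eq_norm.1 (le_antisymm (Complex.re_le_norm _) hle)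
        exact (Complex.eq_re_of_ofReal_le this)
      have hc' : (c : ℂ) ≠ 0 := by exact_mod_cast hc.ne'
      have : Φ = (c : ℂ) • ((c : ℂ)⁻¹ • Φ) := by rw [smul_smul, mul_inv_cancel₀ hc', one_smul]
      rw [this]
      refine T.smul_mem _ (hT ⟨fun f => ?_, ?_⟩)
      · rw [smul_apply, norm_mul, norm_inv, Complex.norm_real, Real.norm_of_nonneg hc.le,
          inv_mul_le_iff₀ hc, one_mul]
        exact h f
      · rw [smul_apply, hre, inv_mul_cancel₀ hc']
  have hcl : IsClosed S0 := by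
    refine IsClosed.inter ?_ (isClosed_le (Complex.continuous_re.comp (cont_eval ε))
      continuous_const)
    show IsClosed {Φ : Bidual A | ∀ f, ‖Φ.toFun f‖ ≤ (Φ.toFun ε).re * ‖f‖}
    rw [Set.setOf_forall]
    exact isClosed_iInter fun f => isClosed_le (cont_eval f).norm
      ((Complex.continuous_re.comp (cont_eval ε)).mul continuous_const)
  have hco : IsCompact S0 := compact_of hcl 1 zero_le_one fun Φ h f =>
    (h.1 f).trans (mul_le_mul_of_nonneg_right h.2 (norm_nonneg _))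
  have hcv : ∀ Φ ∈ S0, ∀ Ψ ∈ S0, ∀ a b : ℝ, 0 ≤ a → 0 ≤ b → a + b = 1 →
      (a : ℂ) • Φ + (b : ℂ) • Ψ ∈ S0 := by
    rintro Φ ⟨h, h'⟩ Ψ ⟨k, k'⟩ a b ha hb hab
    have e : (((a : ℂ) • Φ + (b : ℂ) • Ψ).toFun ε).re =
        a * (Φ.toFun ε).re + b * (Ψ.toFun ε).re := by
      rw [add_apply, smul_apply, smul_apply, Complex.add_re, Complex.re_ofReal_mul,
        Complex.re_ofReal_mul]
    refine ⟨fun f => ?_, ?_⟩
    · rw [e, add_apply, smul_apply, smul_apply]
      refine (norm_add_le _ _).trans ?_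
      rw [norm_mul, norm_mul, Complex.norm_real, Complex.norm_real, Real.norm_of_nonneg ha,
        Real.norm_of_nonneg hb]
      nlinarith [mul_le_mul_of_nonneg_left (h f) ha, mul_le_mul_of_nonneg_left (k f) hb]
    · rw [e]; nlinarith
  let g : Bidual A × Bidual A × Bidual A × Bidual A → Bidual A := fun x =>
    x.1 - x.2.1 + Complex.I • x.2.2.1 - Complex.I • x.2.2.2
  have hg : Continuous g := cont_of fun f => by
    simp only [g, add_apply, sub_apply, smul_apply]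
    have := cont_eval (A := A) f
    fun_prop
  let S : Set (W A) := g '' (S0 ×ˢ S0 ×ˢ S0 ×ˢ S0)
  have hSc : IsCompact S := (hco.prod (hco.prod (hco.prod hco))).image hg
  have hSv : Convex ℝ S := by
    rintro _ ⟨x, hx, rfl⟩ _ ⟨y, hy, rfl⟩ a b ha hb hab
    refine ⟨(_, _, _, _), ⟨hcv _ hx.1 _ hy.1 a b ha hb hab, hcv _ hx.2.1 _ hy.2.1 a b ha hb hab,
      hcv _ hx.2.2.1 _ hy.2.2.1 a b ha hb hab, hcv _ hx.2.2.2 _ hy.2.2.2 a b ha hb hab⟩, ?_⟩
    refine bext fun f => ?_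
    show _ = a • (g x).toFun f + b • (g y).toFun f
    simp only [g, add_apply, sub_apply, smul_apply, Complex.real_smul]
    ring
  have h0 : (0 : Bidual A) ∈ S0 := ⟨fun f => by simp [zero_apply], by simp [zero_apply]⟩
  have hd : ∀ d ∈ Δ, emb d ∈ S0 := fun d hd => by
    refine ⟨fun f => ?_, ?_⟩
    · rw [emb_apply, emb_apply, (hΔ d hd).2]
      simpa using (f.le_opNorm d).trans (mul_le_of_le_one_right (norm_nonneg _) (hΔ d hd).1)
    · rw [emb_apply, (hΔ d hd).2]; simp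
  have key : ∀ Θ : Bidual A, Bd Θ (1 / 2) → Θ ∈ T := by
    intro Θ hΘ
    have : (show W A from Θ) ∈ S := by
      by_contra hn'
      obtain ⟨f, u, hu, hS⟩ := sep S hSv hSc.isClosed _ hn'
      have hu' : (Θ.toFun f).re < u := hu
      have hS' : ∀ x ∈ S0 ×ˢ S0 ×ˢ S0 ×ˢ S0, u < ((g x).toFun f).re := fun x hx =>
        hS _ ⟨x, hx, rfl⟩
      have hu0 : u < 0 := by
        simpa [g, zero_apply] using hS' (0, 0, 0, 0) ⟨h0, h0, h0, h0⟩
      have hf : ‖f‖ ≤ -2 * u := hn f _ (by linarith) fun d hd' => by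
        have a1 := hS' (emb d, 0, 0, 0) ⟨hd d hd', h0, h0, h0⟩
        have a2 := hS' (0, emb d, 0, 0) ⟨h0, hd d hd', h0, h0⟩
        have a3 := hS' (0, 0, emb d, 0) ⟨h0, h0, hd d hd', h0⟩
        have a4 := hS' (0, 0, 0, emb d) ⟨h0, h0, h0, hd d hd'⟩
        simp only [g, add_apply, sub_apply, smul_apply, zero_apply, emb_apply] at a1 a2 a3 a4
        simp at a1 a2 a3 a4
        refine (Complex.norm_le_abs_re_add_abs_im _).trans ?_
        have : |(f d).re| ≤ -u := abs_le.2 ⟨by linarith, by linarith⟩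
        have : |(f d).im| ≤ -u := abs_le.2 ⟨by linarith, by linarith⟩
        linarith
      have := hΘ f
      have := (abs_le.1 (Complex.abs_re_le_norm (Θ.toFun f))).1
      linarith
    obtain ⟨x, hx, e⟩ := this
    have e' : Θ = g x := e.symm
    rw [e']
    exact T.sub_mem (T.add_mem (T.sub_mem (hS0 _ hx.1) (hS0 _ hx.2.1))
      (T.smul_mem _ (hS0 _ hx.2.2.1))) (T.smul_mem _ (hS0 _ hx.2.2.2))
  set c : ℝ := 2 * ‖Θ.toFun‖ + 1 with hc
  have hc0 : 0 < c := by positivity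
  have hc' : (c : ℂ) ≠ 0 := by exact_mod_cast hc0.ne'
  have : Θ = (c : ℂ) • ((c : ℂ)⁻¹ • Θ) := by rw [smul_smul, mul_inv_cancel₀ hc', one_smul]
  rw [this]
  refine T.smul_mem _ (key _ fun f => ?_)
  rw [smul_apply, norm_mul, norm_inv, Complex.norm_real, Real.norm_of_nonneg hc0.le,
    inv_mul_le_iff₀ hc0]
  have := Θ.toFun.le_opNorm f
  nlinarith [norm_nonneg f]

lemma eps_mul (hm : ∀ a b, ε (a * b) = ε a * ε b) (Φ Ψ : Bidual A) :
    (Φ * Ψ).toFun ε = Φ.toFun ε * Ψ.toFun ε := by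
  have : bidualAct Ψ.toFun ε = Ψ.toFun ε • ε := by
    ext a
    have : dualAct ε a = ε a • ε := by ext b; exact hm a b
    rw [bidualAct_apply, this, map_smul]
    exact mul_comm _ _
  rw [mul_apply, this, map_smul]
  exact mul_comm _ _

lemma P_mul (hm : ∀ a b, ε (a * b) = ε a * ε b) {Φ Ψ : Bidual A} (h : Φ ∈ P ε) (h' : Ψ ∈ P ε) :
    Φ * Ψ ∈ P ε :=
  ⟨by simpa using h.1.mul h'.1 zero_le_one zero_le_one, by rw [eps_mul hm, h.2, h'.2, mul_one]⟩

lemma exists_min (hm : ∀ a b, ε (a * b) = ε a * ε b) (hne : (P ε).Nonempty) :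
    ∃ e ∈ P ε, e * e = e ∧ ∀ y ∈ P ε, e * (y * e) = e := by
  let S : Set (Set (Bidual A)) :=
    {L | IsClosed L ∧ L.Nonempty ∧ L ⊆ P ε ∧ ∀ p ∈ P ε, ∀ z ∈ L, p * z ∈ L}
  obtain ⟨L, -, hL⟩ := zorn_superset_nonempty S (fun c hc hch hne' => by
    refine ⟨⋂₀ c, ⟨isClosed_sInter fun t ht => (hc ht).1, ?_, ?_, ?_⟩,
      fun s hs => Set.sInter_subset_of_mem hs⟩
    · haveI := hne'.to_subtype
      exact IsCompact.nonempty_sInter_of_directed_nonempty_isCompact_isClosed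
        (IsChain.directedOn hch.symm) (fun t ht => (hc ht).2.1)
        (fun t ht => (P_compact ε).of_isClosed_subset (hc ht).1 (hc ht).2.2.1)
        (fun t ht => (hc ht).1)
    · obtain ⟨t, ht⟩ := hne'
      exact (Set.sInter_subset_of_mem ht).trans (hc ht).2.2.1
    · intro p hp z hz t ht
      exact (hc ht).2.2.2 p hp z (hz t ht)) (P ε)
    ⟨P_closed ε, hne, subset_rfl, fun p hp z hz => P_mul hm hp hz⟩
  obtain ⟨hc, hn, hsub, hid⟩ := hL.prop
  have himg : ∀ z ∈ L, ∀ y ∈ L, ∃ k ∈ P ε, k * z = y := by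
    intro z hz y hy
    have h1 : (fun k => k * z) '' P ε ∈ S :=
      ⟨((P_compact ε).image (cont_mul z)).isClosed, hne.image _, by
        rintro _ ⟨k, hk, rfl⟩; exact P_mul hm hk (hsub hz), by
        rintro p hp _ ⟨k, hk, rfl⟩; exact ⟨p * k, P_mul hm hp hk, mul_assoc _ _ _⟩⟩
    exact hL.le_of_le h1 (by rintro _ ⟨k, hk, rfl⟩; exact hid k hk z hz) hy
  obtain ⟨e, he, hee⟩ := exists_idempotent_in_compact_subsemigroup cont_mul L hn
    ((P_compact ε).of_isClosed_subset hc hsub) fun x hx y hy => hid x (hsub hx) y hy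
  refine ⟨e, hsub he, hee, fun y hy => ?_⟩
  set g := e * (y * e) with hg
  have hgP : g ∈ P ε := P_mul hm (hsub he) (P_mul hm hy (hsub he))
  have hge : g * e = g := by rw [hg, mul_assoc, mul_assoc, hee]
  have heg : e * g = g := by rw [hg, ← mul_assoc, hee]
  have hpow : ∀ i : ℕ, g ^ (i + 1) ∈ P ε := by
    intro i
    induction i with
    | zero => simpa using hgP
    | succ k ih => rw [pow_succ]; exact P_mul hm ih hgP
  have hb : ∀ n : ℕ, Bd (e - g) (2 / (n + 1)) := by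
    intro n
    have hn0 : (0 : ℝ) < n + 1 := by positivity
    have hn1 : ((n : ℂ) + 1) ≠ 0 := by exact_mod_cast hn0.ne'
    let a : Bidual A := ((n : ℂ) + 1)⁻¹ • ∑ i ∈ Finset.range (n + 1), g ^ (i + 1)
    have hsum : ∀ f, (∑ i ∈ Finset.range (n + 1), g ^ (i + 1)).toFun f =
        ∑ i ∈ Finset.range (n + 1), (g ^ (i + 1)).toFun f := fun f => by
      induction Finset.range (n + 1) using Finset.induction_on with
      | empty => simp [zero_apply]
      | insert a s ha ih => rw [Finset.sum_insert ha, Finset.sum_insert ha, add_apply, ih]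
    have hnn : ‖((n : ℂ) + 1)⁻¹‖ = ((n : ℝ) + 1)⁻¹ := by
      rw [norm_inv]; congr 1; exact_mod_cast Complex.norm_natCast (n + 1)
    have haP : a ∈ P ε := by
      refine ⟨fun f => ?_, ?_⟩
      · rw [smul_apply, hsum, norm_mul, hnn, inv_mul_le_iff₀ hn0]
        refine (norm_sum_le_of_le _ fun i _ => (hpow i).1 f).trans ?_
        simp
      · rw [smul_apply, hsum, Finset.sum_congr rfl fun i _ => (hpow i).2]
        simp [hn1]
    have hae : a * e = a := by
      rw [smul_mul', Finset.sum_mul]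
      congr 1
      exact Finset.sum_congr rfl fun i _ => by rw [pow_succ, mul_assoc, hge]
    obtain ⟨k, hk, hka⟩ := himg a (hae ▸ hid a haP e he) e he
    have e1 : e - g = k * (((n : ℂ) + 1)⁻¹ • (g ^ (0 + 1) - g ^ (n + 1 + 1))) := by
      have : a - a * g = ((n : ℂ) + 1)⁻¹ • (g ^ (0 + 1) - g ^ (n + 1 + 1)) := by
        rw [smul_mul', ← smul_sub, Finset.sum_mul, ← Finset.sum_range_sub' (fun i => g ^ (i + 1)),
          Finset.sum_sub_distrib]
        simp only [← pow_succ]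
      rw [← this, mul_sub, ← mul_assoc, hka, heg]
    rw [e1, ← one_mul (2 / ((n : ℝ) + 1))]
    refine hk.1.mul (fun f => ?_) zero_le_one (by positivity)
    rw [smul_apply, sub_apply, norm_mul, hnn, div_eq_inv_mul, mul_assoc]
    refine mul_le_mul_of_nonneg_left ((norm_sub_le _ _).trans ?_) (by positivity)
    have := (hpow 0).1 f
    have := (hpow (n + 1)).1 f
    linarith
  refine (sub_eq_zero.1 (bext fun f => ?_)).symm
  have h0 : Tendsto (fun n : ℕ => 2 / ((n : ℝ) + 1) * ‖f‖) atTop (𝓝 0) := by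
    have := (tendsto_one_div_add_atTop_nhds_zero_nat.const_mul (2 : ℝ)).mul_const ‖f‖
    simpa [div_eq_mul_inv] using this
  exact norm_le_zero_iff.1 (ge_of_tendsto' h0 fun n => hb n f)

theorem absorbing (h1 : ‖ε‖ ≤ 1) (hm : ∀ a b, ε (a * b) = ε a * ε b) (Δ : Set A)
    (hΔ : ∀ d ∈ Δ, ‖d‖ ≤ 1 ∧ ε d = 1)
    (hn : ∀ (f : StrongDual ℂ A) (C : ℝ), 0 ≤ C → (∀ d ∈ Δ, ‖f d‖ ≤ C) → ‖f‖ ≤ C)
    (hne : (P ε).Nonempty) (hrad : Ring.jacobson (Bidual A) = ⊥) :
    ∃ e ∈ P ε, ∀ q ∈ P ε, e * q = e := by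
  obtain ⟨e, he, hee, hmin⟩ := exists_min hm hne
  have hz : ∀ x : Bidual A, (∀ y, x * (y * x) = 0) → x = 0 := fun x hx => by
    have := Arens2.mem_jac x hx
    rwa [hrad, Ideal.mem_bot] at this
  have s1 : ∀ Θ : Bidual A, e * (Θ * e) = Θ.toFun ε • e := fun Θ => by
    let T : Submodule ℂ (Bidual A) :=
      { carrier := {Θ | e * (Θ * e) = Θ.toFun ε • e}
        add_mem' := fun {a b} ha hb => by
          simp only [Set.mem_setOf_eq] at ha hb ⊢
          rw [add_mul, mul_add, ha, hb, add_apply, add_smul]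
        zero_mem' := by simp [zero_apply]
        smul_mem' := fun c a ha => by
          simp only [Set.mem_setOf_eq] at ha ⊢
          rw [smul_mul', mul_smul', ha, smul_apply, smul_smul] }
    exact span_P h1 Δ hΔ hn T (fun y hy => by
      show e * (y * e) = y.toFun ε • e
      rw [hmin y hy, hy.2, one_smul]) Θ
  have s2 : ∀ Θ : Bidual A, Θ.toFun ε = 0 → Θ * e = 0 := fun Θ hΘ => hz _ fun y => by
    have := s1 (y * Θ)
    rw [eps_mul hm, hΘ, mul_zero, zero_smul] at this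
    rw [mul_assoc, ← mul_assoc y, this, mul_zero]
  refine ⟨e, he, fun q hq => (sub_eq_zero.1 (hz (e - e * q) fun y => ?_)).symm⟩
  have : (e - e * q) * (y * (e - e * q)) = ((e - e * q) * y * e) * (1 - q) := by noncomm_ring
  rw [this, s2 _ (by rw [eps_mul hm, sub_apply, eps_mul hm, he.2, hq.2]; simp), zero_mul]

end Pool.Agent.H9.Arens3
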