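import Pool.Agent.H9.Arens3

/-! The bidual of the group algebra of an infinite discrete group is not semisimple. -/
namespace Pool.Agent.H9.Arens4
open Filter Topology Pool.Agent.H9.Bid Pool.Agent.H9.Arens3

variable {G : Type}

lemma summ (w : G → ℂ) (C : ℝ) (hw : ∀ s, ‖w s‖ ≤ C) (a : L1 G) :
    Summable fun n => ‖a.val n * w n‖ :=
  Summable.of_nonneg_of_le (fun _ => norm_nonneg _) (fun n => by
    rw [norm_mul]; exact mul_le_mul_of_nonneg_left (hw n) (norm_nonneg _))
    ((hasSum_norm a).summable.mul_right C)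

lemma sum_le (w : G → ℂ) (C : ℝ) (hw : ∀ s, ‖w s‖ ≤ C) (a : L1 G) :
    ‖∑' n, a.val n * w n‖ ≤ C * ‖a‖ := by
  refine (norm_tsum_le_tsum_norm (summ w C hw a)).trans ?_
  rw [mul_comm]
  exact hasSum_le (fun n => by
    rw [norm_mul]; exact mul_le_mul_of_nonneg_left (hw n) (norm_nonneg _))
    (summ w C hw a).hasSum ((hasSum_norm a).mul_right C)

noncomputable def F (w : G → ℂ) (C : ℝ) (hw : ∀ s, ‖w s‖ ≤ C) : StrongDual ℂ (L1 G) :=
  LinearMap.mkContinuous
    ⟨⟨fun a => ∑' n, a.val n * w n, fun a b => by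
      simp only [add_val, add_mul]
      exact (summ w C hw a).of_norm.tsum_add (summ w C hw b).of_norm⟩, fun c a => by
      simp only [smul_val, mul_assoc, tsum_mul_left, RingHom.id_apply, smul_eq_mul]⟩ C
    (sum_le w C hw)

lemma F_delta (w : G → ℂ) (C : ℝ) (hw : ∀ s, ‖w s‖ ≤ C) (n : G) : F w C hw (delta n) = w n := by
  show ∑' k, (delta n).val k * w k = _
  rw [tsum_eq_single n (fun k hk => by simp [delta_val, hk])]
  simp [delta_val]

lemma F_norm (w : G → ℂ) (C : ℝ) (hC : 0 ≤ C) (hw : ∀ s, ‖w s‖ ≤ C) : ‖F w C hw‖ ≤ C :=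
  LinearMap.mkContinuous_norm_le _ hC _

lemma norm_le (f : StrongDual ℂ (L1 G)) (C : ℝ) (hC : 0 ≤ C) (h : ∀ s, ‖f (delta s)‖ ≤ C) :
    ‖f‖ ≤ C := by
  have : f = F (fun s => f (delta s)) C h := clm_ext fun s => by rw [F_delta]
  rw [this]; exact F_norm _ _ hC _

open Classical in
lemma norm_delta (n : G) : ‖delta n‖ = 1 :=
  (lp.norm_single (E := fun _ : G => ℂ) (by simp) n 1).trans norm_one

variable [Group G]

open Classical in
lemma delta_delta (n m : G) : delta n * delta m = delta (n * m) := lext fun k => by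
  rw [delta_mul, delta_val, delta_val]
  exact if_congr inv_mul_eq_iff_eq_mul rfl rfl

noncomputable def eps : StrongDual ℂ (L1 G) := F (fun _ => 1) 1 (by simp)

lemma eps_delta (s : G) : eps (delta s) = 1 := F_delta _ _ _ _

lemma eps_mul' (a b : L1 G) : eps (a * b) = eps a * eps b := by
  have h1 : ∀ s : G, ∀ b : L1 G, eps (delta s * b) = eps b := fun s b => by
    have : dualAct eps (delta s) = eps := clm_ext fun t => by
      rw [dualAct_apply, delta_delta, eps_delta, eps_delta]
    rw [← dualAct_apply, this]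
  have : eps.comp (mulR b) = eps b • eps := clm_ext fun s => by
    show eps (delta s * b) = eps b * eps (delta s)
    rw [h1, eps_delta, mul_one]
  have h2 : eps (a * b) = eps b * eps a := ContinuousLinearMap.ext_iff.1 this a
  rw [h2, mul_comm]

lemma exists_lim (t : ℕ → G) : ∃ q ∈ P (eps : StrongDual ℂ (L1 G)),
    ∀ (f : StrongDual ℂ (L1 G)) (c : ℂ), (∀ᶠ k in atTop, f (delta (t k)) = c) → q.toFun f = c := by
  obtain ⟨q, hq, h⟩ := (P_compact (eps : StrongDual ℂ (L1 G))).ultrafilter_le_nhds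
    ((hyperfilter ℕ).map fun k => emb (delta (t k))) (by
      rw [Ultrafilter.coe_map, le_principal_iff, mem_map]
      refine Eventually.of_forall fun k => ⟨fun f => ?_, eps_delta _⟩
      simpa [emb_apply, norm_delta] using f.le_opNorm (delta (t k)))
  refine ⟨q, hq, fun f c hc => tendsto_nhds_unique (((cont_eval f).tendsto q).comp h) ?_⟩
  exact tendsto_const_nhds.congr' (Nat.hyperfilter_le_atTop (hc.mono fun k hk => hk.symm))

lemma thick [Infinite G] : ∃ (D : Set G) (t : ℕ → G), ∀ s : G,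
    (∀ᶠ k in atTop, s * t (2 * k) ∉ D) ∧ ∀ᶠ k in atTop, s * t (2 * k + 1) ∈ D := by
  classical
  let H : Subgroup G := (FreeGroup.lift (Infinite.natEmbedding G)).range
  have hc : Countable H := (MonoidHom.rangeRestrict_surjective _).countable
  have hi : Infinite H := Infinite.of_injective
    (fun n => (⟨Infinite.natEmbedding G n, FreeGroup.of n, by simp⟩ : H))
    fun a b h => (Infinite.natEmbedding G).injective (congrArg Subtype.val h)
  obtain ⟨h, hh⟩ := exists_surjective_nat H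
  obtain ⟨u, -, hu⟩ := exists_seq_of_forall_finset_exists (α := ℕ × H) (fun _ => True)
    (fun x y => x.1 < y.1 ∧ ∀ i ≤ x.1, ∀ j ≤ y.1, h i * x.2 ≠ h j * y.2) (fun s _ => by
      set N := s.sup Prod.fst + 1
      obtain ⟨t, ht⟩ := Infinite.exists_notMem_finset
        (((Finset.range (N + 1)) ×ˢ (Finset.range (N + 1)) ×ˢ s).image
          fun z => (h z.1)⁻¹ * h z.2.1 * z.2.2.2)
      refine ⟨(N, t), trivial, fun x hx => ?_⟩
      have hx' : x.1 < N := Nat.lt_succ_of_le (Finset.le_sup hx)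
      refine ⟨hx', fun i hi j hj e => ht (Finset.mem_image.2 ⟨(j, i, x), ?_, ?_⟩)⟩
      · simp only [Finset.mem_product, Finset.mem_range]
        exact ⟨by simpa [Nat.lt_succ_iff] using hj, by omega, hx⟩
      · rw [mul_assoc, e, inv_mul_cancel_left])
  have hmono : StrictMono fun n => (u n).1 := fun a b hab => (hu a b hab).1
  let φ : G → H := fun g => ⟨(Quotient.out (g : G ⧸ H))⁻¹ * g,
    QuotientGroup.eq.1 (Quotient.out_eq' (g : G ⧸ H))⟩
  have hφ : ∀ (g : G) (x : H), φ (g * x) = φ g * x := fun g x => Subtype.ext (by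
    simp [φ, mul_assoc])
  refine ⟨{g | ∃ n i, i ≤ (u (2 * n + 1)).1 ∧ φ g = h i * (u (2 * n + 1)).2}, fun n => (u n).2,
    fun s => ?_⟩
  obtain ⟨i, hi⟩ := hh (φ s)
  constructor
  · filter_upwards [eventually_ge_atTop i] with k hk
    rintro ⟨n, j, hj, e⟩
    rw [hφ, ← hi] at e
    have hik : i ≤ (u (2 * k)).1 := le_trans (by omega : i ≤ 2 * k) (hmono.id_le (2 * k))
    rcases lt_trichotomy (2 * k) (2 * n + 1) with l | l | l
    · exact (hu _ _ l).2 i hik j hj e
    · omega
    · exact (hu _ _ l).2 j hj i hik e.symm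
  · filter_upwards [eventually_ge_atTop i] with k hk
    exact ⟨k, i, le_trans (by omega : i ≤ 2 * k + 1) (hmono.id_le (2 * k + 1)), by rw [hφ, hi]⟩

theorem main [Infinite G] : Ring.jacobson (Bidual (L1 G)) ≠ ⊥ := by
  classical
  intro hrad
  obtain ⟨D, t, ht⟩ := thick (G := G)
  obtain ⟨q0, hq0, h0⟩ := exists_lim fun k => t (2 * k)
  obtain ⟨q1, hq1, h1⟩ := exists_lim fun k => t (2 * k + 1)
  obtain ⟨e, he, hab⟩ := absorbing (ε := (eps : StrongDual ℂ (L1 G)))
    (F_norm _ _ zero_le_one _) eps_mul' (Set.range delta)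
    (by rintro _ ⟨s, rfl⟩; exact ⟨(norm_delta s).le, eps_delta s⟩)
    (fun f C hC h => norm_le f C hC fun s => h _ ⟨s, rfl⟩) ⟨q0, hq0⟩ hrad
  let f : StrongDual ℂ (L1 G) := F (fun s => if s ∈ D then 1 else 0) 1 (fun s => by
    split_ifs <;> simp)
  have a0 : bidualAct q0.toFun f = 0 := clm_ext fun s => by
    rw [bidualAct_apply]
    refine h0 _ _ ((ht s).1.mono fun k hk => ?_)
    rw [dualAct_apply, delta_delta, F_delta, if_neg hk]; rfl
  have a1 : bidualAct q1.toFun f = eps := clm_ext fun s => by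
    rw [bidualAct_apply]
    refine h1 _ _ ((ht s).2.mono fun k hk => ?_)
    rw [dualAct_apply, delta_delta, F_delta, if_pos hk, eps_delta]
  have b0 := mul_apply e q0 f
  have b1 := mul_apply e q1 f
  rw [hab _ hq0, a0, map_zero] at b0
  rw [hab _ hq1, a1, he.2, b0] at b1
  exact zero_ne_one b1

end Pool.Agent.H9.Arens4
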