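import Mathlib

/-! Weak ultralimits, closing-off, and Rockafellar's surjectivity theorem. -/
namespace Pool.Agent.H9.BR
open Filter Topology Set

variable {X I : Type} [NormedAddCommGroup X] [NormedSpace ℝ X]

/-- reflexivity -/
def Refl (X : Type) [NormedAddCommGroup X] [NormedSpace ℝ X] : Prop :=
  ∀ φ : (X →L[ℝ] ℝ) →L[ℝ] ℝ, ∃ x : X, ∀ f : X →L[ℝ] ℝ, φ f = f x

lemma rlim (U : Ultrafilter I) {r : I → ℝ} {C : ℝ} (h : ∀ i, |r i| ≤ C) :
    ∃ l, |l| ≤ C ∧ Tendsto r U (𝓝 l) :=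
  ((isCompact_Icc (a := -C) (b := C)).ultrafilter_le_nhds' (U.map r)
    (Ultrafilter.mem_map.2 (univ_mem' fun i => abs_le.1 (h i)))).imp fun _ e => ⟨abs_le.2 e.1, e.2⟩

lemma dlim (U : Ultrafilter I) {y : I → X →L[ℝ] ℝ} {C : ℝ} (h : ∀ i, ‖y i‖ ≤ C) :
    ∃ z : X →L[ℝ] ℝ, ∀ x, Tendsto (fun i => y i x) U (𝓝 (z x)) := by
  choose l l1 l2 using fun x => rlim U fun i => (y i).le_of_opNorm_le (h i) x
  exact ⟨LinearMap.mkContinuous ⟨⟨l, fun a b => tendsto_nhds_unique (l2 _)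
    (by simpa using (l2 a).add (l2 b))⟩, fun c a => tendsto_nhds_unique (l2 _)
    (by simpa using (l2 a).const_mul c)⟩ C l1, l2⟩

lemma wlim (hX : Refl X) (U : Ultrafilter I) {u : I → X} {C : ℝ} (h : ∀ i, ‖u i‖ ≤ C) :
    ∃ v, ∀ f : X →L[ℝ] ℝ, Tendsto (fun i => f (u i)) U (𝓝 (f v)) := by
  obtain ⟨z, a⟩ := dlim U (y := fun i => NormedSpace.inclusionInDoubleDual ℝ X (u i)) fun i =>
    (NormedSpace.double_dual_bound ℝ X _).trans (h i)
  obtain ⟨v, b⟩ := hX z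
  exact ⟨v, fun f => b f ▸ a f⟩

lemma wmem {l : Filter I} [l.NeBot] {Z : Set X} (h1 : Convex ℝ Z) (h2 : IsClosed Z) {u : I → X}
    {v : X} (h3 : ∀ i, u i ∈ Z) (h : ∀ f : X →L[ℝ] ℝ, Tendsto (fun i => f (u i)) l (𝓝 (f v))) :
    v ∈ Z := by
  by_contra e
  obtain ⟨f, c, a, b⟩ := geometric_hahn_banach_point_closed h1 h2 e
  exact a.not_ge (ge_of_tendsto' (h f) fun i => (b _ (h3 i)).le)

/-- truncation of a sequence -/
def tr (x : ℕ → X) (n m : ℕ) : X := if m < n then x m else 0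

lemma co (s : ℕ → (ℕ → X) → X) : ∃ x : ℕ → X, Convex ℝ (closure (range x)) ∧
    ∀ k, x (2 * k) = s k (tr x (2 * k)) := by
  obtain ⟨q, hq⟩ := exists_surjective_nat (ℕ × ℕ × ℚ)
  let t : ℕ → (ℕ → X) → X := fun n x => if n % 2 = 0 then s (n / 2) x else
    ((q (n / 2).unpair.1).2.2 : ℝ) • x (q (n / 2).unpair.1).1 +
      (1 - (q (n / 2).unpair.1).2.2 : ℝ) • x (q (n / 2).unpair.1).2.1
  obtain ⟨x, hx⟩ : ∃ x : ℕ → X, ∀ n, x n = t n (tr x n) :=
    ⟨Nat.strongRec (motive := fun _ => X) fun n r => t n fun m => if h : m < n then r m h else 0,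
      fun n => Nat.strongRec_eq _ n⟩
  refine ⟨x, fun a ha b hb c d _ _ e => ?_, fun k => by simpa [t] using hx (2 * k)⟩
  obtain rfl : d = 1 - c := by linarith
  refine Rat.denseRange_cast.induction_on (p := fun c : ℝ => c • a + (1 - c) • b ∈ closure (range x))
    c (isClosed_closure.preimage (by fun_prop)) fun c => map_mem_closure₂
      (f := fun a b => (c : ℝ) • a + (1 - c : ℝ) • b) (by fun_prop) ha hb ?_
  rintro _ ⟨i, rfl⟩ _ ⟨j, rfl⟩
  obtain ⟨m, hm⟩ := hq (i, j, c)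
  have := Nat.right_le_pair m (i + j)
  refine ⟨2 * m.pair (i + j) + 1, (hx _).trans ?_⟩
  simp only [t, tr, show (2 * m.pair (i + j) + 1) / 2 = m.pair (i + j) by omega, Nat.unpair_pair, hm]
  rw [if_neg (by omega), if_pos (by omega), if_pos (by omega)]

/-- a norming functional -/
noncomputable def nf (x : X) : X →L[ℝ] ℝ := (exists_dual_vector'' ℝ x).choose

lemma nf_le (x z : X) : |nf x z| ≤ ‖z‖ :=
  ((nf x).le_of_opNorm_le (exists_dual_vector'' ℝ x).choose_spec.1 z).trans_eq (one_mul _)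

lemma nf_self (x : X) : nf x x = ‖x‖ := (exists_dual_vector'' ℝ x).choose_spec.2

lemma ex (hX : Refl X) (U : Ultrafilter I) {u : I → X} {v : X} {C : ℝ} (h1 : ∀ i, ‖u i‖ ≤ C)
    (h2 : ∀ f : X →L[ℝ] ℝ, Tendsto (fun i => f (u i)) U (𝓝 (f v))) (A : ℕ → Set I)
    (h3 : ∀ k, A k ∈ U) : ∃ j : ℕ → I, (∀ k, j k ∈ A k) ∧
      ∀ f : X →L[ℝ] ℝ, Tendsto (fun k => f (u (j k))) atTop (𝓝 (f v)) := by
  have h4 : ∀ f : X →L[ℝ] ℝ, Tendsto (fun i => f (u i - v)) U (𝓝 0) := fun f => by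
    simpa using (h2 f).sub_const (f v)
  choose j j1 j2 using fun (k : ℕ) (x : ℕ → X) => (Eventually.and (h3 k)
    ((eventually_all_finset (Finset.range (2 * k))).2 fun m _ => (h4 (nf (x m))).abs.eventually
      (gt_mem_nhds (abs_zero.trans_lt (Nat.one_div_pos_of_nat (n := k)))))).exists
  obtain ⟨x, a1, a2⟩ := co fun k x => u (j k x) - v
  refine ⟨fun k => j k (tr x (2 * k)), fun k => j1 _ _, fun f => (tendsto_iff_ultrafilter _ _ _).2
    fun V hV => ?_⟩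
  obtain ⟨w, a3⟩ := wlim hX V (u := fun k => x (2 * k)) (C := C + ‖v‖) fun k =>
    (a2 k).symm ▸ norm_sub_le_of_le (h1 _) le_rfl
  have a4 : ∀ m, nf (x m) w = 0 := fun m => tendsto_nhds_unique (a3 _)
    ((squeeze_zero_norm' ((eventually_gt_atTop m).mono fun k e => by
      have := j2 k (tr x (2 * k)) m (Finset.mem_range.2 (by omega))
      rw [← a2, tr, if_pos (by omega)] at this
      simpa using this.le) tendsto_one_div_add_atTop_nhds_zero_nat).mono_left hV)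
  have a5 : w = 0 := norm_le_zero_iff.1 (le_of_forall_pos_le_add fun δ e => by
    obtain ⟨_, ⟨m, rfl⟩, b⟩ := Metric.mem_closure_iff.1 (wmem a1 isClosed_closure
      (fun k => subset_closure ⟨_, rfl⟩) a3) _ (half_pos e)
    have := nf_le (x m) (w - x m)
    rw [map_sub, a4, nf_self, zero_sub, abs_neg, abs_norm] at this
    linarith [norm_sub_norm_le w (x m), dist_eq_norm w (x m)])
  simpa [a2, a5] using (a3 f).add_const (f v)

/-- maximal monotone graphs -/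
def MM (Γ : X → (X →L[ℝ] ℝ) → Prop) : Prop :=
  ∀ x f, Γ x f ↔ ∀ a b, Γ a b → 0 ≤ (f - b) (x - a)

lemma MM.ne {Γ : X → (X →L[ℝ] ℝ) → Prop} (h : MM Γ) : ∃ a b, Γ a b := by
  by_contra! e
  exact e 0 0 ((h 0 0).2 fun a b c => (e a b c).elim)

lemma rock0 (hX : Refl X) {Γ : X → (X →L[ℝ] ℝ) → Prop} (h : MM Γ) :
    ∃ u y, Γ u y ∧ y u = -‖u‖ ^ 2 ∧ ∀ x, y x ≤ ‖u‖ * ‖x‖ := by
  obtain ⟨φ, α, a1, a2⟩ := geometric_hahn_banach_open
    (s := {p : X × (X →L[ℝ] ℝ) × ℝ | (‖p.1‖ ^ 2 + ‖p.2.1‖ ^ 2) / 2 + p.2.2 < 0})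
    (t := {p | ∀ a b, Γ a b → b p.1 + p.2.1 a - b a ≤ p.2.2})
    (fun p hp q hq c d c0 d0 e => by
      have b1 := pow_le_pow_left₀ (norm_nonneg _) (norm_add_le_of_le
        (norm_smul_of_nonneg c0 p.1).le (norm_smul_of_nonneg d0 q.1).le) 2
      have b2 := pow_le_pow_left₀ (norm_nonneg _) (norm_add_le_of_le
        (norm_smul_of_nonneg c0 p.2.1).le (norm_smul_of_nonneg d0 q.2.1).le) 2
      have b3 := Convex.combo_le_max ((‖p.1‖ ^ 2 + ‖p.2.1‖ ^ 2) / 2 + p.2.2)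
        ((‖q.1‖ ^ 2 + ‖q.2.1‖ ^ 2) / 2 + q.2.2) c0 d0 e |>.trans_lt (max_lt hp hq)
      obtain rfl : d = 1 - c := by linarith
      simp only [mem_ofPred_eq, Prod.fst_add, Prod.snd_add, Prod.smul_fst, Prod.smul_snd,
        smul_eq_mul] at *
      nlinarith [mul_nonneg (mul_nonneg c0 d0) (sq_nonneg (‖p.1‖ - ‖q.1‖)),
        mul_nonneg (mul_nonneg c0 d0) (sq_nonneg (‖p.2.1‖ - ‖q.2.1‖))])
    (isOpen_lt (by fun_prop) continuous_const)
    (fun p hp q hq c d c0 d0 e a b g => by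
      have := add_le_add (mul_le_mul_of_nonneg_left (hp a b g) c0)
        (mul_le_mul_of_nonneg_left (hq a b g) d0)
      obtain rfl : d = 1 - c := by linarith
      simp
      linarith)
    (disjoint_left.2 fun ⟨x, g, t⟩ hp hq => by
      have b1 : t < g x := by
        have := (neg_le_abs _).trans (g.le_opNorm x)
        simp only [mem_ofPred_eq] at hp
        nlinarith [sq_nonneg (‖x‖ - ‖g‖)]
      have := hq x g ((h x g).2 fun a b e => by
        have := hq a b e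
        simp at *
        linarith)
      simp at this
      linarith)
  have b0 : ∀ a b, Γ a b → α ≤ φ (a, b, b a) := fun a b e => a2 _ fun c d g => by
    have := (h a b).1 e c d g
    simp at *
    linarith
  obtain ⟨μ, b1⟩ : ∃ μ, ∀ x g t, φ (x, g, t) = φ (x, 0, 0) + φ (0, g, 0) + t * μ :=
    ⟨φ (0, 0, 1), fun x g t => by
      rw [← smul_eq_mul, ← map_smul, ← map_add, ← map_add]
      simp⟩
  have b2 : 0 < μ := by
    obtain ⟨a, b, e⟩ := h.ne
    have c1 := b0 a b e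
    have c2 := a1 (a, b, -((‖a‖ ^ 2 + ‖b‖ ^ 2) / 2) - 1) (by simp only [mem_ofPred_eq]; linarith)
    rw [b1] at c1 c2
    have := (neg_le_abs _).trans (b.le_opNorm a)
    by_contra! c
    nlinarith [sq_nonneg (‖a‖ - ‖b‖)]
  obtain ⟨u, b3⟩ := hX (-μ⁻¹ • φ ∘L .inr ℝ _ _ ∘L .inl ℝ _ _)
  let y : X →L[ℝ] ℝ := -μ⁻¹ • φ ∘L .inl ℝ _ _
  have b4 : ∀ x g t, φ (x, g, t) = μ * (t - y x - g u) := fun x g t => by
    rw [b1, ← b3, show ((x, 0, 0) : X × (X →L[ℝ] ℝ) × ℝ) = (x, 0) from rfl]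
    simp [y]
    field_simp
    ring
  have b5 : ∀ x, -y x - ‖x‖ ^ 2 / 2 + ‖u‖ ^ 2 / 2 ≤ α / μ := fun x =>
    le_of_forall_pos_le_add fun δ e => by
      have c1 := a1 (x, -‖u‖ • nf u, -((‖x‖ ^ 2 + ‖u‖ ^ 2) / 2) - δ) (by
        have := pow_le_pow_left₀ (norm_nonneg _) ((-‖u‖ • nf u).opNorm_le_bound (norm_nonneg u)
          fun z => by simpa using mul_le_mul_of_nonneg_left (nf_le u z) (norm_nonneg u)) 2
        simp only [mem_ofPred_eq]
        linarith)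
      rw [b4, ← lt_div_iff₀' b2] at c1
      simp [nf_self] at c1
      linarith
  have b6 : ∀ a b, Γ a b → α / μ ≤ b a - y a - b u := fun a b e =>
    (div_le_iff₀' b2).2 (b4 _ _ _ ▸ b0 a b e)
  have b7 : Γ u y := (h u y).2 fun a b e => by
    have := b6 a b e
    have := b5 u
    simp
    linarith
  have b8 : ∀ x, y x ^ 2 ≤ (-2 * y u - ‖u‖ ^ 2) * ‖x‖ ^ 2 := fun x => by
    have := discrim_le_zero (a := ‖x‖ ^ 2 / 2) (b := y x) (c := -y u - ‖u‖ ^ 2 / 2) fun t => by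
      have := (b5 (t • x)).trans (b6 u y b7)
      rw [map_smul, norm_smul, mul_pow, Real.norm_eq_abs, sq_abs, smul_eq_mul] at this
      linarith
    rw [discrim] at this
    linarith
  have b9 : y u = -‖u‖ ^ 2 := by nlinarith [b8 u, sq_nonneg (y u + ‖u‖ ^ 2)]
  exact ⟨u, y, b7, b9, fun x => (abs_le_of_sq_le_sq' (by nlinarith [b8 x]) (by positivity)).2⟩

end Pool.Agent.H9.BR
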