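import Pool.Agent.H9.BR1

/-! A norm that is locally uniformly rotund on a separable set, and resolvents for it. -/
namespace Pool.Agent.H9.BR
open Filter Topology Set

variable {X : Type} [NormedAddCommGroup X] [NormedSpace ℝ X]

/-- the complement of the rank-one projection attached to `a` -/
noncomputable def cp (a : X) : X →L[ℝ] X := 1 - (nf a).smulRight (‖a‖⁻¹ • a)

lemma cp_eq (a z : X) : cp a z = z - nf a z • ‖a‖⁻¹ • a := rfl

lemma pr_le (a : X) (t : ℝ) : ‖t • ‖a‖⁻¹ • a‖ ≤ |t| := by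
  rw [norm_smul, norm_smul, norm_inv, norm_norm]
  exact mul_le_of_le_one_right (abs_nonneg _) inv_mul_le_one

lemma cp_le (a z : X) : ‖cp a z‖ ≤ 2 * ‖z‖ :=
  (norm_sub_le_of_le le_rfl ((pr_le a _).trans (nf_le a z))).trans_eq (two_mul _).symm

/-- one term of the norm -/
noncomputable def q (a z : X) : ℝ := ‖cp a z‖ ^ 2 + nf a z ^ 2

lemma q_le (a z : X) : q a z ≤ 5 * ‖z‖ ^ 2 := by
  have := pow_le_pow_left₀ (norm_nonneg _) (cp_le a z) 2
  have := pow_le_pow_left₀ (abs_nonneg _) (nf_le a z) 2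
  rw [sq_abs] at this
  unfold q
  linarith

lemma q_nn (a z : X) : 0 ≤ q a z := by unfold q; positivity

/-- the new norm -/
noncomputable def N (x : ℕ → X) (z : X) : ℝ := √(∑' n, 4 * (1 / 4) ^ n * q (x n) z)

lemma N_nn (x : ℕ → X) (z : X) : 0 ≤ N x z := Real.sqrt_nonneg _

lemma geo4 (c : ℝ) : HasSum (fun n : ℕ => 4 * (1 / 4 : ℝ) ^ n * c) (16 / 3 * c) := by
  have := ((hasSum_geometric_of_lt_one (r := 1 / 4) (by norm_num) (by norm_num)).mul_left
    4).mul_right c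
  rwa [show (4 : ℝ) * (1 - 1 / 4)⁻¹ = 16 / 3 by norm_num] at this

lemma hsN (x : ℕ → X) (z : X) : HasSum (fun n => 4 * (1 / 4) ^ n * q (x n) z) (N x z ^ 2) := by
  rw [N, Real.sq_sqrt (tsum_nonneg fun n => mul_nonneg (by positivity) (q_nn _ _))]
  exact (Summable.of_nonneg_of_le (fun n => mul_nonneg (by positivity) (q_nn _ _))
    (fun n => mul_le_mul_of_nonneg_left (q_le _ _) (by positivity)) (geo4 _).summable).hasSum

lemma N_le (x : ℕ → X) (z : X) : N x z ≤ 6 * ‖z‖ := (abs_le_of_sq_le_sq' (by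
  nlinarith [hasSum_le (fun n => mul_le_mul_of_nonneg_left (q_le (x n) z) (by positivity)) (hsN x z)
    (geo4 _)]) (by positivity)).2

lemma le_N (x : ℕ → X) (z : X) : ‖z‖ ≤ N x z := (abs_le_of_sq_le_sq' (by
  have a := le_hasSum (hsN x z) 0 fun n _ => mul_nonneg (by positivity) (q_nn _ _)
  have b := pow_le_pow_left₀ (norm_nonneg _) (norm_add_le_of_le (le_refl ‖cp (x 0) z‖)
    (pr_le (x 0) (nf (x 0) z))) 2
  rw [cp_eq, sub_add_cancel, ← cp_eq] at b
  rw [q, ← sq_abs (nf _ _)] at a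
  nlinarith [sq_nonneg (‖cp (x 0) z‖ - |nf (x 0) z|)]) (N_nn x z)).2

lemma rep (x : ℕ → X) : ∃ (W : Type) (_ : NormedAddCommGroup W) (_ : NormedSpace ℝ W)
    (e : W ≃L[ℝ] X), ∀ a, ‖a‖ = N x (e a) := by
  let c : ℕ → X →ₗ[ℝ] WithLp 2 (X × ℝ) := fun n => (2 * (1 / 2) ^ n : ℝ) •
    (WithLp.linearEquiv 2 ℝ _).symm.toLinearMap ∘ₗ (cp (x n)).toLinearMap.prod (nf (x n)).toLinearMap
  have a : ∀ z, HasSum (fun n => ‖c n z‖ ^ (2 : ENNReal).toReal) (N x z ^ 2) := fun z => by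
    convert hsN x z using 2 with n
    simp [c, norm_smul, mul_pow, WithLp.prod_norm_sq_eq_of_L2, q]
    norm_num
    exact .inl (by rw [← pow_mul, mul_comm, pow_mul]; norm_num)
  let A : X →ₗ[ℝ] lp (fun _ : ℕ => WithLp 2 (X × ℝ)) 2 :=
    ⟨⟨fun z => ⟨fun n => c n z, memℓp_gen (a z).summable⟩, fun y z => lp.ext (funext fun n =>
      map_add _ _ _)⟩, fun t z => lp.ext (funext fun n => map_smul _ _ _)⟩
  have b : ∀ z, ‖A z‖ = N x z := fun z => (sq_eq_sq₀ (norm_nonneg _) (N_nn _ _)).1 (by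
    simpa using (lp.hasSum_norm (by simp) (A z)).unique (a z))
  let e := LinearEquiv.ofInjective A ((injective_iff_map_eq_zero A).2 fun z h =>
    norm_le_zero_iff.1 ((le_N x z).trans (by rw [← b, h, norm_zero])))
  have d : ∀ z, ‖e z‖ = N x z := b
  exact ⟨A.range, _, _, (e.toContinuousLinearEquivOfBounds 6 1 (fun z => d z ▸ N_le x z) fun z => by
    simpa [← d] using le_N x (e.symm z)).symm, fun z =>
      (congrArg norm (e.apply_symm_apply z).symm).trans (d _)⟩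

/-- `g` belongs to the duality map of `N x` at `w` -/
def Du (x : ℕ → X) (g : X →L[ℝ] ℝ) (w : X) : Prop :=
  g w = N x w ^ 2 ∧ ∀ z, g z ≤ N x w * N x z

lemma du (x : ℕ → X) (w : X) : ∃ g, Du x g w := by
  obtain ⟨W, _, _, e, h⟩ := rep x
  refine ⟨N x w • nf (e.symm w) ∘L (e.symm : X →L[ℝ] W), by simp [nf_self, h, sq], fun z => ?_⟩
  simpa [h] using mul_le_mul_of_nonneg_left ((le_abs_self _).trans (nf_le (e.symm w) (e.symm z)))
    (N_nn x w)

lemma Du.norm {x : ℕ → X} {g : X →L[ℝ] ℝ} {w : X} (h : Du x g w) : ‖g‖ ≤ 6 * N x w :=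
  g.opNorm_le_bound (by linarith [N_nn x w]) fun z => abs_le.2 ⟨by
    have := h.2 (-z)
    nlinarith [N_le x (-z), N_nn x w, map_neg g z, norm_neg z], by
    nlinarith [h.2 z, N_le x z, N_nn x w]⟩

lemma rock (hX : Refl X) {Γ : X → (X →L[ℝ] ℝ) → Prop} (h : MM Γ) {ε : ℝ} (hε : 0 < ε) (x : ℕ → X)
    (v : X) : ∃ w y, Γ (v - w) y ∧ Du x (ε • y) w := by
  obtain ⟨W, _, _, e, a⟩ := rep x
  obtain ⟨u, y, b1, b2, b3⟩ := rock0 (X := W) (fun φ => by
    obtain ⟨z, c⟩ := hX (φ ∘L (ContinuousLinearMap.compL ℝ W X ℝ).flip (e : W →L[ℝ] X))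
    refine ⟨e.symm z, fun f => ?_⟩
    have k : (f ∘L (e.symm : X →L[ℝ] W)) ∘L (e : W →L[ℝ] X) = f := by ext; simp
    exact (congrArg φ k).symm.trans (c (f ∘L (e.symm : X →L[ℝ] W)))) (Γ := fun a g => Γ (v + e a) (ε⁻¹ • g ∘L (e.symm : X →L[ℝ] W))) fun a g => by
    refine (h _ _).trans ⟨fun c b f d => ?_, fun c b f d => ?_⟩
    · have := mul_nonneg hε.le (c _ _ d)
      simpa [← mul_sub, mul_sub ε, hε.ne'] using this
    · have := mul_nonneg (inv_pos.2 hε).le (c (e.symm (b - v)) (ε • f ∘L (e : W →L[ℝ] X)) (by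
        convert d
        · simp
        · ext
          simp [hε.ne']))
      simp [mul_sub, hε.ne'] at this ⊢
      linarith
  have c : N x (-e u) = ‖u‖ := by rw [← map_neg, ← a, norm_neg]
  refine ⟨-e u, _, by rwa [sub_neg_eq_add], by simp [hε.ne', c, b2], fun z => ?_⟩
  simpa [hε.ne', c, a] using b3 (e.symm z)

lemma dfc {x : ℕ → X} {g : X →L[ℝ] ℝ} {w : X} (h : Du x g w) (z : X) :
    4 * g z ≤ N x (z + w) ^ 2 := by
  have := h.2 (z + w)
  rw [map_add, h.1] at this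
  nlinarith [sq_nonneg (2 * N x w - N x (z + w))]

lemma lur {x : ℕ → X} {w : X} (h : w ∈ closure (range x)) {δ : ℝ} (hδ : 0 < δ) : ∃ η > 0, ∀ z,
    2 * N x z ^ 2 + 2 * N x w ^ 2 - N x (z + w) ^ 2 ≤ η → ‖z - w‖ ≤ 6 * δ := by
  obtain ⟨_, ⟨n, rfl⟩, a⟩ := Metric.mem_closure_iff.1 h δ hδ
  refine ⟨4 * (1 / 4) ^ n * δ ^ 2, by positivity, fun z b => ?_⟩
  have c : ∀ a, (‖cp a z‖ - ‖cp a w‖) ^ 2 + (nf a z - nf a w) ^ 2 ≤
      2 * q a z + 2 * q a w - q a (z + w) := fun a => by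
    have := pow_le_pow_left₀ (norm_nonneg _) (norm_add_le (cp a z) (cp a w)) 2
    simp only [q, map_add]
    linarith
  have d := (le_hasSum ((((hsN x z).mul_left 2).add ((hsN x w).mul_left 2)).sub (hsN x (z + w))) n
    fun m _ => by
      nlinarith [mul_nonneg (show (0 : ℝ) ≤ 4 * (1 / 4) ^ m by positivity)
        (le_trans (by positivity) (c (x m)))]).trans b
  have e := (c (x n)).trans (le_of_mul_le_mul_left (c := δ ^ 2) (by linarith)
    (show (0 : ℝ) < 4 * (1 / 4) ^ n by positivity))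
  have f : ‖cp (x n) w‖ ≤ 2 * δ := by
    have : cp (x n) (x n) = 0 := by
      rw [cp_eq, nf_self]
      by_cases h : x n = 0 <;> simp [h]
    linarith [cp_le (x n) (w - x n), dist_eq_norm w (x n),
      show ‖cp (x n) (w - x n)‖ = ‖cp (x n) w‖ by rw [map_sub, this, sub_zero]]
  have g := norm_add_le_of_le (norm_sub_le (cp (x n) z) (cp (x n) w)) (pr_le (x n) (nf (x n) (z - w)))
  rw [← map_sub, cp_eq, sub_add_cancel, map_sub] at g
  linarith [(abs_le_of_sq_le_sq' (le_trans (le_add_of_nonneg_right (sq_nonneg _)) e) hδ.le).2,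
    abs_le_of_sq_le_sq (le_trans (le_add_of_nonneg_left (sq_nonneg _)) e) hδ.le]

lemma tail (x : ℕ → X) (n : ℕ) (z : X) :
    |N x z ^ 2 - N (tr x n) z ^ 2| ≤ 40 * ‖z‖ ^ 2 * (1 / 2) ^ n := by
  refine (((hsN x z).sub (hsN (tr x n) z)).norm_le_of_bounded (hasSum_geometric_two.mul_left
    (20 * ‖z‖ ^ 2 * (1 / 2) ^ n)) fun m => ?_).trans_eq (by ring)
  unfold tr
  split_ifs with h
  · rw [sub_self, norm_zero]
    positivity
  · have a := pow_le_pow_of_le_one (show (0 : ℝ) ≤ 1 / 2 by norm_num) (by norm_num) (not_lt.1 h)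
    have b : |q (x m) z - q 0 z| ≤ 5 * ‖z‖ ^ 2 := abs_le.2
      ⟨by linarith [q_le 0 z, q_nn (x m) z], by linarith [q_le (x m) z, q_nn 0 z]⟩
    rw [← mul_sub, Real.norm_eq_abs, abs_mul, abs_of_pos (by positivity),
      show (1 / 4 : ℝ) = 1 / 2 * (1 / 2) by norm_num, mul_pow]
    nlinarith [mul_le_mul a b (abs_nonneg _) (by positivity), show (0 : ℝ) < (1 / 2) ^ m by positivity]

end Pool.Agent.H9.BR
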