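import Pool.Agent.H9.BR2

/-! Continuity of resolvents on a separable set. -/
namespace Pool.Agent.H9.BR
open Filter Topology Set

variable {X : Type} [NormedAddCommGroup X] [NormedSpace ℝ X] {Γ : X → (X →L[ℝ] ℝ) → Prop} {ε : ℝ}
  {x x1 : ℕ → X} {v v1 w w1 a0 : X} {y y1 b0 : X →L[ℝ] ℝ}

/-- the resolvent equation -/
def Sol (Γ : X → (X →L[ℝ] ℝ) → Prop) (ε : ℝ) (x : ℕ → X) (v w : X) (y : X →L[ℝ] ℝ) : Prop :=
  Γ (v - w) y ∧ Du x (ε • y) w

lemma mon (h : MM Γ) (hε : 0 < ε) (a : Sol Γ ε x v w y) (b : Sol Γ ε x1 v1 w1 y1) :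
    N x w1 ^ 2 + N x w ^ 2 - 2 * (ε • y) w1 ≤ 12 * (N x1 w1 + N x w) * ‖v1 - v‖ +
      (N x w1 ^ 2 - N x1 w1 ^ 2) + (N x1 w ^ 2 - N x w ^ 2) := by
  have c := mul_nonneg hε.le ((h _ _).1 b.1 _ _ a.1)
  have d1 := abs_le.1 ((ε • y1).le_of_opNorm_le b.2.norm (v1 - v))
  have d2 := abs_le.1 ((ε • y).le_of_opNorm_le a.2.norm (v1 - v))
  have e1 := a.2.1
  have e2 := b.2.1
  have e3 := b.2.2 w
  simp only [map_sub, sub_apply, smul_apply,
    smul_eq_mul] at *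
  linarith [sq_nonneg (N x1 w1 - N x1 w)]

lemma bd (h : MM Γ) (hε : 0 < ε) (h1 : ε ≤ 1) (h0 : Γ a0 b0) (a : Sol Γ ε x v w y) :
    N x w ≤ 7 * ‖v - a0‖ + 2 * ‖b0‖ := by
  have c := mul_nonneg hε.le ((h _ _).1 a.1 _ _ h0)
  have d1 := (a.2.2 (v - a0)).trans (mul_le_mul_of_nonneg_left (N_le x _) (N_nn x w))
  have d : ‖ε • b0‖ ≤ ‖b0‖ := by
    rw [norm_smul, Real.norm_of_nonneg hε.le]
    exact mul_le_of_le_one_left (norm_nonneg _) h1
  have d2 := abs_le.1 ((ε • b0).le_of_opNorm_le d (v - a0))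
  have d3 := abs_le.1 (((ε • b0).le_of_opNorm_le d w).trans
    (mul_le_mul_of_nonneg_left (le_N x w) (norm_nonneg _)))
  have e1 := a.2.1
  simp only [map_sub, sub_apply, smul_apply,
    smul_eq_mul] at c d1 d2 d3 e1
  by_contra! e
  have := norm_nonneg (v - a0)
  have := norm_nonneg b0
  nlinarith [mul_pos (sub_pos.2 e) (show 0 < N x w by linarith), mul_le_mul_of_nonneg_left e.le
    (add_nonneg (norm_nonneg (v - a0)) (norm_nonneg b0))]

lemma N_cont (x : ℕ → X) : Continuous (N x) := by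
  obtain ⟨W, _, _, e, h⟩ := rep x
  convert e.symm.continuous.norm using 2
  simp [h]

omit [NormedSpace ℝ X] in
lemma sbd {u : ℕ → X} (h : Tendsto u atTop (𝓝 v)) (a : X) : ∃ C, ∀ j, ‖u j - a‖ ≤ C := by
  obtain ⟨C, e⟩ := (Metric.isBounded_range_of_tendsto _ (h.sub_const a)).exists_norm_le
  exact ⟨C, fun j => e _ ⟨j, rfl⟩⟩

lemma key (hX : Refl X) (h : MM Γ) (hε : 0 < ε) (h1 : ε ≤ 1) (V : ℕ → X) :
    ∃ x, ∀ v ∈ closure (range V), ∀ w y, Sol Γ ε x v w y → w ∈ closure (range x) := by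
  choose W Y hW using rock hX h hε
  obtain ⟨x, a1, a2⟩ := co fun k x => W x (V k.unpair.1)
  refine ⟨x, fun v hv w y b => ?_⟩
  obtain ⟨u, u1, u2⟩ := mem_closure_iff_seq_limit.1 hv
  choose i hi using u1
  obtain ⟨a0, b0, h0⟩ := h.ne
  obtain ⟨C, hC⟩ := sbd u2 a0
  obtain ⟨k, k1, s⟩ : ∃ k : ℕ → ℕ, (∀ j, j ≤ k j) ∧
      ∀ j, Sol Γ ε (tr x (k j)) (u j) (x (k j)) (Y (tr x (k j)) (u j)) :=
    ⟨fun j => 2 * (i j).pair j, fun j => by linarith [Nat.right_le_pair (i j) j], fun j => by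
      rw [a2, Nat.unpair_pair, hi]
      exact hW _ _⟩
  obtain ⟨B, n1⟩ : ∃ B, ∀ j, N (tr x (k j)) (x (k j)) ≤ B :=
    ⟨7 * C + 2 * ‖b0‖, fun j => by linarith [bd h hε h1 h0 (s j), hC j]⟩
  have n2 : ∀ j, ‖x (k j)‖ ≤ B := fun j => (le_N _ _).trans (n1 j)
  obtain ⟨z, hz⟩ := wlim hX (hyperfilter ℕ) n2
  have m := wmem a1 isClosed_closure (fun j => subset_closure ⟨_, rfl⟩) hz
  obtain ⟨g, hg⟩ := du x z
  have t : Tendsto (fun j => 12 * (B + N x w) * ‖u j - v‖ + 40 * (B ^ 2 + ‖w‖ ^ 2) * (1 / 2 : ℝ) ^ j)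
      (hyperfilter ℕ) (𝓝 0) := by
    simpa using (((tendsto_iff_norm_sub_tendsto_zero.1 u2).const_mul (12 * (B + N x w))).add
      ((tendsto_pow_atTop_nhds_zero_of_lt_one (r := (1 / 2 : ℝ)) (by norm_num)
        (by norm_num)).const_mul (40 * (B ^ 2 + ‖w‖ ^ 2)))).mono_left Nat.hyperfilter_le_atTop
  have l := le_of_tendsto_of_tendsto' (((((hz g).const_mul 2).sub_const (N x z ^ 2)).add_const
    (N x w ^ 2)).sub ((hz (ε • y)).const_mul 2)) t fun j => by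
      have p := pow_le_pow_of_le_one (show (0 : ℝ) ≤ 1 / 2 by norm_num) (by norm_num) (k1 j)
      have t1 := (abs_le.1 ((tail x (k j) (x (k j))).trans (mul_le_mul (mul_le_mul_of_nonneg_left
        (pow_le_pow_left₀ (norm_nonneg _) (n2 j) 2) (by norm_num)) p (by positivity)
        (by positivity)))).2
      have t2 := (abs_le.1 ((tail x (k j) w).trans (mul_le_mul_of_nonneg_left p (by positivity)))).1
      linarith [mon h hε b (s j), hg.2 (x (k j)), sq_nonneg (N x z - N x (x (k j))),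
        mul_le_mul_of_nonneg_right (n1 j) (norm_nonneg (u j - v))]
  obtain rfl : w = z := sub_eq_zero.1 (norm_le_zero_iff.1 (le_of_forall_pos_le_add fun δ e => by
    obtain ⟨η, e1, e2⟩ := lur m (show 0 < δ / 6 by positivity)
    linarith [e2 w (by linarith [dfc b.2 z, hg.1, add_comm w z ▸ dfc b.2 z])]))
  exact m

lemma cont (h : MM Γ) (hε : 0 < ε) (h1 : ε ≤ 1) (m : w ∈ closure (range x)) (a : Sol Γ ε x v w y)
    {u z : ℕ → X} {g : ℕ → X →L[ℝ] ℝ} (hu : Tendsto u atTop (𝓝 v))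
    (b : ∀ j, Sol Γ ε x (u j) (z j) (g j)) : Tendsto z atTop (𝓝 w) := by
  obtain ⟨a0, b0, h0⟩ := h.ne
  obtain ⟨C, hC⟩ := sbd hu a0
  refine Metric.tendsto_nhds.2 fun δ e => ?_
  obtain ⟨η, e1, e2⟩ := lur m (show 0 < δ / 7 by positivity)
  filter_upwards [((tendsto_iff_norm_sub_tendsto_zero.1 hu).const_mul
    (24 * (7 * C + 2 * ‖b0‖ + N x w))).eventually (gt_mem_nhds ((mul_zero _).trans_lt e1))] with j c
  linarith [dist_eq_norm (z j) w, e2 (z j) (by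
    linarith [dfc a.2 (z j), mon h hε a (b j), mul_le_mul_of_nonneg_right
      (show N x (z j) ≤ 7 * C + 2 * ‖b0‖ by linarith [bd h hε h1 h0 (b j), hC j])
      (norm_nonneg (u j - v))])]

end Pool.Agent.H9.BR
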