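import Pool.Agent.H9.BR3
import Pool.Agent.H8.Brouwer

/-! A zero theorem for convex-valued upper semicontinuous maps in finite dimension. -/
namespace Pool.Agent.H9.BR
open Filter Topology Set

variable {E : Type} [NormedAddCommGroup E] [InnerProductSpace ℝ E] [FiniteDimensional ℝ E]

lemma reflE : Refl E := fun φ => by
  have := FiniteDimensional.complete ℝ E
  refine ⟨(InnerProductSpace.toDual ℝ E).symm (LinearMap.toContinuousLinearMap
    ⟨⟨fun k => φ (innerSL ℝ k), by simp⟩, by simp⟩), fun f => ?_⟩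
  obtain ⟨k, rfl⟩ := (InnerProductSpace.toDual ℝ E).surjective f
  rw [InnerProductSpace.toDual_apply_apply, real_inner_comm, InnerProductSpace.toDual_symm_apply]
  rfl

lemma kf (A : E → Set (E →L[ℝ] ℝ)) (h1 : ∀ c, Convex ℝ (A c)) (h2 : ∀ c, (A c).Nonempty)
    (h3 : ∀ (c : ℕ → E) (g : ℕ → E →L[ℝ] ℝ) (c0 : E), Tendsto c atTop (𝓝 c0) →
      (∀ j, g j ∈ A (c j)) → ∃ g0 ∈ A c0, ∀ s, Tendsto (fun j => g j s) (hyperfilter ℕ) (𝓝 (g0 s)))
    {R : ℝ} (hR : 0 < R) (h4 : ∀ c, ‖c‖ = R → ∀ g ∈ A c, 0 < g c) : ∃ c, 0 ∈ A c := by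
  by_contra! h
  obtain ⟨G, hG⟩ := exists_contMDiffMap_forall_mem_convex_of_local_const (n := 1)
    (modelWithCornersSelf ℝ E) (t := fun c => {s | ∀ g ∈ A c, g s < 0})
    (fun c a ha b hb p q p0 q0 e g hg => by
      simpa using (Convex.combo_le_max (g a) (g b) p0 q0 e).trans_lt (max_lt (ha g hg) (hb g hg)))
    fun c => by
      obtain ⟨φ, u, a1, a2⟩ := geometric_hahn_banach_point_closed (h1 c)
        (isSeqClosed_iff_isClosed.1 fun g g0 b1 b2 => by
          obtain ⟨g1, b3, b4⟩ := h3 _ g c tendsto_const_nhds b1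
          rwa [show g0 = g1 from ContinuousLinearMap.ext fun s => tendsto_nhds_unique
            ((((ContinuousLinearMap.apply ℝ ℝ s).continuous.tendsto g0).comp b2).mono_left
              Nat.hyperfilter_le_atTop) (b4 s)]) (h c)
      obtain ⟨s, hs⟩ := reflE φ
      refine ⟨-s, by_contra fun e => ?_⟩
      obtain ⟨d, d1, d2⟩ := exists_seq_forall_of_frequently (not_eventually.1 e)
      simp only [mem_ofPred_eq, not_forall, not_lt] at d2
      choose g g1 g2 using d2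
      obtain ⟨g0, b1, b2⟩ := h3 d g c d1 g1
      have := ge_of_tendsto' (b2 (-s)) g2
      rw [map_zero] at a1
      linarith [a2 g0 b1, hs g0, map_neg g0 s]
  have a : ∀ c, 0 < ‖G c‖ := fun c => norm_pos_iff.2 fun e => by
    obtain ⟨g, b⟩ := h2 c
    simpa [e] using hG c g b
  have b : ContDiff ℝ 1 fun c => G (R • c) :=
    (contMDiff_iff_contDiff.1 G.contMDiff).comp (contDiff_id.const_smul R)
  have n : ∀ c, ‖‖G c‖⁻¹ • G c‖ = 1 := fun c => norm_smul_inv_norm (norm_pos_iff.1 (a c))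
  obtain ⟨c, e⟩ := Pool.Agent.H8.Brouwer.brouwer_c1 (fun c => ‖G (R • c)‖⁻¹ • G (R • c))
    (((b.norm ℝ fun c => norm_pos_iff.1 (a _)).inv fun c => (a _).ne').smul b) fun c => (n _).le
  obtain ⟨g, d⟩ := h2 (R • c)
  have d1 := h4 _ (by rw [norm_smul, ← e, n, mul_one, Real.norm_of_nonneg hR.le]) g d
  have d2 := mul_neg_of_pos_of_neg (inv_pos.2 (a (R • c))) (hG _ g d)
  rw [← smul_eq_mul, ← map_smul, e] at d2
  rw [map_smul] at d1
  exact (mul_neg_of_pos_of_neg hR d2).not_gt d1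

end Pool.Agent.H9.BR
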