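import Pool.Agent.H9.BR4

/-! Passing to the limit, and the Galerkin step. -/
namespace Pool.Agent.H9.BR
open Filter Topology Set

variable {X I : Type} [NormedAddCommGroup X] [NormedSpace ℝ X] {Γ : X → (X →L[ℝ] ℝ) → Prop}
  {S : X → X →L[ℝ] ℝ} {ε : ℝ}

/-- pseudomonotone relative to a graph -/
def PM (Γ : X → (X →L[ℝ] ℝ) → Prop) (S : X → X →L[ℝ] ℝ) : Prop :=
  ∀ (u : ℕ → X) (v : X) (y : ℕ → X →L[ℝ] ℝ),
    (∀ f : X →L[ℝ] ℝ, Tendsto (fun j => f (u j)) atTop (𝓝 (f v))) → (∀ j, Γ (u j) (y j)) →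
    (∃ C : ℝ, ∀ j, ‖y j‖ ≤ C) → (∀ δ : ℝ, 0 < δ → ∀ᶠ j in atTop, S (u j) (u j - v) ≤ δ) →
    (∀ s, Tendsto (fun j => S (u j) s) atTop (𝓝 (S v s))) ∧
      Tendsto (fun j => S (u j) (u j - v)) atTop (𝓝 0)

lemma lim (hX : Refl X) (h : MM Γ) (hp : PM Γ S) (U : Ultrafilter I) {u : I → X}
    {y : I → X →L[ℝ] ℝ} {C D M : ℝ} (h1 : ∀ i, Γ (u i) (y i)) (h2 : ∀ i, ‖u i‖ ≤ C)
    (h3 : ∀ i, ‖y i‖ ≤ D) (h4 : ∀ i, ‖S (u i)‖ ≤ M) (h5 : ∀ s, ∀ᶠ i in U, (y i + S (u i)) s = 0)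
    (h6 : ∀ δ > 0, ∀ᶠ i in U, (y i + S (u i)) (u i) ≤ δ) : ∃ v z, Γ v z ∧ z + S v = 0 := by
  obtain ⟨v, hv⟩ := wlim hX U h2
  obtain ⟨z, hz⟩ := dlim U h3
  obtain ⟨l, -, hl⟩ := rlim U (r := fun i => y i (u i)) fun i =>
    (y i).le_of_opNorm_le_of_le (h3 i) (h2 i)
  obtain ⟨m, -, hm⟩ := rlim U (r := fun i => S (u i) (u i - v)) fun i =>
    (S (u i)).le_of_opNorm_le_of_le (h4 i) (norm_sub_le_of_le (h2 i) le_rfl)
  have a : ∀ s, Tendsto (fun i => S (u i) s) U (𝓝 (-z s)) := fun s => (hz s).neg.congr'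
    ((h5 s).mono fun i e => neg_eq_of_add_eq_zero_right e)
  have b : l + m + -z v ≤ 0 := le_of_forall_pos_le_add fun δ e => le_of_tendsto
    ((hl.add hm).add (a v)) ((h6 δ e).mono fun i e => by simpa [add_assoc] using e)
  have c : ∀ a b, Γ a b → 0 ≤ l - z a - (b v - b a) := fun a b e => ge_of_tendsto'
    ((hl.sub (hz a)).sub ((hv b).sub_const (b a))) fun i => by
      have := (h _ _).1 (h1 i) a b e
      simp only [map_sub, sub_apply] at this
      linarith
  have d : l ≤ z v → Γ v z := fun e => (h _ _).2 fun a b g => by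
    simp only [map_sub, sub_apply]
    linarith [c a b g]
  have e : z v ≤ l := le_of_not_gt fun e => by linarith [c v z (d e.le)]
  have t := tendsto_one_div_add_atTop_nhds_zero_nat (𝕜 := ℝ)
  have g : ∀ s, 0 ≤ m ∧ S v s = -z s := fun s => by
    obtain ⟨j, j1, j2⟩ := ex hX U h2 hv (fun k => {i | S (u i) (u i - v) < m + 1 / (k + 1 : ℝ) ∧
      dist (S (u i) s) (-z s) < 1 / (k + 1 : ℝ)}) fun k => (hm.eventually (gt_mem_nhds
        (lt_add_of_pos_right m Nat.one_div_pos_of_nat))).and (Metric.tendsto_nhds.1 (a s) _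
          Nat.one_div_pos_of_nat)
    obtain ⟨p1, p2⟩ := hp _ v (fun k => y (j k)) j2 (fun k => h1 _) ⟨D, fun k => h3 _⟩ fun δ q =>
      (t.eventually (gt_mem_nhds q)).mono fun k r => by linarith [(j1 k).1]
    exact ⟨by simpa using le_of_tendsto_of_tendsto' p2 (t.const_add m) fun k => (j1 k).1.le,
      tendsto_nhds_unique (p1 s) (tendsto_iff_dist_tendsto_zero.2
        (squeeze_zero (fun _ => dist_nonneg) (fun k => (j1 k).2.le) t))⟩
  exact ⟨v, z, d (by linarith [(g 0).1]), ContinuousLinearMap.ext fun s => by simp [(g s).2]⟩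

lemma plim {l : Filter I} {y : I → X →L[ℝ] ℝ} {C : ℝ} (h : ∀ i, ‖y i‖ ≤ C) {u : I → X} {v : X}
    (hu : Tendsto u l (𝓝 v)) : Tendsto (fun i => y i (u i - v)) l (𝓝 0) :=
  squeeze_zero_norm (fun i => (y i).le_of_opNorm_le (h i) _) (by
    simpa using (tendsto_iff_norm_sub_tendsto_zero.1 hu).const_mul C)

lemma gal {E : Type} [NormedAddCommGroup E] [InnerProductSpace ℝ E] [FiniteDimensional ℝ E]
    (hX : Refl X) (h : MM Γ) (hp : PM Γ S) (hε : 0 < ε) (h1 : ε ≤ 1)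
    (hb : ∀ R : ℝ, ∃ M : ℝ, ∀ x, ‖x‖ ≤ R → ‖S x‖ ≤ M) {ρ K : ℝ} (hρ : 0 < ρ) (hK : 0 < K)
    (h2 : ∀ x v w y, Sol Γ ε x v w y → ‖v‖ = ρ → 0 < (y + S (v - w)) v) (ι : E →L[ℝ] X)
    (h3 : ∀ c, ‖c‖ ≤ K * ‖ι c‖) : ∃ x v w y, Sol Γ ε x v w y ∧ ‖v‖ ≤ ρ ∧
      (y + S (v - w)) v = 0 ∧ ∀ s, (y + S (v - w)) (ι s) = 0 := by
  have p : ∀ c, 0 < max ‖ι c‖ ρ := fun c => hρ.trans_le (le_max_right _ _)
  let φ : E → X := fun c => (ρ / max ‖ι c‖ ρ) • ι c
  have q : Continuous φ := (continuous_const.div (ι.continuous.norm.max continuous_const)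
    fun c => (p c).ne').smul ι.continuous
  have r : ∀ c, ‖φ c‖ = ρ * (‖ι c‖ / max ‖ι c‖ ρ) := fun c => by
    rw [norm_smul, Real.norm_of_nonneg (div_pos hρ (p c)).le]
    ring
  obtain ⟨x, hx⟩ := key hX h hε h1 (φ ∘ TopologicalSpace.denseSeq E)
  have m : ∀ c w y, Sol Γ ε x (φ c) w y → w ∈ closure (range x) := fun c => hx _
    (map_mem_closure q (TopologicalSpace.denseRange_denseSeq E c) (by
      rintro _ ⟨n, rfl⟩
      exact ⟨n, rfl⟩))
  obtain ⟨c, w, y, a, b⟩ := kf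
    (fun c => {g | ∃ w y, Sol Γ ε x (φ c) w y ∧ g = (y + S (φ c - w)) ∘L ι})
    (by
      rintro c _ ⟨w, y, a1, rfl⟩ _ ⟨w', z, a2, rfl⟩ s t s0 t0 e
      obtain rfl : w' = w := tendsto_nhds_unique tendsto_const_nhds
        (cont h hε h1 (m _ _ _ a1) a1 tendsto_const_nhds fun _ => a2)
      obtain rfl : t = 1 - s := by linarith
      refine ⟨w', s • y + (1 - s) • z, ⟨(h _ _).2 fun a b g => ?_, ?_, fun d => ?_⟩, ?_⟩
      · have := add_nonneg (mul_nonneg s0 ((h _ _).1 a1.1 a b g))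
          (mul_nonneg t0 ((h _ _).1 a2.1 a b g))
        simp only [sub_apply, add_apply, smul_apply, smul_eq_mul] at *
        linarith
      · have b1 := a1.2.1
        have b2 := a2.2.1
        simp only [add_apply, smul_apply, smul_eq_mul] at *
        linear_combination s * b1 + (1 - s) * b2
      · have := add_le_add (mul_le_mul_of_nonneg_left (a1.2.2 d) s0)
          (mul_le_mul_of_nonneg_left (a2.2.2 d) t0)
        simp only [add_apply, smul_apply, smul_eq_mul] at *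
        linarith
      · ext d
        simp
        ring)
    (fun c => by
      obtain ⟨w, y, a⟩ := rock hX h hε x (φ c)
      exact ⟨_, w, y, a, rfl⟩)
    (fun c g c0 hc hg => by
      choose w y a b using hg
      obtain ⟨w0, y0, a0⟩ := rock hX h hε x (φ c0)
      have d1 := (q.tendsto c0).comp hc
      have d2 := cont h hε h1 (m _ _ _ a0) a0 d1 a
      have d3 := ((N_cont x).tendsto w0).comp d2
      have d4 := d1.sub d2
      obtain ⟨B, hB⟩ := d3.bddAbove_range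
      have d5 : ∀ j, ‖y j‖ ≤ 6 * B / ε := fun j => (le_div_iff₀' hε).2 (by
        have := (a j).2.norm
        rw [norm_smul, Real.norm_of_nonneg hε.le] at this
        linarith [show N x (w j) ≤ B from hB ⟨j, rfl⟩])
      obtain ⟨z, hz⟩ := dlim (hyperfilter ℕ) d5
      obtain ⟨C, hC⟩ := sbd d4 0
      obtain ⟨M, hM⟩ := hb C
      have d6 := (hp _ _ y (fun f => (f.continuous.tendsto _).comp d4) (fun j => (a j).1) ⟨_, d5⟩
        fun δ e => ((plim (fun j => hM _ (by simpa using hC j)) d4).eventually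
          (gt_mem_nhds e)).mono fun _ => le_of_lt).1
      have H := @Nat.hyperfilter_le_atTop
      refine ⟨_, ⟨w0, z, ⟨(h _ _).2 fun s t e => ?_, tendsto_nhds_unique (by
        simpa using (((plim d5 d2).mono_left H).add (hz w0)).const_mul ε)
          (((d3.pow 2).mono_left H).congr fun j => (a j).2.1.symm), fun s =>
        le_of_tendsto_of_tendsto' ((hz s).const_mul ε) ((d3.mul_const _).mono_left H)
          fun j => (a j).2.2 s⟩, rfl⟩, fun s => by
        simpa [b] using (hz (ι s)).add ((d6 (ι s)).mono_left H)⟩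
      have := ge_of_tendsto' (b := 0) ((((plim d5 d4).mono_left H).add (hz (φ c0 - w0 - s))).sub
        (((t.continuous.tendsto _).comp (d4.sub_const s)).mono_left H)) fun j => by
          have := (h _ _).1 (a j).1 s t e
          simp only [map_sub, sub_apply, Function.comp] at *
          linarith
      simpa using this)
    (mul_pos hK hρ) (by
      rintro c e _ ⟨w, y, a, rfl⟩
      have d : ρ ≤ ‖ι c‖ := le_of_mul_le_mul_left (e ▸ h3 c) hK
      have := h2 _ _ _ _ a (by rw [r, max_eq_left d, div_self (hρ.trans_le d).ne', mul_one])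
      rw [show ∀ g : X →L[ℝ] ℝ, g (φ c) = _ from fun g => map_smul _ _ _] at this
      exact (mul_pos_iff_of_pos_left (div_pos hρ (p c))).1 this)
  have d : ∀ s, (y + S (φ c - w)) (ι s) = 0 := fun s => (DFunLike.congr_fun b s).symm
  exact ⟨x, _, w, y, a, (r c).trans_le (mul_le_of_le_one_right hρ.le
    ((div_le_one (p c)).2 (le_max_left _ _))), (map_smul _ _ _).trans (by rw [d, smul_zero]), d⟩

end Pool.Agent.H9.BR
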