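import Pool.Agent.H9.BR5

/-! Coercive sums of a maximal monotone graph and a relatively pseudomonotone map have zeros. -/
namespace Pool.Agent.H9.BR
open Filter Topology Set

variable {X : Type} [NormedAddCommGroup X] [NormedSpace ℝ X] {Γ : X → (X →L[ℝ] ℝ) → Prop}
  {S : X → X →L[ℝ] ℝ}

lemma emb (F : Finset X) : ∃ (n : ℕ) (ι : EuclideanSpace ℝ (Fin n) →L[ℝ] X) (K : ℝ), 0 < K ∧
    (∀ c, ‖c‖ ≤ K * ‖ι c‖) ∧ ∀ s ∈ F, ∃ c, ι c = s := by
  let L := Submodule.span ℝ (F : Set X)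
  let e := toEuclidean (E := L)
  obtain ⟨K, a, b⟩ := e.toContinuousLinearMap.bound
  exact ⟨_, L.subtypeL ∘L e.symm, K, a, fun c => by simpa using b (e.symm c),
    fun s h => ⟨e ⟨s, Submodule.subset_span h⟩, by simp⟩⟩

theorem zero (hX : Refl X) (h : MM Γ) (hp : PM Γ S)
    (hb : ∀ R : ℝ, ∃ M : ℝ, ∀ x, ‖x‖ ≤ R → ‖S x‖ ≤ M) {R0 : ℝ}
    (hc : ∀ x y, Γ x y → R0 ≤ ‖x‖ → ‖x‖ ≤ (y + S x) x) : ∃ v z, Γ v z ∧ z + S v = 0 := by
  by_contra H
  obtain ⟨a0, b0, h0⟩ := h.ne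
  obtain ⟨R, r1, r2⟩ : ∃ R, 1 ≤ R ∧ R0 ≤ R := ⟨max 1 R0, le_max_left _ _, le_max_right _ _⟩
  obtain ⟨B, hB⟩ : ∃ B, B = 7 * (7 * R + 1 + ‖a0‖) + 2 * ‖b0‖ := ⟨_, rfl⟩
  obtain ⟨M0, hM0⟩ := hb (7 * R + 1 + B)
  obtain ⟨M, m0, hM⟩ : ∃ M, 0 ≤ M ∧ ∀ x, ‖x‖ ≤ 7 * R + 1 + B → ‖S x‖ ≤ M :=
    ⟨|M0|, abs_nonneg _, fun x e => (hM0 x e).trans (le_abs_self _)⟩
  have a : ∀ ε > 0, ε * (M + 1) ^ 2 ≤ 1 → ∀ F : Finset X, ∃ u y n, Γ u y ∧ ‖u‖ ≤ 7 * R + 1 + B ∧
      0 ≤ n ∧ n ≤ B ∧ ε * ‖y‖ ≤ 6 * n ∧ ε * (y + S u) u ≤ n * (ε * M - n) ∧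
      ∀ s ∈ F, (y + S u) s = 0 := fun ε hε e F => by
    have h1 : ε ≤ 1 := by nlinarith [mul_nonneg hε.le m0, mul_nonneg hε.le (sq_nonneg M)]
    have b : ∀ x v w y, Sol Γ ε x v w y → ‖v‖ ≤ 7 * R + 1 → N x w ≤ B ∧ ‖v - w‖ ≤ 7 * R + 1 + B :=
      fun x v w y c d => by
        have := bd h hε h1 h0 c
        constructor <;> linarith [norm_sub_le v a0, norm_sub_le v w, le_N x w]
    have g : ∀ x v w y, Sol Γ ε x v w y → ‖v‖ ≤ 7 * R + 1 → |ε * S (v - w) w| ≤ ε * (M * N x w) :=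
      fun x v w y c d => by
        rw [abs_mul, abs_of_pos hε]
        exact mul_le_mul_of_nonneg_left ((S _).le_of_opNorm_le_of_le (hM _ (b x v w y c d).2)
          (le_N x w)) hε.le
    obtain ⟨n, ι, K, k1, k2, k3⟩ := emb F
    obtain ⟨x, v, w, y, c1, c2, c3, c4⟩ := gal hX h hp hε h1 hb (ρ := 7 * R + 1) (by linarith) k1
      (fun x v w y c d => (mul_pos_iff_of_pos_left hε).1 (by
        have d1 := (abs_le.1 (g x v w y c d.le)).1
        have d2 := c.2.1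
        have d3 := N_nn x w
        rcases le_or_gt R ‖v - w‖ with q | q
        · have := mul_le_mul_of_nonneg_left ((r1.trans q).trans (hc _ _ c.1 (r2.trans q))) hε.le
          simp only [map_sub, add_apply, smul_apply, smul_eq_mul] at *
          nlinarith [sq_nonneg (N x w - ε * M), mul_le_mul_of_nonneg_left e hε.le,
            mul_nonneg (mul_nonneg hε.le hε.le) m0, mul_pos hε hε, sq_nonneg (N x w)]
        · have d4 := (c.2.2 (w - v)).trans (mul_le_mul_of_nonneg_left (N_le x _) d3)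
          have d5 := mul_le_mul_of_nonneg_left (abs_le.1 ((S _).le_of_opNorm_le_of_le
            (hM _ (b x v w y c d.le).2) d.le)).1 hε.le
          have d6 : 6 * R + 1 ≤ N x w := by linarith [le_N x w, norm_sub_norm_le v w]
          have d7 : 2 * (ε * M) < 1 := by nlinarith [mul_nonneg hε.le (sq_nonneg M)]
          rw [norm_sub_rev] at d4
          simp only [map_sub, add_apply, smul_apply, smul_eq_mul] at d2 d4 ⊢
          nlinarith [mul_le_mul_of_nonneg_left q.le d3, mul_le_mul_of_nonneg_left d6 d3,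
            mul_le_mul_of_nonneg_right d7.le (show 0 ≤ 7 * R + 1 by linarith)])) ι k2
    refine ⟨v - w, y, N x w, c1.1, (b _ _ _ _ c1 c2).2, N_nn x w, (b _ _ _ _ c1 c2).1, ?_, ?_,
      fun s q => ?_⟩
    · simpa [norm_smul, abs_of_pos hε] using c1.2.norm
    · have d1 := (abs_le.1 (g x v w y c1 c2)).1
      have d2 := c1.2.1
      rw [map_sub, c3]
      simp only [add_apply, smul_apply, smul_eq_mul] at *
      linarith
    · obtain ⟨c, rfl⟩ := k3 s q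
      exact c4 c
  have b : ∀ ε > 0, ε * (M + 1) ^ 2 ≤ 1 → ∀ F : Finset X, ∃ u y, Γ u y ∧ ‖u‖ ≤ 7 * R + 1 + B ∧
      ‖y‖ ≤ 6 * M ∧ (y + S u) u ≤ ε * M ^ 2 ∧ ∀ s ∈ F, (y + S u) s = 0 := fun ε hε e F => by
    classical
    choose u y n c1 c2 c3 c4 c5 c6 c7 using a ε hε e
    by_cases q : ∃ G, n (F ∪ G) ≤ ε * M
    · obtain ⟨G, q⟩ := q
      refine ⟨_, _, c1 (F ∪ G), c2 _, le_of_mul_le_mul_left (by linarith [c5 (F ∪ G)]) hε,
        le_of_mul_le_mul_left ((c6 _).trans ?_) hε, fun s r => c7 _ s (Finset.mem_union_left _ r)⟩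
      nlinarith [c3 (F ∪ G), mul_nonneg hε.le m0]
    · exact (H (lim hX h hp (Ultrafilter.of atTop) (fun G => c1 (F ∪ G)) (fun G => c2 _)
        (D := 6 * B / ε) (fun G => (le_div_iff₀' hε).2 (by linarith [c5 (F ∪ G), c4 (F ∪ G)]))
        (fun G => hM _ (c2 _)) (fun s => Ultrafilter.of_le _ ((eventually_ge_atTop {s}).mono
          fun G r => c7 _ s (Finset.mem_union_right _ (Finset.singleton_subset_iff.1 r))))
        fun δ r => univ_mem' fun G => le_trans (le_of_mul_le_mul_left ((c6 _).trans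
          ((mul_nonpos_of_nonneg_of_nonpos (c3 _) (by linarith [not_exists.1 q G])).trans_eq
            (mul_zero ε).symm)) hε) r.le)).elim
  choose u y c1 c2 c3 c4 c5 using fun p : Finset X × ℕ =>
    b (1 / (p.2 + 1 : ℝ) / (M + 1) ^ 2) (by positivity) (by
      rw [div_mul_cancel₀ _ (by positivity)]
      exact (div_le_one (by positivity)).2 (by linarith [p.2.cast_nonneg (α := ℝ)])) p.1
  classical
  refine H (lim hX h hp (Ultrafilter.of atTop) c1 c2 c3 (fun p => hM _ (c2 p))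
    (fun s => Ultrafilter.of_le _ ((eventually_ge_atTop (({s}, 0) : Finset X × ℕ)).mono fun p r => c5 p s
      (Finset.singleton_subset_iff.1 r.1))) fun δ r => Ultrafilter.of_le _ ?_)
  obtain ⟨k, e⟩ := exists_nat_one_div_lt r
  refine (eventually_ge_atTop (∅, k)).mono fun p q => (c4 p).trans ?_
  rw [div_mul_eq_mul_div, div_le_iff₀ (by positivity)]
  exact mul_le_mul ((Nat.one_div_le_one_div q.2).trans e.le) (by nlinarith) (by positivity) r.le

end Pool.Agent.H9.BR
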