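import Mathlib

/-! Bounded approximate identities in closed ideals of finite codimension. -/
namespace Pool.Agent.H9.Bai
open Filter Metric Topology ContinuousLinearMap

variable {A : Type} [NormedRing A] [NormedAlgebra ℂ A]

/-- bounded approximate contractibility -/
def Hyp (A : Type) [NormedRing A] [NormedAlgebra ℂ A] : Prop :=
  ∀ (X : Type) [NormedAddCommGroup X] [NormedSpace ℂ X] [CompleteSpace X]
    (L R : A →L[ℂ] X →L[ℂ] X),
    (∀ a b : A, L (a * b) = (L a).comp (L b)) →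
    (∀ a b : A, R (a * b) = (R b).comp (R a)) →
    (∀ a b : A, (L a).comp (R b) = (R b).comp (L a)) →
    ∀ D : A →L[ℂ] X, (∀ a b : A, D (a * b) = L a (D b) + R b (D a)) →
      ∃ C : ℝ, ∀ F : Finset A, ∀ ε : ℝ, 0 < ε → ∃ ξ : X,
        (∀ a : A, ‖L a ξ - R a ξ‖ ≤ C * ‖a‖) ∧ ∀ a ∈ F, ‖D a - (L a ξ - R a ξ)‖ < ε

variable {Y W : Type} [NormedAddCommGroup Y] [NormedSpace ℂ Y] [NormedAddCommGroup W]
  [NormedSpace ℂ W]

noncomputable def res (L : A →L[ℂ] Y →L[ℂ] Y) (X : Submodule ℂ Y) (h : ∀ a, ∀ y ∈ X, L a y ∈ X) :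
    A →L[ℂ] X →L[ℂ] X :=
  LinearMap.mkContinuous₂ (LinearMap.mk₂ ℂ (fun a x => ⟨L a x, h a x x.2⟩)
    (fun _ _ _ => Subtype.ext (by simp)) (fun _ _ _ => Subtype.ext (by simp))
    (fun _ _ _ => Subtype.ext (by simp)) fun _ _ _ => Subtype.ext (by simp)) ‖L‖
    fun a x => L.le_opNorm₂ a x

theorem inv (H : Hyp A) [CompleteSpace Y] (L R : A →L[ℂ] Y →L[ℂ] Y)
    (hL : ∀ a b y, L (a * b) y = L a (L b y)) (hR : ∀ a b y, R (a * b) y = R b (R a y))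
    (hLR : ∀ a b y, L a (R b y) = R b (L a y)) (X : Submodule ℂ Y) (hX : IsClosed (X : Set Y))
    (h1 : ∀ a, ∀ y ∈ X, L a y ∈ X) (h2 : ∀ a, ∀ y ∈ X, R a y ∈ X) (T : Y)
    (h3 : ∀ a, L a T - R a T ∈ X) : ∃ C, ∀ F : Finset A, ∀ ε > 0, ∃ t, T - t ∈ X ∧
      (∀ a, ‖L a t - R a t‖ ≤ C * ‖a‖) ∧ ∀ a ∈ F, ‖L a t - R a t‖ < ε := by
  have := hX.completeSpace_coe
  let D := (L.flip T - R.flip T).codRestrict X h3
  obtain ⟨C, h⟩ := H X (res L X h1) (res R X h2)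
    (fun a b => ContinuousLinearMap.ext fun y => Subtype.ext (hL a b y))
    (fun a b => ContinuousLinearMap.ext fun y => Subtype.ext (hR a b y))
    (fun a b => ContinuousLinearMap.ext fun y => Subtype.ext (hLR a b y)) D fun a b =>
      Subtype.ext (by
        show L _ T - R _ T = L a (L b T - R b T) + R b (L a T - R a T)
        rw [hL, hR, map_sub, map_sub, hLR]
        abel)
  refine ⟨‖D‖ + C, fun F ε hε => ?_⟩
  obtain ⟨ξ, h4, h5⟩ := h F ε hε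
  have h6 : ∀ a, ‖L a (T - ξ) - R a (T - ξ)‖ = ‖D a - (res L X h1 a ξ - res R X h2 a ξ)‖ :=
    fun a => by
      show _ = ‖L a T - R a T - (L a ξ - R a ξ)‖
      rw [map_sub, map_sub, sub_sub_sub_comm]
  refine ⟨T - ξ, by simp, fun a => ?_, fun a ha => (h6 a).trans_lt (h5 a ha)⟩
  rw [h6, add_mul]
  exact (norm_sub_le _ _).trans (add_le_add (D.le_opNorm a) (h4 a))

def S (p : Set W) (K K' : Submodule ℂ A) : Submodule ℂ (W →L[ℂ] A) where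
  carrier := {T | (∀ w ∈ p, T w ∈ K) ∧ ∀ w, T w ∈ K'}
  add_mem' h h' := ⟨fun w hw => K.add_mem (h.1 w hw) (h'.1 w hw),
    fun w => K'.add_mem (h.2 w) (h'.2 w)⟩
  zero_mem' := ⟨fun _ _ => K.zero_mem, fun _ => K'.zero_mem⟩
  smul_mem' c _ h := ⟨fun w hw => K.smul_mem c (h.1 w hw), fun w => K'.smul_mem c (h.2 w)⟩

lemma S_closed (p : Set W) {K K' : Submodule ℂ A} (h : IsClosed (K : Set A))
    (h' : IsClosed (K' : Set A)) : IsClosed (S p K K' : Set (W →L[ℂ] A)) := by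
  show IsClosed ({T : W →L[ℂ] A | ∀ w ∈ p, T w ∈ K} ∩ {T | ∀ w, T w ∈ K'})
  simp only [Set.ofPred_forall]
  exact (isClosed_iInter fun w => isClosed_iInter fun _ =>
    h.preimage (apply ℂ A w).continuous).inter
    (isClosed_iInter fun w => h'.preimage (apply ℂ A w).continuous)

variable [CompleteSpace A] {J : Submodule ℂ A}

theorem right (H : Hyp A) (h1 : ∀ a x : A, x ∈ J → a * x ∈ J ∧ x * a ∈ J)
    (h2 : IsClosed (J : Set A)) (h3 : J.ClosedComplemented) : ∃ C, ∀ F : Finset A,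
    (∀ x ∈ F, x ∈ J) → ∀ ε > 0, ∃ e ∈ J, (∀ x ∈ J, ‖x * e - x‖ ≤ C * ‖x‖) ∧
      ∀ x ∈ F, ‖x * e - x‖ < ε := by
  obtain ⟨P, hP⟩ := h3
  obtain ⟨C, h⟩ := inv H (compL ℂ A A A ∘L mul ℂ A) ((compL ℂ A A A).flip ∘L mul ℂ A)
    (fun a b y => by ext; simp [mul_assoc]) (fun a b y => by ext; simp [mul_assoc])
    (fun a b y => rfl) (S J ⊥ J) (S_closed _ isClosed_singleton h2)
    (fun a y hy => ⟨fun w hw => by simp [show y w = 0 from hy.1 w hw],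
      fun w => (h1 a _ (hy.2 w)).1⟩)
    (fun a y hy => ⟨fun w hw => hy.1 _ (h1 a w hw).1, fun w => hy.2 _⟩) (J.subtypeL ∘L P)
    fun a => ⟨fun w hw => by simp [hP ⟨w, hw⟩, hP ⟨_, (h1 a w hw).1⟩],
      fun w => J.sub_mem (h1 a _ (P w).2).1 (P _).2⟩
  refine ⟨C * ‖(1 : A)‖, fun F hF ε hε => ?_⟩
  obtain ⟨t, h4, h5, h6⟩ := h F (ε / (‖(1 : A)‖ + 1)) (by positivity)
  have h7 : ∀ x ∈ J, ‖x * t 1 - x‖ ≤ _ * ‖(1 : A)‖ := fun x hx => by
    refine le_trans (le_of_eq ?_) (le_opNorm ((compL ℂ A A A ∘L mul ℂ A) x t -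
      ((compL ℂ A A A).flip ∘L mul ℂ A) x t) 1)
    have : (P x : A) - t x = 0 := h4.1 x hx
    simp [← sub_eq_zero.1 this, hP ⟨x, hx⟩]
  refine ⟨t 1, (J.sub_mem_iff_right (P 1).2).1 (h4.2 1), fun x hx => (h7 x hx).trans ?_,
    fun x hx => (h7 x (hF x hx)).trans_lt ?_⟩
  · rw [mul_right_comm]
    exact mul_le_mul_of_nonneg_right (h5 x) (norm_nonneg _)
  · have := (lt_div_iff₀ (by positivity)).1 (h6 x hx)
    rw [mul_add, mul_one] at this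
    exact (le_add_of_nonneg_right (norm_nonneg _)).trans_lt this

theorem left (H : Hyp A) (h1 : ∀ a x : A, x ∈ J → a * x ∈ J ∧ x * a ∈ J)
    (h2 : IsClosed (J : Set A)) (h3 : J.ClosedComplemented) : ∃ C, ∀ F : Finset A,
    (∀ x ∈ F, x ∈ J) → ∀ ε > 0, ∃ e ∈ J, (∀ x ∈ J, ‖e * x - x‖ ≤ C * ‖x‖) ∧
      ∀ x ∈ F, ‖e * x - x‖ < ε := by
  obtain ⟨P, hP⟩ := h3
  obtain ⟨C, h⟩ := inv H ((compL ℂ A A A).flip ∘L (mul ℂ A).flip) (compL ℂ A A A ∘L (mul ℂ A).flip)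
    (fun a b y => by ext; simp [mul_assoc]) (fun a b y => by ext; simp [mul_assoc])
    (fun a b y => rfl) (S J ⊥ J) (S_closed _ isClosed_singleton h2)
    (fun a y hy => ⟨fun w hw => hy.1 _ (h1 a w hw).2, fun w => hy.2 _⟩)
    (fun a y hy => ⟨fun w hw => by simp [show y w = 0 from hy.1 w hw],
      fun w => (h1 a _ (hy.2 w)).2⟩) (J.subtypeL ∘L P)
    fun a => ⟨fun w hw => by simp [hP ⟨w, hw⟩, hP ⟨_, (h1 a w hw).2⟩],
      fun w => J.sub_mem (P _).2 (h1 a _ (P w).2).2⟩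
  refine ⟨C * ‖(1 : A)‖, fun F hF ε hε => ?_⟩
  obtain ⟨t, h4, h5, h6⟩ := h F (ε / (‖(1 : A)‖ + 1)) (by positivity)
  have h7 : ∀ x ∈ J, ‖t 1 * x - x‖ ≤ _ * ‖(1 : A)‖ := fun x hx => by
    refine le_trans (le_of_eq ?_) (le_opNorm (((compL ℂ A A A).flip ∘L (mul ℂ A).flip) x t -
      (compL ℂ A A A ∘L (mul ℂ A).flip) x t) 1)
    have : (P x : A) - t x = 0 := h4.1 x hx
    simp [← sub_eq_zero.1 this, hP ⟨x, hx⟩, norm_sub_rev]
  refine ⟨t 1, (J.sub_mem_iff_right (P 1).2).1 (h4.2 1), fun x hx => (h7 x hx).trans ?_,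
    fun x hx => (h7 x (hF x hx)).trans_lt ?_⟩
  · rw [mul_right_comm]
    exact mul_le_mul_of_nonneg_right (h5 x) (norm_nonneg _)
  · have := (lt_div_iff₀ (by positivity)).1 (h6 x hx)
    rw [mul_add, mul_one] at this
    exact (le_add_of_nonneg_right (norm_nonneg _)).trans_lt this

end Pool.Agent.H9.Bai
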