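import Pool.Agent.H9.Bai

/-! Multiplier bounded nets in a closed ideal of finite codimension are bounded. -/
namespace Pool.Agent.H9.Bai
open Filter Metric Topology ContinuousLinearMap

variable {A : Type} [NormedRing A] [NormedAlgebra ℂ A] [CompleteSpace A] {J : Submodule ℂ A}

theorem inv' (H : Hyp A) {W : Type} [NormedAddCommGroup W] [NormedSpace ℂ W]
    (μ : A →L[ℂ] W →L[ℂ] W) (hμ : ∀ a b w, μ (a * b) w = μ b (μ a w)) (ι : A →L[ℂ] W)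
    (h2 : ∀ a b, ι (b * a) = μ a (ι b)) [CompleteSpace W] [FiniteDimensional ℂ ι.range] :
    ∃ C, ∀ F : Finset A, ∃ t : W →L[ℂ] A, ι (t (ι 1)) = ι 1 ∧
      (∀ a φ, ‖t (μ a φ) - t φ * a‖ ≤ C * ‖a‖ * ‖φ‖) ∧
      ∀ a ∈ F, ‖t (μ a (ι 1)) - t (ι 1) * a‖ ≤ ‖ι 1‖ := by
  obtain ⟨π, hπ⟩ := Submodule.ClosedComplemented.of_finiteDimensional ι.range
  obtain ⟨r, hr⟩ := ι.rangeRestrict.exists_rightInverse_of_surjective
    ι.toLinearMap.range_rangeRestrict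
  have h3 : ∀ b, ι (r (π (ι b))) = ι b := fun b =>
    (congrArg (fun v => ι (r v)) (hπ ⟨ι b, b, rfl⟩)).trans congr(($hr ⟨ι b, b, rfl⟩ : W))
  obtain ⟨C, h⟩ := inv H ((compL ℂ W W A).flip ∘L μ) (compL ℂ W A A ∘L (mul ℂ A).flip)
    (fun a b y => ContinuousLinearMap.ext fun w => congrArg y (hμ a b w))
    (fun a b y => ContinuousLinearMap.ext fun w => (mul_assoc _ _ _).symm) (fun a b y => rfl)
    (S (Set.range ι) ι.ker ⊤) (S_closed _ ι.isClosed_ker isClosed_univ)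
    (fun a y hy => ⟨fun w ⟨b, hb⟩ => hy.1 _ ⟨b * a, hb ▸ h2 a b⟩, fun _ => trivial⟩)
    (fun a y hy => ⟨fun w hw => (h2 a _).trans ((congrArg (μ a) (hy.1 w hw)).trans (map_zero _)),
      fun _ => trivial⟩) (r ∘L π) fun a => ⟨fun w ⟨b, hb⟩ => by
        show ι (r (π (μ a w)) - r (π w) * a) = 0
        rw [← hb, map_sub, ← h2, h3, h2, h2, h3, sub_self], fun _ => trivial⟩
  refine ⟨C, fun F => ?_⟩
  obtain ⟨t, h4, h5, h6⟩ := h F 1 one_pos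
  refine ⟨t, ?_, fun a φ => (le_opNorm _ φ).trans
    (mul_le_mul_of_nonneg_right (h5 a) (norm_nonneg _)), fun a ha => (le_opNorm _ (ι 1)).trans
      (mul_le_of_le_one_left (norm_nonneg _) (h6 a ha).le)⟩
  have h8 : ι (r (π (ι 1)) - t (ι 1)) = 0 := h4.1 _ ⟨1, rfl⟩
  rwa [map_sub, h3, sub_eq_zero, eq_comm] at h8

theorem diag (H : Hyp A) (h1 : ∀ a x : A, x ∈ J → a * x ∈ J ∧ x * a ∈ J)
    [FiniteDimensional ℂ (A ⧸ J)] (ψ : A →L[ℂ] ℂ) (hψ : ∀ x ∈ J, ψ x = 0) :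
    ∃ C, ∀ F : Finset A, ∃ t : (A →L[ℂ] ℂ) →L[ℂ] A, ψ (t ψ) = ψ 1 ∧
      (∀ a φ, ‖t (φ ∘L mul ℂ A a) - t φ * a‖ ≤ C * ‖a‖ * ‖φ‖) ∧
      ∀ a ∈ F, ‖t (ψ ∘L mul ℂ A a) - t ψ * a‖ ≤ ‖ψ‖ := by
  let ι := compL ℂ A A ℂ ψ ∘L mul ℂ A
  have : FiniteDimensional ℂ ι.range := by
    rw [← J.range_liftQ ι.toLinearMap fun x hx =>
      ContinuousLinearMap.ext fun y => hψ _ (h1 y x hx).2]
    infer_instance
  have h7 : ι 1 = ψ := ContinuousLinearMap.ext fun x => congrArg ψ (one_mul x)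
  obtain ⟨C, h⟩ := inv' (W := A →L[ℂ] ℂ) H ((compL ℂ A A ℂ).flip ∘L mul ℂ A)
    (fun a b w => ContinuousLinearMap.ext fun x => congrArg w (mul_assoc _ _ _)) ι
    fun a b => ContinuousLinearMap.ext fun x => congrArg ψ (mul_assoc _ _ _)
  rw [h7] at h
  refine ⟨C, fun F => ?_⟩
  obtain ⟨t, e1, e2⟩ := h F
  exact ⟨t, ((congrArg ψ (mul_one _).symm).trans (DFunLike.congr_fun e1 1) :), e2⟩

theorem core (H : Hyp A) (h1 : ∀ a x : A, x ∈ J → a * x ∈ J ∧ x * a ∈ J)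
    [FiniteDimensional ℂ (A ⧸ J)] (f : ℕ → A) (hf : ∀ n, f n ∈ J)
    (hf1 : ∀ n, ‖f n‖ = 1) (hf2 : ∀ n, ∀ x ∈ J, ‖f n * x‖ ≤ 1 / (n + 1) * ‖x‖)
    {G : Type} [NormedAddCommGroup G] [NormedSpace ℂ G] [FiniteDimensional ℂ G] (q : A →L[ℂ] G)
    (σ : G →L[ℂ] A) (hσ : ∀ g, q (σ g) = g) (E : Set A) (hE : ∀ e ∈ E, e ∈ J)
    (hc : ∀ x ∈ J, ∀ ε > 0, ∃ e ∈ E, ‖x * e - x‖ < ε) (h9 : ∀ x ∈ J, q x = 0)
    (hq : ∀ x, q x = 0 ↔ ∃ M, ∀ e : E, ‖x * e‖ ≤ M) : False := by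
  let P := ContinuousLinearMap.id ℂ A - σ ∘L q
  obtain ⟨B, hB⟩ := banach_steinhaus (g := fun e : E => (mul ℂ A).flip e ∘L P) fun x =>
    (hq (P x)).1 ((map_sub q _ _).trans (sub_eq_zero.2 (hσ _).symm))
  have hB : ∀ (e : E) x, ‖P x * e‖ ≤ B * ‖x‖ := fun e x => le_of_opNorm_le _ (hB e) x
  have h5 : ∀ n x, ‖f n * P x‖ ≤ 1 / (n + 1) * (B * ‖x‖) := fun n x =>
    le_of_forall_pos_le_add fun ε hε => by
      obtain ⟨e, e1, e5⟩ := hc _ (h1 (P x) _ (hf n)).2 ε hε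
      have e4 := (hf2 n _ (h1 (P x) e (hE e e1)).1).trans (mul_le_mul_of_nonneg_left
        (hB ⟨e, e1⟩ x) (by positivity))
      rw [← mul_assoc] at e4
      linarith [norm_sub_norm_le (f n * P x) (f n * P x * e), norm_sub_rev (f n * P x) (f n * P x * e)]
  choose φ hφ hφ' using fun n => exists_dual_vector ℂ (f n) (by simp [hf1 n])
  have h6 : ∀ n x, ‖φ n x‖ ≤ ‖x‖ := fun n x => by simpa [hφ n] using (φ n).le_opNorm x
  obtain ⟨χ, -, k, hk, h7⟩ := (isCompact_closedBall (0 : G →L[ℂ] ℂ) ‖σ‖).tendsto_subseq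
    (x := fun n => (φ n ∘L mul ℂ A (f n)) ∘L σ) fun n => mem_closedBall_zero_iff.2
      (opNorm_le_bound _ (norm_nonneg σ) fun g => (h6 n (f n * σ g)).trans
        ((norm_mul_le _ _).trans (by
          rw [hf1, one_mul]
          exact σ.le_opNorm g)))
  have h0 : Tendsto (fun n => (1 : ℝ) / (k n + 1)) atTop (𝓝 0) :=
    tendsto_one_div_add_atTop_nhds_zero_nat.comp hk.tendsto_atTop
  have h8 : Tendsto (fun n => φ (k n) ∘L mul ℂ A (f (k n))) atTop (𝓝 (χ ∘L q)) := by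
    have e1 : Tendsto (fun n => (φ (k n) ∘L mul ℂ A (f (k n))) ∘L P) atTop (𝓝 0) :=
      squeeze_zero_norm (a := fun n => 1 / (k n + 1) * |B|) (fun n => opNorm_le_bound _
        (by positivity) fun x => (h6 _ (f (k n) * P x)).trans ((h5 _ x).trans (by
          rw [mul_assoc]
          gcongr
          exact le_abs_self B))) (by simpa using h0.mul_const |B|)
    have e2 := (((compL ℂ A G ℂ).flip q).continuous.tendsto _).comp h7 |>.add e1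
    rw [add_zero] at e2
    exact e2.congr fun n => by
      ext
      simp [P]
  obtain ⟨C, hC⟩ := diag H h1 (χ ∘L q) fun x hx => (congrArg χ (h9 x hx)).trans χ.map_zero
  obtain ⟨F, hF⟩ := (isCompact_sphere (0 : G) 1).elim_finite_subcover
    (fun e : E => {g | ‖χ‖ * (‖χ ∘L q‖ + B * C) < ‖σ g * e‖})
    (fun e => isOpen_lt continuous_const (by fun_prop)) fun g hg => by
      by_contra h
      have : q (σ g) = 0 := (hq _).2
        ⟨_, fun e => le_of_not_gt fun h' => h (Set.mem_iUnion.2 ⟨e, h'⟩)⟩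
      rw [hσ] at this
      simp [this] at hg
  classical
  obtain ⟨t, e1, e2, e3⟩ := hC (F.image (↑))
  set ψ := χ ∘L q
  have e4 : ψ 1 = 1 := tendsto_nhds_unique (((apply ℂ ℂ 1).continuous.tendsto _).comp h8)
    (tendsto_const_nhds.congr fun n => by simp [hφ', hf1])
  have e5 : 1 ≤ ‖χ‖ * ‖q (t ψ)‖ := by
    have := χ.le_opNorm (q (t ψ))
    rwa [show χ (q (t ψ)) = 1 from e1.trans e4, norm_one] at this
  have e6 : 0 < ‖q (t ψ)‖ := pos_of_mul_pos_right (one_pos.trans_le e5) (norm_nonneg _)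
  obtain ⟨e, he, e7⟩ := Set.mem_iUnion₂.1 (hF (a := ((‖q (t ψ)‖⁻¹ : ℝ) : ℂ) • q (t ψ))
    (by simp [norm_smul, e6.ne']))
  have e8 := e3 e (Finset.mem_image_of_mem _ he)
  rw [show ψ ∘L mul ℂ A e = 0 from ContinuousLinearMap.ext fun x =>
    (congrArg χ (h9 _ (h1 x _ (hE _ e.2)).2)).trans χ.map_zero, map_zero, zero_sub, norm_neg] at e8
  have e9 : ‖P (t ψ) * e‖ ≤ B * C := by
    refine le_of_tendsto_of_tendsto' (((by fun_prop : Continuous fun w => ‖P (t w) * e‖).tendsto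
      _).comp h8) (by simpa using (h0.mul_const (‖t‖ * ‖e.1‖)).const_add (B * C)) fun n => ?_
    have a1 := e2 (f (k n)) (φ (k n))
    have a2 := hB e (t (φ (k n) ∘L mul ℂ A (f (k n))) - t (φ (k n)) * f (k n))
    have a3 := (norm_mul_le (t (φ (k n))) _).trans (mul_le_mul (t.unit_le_opNorm _ (hφ _).le)
      (hf2 (k n) _ (hE _ e.2)) (norm_nonneg _) (norm_nonneg _))
    have a4 : 0 ≤ B := by simpa [hf1] using (norm_nonneg _).trans (hB e (f 0))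
    rw [hf1, hφ, mul_one, mul_one] at a1
    rw [map_sub, show P (t _ * _) = t (φ (k n)) * f (k n) by simp [P, h9 _ (h1 _ _ (hf _)).1],
      sub_mul, mul_assoc] at a2
    have := norm_sub_norm_le (P (t (φ (k n) ∘L mul ℂ A (f (k n)))) * e)
      (t (φ (k n)) * (f (k n) * e))
    show ‖_‖ ≤ _
    rw [one_div] at a3
    nlinarith
  have e10 : ‖σ (q (t ψ)) * e‖ ≤ ‖ψ‖ + B * C := by
    rw [show σ (q (t ψ)) = t ψ - P (t ψ) by simp [P], sub_mul]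
    exact norm_sub_le_of_le e8 e9
  change _ < ‖_‖ at e7
  rw [map_smul, smul_mul_assoc, norm_smul, Complex.norm_real, norm_inv, norm_norm,
    lt_inv_mul_iff₀ e6] at e7
  nlinarith [norm_nonneg (σ (q (t ψ)) * e)]

theorem main (H : Hyp A) (h1 : ∀ a x : A, x ∈ J → a * x ∈ J ∧ x * a ∈ J)
    (h2 : IsClosed (J : Set A)) [FiniteDimensional ℂ (A ⧸ J)] (f : ℕ → A) (hf : ∀ n, f n ∈ J)
    (hf1 : ∀ n, ‖f n‖ = 1) (hf2 : ∀ n, ∀ x ∈ J, ‖f n * x‖ ≤ 1 / (n + 1) * ‖x‖) : False := by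
  obtain ⟨c, hc⟩ := right H h1 h2 (.of_finiteDimensional_quotient h2)
  let E := {e : A | e ∈ J ∧ ∀ x ∈ J, ‖x * e - x‖ ≤ c * ‖x‖}
  let I : Submodule ℂ A :=
    { carrier := {s | ∃ M, ∀ e : E, ‖s * e‖ ≤ M}
      add_mem' := fun ⟨M, h⟩ ⟨M', h'⟩ => ⟨M + M', fun e => by
        rw [add_mul]
        exact norm_add_le_of_le (h e) (h' e)⟩
      zero_mem' := ⟨0, by simp⟩
      smul_mem' := fun z _ ⟨M, h⟩ => ⟨‖z‖ * M, fun e => by
        rw [smul_mul_assoc, norm_smul]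
        exact mul_le_mul_of_nonneg_left (h e) (norm_nonneg _)⟩ }
  have h3 : J ≤ I := fun x hx => ⟨c * ‖x‖ + ‖x‖, fun e => by
    linarith [e.2.2 x hx, norm_sub_norm_le (x * e) x]⟩
  have h4 := Submodule.isClosed_mono_of_finiteDimensional_quotient h2 h3
  have : FiniteDimensional ℂ (A ⧸ I) := Submodule.CoFG.of_le h3 ‹_›
  obtain ⟨σ, hσ⟩ := I.mkQL.exists_rightInverse_of_surjective I.range_mkQ
  exact core H h1 f hf hf1 hf2 (G := A ⧸ I) I.mkQL σ (fun g => congr($hσ g)) E (fun _ h => h.1)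
    (fun x hx ε hε => by
      obtain ⟨e, e1, e2, e3⟩ := hc {x} (by simpa) ε hε
      exact ⟨e, ⟨e1, e2⟩, e3 _ (Finset.mem_singleton_self _)⟩)
    (fun x hx => (Submodule.Quotient.mk_eq_zero I).2 (h3 hx))
    fun x => Submodule.Quotient.mk_eq_zero I

end Pool.Agent.H9.Bai
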