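import Mathlib

namespace Pool.Agent.H9.Clif1

open HahnSeries Finset

abbrev G := Lex (ℕ →₀ ℤ)
abbrev M := HahnSeries G ℚ

noncomputable def tw0 (φ : G →+ ℤ) (x : M) : M where
  coeff a := (-1) ^ φ a * x.coeff a
  isPWO_support' := x.isPWO_support'.mono fun a h => right_ne_zero_of_mul h

lemma tw0_supp (φ : G →+ ℤ) (x : M) : (tw0 φ x).support = x.support := by
  ext a
  simp [tw0, zpow_ne_zero]

noncomputable def tw (φ : G →+ ℤ) : M →+* M where
  toFun := tw0 φ
  map_one' := by
    ext a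
    simp only [tw0, coeff_one]
    split_ifs with h <;> simp [h]
  map_mul' x y := by
    ext a
    rw [coeff_mul]
    simp only [tw0_supp]
    simp only [tw0, coeff_mul, mul_sum]
    refine sum_congr rfl fun ij h => ?_
    rw [← (mem_antidiagonal.1 h).2.2, map_add, zpow_add₀ (by norm_num)]
    ring
  map_zero' := by ext a; simp [tw0]
  map_add' x y := by ext a; simp [tw0, mul_add]

lemma tw_coeff (φ : G →+ ℤ) (x : M) (a : G) : (tw φ x).coeff a = (-1) ^ φ a * x.coeff a := rfl

lemma tw_tw (φ ψ : G →+ ℤ) (x : M) : tw φ (tw ψ x) = tw (φ + ψ) x := by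
  ext a
  simp [tw_coeff, zpow_add₀, mul_assoc]

lemma tw_single (φ : G →+ ℤ) (a : G) : tw φ (single a 1) = single 0 ((-1) ^ φ a) * single a 1 := by
  ext b
  simp only [tw_coeff, single_mul_single, zero_add, coeff_single]
  split_ifs with h <;> simp [h]

lemma tw_order (φ : G →+ ℤ) (x : M) (hx : x ≠ 0) : tw φ x ≠ 0 ∧ (tw φ x).order = x.order := by
  have h1 : tw φ x ≠ 0 := (map_ne_zero _).2 hx
  refine ⟨h1, le_antisymm (order_le_of_coeff_ne_zero ?_) (order_le_of_coeff_ne_zero ?_)⟩
  · exact mul_ne_zero (zpow_ne_zero _ (by norm_num)) (mt coeff_order_eq_zero.1 hx)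
  · have := mt coeff_order_eq_zero.1 h1
    exact right_ne_zero_of_mul this

noncomputable def F : Subfield M := ⨅ φ : G →+ ℤ, (tw φ).eqLocusField (RingHom.id M)

lemma mem_F {x : M} : x ∈ F ↔ ∀ φ, tw φ x = x := by
  simp only [F, Subfield.mem_iInf]
  rfl

def co (i : ℕ) : G →+ ℤ := Finsupp.applyAddHom i

lemma F_order (c : F) (hc : c ≠ 0) (i : ℕ) : Even (co i c.1.order) := by
  have h := congrArg (fun x => x.coeff c.1.order) (mem_F.1 c.2 (co i))
  have h0 : c.1.coeff c.1.order ≠ 0 := mt coeff_order_eq_zero.1 fun h => hc (Subtype.ext h)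
  by_contra h2
  rw [tw_coeff, (Int.not_even_iff_odd.1 h2).neg_one_zpow] at h
  exact h0 (by linarith)

noncomputable def sg (k : ℤ) : F := ⟨single 0 ((-1) ^ k), mem_F.2 fun φ => by
  ext b
  simp only [tw_coeff, coeff_single]
  split_ifs with h <;> simp [h]⟩

noncomputable def sq (δ : G) : F := ⟨single (δ + δ) 1, mem_F.2 fun φ => by
  rw [tw_single, map_add, (Even.add_self _).neg_one_zpow]
  exact one_mul _⟩

noncomputable def B : G →+ G →+ ℤ :=
  Finsupp.liftAddHom fun i => zmultiplesHom _ (∑ j ∈ range i, co j)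

noncomputable def T (γ : G) : Module.End F M where
  toFun v := single γ 1 * tw (B γ) v
  map_add' x y := by simp [mul_add]
  map_smul' c x := by
    simp only [Subfield.smul_def, smul_eq_mul, map_mul, mem_F.1 c.2, RingHom.id_apply]
    ring

lemma T_apply (γ : G) (v : M) : T γ v = single γ 1 * tw (B γ) v := rfl

lemma T_mul (γ δ : G) : T γ * T δ = sg (B γ δ) • T (γ + δ) := by
  ext1 v
  simp only [Module.End.mul_apply, LinearMap.smul_apply, T_apply, map_mul, tw_tw, tw_single,
    Subfield.smul_def, smul_eq_mul, sg, map_add]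
  rw [show (single (γ + δ) 1 : M) = single γ 1 * single δ 1 by simp [single_mul_single]]
  ring

lemma T_two (δ γ : G) : T (δ + δ + γ) = sq δ • T γ := by
  ext1 v
  have : tw (B (δ + δ + γ)) v = tw (B γ) v := by
    ext a
    simp only [tw_coeff, map_add, AddMonoidHom.add_apply]
    rw [zpow_add₀ (by norm_num), (Even.add_self _).neg_one_zpow, one_mul]
  simp only [LinearMap.smul_apply, T_apply, this, Subfield.smul_def, smul_eq_mul, sq, ← mul_assoc,
    single_mul_single, mul_one]

lemma T_zero : T 0 = 1 := by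
  ext1 v
  have : tw 0 v = v := by ext a; simp [tw_coeff]
  simp [T_apply, this]

def H (N : ℕ) : Set G := {γ | ∀ i, N ≤ i → co i γ = 0}
def R (N : ℕ) : Set G := {γ | γ ∈ H N ∧ ∀ i, co i γ = 0 ∨ co i γ = 1}

lemma R_fin (N : ℕ) : (R N).Finite := by
  refine ((Finset.finsupp (range N) fun _ => ({0, 1} : Finset ℤ)).finite_toSet).subset ?_
  rintro γ ⟨h1, h2⟩
  refine mem_finsupp_iff.2 ⟨fun i hi => mem_range.2 (not_le.1 fun h => ?_), fun i _ => ?_⟩
  · exact Finsupp.mem_support_iff.1 hi (h1 i h)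
  · exact mem_insert.2 ((h2 i).imp_right mem_singleton.2)

lemma T_mem (N : ℕ) (γ : G) (h : γ ∈ H N) : T γ ∈ Submodule.span F (T '' R N) := by
  let δ : G := Finsupp.mapRange (· / 2) (by simp) γ
  let γ' : G := Finsupp.mapRange (· % 2) (by simp) γ
  have e : γ = δ + δ + γ' := Finsupp.ext fun i => by
    show co i γ = co i γ / 2 + co i γ / 2 + co i γ % 2
    omega
  rw [e, T_two]
  refine Submodule.smul_mem _ _ (Submodule.subset_span ⟨γ', ⟨fun i hi => ?_, fun i => ?_⟩, rfl⟩)
  · show co i γ % 2 = 0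
    rw [h i hi]; rfl
  · exact Int.emod_two_eq_zero_or_one (co i γ)

noncomputable def S (N : ℕ) : Subalgebra F (Module.End F M) :=
  (Submodule.span F (T '' R N)).toSubalgebra (T_zero ▸ T_mem N 0 fun i _ => map_zero _) (by
    intro x y hx hy
    refine Submodule.span_induction₂ (p := fun x y _ _ => x * y ∈ Submodule.span F (T '' R N))
      ?_ (by simp) (by simp) ?_ ?_ ?_ ?_ hx hy
    · rintro _ _ ⟨γ, h, rfl⟩ ⟨δ, h', rfl⟩
      rw [T_mul]
      exact Submodule.smul_mem _ _ (T_mem N _ fun i hi => by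
        rw [map_add, h.1 i hi, h'.1 i hi, add_zero])
    · intro x y z _ _ _ h1 h2; rw [add_mul]; exact add_mem h1 h2
    · intro x y z _ _ _ h1 h2; rw [mul_add]; exact add_mem h1 h2
    · intro r x y _ _ h; rw [smul_mul_assoc]; exact Submodule.smul_mem _ _ h
    · intro r x y _ _ h; rw [mul_smul_comm]; exact Submodule.smul_mem _ _ h)

lemma S_mono {N N' : ℕ} (h : N ≤ N') : S N ≤ S N' :=
  Submodule.span_mono (Set.image_mono fun _ hγ => ⟨fun i hi => hγ.1 i (h.trans hi), hγ.2⟩)

lemma S_inj (N : ℕ) (z : Module.End F M) (hz : z ∈ S N) (h0 : z ≠ 0) (v : M) (hv : v ≠ 0) :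
    z v ≠ 0 := by
  obtain ⟨c, hc, rfl⟩ := (Finsupp.mem_span_image_iff_linearCombination F).1 hz
  have hne : c.support.Nonempty := Finsupp.support_nonempty_iff.2 fun h => h0 (by simp [h])
  have ho : ∀ γ ∈ c.support, (c γ • T γ v) ≠ 0 ∧
      (c γ • T γ v).order = (c γ).1.order + γ + v.order := by
    intro γ hγ
    have h1 : (c γ).1 ≠ 0 := fun h => Finsupp.mem_support_iff.1 hγ (Subtype.ext h)
    have h2 : (single γ 1 : M) ≠ 0 := single_ne_zero one_ne_zero
    have h3 := tw_order (B γ) v hv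
    rw [Subfield.smul_def, smul_eq_mul, T_apply, order_mul h1 (mul_ne_zero h2 h3.1),
      order_mul h2 h3.1, order_single one_ne_zero, h3.2, add_assoc]
    exact ⟨mul_ne_zero h1 (mul_ne_zero h2 h3.1), rfl⟩
  obtain ⟨γ, hγ, hm⟩ := c.support.exists_min_image (fun γ => (c γ • T γ v).order) hne
  intro h
  have := congrArg (fun x => x.coeff (c γ • T γ v).order) h
  simp only [Finsupp.linearCombination_apply, Finsupp.sum, LinearMap.sum_apply,
    LinearMap.smul_apply, coeff_sum, coeff_zero] at this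
  rw [sum_eq_single_of_mem γ hγ] at this
  · exact (ho γ hγ).1 (coeff_order_eq_zero.1 this)
  · intro δ hδ hne
    refine coeff_eq_zero_of_lt_order (lt_of_le_of_ne (hm δ hδ) fun e => hne ?_)
    rw [(ho γ hγ).2, (ho δ hδ).2, add_left_inj] at e
    refine Finsupp.ext fun i => ?_
    have e1 := congrArg (co i) e
    obtain ⟨a, ha⟩ := F_order _ (Finsupp.mem_support_iff.1 hγ) i
    obtain ⟨b, hb⟩ := F_order _ (Finsupp.mem_support_iff.1 hδ) i
    have := (hc hγ).2 i
    have := (hc hδ).2 i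
    rw [map_add, map_add] at e1
    show co i δ = co i γ
    omega

noncomputable def e (i : ℕ) : Module.End F M := T (Finsupp.single i 1)

lemma B_single (i j : ℕ) : B (Finsupp.single i 1) (Finsupp.single j 1) = if j < i then 1 else 0 := by
  have : B (Finsupp.single i 1) = ∑ j ∈ range i, co j :=
    (Finsupp.liftAddHom_apply_single _ _ _).trans (by simp)
  rw [this, AddMonoidHom.finsetSum_apply]
  have : ∀ k, co k (Finsupp.single j 1) = if j = k then 1 else 0 := fun k => Finsupp.single_apply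
  simp [this]

lemma sg0 : sg 0 = 1 := Subtype.ext (by simp [sg])
lemma sg1 : sg 1 = -1 := Subtype.ext (by simp [sg])

lemma e_anti {i j : ℕ} (h : i < j) : e j * e i = -(e i * e j) := by
  have key : ∀ a b : G, B a b = 1 → B b a = 0 → T a * T b = -(T b * T a) := fun a b h1 h2 => by
    rw [T_mul, T_mul, h1, h2, sg0, sg1, add_comm, one_smul]
    ext1 v
    simp [Subfield.smul_def]
  exact key _ _ (by rw [B_single, if_pos h]) (by rw [B_single, if_neg h.not_gt])

lemma e_sq (i : ℕ) : ∃ c : F, e i * e i = algebraMap F _ c := by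
  refine ⟨sq (Finsupp.single i 1), ?_⟩
  simp only [e, T_mul, B_single, lt_irrefl, if_false, sg0, one_smul]
  rw [Algebra.algebraMap_eq_smul_one, ← T_zero, ← T_two, add_zero]

lemma e_ne (i : ℕ) : e i ≠ 0 := fun h => by
  have := congrArg (fun f => f 1) h
  simp [e, T_apply] at this

lemma adj (z : Module.End F M) (hz : z ∈ Algebra.adjoin F (Set.range e)) : ∃ N, z ∈ S N := by
  induction hz using Algebra.adjoin_induction with
  | mem x hx =>
    obtain ⟨i, rfl⟩ := hx
    exact ⟨i + 1, T_mem _ _ fun k hk => Finsupp.single_eq_of_ne (by omega)⟩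
  | algebraMap r => exact ⟨0, (S 0).algebraMap_mem r⟩
  | add x y _ _ hx hy =>
    obtain ⟨a, ha⟩ := hx
    obtain ⟨b, hb⟩ := hy
    exact ⟨max a b, add_mem (S_mono (le_max_left _ _) ha) (S_mono (le_max_right _ _) hb)⟩
  | mul x y _ _ hx hy =>
    obtain ⟨a, ha⟩ := hx
    obtain ⟨b, hb⟩ := hy
    exact ⟨max a b, mul_mem (S_mono (le_max_left _ _) ha) (S_mono (le_max_right _ _) hb)⟩

theorem exD : ∃ (K D : Type) (_ : Field K) (_ : DivisionRing D) (_ : Algebra K D) (e : ℕ → D),
    (∀ z : D, IsIntegral K z) ∧ (2 : K) ≠ 0 ∧ (∀ i, e i ≠ 0) ∧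
    (∀ i j, i < j → e j * e i = -(e i * e j)) ∧ (∀ i, ∃ c : K, e i * e i = algebraMap K D c) ∧
    Algebra.adjoin K (Set.range e) = ⊤ := by
  let E := Algebra.adjoin F (Set.range e)
  have hint : ∀ z : E, IsIntegral F z := fun z => by
    obtain ⟨N, hN⟩ := adj z.1 z.2
    exact (isIntegral_algHom_iff E.val Subtype.val_injective).1
      (IsIntegral.of_mem_of_fg (S N) (Submodule.fg_span ((R_fin N).image T)) _ hN)
  haveI : NoZeroDivisors E := ⟨fun {a b} h => by
    by_contra hc
    push Not at hc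
    obtain ⟨N, hN⟩ := adj a.1 a.2
    obtain ⟨N', hN'⟩ := adj b.1 b.2
    exact S_inj N _ hN (fun h => hc.1 (Subtype.ext h)) _
      (S_inj N' _ hN' (fun h => hc.2 (Subtype.ext h)) 1 one_ne_zero)
      (congrArg (fun f : E => f.1 1) h)⟩
  haveI : IsDomain E := NoZeroDivisors.to_isDomain E
  letI : DivisionRing E := DivisionRing.ofIsUnitOrEqZero fun z =>
    (eq_or_ne z 0).symm.imp_left (hint z).isUnit
  refine ⟨F, E, inferInstance, inferInstance, inferInstance,
    fun i => ⟨e i, Algebra.subset_adjoin ⟨i, rfl⟩⟩, hint, fun h => by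
      have := congrArg (fun x : F => x.1.coeff 0) h
      simp only [← one_add_one_eq_two] at this
      simp at this,
    fun i h => e_ne i (congrArg Subtype.val h), fun i j h => Subtype.ext (e_anti h),
    fun i => (e_sq i).imp fun c h => Subtype.ext h, ?_⟩
  rw [← Algebra.adjoin_adjoin_coe_preimage]
  congr 1
  ext x
  exact ⟨fun ⟨i, h⟩ => ⟨i, congrArg Subtype.val h⟩, fun ⟨i, h⟩ => ⟨i, Subtype.ext h⟩⟩

end Pool.Agent.H9.Clif1
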