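import Pool.Agent.H9.Clif1

namespace Pool.Agent.H9.Clif2

open Filter

theorem exSigma {K D : Type} [Field K] [DivisionRing D] [Algebra K D] (e : ℕ → D)
    (h2 : (2 : K) ≠ 0) (h0 : ∀ i, e i ≠ 0) (ha : ∀ i j, i < j → e j * e i = -(e i * e j))
    (hs : ∀ i, ∃ c : K, e i * e i = algebraMap K D c)
    (hg : Algebra.adjoin K (Set.range e) = ⊤) : ∃ σ : D →ₐ[K] D, ∃ g, ∀ z, σ z ≠ g := by
  choose t ht using hs
  let w : ℕ → D := fun n => e n * e (n + 1)
  have h2' : (2 : D) ≠ 0 := by
    rw [← map_ofNat (algebraMap K D) 2]; exact (map_ne_zero _).2 h2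
  have hw1 : ∀ n, e n * w n = -(w n * e n) := fun n => by
    simp only [w, mul_assoc, ha n (n + 1) n.lt_succ_self, mul_neg, neg_neg]
  have hw2 : ∀ i n, i < n → e i * w n = w n * e i := fun i n h => by
    simp only [w]
    rw [mul_assoc, ha i (n + 1) (by omega), mul_neg, ← mul_assoc (e n), ha i n h, neg_mul, neg_neg,
      mul_assoc]
  have hw3 : ∀ n, w n * e n = -(t n • e (n + 1)) := fun n => by
    simp only [w]
    rw [mul_assoc, ha n (n + 1) n.lt_succ_self, mul_neg, ← mul_assoc, ht, Algebra.smul_def]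
  have hw4 : ∀ n, w n * w n = -algebraMap K D (t n * t (n + 1)) := fun n => by
    rw [show w n * w n = w n * e n * e (n + 1) from (mul_assoc _ _ _).symm, hw3, neg_mul,
      smul_mul_assoc, ht, map_mul, Algebra.smul_def]
  have hnc : ∀ n, w n * e n ≠ e n * w n := fun n h => by
    rw [hw1, eq_neg_iff_add_eq_zero, ← two_mul] at h
    exact mul_ne_zero h2' (mul_ne_zero (mul_ne_zero (h0 _) (h0 _)) (h0 _)) h
  have hu : ∀ n, 1 + w n ≠ 0 := fun n h => hnc n (by rw [eq_neg_of_add_eq_zero_right h]; simp)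
  have hu' : ∀ n, 1 - w n ≠ 0 := fun n h => hnc n (by rw [← sub_eq_zero.1 h]; simp)
  let U : ℕ → D := fun n => Nat.rec 1 (fun k u => u * (1 + w k)) n
  have hU : ∀ n, U (n + 1) = U n * (1 + w n) := fun n => rfl
  have hU0 : ∀ n, U n ≠ 0 := fun n => by
    induction n with
    | zero => exact one_ne_zero
    | succ n ih => exact mul_ne_zero ih (hu n)
  have hP : ∀ z : D, ∃ y, ∀ᶠ n in atTop, U n * z = y * U n := by
    intro z
    have hz : z ∈ Algebra.adjoin K (Set.range e) := hg ▸ Algebra.mem_top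
    induction hz using Algebra.adjoin_induction with
    | mem x hx =>
      obtain ⟨i, rfl⟩ := hx
      refine ⟨U (i + 1) * e i * (U (i + 1))⁻¹, eventually_atTop.2 ⟨i + 1, fun n hn => ?_⟩⟩
      induction n, hn using Nat.le_induction with
      | base => exact (inv_mul_cancel_right₀ (hU0 (i + 1)) _).symm
      | succ n hn ih =>
        rw [hU n, ← mul_assoc _ (U n), ← ih, mul_assoc, mul_assoc, add_mul, mul_add (e i),
          hw2 i n hn, one_mul, mul_one]
    | algebraMap r => exact ⟨algebraMap K D r, Eventually.of_forall fun n =>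
        (Algebra.commutes r _).symm⟩
    | add x y _ _ hx hy =>
      obtain ⟨a, ha⟩ := hx
      obtain ⟨b, hb⟩ := hy
      exact ⟨a + b, by filter_upwards [ha, hb] with n h h' using by rw [mul_add, add_mul, h, h']⟩
    | mul x y _ _ hx hy =>
      obtain ⟨a, ha⟩ := hx
      obtain ⟨b, hb⟩ := hy
      exact ⟨a * b, by
        filter_upwards [ha, hb] with n h h' using by rw [← mul_assoc, h, mul_assoc, h', mul_assoc]⟩
  choose s hs using hP
  have uq : ∀ z y, (∀ᶠ n in atTop, U n * z = y * U n) → s z = y := fun z y h => by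
    obtain ⟨n, h1, h2⟩ := ((hs z).and h).exists
    exact mul_right_cancel₀ (hU0 n) (h1.symm.trans h2)
  let σ : D →ₐ[K] D :=
    { toFun := s
      map_one' := uq _ _ (Eventually.of_forall fun n => by simp)
      map_mul' := fun x y => uq _ _ (by
        filter_upwards [hs x, hs y] with n h h' using by rw [← mul_assoc, h, mul_assoc, h', mul_assoc])
      map_zero' := uq _ _ (Eventually.of_forall fun n => by simp)
      map_add' := fun x y => uq _ _ (by
        filter_upwards [hs x, hs y] with n h h' using by rw [mul_add, add_mul, h, h'])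
      commutes' := fun r => uq _ _ (Eventually.of_forall fun n => (Algebra.commutes r _).symm) }
  have inv : ∀ n, ∃ (a : D) (c : K), c ≠ 0 ∧ e 0 * U n = U n * (a + c • e n) ∧
      ∀ k, n ≤ k → a * w k = w k * a := by
    intro n
    induction n with
    | zero => exact ⟨0, 1, one_ne_zero, by simp [U], by simp⟩
    | succ n ih =>
      obtain ⟨a, c, c0, h1, h3⟩ := ih
      have hτ : 1 + t n * t (n + 1) ≠ 0 := fun h => mul_ne_zero (hu n) (hu' n) (by
        have := congrArg (algebraMap K D) h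
        rw [map_add, map_one, map_zero] at this
        rw [show (1 + w n) * (1 - w n) = 1 - w n * w n by noncomm_ring, hw4, sub_neg_eq_add, this])
      have ht0 : t n ≠ 0 := fun h => mul_ne_zero (h0 n) (h0 n) (by rw [ht, h, map_zero])
      refine ⟨a + (c * (1 - t n * t (n + 1)) / (1 + t n * t (n + 1))) • e n,
        2 * c * t n / (1 + t n * t (n + 1)),
        div_ne_zero (mul_ne_zero (mul_ne_zero h2 c0) ht0) hτ, ?_, fun k hk => ?_⟩
      · rw [hU, ← mul_assoc, h1, mul_assoc, mul_assoc]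
        congr 1
        have hw5 : w n * e (n + 1) = t (n + 1) • e n := by
          simp only [w]
          rw [mul_assoc, ht, ← Algebra.commutes, Algebra.smul_def]
        simp only [mul_add, add_mul, mul_one, one_mul, h3 n le_rfl, smul_mul_assoc, mul_smul_comm,
          hw1, hw3, hw5]
        match_scalars <;> field_simp <;> ring
      · rw [add_mul, mul_add, h3 k (by omega), smul_mul_assoc, mul_smul_comm, hw2 n k hk]
  refine ⟨σ, e 0, fun z hz => ?_⟩
  have h := hs z
  rw [show s z = e 0 from hz] at h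
  obtain ⟨n, hn⟩ := eventually_atTop.1 h
  obtain ⟨a, c, c0, h1, h3⟩ := inv n
  have e1 : z = a + c • e n := mul_left_cancel₀ (hU0 n) ((hn n le_rfl).trans h1)
  have e2 := hn (n + 1) n.le_succ
  rw [hU, ← mul_assoc, ← hn n le_rfl, mul_assoc, mul_assoc] at e2
  have e3 := mul_left_cancel₀ (hU0 n) e2
  rw [add_mul, mul_add, one_mul, mul_one, add_right_inj, e1, mul_add, add_mul, h3 n le_rfl,
    add_right_inj, smul_mul_assoc, mul_smul_comm] at e3
  exact hnc n (smul_right_injective D c0 e3)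

section ring
variable {K D : Type} [Field K] [DivisionRing D] [Algebra K D] (σ : D →ₐ[K] D)

def A : Subalgebra K (Matrix (Fin 2) (Fin 2) D) where
  carrier := {X | X 1 0 = 0 ∧ X 0 0 = σ (X 1 1)}
  mul_mem' := fun {X Y} hX hY => by
    simp [Matrix.mul_apply, Fin.sum_univ_two, hX.1, hX.2, hY.1, hY.2]
  add_mem' := fun {X Y} hX hY => by simp [hX.1, hX.2, hY.1, hY.2]
  algebraMap_mem' := fun r => by simp [Matrix.algebraMap_matrix_apply]

def mk (a m : D) : A σ := ⟨!![σ a, m; 0, a], rfl, rfl⟩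

lemma mk_surj (X : A σ) : ∃ a m, X = mk σ a m := ⟨X.1 1 1, X.1 0 1, Subtype.ext (by
  ext i j
  fin_cases i <;> fin_cases j
  exacts [X.2.2, rfl, X.2.1, rfl])⟩

lemma mk_mul (a m b n : D) : mk σ a m * mk σ b n = mk σ (a * b) (σ a * n + m * b) :=
  Subtype.ext (by simp [mk])

lemma mk_add (a m b n : D) : mk σ a m + mk σ b n = mk σ (a + b) (m + n) :=
  Subtype.ext (by simp [mk])

lemma mk_zero : mk σ 0 0 = 0 := Subtype.ext (by
  ext i j
  fin_cases i <;> fin_cases j <;> simp [mk])

lemma mk_inj {a m b n : D} (h : mk σ a m = mk σ b n) : a = b ∧ m = n :=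
  ⟨congrArg (fun X => X.1 1 1) h, congrArg (fun X => X.1 0 1) h⟩

lemma chain (x y : A σ) : (∃ z, x = y * z) ∨ ∃ z, y = x * z := by
  have key : ∀ a m, a ≠ 0 → ∀ y, ∃ z, y = mk σ a m * z := by
    intro a m ha y
    obtain ⟨b, n, rfl⟩ := mk_surj σ y
    have : σ a ≠ 0 := (map_ne_zero σ).2 ha
    exact ⟨mk σ (a⁻¹ * b) ((σ a)⁻¹ * (n - m * (a⁻¹ * b))), by
      rw [mk_mul, mul_inv_cancel_left₀ ha, mul_inv_cancel_left₀ this, sub_add_cancel]⟩
  obtain ⟨a, m, rfl⟩ := mk_surj σ x
  obtain ⟨b, n, rfl⟩ := mk_surj σ y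
  by_cases ha : a = 0
  · by_cases hb : b = 0
    · subst ha hb
      by_cases hm : m = 0
      · exact .inl ⟨0, by rw [hm, mk_zero, mul_zero]⟩
      · exact .inr ⟨mk σ (m⁻¹ * n) 0, by simp [mk_mul, mul_inv_cancel_left₀ hm]⟩
    · exact .inl (key b n hb _)
  · exact .inr (key a m ha _)

lemma right_total (I J : Submodule (A σ)ᵐᵒᵖ (A σ)) : I ≤ J ∨ J ≤ I := by
  by_contra h
  push Not at h
  obtain ⟨x, hx, hx'⟩ := SetLike.not_le_iff_exists.1 h.1
  obtain ⟨y, hy, hy'⟩ := SetLike.not_le_iff_exists.1 h.2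
  rcases chain σ x y with ⟨z, rfl⟩ | ⟨z, rfl⟩
  · exact hx' (J.smul_mem (MulOpposite.op z) hy)
  · exact hy' (I.smul_mem (MulOpposite.op z) hx)

lemma integral (h : ∀ z : D, IsIntegral K z) (x : A σ) : IsIntegral K x := by
  let π : A σ →ₐ[K] D :=
    { toFun := fun X => X.1 1 1
      map_one' := rfl
      map_mul' := fun X Y => by simp [Matrix.mul_apply, Fin.sum_univ_two, X.2.1]
      map_zero' := rfl
      map_add' := fun _ _ => rfl
      commutes' := fun r => by simp [Matrix.algebraMap_matrix_apply] }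
  obtain ⟨p, hp, hp'⟩ := h (π x)
  refine ⟨p * p, hp.mul hp, ?_⟩
  rw [← Polynomial.aeval_def, map_mul]
  have : π (Polynomial.aeval x p) = 0 := by rw [← Polynomial.aeval_algHom_apply]; exact hp'
  obtain ⟨a, m, e⟩ := mk_surj σ (Polynomial.aeval x p)
  rw [e] at this ⊢
  obtain rfl : a = 0 := this
  simp [mk_mul, mk_zero]

lemma not_left (g : D) (hg : ∀ z, σ z ≠ g) :
    ¬ ∀ a b c : Submodule (A σ) (A σ), a ⊓ (b ⊔ c) = (a ⊓ b) ⊔ (a ⊓ c) := by
  intro h
  have key : ∀ m n : D, (∀ a b, σ a * m = σ b * n → σ a * m = 0) →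
      Submodule.span (A σ) {mk σ 0 m} ⊓ Submodule.span (A σ) {mk σ 0 n} = ⊥ := by
    intro m n hmn
    refine (Submodule.eq_bot_iff _).2 fun x ⟨h1, h2⟩ => ?_
    obtain ⟨y, rfl⟩ := Submodule.mem_span_singleton.1 h1
    obtain ⟨z, e⟩ := Submodule.mem_span_singleton.1 h2
    obtain ⟨a, _, rfl⟩ := mk_surj σ y
    obtain ⟨b, _, rfl⟩ := mk_surj σ z
    simp only [smul_eq_mul, mk_mul, mul_zero, add_zero] at e ⊢
    rw [hmn a b (mk_inj σ e).2.symm, mk_zero]
  have := h (Submodule.span _ {mk σ 0 (1 + g)}) (Submodule.span _ {mk σ 0 1})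
    (Submodule.span _ {mk σ 0 g})
  rw [key, key, bot_sup_eq, Submodule.eq_bot_iff] at this
  · have h1 := this (mk σ 0 (1 + g)) ⟨Submodule.mem_span_singleton_self _, by
      have := Submodule.add_mem_sup (Submodule.mem_span_singleton_self (R := A σ) (mk σ 0 1))
        (Submodule.mem_span_singleton_self (R := A σ) (mk σ 0 g))
      rwa [mk_add, add_zero] at this⟩
    refine hg (-1) ?_
    rw [map_neg, map_one]
    exact neg_eq_of_add_eq_zero_right (mk_inj σ (h1.trans (mk_zero σ).symm)).2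
  · intro a b e
    by_cases hab : b - a = 0
    · rw [sub_eq_zero.1 hab, mul_add, mul_one, add_eq_right] at e
      rw [e, zero_mul]
    · refine absurd ?_ (hg ((b - a)⁻¹ * a))
      rw [map_mul, map_inv₀, inv_mul_eq_iff_eq_mul₀ ((map_ne_zero σ).2 hab), map_sub, sub_mul, ← e]
      noncomm_ring
  · intro a b e
    by_cases ha : a = 0
    · simp [ha]
    · refine absurd ?_ (hg (a⁻¹ * b - 1))
      rw [map_sub, map_mul, map_inv₀, map_one, ← mul_one (σ b), ← e,
        inv_mul_cancel_left₀ ((map_ne_zero σ).2 ha), add_sub_cancel_left]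

end ring

end Pool.Agent.H9.Clif2
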