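import Mathlib

/-! A finitely generated group `G = Z_(2)^(Z) ⋊ (Z ≀ Z)` and its subgroup `T` of index two. -/
namespace Pool.Agent.H9.CoH1

/-- rationals with odd denominator -/
def R : Subring ℚ where
  carrier := {q | Odd q.den}
  mul_mem' := fun {a b} ha hb => Odd.of_dvd_nat (Odd.mul ha hb) (Rat.mul_den_dvd a b)
  add_mem' := fun {a b} ha hb => Odd.of_dvd_nat (Odd.mul ha hb) (Rat.add_den_dvd a b)
  one_mem' := by simp
  zero_mem' := by simp
  neg_mem' := fun {a} ha => by simpa using ha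

lemma mem_R (q : ℚ) : q ∈ R ↔ Odd q.den := Iff.rfl

lemma inv_mem {n : ℕ} (h : Odd n) : (n : ℚ)⁻¹ ∈ R := by
  rw [mem_R, Rat.inv_natCast_den]
  split_ifs
  · simp
  · exact h

lemma den_ne (q : R) : (((q : ℚ).den : ℕ) : ZMod 2) ≠ 0 :=
  ZMod.natCast_ne_zero_iff_odd.2 q.2

/-- reduction modulo two -/
noncomputable def rho : R →+* ZMod 2 where
  toFun q := ((q : ℚ) : ZMod 2)
  map_one' := by simp
  map_zero' := by simp
  map_mul' a b := Rat.cast_mul_of_ne_zero (den_ne a) (den_ne b)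
  map_add' a b := Rat.cast_add_of_ne_zero (den_ne a) (den_ne b)

lemma z2 (x : ZMod 2) : x = 0 ∨ x = 1 := by revert x; decide

lemma rho_unit (u : Rˣ) : rho u = 1 := by
  rcases z2 (rho u) with h | h
  · have := congrArg rho u.mul_inv
    rw [map_mul, h, map_one] at this
    simp at this
  · exact h

/-- the inverse of an odd number -/
noncomputable def oinv (n : ℕ) (h : Odd n) : R := ⟨(n : ℚ)⁻¹, inv_mem h⟩

lemma oinv_mul (n : ℕ) (h : Odd n) : (n : R) * oinv n h = 1 := by
  apply Subtype.ext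
  have : (n : ℚ) ≠ 0 := by exact_mod_cast h.pos.ne'
  simp [oinv, this]

lemma eq_num (q : R) : q = ((q : ℚ).num : R) * oinv _ q.2 := by
  apply Subtype.ext
  simp only [oinv, MulMemClass.coe_mul, Subring.coe_intCast]
  rw [← div_eq_mul_inv, Rat.num_div_den]

lemma rho_oinv (n : ℕ) (h : Odd n) : rho (oinv n h) = 1 :=
  rho_unit (Units.mkOfMulEqOne _ _ ((mul_comm _ _).trans (oinv_mul n h)))

lemma even_of_rho {q : R} (h : rho q = 0) : ∃ r : R, q = 2 * r := by
  rw [eq_num q, map_mul, rho_oinv, mul_one, map_intCast, ZMod.intCast_zmod_eq_zero_iff_dvd] at h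
  obtain ⟨k, hk⟩ := h
  refine ⟨(k : R) * oinv _ q.2, ?_⟩
  conv_lhs => rw [eq_num q, hk]
  push_cast; ring

lemma unit_of_rho {q : R} (h : rho q = 1) : IsUnit q := by
  rw [eq_num q, map_mul, rho_oinv, mul_one, map_intCast] at h
  have ho : Odd (q : ℚ).num.natAbs := by
    rw [Int.natAbs_odd, ← ZMod.intCast_eq_one_iff_odd]; exact h
  rw [eq_num q]
  refine IsUnit.mul ?_ (IsUnit.of_mul_eq_one _ ((mul_comm _ _).trans (oinv_mul _ q.2)))
  have hu : IsUnit (((q : ℚ).num.natAbs : ℕ) : R) := IsUnit.of_mul_eq_one _ (oinv_mul _ ho)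
  rcases Int.natAbs_eq (q : ℚ).num with e | e
  · rw [e]; simpa using hu
  · rw [e]; simpa using hu.neg

lemma two_ne : (2 : R) ≠ 0 := by
  intro h
  have := congrArg Subtype.val h
  norm_num at this

lemma rho_two : rho 2 = 0 := by
  rw [map_ofNat]; rfl

instance : Infinite {p : ℕ // p.Prime ∧ p ≠ 2} :=
  (Nat.infinite_setOf_prime.diff (Set.finite_singleton 2)).to_subtype

/-- an enumeration of the odd primes by the integers -/
noncomputable def P : ℤ ≃ {p : ℕ // p.Prime ∧ p ≠ 2} := Classical.choice nonempty_equiv_of_countable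

noncomputable def pr (j : ℤ) : ℕ := (P j).1

lemma pr_prime (j : ℤ) : (pr j).Prime := (P j).2.1
lemma pr_odd (j : ℤ) : Odd (pr j) := (pr_prime j).odd_of_ne_two (P j).2.2
lemma pr_inj {i j : ℤ} (h : pr i = pr j) : i = j := P.injective (Subtype.ext h)

noncomputable def pU (j : ℤ) : Rˣ := Units.mkOfMulEqOne _ _ (oinv_mul _ (pr_odd j))

lemma pU_val (j : ℤ) : (pU j : R) = pr j := rfl

lemma one_sub_ne (j : ℤ) : (1 : R) - pU j ≠ 0 := by
  intro h
  have h1 := congrArg Subtype.val (sub_eq_zero.1 h)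
  rw [pU_val] at h1
  have : (1 : ℚ) = (pr j : ℚ) := by simpa using h1
  exact (pr_prime j).one_lt.ne (by exact_mod_cast this)

noncomputable def lam (d : ℤ →₀ ℤ) (j : ℤ) : Rˣ := d.prod fun i k => pU (j - i) ^ k

@[simp] lemma lam_zero (j : ℤ) : lam 0 j = 1 := by simp [lam]
lemma lam_add (d e : ℤ →₀ ℤ) (j : ℤ) : lam (d + e) j = lam d j * lam e j :=
  Finsupp.prod_add_index' (by simp) (fun _ _ _ => zpow_add _ _ _)
lemma lam_single (i k j : ℤ) : lam (Finsupp.single i k) j = pU (j - i) ^ k :=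
  Finsupp.prod_single_index (by simp)
lemma lam_neg (d : ℤ →₀ ℤ) (j : ℤ) : lam (-d) j = (lam d j)⁻¹ := by
  rw [eq_inv_iff_mul_eq_one, ← lam_add]; simp

lemma u_ne (u : Rˣ) : ((u : R) : ℚ) ≠ 0 := fun h => u.ne_zero (Subtype.ext h)

lemma val_lam (d : ℤ →₀ ℤ) (j i : ℤ) : padicValRat (pr (j - i)) ((lam d j : R) : ℚ) = d i := by
  haveI : Fact (pr (j - i)).Prime := ⟨pr_prime _⟩
  induction d using Finsupp.induction_linear with
  | zero => simp
  | add f g hf hg =>
    rw [lam_add, Units.val_mul, MulMemClass.coe_mul, padicValRat.mul (u_ne _) (u_ne _), hf, hg]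
    simp
  | single a k =>
    rw [lam_single]
    have : (((pU (j - a) ^ k : Rˣ) : R) : ℚ) = (pr (j - a) : ℚ) ^ k := by
      exact map_zpow ((Units.coeHom ℚ).comp (Units.map R.subtype.toMonoidHom)) (pU (j - a)) k
    rw [this, padicValRat.zpow, Finsupp.single_apply]
    split_ifs with h
    · subst h
      rw [padicValRat.self (pr_prime _).one_lt, mul_one]
    · haveI : Fact (pr (j - a)).Prime := ⟨pr_prime _⟩
      rw [padicValRat.of_nat, padicValNat_primes (fun e => h (by have := pr_inj e; omega))]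
      simp

lemma lam_inj {d e : ℤ →₀ ℤ} {j : ℤ} (h : lam d j = lam e j) : d = e := by
  ext i
  rw [← val_lam d j i, h, val_lam]

lemma exists_lam (j : ℤ) (n : ℕ) (h : Odd n) : ∃ d, (lam d j : R) = n := by
  induction n using induction_on_primes with
  | zero => simp at h
  | one => exact ⟨0, by simp⟩
  | prime_mul p a hp ih =>
    obtain ⟨d, hd⟩ := ih (Nat.Odd.of_mul_right h)
    have h2 : p ≠ 2 := by
      rintro rfl
      exact absurd (Nat.Odd.of_mul_left h) (by decide)
    refine ⟨Finsupp.single (j - P.symm ⟨p, hp, h2⟩) 1 + d, ?_⟩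
    rw [lam_add, lam_single, Units.val_mul, hd, zpow_one, pU_val, sub_sub_cancel]
    simp [pr]

lemma exists_int_lam (j : ℤ) (r : R) : ∃ (a : ℤ) (d : ℤ →₀ ℤ), r = a * (lam d j : R) := by
  obtain ⟨d, hd⟩ := exists_lam j _ r.2
  refine ⟨(r : ℚ).num, -d, ?_⟩
  have : ((lam (-d) j : Rˣ) : R) = oinv _ r.2 := by
    rw [lam_neg]
    exact Units.inv_eq_of_mul_eq_one_right (by rw [hd, oinv_mul])
  rw [this]; exact eq_num r

/-- shift -/
noncomputable def sh {A : Type} [AddCommGroup A] (n : ℤ) (m : ℤ →₀ A) : ℤ →₀ A :=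
  Finsupp.equivMapDomain (Equiv.addRight n) m

@[simp] lemma sh_apply {A : Type} [AddCommGroup A] (n : ℤ) (m : ℤ →₀ A) (j : ℤ) :
    sh n m j = m (j - n) := by simp [sh, sub_eq_add_neg]

lemma sh_single {A : Type} [AddCommGroup A] (n i : ℤ) (a : A) :
    sh n (Finsupp.single i a) = Finsupp.single (i + n) a := by simp [sh]

lemma lam_sh (n : ℤ) (d : ℤ →₀ ℤ) (j : ℤ) : lam (sh n d) j = lam d (j - n) := by
  simp only [lam, sh, Finsupp.prod_equivMapDomain, Equiv.coe_addRight]
  refine Finsupp.prod_congr fun i _ => ?_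
  congr 2; ring

noncomputable def act (d : ℤ →₀ ℤ) (n : ℤ) (m : ℤ →₀ R) : ℤ →₀ R :=
  (fun j => (lam d j : R)) • sh n m

@[simp] lemma act_apply (d : ℤ →₀ ℤ) (n : ℤ) (m : ℤ →₀ R) (j : ℤ) :
    act d n m j = lam d j * m (j - n) := by simp [act]

lemma act_add (d : ℤ →₀ ℤ) (n : ℤ) (m m' : ℤ →₀ R) : act d n (m + m') = act d n m + act d n m' := by
  ext1 j; simp [mul_add]

@[simp] lemma act_zero (d : ℤ →₀ ℤ) (n : ℤ) : act d n 0 = 0 := by ext1 j; simp
@[simp] lemma act_id (m : ℤ →₀ R) : act 0 0 m = m := by ext1 j; simp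
@[simp] lemma sh_zero {A : Type} [AddCommGroup A] (n : ℤ) : sh n (0 : ℤ →₀ A) = 0 := by
  ext1 j; simp
@[simp] lemma sh_id {A : Type} [AddCommGroup A] (m : ℤ →₀ A) : sh 0 m = m := by ext1 j; simp

lemma act_single (d : ℤ →₀ ℤ) (n i : ℤ) (r : R) :
    act d n (Finsupp.single i r) = Finsupp.single (i + n) (lam d (i + n) * r) := by
  ext1 j
  simp only [act_apply, Finsupp.single_apply]
  by_cases h : i + n = j
  · subst h; simp
  · rw [if_neg h, if_neg (by omega), mul_zero]

noncomputable def chi : (ℤ →₀ R) →+ ZMod 2 := Finsupp.liftAddHom fun _ => rho.toAddMonoidHom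

@[simp] lemma chi_single (j : ℤ) (r : R) : chi (Finsupp.single j r) = rho r := by simp [chi]

lemma chi_act (d : ℤ →₀ ℤ) (n : ℤ) (m : ℤ →₀ R) : chi (act d n m) = chi m := by
  induction m using Finsupp.induction_linear with
  | zero => simp
  | add f g hf hg => rw [act_add, map_add, map_add, hf, hg]
  | single a k => rw [act_single, chi_single, chi_single, map_mul, rho_unit, one_mul]

lemma chi_smul (r : R) (m : ℤ →₀ R) : chi (r • m) = rho r * chi m := by
  induction m using Finsupp.induction_linear with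
  | zero => simp
  | add f g hf hg => rw [smul_add, map_add, map_add, hf, hg, mul_add]
  | single a k => rw [Finsupp.smul_single, chi_single, chi_single, smul_eq_mul, map_mul]

/-- the group -/
@[ext] structure G where
  m : ℤ →₀ R
  d : ℤ →₀ ℤ
  n : ℤ

noncomputable instance : Mul G := ⟨fun x y => ⟨x.m + act x.d x.n y.m, x.d + sh x.n y.d, x.n + y.n⟩⟩
noncomputable instance : One G := ⟨⟨0, 0, 0⟩⟩
noncomputable instance : Inv G :=
  ⟨fun x => ⟨-act (-sh (-x.n) x.d) (-x.n) x.m, -sh (-x.n) x.d, -x.n⟩⟩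

@[simp] lemma mul_m (x y : G) : (x * y).m = x.m + act x.d x.n y.m := rfl
@[simp] lemma mul_d (x y : G) : (x * y).d = x.d + sh x.n y.d := rfl
@[simp] lemma mul_n (x y : G) : (x * y).n = x.n + y.n := rfl
@[simp] lemma one_m : (1 : G).m = 0 := rfl
@[simp] lemma one_d : (1 : G).d = 0 := rfl
@[simp] lemma one_n : (1 : G).n = 0 := rfl
@[simp] lemma inv_m (x : G) : (x⁻¹).m = -act (-sh (-x.n) x.d) (-x.n) x.m := rfl
@[simp] lemma inv_d (x : G) : (x⁻¹).d = -sh (-x.n) x.d := rfl
@[simp] lemma inv_n (x : G) : (x⁻¹).n = -x.n := rfl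

noncomputable instance : Group G := Group.ofLeftAxioms
  (fun x y z => by
    refine G.ext ?_ ?_ (add_assoc _ _ _)
    · ext1 j; simp [lam_add, lam_sh, sub_sub]; ring
    · ext1 j; simp [sub_sub]; ring)
  (fun x => by ext1 <;> simp)
  (fun x => by ext1 <;> simp)

/-- the subgroup of index two -/
def T : Subgroup G where
  carrier := {g | chi g.m = (g.n : ZMod 2)}
  mul_mem' := fun {a b} ha hb => by
    simp only [Set.mem_setOf_eq, mul_m, mul_n, map_add, chi_act] at ha hb ⊢
    rw [ha, hb]; push_cast; rfl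
  one_mem' := by simp
  inv_mem' := fun {a} ha => by
    simp only [Set.mem_setOf_eq, inv_m, inv_n, map_neg, chi_act] at ha ⊢
    rw [ha]; push_cast; rfl

lemma mem_T (g : G) : g ∈ T ↔ chi g.m = (g.n : ZMod 2) := Iff.rfl

lemma mul_inv_mem {g h : G} (hg : g ∉ T) (hh : h ∉ T) : g⁻¹ * h ∈ T ∧ g * h⁻¹ ∈ T := by
  rw [mem_T] at hg hh
  simp only [mem_T, mul_m, mul_n, inv_m, inv_n, map_add, map_neg, chi_act]
  push_cast
  generalize chi g.m = a at *
  generalize chi h.m = b at *
  generalize (g.n : ZMod 2) = c at *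
  generalize (h.n : ZMod 2) = e at *
  revert a b c e; decide

/-- doubling of the normal abelian part -/
noncomputable def dbl : G →* G := MonoidHom.mk' (fun g => ⟨(2 : R) • g.m, g.d, g.n⟩) (fun a b => by
  refine G.ext ?_ rfl rfl
  ext1 j; simp; ring)

lemma dbl_inj : Function.Injective dbl := by
  intro a b h
  have h2 := congrArg G.d h
  have h3 := congrArg G.n h
  refine G.ext ?_ h2 h3
  ext1 j
  have := congrArg (fun g : G => g.m j) h
  exact mul_left_cancel₀ two_ne this

lemma dbl_not_surj : ¬ Function.Surjective dbl := by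
  intro h
  obtain ⟨g, hg⟩ := h ⟨Finsupp.single 0 1, 0, 0⟩
  have h1 : (2 : R) • g.m = Finsupp.single 0 1 := congrArg G.m hg
  have := congrArg chi h1
  rw [chi_smul, rho_two, chi_single, map_one] at this
  simp at this

end Pool.Agent.H9.CoH1
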