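import Pool.Agent.H9.CoH1

/-! Generation lemma and co-hopficity of the index-two subgroup. -/
namespace Pool.Agent.H9.CoH2
open Pool.Agent.H9.CoH1

noncomputable def tau (m : ℤ →₀ R) : G := ⟨m, 0, 0⟩

@[simp] lemma tau_m (m : ℤ →₀ R) : (tau m).m = m := rfl
@[simp] lemma tau_d (m : ℤ →₀ R) : (tau m).d = 0 := rfl
@[simp] lemma tau_n (m : ℤ →₀ R) : (tau m).n = 0 := rfl

lemma tau_add (m m' : ℤ →₀ R) : tau (m + m') = tau m * tau m' := by ext1 <;> simp
lemma tau_zero : tau 0 = 1 := rfl
lemma tau_neg (m : ℤ →₀ R) : tau (-m) = (tau m)⁻¹ := by ext1 <;> simp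
lemma conj_tau (g : G) (m : ℤ →₀ R) : g * tau m = tau (act g.d g.n m) * g := by
  ext1 <;> simp [add_comm]

/-- the linear part -/
noncomputable def lin : G →* G := MonoidHom.mk' (fun g => ⟨0, g.d, g.n⟩) (fun a b => by
  ext1 <;> simp)

lemma lin_all (K : Subgroup G) (i : ℤ) (δ : ℤ →₀ ℤ) (h1 : (⟨0, Finsupp.single i 1, 0⟩ : G) ∈ K)
    (h2 : (⟨0, δ, 1⟩ : G) ∈ K) (d : ℤ →₀ ℤ) (n : ℤ) : (⟨0, d, n⟩ : G) ∈ K := by
  have key : ∀ j : ℤ, (⟨0, δ, 1⟩ : G) * ⟨0, Finsupp.single j 1, 0⟩ =
      ⟨0, Finsupp.single (j + 1) 1, 0⟩ * ⟨0, δ, 1⟩ := by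
    intro j
    ext1 <;> simp [sh_single, add_comm]
  have ha : ∀ j : ℤ, (⟨0, Finsupp.single j 1, 0⟩ : G) ∈ K := by
    intro j
    induction j using Int.inductionOn' (b := i) with
    | zero => exact h1
    | succ k _ ih =>
      have := K.mul_mem h2 ih
      rw [key] at this
      exact (K.mul_mem_cancel_right h2).1 this
    | pred k _ ih =>
      have := K.mul_mem ih h2
      rw [show k = k - 1 + 1 by ring, ← key] at this
      exact (K.mul_mem_cancel_left h2).1 this
  let D : AddSubgroup (ℤ →₀ ℤ) :=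
    { carrier := {d | (⟨0, d, 0⟩ : G) ∈ K}
      add_mem' := fun {a b} ha hb => by
        have := K.mul_mem ha hb
        have e : (⟨0, a, 0⟩ : G) * ⟨0, b, 0⟩ = ⟨0, a + b, 0⟩ := by ext1 <;> simp
        rwa [e] at this
      zero_mem' := K.one_mem
      neg_mem' := fun {a} ha => by
        have := K.inv_mem ha
        have e : (⟨0, a, 0⟩ : G)⁻¹ = ⟨0, -a, 0⟩ := by ext1 <;> simp
        rwa [e] at this }
  have hb : ∀ d, d ∈ D := by
    intro d
    induction d using Finsupp.induction_linear with
    | zero => exact D.zero_mem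
    | add f g hf hg => exact D.add_mem hf hg
    | single a k =>
      have := D.zsmul_mem (show Finsupp.single a 1 ∈ D from ha a) k
      simpa using this
  have hc : (⟨0, 0, 1⟩ : G) ∈ K := by
    have := K.mul_mem (hb (-δ)) h2
    have e : (⟨0, -δ, 0⟩ : G) * ⟨0, δ, 1⟩ = ⟨0, 0, 1⟩ := by ext1 <;> simp
    rwa [e] at this
  have hd : ∀ n : ℤ, (⟨0, 0, n⟩ : G) ∈ K := by
    intro n
    induction n using Int.induction_on with
    | zero => exact K.one_mem
    | succ k ih =>
      have := K.mul_mem ih hc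
      have e : (⟨0, 0, (k : ℤ)⟩ : G) * ⟨0, 0, 1⟩ = ⟨0, 0, k + 1⟩ := by ext1 <;> simp
      rwa [e] at this
    | pred k ih =>
      have := K.mul_mem ih (K.inv_mem hc)
      have e : (⟨0, 0, -(k : ℤ)⟩ : G) * (⟨0, 0, 1⟩ : G)⁻¹ = ⟨0, 0, -k - 1⟩ := by
        ext1 <;> simp [sub_eq_add_neg]
      rwa [e] at this
  have := K.mul_mem (hb d) (hd n)
  have e : (⟨0, d, 0⟩ : G) * ⟨0, 0, n⟩ = ⟨0, d, n⟩ := by ext1 <;> simp
  rwa [e] at this

theorem gen (K : Subgroup G) (hK : K ≤ T) (i : ℤ) (B A : G) (hB : B ∈ K) (hA : A ∈ K)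
    (hBd : B.d = Finsupp.single i 1) (hBn : B.n = 0) (hAn : A.n = 1) (c c' : R)
    (hc : rho c = 1) (h2 : tau (Finsupp.single i (2 * c)) ∈ K)
    (h3 : tau (Finsupp.single i c + Finsupp.single (i + 1) c') ∈ K) : T ≤ K := by
  have hlin : ∀ d n, ∃ g ∈ K, g.d = d ∧ g.n = n := by
    intro d n
    have := lin_all (K.map lin) i A.d ⟨B, hB, G.ext rfl hBd hBn⟩ ⟨A, hA, G.ext rfl rfl hAn⟩ d n
    obtain ⟨g, hg, e⟩ := this
    have e1 := congrArg G.d e
    have e2 := congrArg G.n e
    exact ⟨g, hg, e1, e2⟩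
  let N : AddSubgroup (ℤ →₀ R) :=
    { carrier := {m | tau m ∈ K}
      add_mem' := fun {a b} ha hb => by
        have := K.mul_mem ha hb
        rwa [← tau_add] at this
      zero_mem' := K.one_mem
      neg_mem' := fun {a} ha => by
        have := K.inv_mem ha
        rwa [← tau_neg] at this }
  have hact : ∀ d n m, m ∈ N → act d n m ∈ N := by
    intro d n m hm
    obtain ⟨g, hg, rfl, rfl⟩ := hlin d n
    have := K.mul_mem hg hm
    rw [conj_tau] at this
    exact (K.mul_mem_cancel_right hg).1 this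
  have he : ∀ j (r : R), rho r = 0 → Finsupp.single j r ∈ N := by
    intro j r hr
    obtain ⟨r, rfl⟩ := even_of_rho hr
    obtain ⟨u, rfl⟩ := unit_of_rho hc
    obtain ⟨a, d, had⟩ := exists_int_lam i (r * ↑u⁻¹)
    have h4 := hact 0 (j - i) _ (N.zsmul_mem (hact d 0 _ h2) a)
    rw [act_single, Finsupp.smul_single, act_single] at h4
    have e1 : i + 0 + (j - i) = j := by ring
    rw [e1, add_zero] at h4
    have e2 : ((lam 0 j : Rˣ) : R) * a • ((lam d i : R) * (2 * ↑u)) = 2 * r := by
      rw [lam_zero, Units.val_one, one_mul, zsmul_eq_mul, ← mul_assoc, ← had]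
      rw [mul_left_comm, mul_assoc, Units.inv_mul, mul_one]
    rwa [e2] at h4
  have hc' : rho c' = 1 := by
    have := hK h3
    rw [mem_T] at this
    simp only [tau_m, map_add, chi_single, hc, tau_n, Int.cast_zero] at this
    rcases z2 (rho c') with h | h
    · rw [h] at this; simp at this
    · exact h
  have hf0 : Finsupp.single i (1 : R) - Finsupp.single (i + 1) 1 ∈ N := by
    have := N.sub_mem (N.sub_mem (show _ ∈ N from h3) (he i (c - 1) (by simp [hc])))
      (he (i + 1) (c' + 1) (by rw [map_add, hc', map_one]; rfl))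
    convert this using 1
    rw [Finsupp.single_sub, Finsupp.single_add]; abel
  have hf1 : ∀ j : ℤ, Finsupp.single j (1 : R) - Finsupp.single (j + 1) 1 ∈ N := by
    intro j
    have := hact 0 (j - i) _ hf0
    convert this using 1
    ext1 k
    simp only [Finsupp.coe_sub, Pi.sub_apply, act_apply, lam_zero, Units.val_one, one_mul,
      Finsupp.single_apply]
    congr 1
    · exact if_congr (by omega) rfl rfl
    · exact if_congr (by omega) rfl rfl
  have hf2 : ∀ j : ℤ, Finsupp.single j (1 : R) - Finsupp.single 0 1 ∈ N := by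
    intro j
    induction j using Int.induction_on with
    | zero => simp
    | succ k ih =>
      have := N.sub_mem ih (hf1 k)
      convert this using 1; abel
    | pred k ih =>
      have := N.add_mem ih (hf1 (-k - 1))
      rw [sub_add_cancel] at this
      convert this using 1; abel
  have hg : ∀ m : ℤ →₀ R, ∃ r : R, rho r = chi m ∧ m - Finsupp.single 0 r ∈ N := by
    intro m
    induction m using Finsupp.induction_linear with
    | zero => exact ⟨0, by simp, by simp⟩
    | add f g hf hg =>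
      obtain ⟨r, hr, h⟩ := hf
      obtain ⟨s, hs, h'⟩ := hg
      refine ⟨r + s, by simp [hr, hs], ?_⟩
      have := N.add_mem h h'
      convert this using 1
      rw [Finsupp.single_add]; abel
    | single a k =>
      refine ⟨k, by simp, ?_⟩
      rcases z2 (rho k) with h | h
      · exact N.sub_mem (he _ _ h) (he _ _ h)
      · have h' : rho (k - 1) = 0 := by simp [h]
        have := N.add_mem (N.sub_mem (he a _ h') (he 0 _ h')) (hf2 a)
        convert this using 1
        rw [Finsupp.single_sub, Finsupp.single_sub]; abel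
  have hM : ∀ m, chi m = 0 → m ∈ N := by
    intro m hm
    obtain ⟨r, hr, h⟩ := hg m
    have := N.add_mem h (he 0 r (hr.trans hm))
    rwa [sub_add_cancel] at this
  intro t ht
  obtain ⟨k, hk, hd, hn⟩ := hlin t.d t.n
  have e : t = tau (t.m - k.m) * k := by
    ext1 <;> simp [hd, hn]
  rw [e]
  refine K.mul_mem (hM _ ?_) hk
  have := hK hk
  rw [mem_T] at this ht
  rw [map_sub, this, ht, hn, sub_self]

lemma eigen {d : ℤ →₀ ℤ} {n : ℤ} {u : ℤ →₀ R} {r : R} (hu : u ≠ 0) (hr : r ≠ 0)
    (h : act d n u = r • u) : n = 0 := by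
  have hne : u.support.Nonempty := Finsupp.support_nonempty_iff.2 hu
  have key : ∀ s, u s ≠ 0 → u (s - n) ≠ 0 := by
    intro s hs h0
    have := congrArg (fun m : ℤ →₀ R => m s) h
    simp only [act_apply, h0, mul_zero, Finsupp.smul_apply, smul_eq_mul] at this
    exact mul_ne_zero hr hs this.symm
  have h1 := u.support.min'_le _ (Finsupp.mem_support_iff.2
    (key _ (Finsupp.mem_support_iff.1 (u.support.min'_mem hne))))
  have h2 := u.support.le_max' _ (Finsupp.mem_support_iff.2
    (key _ (Finsupp.mem_support_iff.1 (u.support.max'_mem hne))))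
  omega

lemma int_zero {x : ℤ} (h : ∀ N : ℕ, Odd N → (N : ℤ) ∣ x) : x = 0 :=
  Int.eq_zero_of_abs_lt_dvd (h (2 * x.natAbs + 1) ⟨_, rfl⟩) (by
    push_cast; have := abs_nonneg x; omega)

lemma pow_n (g : G) (N : ℕ) : (g ^ N).n = N * g.n := by
  induction N with
  | zero => simp
  | succ k ih => rw [pow_succ, mul_n, ih]; push_cast; ring

lemma pow_d (g : G) (h : g.n = 0) (N : ℕ) (i : ℤ) : (g ^ N).d i = N * g.d i := by
  induction N with
  | zero => simp
  | succ k ih =>
    rw [pow_succ, mul_d, pow_n, h, mul_zero, sh_id, Finsupp.add_apply, ih]; push_cast; ring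

lemma tau_pow (m : ℤ →₀ R) (N : ℕ) : tau m ^ N = tau (N • m) := by
  induction N with
  | zero => simp [tau_zero]
  | succ k ih => rw [pow_succ, ih, succ_nsmul, tau_add]

noncomputable def tt (m : chi.ker) : T := ⟨tau m, by
  rw [mem_T]; simpa using AddMonoidHom.mem_ker.1 m.2⟩

lemma tt_add (m m' : chi.ker) : tt (m + m') = tt m * tt m' := Subtype.ext (tau_add _ _)

noncomputable def bb : T := ⟨⟨0, Finsupp.single 0 1, 0⟩, by rw [mem_T]; simp⟩
noncomputable def aa : T := ⟨⟨Finsupp.single 0 1, 0, 1⟩, by rw [mem_T]; simp⟩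
noncomputable def bb' : T := ⟨⟨Finsupp.single 0 (1 - pU (-1)), Finsupp.single 1 1, 0⟩, by
  rw [mem_T]; simp [rho_unit]⟩
noncomputable def v2 (j : ℤ) : chi.ker := ⟨Finsupp.single j 2, by
  rw [AddMonoidHom.mem_ker, chi_single, rho_two]⟩
noncomputable def v01 : chi.ker := ⟨Finsupp.single 0 1 + Finsupp.single (0 + 1) (-1), by
  rw [AddMonoidHom.mem_ker, map_add, chi_single, chi_single, map_neg, add_neg_cancel]⟩

theorem cohopf (φ : T →* T) (hφ : Function.Injective φ) : Function.Surjective φ := by
  have s1 : ∀ m : chi.ker, (φ (tt m)).1.n = 0 ∧ (φ (tt m)).1.d = 0 := by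
    have hroot : ∀ (m : chi.ker) (N : ℕ), Odd N → ∃ m' : chi.ker,
        (φ (tt m)).1 = (φ (tt m')).1 ^ N := by
      intro m N hN
      refine ⟨⟨oinv N hN • m.1, ?_⟩, ?_⟩
      · rw [AddMonoidHom.mem_ker, chi_smul, AddMonoidHom.mem_ker.1 m.2, mul_zero]
      · rw [← SubgroupClass.coe_pow, ← map_pow]
        congr 2
        apply Subtype.ext
        rw [SubgroupClass.coe_pow]
        simp only [tt]
        rw [tau_pow, ← Nat.cast_smul_eq_nsmul R, smul_smul, oinv_mul, one_smul]
    have hn : ∀ m : chi.ker, (φ (tt m)).1.n = 0 := fun m => int_zero fun N hN => by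
      obtain ⟨m', h⟩ := hroot m N hN
      rw [h, pow_n]; exact dvd_mul_right _ _
    refine fun m => ⟨hn m, ?_⟩
    ext1 i
    refine int_zero fun N hN => ?_
    obtain ⟨m', h⟩ := hroot m N hN
    rw [h, pow_d _ (hn m')]; exact dvd_mul_right _ _
  let f : chi.ker →+ (ℤ →₀ R) := AddMonoidHom.mk' (fun m => (φ (tt m)).1.m) (fun a b => by
    simp only [tt_add, map_mul, Subgroup.coe_mul, mul_m, (s1 a).1, (s1 a).2, act_id])
  have hf : ∀ m, (φ (tt m)).1 = tau (f m) := fun m => G.ext rfl (s1 m).2 (s1 m).1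
  have hfi : ∀ m, f m = 0 → m = 0 := by
    intro m hm
    have h1 : φ (tt m) = φ 1 := by
      rw [map_one]; apply Subtype.ext; rw [hf, hm]; rfl
    have := congrArg (fun t : T => t.1.m) (hφ h1)
    exact Subtype.ext this
  have hconj : ∀ (t : T) (m m' : chi.ker), (m' : ℤ →₀ R) = act t.1.d t.1.n m →
      f m' = act (φ t).1.d (φ t).1.n (f m) := by
    intro t m m' h
    have e : t * tt m = tt m' * t := Subtype.ext (by
      simp only [Subgroup.coe_mul, tt]; rw [conj_tau, h])
    have := congrArg (fun s : T => (φ s).1.m) e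
    simp only [map_mul, Subgroup.coe_mul, hf, mul_m, tau_m, tau_d, tau_n, act_id] at this
    rw [add_comm] at this
    exact (add_right_cancel this).symm
  set B := (φ bb).1 with hB
  set A := (φ aa).1 with hA
  set B' := (φ bb').1 with hB'
  have hu0 : ∀ j, f (v2 j) ≠ 0 := by
    intro j h
    have := congrArg (fun m : chi.ker => (m : ℤ →₀ R) j) (hfi _ h)
    simp only [v2, Finsupp.single_eq_same, ZeroMemClass.coe_zero, Finsupp.coe_zero,
      Pi.zero_apply] at this
    exact two_ne this
  have heig : ∀ j, act B.d B.n (f (v2 j)) = (pU j : R) • f (v2 j) := by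
    intro j
    rw [← hconj bb (v2 j) (pr j • v2 j), map_nsmul, pU_val, Nat.cast_smul_eq_nsmul]
    simp only [AddSubgroupClass.coe_nsmul, v2, bb]
    rw [act_single, lam_single, Finsupp.smul_single]
    simp [pU_val]
  have hBn : B.n = 0 := eigen (hu0 0) (pU 0).ne_zero (heig 0)
  have hsupp : ∀ j s, f (v2 j) s ≠ 0 → B.d = Finsupp.single (s - j) 1 := by
    intro j s hs
    have := congrArg (fun m : ℤ →₀ R => m s) (heig j)
    simp only [act_apply, hBn, sub_zero, Finsupp.smul_apply, smul_eq_mul] at this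
    have h2 := Units.ext (mul_right_cancel₀ hs this)
    apply lam_inj (j := s)
    rw [h2, lam_single, zpow_one, sub_sub_cancel]
  obtain ⟨i, hi⟩ := Finsupp.ne_iff.1 (hu0 0)
  have hBd : B.d = Finsupp.single i 1 := by simpa using hsupp 0 i hi
  have hs2 : ∀ j s, f (v2 j) s ≠ 0 → s = j + i := by
    intro j s hs
    have := (hsupp j s hs).symm.trans hBd
    have := Finsupp.single_left_injective one_ne_zero this
    omega
  have hAn : A.n = 1 := by
    obtain ⟨s, hs⟩ := Finsupp.ne_iff.1 (hu0 1)
    have h1 := hconj aa (v2 0) (v2 1) (by simp [v2, aa, act_single])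
    have h2 := hs2 1 s hs
    rw [h1, act_apply, ← hA] at hs
    have h3 := hs2 0 _ (right_ne_zero_of_mul hs)
    omega
  have hg2 : (2 : R) • f v01 = f (v2 0) - f (v2 1) := by
    rw [← map_sub, two_smul, ← map_add]
    congr 1
    apply Subtype.ext
    simp only [v01, v2, AddSubgroup.coe_add, AddSubgroupClass.coe_sub, zero_add]
    rw [show (2 : R) = 1 + 1 by norm_num, Finsupp.single_add, Finsupp.single_add,
      Finsupp.single_neg]
    abel
  set c := f v01 i with hc
  have hv0 : f (v2 0) = Finsupp.single i (2 * c) := by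
    ext1 j
    by_cases h : j = i
    · subst h
      have := congrArg (fun m : ℤ →₀ R => m j) hg2
      have h0 : f (v2 1) j = 0 := by
        by_contra h; have := hs2 1 j h; omega
      simp only [Finsupp.smul_apply, smul_eq_mul, Finsupp.coe_sub, Pi.sub_apply, h0,
        sub_zero] at this
      rw [Finsupp.single_eq_same, ← this]
    · rw [Finsupp.single_eq_of_ne h]
      by_contra h'; have := hs2 0 j h'; omega
  have hv01 : f v01 = Finsupp.single i c + Finsupp.single (i + 1) (f v01 (i + 1)) := by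
    ext1 j
    by_cases h : j = i
    · subst h; simp [hc]
    · by_cases h' : j = i + 1
      · subst h'; simp
      · have := congrArg (fun m : ℤ →₀ R => m j) hg2
        have h0 : f (v2 1) j = 0 := by
          by_contra h; have := hs2 1 j h; omega
        have h1 : f (v2 0) j = 0 := by
          by_contra h; have := hs2 0 j h; omega
        simp only [Finsupp.smul_apply, smul_eq_mul, Finsupp.coe_sub, Pi.sub_apply, h0, h1,
          sub_zero] at this
        rw [Finsupp.add_apply, Finsupp.single_eq_of_ne h, Finsupp.single_eq_of_ne h', add_zero]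
        exact (mul_eq_zero.1 this).resolve_left two_ne
  -- relations
  have r1 : A * B = B' * A := by
    have e : aa * bb = bb' * aa := Subtype.ext (by
      ext1 <;> simp [aa, bb, bb', act_single, lam_single, sh_single])
    have := congrArg (fun s : T => (φ s).1) e
    simpa only [map_mul, Subgroup.coe_mul] using this
  have hB'n : B'.n = 0 := by
    have := congrArg G.n r1
    simp only [mul_n] at this
    omega
  have hB'd : B'.d = Finsupp.single (i + 1) 1 := by
    have := congrArg G.d r1
    simp only [mul_d, hAn, hBd, hB'n, sh_id, sh_single] at this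
    rw [add_comm] at this
    exact (add_right_cancel this).symm
  obtain ⟨k, hk⟩ : ∃ k : ℤ, ((pU 0 : R) - 1) * (1 - pU (-1)) = k * 2 := by
    obtain ⟨a, ha⟩ := pr_odd 0
    refine ⟨a * (1 - pr (-1)), ?_⟩
    rw [pU_val, pU_val, ha]; push_cast; ring
  have r2 : B * B' = tau (Finsupp.single i ((pU 0 - 1) * (1 - pU (-1)) * c)) * (B' * B) := by
    have e : bb * bb' = tt (k • v2 0) * (bb' * bb) := Subtype.ext (by
      ext1
      · simp only [bb, bb', tt, v2, Subgroup.coe_mul, mul_m, tau_m, tau_d, tau_n, act_id,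
          act_single, act_zero, zero_add, add_zero, lam_single, AddSubgroupClass.coe_zsmul,
          Finsupp.smul_single, zsmul_eq_mul, ← hk, ← Finsupp.single_add, sub_zero, zpow_one,
          lam_zero, Units.val_one]
        congr 1; ring
      · simp [bb, bb', tt, add_comm]
      · simp [bb, bb', tt])
    have := congrArg (fun s : T => (φ s).1) e
    simp only [map_mul, Subgroup.coe_mul, hf, map_zsmul, hv0, Finsupp.smul_single,
      zsmul_eq_mul] at this
    rw [hk, mul_assoc]; exact this
  have e1 : ∀ j, A.m j + lam A.d j * B.m (j - 1) = B'.m j + pU (j - 1 - i) * A.m j := by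
    intro j
    have := congrArg (fun g : G => g.m j) r1
    simp only [mul_m, Finsupp.add_apply, act_apply, hAn, hB'n, hB'd, lam_single, zpow_one,
      sub_zero] at this
    rw [this, show j - (i + 1) = j - 1 - i by ring]
  have e2 : ∀ j, B.m j + pU (j - i) * B'.m j = (pU (j - i) - 1) * (1 - pU (j - 1 - i)) *
      (Finsupp.single i c : ℤ →₀ R) j + (B'.m j + pU (j - 1 - i) * B.m j) := by
    intro j
    have := congrArg (fun g : G => g.m j) r2
    simp only [mul_m, Finsupp.add_apply, act_apply, hBn, hBd, hB'n, hB'd, lam_single, zpow_one,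
      sub_zero, tau_m, tau_d, tau_n, act_id] at this
    rw [this, show j - (i + 1) = j - 1 - i by ring]
    congr 1
    by_cases h : j = i
    · subst h; simp
    · simp [Finsupp.single_eq_of_ne h]
  have step : ∀ j w, B.m (j - 1) = (1 - pU (j - 1 - i)) * w →
      B.m j = (1 - pU (j - i)) * (A.m j - (Finsupp.single i c : ℤ →₀ R) j + lam A.d j * w) := by
    intro j w hw
    apply mul_left_cancel₀ (one_sub_ne (j - 1 - i))
    have h1 := e1 j
    have h2 := e2 j
    rw [hw] at h1
    linear_combination h2 - (1 - (pU (j - i) : R)) * h1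
  have hdiv : ∀ j, ∃ w, B.m j = (1 - pU (j - i)) * w := by
    obtain ⟨j0, hj0⟩ := B.m.support.bddBelow
    have hz : ∀ j, j < j0 → B.m j = 0 := fun j hj => by
      by_contra h
      exact absurd (hj0 (Finset.mem_coe.2 (Finsupp.mem_support_iff.2 h))) (not_le.2 hj)
    intro j
    by_cases h : j < j0
    · exact ⟨0, by rw [hz j h, mul_zero]⟩
    · have h' : j0 - 1 ≤ j := by omega
      induction j, h' using Int.le_induction with
      | base => exact ⟨0, by rw [hz _ (by omega), mul_zero]⟩
      | succ n hn ih =>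
        by_cases h2 : n < j0
        · exact ⟨_, step (n + 1) 0 (by rw [add_sub_cancel_right, hz n h2, mul_zero])⟩
        · obtain ⟨w, hw⟩ := ih h2
          exact ⟨_, step (n + 1) w (by rw [add_sub_cancel_right]; exact hw)⟩
  choose w hw using hdiv
  let W : ℤ →₀ R := Finsupp.onFinset B.m.support w (fun j hj => by
    rw [Finsupp.mem_support_iff, hw]; exact mul_ne_zero (one_sub_ne _) hj)
  have hW : W = A.m - Finsupp.single i c + act A.d 1 W := by
    ext1 j
    apply mul_left_cancel₀ (one_sub_ne (j - i))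
    have := step j _ (hw (j - 1))
    rw [hw j] at this
    simpa [W] using this
  have hrc : rho c = 1 := by
    have h1 := congrArg chi hW
    have h2 := (φ aa).2
    rw [mem_T, ← hA, hAn] at h2
    rw [map_add, map_sub, chi_act, chi_single, h2] at h1
    have : ((1 : ℤ) : ZMod 2) - rho c = 0 := by linear_combination -h1
    rw [← sub_eq_zero.1 this]; simp
  have hmem : ∀ t : T, (φ t).1 ∈ φ.range.map T.subtype := fun t => ⟨φ t, ⟨t, rfl⟩, rfl⟩
  have := gen (φ.range.map T.subtype) (Subgroup.map_subtype_le _) i B A (hmem _) (hmem _) hBd hBn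
    hAn c (f v01 (i + 1)) hrc (by rw [← hv0, ← hf]; exact hmem _)
    (by rw [← hv01, ← hf]; exact hmem _)
  intro t
  obtain ⟨s, ⟨r, rfl⟩, e⟩ := this t.2
  exact ⟨r, Subtype.ext e⟩

/-- every subgroup of `T` containing four explicit elements is `T` -/
theorem gen' (K : Subgroup G) (hK : K ≤ T) (h1 : bb.1 ∈ K) (h2 : aa.1 ∈ K)
    (h3 : (tt (v2 0)).1 ∈ K) (h4 : (tt v01).1 ∈ K) : T ≤ K :=
  gen K hK 0 bb.1 aa.1 h1 h2 rfl rfl rfl 1 (-1) (map_one _) (by rw [mul_one]; exact h3) h4

end Pool.Agent.H9.CoH2
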