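import Pool.Agent.H9.CoH2

/-! Semigroup form of the co-hopficity example. -/
namespace Pool.Agent.H9.CoH3
open Pool.Agent.H9.CoH1 Pool.Agent.H9.CoH2

def T' : Subsemigroup G := T.toSubmonoid.toSubsemigroup

lemma mem_T' (g : G) : g ∈ T' ↔ g ∈ T := Iff.rfl

open Classical in
noncomputable def gens : Finset G :=
  {bb.1, aa.1, (tt (v2 0)).1, (tt v01).1, bb.1⁻¹, aa.1⁻¹, (tt (v2 0)).1⁻¹, (tt v01).1⁻¹}

lemma fg : ∃ A : Finset G, Subsemigroup.closure (A : Set G) = T' := by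
  have hsub : (gens : Set G) ⊆ T' := by
    intro g hg
    simp only [gens, Finset.coe_insert, Finset.coe_singleton, Set.mem_insert_iff,
      Set.mem_singleton_iff] at hg
    rcases hg with rfl | rfl | rfl | rfl | rfl | rfl | rfl | rfl <;>
      first | exact Subtype.prop _ | exact T.inv_mem (Subtype.prop _)
  have hle : Subsemigroup.closure (gens : Set G) ≤ T' := Subsemigroup.closure_le.2 hsub
  have hinv : ∀ g ∈ (gens : Set G), g⁻¹ ∈ (gens : Set G) := by
    intro g hg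
    simp only [gens, Finset.coe_insert, Finset.coe_singleton, Set.mem_insert_iff,
      Set.mem_singleton_iff] at hg ⊢
    rcases hg with rfl | rfl | rfl | rfl | rfl | rfl | rfl | rfl <;> simp
  have hb : bb.1 ∈ (gens : Set G) := by simp [gens]
  let K : Subgroup G :=
    { carrier := Subsemigroup.closure (gens : Set G)
      mul_mem' := fun ha hb => Subsemigroup.mul_mem _ ha hb
      one_mem' := by
        have := Subsemigroup.mul_mem _ (Subsemigroup.subset_closure hb)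
          (Subsemigroup.subset_closure (hinv _ hb))
        rwa [mul_inv_cancel] at this
      inv_mem' := fun {a} ha => by
        induction ha using Subsemigroup.closure_induction with
        | mem x hx => exact Subsemigroup.subset_closure (hinv _ hx)
        | mul x y _ _ hx hy =>
          rw [mul_inv_rev]; exact Subsemigroup.mul_mem _ hy hx }
  refine ⟨gens, le_antisymm hle ?_⟩
  exact gen' K hle (Subsemigroup.subset_closure hb) (Subsemigroup.subset_closure (by simp [gens]))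
    (Subsemigroup.subset_closure (by simp [gens])) (Subsemigroup.subset_closure (by simp [gens]))

lemma cohopf' (f : T' →ₙ* T') (hf : Function.Injective f) : Function.Surjective f :=
  cohopf (MonoidHom.mk' (M := T) (G := T) (fun t => f t) (fun a b => map_mul f a b)) hf

noncomputable def u0 : G := ⟨0, 0, 1⟩

lemma u0_not : u0 ∉ T := by rw [mem_T]; simp [u0]

/-- the relative `H`-relation -/
abbrev Rel (u v : G) : Prop :=
  ((v = u ∨ ∃ t ∈ T', v = u * t) ∧ (u = v ∨ ∃ t ∈ T', u = v * t) ∧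
    (v = u ∨ ∃ t ∈ T', v = t * u) ∧ (u = v ∨ ∃ t ∈ T', u = t * v))

lemma rel_iff {u : G} (hu : u ∉ T) (v : G) : Rel u v ↔ v ∉ T := by
  constructor
  · rintro ⟨h | ⟨t, ht, h⟩, -⟩
    · rwa [h]
    · rw [h]; exact fun h' => hu ((T.mul_mem_cancel_right ht).1 h')
  · intro hv
    refine ⟨Or.inr ⟨_, (mul_inv_mem hu hv).1, by simp⟩, Or.inr ⟨_, (mul_inv_mem hv hu).1, by simp⟩,
      Or.inr ⟨_, (mul_inv_mem hv hu).2, by simp⟩, Or.inr ⟨_, (mul_inv_mem hu hv).2, by simp⟩⟩

lemma schutz (u : G) (hu : u ∉ T) (Γ : Set ({h : G // Rel u h} → {h : G // Rel u h}))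
    (hΓ : ∀ g : {h : G // Rel u h} → {h : G // Rel u h}, g ∈ Γ ↔
      (g = id ∨ ∃ t ∈ T', (∀ h : {h : G // Rel u h}, ∃ h' : {h : G // Rel u h}, h'.1 * t = h.1) ∧
        ∀ h : {h : G // Rel u h}, (g h).1 = h.1 * t))
    (φ : ({h : G // Rel u h} → {h : G // Rel u h}) → ({h : G // Rel u h} → {h : G // Rel u h}))
    (h1 : ∀ g ∈ Γ, φ g ∈ Γ) (h2 : ∀ g ∈ Γ, ∀ g' ∈ Γ, φ (g ∘ g') = φ g ∘ φ g')
    (h3 : Set.InjOn φ Γ) : ∀ g ∈ Γ, ∃ g' ∈ Γ, φ g' = g := by
  let ρ : T → {h : G // Rel u h} → {h : G // Rel u h} := fun t h =>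
    ⟨h.1 * t, (rel_iff hu _).2 fun h' => (rel_iff hu _).1 h.2 ((T.mul_mem_cancel_right t.2).1 h')⟩
  have hρ : ∀ g, g ∈ Γ ↔ ∃ t, g = ρ t := by
    intro g
    rw [hΓ]
    constructor
    · rintro (rfl | ⟨t, ht, -, h⟩)
      · exact ⟨1, funext fun h => Subtype.ext (by simp [ρ])⟩
      · exact ⟨⟨t, ht⟩, funext fun x => Subtype.ext (h x)⟩
    · rintro ⟨t, rfl⟩
      exact Or.inr ⟨t, t.2, fun h => ⟨ρ t⁻¹ h, by simp [ρ]⟩, fun h => rfl⟩
  have hinj : Function.Injective ρ := by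
    intro a b h
    have := congrArg Subtype.val (congrFun h ⟨u, (rel_iff hu _).2 hu⟩)
    exact Subtype.ext (mul_left_cancel this)
  have hmul : ∀ a b, ρ (a * b) = ρ b ∘ ρ a := fun a b =>
    funext fun h => Subtype.ext (by simp [ρ, mul_assoc])
  have hm : ∀ t, ρ t ∈ Γ := fun t => (hρ _).2 ⟨t, rfl⟩
  choose f hf using fun t => (hρ _).1 (h1 _ (hm t))
  have hs := cohopf (MonoidHom.mk' f (fun a b => hinj (by
    rw [← hf, hmul, h2 _ (hm _) _ (hm _), hf, hf, hmul]))) (fun a b h => hinj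
      (h3 (hm a) (hm b) (by rw [hf, hf]; exact congrArg ρ h)))
  intro g hg
  obtain ⟨t, rfl⟩ := (hρ g).1 hg
  obtain ⟨s, hs⟩ := hs t
  exact ⟨ρ s, hm s, by rw [hf]; exact congrArg ρ hs⟩

end Pool.Agent.H9.CoH3
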