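import Mathlib

/-! Dyadic martingales in iterated `ℓ₂(ℓ₄)` sums: the decoupling inequality fails. -/
namespace Pool.Agent.H9.DC
open Finset

/-- predictable dyadic processes, with labelled leaves -/
inductive Tr (X : Type) : Type
  | leaf (a : X) : Tr X
  | node (x : X) (t f : Tr X) : Tr X

variable {X Y : Type} [NormedAddCommGroup X] [NormedSpace ℝ X] [NormedAddCommGroup Y]
  [NormedSpace ℝ Y] {θ : ℝ}

/-- expectation; `θ = 1` is the coupled and `θ = 0` the decoupled sum -/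
noncomputable def Ex (θ : ℝ) (φ : X → X → ℝ) : Tr X → X → ℝ
  | .leaf a, s => φ s a
  | .node x t f, s => ((1 + θ) * (Ex θ φ t (s + x) + Ex θ φ f (s - x)) +
      (1 - θ) * (Ex θ φ t (s - x) + Ex θ φ f (s + x))) / 4

/-- transport along `J` and continue at the leaves -/
def bind (J : X →ₗ[ℝ] Y) (k : X → Tr Y) : Tr X → Tr Y
  | .leaf a => k a
  | .node x t f => .node (J x) (bind J k t) (bind J k f)

lemma Ex_bind (J : X →ₗ[ℝ] Y) (k : X → Tr Y) (φ : Y → Y → ℝ) (y : Y) (t : Tr X) (s : X) :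
    Ex θ φ (bind J k t) (y + J s) = Ex θ (fun s a => Ex θ φ (k a) (y + J s)) t s := by
  induction t generalizing s with
  | leaf a => rfl
  | node x t f a b => simp only [bind, Ex, ← a, ← b, map_add, map_sub, add_assoc, add_sub_assoc]

omit [NormedSpace ℝ X] in
lemma Ex_le (h0 : 0 ≤ θ) (h1 : θ ≤ 1) (φ ψ χ : X → X → ℝ) (o p q c : ℝ)
    (h : ∀ s a, o * φ s a + p * ψ s a + q * χ s a ≤ c) (t : Tr X) (s : X) :
    o * Ex θ φ t s + p * Ex θ ψ t s + q * Ex θ χ t s ≤ c := by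
  induction t generalizing s with
  | leaf a => exact h s a
  | node x t f a b =>
    simp only [Ex]
    nlinarith [mul_le_mul_of_nonneg_left (add_le_add (a (s + x)) (b (s - x)))
      (show 0 ≤ 1 + θ by linarith), mul_le_mul_of_nonneg_left (add_le_add (a (s - x)) (b (s + x)))
      (sub_nonneg.2 h1)]

omit [NormedSpace ℝ X] in
lemma Ex_ge {φ : X → X → ℝ} (ψ χ : X → X → ℝ) (p q c : ℝ)
    (h : ∀ s a, p * ψ s a + q * χ s a + c ≤ φ s a) (t : Tr X) (s : X) :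
    p * Ex 1 ψ t s + q * Ex 1 χ t s + c ≤ Ex 1 φ t s := by
  linarith [Ex_le zero_le_one le_rfl ψ χ φ p q (-1) (-c) (fun s a => by linarith [h s a]) t s]

omit [NormedSpace ℝ X] in
lemma Ex_le' {φ : X → X → ℝ} (ψ χ : X → X → ℝ) (p q c : ℝ)
    (h : ∀ s a, φ s a ≤ p * ψ s a + q * χ s a + c) (t : Tr X) (s : X) :
    Ex 0 φ t s ≤ p * Ex 0 ψ t s + q * Ex 0 χ t s + c := by
  linarith [Ex_le le_rfl zero_le_one ψ χ φ (-p) (-q) 1 c (fun s a => by linarith [h s a]) t s]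

/-- depth -/
def dep : Tr X → ℕ
  | .leaf _ => 0
  | .node _ t f => max (dep t) (dep f) + 1

/-- the coefficients -/
def co : Tr X → (k : ℕ) → (Fin k → Bool) → X
  | .leaf _, _, _ => 0
  | .node x _ _, 0, _ => x
  | .node _ t f, k + 1, ε => co (if ε 0 then t else f) k (Fin.tail ε)

/-- the Rademacher sum -/
def rs (t : Tr X) {n : ℕ} (ε δ : Fin n → Bool) : X := ∑ j : Fin n,
  (if δ j then (1 : ℝ) else -1) • co t j fun i => ε (Fin.castLE j.isLt.le i)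

lemma rs_cons (x : X) (t f : Tr X) {n : ℕ} (ε δ : Fin n → Bool) (a b : Bool) :
    rs (.node x t f) (Fin.cons a ε) (Fin.cons b δ) =
      (if b then (1 : ℝ) else -1) • x + rs (if a then t else f) ε δ := by
  rw [rs, Fin.sum_univ_succ]
  rfl

lemma sum_cons {n : ℕ} (g : (Fin (n + 1) → Bool) → ℝ) :
    ∑ ε, g ε = ∑ ε : Fin n → Bool, g (Fin.cons true ε) + ∑ ε : Fin n → Bool, g (Fin.cons false ε) := by
  rw [← (Fin.consEquiv fun _ => Bool).sum_comp, Fintype.sum_prod_type, Fintype.sum_bool]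
  rfl

lemma conn (φ : X → ℝ) (n : ℕ) (t : Tr X) (h : dep t ≤ n) (s : X) :
    ∑ ε : Fin n → Bool, φ (s + rs t ε ε) = 2 ^ n * Ex 1 (fun s _ => φ s) t s ∧
    ∑ ε : Fin n → Bool, ∑ δ : Fin n → Bool, φ (s + rs t ε δ) =
      4 ^ n * Ex 0 (fun s _ => φ s) t s := by
  induction n generalizing t s with
  | zero => cases t <;> simp_all [rs, Ex, dep]
  | succ n ih =>
    obtain a | ⟨x, t, f⟩ := t
    · simp [rs, co, Ex, ← mul_assoc, ← mul_pow]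
      norm_num
    · obtain ⟨a, b⟩ := max_le_iff.1 (Nat.le_of_succ_le_succ h)
      simp only [sum_cons, rs_cons, sum_add_distrib, ← add_assoc, Ex, if_true, Bool.false_eq_true,
        if_false, one_smul, neg_smul, ← sub_eq_add_neg, ih t a, ih f b]
      constructor <;> ring

/-- the two-point inequality, stable under `ℓ₂`- and `ℓ₄`-sums -/
def Sm (X : Type) [NormedAddCommGroup X] : Prop :=
  ∀ x y : X, ‖x + y‖ ^ 4 + ‖x - y‖ ^ 4 ≤ 2 * (‖x‖ ^ 2 + 3 * ‖y‖ ^ 2) ^ 2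

omit [NormedSpace ℝ X] in
lemma Sm.sq (h : Sm X) (x y : X) :
    ‖x + y‖ ^ 2 + ‖x - y‖ ^ 2 ≤ 2 * ‖x‖ ^ 2 + 2 * 2 ^ 2 * ‖y‖ ^ 2 := (abs_le_of_sq_le_sq' (by
  nlinarith [h x y, sq_nonneg (‖x + y‖ ^ 2 - ‖x - y‖ ^ 2), sq_nonneg (‖y‖ ^ 2),
    sq_nonneg (‖x‖ * ‖y‖)]) (by positivity)).2

lemma cs {a b c d k A B : ℝ} (h0 : 0 ≤ k * (A * B)) (h1 : a ^ 2 + b ^ 2 ≤ k * A ^ 2)
    (h2 : c ^ 2 + d ^ 2 ≤ k * B ^ 2) : a * c + b * d ≤ k * (A * B) := (abs_le_of_sq_le_sq' (by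
  nlinarith [mul_le_mul h1 h2 (by positivity) (le_trans (by positivity) h1),
    sq_nonneg (a * d - b * c)]) h0).2

omit [NormedSpace ℝ X] [NormedSpace ℝ Y] in
lemma Sm.two (h1 : Sm X) (h2 : Sm Y) : Sm (WithLp 2 (X × Y)) := fun x y => by
  have a := h1 x.fst y.fst
  have b := h2 x.snd y.snd
  have e : ∀ r : ℝ, r ^ 4 = (r ^ 2) ^ 2 := fun r => by ring
  simp only [e, WithLp.prod_norm_sq_eq_of_L2, WithLp.add_fst, WithLp.add_snd, WithLp.sub_fst,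
    WithLp.sub_snd] at *
  linarith [cs (by positivity) a b]

instance : Fact ((1 : ENNReal) ≤ 4) := ⟨by norm_num⟩

omit [NormedSpace ℝ X] [NormedSpace ℝ Y] in
lemma four (x : WithLp 4 (X × Y)) : ‖x‖ ^ 4 = ‖x.fst‖ ^ 4 + ‖x.snd‖ ^ 4 := by
  rw [WithLp.prod_norm_eq_of_nat (p := 4) 4 rfl, one_div, Real.rpow_inv_natCast_pow (by positivity) (by simp)]

omit [NormedSpace ℝ X] [NormedSpace ℝ Y] in
lemma Sm.four (h1 : Sm X) (h2 : Sm Y) : Sm (WithLp 4 (X × Y)) := fun x y => by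
  have a := h1 x.fst y.fst
  have b := h2 x.snd y.snd
  have c := DC.four x
  have d := DC.four y
  simp only [DC.four, WithLp.add_fst, WithLp.add_snd, WithLp.sub_fst, WithLp.sub_snd]
  linarith [cs (k := 1) (A := ‖x‖ ^ 2) (B := ‖y‖ ^ 2) (a := ‖x.fst‖ ^ 2) (b := ‖x.snd‖ ^ 2)
    (c := ‖y.fst‖ ^ 2) (d := ‖y.snd‖ ^ 2) (by positivity) (by linarith) (by linarith)]

/-- bundled Banach spaces -/
structure Sp : Type 1 where
  /-- carrier -/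
  T : Type
  [i1 : NormedAddCommGroup T]
  [i2 : NormedSpace ℝ T]
  [i3 : CompleteSpace T]
  sm : Sm T

attribute [instance] Sp.i1 Sp.i2 Sp.i3

lemma step (S : Sp) : ∃ (R : Sp) (J K L : S.T →ₗ[ℝ] R.T),
    (∀ x y, ‖J x + K y‖ ^ 4 = ‖x‖ ^ 4 / 4 + 3 * ‖y‖ ^ 4 / 4) ∧
    ∀ x y, ‖J x + L y‖ ^ 2 = ‖x‖ ^ 2 / 2 + ‖y‖ ^ 2 / 2 := by
  obtain ⟨α, a⟩ : ∃ α : ℝ, |α| ^ 2 = 1 / 2 := ⟨√(1 / 2), by rw [sq_abs, Real.sq_sqrt]; norm_num⟩
  obtain ⟨β, b⟩ : ∃ β : ℝ, |β| ^ 4 = 3 / 4 := ⟨√√(3 / 4), by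
    rw [show (4 : ℕ) = 2 * 2 from rfl, pow_mul, sq_abs, Real.sq_sqrt, Real.sq_sqrt] <;> positivity⟩
  let e := (WithLp.linearEquiv 2 ℝ (WithLp 4 (S.T × S.T) × S.T)).symm.toLinearMap
  let g := e ∘ₗ .inl ℝ _ _ ∘ₗ (WithLp.linearEquiv 4 ℝ (S.T × S.T)).symm.toLinearMap
  refine ⟨⟨WithLp 2 (WithLp 4 (S.T × S.T) × S.T), (S.sm.four S.sm).two S.sm⟩, α • g ∘ₗ .inl ℝ _ _,
    β • g ∘ₗ .inr ℝ _ _, α • e ∘ₗ .inr ℝ _ _, fun x y => ?_, fun x y => ?_⟩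
  · rw [show (4 : ℕ) = 2 * 2 from rfl, pow_mul, WithLp.prod_norm_sq_eq_of_L2]
    simp [g, e, ← pow_mul, four, norm_smul, mul_pow, b, show |α| ^ 4 = 1 / 4 by nlinarith]
    ring
  · rw [WithLp.prod_norm_sq_eq_of_L2]
    simp [g, e, norm_smul, mul_pow, a, -sq_abs]
    ring

lemma jen (x y : ℝ) : (x / 4 + 3 * y / 4) ^ 4 ≤ x ^ 4 / 4 + 3 * y ^ 4 / 4 := by
  have := pow_le_pow_left₀ (sq_nonneg (x / 4 + 3 * y / 4)) (show _ ≤ x ^ 2 / 4 + 3 * y ^ 2 / 4 by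
    nlinarith [sq_nonneg (x - y)]) 2
  nlinarith [sq_nonneg (x ^ 2 - y ^ 2)]

lemma tower (n : ℕ) : ∃ (S : Sp) (t : Tr S.T), ∀ c : ℝ,
    c + n / 8 ≤ Ex 1 (fun s a => ‖s + c • a‖) t 0 ∧
    Ex 0 (fun s a => ‖s + c • a‖ ^ 4) t 0 ≤ c ^ 4 + 6 * n * c ^ 2 + 3 * n ^ 2 := by
  induction n with
  | zero => exact ⟨⟨ℝ, fun x y => by
      simp only [Real.norm_eq_abs, sq_abs, Even.pow_abs (show Even 4 by decide)]
      nlinarith [sq_nonneg (y ^ 2)]⟩, .leaf (1 : ℝ), fun c => by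
      simp [Ex, le_abs_self, Even.pow_abs (show Even 4 by decide)]⟩
  | succ n ih =>
    obtain ⟨S, t, h⟩ := ih
    obtain ⟨R, J, K, L, a, b⟩ := step S
    have e : ∀ (M : S.T →ₗ[ℝ] R.T) (c : ℝ) x y z w,
        J x + J y + M z + c • (J y + M w) = J (x + (c + 1) • y) + M (z + c • w) ∧
        J x - J y + M z + c • (J y + M w) = J (x + (c - 1) • y) + M (z + c • w) :=
      fun M c x y z w => by
        simp only [map_add, map_smul]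
        constructor <;> module
    have k : ∀ θ φ (M : S.T →ₗ[ℝ] R.T) y u, Ex θ φ (bind M (fun w => .leaf (u + M w)) t) y =
        Ex θ (fun z w => φ (y + M z) (u + M w)) t 0 := fun θ φ M y u => by
      simpa [Ex] using Ex_bind M (fun w => .leaf (u + M w)) φ y t 0
    refine ⟨R, bind J (fun y => .node (J y) (bind L (fun w => .leaf (J y + L w)) t)
      (bind K (fun w => .leaf (J y + K w)) t)) t, fun c => ?_⟩
    rw [show (0 : R.T) = 0 + J 0 by simp, Ex_bind, Ex_bind]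
    simp only [Ex, k, zero_add, e]
    have i1 := fun u => Ex_le zero_le_one le_rfl (fun z w => ‖z + c • w‖) (fun _ _ => 0)
      (fun z w => ‖J u + L (z + c • w)‖) 1 0 (-2) (-‖u‖) (fun z w => by
        linarith [(abs_le_of_sq_le_sq' (a := ‖u‖ / 2 + ‖z + c • w‖ / 2) (le_of_le_of_eq (by
          nlinarith [sq_nonneg (‖u‖ - ‖z + c • w‖)]) (b u (z + c • w)).symm) (norm_nonneg _)).2]) t 0
    have i2 := fun u => Ex_le zero_le_one le_rfl (fun z w => ‖z + c • w‖) (fun _ _ => 0)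
      (fun z w => ‖J u + K (z + c • w)‖) 3 0 (-4) (-‖u‖) (fun z w => by
        linarith [le_of_pow_le_pow_left₀ (a := ‖u‖ / 4 + 3 * ‖z + c • w‖ / 4) four_ne_zero
          (norm_nonneg _) ((jen _ _).trans_eq (a u (z + c • w)).symm)]) t 0
    have j1 := fun u => Ex_le le_rfl zero_le_one (fun z w => ‖z + c • w‖ ^ 4) (fun _ _ => 0)
      (fun z w => ‖J u + L (z + c • w)‖ ^ 4) (-1) 0 2 (‖u‖ ^ 4) (fun z w => by
        rw [show (4 : ℕ) = 2 * 2 from rfl, pow_mul ‖J u + _‖, b]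
        nlinarith [sq_nonneg (‖u‖ ^ 2 - ‖z + c • w‖ ^ 2)]) t 0
    have j2 := fun u => Ex_le le_rfl zero_le_one (fun z w => ‖z + c • w‖ ^ 4) (fun _ _ => 0)
      (fun z w => ‖J u + K (z + c • w)‖ ^ 4) (-3) 0 4 (‖u‖ ^ 4) (fun z w => by
        linarith [a u (z + c • w)]) t 0
    obtain ⟨h1, h2⟩ := h c
    obtain ⟨h3, h4⟩ := h (c + 1)
    obtain ⟨h5, h6⟩ := h (c - 1)
    push_cast
    refine ⟨le_trans (by linarith) (Ex_ge (fun s y => ‖s + (c + 1) • y‖)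
      (fun s y => ‖s + (c - 1) • y‖) (1 / 4) (1 / 8) (5 / 8 * (c + n / 8)) (fun s y => ?_) t 0),
      (Ex_le' (fun s y => ‖s + (c + 1) • y‖ ^ 4) (fun s y => ‖s + (c - 1) • y‖ ^ 4) (3 / 16)
      (3 / 16) (5 / 8 * (c ^ 4 + 6 * n * c ^ 2 + 3 * n ^ 2)) (fun s y => ?_) t 0).trans (by
        nlinarith [sq_nonneg c, (n.cast_nonneg : (0 : ℝ) ≤ n)])⟩
    · linarith [i1 (s + (c + 1) • y), i2 (s + (c - 1) • y)]
    · linarith [j1 (s + (c + 1) • y), j2 (s + (c - 1) • y), j1 (s + (c - 1) • y),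
        j2 (s + (c + 1) • y)]

lemma grow {C : ℝ} {S : Sp} {t : Tr S.T} {n : ℕ} (H : ∀ c : ℝ,
    c + n / 8 ≤ Ex 1 (fun s a => ‖s + c • a‖) t 0 ∧
    Ex 0 (fun s a => ‖s + c • a‖ ^ 4) t 0 ≤ c ^ 4 + 6 * n * c ^ 2 + 3 * n ^ 2)
    (a : Ex 1 (fun s _ => ‖s‖ ^ 2) t 0 ≤ C ^ 2 * Ex 0 (fun s _ => ‖s‖ ^ 2) t 0) :
    n ≤ 128 * C ^ 2 := by
  by_contra! hn
  obtain ⟨b, c⟩ := H 0
  simp only [zero_smul, add_zero] at b c
  have d := Ex_ge (φ := fun s _ => ‖s‖ ^ 2) (fun s _ => ‖s‖) (fun _ _ => 0) (n / 4) 0 (-n ^ 2 / 64)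
    (fun s _ => by nlinarith [sq_nonneg (‖s‖ - n / 8)]) t 0
  have f := Ex_le le_rfl zero_le_one (fun _ _ => 0) (fun s _ => ‖s‖ ^ 2)
    (fun s _ => ‖s‖ ^ 4) 0 (4 * n) (-1) (4 * n ^ 2)
    (fun s _ => by nlinarith [sq_nonneg (‖s‖ ^ 2 - 2 * n)]) t 0
  have n0 : (0 : ℝ) < n := lt_of_le_of_lt (by positivity) hn
  have g : Ex 0 (fun s _ => ‖s‖ ^ 2) t 0 ≤ 2 * n :=
    le_of_mul_le_mul_left (by nlinarith) n0
  nlinarith [mul_le_mul_of_nonneg_left g (sq_nonneg C), mul_le_mul_of_nonneg_left b n0.le]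

lemma iso (J : X →ₗ[ℝ] Y) (h : ∀ x, ‖J x‖ = ‖x‖) (t : Tr X) :
    Ex θ (fun s _ => ‖s‖ ^ 2) (bind J (fun _ => .leaf 0) t) 0 = Ex θ (fun s _ => ‖s‖ ^ 2) t 0 := by
  simpa [Ex, h] using Ex_bind (θ := θ) J (fun _ => .leaf 0) (fun s _ => ‖s‖ ^ 2) 0 t 0

lemma main : ¬∀ (X : Type) [NormedAddCommGroup X] [NormedSpace ℝ X] [CompleteSpace X],
    (∀ x y : X, ‖x + y‖ ^ 2 + ‖x - y‖ ^ 2 ≤ 2 * ‖x‖ ^ 2 + 2 * 2 ^ 2 * ‖y‖ ^ 2) → ∃ C : ℝ,
      ∀ t : Tr X, Ex 1 (fun s _ => ‖s‖ ^ 2) t 0 ≤ C ^ 2 * Ex 0 (fun s _ => ‖s‖ ^ 2) t 0 := by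
  intro h
  choose S t H using tower
  have e : ∀ x : lp (fun n => (S n).T) 2, HasSum (fun n => ‖x n‖ ^ 2) (‖x‖ ^ 2) := fun x => by
    simpa using lp.hasSum_norm (p := 2) (by simp) x
  obtain ⟨C, hC⟩ := h (lp (fun n => (S n).T) 2) fun x y => by
    refine hasSum_le (fun n => ?_) ((e _).add (e _))
      (((e x).mul_left 2).add ((e y).mul_left (2 * 2 ^ 2)))
    rw [lp.coeFn_add, lp.coeFn_sub]
    exact (S n).sm.sq (x n) (y n)
  obtain ⟨n, hn⟩ := exists_nat_gt (128 * C ^ 2)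
  have a := hC (bind (lp.lsingle (𝕜 := ℝ) 2 n) (fun _ => .leaf 0) (t n))
  rw [iso _ (by simp), iso _ (by simp)] at a
  exact hn.not_ge (grow (H n) a)

end Pool.Agent.H9.DC
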