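import Mathlib

/-! Thin modules over a star quiver: a direct-limit class closed under summands but not under
direct limits. -/
namespace Pool.Agent.H9.DLim
open CategoryTheory CategoryTheory.Limits

abbrev Y := (ℕ → ℕ) × ℕ
abbrev V := Option Y →₀ ZMod 2

def R : Subring (Module.End (ZMod 2) V) where
  carrier := {φ | ∀ (S : Set Y) (v : V), (∀ y, y ∉ S → v (some y) = 0) →
    ∀ y, y ∉ S → φ v (some y) = 0}
  mul_mem' := fun ha hb S v hv => ha S _ (hb S v hv)
  add_mem' := fun ha hb S v hv y hy => by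
    rw [LinearMap.add_apply, Finsupp.add_apply, ha S v hv y hy, hb S v hv y hy, add_zero]
  one_mem' := fun S v hv => hv
  zero_mem' := fun S v hv y hy => rfl
  neg_mem' := fun ha S v hv y hy => by
    rw [LinearMap.neg_apply, Finsupp.neg_apply, ha S v hv y hy, neg_zero]

def M (S : Set Y) : Submodule R V where
  carrier := {v | ∀ y, y ∉ S → v (some y) = 0}
  add_mem' := fun ha hb y hy => by rw [Finsupp.add_apply, ha y hy, hb y hy, add_zero]
  zero_mem' := fun y hy => rfl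
  smul_mem' := fun r v hv => r.2 S v hv

noncomputable def A (q : Option Y) : R :=
  ⟨(Finsupp.lsingle none).comp (Finsupp.lapply q), fun S v hv y hy => by simp⟩

lemma A_smul (q : Option Y) (v : V) : A q • v = Finsupp.single none (v q) := rfl

def Good (X : ModuleCat.{0} R) : Prop :=
  (∀ q q' (x x' : X), A q • x ≠ 0 → A q' • x' ≠ 0 → A q • x = A q' • x') ∧
    ∀ x : X, x ≠ 0 → ∃ q, A q • x ≠ 0

def supp (X : ModuleCat.{0} R) : Set Y := {y | ∃ x : X, A (some y) • x ≠ 0}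

lemma z2 (x : ZMod 2) (h : x ≠ 0) : x = 1 := by revert x; decide

lemma ne_iff (S : Set Y) (q : Option Y) (x : M S) : A q • x ≠ 0 ↔ x.1 q ≠ 0 := by
  rw [Ne, Subtype.ext_iff, Submodule.coe_smul, A_smul, Submodule.coe_zero, Finsupp.single_eq_zero]

lemma good_M (S : Set Y) : Good (ModuleCat.of R (M S)) := by
  refine ⟨fun q q' x x' h h' => ?_, fun x hx => ?_⟩
  · apply Subtype.ext
    rw [Submodule.coe_smul, Submodule.coe_smul, A_smul, A_smul, z2 _ ((ne_iff S q x).1 h),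
      z2 _ ((ne_iff S q' x').1 h')]
  · obtain ⟨q, hq⟩ := Finsupp.ne_iff.1 (fun h => hx (Subtype.ext h) : (x : M S).1 ≠ 0)
    exact ⟨q, (ne_iff S q x).2 hq⟩

lemma supp_M (S : Set Y) : supp (ModuleCat.of R (M S)) = S := by
  ext y
  constructor
  · rintro ⟨x, hx⟩
    by_contra h
    exact (ne_iff S _ x).1 hx (x.2 y h)
  · intro h
    refine ⟨⟨Finsupp.single (some y) 1, fun z hz => ?_⟩, (ne_iff S _ _).2 (by simp)⟩
    rw [Finsupp.single_eq_of_ne]
    intro e
    exact hz (Option.some.inj e ▸ h)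

lemma inj_of_ne {X Z : ModuleCat.{0} R} (hX : Good X) (hZ : Good Z) (f : X ⟶ Z) (x : X)
    (hx : f x ≠ 0) (z : X) (hz : f z = 0) : z = 0 := by
  by_contra h
  obtain ⟨q, hq⟩ := hZ.2 _ hx
  obtain ⟨q', hq'⟩ := hX.2 _ h
  rw [← map_smul] at hq
  have := hX.1 q q' x z (fun e => hq (by rw [e, map_zero])) hq'
  rw [this, map_smul, hz, smul_zero] at hq
  exact hq rfl

section colim
variable {ι : Type} [Preorder ι] [IsDirected ι (· ≤ ·)] [Nonempty ι] {F : ι ⥤ ModuleCat.{0} R}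
  {c : Cocone F} (hc : IsColimit c)
include hc

lemma rep (x : c.pt) : ∃ i, ∃ y : F.obj i, c.ι.app i y = x :=
  Concrete.isColimit_exists_rep F hc x

lemma rep_zero (i : ι) (y : F.obj i) (h : c.ι.app i y = 0) :
    ∃ j, ∃ f : i ⟶ j, F.map f y = 0 := by
  obtain ⟨k, f, g, e⟩ := (Concrete.isColimit_rep_eq_iff_exists F hc y (0 : F.obj i)).1
    (by rw [h, map_zero])
  exact ⟨k, f, by rw [e, map_zero]⟩

omit hc [IsDirected ι (· ≤ ·)] [Nonempty ι] in
lemma w {i j : ι} (f : i ⟶ j) (y : F.obj i) : c.ι.app j (F.map f y) = c.ι.app i y :=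
  ConcreteCategory.congr_hom (c.w f) y

lemma good_colim (hF : ∀ i, Good (F.obj i)) : Good c.pt := by
  refine ⟨fun q q' x x' h h' => ?_, fun x hx => ?_⟩
  · obtain ⟨i, y, rfl⟩ := rep hc x
    obtain ⟨j, y', rfl⟩ := rep hc x'
    obtain ⟨k, h1, h2⟩ := exists_ge_ge i j
    rw [← w (homOfLE h1), ← map_smul] at h
    rw [← w (homOfLE h2), ← map_smul] at h'
    have := (hF k).1 _ _ _ _ (fun e => h (by rw [e, map_zero]))
      (fun e => h' (by rw [e, map_zero]))
    rw [← w (homOfLE h1) y, ← w (homOfLE h2) y', ← (c.ι.app k).hom.map_smul,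
      ← (c.ι.app k).hom.map_smul, this]
  · obtain ⟨i, y, rfl⟩ := rep hc x
    obtain ⟨q, hq⟩ := (hF i).2 y (fun e => hx (by rw [e, map_zero]))
    refine ⟨q, fun e => ?_⟩
    rw [← map_smul] at e
    obtain ⟨j, f, hf⟩ := rep_zero hc _ _ e
    refine hq (inj_of_ne (hF i) (hF j) (F.map f) y (fun e' => hx ?_) _ hf)
    rw [← w f, e', map_zero]

end colim

def S (n j : ℕ) : Set Y := {y | y.2 ≤ n ∧ y.1 n ≤ j}

lemma S_sub {n a m b : ℕ} (h : S n a ⊆ S m b) : n = m := by
  by_contra e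
  have := @h (Pi.single m (b + 1), 0) ⟨Nat.zero_le _, by simp [Pi.single_eq_of_ne e]⟩
  simpa [S] using this.2

def C : Set (ModuleCat.{0} R) := {X | Good X ∧ ((∀ x : X, x = 0) ∨ ∃ n j, supp X = S n j)}

lemma supp_colim {ι : Type} [Preorder ι] [IsDirected ι (· ≤ ·)] [Nonempty ι]
    {F : ι ⥤ ModuleCat.{0} R} {c : Cocone F} (hc : IsColimit c) (hF : ∀ i, F.obj i ∈ C) :
    supp c.pt ≠ Set.univ := by
  intro h
  obtain ⟨x0, hx0⟩ : (0, 0) ∈ supp c.pt := by rw [h]; trivial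
  obtain ⟨i, y0, rfl⟩ := rep hc x0
  have hy0 : c.ι.app i y0 ≠ 0 := fun e => hx0 (by rw [e, smul_zero])
  obtain ⟨n, a, hn⟩ := (hF i).2.resolve_left (fun e => hy0 (by rw [e y0, map_zero]))
  obtain ⟨x, hx⟩ : (0, n + 1) ∈ supp c.pt := by rw [h]; trivial
  obtain ⟨k, y, rfl⟩ := rep hc x
  obtain ⟨j, h1, h2⟩ := exists_ge_ge i k
  have hne : F.map (homOfLE h1) y0 ≠ 0 := fun e => hy0 (by rw [← w (homOfLE h1), e, map_zero])
  obtain ⟨m, b, hm⟩ := (hF j).2.resolve_left (fun e => hne (e _))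
  have hsub : S n a ⊆ S m b := by
    rw [← hn, ← hm]
    rintro z ⟨u, hu⟩
    refine ⟨F.map (homOfLE h1) u, fun e => hu ?_⟩
    rw [← map_smul] at e
    exact inj_of_ne (hF i).1 (hF j).1 _ y0 hne _ e
  obtain rfl := S_sub hsub
  have : (0, n + 1) ∈ supp (F.obj j) := ⟨F.map (homOfLE h2) y, fun e => hx (by
    rw [← w (homOfLE h2), ← map_smul, e, map_zero])⟩
  rw [hm] at this
  exact absurd this.1 (by simp)

lemma M_mono {S T : Set Y} (h : S ⊆ T) : M S ≤ M T := fun _ hv y hy => hv y fun e => hy (h e)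

noncomputable def chain (U : ℕ → Set Y) (hU : Monotone U) : ℕ ⥤ ModuleCat.{0} R where
  obj j := ModuleCat.of R (M (U j))
  map f := ModuleCat.ofHom (Submodule.inclusion (M_mono (hU (leOfHom f))))

noncomputable def cc (U : ℕ → Set Y) (hU : Monotone U) : Cocone (chain U hU) where
  pt := ModuleCat.of R (M (⋃ j, U j))
  ι := { app j := ModuleCat.ofHom (Submodule.inclusion (M_mono (Set.subset_iUnion U j))) }

lemma exists_stage (U : ℕ → Set Y) (hU : Monotone U) (v : V) (hv : v ∈ M (⋃ j, U j)) :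
    ∃ j, v ∈ M (U j) := by
  have h : ∀ q : Option Y, ∃ j, ∀ y, q = some y → v q ≠ 0 → y ∈ U j := by
    intro q
    cases q with
    | none => exact ⟨0, fun y e => by cases e⟩
    | some y =>
      by_cases e : y ∈ ⋃ j, U j
      · obtain ⟨j, hj⟩ := Set.mem_iUnion.1 e
        exact ⟨j, fun z ez _ => Option.some.inj ez ▸ hj⟩
      · exact ⟨0, fun z _ h => absurd (hv y e) h⟩
  choose g hg using h
  refine ⟨v.support.sup g, fun y hy => ?_⟩
  by_contra e
  exact hy (hU (Finset.le_sup (Finsupp.mem_support_iff.2 e)) (hg _ y rfl e))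

noncomputable def cc_colim (U : ℕ → Set Y) (hU : Monotone U) : IsColimit (cc U hU) := by
  haveI : ReflectsColimit (chain U hU) (forget (ModuleCat.{0} R)) :=
    reflectsColimit_of_reflectsIsomorphisms _ _
  refine isColimitOfReflects (forget (ModuleCat.{0} R)) ?_
  refine Types.FilteredColimit.isColimitOf _ _ (fun x => ?_) (fun i j x y h => ?_)
  · exact (exists_stage U hU x.1 x.2).imp fun j hj => ⟨⟨x.1, hj⟩, rfl⟩
  · have h' := congrArg Subtype.val h
    exact ⟨max i j, homOfLE (le_max_left _ _), homOfLE (le_max_right _ _), Subtype.ext h'⟩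

end Pool.Agent.H9.DLim
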