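import Mathlib

/-! A continuous cocycle over the 2-adic odometer with prescribed block sums mod one. -/
namespace Pool.Agent.H9.Distal
open Filter Topology Finset

lemma interp (N : ℕ) (v : ℕ → ℝ) {e : ℝ} (he : 0 ≤ e) (hv : ∀ m, |v m| ≤ e) :
    ∃ b : C(ℤ_[2], ℝ), ‖b‖ ≤ e ∧ ∀ m < N, b m = v m := by
  obtain ⟨g, h1, h2⟩ := ContinuousMap.exists_extension_forall_mem_of_isClosedEmbedding
    (⟨fun m : Fin N => v m, continuous_of_discreteTopology⟩ : C(Fin N, ℝ)) (t := Set.Icc (-e) e)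
    (e := fun m : Fin N => ((m : ℕ) : ℤ_[2])) (fun m => abs_le.1 (hv m)) ⟨0, by simpa⟩
    (continuous_of_discreteTopology.isClosedEmbedding fun a b h => Fin.ext (Nat.cast_injective h))
  exact ⟨g, (g.norm_le he).2 fun x => abs_le.2 (h1 x), fun m hm => congrFun h2 ⟨m, hm⟩⟩

def Cond (n : ℕ → ℕ) (θ : ℕ → ℝ) (c : C(ℤ_[2], ℝ)) (k : ℕ) : Prop :=
  ((∑ m ∈ Ico (n k) (n (k + 1)), c m : ℝ) : UnitAddCircle) = (θ k : ℝ)

lemma Cond.congr {n : ℕ → ℕ} {θ : ℕ → ℝ} {c c' : C(ℤ_[2], ℝ)} {k : ℕ} (h : Cond n θ c k)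
    (h' : ∀ m < n (k + 1), c' m = c m) : Cond n θ c' k := by
  rw [Cond, sum_congr rfl fun m hm => h' m (mem_Ico.1 hm).2]
  exact h

lemma step {n : ℕ → ℕ} (hn : StrictMono n) (θ : ℕ → ℝ) (c : C(ℤ_[2], ℝ)) (K K' G : ℕ) (hG : 0 < G)
    (h : ∀ k ≥ K, G ≤ n (k + 1) - n k) : ∃ c' : C(ℤ_[2], ℝ), dist c c' ≤ 1 / G ∧
      (∀ m < n K, c' m = c m) ∧ ∀ k ≥ K, k < K' → Cond n θ c' k := by
  classical
  let w : ℕ → ℝ := fun k => Int.fract (θ k - ∑ m ∈ Ico (n k) (n (k + 1)), c m) /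
    (n (k + 1) - n k : ℕ)
  let v : ℕ → ℝ := fun m => if h : ∃ k, K ≤ k ∧ n k ≤ m ∧ m < n (k + 1) then w h.choose else 0
  have hG' : (0 : ℝ) < G := Nat.cast_pos.2 hG
  obtain ⟨b, h1, h2⟩ := interp (n (max K K')) v (e := 1 / G) (by positivity) fun m => by
    simp only [v]
    split_ifs with h3
    · rw [abs_of_nonneg (div_nonneg (Int.fract_nonneg _) (Nat.cast_nonneg _))]
      exact div_le_div₀ zero_le_one (Int.fract_lt_one _).le hG'
        (Nat.cast_le.2 (h _ h3.choose_spec.1))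
    · simp
  refine ⟨c + b, by rwa [dist_self_add_right], fun m hm => ?_, fun k hk hk' => ?_⟩
  · rw [ContinuousMap.add_apply, h2 m (hm.trans_le (hn.monotone (le_max_left _ _)))]
    simp only [v]
    rw [dif_neg, add_zero]
    rintro ⟨k, h3, h4, -⟩
    have := hn.monotone h3
    omega
  · have h3 : ∀ m ∈ Ico (n k) (n (k + 1)), (c + b) m = c m + w k := fun m hm => by
      rw [mem_Ico] at hm
      have h4 : ∃ k, K ≤ k ∧ n k ≤ m ∧ m < n (k + 1) := ⟨k, hk, hm⟩
      rw [ContinuousMap.add_apply,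
        h2 m (hm.2.trans_le (hn.monotone (le_max_of_le_right hk')))]
      simp only [v]
      rw [dif_pos h4]
      obtain ⟨-, h5, h6⟩ := h4.choose_spec
      have e1 := hn.lt_iff_lt.1 (h5.trans_lt hm.2)
      have e2 := hn.lt_iff_lt.1 (hm.1.trans_lt h6)
      rw [show h4.choose = k by omega]
    have h4 : ((n (k + 1) - n k : ℕ) : ℝ) ≠ 0 := Nat.cast_ne_zero.2 (by have := h k hk; omega)
    rw [Cond, sum_congr rfl h3, sum_add_distrib, sum_const, Nat.card_Ico, nsmul_eq_mul,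
      mul_div_cancel₀ _ h4, AddCircle.coe_add, AddCircle.coe_fract, ← AddCircle.coe_add,
      add_sub_cancel]

theorem cocycle {n : ℕ → ℕ} (hn : StrictMono n)
    (hg : Tendsto (fun k : ℕ => n (k + 1) - n k) atTop atTop) (θ : ℕ → ℝ) :
    ∃ c : C(ℤ_[2], ℝ), ∀ k, Cond n θ c k := by
  classical
  have hK : ∀ j : ℕ, ∃ K, ∀ k ≥ K, 2 ^ j ≤ n (k + 1) - n k := fun j =>
    eventually_atTop.1 (hg.eventually_ge_atTop _)
  let K : ℕ → ℕ := fun j => Nat.find (hK j)
  have hK1 : ∀ j, ∀ k ≥ K j, 2 ^ j ≤ n (k + 1) - n k := fun j => Nat.find_spec (hK j)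
  have hK0 : K 0 = 0 := (Nat.find_eq_zero _).2 fun k _ => by
    have := hn k.lt_succ_self
    simp only [Nat.succ_eq_add_one] at this
    omega
  have hKm : Monotone K := monotone_nat_of_le_succ fun j => Nat.find_min' _ fun k hk =>
    (Nat.pow_le_pow_right two_pos j.le_succ).trans (hK1 _ k hk)
  choose nx h1 h2 h3 using fun j c => step hn θ c (K j) (K (j + 1)) (2 ^ j) (by positivity) (hK1 j)
  let s : ℕ → C(ℤ_[2], ℝ) := fun j => j.rec 0 nx
  obtain ⟨c, hc⟩ := cauchySeq_tendsto_of_complete (cauchySeq_of_le_geometric_two (f := s) (C := 2)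
    fun j => (h1 j (s j)).trans (by simp))
  have h4 : ∀ j, ∀ k < K j, Cond n θ (s j) k := fun j => by
    induction j with
    | zero => intro k hk; omega
    | succ j ih =>
      intro k hk
      by_cases h : k < K j
      · exact (ih k h).congr fun m hm => h2 j _ m (hm.trans_le (hn.monotone h))
      · exact h3 j _ k (not_lt.1 h) hk
  refine ⟨c, fun k => ?_⟩
  have h5 : k < K (n (k + 1) - n k) :=
    not_le.1 fun h => not_le.2 Nat.lt_two_pow_self (hK1 _ k h)
  generalize n (k + 1) - n k = j at h5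
  refine (h4 j k h5).congr fun m hm => ?_
  have h6 : ∀ i ≥ j, s i m = s j m := fun i hi => by
    induction i, hi using Nat.le_induction with
    | base => rfl
    | succ i hi ih =>
      exact (h2 i _ m (hm.trans_le (hn.monotone (h5.trans_le (hKm hi))))).trans ih
  exact tendsto_nhds_unique (((continuous_eval_const (m : ℤ_[2])).tendsto c).comp hc)
    (tendsto_const_nhds.congr' (eventually_atTop.2 ⟨j, fun i hi => (h6 i hi).symm⟩))

open scoped Classical in
lemma skew (a : ℤ_[2]) (u : ℤ_[2] → UnitAddCircle) (x y : ℤ_[2] × UnitAddCircle) (m : ℕ) :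
    (if x.1 = y.1 then dist x.2 y.2 else dist x.1 y.1) ≤
      dist ((fun p : ℤ_[2] × UnitAddCircle => (p.1 + a, p.2 + u p.1))^[m] x)
        ((fun p : ℤ_[2] × UnitAddCircle => (p.1 + a, p.2 + u p.1))^[m] y) := by
  induction m generalizing x y with
  | zero =>
    split_ifs
    exacts [le_max_right _ _, le_max_left _ _]
  | succ m ih =>
    refine le_trans (le_of_eq ?_) (ih _ _)
    by_cases h : x.1 = y.1 <;> simp [h]

noncomputable def T (c : C(ℤ_[2], ℝ)) : ℤ_[2] × UnitAddCircle ≃ₜ ℤ_[2] × UnitAddCircle where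
  toFun p := (p.1 + 1, p.2 + (c p.1 : ℝ))
  invFun p := (p.1 + -1, p.2 + -((c (p.1 + -1) : ℝ) : UnitAddCircle))
  left_inv p := by simp
  right_inv p := by simp
  continuous_toFun := by fun_prop
  continuous_invFun := by fun_prop

lemma T_iter (c : C(ℤ_[2], ℝ)) (y : UnitAddCircle) (N : ℕ) :
    (T c)^[N] (0, y) = ((N : ℤ_[2]), y + (∑ m ∈ range N, c m : ℝ)) := by
  induction N with
  | zero => simp
  | succ N ih =>
    rw [Function.iterate_succ_apply', ih, sum_range_succ, AddCircle.coe_add, ← add_assoc,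
      Nat.cast_succ]
    rfl

end Pool.Agent.H9.Distal
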