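import Pool.Agent.H9.Wcr

/-! Triangular truncation: a map `R : c₀* → c₀` with `y (R y) = -‖W y‖ ^ 2`. -/
namespace Pool.Agent.H9.Ghost
open Filter Metric Topology Finset Hyper Wcr

/-- unit vectors of `c₀` -/
noncomputable def e (k : ℕ) : V := tr (Pi.single k 1) (k + 1)

lemma summ (f : V →L[ℝ] ℝ) : Summable fun k => |f (e k)| :=
  summable_of_sum_range_le (c := ‖f‖) (fun _ => abs_nonneg _) fun K => by
    have := f.unit_le_opNorm (tr (fun k => SignType.sign (f (e k))) K) (nle fun i => by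
      rw [tr_apply]
      split_ifs
      · rcases lt_trichotomy (f (e i)) 0 with h | h | h <;> simp [h]
      · simp)
    rw [tr_sum] at this
    exact (sum_congr rfl fun k _ => (sign_mul_self (f (e k))).symm).trans_le
      ((le_abs_self _).trans this)

lemma rep (f : V →L[ℝ] ℝ) (u : V) :
    Tendsto (fun K => ∑ k ∈ range K, u k * f (e k)) atTop (𝓝 (f u)) := by
  simp only [e, ← tr_sum]
  refine (f.continuous.tendsto _).comp (Metric.tendsto_atTop'.2 fun ε hε => ?_)
  obtain ⟨N, hN⟩ := eventually_atTop.1 ((zero0 u).abs.eventually_lt_const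
    (show |0| < ε / 2 by simpa using hε))
  refine ⟨N, fun K hK => (dist_eq_norm _ _).trans_lt ((nle fun i => ?_).trans_lt
    (half_lt_self hε))⟩
  show |ite _ _ _ - u i| ≤ _
  split_ifs
  · simpa using (half_pos hε).le
  · rw [zero_sub, abs_neg]
    exact (hN i (by omega)).le

/-- coordinate functionals of `c₀` -/
noncomputable def ev (j : ℕ) : V →L[ℝ] ℝ :=
  LinearMap.mkContinuous ⟨⟨fun x => x j, fun _ _ => rfl⟩, fun _ _ => rfl⟩ 1
    fun x => (le0 x j).trans_eq (one_mul _).symm

lemma ev_e (j k : ℕ) : ev j (e k) = if j = k then 1 else 0 := by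
  show ite _ _ _ = _
  rw [Pi.single_apply]
  grind

variable {H : Type} [NormedAddCommGroup H] [InnerProductSpace ℝ H] [CompleteSpace H]
  {v : ℕ → H} (hv : ∀ i, ‖v i‖ ≤ 1)

/-- tails -/
noncomputable def tl (v : ℕ → H) (y : V →L[ℝ] ℝ) (i : ℕ) : H := ∑' j, y (e (j + i)) • v (j + i)

include hv

lemma sm (y : V →L[ℝ] ℝ) (i : ℕ) : Summable fun j => y (e (j + i)) • v (j + i) :=
  (summable_nat_add_iff (f := fun j => y (e j) • v j) i).2 (.of_norm_bounded (summ y) fun j =>
    (norm_smul _ _).trans_le (mul_le_of_le_one_right (abs_nonneg _) (hv j)))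

lemma tl_sub (y z : V →L[ℝ] ℝ) (i : ℕ) : tl v (y - z) i = tl v y i - tl v z i :=
  (tsum_congr fun _ => sub_smul _ _ _).trans ((sm hv y i).tsum_sub (sm hv z i))

lemma tl_succ (y : V →L[ℝ] ℝ) (i : ℕ) : tl v y i = y (e i) • v i + tl v y (i + 1) := by
  rw [tl, (sm hv y i).tsum_eq_zero_add, zero_add]
  simp only [tl, add_assoc, add_comm 1 i]

omit hv [CompleteSpace H] in
lemma tl_zero (y : V →L[ℝ] ℝ) : Tendsto (tl v y) atTop (𝓝 0) :=
  tendsto_sum_nat_add fun j => y (e j) • v j

omit hv [CompleteSpace H] in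
lemma tl_ev (c : ℝ) (i : ℕ) : tl v (c • ev i) 0 = c • v i :=
  (tsum_eq_single i fun j h => by simp [ev_e, h.symm]).trans (by simp [ev_e])

/-- the triangular truncation -/
noncomputable def R (y : V →L[ℝ] ℝ) : V :=
  ⟨⟨fun i => -inner ℝ (v i) (tl v y i + tl v y (i + 1)), continuous_of_discreteTopology⟩, by
    rw [cocompact_eq_atTop]
    refine squeeze_zero_norm (fun i => (norm_neg _).trans_le ((norm_inner_le_norm _ _).trans
      (mul_le_of_le_one_left (norm_nonneg _) (hv i)))) ?_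
    simpa using ((tl_zero (v := v) y).add
      ((tl_zero y).comp (tendsto_add_atTop_nat 1))).norm⟩

lemma R_sub (y z : V →L[ℝ] ℝ) : R hv (y - z) = R hv y - R hv z :=
  ZeroAtInftyContinuousMap.ext fun i => by
    show -inner ℝ _ (_ + _) = -inner ℝ _ (_ + _) - -inner ℝ _ (_ + _)
    simp only [tl_sub hv, inner_add_right, inner_sub_right]
    ring

lemma R_self (y : V →L[ℝ] ℝ) : y (R hv y) = -‖tl v y 0‖ ^ 2 := by
  refine tendsto_nhds_unique (rep y _) ?_
  have := ((tl_zero (v := v) y).norm.pow 2).sub_const (‖tl v y 0‖ ^ 2)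
  rw [norm_zero, zero_pow two_ne_zero, zero_sub] at this
  refine this.congr fun n => ?_
  rw [← sum_range_sub fun i => ‖tl v y i‖ ^ 2]
  refine sum_congr rfl fun i _ => ?_
  show _ = -inner ℝ _ (_ + _) * _
  rw [neg_mul, mul_comm, ← real_inner_smul_left, ← sub_eq_iff_eq_add.2 (tl_succ hv y i),
    inner_sub_left, inner_add_right, inner_add_right, real_inner_self_eq_norm_sq,
    real_inner_self_eq_norm_sq, real_inner_comm]
  ring

end Pool.Agent.H9.Ghost
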