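import Pool.Agent.H9.Ghost

/-! A maximally monotone operator on `ℝ × c₀` whose domain has a gap. -/
namespace Pool.Agent.H9.Ghost
open Filter Metric Topology Finset Hyper Wcr

theorem zorn {X : Type} [NormedAddCommGroup X] [NormedSpace ℝ X] (M : Set (X × (X →L[ℝ] ℝ)))
    (h : ∀ p ∈ M, ∀ q ∈ M, 0 ≤ (p.2 - q.2) (p.1 - q.1)) : ∃ B ⊇ M,
    (∀ p ∈ B, ∀ q ∈ B, 0 ≤ (p.2 - q.2) (p.1 - q.1)) ∧
    ∀ z : X × (X →L[ℝ] ℝ), (∀ p ∈ B, 0 ≤ (z.2 - p.2) (z.1 - p.1)) → z ∈ B := by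
  obtain ⟨B, h1, h2⟩ := zorn_subset_nonempty
    {B : Set (X × (X →L[ℝ] ℝ)) | ∀ p ∈ B, ∀ q ∈ B, 0 ≤ (p.2 - q.2) (p.1 - q.1)}
    (fun c hc h1 _ => ⟨⋃₀ c, fun p ⟨s, hs, hp⟩ q ⟨t, ht, hq⟩ => (h1.total hs ht).elim
      (fun e => hc ht p (e hp) q hq) fun e => hc hs p hp q (e hq),
      fun _ => Set.subset_sUnion_of_mem⟩) M h
  refine ⟨B, h1, h2.1, fun z hz => h2.2 (y := insert z B) ?_ (Set.subset_insert _ _)
    (Set.mem_insert _ _)⟩
  rintro p (rfl | hp) q (rfl | hq)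
  · simp
  · exact hz q hq
  · rw [← neg_sub q.1, ← neg_sub q.2, map_neg, neg_apply, neg_neg]
    exact hz p hp
  · exact h2.1 p hp q hq

/-- the Hilbert space -/
abbrev L2 := lp (fun _ : ℕ => ℝ) 2

noncomputable def u (k : ℕ) : L2 := lp.single 2 k ((1 / 2) ^ k)

lemma u_norm (k : ℕ) : ‖u k‖ = (1 / 2) ^ k :=
  (lp.norm_single (by simp) _ _).trans (abs_of_pos (by positivity))

noncomputable def v (i : ℕ) : L2 := u i.unpair.1

lemma hv (i : ℕ) : ‖v i‖ ≤ 1 := (u_norm _).trans_le (pow_le_one₀ (by norm_num) (by norm_num))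

noncomputable def w (n : ℕ) : L2 := ∑ k ∈ range n, u k

noncomputable def r (n : ℕ) : ℝ := 2 * (1 / 2) ^ n

lemma w_sub (n m : ℕ) : ‖w n - w m‖ ^ 2 ≤ (r n - r m) ^ 2 := by
  wlog h : m ≤ n
  · rw [norm_sub_rev, ← neg_sub (r m), neg_sq]
    exact this _ _ (le_of_not_ge h)
  rw [← neg_sub (r m), neg_sq]
  refine pow_le_pow_left₀ (norm_nonneg _) ?_ 2
  induction n, h using Nat.le_induction with
  | base => simp
  | succ n _ ih =>
    rw [w, sum_range_succ, add_sub_right_comm]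
    refine (norm_add_le_of_le ih (u_norm n).le).trans_eq ?_
    simp only [r, pow_succ]
    ring

lemma u_sum : Summable u := .of_norm_bounded summable_geometric_two fun k => (u_norm k).le

lemma ne (y : V →L[ℝ] ℝ) : tl v y 0 ≠ ∑' k, u k := fun h => by
  obtain ⟨K, hK⟩ := exists_nat_gt (∑' i, |y (e i)|)
  let l : L2 →L[ℝ] ℝ := ∑ k ∈ range K, (2 : ℝ) ^ k • lp.evalCLM ℝ (fun _ : ℕ => ℝ) 2 k
  have h1 : ∀ k, l (u k) = if k ∈ range K then 1 else 0 := fun k => by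
    refine (_root_.sum_apply _ _ _).trans ((sum_congr rfl fun j _ => ?_).trans
      (sum_ite_eq' (range K) k fun _ => 1))
    show 2 ^ j * u k j = _
    rw [u, lp.single_apply, Pi.single_apply]
    split_ifs with e
    · simp [e]
    · simp
  have h2 := hasSum_le (fun i => show l (y (e (i + 0)) • v (i + 0)) ≤ |y (e i)| by
    rw [map_smul, v, h1, smul_eq_mul]
    split_ifs
    · simpa using le_abs_self _
    · simp) (l.hasSum (sm hv y 0).hasSum) (summ y).hasSum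
  rw [show ∑' j, _ = _ from h, l.map_tsum u_sum, tsum_eq_sum (s := range K) fun k hk => by
    rw [h1, if_neg hk], sum_congr rfl fun k hk => (h1 k).trans (if_pos hk)] at h2
  exact hK.not_ge (by simpa using h2)

lemma ex (n : ℕ) : ∃ y, tl v y 0 = w n := by
  induction n with
  | zero => exact ⟨(0 : ℝ) • ev 0, by simpa [w] using tl_ev (v := v) 0 0⟩
  | succ n ih =>
    obtain ⟨y, hy⟩ := ih
    exact ⟨y - (-1 : ℝ) • ev (n.pair 0), by simp [tl_sub hv, tl_ev, hy, w, v, sum_range_succ]⟩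

lemma am {a b d l x : ℝ} (ha : 0 < a) (h : d ^ 2 ≤ a * b) (h0 : 0 ≤ x) (hx : x ≤ d + l) :
    x ^ 2 ≤ (a + 1) * (b + l ^ 2) :=
  (pow_le_pow_left₀ h0 hx 2).trans (le_of_mul_le_mul_left (by nlinarith [sq_nonneg (d - a * l)]) ha)

/-- graph points -/
noncomputable def pt (s t : ℝ) (y : V →L[ℝ] ℝ) : (ℝ × V) × (ℝ × V →L[ℝ] ℝ) :=
  ((s, R hv y), t • ContinuousLinearMap.fst ℝ ℝ V + y ∘L ContinuousLinearMap.snd ℝ ℝ V)

lemma rel (s t s' t' : ℝ) (y y' : V →L[ℝ] ℝ) (x : V) :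
    ((pt s t y).2 - (pt s' t' y').2) ((s, R hv y + x) - (pt s' t' y').1) =
      (s - s') * (t - t') + (y - y') x - ‖tl v y 0 - tl v y' 0‖ ^ 2 := by
  have := R_self hv (y - y')
  rw [R_sub, tl_sub hv] at this
  simp only [pt, sub_apply, add_apply, map_sub, map_add, smul_apply, smul_eq_mul,
    ContinuousLinearMap.coe_fst', ContinuousLinearMap.comp_apply,
    ContinuousLinearMap.coe_snd'] at this ⊢
  linarith

theorem op : ∃ (L : ℝ) (B : Set ((ℝ × V) × (ℝ × V →L[ℝ] ℝ))), 0 ≤ L ∧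
    (∀ p ∈ B, ∀ q ∈ B, 0 ≤ (p.2 - q.2) (p.1 - q.1)) ∧
    (∀ z : (ℝ × V) × (ℝ × V →L[ℝ] ℝ), (∀ p ∈ B, 0 ≤ (z.2 - p.2) (z.1 - p.1)) → z ∈ B) ∧
    (∃ p ∈ B, 1 < p.1.1) ∧ (∃ p ∈ B, p.1.1 < -1) ∧
    ∀ p ∈ B, 1 < |p.1.1| ∧ 0 ≤ p.2 p.1 + L * |p.1.1| := by
  have hr : ∀ n, 0 < r n := fun n => by
    unfold r
    positivity
  obtain ⟨B, h1, h2, h3⟩ := zorn {p | ∃ n σ y, (σ = 1 ∨ σ = -1) ∧ tl v y 0 = w n ∧
    p = pt (σ * (1 + r n)) (σ * r n) y} (by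
      rintro _ ⟨n, σ, y, e1, e2, rfl⟩ _ ⟨m, τ, z, e3, e4, rfl⟩
      have := rel (σ * (1 + r n)) (σ * r n) (τ * (1 + r m)) (τ * r m) y z 0
      rw [add_zero, e2, e4, map_zero] at this
      refine le_of_le_of_eq ?_ this.symm
      rcases e1 with rfl | rfl <;> rcases e3 with rfl | rfl <;>
      nlinarith [w_sub n m, hr n, hr m, mul_pos (hr n) (hr m)])
  obtain ⟨y0, h0⟩ := ex 0
  refine ⟨‖∑' k, u k‖ ^ 2, B, sq_nonneg _, h2, h3, ⟨_, h1 ⟨0, 1, y0, .inl rfl, h0, rfl⟩,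
    show 1 < 1 * _ by linarith [hr 0]⟩, ⟨_, h1 ⟨0, -1, y0, .inr rfl, h0, rfl⟩,
    show -1 * _ < _ by linarith [hr 0]⟩, fun ⟨⟨s, x⟩, φ⟩ hp => ?_⟩
  obtain ⟨t, y, rfl⟩ : ∃ t y, φ = (pt s t y).2 := ⟨φ (1, 0), φ ∘L ContinuousLinearMap.inr ℝ ℝ V,
    ContinuousLinearMap.ext fun a => by
      show _ = φ (1, 0) * a.1 + φ (0, a.2)
      rw [mul_comm, ← smul_eq_mul, ← map_smul, ← map_add]
      simp⟩
  obtain ⟨x, rfl⟩ : ∃ x', x = R hv y + x' := ⟨x - R hv y, by simp⟩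
  have h4 : ∀ n σ z, (σ = 1 ∨ σ = -1) → tl v z 0 = w n → 0 ≤ (s - σ * (1 + r n)) * (t - σ * r n) +
      (y - z) x - ‖tl v y 0 - w n‖ ^ 2 := fun n σ z e1 e2 =>
    e2 ▸ (h2 _ hp _ (h1 ⟨n, σ, z, e1, e2, rfl⟩)).trans_eq (rel _ _ _ _ _ _ _)
  have h5 : ∀ i j, v i = v j → ev i x = ev j x := fun i j e => by
    by_contra e1
    obtain ⟨c, hc⟩ : ∃ c, c * (ev i x - ev j x) = -((s - 1 * (1 + r 0)) * (t - 1 * r 0) +
      (y - y0) x) - 1 := ⟨_, div_mul_cancel₀ _ (sub_ne_zero.2 e1)⟩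
    have := h4 0 1 (y0 - (c • ev i - c • ev j)) (.inl rfl) (by simp [tl_sub hv, tl_ev, e, h0])
    simp only [sub_apply, smul_apply, smul_eq_mul] at this hc
    nlinarith [sq_nonneg ‖tl v y 0 - w 0‖]
  obtain rfl : x = 0 := ZeroAtInftyContinuousMap.ext fun i => tendsto_nhds_unique
    (tendsto_const_nhds.congr fun m => h5 i (i.unpair.1.pair m) (by simp [v]))
    ((zero0 x).comp (tendsto_atTop_mono (Nat.right_le_pair _) tendsto_id))
  have h6 : Tendsto r atTop (𝓝 0) := by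
    have := (tendsto_pow_atTop_nhds_zero_of_lt_one (r := (1 / 2 : ℝ)) (by norm_num)
      (by norm_num)).const_mul 2
    rwa [mul_zero] at this
  have h7 : ∀ σ, (σ = 1 ∨ σ = -1) → ‖tl v y 0 - ∑' k, u k‖ ^ 2 ≤ (s - σ) * t := fun σ e => by
    simpa using ge_of_tendsto' (b := 0) (((((h6.const_add 1).const_mul σ).const_sub s).mul
      ((h6.const_mul σ).const_sub t)).sub ((u_sum.hasSum.tendsto_sum_nat.const_sub
        (tl v y 0)).norm.pow 2)) fun n => (ex n).elim fun z hz => by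
          simpa [w] using h4 n σ z e hz
  have h8 := h7 1 (.inl rfl)
  have h9 := h7 (-1) (.inr rfl)
  have h10 := pow_pos (norm_pos_iff.2 (sub_ne_zero.2 (ne y))) 2
  have h11 : (pt s t y).2 (s, R hv y + 0) = s * t - ‖tl v y 0‖ ^ 2 := by
    simp [pt, R_self, mul_comm, sub_eq_add_neg]
  have h12 := norm_le_norm_sub_add (tl v y 0) (∑' k, u k)
  rw [h11]
  show 1 < |s| ∧ 0 ≤ _ + _ * |s|
  rcases lt_trichotomy t 0 with e | rfl | e
  · have e1 : 0 < -s - 1 := by nlinarith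
    rw [abs_of_neg (by linarith)]
    exact ⟨by linarith, by linarith [am (b := -t) e1 (by linarith) (norm_nonneg _) h12]⟩
  · simp only [mul_zero] at h8
    linarith
  · have e1 : 0 < s - 1 := by nlinarith
    rw [abs_of_pos (by linarith)]
    exact ⟨by linarith, by linarith [am e1 h8 (norm_nonneg _) h12]⟩

end Pool.Agent.H9.Ghost
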