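import Pool.Agent.H9.Ghost2

/-! Consequences: a rank one monotone linear map whose sum with the operator is not maximal. -/
namespace Pool.Agent.H9.Ghost
open Hyper

variable {X : Type} [NormedAddCommGroup X] [NormedSpace ℝ X]

lemma lin_max (A : X →L[ℝ] X →L[ℝ] ℝ) (x : X) (f : X →L[ℝ] ℝ)
    (h : ∀ y, 0 ≤ (f - A y) (x - y)) : f = A x := by
  have h1 : ∀ z, 0 ≤ (f - A x) z := fun z => le_of_forall_pos_le_add fun ε hε => by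
    obtain ⟨t, ht, h2⟩ : ∃ t, 0 < t ∧ t * A z z ≤ ε := ⟨ε / (|A z z| + 1), by positivity, by
      rw [div_mul_eq_mul_div, div_le_iff₀ (by positivity)]
      nlinarith [le_abs_self (A z z)]⟩
    have := h (x - t • z)
    rw [sub_sub_cancel, map_smul, smul_eq_mul, mul_nonneg_iff_of_pos_left ht] at this
    simp only [map_sub, map_smul, sub_apply, smul_apply, smul_eq_mul] at this ⊢
    linarith
  exact sub_eq_zero.1 (ContinuousLinearMap.ext fun z => le_antisymm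
    (by simpa using h1 (-z)) (h1 z))

theorem sum : ∃ (A : ℝ × V →L[ℝ] ℝ × V →L[ℝ] ℝ) (B : Set ((ℝ × V) × (ℝ × V →L[ℝ] ℝ))),
    (∀ x, 0 ≤ A x x) ∧ (∀ p ∈ B, ∀ q ∈ B, 0 ≤ (p.2 - q.2) (p.1 - q.1)) ∧
    (∀ z : (ℝ × V) × (ℝ × V →L[ℝ] ℝ), (∀ p ∈ B, 0 ≤ (z.2 - p.2) (z.1 - p.1)) → z ∈ B) ∧
    B.Nonempty ∧ (∀ f, (0, f) ∉ B) ∧ ∀ p ∈ B, 0 ≤ (0 - (A p.1 + p.2)) (0 - p.1) := by
  obtain ⟨L, B, h0, h1, h2, ⟨p, hp, -⟩, -, h3⟩ := op
  refine ⟨(ContinuousLinearMap.fst ℝ ℝ V).smulRight (L • ContinuousLinearMap.fst ℝ ℝ V), B,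
    fun x => show 0 ≤ x.1 * (L * x.1) by nlinarith [mul_nonneg h0 (sq_nonneg x.1)], h1, h2, ⟨p, hp⟩,
    fun f h => by simpa using (h3 _ h).1.not_ge, fun p hp => ?_⟩
  obtain ⟨e1, e2⟩ := h3 p hp
  rw [zero_sub, zero_sub, map_neg, neg_apply, neg_neg]
  show 0 ≤ p.1.1 * (L * p.1.1) + p.2 p.1
  linarith [mul_nonneg (mul_nonneg h0 (abs_nonneg p.1.1)) (sub_pos.2 e1).le,
    congrArg (L * ·) (sq_abs p.1.1)]

end Pool.Agent.H9.Ghost
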