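import Mathlib

/-! A triangular basic sequence in a nonreflexive Banach space. -/
namespace Pool.Agent.H9.Nbr
open Filter Metric Topology Finset

variable {X : Type} [NormedAddCommGroup X] [NormedSpace ℝ X]

lemma sep (Y : Submodule ℝ X) (hY : IsClosed (Y : Set X)) {a : X} (ha : a ∉ Y) :
    ∃ η : X →L[ℝ] ℝ, η a = 1 ∧ ∀ y ∈ Y, η y = 0 := by
  obtain ⟨f, u, h1, h2⟩ := geometric_hahn_banach_closed_point Y.convex hY ha
  have h3 : 0 < f a := by simpa using (h1 0 Y.zero_mem).trans h2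
  refine ⟨(f a)⁻¹ • f, inv_mul_cancel₀ h3.ne', fun y hy => mul_eq_zero_of_right _ ?_⟩
  by_contra h
  have := h1 ((u / f y) • y) (Y.smul_mem _ hy)
  rw [map_smul, smul_eq_mul, div_mul_cancel₀ _ (show f y ≠ 0 from h)] at this
  exact this.false

lemma sep' [CompleteSpace X] {Y : Type} [NormedAddCommGroup Y] [NormedSpace ℝ Y] (J : X →ₗᵢ[ℝ] Y)
    {a : Y} (ha : ∀ x, J x ≠ a) : ∃ η : Y →L[ℝ] ℝ, η a = 1 ∧ ∀ x, η (J x) = 0 :=
  (sep J.range J.isometry.isClosedEmbedding.isClosed_range fun ⟨x, h⟩ => ha x h).imp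
    fun _ h => ⟨h.1, fun x => h.2 _ ⟨x, rfl⟩⟩

lemma refl {Q : Type} [NormedAddCommGroup Q] [NormedSpace ℝ Q] [FiniteDimensional ℝ Q]
    (F : (X →L[ℝ] ℝ) →L[ℝ] ℝ) (π : X →L[ℝ] Q) (h : ∀ y, ‖π y‖ ≤ ‖y‖) : ∃ q : Q, ‖q‖ ≤ ‖F‖ ∧
    ∀ g : Q →ₗ[ℝ] ℝ, g q = F (g.toContinuousLinearMap ∘L π) := by
  let q := (Module.evalEquiv ℝ Q).symm
    { toFun := fun g => F (g.toContinuousLinearMap ∘L π)
      map_add' := fun _ _ => by simp
      map_smul' := fun _ _ => by simp }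
  have h1 : ∀ g : Q →ₗ[ℝ] ℝ, g q = F (g.toContinuousLinearMap ∘L π) :=
    fun g => Module.apply_evalEquiv_symm_apply ℝ _ g _
  obtain ⟨g, h2, h3⟩ := exists_dual_vector'' ℝ q
  exact ⟨q, h3.symm.trans_le ((h1 g).trans_le ((le_abs_self _).trans (F.unit_le_opNorm _
    (ContinuousLinearMap.opNorm_le_bound _ zero_le_one fun y => (g.le_of_opNorm_le h2 _).trans
      (mul_le_mul_of_nonneg_left (h y) zero_le_one))))), h1⟩

lemma helly (F : (X →L[ℝ] ℝ) →L[ℝ] ℝ) (H : Finset (X →L[ℝ] ℝ)) :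
    ∃ x, ‖x‖ ≤ ‖F‖ + 1 ∧ ∀ h ∈ H, h x = F h := by
  let T := ContinuousLinearMap.pi fun h : H => h.1
  have := T.isClosed_ker
  have : FiniteDimensional ℝ (X ⧸ T.ker) := T.toLinearMap.quotKerEquivRange.symm.finiteDimensional
  obtain ⟨q, h3, h1⟩ := refl (Q := X ⧸ T.ker) F T.ker.mkQL (Submodule.Quotient.norm_mk_le _)
  obtain ⟨x, h4, h5⟩ := Submodule.Quotient.norm_mk_lt q one_pos
  refine ⟨x, h5.le.trans (add_le_add_left h3 _), fun h hh => ?_⟩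
  have := h1 (T.ker.liftQ h.toLinearMap fun y hy => congrFun hy ⟨h, hh⟩)
  rw [← h4] at this
  exact this

lemma net (s : Finset X) : ∃ H : Finset (X →L[ℝ] ℝ), (∀ h ∈ H, ‖h‖ ≤ 1) ∧
    ∀ u ∈ Submodule.span ℝ (s : Set X), u = 0 ∨ ∃ h ∈ H, ‖u‖ ≤ 2 * h u := by
  obtain ⟨H, e1, e2, hH⟩ := ((isCompact_sphere (0 : Submodule.span ℝ (s : Set X)) 1).image
    continuous_subtype_val).elim_finite_subcover_image (b := {h : X →L[ℝ] ℝ | ‖h‖ ≤ 1})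
    (c := fun h => {u | 1 < 2 * h u})
    (fun h _ => isOpen_lt continuous_const (continuous_const.mul h.continuous)) (by
      rintro _ ⟨u, hu, rfl⟩
      obtain ⟨g, h2, h3⟩ := exists_dual_vector'' ℝ u.1
      refine Set.mem_iUnion₂.2 ⟨g, h2, ?_⟩
      rw [Set.mem_ofPred_eq, h3, show ‖u.1‖ = 1 from mem_sphere_zero_iff_norm.1 hu]
      simp)
  refine ⟨e2.toFinset, fun h hh => e1 (e2.mem_toFinset.1 hh),
    fun u hu => or_iff_not_imp_left.2 fun h0 => ?_⟩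
  have h1 := norm_pos_iff.2 h0
  obtain ⟨h, h2, h3⟩ := Set.mem_iUnion₂.1 (hH ⟨⟨‖u‖⁻¹ • u, Submodule.smul_mem _ _ hu⟩,
    mem_sphere_zero_iff_norm.2 (norm_smul_inv_norm (𝕜 := ℝ) h0), rfl⟩)
  refine ⟨h, e2.mem_toFinset.2 h2, ?_⟩
  rw [Set.mem_ofPred_eq, map_smul, smul_eq_mul, mul_left_comm, lt_inv_mul_iff₀ h1, mul_one] at h3
  exact h3.le

lemma step [CompleteSpace X] {Y : Type} [NormedAddCommGroup Y] [NormedSpace ℝ Y]
    (J : X →ₗᵢ[ℝ] Y →L[ℝ] ℝ) (F : Y →L[ℝ] ℝ) (h : ∀ x, J x ≠ F) : ∃ C, 0 < C ∧ ∀ s : Finset X,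
    ∃ g : Y, ‖g‖ ≤ C ∧ F g = 1 ∧ ∀ y ∈ s, J y g = 0 := by
  classical
  obtain ⟨Λ, h1, h2⟩ := sep' J h
  refine ⟨‖Λ‖ + 1, by positivity, fun s => ?_⟩
  obtain ⟨g, e1, e2⟩ := helly Λ (insert F (s.image J))
  exact ⟨g, e1, (e2 _ (mem_insert_self _ _)).trans h1,
    fun y hy => (e2 _ (mem_insert_of_mem (mem_image_of_mem _ hy))).trans (h2 y)⟩

lemma step' [CompleteSpace X] (F : (X →L[ℝ] ℝ) →L[ℝ] ℝ) (hF : ∀ x : X, ∃ f, F f ≠ f x) :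
    ∃ C, 0 < C ∧ ∀ s : Finset X, ∃ g : X →L[ℝ] ℝ, ‖g‖ ≤ C ∧ F g = 1 ∧ ∀ y ∈ s, g y = 0 :=
  step (Y := StrongDual ℝ X) (NormedSpace.inclusionInDoubleDualLi ℝ) F
    fun x hx => (hF x).elim fun f hf => hf (DFunLike.congr_fun hx f).symm

lemma pre [CompleteSpace X] (F : (X →L[ℝ] ℝ) →L[ℝ] ℝ) (hF : ∀ x : X, ∃ f, F f ≠ f x) :
    ∃ (L : ℝ) (x : ℕ → X) (g : ℕ → X →L[ℝ] ℝ), 0 < L ∧ (∀ n, ‖x n‖ ≤ ‖F‖ + 1) ∧ (∀ n, ‖g n‖ ≤ L) ∧
      (∀ n m, g n (x m) = if m < n then 0 else 1) ∧ ∀ n, ∀ c : ℕ → ℝ, ∃ h : X →L[ℝ] ℝ, ‖h‖ ≤ 1 ∧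
        ‖∑ i ∈ range n, c i • x i‖ ≤ 2 * h (∑ i ∈ range n, c i • x i) ∧ ∀ m ≥ n, h (x m) = F h := by
  obtain ⟨L, h1, h2⟩ := step' F hF
  obtain ⟨σ, h3, h4⟩ := exists_seq_of_forall_finset_exists
    (fun q : X × (X →L[ℝ] ℝ) × Finset (X →L[ℝ] ℝ) × Finset X => ‖q.1‖ ≤ ‖F‖ + 1 ∧
      ‖q.2.1‖ ≤ L ∧ F q.2.1 = 1 ∧ (∀ y ∈ q.2.2.2, q.2.1 y = 0) ∧ (∀ h ∈ q.2.2.1, ‖h‖ ≤ 1) ∧
      (∀ u ∈ Submodule.span ℝ (q.2.2.2 : Set X), u = 0 ∨ ∃ h ∈ q.2.2.1, ‖u‖ ≤ 2 * h u) ∧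
      ∀ h, h = q.2.1 ∨ h ∈ q.2.2.1 → h q.1 = F h)
    (fun p q => p.1 ∈ q.2.2.2 ∧ ∀ h, h = p.2.1 ∨ h ∈ p.2.2.1 → h q.1 = F h) fun S _ => by
      obtain ⟨s, hs⟩ : ∃ s : Finset X, ∀ p ∈ S, p.1 ∈ s := by
        classical
        exact ⟨S.image (·.1), fun p hp => mem_image_of_mem _ hp⟩
      obtain ⟨g, e1, e2, e7⟩ := h2 s
      obtain ⟨H, e3, e4⟩ := net s
      obtain ⟨T, e8, e9⟩ : ∃ T : Finset (X →L[ℝ] ℝ), (∀ h, h = g ∨ h ∈ H → h ∈ T) ∧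
          ∀ p ∈ S, ∀ h, h = p.2.1 ∨ h ∈ p.2.2.1 → h ∈ T := by
        let _ := Classical.decEq (X →L[ℝ] ℝ)
        refine ⟨insert g H ∪ S.biUnion fun p => insert p.2.1 p.2.2.1, ?_⟩
        simp only [mem_union, mem_insert, mem_biUnion]
        exact ⟨fun h hh => .inl hh, fun p hp h hh => .inr ⟨p, hp, hh⟩⟩
      obtain ⟨x, e5, e6⟩ := helly F T
      exact ⟨(x, g, H, s), ⟨e5, e1, e2, e7, e3, e4, fun h hh => e6 h (e8 h hh)⟩,
        fun p hp => ⟨hs p hp, fun h hh => e6 h (e9 p hp h hh)⟩⟩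
  have h5 : ∀ n m, n ≤ m → ∀ h, h = (σ n).2.1 ∨ h ∈ (σ n).2.2.1 → h (σ m).1 = F h := fun n m e =>
    e.eq_or_lt.elim (fun e => e ▸ (h3 n).2.2.2.2.2.2) fun e => (h4 n m e).2
  refine ⟨L, fun n => (σ n).1, fun n => (σ n).2.1, h1, fun n => (h3 n).1, fun n => (h3 n).2.1,
    fun n m => ?_, fun n c => ?_⟩
  · split_ifs with e
    · exact (h3 n).2.2.2.1 _ (h4 m n e).1
    · exact (h5 n m (not_lt.1 e) _ (.inl rfl)).trans (h3 n).2.2.1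
  · rcases (h3 n).2.2.2.2.2.1 (∑ i ∈ range n, c i • (σ i).1) (Submodule.sum_mem _ fun i hi =>
      Submodule.smul_mem _ _ (Submodule.subset_span (h4 i n (mem_range.1 hi)).1)) with e | ⟨h, e1, e2⟩
    · exact ⟨0, by simp [e]⟩
    · exact ⟨h, (h3 n).2.2.2.2.1 h e1, e2, fun m hm => h5 n m hm h (.inr e1)⟩

theorem seq [CompleteSpace X] (F : (X →L[ℝ] ℝ) →L[ℝ] ℝ) (hF : ∀ x : X, ∃ f, F f ≠ f x) :
    ∃ (C : ℝ) (x : ℕ → X) (g : ℕ → X →L[ℝ] ℝ), 0 < C ∧ (∀ n, ‖x n‖ ≤ C) ∧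
      (∀ n m, g n (x m) = if m < n then 0 else 1) ∧
      ∀ b ∈ (Submodule.span ℝ (Set.range x)).topologicalClosure, Tendsto (g · b) atTop (𝓝 0) ∧
        Tendsto (fun n => ∑ i ∈ range n, (g i b - g (i + 1) b) • x i) atTop (𝓝 b) := by
  obtain ⟨L, x, g, h1, h3, h4, h6, h5⟩ := pre F hF
  let P n : X →L[ℝ] X := ∑ i ∈ range n, (g i - g (i + 1)).smulRight (x i)
  have h7 : ∀ n b, P n b = ∑ i ∈ range n, (g i b - g (i + 1) b) • x i := fun n b => by simp [P]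
  have h8 : ∀ n m, P n (x m) = if m < n then x m else 0 := fun n m => by
    refine (h7 _ _).trans (Eq.trans (sum_congr rfl fun i _ => ?_)
      ((sum_ite_eq (range n) m x).trans (by simp only [mem_range])))
    rw [h6, h6]
    rcases lt_trichotomy m i with e | rfl | e
    · simp [e, e.ne, Nat.lt_succ_of_lt e]
    · simp
    · simp [e.ne', e.not_gt, e.not_ge]
  let K := 2 * (1 + L * ‖F‖)
  have h9 : ∀ b ∈ Submodule.span ℝ (Set.range x), ∀ n, ‖P n b‖ ≤ K * ‖b‖ := fun b hb n => by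
    obtain ⟨h, e4, e2, e1⟩ := h5 n fun i => g i b - g (i + 1) b
    rw [← h7] at e2
    have e3 : h b = h (P n b) + g n b * F h := by
      refine LinearMap.eqOn_span (f := h.toLinearMap) (g := (h ∘L P n + (g n).smulRight (F h) :
        X →L[ℝ] ℝ).toLinearMap) ?_ hb
      rintro _ ⟨m, rfl⟩
      show h (x m) = h (P n (x m)) + g n (x m) * F h
      rw [h8, h6]
      split_ifs with e
      · simp
      · simpa using e1 m (not_lt.1 e)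
    have e5 := abs_le.1 (h.le_of_opNorm_le e4 b)
    have e6 := abs_le.1 ((abs_mul _ _).trans_le (mul_le_mul ((g n).le_of_opNorm_le (h4 n) b)
      (F.unit_le_opNorm h e4) (abs_nonneg _) (by positivity)))
    simp only [K]
    linarith
  have h10 : ∀ b ∈ Submodule.span ℝ (Set.range x), ∀ᶠ n in atTop, g n b = 0 ∧ P n b = b :=
    fun b hb => Submodule.span_induction (fun _ ⟨m, e⟩ => (eventually_gt_atTop m).mono fun n hn => by
      simp [← e, h6, h8, hn]) (by simp) (fun _ _ _ _ h h' => (h.and h').mono fun n e => by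
      simp [e.1.1, e.1.2, e.2.1, e.2.2]) (fun _ _ _ h => h.mono fun n e => by simp [e.1, e.2]) hb
  refine ⟨‖F‖ + 1, x, g, by positivity, h3, h6, fun b hb => ?_⟩
  have e1 : ∀ n, ∀ b ∈ (Submodule.span ℝ (Set.range x)).topologicalClosure, ‖P n b‖ ≤ K * ‖b‖ :=
    fun n => closure_minimal (fun b hb => h9 b hb n) (isClosed_le (P n).continuous.norm
      (continuous_const.mul continuous_norm))
  have e2 : 0 < K := by positivity
  simp only [← h7]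
  constructor <;> refine Metric.tendsto_nhds.2 fun ε hε => ?_
  · obtain ⟨c, e3, e4⟩ := Metric.mem_closure_iff.1 hb (ε / L) (by positivity)
    refine (h10 c e3).mono fun n hn => ?_
    rw [← hn.1, dist_eq_norm, ← map_sub]
    exact ((g n).le_of_opNorm_le (h4 n) _).trans_lt
      ((lt_div_iff₀' (by positivity)).1 (dist_eq_norm b c ▸ e4))
  · obtain ⟨c, e3, e4⟩ := Metric.mem_closure_iff.1 hb (ε / (K + 1)) (by positivity)
    refine (h10 c e3).mono fun n hn => ?_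
    have := e1 n (b - c) (Submodule.sub_mem _ hb (subset_closure e3))
    rw [map_sub, hn.2, ← dist_eq_norm, ← dist_eq_norm] at this
    linarith [dist_triangle_right (P n b) b c, (lt_div_iff₀' (by positivity)).1 e4]

end Pool.Agent.H9.Nbr
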