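import Pool.Agent.H9.Ghost3
import Pool.Agent.H9.Nbr

/-! More on the triangular truncation: polarisation, density and a local annihilator lemma. -/
namespace Pool.Agent.H9.Ghost
open Filter Metric Topology Finset Hyper Wcr

variable {H : Type} [NormedAddCommGroup H] [InnerProductSpace ℝ H] [CompleteSpace H]
  {v : ℕ → H} (hv : ∀ i, ‖v i‖ ≤ 1)

lemma is_const_of_succ {f : ℕ → ℝ} (h : ∀ i, f (i + 1) = f i) (i n : ℕ) : f i = f n :=
  have : ∀ n, f n = f 0 := fun n => Nat.rec rfl (fun n e => (h n).trans e) n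
  (this i).trans (this n).symm

lemma ext_hb {K X : Type} [AddCommGroup K] [Module ℝ K] [NormedAddCommGroup X] [NormedSpace ℝ X]
    (P : Submodule ℝ K) (T : K →ₗ[ℝ] X) (φ : K →ₗ[ℝ] ℝ) (hT : ∀ κ, T κ = 0 → κ = 0) {η A : ℝ}
    (hη : 0 < η) (h : ∀ κ ∈ P, ‖T κ‖ ≤ η → φ κ ≤ A) : ∃ g : X →L[ℝ] ℝ, ∀ κ ∈ P, g (T κ) = φ κ := by
  let E := P.equivMapOfInjective T ((injective_iff_map_eq_zero T).2 hT)
  let f := φ ∘ₗ P.subtype ∘ₗ E.symm.toLinearMap
  have h1 : ∀ q : P.map T, ‖q‖ ≤ η → f q ≤ A := fun q hq => h (E.symm q) (E.symm q).2 (by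
    rwa [show T (E.symm q) = q from congrArg Subtype.val (E.apply_symm_apply q)])
  obtain ⟨g, hg, -⟩ := exists_extension_norm_eq (P.map T) (f.mkContinuous _
    (f.bound_of_ball_bound' hη A fun q hq => abs_le.2 ⟨neg_le.1 (by
      simpa using h1 (-q) (by simpa using hq)), h1 q (by simpa using hq)⟩))
  exact ⟨g, fun κ hκ => (hg (E ⟨κ, hκ⟩)).trans (congrArg (fun k : P => φ k)
    (E.symm_apply_apply ⟨κ, hκ⟩))⟩

include hv

lemma tl_smul (c : ℝ) (y : V →L[ℝ] ℝ) (i : ℕ) : tl v (c • y) i = c • tl v y i :=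
  (tsum_congr fun _ => mul_smul _ _ _).trans ((sm hv y i).tsum_const_smul c)

lemma tl_add (y z : V →L[ℝ] ℝ) (i : ℕ) : tl v (y + z) i = tl v y i + tl v z i :=
  (tsum_congr fun _ => add_smul _ _ _).trans ((sm hv y i).tsum_add (sm hv z i))

/-- the synthesis map -/
noncomputable def WL : (V →L[ℝ] ℝ) →ₗ[ℝ] H := ⟨⟨(tl v · 0), (tl_add hv · · 0)⟩, (tl_smul hv · · 0)⟩

/-- the truncation as a linear map -/
noncomputable def RL : (V →L[ℝ] ℝ) →ₗ[ℝ] V where
  toFun := R hv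
  map_add' y z := eq_add_of_sub_eq (by rw [← R_sub, add_sub_cancel_right])
  map_smul' c y := ZeroAtInftyContinuousMap.ext fun i => by
    show -inner ℝ _ (_ + _) = c * -inner ℝ _ (_ + _)
    simp only [tl_smul hv, inner_add_right, real_inner_smul_right]
    ring

lemma RL_self (y : V →L[ℝ] ℝ) : y (RL hv y) = -‖WL hv y‖ ^ 2 := R_self hv y

lemma polar (y z : V →L[ℝ] ℝ) (h : WL hv z = 0) : y (RL hv z) + z (RL hv y) = 0 := by
  have := RL_self hv (y + z)
  simp only [map_add, add_apply, RL_self, h, add_zero, norm_zero] at this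
  linarith

lemma ann (hf : ∀ i m, ∃ j ≥ m, v j = v i) {x : V} {A : ℝ} (h : ∀ κ, WL hv κ = 0 → κ x ≤ A) :
    x = 0 := ZeroAtInftyContinuousMap.ext fun i => by
  choose j h1 h2 using hf i
  refine tendsto_nhds_unique (tendsto_const_nhds.congr fun m => show ev i x = ev (j m) x from ?_)
    ((zero0 x).comp (tendsto_atTop_mono h1 tendsto_id))
  by_contra e
  obtain ⟨c, hc⟩ : ∃ c, c * (ev i x - ev (j m) x) = A + 1 := ⟨_, div_mul_cancel₀ _ (sub_ne_zero.2 e)⟩
  have := h (c • ev i - c • ev (j m)) ((tl_sub hv _ _ _).trans (by simp [tl_ev, h2]))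
  simp only [sub_apply, smul_apply, smul_eq_mul] at this
  linarith

lemma R_inj (h0 : ∀ i, v i ≠ 0) {g : V →L[ℝ] ℝ} (h : RL hv g = 0) : g = 0 := by
  have h1 : ∀ i, ‖tl v g (i + 1)‖ ^ 2 = ‖tl v g i‖ ^ 2 := fun i => by
    have : -inner ℝ (v i) (tl v g i + tl v g (i + 1)) = 0 := congrArg (fun x : V => x i) h
    have e := congrArg (g (e i) * ·) (neg_eq_zero.1 this)
    simp only [mul_zero] at e
    rw [← real_inner_smul_left, ← sub_eq_iff_eq_add.2 (tl_succ hv g i), inner_sub_left,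
      inner_add_right, inner_add_right, real_inner_self_eq_norm_sq, real_inner_self_eq_norm_sq,
      real_inner_comm] at e
    linarith
  have h2 : ∀ i, tl v g i = 0 := fun i => by
    have := tendsto_nhds_unique (tendsto_const_nhds.congr (is_const_of_succ h1 i))
      ((tl_zero (v := v) g).norm.pow 2)
    simpa using this
  refine ContinuousLinearMap.ext fun x => tendsto_nhds_unique (rep g x)
    (tendsto_const_nhds.congr fun n => (sum_eq_zero fun i _ => ?_).symm)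
  rw [show g (e i) = 0 by simpa [h2, h0 i] using (tl_succ hv g i).symm, mul_zero]

lemma dense (hf : ∀ i m, ∃ j ≥ m, v j = v i) (h0 : ∀ i, v i ≠ 0) (y : V →L[ℝ] ℝ) (p : V) {δ : ℝ}
    (hδ : 0 < δ) : ∃ z, WL hv z = WL hv y ∧ ‖RL hv z - p‖ < δ := by
  have : p - RL hv y ∈ ((WL hv).ker.map (RL hv)).topologicalClosure := by
    by_contra h
    obtain ⟨g, h1, h2⟩ := Nbr.sep _ isClosed_closure h
    rw [R_inj hv h0 (g := g) (ann hv hf (A := 0) fun κ hκ => by
      linarith [polar hv g κ hκ, h2 _ (subset_closure ⟨κ, hκ, rfl⟩)])] at h1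
    simp at h1
  obtain ⟨_, ⟨κ, h1, rfl⟩, h2⟩ := Metric.mem_closure_iff.1 this δ hδ
  refine ⟨y + κ, by rw [map_add, show WL hv κ = 0 from h1, add_zero], ?_⟩
  rwa [dist_comm, dist_eq_norm, ← sub_add, sub_add_eq_add_sub, add_comm, ← map_add] at h2

lemma hb (hf : ∀ i m, ∃ j ≥ m, v j = v i) (h0 : ∀ i, v i ≠ 0) {x : V} {A η : ℝ} (hη : 0 < η)
    (h : ∀ κ, WL hv κ = 0 → ‖RL hv κ‖ < η → κ x ≤ A) : ∃ g, x = -RL hv g := by
  obtain ⟨g, hg⟩ := ext_hb (K := V →L[ℝ] ℝ) (WL hv).ker (RL hv)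
    ⟨⟨fun κ => κ x, fun _ _ => rfl⟩, fun _ _ => rfl⟩ (fun κ => R_inj hv h0) (half_pos hη)
    fun κ e1 e2 => h κ e1 (e2.trans_lt (half_lt_self hη))
  refine ⟨g, eq_neg_of_add_eq_zero_left (ann hv hf (A := 0) fun κ hκ => ?_)⟩
  have h2 : g (RL hv κ) = κ x := hg κ hκ
  rw [map_add]
  linarith [polar hv g κ hκ]

end Pool.Agent.H9.Ghost
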