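import Pool.Agent.H9.Ghost4

/-! An operator of type (FPV) on `ℝ × c₀` whose domain misses a hyperplane it crosses. -/
namespace Pool.Agent.H9.Ghost
open Filter Metric Topology Finset Hyper Wcr

lemma hf (i m : ℕ) : ∃ j ≥ m, v j = v i := ⟨i.unpair.1.pair m, Nat.right_le_pair _ _, by simp [v]⟩

lemma v_ne (i : ℕ) : v i ≠ 0 := norm_pos_iff.1 ((u_norm _).symm ▸ by positivity)

noncomputable def co (k : ℕ) (s : ℝ) : ℝ := max 0 (1 - (3 / 2) ^ k / 4 * |s|)

noncomputable def ξ (s : ℝ) : L2 := ∑' k, co k s • u k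

lemma co_sum (s : ℝ) : Summable fun k => co k s • u k :=
  .of_norm_bounded summable_geometric_two fun k => (norm_smul _ _).trans_le ((u_norm k).symm ▸
    mul_le_of_le_one_left (by positivity) (abs_le.2 ⟨le_max_of_le_left (by simp),
      max_le zero_le_one (sub_le_self _ (by positivity))⟩))

lemma ξ_sub (s t : ℝ) : ‖ξ s - ξ t‖ ≤ |s - t| := by
  have := (hasSum_geometric_of_lt_one (r := (3 / 4 : ℝ)) (by norm_num) (by norm_num)).mul_right
    (|s - t| / 4)
  rw [ξ, ξ, ← (co_sum s).tsum_sub (co_sum t)]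
  refine (tsum_of_norm_bounded this fun k => ?_).trans_eq (by ring)
  rw [← sub_smul, norm_smul, u_norm, show (3 / 4 : ℝ) = 3 / 2 * (1 / 2) by norm_num, mul_pow,
    mul_right_comm]
  rw [co, co, max_comm, max_comm 0]
  refine mul_le_mul_of_nonneg_right ((abs_max_sub_max_le_abs _ _ _).trans ?_) (by positivity)
  rw [sub_sub_sub_cancel_left, ← mul_sub, abs_mul, abs_of_pos (by positivity), abs_sub_comm,
    div_mul_eq_mul_div, mul_div_assoc]
  exact mul_le_mul_of_nonneg_left (div_le_div_of_nonneg_right (abs_abs_sub_abs_le s t)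
    (by simp)) (by positivity)

lemma ξ_ex {s : ℝ} (h : s ≠ 0) : ∃ y, WL hv y = ξ s := by
  obtain ⟨n, hn⟩ := eventually_atTop.1 ((tendsto_pow_atTop_atTop_of_one_lt
    (show (1 : ℝ) < 3 / 2 by norm_num)).eventually_ge_atTop (4 / |s|))
  refine ⟨∑ k ∈ range n, co k s • ev (k.pair 0), (map_sum _ _ _).trans ((sum_congr rfl fun k _ =>
    (tl_ev _ _).trans (by simp [v])).trans (tsum_eq_sum fun k hk => ?_).symm)⟩
  have := (div_le_iff₀ (abs_pos.2 h)).1 (hn k (by simpa using hk))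
  rw [co, max_eq_left (by linarith), zero_smul]

lemma ξ_ne (y : V →L[ℝ] ℝ) : WL hv y ≠ ξ 0 := fun h => ne y (h.trans (by simp [ξ, co]))

/-- the operator -/
def Op : Set ((ℝ × V) × (ℝ × V →L[ℝ] ℝ)) := {p | ∃ s y, WL hv y = ξ s ∧ p = pt s s y}

lemma Op_mono : ∀ p ∈ Op, ∀ q ∈ Op, 0 ≤ (p.2 - q.2) (p.1 - q.1) := by
  rintro _ ⟨s, y, e1, rfl⟩ _ ⟨t, z, e2, rfl⟩
  have := rel s s t t y z 0
  rw [add_zero, show tl v y 0 = _ from e1, show tl v z 0 = _ from e2, map_zero] at this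
  refine le_of_le_of_eq ?_ this.symm
  linarith [pow_le_pow_left₀ (norm_nonneg _) (ξ_sub s t) 2, sq_abs (s - t)]

theorem Op_fpv (U : Set (ℝ × V)) (hU : IsOpen U) (a) (ha : a ∈ Op) (h1 : a.1 ∈ U) (x : ℝ × V)
    (hx : x ∈ U) (φ : ℝ × V →L[ℝ] ℝ) (h : ∀ p ∈ Op, p.1 ∈ U → 0 ≤ (φ - p.2) (x - p.1)) :
    (x, φ) ∈ Op := by
  obtain ⟨s, x⟩ := x
  obtain ⟨t, y, rfl⟩ : ∃ t y, φ = (pt s t y).2 := ⟨φ (1, 0), φ ∘L ContinuousLinearMap.inr ℝ ℝ V,
    ContinuousLinearMap.ext fun a => by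
      show _ = φ (1, 0) * a.1 + φ (0, a.2)
      rw [mul_comm, ← smul_eq_mul, ← map_smul, ← map_add]
      simp⟩
  obtain ⟨x, rfl⟩ : ∃ x', x = R hv y + x' := ⟨x - R hv y, by simp⟩
  have h2 : ∀ s' z, WL hv z = ξ s' → (s', RL hv z) ∈ U →
      0 ≤ (s - s') * (t - s') + (y - z) x - ‖WL hv y - ξ s'‖ ^ 2 := fun s' z e1 e2 =>
    e1 ▸ (h _ ⟨s', z, e1, rfl⟩ e2).trans_eq (rel _ _ _ _ _ _ _)
  obtain ⟨s', z, e1, rfl⟩ := ha
  obtain ⟨η, e2, e3⟩ := Metric.isOpen_iff.1 hU _ h1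
  obtain ⟨g, rfl⟩ := hb hv hf v_ne (x := x) (A := (s - s') * (t - s') + (y - z) x) e2
    fun κ e4 e5 => by
      have := h2 s' (z + κ) (by rw [map_add, e4, add_zero, e1]) (e3 (by
        simpa [Prod.dist_eq, pt, e2, show R hv z = RL hv z from rfl] using e5))
      simp only [sub_apply, add_apply] at this ⊢
      linarith [sq_nonneg ‖WL hv y - ξ s'‖]
  obtain ⟨y, rfl⟩ : ∃ y', y = y' + g := ⟨y - g, by simp⟩
  rw [show R hv (y + g) + -RL hv g = RL hv y by
    rw [show R hv (y + g) = _ from (RL hv).map_add y g, add_neg_cancel_right]] at hx h ⊢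
  obtain ⟨δ, e4, e5⟩ := Metric.isOpen_iff.1 hU _ hx
  have h3 : ∀ q : V, ‖q‖ < δ → ∀ s' ∈ ball s δ, g q + ‖WL hv y - ξ s'‖ ^ 2 ≤ (s - s') * (t - s') :=
    fun q hq s' hs => by
      have e6 : Continuous ξ := (LipschitzWith.of_dist_le_mul (K := 1) fun a b => by
        simpa [dist_eq_norm] using ξ_sub a b).continuous
      refine closure_minimal (t := {s' | g q + ‖WL hv y - ξ s'‖ ^ 2 ≤ (s - s') * (t - s')})
        (fun s' hs => Set.mem_ofPred.2 (le_of_forall_pos_le_add fun ε hε => ?_))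
        (isClosed_le (by fun_prop) (by fun_prop))
        ((dense_compl_singleton (0 : ℝ)).open_subset_closure_inter isOpen_ball hs)
      obtain ⟨z, hz⟩ := ξ_ex hs.2
      obtain ⟨z, e7, e8⟩ := dense hv hf v_ne z (RL hv y + q) (δ := min (δ - ‖q‖) (ε / (‖g‖ + 1)))
        (lt_min (sub_pos.2 hq) (by positivity))
      have e9 := norm_add_le (RL hv z - (RL hv y + q)) q
      rw [show RL hv z - (RL hv y + q) + q = RL hv z - RL hv y by abel] at e9
      obtain ⟨e10, e11⟩ := lt_min_iff.1 e8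
      have a1 := h _ ⟨s', z, e7.trans hz, rfl⟩ (e5 (max_lt hs.1
        ((dist_eq_norm (RL hv z) _).trans_lt (by linarith))))
      have a2 := RL_self hv (y - z)
      have a3 := (neg_le_abs _).trans (g.le_opNorm (RL hv z - (RL hv y + q)))
      have a4 := mul_le_mul_of_nonneg_left e11.le (norm_nonneg g)
      have a5 : ‖g‖ * (ε / (‖g‖ + 1)) ≤ ε := by
        rw [mul_div_left_comm]
        exact mul_le_of_le_one_right hε.le (div_le_one_of_le₀ (by linarith) (by positivity))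
      rw [map_sub (WL hv), e7, hz] at a2
      simp only [pt, show R hv z = RL hv z from rfl, sub_apply, add_apply, map_sub, map_add,
        smul_apply, smul_eq_mul, ContinuousLinearMap.coe_fst', ContinuousLinearMap.comp_apply,
        ContinuousLinearMap.coe_snd'] at a1 a2 a3
      linarith
  have h4 : WL hv y = ξ s := sub_eq_zero.1 (by simpa using h3 0 (by simpa) s (mem_ball_self e4))
  obtain rfl : g = 0 := norm_le_zero_iff.1 (by
    simpa using g.opNorm_bound_of_ball_bound (half_pos e4) 0 fun q hq => by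
      have e6 := (mem_closedBall_zero_iff.1 hq).trans_lt (half_lt_self e4)
      have e7 := h3 q e6 s (mem_ball_self e4)
      have e8 := h3 (-q) (by simpa) s (mem_ball_self e4)
      simp [h4] at e7 e8
      simp [e7.antisymm e8])
  obtain rfl : t = s := by
    by_contra e
    obtain ⟨c, e6, e7, e8⟩ : ∃ c, 0 < c ∧ c < 1 ∧ c * |t - s| < δ := ⟨δ / (δ + |t - s|),
      by positivity, (div_lt_one (by positivity)).2 (by simpa using sub_ne_zero.2 e), by
        rw [div_mul_eq_mul_div, div_lt_iff₀ (by positivity)]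
        nlinarith⟩
    have := (sq_nonneg _).trans (by
      simpa using h3 0 (by simpa) (s + c * (t - s)) (by simpa [abs_of_pos e6] using e8))
    nlinarith [mul_pos (mul_pos e6 (sub_pos.2 e7)) (sq_pos_of_ne_zero (sub_ne_zero.2 e))]
  exact ⟨t, y, h4, by rw [add_zero]; rfl⟩

lemma Op_ex {s : ℝ} (h : s ≠ 0) : ∃ p ∈ Op, p.1.1 = s :=
  (ξ_ex h).elim fun y hy => ⟨_, ⟨s, y, hy, rfl⟩, rfl⟩

lemma Op_ne : ∀ p ∈ Op, p.1.1 ≠ 0 := by
  rintro _ ⟨s, y, e, rfl⟩ (rfl : s = 0)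
  exact ξ_ne y e

end Pool.Agent.H9.Ghost
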