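import Pool.Agent.H9.Ghost4

/-! A maximally monotone operator on `ℓ² × c₀` with convex domain that is not of type (FPV). -/
namespace Pool.Agent.H9.Ghost
open Filter Metric Topology Finset Hyper Wcr RealInnerProductSpace

variable {H : Type} [NormedAddCommGroup H] [InnerProductSpace ℝ H] [CompleteSpace H]

lemma np {a b : ℝ} (h : ∀ c ≥ 0, c * a ≤ b) : a ≤ 0 := le_of_not_gt fun e => by
  have := h ((|b| + 1) / a) (by positivity)
  rw [div_mul_cancel₀ _ e.ne'] at this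
  linarith [le_abs_self b]

/-- polar cone -/
def pol (G : Set H) : Set H := {s | ∀ n ∈ G, ⟪n, s⟫ ≤ 0}

omit [CompleteSpace H] in
lemma pol_smul {G : Set H} {s : H} (h : s ∈ pol G) {c : ℝ} (hc : 0 ≤ c) : c • s ∈ pol G :=
  fun n hn => (real_inner_smul_right _ _ _).trans_le (mul_nonpos_of_nonneg_of_nonpos hc (h n hn))

section
variable {v : ℕ → H} (hv : ∀ i, ‖v i‖ ≤ 1)

/-- graph points -/
noncomputable def gp (s t : H) (y : V →L[ℝ] ℝ) : (H × V) × (H × V →L[ℝ] ℝ) :=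
  ((s, RL hv y), innerSL ℝ t ∘L ContinuousLinearMap.fst ℝ H V + y ∘L ContinuousLinearMap.snd ℝ H V)

lemma rel2 (s t s' t' : H) (y y' : V →L[ℝ] ℝ) (x : V) :
    ((gp hv s t y).2 - (gp hv s' t' y').2) ((s, RL hv y + x) - (gp hv s' t' y').1) =
      ⟪t - t', s - s'⟫ + (y - y') x - ‖WL hv y - WL hv y'‖ ^ 2 := by
  have := RL_self hv (y - y')
  simp only [gp, sub_apply, add_apply, map_sub, map_add, inner_sub_left, inner_sub_right,
    ContinuousLinearMap.coe_fst', ContinuousLinearMap.comp_apply, innerSL_apply_apply,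
    ContinuousLinearMap.coe_snd'] at this ⊢
  linarith

/-- the operator attached to a cone -/
def Cop (G : Set H) : Set ((H × V) × (H × V →L[ℝ] ℝ)) := {p | ∃ y n, WL hv y ∈ pol (pol G) ∧
  n ∈ pol G ∧ ⟪n, WL hv y⟫ = 0 ∧ p = gp hv (WL hv y) (WL hv y + n) y}

lemma Cop_mono (G : Set H) : ∀ p ∈ Cop hv G, ∀ q ∈ Cop hv G, 0 ≤ (p.2 - q.2) (p.1 - q.1) := by
  rintro _ ⟨y, n, e1, e2, e3, rfl⟩ _ ⟨z, m, e4, e5, e6, rfl⟩
  have := rel2 hv (WL hv y) (WL hv y + n) (WL hv z) (WL hv z + m) y z 0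
  rw [add_zero, add_sub_add_comm, inner_add_left, real_inner_self_eq_norm_sq, inner_sub_left,
    inner_sub_right, inner_sub_right, map_zero] at this
  refine le_of_le_of_eq ?_ this.symm
  linarith [e1 m e5, e4 n e2]

lemma Cop_max (hf : ∀ i m, ∃ j ≥ m, v j = v i) {G : Set H}
    (hG : ∀ n, (∀ y, WL hv y ∈ pol (pol G) → ⟪n, WL hv y⟫ ≤ 0) → n ∈ pol G)
    (x : H × V) (φ : H × V →L[ℝ] ℝ) (h : ∀ p ∈ Cop hv G, 0 ≤ (φ - p.2) (x - p.1)) :
    (x, φ) ∈ Cop hv G := by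
  obtain ⟨s, x⟩ := x
  obtain ⟨t, y, rfl⟩ : ∃ t y, φ = (gp hv s t y).2 := ⟨(InnerProductSpace.toDual ℝ H).symm
    (φ ∘L ContinuousLinearMap.inl ℝ H V), φ ∘L ContinuousLinearMap.inr ℝ H V,
    ContinuousLinearMap.ext fun a => by
      show _ = ⟪_, a.1⟫ + φ (0, a.2)
      rw [InnerProductSpace.toDual_symm_apply]
      exact (congrArg φ (by simp)).trans (map_add φ (a.1, 0) (0, a.2))⟩
  obtain ⟨x, rfl⟩ : ∃ x', x = RL hv y + x' := ⟨x - RL hv y, by simp⟩
  have h0 : ∀ G : Set H, 0 ∈ pol G := fun G n _ => (inner_zero_right n).le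
  have h2 := fun z n e1 e2 e3 => (h _ ⟨z, n, e1, e2, e3, rfl⟩).trans_eq (rel2 hv _ _ _ _ _ _ _)
  obtain rfl := ann hv hf (x := x) (A := ⟪t, s⟫ + y x) fun κ e => by
    have := h2 κ 0 (e ▸ h0 _) (h0 _) (inner_zero_left _)
    simp only [e, add_zero, sub_zero, sub_apply] at this
    linarith [sq_nonneg ‖WL hv y‖]
  have h3 : s ∈ pol (pol G) := fun n hn => np (b := ⟪t, s⟫) fun c hc => by
    have := h2 0 (c • n) (map_zero (WL hv) ▸ h0 _) (pol_smul hn hc) (by simp)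
    simp only [map_zero, zero_add, sub_zero, inner_sub_left, real_inner_smul_left] at this
    linarith [sq_nonneg ‖WL hv y‖]
  have h4 := hG (t + s - (2 : ℝ) • WL hv y) fun z hz => np (b := ⟪t, s⟫) fun c hc => by
    have := h2 (c • z) 0 (map_smul (WL hv) c z ▸ pol_smul hz hc) (h0 _) (inner_zero_left _)
    rw [norm_sub_sq_real, ← real_inner_self_eq_norm_sq (WL hv (c • z))] at this
    simp only [map_zero, add_zero, map_smul, inner_sub_left, inner_sub_right, inner_add_left,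
      real_inner_smul_left, real_inner_smul_right, real_inner_comm s] at this ⊢
    linarith [sq_nonneg ‖WL hv y‖]
  have h5 := h3 _ h4
  have h6 := h2 0 0 (map_zero (WL hv) ▸ h0 _) (h0 _) (inner_zero_left _)
  have h7 := norm_sub_sq_real (WL hv y) s
  have h8 : ⟪t + s - (2 : ℝ) • WL hv y, s⟫ = ⟪t, s⟫ + ‖s‖ ^ 2 - 2 * ⟪WL hv y, s⟫ := by
    rw [inner_sub_left, inner_add_left, real_inner_smul_left, real_inner_self_eq_norm_sq]
  simp only [map_zero, add_zero, sub_zero] at h6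
  obtain rfl : WL hv y = s := sub_eq_zero.1 (norm_eq_zero.1 (pow_eq_zero_iff two_ne_zero |>.1
    (le_antisymm (by linarith) (sq_nonneg _))))
  refine ⟨y, _, h3, h4, le_antisymm h5 (by linarith [sq_nonneg ‖WL hv y - WL hv y‖]), ?_⟩
  rw [add_zero, show WL hv y + (t + WL hv y - (2 : ℝ) • WL hv y) = t by rw [two_smul]; abel]
  rfl

lemma Cop_cvx (G : Set H) : Convex ℝ (Prod.fst '' Cop hv G) := by
  rintro _ ⟨_, ⟨y, -, e1, -, -, rfl⟩, rfl⟩ _ ⟨_, ⟨z, -, e2, -, -, rfl⟩, rfl⟩ a c ha hc -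
  refine ⟨_, ⟨a • y + c • z, 0, fun n hn => ?_, fun n _ => (inner_zero_right n).le,
    inner_zero_left _, rfl⟩, by simp [gp]⟩
  rw [map_add, map_smul, map_smul, inner_add_right]
  exact add_nonpos (pol_smul e1 ha n hn) (pol_smul e2 hc n hn)

end

end Pool.Agent.H9.Ghost
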