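import Pool.Agent.H9.Ghost6

/-! The concrete cone. -/
namespace Pool.Agent.H9.Ghost
open Filter Metric Topology Finset Hyper Wcr RealInnerProductSpace

variable {H : Type} [NormedAddCommGroup H] [InnerProductSpace ℝ H] [CompleteSpace H]

/-- generators -/
def P (b : ℕ → H) (j : ℕ) : H := b 1 + b (j + 2)

/-- tails -/
noncomputable def Q (b : ℕ → H) (N : ℕ) : H := b 0 + ∑' j, (1 / 2 : ℝ) ^ (j + N) • P b (j + N)

/-- the spanning sequence -/
noncomputable def ω (b : ℕ → H) : ℕ → H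
  | 0 => Q b 0
  | j + 1 => (1 / 4 : ℝ) ^ j • P b j

/-- the repeated spanning sequence -/
noncomputable def ν (b : ℕ → H) (i : ℕ) : H := (1 / 5 : ℝ) • ω b i.unpair.1

variable {b : ℕ → H} (hb : Orthonormal ℝ b)
include hb

omit [CompleteSpace H] in
lemma P_le (c : ℝ) (j : ℕ) : ‖c • P b j‖ ≤ |c| * 2 := (norm_smul _ _).trans_le
  (mul_le_mul_of_nonneg_left ((norm_add_le_of_le (hb.1 _).le (hb.1 _).le).trans_eq (by norm_num))
    (abs_nonneg _))

lemma P_sum (N : ℕ) : Summable fun j => (1 / 2 : ℝ) ^ (j + N) • P b (j + N) :=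
  (summable_nat_add_iff (f := fun j => (1 / 2 : ℝ) ^ j • P b j) N).2 (.of_norm_bounded
    (summable_geometric_two.mul_right 2) fun j => (P_le hb _ j).trans_eq (by simp))

omit [CompleteSpace H] in
lemma hν (i : ℕ) : ‖ν b i‖ ≤ 1 := by
  rw [ν, norm_smul, Real.norm_of_nonneg (by norm_num)]
  rcases i.unpair.1 with - | j
  · linarith [show ‖ω b 0‖ ≤ _ from norm_add_le_of_le (hb.1 0).le (tsum_of_norm_bounded
      (hasSum_geometric_two.mul_right 2) fun j => (P_le hb _ j).trans_eq (by simp))]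
  · linarith [show ‖ω b (j + 1)‖ ≤ _ from P_le hb _ j, show |(1 / 4 : ℝ) ^ j| ≤ 1 from
      abs_le.2 ⟨by linarith [pow_pos (show (0 : ℝ) < 1 / 4 by norm_num) j],
        pow_le_one₀ (by norm_num) (by norm_num)⟩]

lemma ω_ex (c : ℝ) (k : ℕ) : WL (hν hb) ((c * 5) • ev (k.pair 0)) = c • ω b k :=
  (tl_ev _ _).trans (by simp [ν, smul_smul])

lemma P_ex (c : ℝ) (k : ℕ) : ∃ y, WL (hν hb) y = c • P b k :=
  ⟨_, (ω_ex hb (c * 4 ^ k) (k + 1)).trans (by simp [ω, smul_smul])⟩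

lemma Q_ex (N : ℕ) : ∃ y, WL (hν hb) y = Q b N := by
  induction N with
  | zero => exact ⟨_, (ω_ex hb 1 0).trans (one_smul _ _)⟩
  | succ n ih =>
    obtain ⟨y, hy⟩ := ih
    obtain ⟨z, hz⟩ := P_ex hb ((1 / 2) ^ n) n
    refine ⟨y - z, ?_⟩
    rw [map_sub, hy, hz, Q, (P_sum hb n).tsum_eq_zero_add, zero_add, Q]
    simp only [add_assoc, add_comm 1 n]
    abel

lemma Q_in (n : H) (N : ℕ) :
    ⟪n, Q b N⟫ = ⟪n, b 0⟫ + ∑' j, (1 / 2 : ℝ) ^ (j + N) * ⟪n, P b (j + N)⟫ :=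
  (inner_add_right _ _ _).trans (congrArg _ (((innerSL ℝ n).map_tsum (P_sum hb N)).trans
    (tsum_congr fun _ => real_inner_smul_right _ _ _)))

lemma Q_mem (N : ℕ) : Q b N ∈ pol (pol (insert (b 0) (Set.range (P b)))) := fun n hn => by
  rw [Q_in hb]
  exact add_nonpos (real_inner_comm n _ ▸ hn _ (.inl rfl)) (tsum_nonpos fun j =>
    mul_nonpos_of_nonneg_of_nonpos (by positivity) (real_inner_comm n _ ▸ hn _ (.inr ⟨_, rfl⟩)))

lemma G_max (n : H) (h : ∀ y, WL (hν hb) y ∈ pol (pol (insert (b 0) (Set.range (P b)))) →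
    ⟪n, WL (hν hb) y⟫ ≤ 0) : n ∈ pol (insert (b 0) (Set.range (P b))) := by
  rintro _ (rfl | ⟨j, rfl⟩)
  · refine le_of_tendsto' (x := atTop) (f := fun N => ⟪Q b N, n⟫) (Tendsto.inner ?_
      tendsto_const_nhds) fun N => (Q_ex hb N).elim fun y hy => ?_
    · have := (tendsto_sum_nat_add fun j => (1 / 2 : ℝ) ^ j • P b j).const_add (b 0)
      rwa [add_zero] at this
    · exact real_inner_comm n _ ▸ hy ▸ h y (hy ▸ Q_mem hb N)
  · obtain ⟨y, hy⟩ := P_ex hb 1 j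
    rw [one_smul] at hy
    exact real_inner_comm n _ ▸ hy ▸ h y (hy ▸ fun m hm => real_inner_comm m _ ▸ hm _ (.inr ⟨_, rfl⟩))

lemma coef (y : V →L[ℝ] ℝ) (j : ℕ) : (1 / 2 : ℝ) ^ j * ⟪b 0, WL (hν hb) y⟫ ≤
    ⟪b (j + 2), WL (hν hb) y⟫ + (∑' i, |y (e i)|) * (1 / 4) ^ j := by
  have h0 := orthonormal_iff_ite.1 hb
  have h1 : ∀ k, |⟪(1 / 2 : ℝ) ^ j • b 0 - b (j + 2), ω b k⟫| ≤ (1 / 4) ^ j := by
    rintro (- | k)
    · rw [ω, Q_in hb, tsum_eq_single j fun k e => by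
        simp [P, inner_sub_left, inner_add_right, real_inner_smul_left, h0, e.symm]]
      simp [P, inner_sub_left, inner_add_right, real_inner_smul_left, h0, hb.1]
    · simp only [ω, P, inner_sub_left, inner_add_right, real_inner_smul_left,
        real_inner_smul_right, h0]
      by_cases e : j = k
      · simp [e]
      · simp [e]
  have h2 := hasSum_le (fun i => show ⟪_, y (e (i + 0)) • ν b (i + 0)⟫ ≤ |y (e i)| * (1 / 4) ^ j by
    rw [real_inner_smul_right, ν, real_inner_smul_right]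
    refine (le_abs_self _).trans ((abs_mul _ _).trans_le (mul_le_mul_of_nonneg_left ?_
      (abs_nonneg _)))
    rw [abs_mul, abs_of_pos (by norm_num)]
    linarith [h1 (i + 0).unpair.1, abs_nonneg ⟪(1 / 2 : ℝ) ^ j • b 0 - b (j + 2),
      ω b (i + 0).unpair.1⟫]) ((innerSL ℝ ((1 / 2 : ℝ) ^ j • b 0 - b (j + 2))).hasSum
      (sm (hν hb) y 0).hasSum) ((summ y).hasSum.mul_right _)
  rw [innerSL_apply_apply, inner_sub_left, real_inner_smul_left] at h2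
  exact sub_le_iff_le_add'.1 h2

lemma nrm {y : V →L[ℝ] ℝ} {n : H} (h1 : WL (hν hb) y ∈ pol (pol (insert (b 0) (Set.range (P b)))))
    (h2 : n ∈ pol (insert (b 0) (Set.range (P b)))) (h3 : ⟪n, WL (hν hb) y⟫ = 0)
    (h4 : 0 < ⟪b 0, WL (hν hb) y⟫) : 0 ≤ ⟪b 1, n⟫ := le_of_not_gt fun h => by
  have h0 := orthonormal_iff_ite.1 hb
  have h5 := ((hb.inner_products_summable n).tendsto_atTop_zero.comp
    (tendsto_add_atTop_nat 2)).eventually_lt_const (sq_pos_of_ne_zero h.ne)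
  have h6 := ((tendsto_pow_atTop_nhds_zero_of_lt_one (r := (1 / 2 : ℝ)) (by norm_num)
    (by norm_num)).const_mul (∑' i, |y (e i)|)).eventually_lt_const ((mul_zero _).trans_lt h4)
  obtain ⟨j, e1, e2⟩ := (h5.and h6).exists
  have e3 : ⟪P b j, n⟫ < 0 := by
    rw [P, inner_add_left]
    linarith [(abs_lt_of_sq_lt_sq' (show ⟪b (j + 2), n⟫ ^ 2 < (-⟪b 1, n⟫) ^ 2 by simpa using e1)
      (neg_pos.2 h).le).2]
  have e4 := h1 (n - ⟪P b j, n⟫ • b (j + 2)) (by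
    rintro _ (rfl | ⟨k, rfl⟩)
    · simpa [inner_sub_right, real_inner_smul_right, h0] using h2 _ (.inl rfl)
    · rw [inner_sub_right, real_inner_smul_right]
      by_cases e : k = j
      · simp [e, P, inner_add_left, h0, hb.1]
      · simpa [e, P, inner_add_left, h0] using h2 _ (.inr ⟨k, rfl⟩))
  have e5 := coef hb y j
  rw [show (1 / 4 : ℝ) = 1 / 2 * (1 / 2) by norm_num, mul_pow] at e5
  rw [inner_sub_left, h3, real_inner_smul_left] at e4
  nlinarith [mul_lt_mul_of_pos_left e2 (pow_pos (show (0 : ℝ) < 1 / 2 by norm_num) j)]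

theorem cvx : ∃ (A : Set ((H × V) × (H × V →L[ℝ] ℝ))) (l : H × V →L[ℝ] ℝ),
    (∀ p ∈ A, ∀ q ∈ A, 0 ≤ (p.2 - q.2) (p.1 - q.1)) ∧
    (∀ x φ, (∀ p ∈ A, 0 ≤ (φ - p.2) (x - p.1)) → (x, φ) ∈ A) ∧ Convex ℝ (Prod.fst '' A) ∧
    (∀ p ∈ A, 0 ≤ l p.1) ∧ (∃ p ∈ A, 0 < l p.1) ∧ ∃ (x : H × V) (φ : H × V →L[ℝ] ℝ), 0 < l x ∧
      x ∉ Prod.fst '' A ∧ ∀ p ∈ A, 0 < l p.1 → 0 ≤ (φ - p.2) (x - p.1) := by
  have h0 := orthonormal_iff_ite.1 hb
  have h1 : ∀ i < 2, -b i ∈ pol (insert (b 0) (Set.range (P b))) := by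
    rintro i hi _ (rfl | ⟨k, rfl⟩)
    · rw [inner_neg_right, h0]
      split_ifs <;> simp
    · rw [inner_neg_right, P, inner_add_left, h0, h0]
      split_ifs <;> simp
  obtain ⟨y, hy⟩ := Q_ex hb 0
  refine ⟨Cop (hν hb) (insert (b 0) (Set.range (P b))),
    innerSL ℝ (b 0) ∘L ContinuousLinearMap.fst ℝ H V, Cop_mono _ _, Cop_max _ (fun i m =>
      ⟨i.unpair.1.pair m, Nat.right_le_pair _ _, by simp [ν]⟩) (G_max hb), Cop_cvx _ _, ?_,
    ⟨_, ⟨y, 0, hy ▸ Q_mem hb 0, fun n _ => (inner_zero_right n).le, inner_zero_left _, rfl⟩, ?_⟩,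
    (b 0 - b 1, RL (hν hb) 0 + 0), (gp (hν hb) (b 0 - b 1) (-b 0 - b 1) 0).2,
    show 0 < ⟪b 0, b 0 - b 1⟫ by simp [inner_sub_right, h0, hb.1], ?_, ?_⟩
  · rintro _ ⟨y, n, e, -, -, rfl⟩
    exact neg_nonpos.1 ((inner_neg_left _ _).symm.trans_le (e _ (h1 0 two_pos)))
  · show 0 < ⟪b 0, WL (hν hb) y⟫
    simp [hy, Q_in hb, P, inner_add_right, h0, hb.1]
  · rintro ⟨_, ⟨y, n, e, -, -, rfl⟩, e1⟩
    have := e _ (h1 1 one_lt_two)
    rw [show WL _ y = _ from congrArg Prod.fst e1] at this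
    norm_num [inner_sub_right, h0, hb.1] at this
  · rintro _ ⟨y, n, e1, e2, e3, rfl⟩ e4
    have e5 := nrm hb e1 e2 e3 e4
    have e6 := e2 _ (.inl rfl)
    have e7 := e1 _ (h1 1 one_lt_two)
    rw [rel2, map_zero, map_zero, zero_sub, norm_neg, ← real_inner_self_eq_norm_sq]
    simp only [inner_sub_left, inner_sub_right, inner_add_left, inner_neg_left, h0, e3,
      real_inner_comm (b _) n, real_inner_comm (b _) (WL _ y)] at e7 ⊢
    simp
    linarith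

end Pool.Agent.H9.Ghost
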