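import Mathlib

/-! One-dimensional heavy-ball cycles near `β = 1`. -/
namespace Pool.Agent.H9.HB
open Filter Topology Real

lemma cyc {η : ℝ} (hη : 0 < η) : ∃ (l : ℝ) (M : NNReal) (h : ℝ → ℝ) (x : ℕ → ℝ), 0 < l ∧ l ≤ η ∧
    LipschitzWith M h ∧ (∀ t, h (x (t + 1)) = x t) ∧ (∀ t, x (t + 2) = (2 - l) * x (t + 1) - x t) ∧
    ∀ s, ¬Tendsto x atTop (𝓝 s) := by
  obtain ⟨K, hK⟩ := exists_nat_gt (64 / η + 2)
  have k0 : 0 < 64 / η := by positivity
  have k1 : (0 : ℝ) < K := by linarith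
  obtain ⟨θ, t1⟩ : ∃ θ : ℝ, θ * K = 2 * π := ⟨2 * π / K, by field_simp⟩
  have t2 : 0 < θ := (pos_iff_pos_of_mul_pos (t1 ▸ two_pi_pos)).2 k1
  have t3 : sin θ ≠ 0 := (sin_pos_of_pos_of_lt_pi t2 (by nlinarith)).ne'
  let x : ℕ → ℝ := fun t => cos (θ * t + θ / 4)
  have a1 : x.FactorsThrough fun t => x (t + 1) := fun i j e => by
    obtain ⟨k, e | e⟩ := cos_eq_cos_iff.1 e
    · exact cos_eq_cos_iff.2 ⟨k, .inl (by push_cast at e; linarith)⟩
    · have : ((2 * (i + j + 2) + 1 : ℤ) : ℝ) = (2 * (k * K) : ℤ) :=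
        mul_left_cancel₀ t2.ne' (by push_cast at e ⊢; linear_combination 2 * e - 2 * k * t1)
      have := Int.cast_injective this
      omega
  have a2 : (Set.range fun t => x (t + 1)).Finite := by
    have : Function.Periodic (fun t => x (t + 1)) K := fun t => cos_eq_cos_iff.2
      ⟨-1, .inl (by push_cast; linarith)⟩
    exact ((Set.finite_lt_nat K).image fun t => x (t + 1)).subset fun _ ⟨t, e⟩ =>
      ⟨_, Nat.mod_lt t (Nat.cast_pos.1 k1), (this.map_mod_nat t).trans e⟩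
  let h := Function.extend (fun t => x (t + 1)) x 0
  obtain ⟨M, a3⟩ := ((a2.prod a2).image fun p => nndist (h p.1) (h p.2) / nndist p.1 p.2).bddAbove
  obtain ⟨g, a4, a5⟩ := (LipschitzOnWith.of_dist_le_mul (K := M) (f := h) fun a b c d => by
    obtain rfl | e := eq_or_ne a c
    · simp
    · exact_mod_cast (div_le_iff₀ (by simpa [pos_iff_ne_zero] using e)).1 (a3 ⟨(a, c), ⟨b, d⟩, rfl⟩)).extend_real
  have a6 : ∀ t, x (t + 2) = (2 - (2 - 2 * cos θ)) * x (t + 1) - x t := fun t => by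
    have b1 := cos_add (θ * (t + 1) + θ / 4) θ
    have b2 := cos_sub (θ * (t + 1) + θ / 4) θ
    simp only [x]
    push_cast
    ring_nf at *
    linarith
  have a7 : ∀ t, x (t + 1) ^ 2 - x (t + 2) * x t = sin θ ^ 2 := fun t => by
    have b1 := cos_add (θ * (t + 1) + θ / 4) θ
    have b2 := cos_sub (θ * (t + 1) + θ / 4) θ
    simp only [x]
    push_cast
    rw [show θ * (t + 2) + θ / 4 = θ * (t + 1) + θ / 4 + θ by ring, b1,
      show θ * t + θ / 4 = θ * (t + 1) + θ / 4 - θ by ring, b2]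
    nlinarith [sin_sq_add_cos_sq θ, sin_sq_add_cos_sq (θ * (t + 1) + θ / 4)]
  refine ⟨2 - 2 * cos θ, M, g, x, ?_, ?_, a4, fun t => (a5 ⟨t, rfl⟩).symm.trans
    (a1.extend_apply _ t), a6, fun s e => t3 (pow_eq_zero_iff two_ne_zero |>.1 ?_)⟩
  · nlinarith [sin_sq_add_cos_sq θ, sq_pos_of_ne_zero t3, neg_one_le_cos θ]
  · rw [div_add' _ _ _ hη.ne', div_lt_iff₀ hη] at hK
    have : θ * K ≤ 8 := by linarith [pi_le_four]
    have : θ ^ 2 * K ≤ η * K := by nlinarith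
    linarith [one_sub_sq_div_two_le_cos (x := θ), le_of_mul_le_mul_right this k1]
  · have := (((tendsto_add_atTop_iff_nat 1).2 e).pow 2).sub
      (((tendsto_add_atTop_iff_nat 2).2 e).mul e)
    simp only [a7] at this
    simpa [sq] using tendsto_nhds_unique tendsto_const_nhds this

lemma prim {μ L : ℝ} (hμ : 0 < μ) {g : ℝ → ℝ}
    (h : ∀ x y, x ≠ y → μ ≤ (g x - g y) / (x - y) ∧ (g x - g y) / (x - y) ≤ L) :
    ∃ f : ℝ → ℝ, Differentiable ℝ f ∧ deriv f = g ∧ ∃ s, g s = 0 ∧ ∀ y, f s ≤ f y := by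
  have a1 : ∀ x y, x ≤ y → μ * (y - x) ≤ g y - g x ∧ g y - g x ≤ L * (y - x) := fun x y e => by
    obtain rfl | e := e.eq_or_lt
    · simp
    · exact (h y x e.ne').imp (le_div_iff₀ (sub_pos.2 e)).1 (div_le_iff₀ (sub_pos.2 e)).1
  have a2 : Continuous g := (LipschitzWith.of_dist_le' (K := L) fun x y => by
    wlog e : x ≤ y generalizing x y
    · rw [dist_comm, dist_comm x]
      exact this _ _ (le_of_not_ge e)
    obtain ⟨b, c⟩ := a1 x y e
    rw [dist_eq, dist_eq, abs_sub_comm, abs_sub_comm x, abs_of_nonneg (sub_nonneg.2 e),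
      abs_of_nonneg (le_trans (by nlinarith) b)]
    exact c).continuous
  have a3 := fun y => (a2.integral_hasStrictDerivAt 0 y).hasDerivAt
  have a4 : 0 ≤ |g 0| / μ := by positivity
  have a5 : μ * (|g 0| / μ) = |g 0| := by field_simp
  obtain ⟨s, a6⟩ := mem_range_of_exists_le_of_exists_ge (c := 0) a2
    ⟨-(|g 0| / μ), by linarith [(a1 (-(|g 0| / μ)) 0 (by linarith)).1, le_abs_self (g 0)]⟩
    ⟨|g 0| / μ, by linarith [(a1 0 _ a4).1, neg_abs_le (g 0)]⟩
  have a7 := fun a b (e : a < b) => exists_hasDerivAt_eq_slope _ g e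
    (fun y _ => (a3 y).continuousAt.continuousWithinAt) fun y _ => a3 y
  refine ⟨_, fun y => (a3 y).differentiableAt, funext fun y => (a3 y).deriv, s, a6, fun y => ?_⟩
  obtain e | rfl | e := lt_trichotomy s y
  · obtain ⟨c, b1, b2⟩ := a7 _ _ e
    rw [eq_div_iff (sub_pos.2 e).ne'] at b2
    nlinarith [(a1 _ _ b1.1.le).1, mul_pos hμ (sub_pos.2 b1.1)]
  · rfl
  · obtain ⟨c, b1, b2⟩ := a7 _ _ e
    rw [eq_div_iff (sub_pos.2 e).ne'] at b2
    nlinarith [(a1 _ _ b1.2.le).1, mul_pos hμ (sub_pos.2 b1.2)]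

lemma geo {z r C : ℝ} (hr : 0 < r) (h : ∀ᶠ t : ℕ in atTop, z ^ t ≤ C * r ^ t) : z ≤ r := by
  by_contra! e
  obtain ⟨t, a, b⟩ := (h.and ((tendsto_pow_atTop_atTop_of_one_lt
    ((one_lt_div hr).2 e)).eventually_gt_atTop C)).exists
  rw [div_pow, lt_div_iff₀ (by positivity)] at b
  linarith

/-- solutions of a linear recurrence -/
def sol (A β : ℝ) : ℕ → ℝ
  | 0 => 0
  | 1 => 1
  | t + 2 => A * sol A β (t + 1) - β * sol A β t

lemma quad {A β r : ℝ} (hr : 0 < r) (h : ∀ x : ℕ → ℝ, (∀ t, x (t + 2) = A * x (t + 1) - β * x t) →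
    ∀ᶠ t in atTop, |x t| ≤ r ^ t) : β ≤ r ^ 2 ∧ ∀ z, r < |z| → 0 < z ^ 2 - A * z + β := by
  constructor
  · have a : ∀ t, β ^ t = sol A β (t + 1) ^ 2 - sol A β (t + 2) * sol A β t := fun t => by
      induction t with
      | zero => simp [sol]
      | succ t ih =>
        simp only [pow_succ β, ih, sol]
        ring
    have b := h (sol A β) fun _ => rfl
    refine geo (C := 2 * r ^ 2) (by positivity) ?_
    filter_upwards [b, (tendsto_add_atTop_nat 1).eventually b,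
      (tendsto_add_atTop_nat 2).eventually b] with t c d e
    have := pow_le_pow_left₀ (abs_nonneg _) d 2
    have := (neg_le_abs _).trans ((abs_mul _ _).trans_le (mul_le_mul e c (abs_nonneg _)
      (by positivity)))
    rw [a, ← sq_abs]
    ring_nf at *
    linarith
  · intro z hz
    by_contra! e
    have a : ∀ w, w ^ 2 - A * w + β = 0 → |w| ≤ r := fun w c => geo (C := 1) hr (by
      simpa using h (fun t => w ^ t) fun t => by linear_combination w ^ t * c)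
    have b : |2 * z - A| ≤ √(A ^ 2 - 4 * β) := abs_le_sqrt (by nlinarith)
    have c := sq_sqrt (show 0 ≤ A ^ 2 - 4 * β by nlinarith [sq_nonneg (2 * z - A)])
    have d := abs_le.1 (a ((A + √(A ^ 2 - 4 * β)) / 2) (by linarith))
    have f := abs_le.1 (a ((A - √(A ^ 2 - 4 * β)) / 2) (by linarith))
    exact hz.not_ge (abs_le.2 ⟨by linarith [(abs_le.1 b).1], by linarith [(abs_le.1 b).2]⟩)

lemma main {c κ : ℝ} (hc : 0 < c) (h0 : 0 < κ) (h1 : κ < 1) : ∃ k : ℝ, 0 < k ∧ k ^ 2 ≤ κ ∧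
    c * k ≤ 1 ∧ ∀ γ β : ℝ, ¬∀ g : ℝ → ℝ, (∀ x y, x ≠ y → k ^ 2 ≤ (g x - g y) / (x - y) ∧
      (g x - g y) / (x - y) ≤ 1) → ∀ x : ℕ → ℝ,
      (∀ t, x (t + 2) = (1 + β) * x (t + 1) - β * x t - γ * g (x (t + 1))) →
      ∃ s, g s = 0 ∧ ∀ᶠ t in atTop, |x t - s| ≤ (1 - c * k / 2) ^ t := by
  obtain ⟨l, M, h, x, a1, a2, a3, a4, a5, a6⟩ := cyc (η := c ^ 2 / 32) (by positivity)
  obtain ⟨k, k0, k1, k2, k3⟩ : ∃ k : ℝ, 0 < k ∧ k ≤ κ ∧ c * k ≤ 1 ∧
      k * ((c / 4 + 16 / c) * (1 + M) + 4) ≤ l / 2 := by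
    refine ⟨min κ (min (1 / c) (l / 2 / ((c / 4 + 16 / c) * (1 + M) + 4))), by positivity,
      min_le_left _ _, (le_div_iff₀' hc).1 ((min_le_right _ _).trans (min_le_left _ _)),
      (le_div_iff₀ (by positivity)).1 ((min_le_right _ _).trans (min_le_right _ _))⟩
  have k4 := mul_pos hc k0
  have k5 : k ^ 2 ≤ k := by nlinarith
  refine ⟨k, k0, k5.trans k1, k2, fun γ β H => ?_⟩
  have b1 := fun a (e1 : k ^ 2 ≤ a) (e2 : a ≤ 1) => quad (A := 1 + β - γ * a) (β := β)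
    (r := 1 - c * k / 2) (by linarith) fun x e => by
      obtain ⟨s, c1, c2⟩ := H (fun y => a * y) (fun y z e => by
        simpa [← mul_sub, sub_ne_zero.2 e] using ⟨e1, e2⟩) x fun t => by linarith [e t]
      simpa [(mul_eq_zero.1 c1).resolve_left (by nlinarith)] using c2
  obtain ⟨b2, b3⟩ := b1 _ le_rfl (by linarith)
  have b4 := b3 (1 - c * k / 4) (by rw [abs_of_pos] <;> linarith)
  have b5 := (b1 1 (by linarith) le_rfl).2 (-1) (by simp [k4])
  have b6 := b3 1 (by simp [k4])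
  have g0 : 0 < γ := by nlinarith
  have b7 : β ≤ 1 - c * k / 2 := by nlinarith
  have g1 : c ^ 2 / 16 ≤ γ := le_of_mul_le_mul_right (by
    nlinarith [mul_pos g0 (pow_pos k0 2), mul_le_mul_of_nonneg_left b7 k4.le]) (pow_pos k0 2)
  have g2 : 1 - β ≤ k * (c / 4 + 16 / c) := le_of_mul_le_mul_left (by
    rw [show c * k * (k * (c / 4 + 16 / c)) = (c * k) ^ 2 / 4 + 16 * k ^ 2 by field_simp]
    nlinarith [mul_pos g0 (pow_pos k0 2)]) k4
  have g3 := mul_le_mul_of_nonneg_right g2 (show (0 : ℝ) ≤ 1 + M by positivity)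
  refine (H (fun y => ((l - (1 - β)) * y + (1 - β) * h y) / γ) (fun y z e => ?_) x
    fun t => by rw [a4, a5]; field_simp; ring).elim fun s ⟨_, c2⟩ => ?_
  swap
  · exact a6 s (tendsto_iff_norm_sub_tendsto_zero.2 (squeeze_zero' (.of_forall fun _ => abs_nonneg _)
      c2 (tendsto_pow_atTop_nhds_zero_of_lt_one (by linarith) (by linarith))))
  · have c1 : |(h y - h z) / (y - z)| ≤ M := by
      rw [abs_div, div_le_iff₀ (abs_pos.2 (sub_ne_zero.2 e))]
      exact a3.dist_le_mul y z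
    rw [show (((l - (1 - β)) * y + (1 - β) * h y) / γ - ((l - (1 - β)) * z + (1 - β) * h z) / γ) /
      (y - z) = (l - (1 - β) + (1 - β) * ((h y - h z) / (y - z))) / γ by
        have := sub_ne_zero.2 e
        field_simp
        ring, le_div_iff₀ g0, div_le_iff₀ g0]
    obtain ⟨c2, c3⟩ := abs_le.1 c1
    constructor <;> nlinarith

end Pool.Agent.H9.HB
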