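import Pool.Agent.H9.HB1

/-! A heavy-ball cycle of rotation number `2/5`, and the absence of unimodal cycles. -/
namespace Pool.Agent.H9.HB

lemma low {μ : ℝ} {f : ℝ → ℝ} (h1 : Differentiable ℝ f) (h2 : StrongConvexOn Set.univ μ f)
    {x y : ℝ} (e : x ≤ y) : μ * (y - x) ≤ deriv f y - deriv f x := by
  have a : ∀ z, HasDerivAt (fun x => f x - μ / 2 * ‖x‖ ^ 2) (deriv f z - μ * z) z := fun z => by
    simp only [Real.norm_eq_abs, sq_abs]
    exact ((h1 z).hasDerivAt.sub ((hasDerivAt_pow 2 z).const_mul (μ / 2))).congr_deriv (by ring)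
  have := (strongConvexOn_iff_convex.1 h2).monotoneOn_deriv (fun z _ => (a z).differentiableAt)
    trivial trivial e
  rw [(a x).deriv, (a y).deriv] at this
  linarith

lemma mk {μ L : ℝ} (hμ : 0 < μ) {g : ℝ → ℝ}
    (h : ∀ x y, x ≤ y → μ * (y - x) ≤ g y - g x ∧ g y - g x ≤ L * (y - x)) :
    ∃ f : ℝ → ℝ, (Differentiable ℝ f ∧ StrongConvexOn Set.univ μ f ∧
      ∀ x y, |deriv f x - deriv f y| ≤ L * |x - y|) ∧ deriv f = g := by
  obtain ⟨f, h1, rfl, -⟩ := prim (L := L) hμ (g := g) fun x y e => by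
    wlog c : y < x generalizing x y
    · rw [← neg_div_neg_eq, neg_sub, neg_sub]
      exact this y x e.symm (e.lt_or_gt.resolve_right c)
    exact (h y x c.le).imp (le_div_iff₀ (sub_pos.2 c)).2 (div_le_iff₀ (sub_pos.2 c)).2
  have a : ∀ z, HasDerivAt (fun x => f x - μ / 2 * ‖x‖ ^ 2) (deriv f z - μ * z) z := fun z => by
    simp only [Real.norm_eq_abs, sq_abs]
    exact ((h1 z).hasDerivAt.sub ((hasDerivAt_pow 2 z).const_mul (μ / 2))).congr_deriv (by ring)
  refine ⟨f, ⟨h1, strongConvexOn_iff_convex.2 (Monotone.convexOn_univ_of_deriv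
    (fun z => (a z).differentiableAt) fun x y e => ?_), fun x y => ?_⟩, rfl⟩
  · rw [(a x).deriv, (a y).deriv]
    linarith [(h x y e).1]
  · wlog c : y ≤ x generalizing x y
    · rw [abs_sub_comm, abs_sub_comm x]
      exact this y x (le_of_not_ge c)
    obtain ⟨b, d⟩ := h y x c
    rwa [abs_of_nonneg (sub_nonneg.2 c), abs_of_nonneg (le_trans (by nlinarith) b)]

lemma flat {a β : ℝ} {G : ℝ → ℝ} {K : ℕ} {x : ℕ → ℝ} (h0 : 0 ≤ β) (h1 : β ≤ 1) (h2 : 2 + β < a)
    (hK : 3 ≤ K) (hG : ∀ x y, x ≤ y → a * (y - x) ≤ G y - G x) (hp : Function.Periodic x K)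
    (hr : ∀ t, x (t + 2) = x (t + 1) - G (x (t + 1)) + β * (x (t + 1) - x t))
    (ho : ∀ i < K, ∀ j < K, (if i = 0 then 0 else if 2 * i ≤ K then 2 * i - 1 else 2 * (K - i)) <
      (if j = 0 then 0 else if 2 * j ≤ K then 2 * j - 1 else 2 * (K - j)) → x i ≤ x j) (i : ℕ) :
    x i = x 0 := by
  obtain ⟨n, rfl⟩ := Nat.exists_eq_add_of_le' hK
  have a0 : ∀ j < n + 3, x 0 ≤ x j := fun j e => by
    obtain rfl | c := eq_or_ne j 0
    · rfl
    · exact ho 0 (by omega) j e (by split_ifs <;> omega)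
  obtain ⟨m, a1, a2⟩ := (Finset.range (n + 3)).exists_max_image x ⟨0, by simp⟩
  simp only [Finset.mem_range] at a1 a2
  have a3 : x m ≤ x 0 := by
    obtain _ | m := m
    · rfl
    have b1 := hr (n + 2)
    have b2 := hr m
    have b3 := hG _ _ (a0 _ a1)
    have b4 : x (n + 2 + 1) = x 0 := by simpa using hp 0
    have b5 : x (n + 2 + 2) = x 1 := by simpa [add_comm, add_left_comm] using hp 1
    rw [b4, b5] at b1
    have b6 := a0 m (by omega)
    have b7 := a2 1 (by omega)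
    have b8 := a2 (n + 2) (by omega)
    by_contra! c
    obtain rfl | e := eq_or_ne m (n + 1)
    · rw [b4] at b2
      obtain rfl | e := eq_or_ne n 0
      · nlinarith [a0 1 (by omega)]
      · nlinarith [ho (n + 2) (by omega) (n + 1) (by omega)
          (by split_ifs <;> first | omega | contradiction)]
    · nlinarith [ho 1 (by omega) (m + 2) (by omega)
          (by split_ifs <;> first | omega | contradiction)]
  have := Nat.mod_lt i (show 0 < n + 3 by omega)
  rw [← hp.map_mod_nat]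
  exact ((a2 _ this).trans a3).antisymm (a0 _ this)

lemma five : ∃ (g : ℝ → ℝ) (x : ℕ → ℝ), (∀ x y, x ≤ y → 3 * (y - x) ≤ g y - g x ∧
    g y - g x ≤ 15 / 4 * (y - x)) ∧ Function.Periodic x 5 ∧ Set.InjOn x (Set.Iio 5) ∧
    ∀ t, x (t + 2) = x (t + 1) - 1 * g (x (t + 1)) + 9 / 10 * (x (t + 1) - x t) := by
  refine ⟨fun x => 33 / 10 * x - 1 + 3 / 10 * max (x + 5) 0 - 9 / 25 * max x 0 +
    32 / 75 * max (x - 5) 0, fun t => if t % 5 = 0 then 8 else if t % 5 = 1 then -8 else
    if t % 5 = 2 then 5 else if t % 5 = 3 then 0 else -5, fun x y e => ?_, fun t => by simp,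
    fun i (a : i < 5) j (b : j < 5) => ?_, fun t => ?_⟩
  · simp only [max_def]
    split_ifs <;> constructor <;> linarith
  · interval_cases i <;> interval_cases j <;> norm_num
  · have := Nat.mod_lt t (show 0 < 5 by norm_num)
    simp only [Nat.add_mod t 2, Nat.add_mod t 1]
    generalize t % 5 = r at *
    interval_cases r <;> norm_num

end Pool.Agent.H9.HB
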