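import Mathlib

namespace Pool.Agent.H9.HN
open Matrix Complex MeasureTheory

/-- the unitary group of system and environment -/
abbrev UG (d dE : ℕ) := Matrix.unitaryGroup (Fin d × Fin dE) ℂ

/-- the channel `X ↦ Tr_E [V (X ⊗ |0⟩⟨0|) V†]` -/
def chan {d dE : ℕ} [NeZero dE] (V : Matrix (Fin d × Fin dE) (Fin d × Fin dE) ℂ)
    (X : Matrix (Fin d) (Fin d) ℂ) : Matrix (Fin d) (Fin d) ℂ :=
  Matrix.of fun a c => ∑ e,
    (V * Matrix.kroneckerMap (· * ·) X (single (0 : Fin dE) (0 : Fin dE) (1 : ℂ)) * Vᴴ) (a, e) (c, e)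

/-- index set of the matrix units of `M_d ^ (⊗ t)` -/
abbrev Ix (d t : ℕ) := (Fin t → Fin d) × (Fin t → Fin d)

/-- the matrix of the moment operator in the basis of tensor products of matrix units -/
noncomputable def moment {d dE : ℕ} [NeZero dE] [MeasurableSpace (UG d dE)]
    (μ : Measure (UG d dE)) (t : ℕ) : Matrix (Ix d t) (Ix d t) ℂ :=
  Matrix.of fun o x => ∫ V, ∏ i, chan (V : UG d dE).1 (single (x.1 i) (x.2 i) 1) (o.1 i) (o.2 i) ∂μ

/-- squared Hilbert-Schmidt norm of the `k`-th power of the moment operator -/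
noncomputable def Nrm {d dE : ℕ} [NeZero dE] [MeasurableSpace (UG d dE)]
    (μ : Measure (UG d dE)) (t k : ℕ) : ℝ :=
  (trace ((moment μ t ^ k)ᴴ * moment μ t ^ k)).re

abbrev J := Fin 2 × Fin 2

def Inv4 (G : J → J → J → J → ℂ) : Prop :=
  ∀ U : Matrix J J ℂ, U * star U = 1 → ∀ p q r s, G p q r s =
    ∑ p', ∑ q', ∑ r', ∑ s', U p p' * U q q' * star (U r r') * star (U s s') * G p' q' r' s'

variable {G : J → J → J → J → ℂ}

lemma inv_mono (h : Inv4 G) (σ : Equiv.Perm J) (u : J → ℂ) (hu : ∀ x, u x * star (u x) = 1)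
    (p q r s : J) :
    G p q r s = u p * u q * star (u r) * star (u s) * G (σ p) (σ q) (σ r) (σ s) := by
  have := h (Matrix.of fun x y => if y = σ x then u x else 0) (by
    ext x y
    simp only [Matrix.mul_apply, Matrix.of_apply, star_apply, one_apply]
    rw [Finset.sum_eq_single (σ x)]
    · by_cases e : x = y
      · subst e; simpa using hu x
      · have : σ x ≠ σ y := fun h => e (σ.injective h)
        simp [e, this]
    · intro b _ hb; simp [hb]
    · simp) p q r s
  rw [this]
  simp [apply_ite star]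

lemma inv_ph (h : Inv4 G) (m p q r s : J) :
    G p q r s = (if p = m then I else 1) * (if q = m then I else 1) *
      (if r = m then -I else 1) * (if s = m then -I else 1) * G p q r s := by
  have := inv_mono h 1 (fun x => if x = m then I else 1)
    (fun x => by by_cases e : x = m <;> simp [e]) p q r s
  simpa [apply_ite (starRingEnd ℂ)] using this

lemma zI {z : ℂ} (h : z = I * z) : z = 0 := by
  have : (1 - I) * z = 0 := by linear_combination h
  exact (mul_eq_zero.mp this).resolve_left (by simp [Complex.ext_iff])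
lemma zJ {z : ℂ} (h : z = -(I * z)) : z = 0 := by
  have : (1 + I) * z = 0 := by linear_combination h
  exact (mul_eq_zero.mp this).resolve_left (by simp [Complex.ext_iff])
lemma zK {z : ℂ} (h : z = -z) : z = 0 := by linear_combination (1 / 2) * h

lemma z1 (h : Inv4 G) {p q r s : J} (h1 : r ≠ p) (h2 : s ≠ p) : G p q r s = 0 := by
  have := inv_ph h p p q r s
  by_cases e : q = p
  · exact zK (by simpa [h1, h2, e] using this)
  · exact zI (by simpa [h1, h2, e] using this)
lemma z2 (h : Inv4 G) {p q r s : J} (h1 : r ≠ q) (h2 : s ≠ q) : G p q r s = 0 := by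
  have := inv_ph h q p q r s
  by_cases e : p = q
  · exact zK (by simpa [h1, h2, e] using this)
  · exact zI (by simpa [h1, h2, e] using this)
lemma z3 (h : Inv4 G) {p q r s : J} (h1 : p ≠ r) (h2 : q ≠ r) : G p q r s = 0 := by
  have := inv_ph h r p q r s
  by_cases e : s = r
  · exact zK (by simpa [h1, h2, e] using this)
  · exact zJ (by simpa [h1, h2, e] using this)
lemma z4 (h : Inv4 G) {p q r s : J} (h1 : p ≠ s) (h2 : q ≠ s) : G p q r s = 0 := by
  have := inv_ph h s p q r s
  by_cases e : r = s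
  · exact zK (by simpa [h1, h2, e] using this)
  · exact zJ (by simpa [h1, h2, e] using this)

lemma inv_perm (h : Inv4 G) (σ : Equiv.Perm J) (p q r s : J) :
    G p q r s = G (σ p) (σ q) (σ r) (σ s) := by
  simpa using inv_mono h σ (fun _ => 1) (by simp) p q r s

lemma ex_perm {p q : J} (h : p ≠ q) : ∃ σ : Equiv.Perm J, σ p = (0, 0) ∧ σ q = (0, 1) := by
  refine ⟨Equiv.swap (Equiv.swap p (0, 0) q) (0, 1) * Equiv.swap p (0, 0), ?_, by simp⟩
  rw [Equiv.Perm.mul_apply, Equiv.swap_apply_left, Equiv.swap_apply_of_ne_of_ne]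
  · intro e
    apply h
    apply (Equiv.swap p (0, 0)).injective
    rw [← e, Equiv.swap_apply_left]
  · decide

lemma form0 (h : Inv4 G) (p q r s : J) : G p q r s =
    if p = q then (if r = p ∧ s = p then G (0, 0) (0, 0) (0, 0) (0, 0) else 0) else
      (if p = r ∧ q = s then G (0, 0) (0, 1) (0, 0) (0, 1) else 0) +
        (if p = s ∧ q = r then G (0, 0) (0, 1) (0, 1) (0, 0) else 0) := by
  by_cases e : p = q
  · subst e
    rw [if_pos rfl]
    split_ifs with h1
    · obtain ⟨rfl, rfl⟩ := h1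
      simpa using inv_perm h (Equiv.swap s (0, 0)) s s s s
    · by_cases e1 : p = r
      · exact z4 h (fun e => h1 ⟨e1.symm, e.symm⟩) (fun e => h1 ⟨e1.symm, e.symm⟩)
      · exact z3 h e1 e1
  · rw [if_neg e]
    obtain ⟨σ, s1, s2⟩ := ex_perm e
    by_cases e1 : p = r
    · subst e1
      by_cases e2 : q = s
      · subst e2
        rw [inv_perm h σ, s1, s2]; simp [e]
      · rw [z2 h e (Ne.symm e2)]; simp [e2, Ne.symm e]
    · by_cases e2 : p = s
      · subst e2
        by_cases e3 : q = r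
        · subst e3
          rw [inv_perm h σ, s1, s2]; simp [e]
        · rw [z3 h e1 e3]; simp [e1, e3]
      · rw [z1 h (Ne.symm e1) (Ne.symm e2)]; simp [e1, e2]

noncomputable def rot : Matrix J J ℂ := Matrix.of fun x y =>
  if x.1 = 0 ∧ y.1 = 0 then (if x.2 = y.2 then 3 / 5 else if x.2 = 0 then 4 / 5 else -4 / 5)
  else if x = y then 1 else 0

lemma rot_u : rot * star rot = 1 := by
  ext ⟨a, b⟩ ⟨c, d⟩
  fin_cases a <;> fin_cases b <;> fin_cases c <;> fin_cases d <;>
    simp [rot, Matrix.mul_apply, Fintype.sum_prod_type, Fin.sum_univ_two, star_apply,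
      map_ofNat] <;> norm_num

lemma form (h : Inv4 G) : ∃ α β : ℂ, ∀ p q r s, G p q r s =
    (if p = r ∧ q = s then α else 0) + (if p = s ∧ q = r then β else 0) := by
  have f := form0 h
  have g := h rot rot_u (0, 0) (0, 0) (0, 0) (0, 0)
  generalize G (0, 0) (0, 0) (0, 0) (0, 0) = γ at f g
  generalize G (0, 0) (0, 1) (0, 0) (0, 1) = α at f
  generalize G (0, 0) (0, 1) (0, 1) (0, 0) = β at f
  simp only [f] at g
  simp [rot, Fintype.sum_prod_type, Fin.sum_univ_two, map_ofNat] at g
  have e : γ = α + β := by linear_combination (625 / 288) * g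
  refine ⟨α, β, fun p q r s => ?_⟩
  rw [f]
  by_cases e1 : p = q
  · subst e1
    rw [if_pos rfl, e]
    by_cases h2 : p = r ∧ p = s
    · obtain ⟨rfl, rfl⟩ := h2; simp
    · rw [if_neg (fun x => h2 ⟨x.1.symm, x.2.symm⟩), if_neg h2, if_neg (fun x => h2 ⟨x.2, x.1⟩)]
      simp
  · rw [if_neg e1]

lemma form2 (h : Inv4 G) {u v : ℂ} (hu : ∑ p, ∑ q, G p q p q = u) (hv : ∑ p, ∑ q, G p q q p = v)
    (p q r s : J) : G p q r s = (if p = r ∧ q = s then (4 * u - v) / 60 else 0) +
      (if p = s ∧ q = r then (4 * v - u) / 60 else 0) := by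
  obtain ⟨α, β, f⟩ := form h
  simp only [f] at hu hv
  simp [Fintype.sum_prod_type, Fin.sum_univ_two] at hu hv
  have e1 : α = (4 * u - v) / 60 := by linear_combination (1 / 15) * hu - (1 / 60) * hv
  have e2 : β = (4 * v - u) / 60 := by linear_combination (1 / 15) * hv - (1 / 60) * hu
  rw [f, e1, e2]

end Pool.Agent.H9.HN
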