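import Pool.Agent.H9.HN1

namespace Pool.Agent.H9.HN
open Matrix Complex MeasureTheory

set_option linter.unusedSectionVars false

lemma four {ι : Type} [Fintype ι] (f g h k : ι → ℂ) :
    (∑ a, f a) * (∑ a, g a) * (∑ a, h a) * (∑ a, k a) =
      ∑ x : ι × ι × ι × ι, f x.1 * g x.2.1 * h x.2.2.1 * k x.2.2.2 := by
  simp only [Fintype.sum_prod_type, ← Finset.mul_sum, ← Finset.sum_mul]

variable [MeasurableSpace (UG 2 2)] [BorelSpace (UG 2 2)] (μ : Measure (UG 2 2))
  [IsProbabilityMeasure μ]

def ff (i j k l p q r s : J) (V : UG 2 2) : ℂ :=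
  V.1 p i * V.1 q j * star (V.1 r k) * star (V.1 s l)

lemma ff_int (i j k l p q r s : J) : Integrable (ff i j k l p q r s) μ := by
  have hc : ∀ a b : J, Continuous fun V : UG 2 2 => V.1 a b := fun a b =>
    (continuous_subtype_val.matrix_elem a b)
  have h : Continuous (ff i j k l p q r s) :=
    (((hc p i).mul (hc q j)).mul (hc r k).star).mul (hc s l).star
  refine Integrable.of_bound h.aestronglyMeasurable 1 (Filter.Eventually.of_forall fun V => ?_)
  have b := fun a c : J => entry_norm_bound_of_unitary V.2 a c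
  simp only [ff, norm_mul, norm_star]
  exact mul_le_one₀ (mul_le_one₀ (mul_le_one₀ (b _ _) (norm_nonneg _) (b _ _)) (norm_nonneg _)
    (b _ _)) (norm_nonneg _) (b _ _)

noncomputable def WW (i j k l p q r s : J) : ℂ := ∫ V, ff i j k l p q r s V ∂μ

lemma WW_inv [μ.IsMulLeftInvariant] (i j k l : J) : Inv4 (WW μ i j k l) := by
  intro U hU p q r s
  let U' : UG 2 2 := ⟨U, Matrix.mem_unitaryGroup_iff.mpr hU⟩
  have h1 : WW μ i j k l p q r s = ∫ V, ff i j k l p q r s (U' * V) ∂μ :=
    (integral_mul_left_eq_self (ff i j k l p q r s) U').symm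
  have h2 : ∀ V : UG 2 2, ff i j k l p q r s (U' * V) = ∑ x : J × J × J × J,
      (U p x.1 * U q x.2.1 * star (U r x.2.2.1) * star (U s x.2.2.2)) *
        ff i j k l x.1 x.2.1 x.2.2.1 x.2.2.2 V := by
    intro V
    have : (U' * V).1 = U * V.1 := rfl
    simp only [ff, this, Matrix.mul_apply, star_sum, star_mul']
    rw [four]
    exact Finset.sum_congr rfl fun e _ => by ring
  rw [h1]
  simp_rw [h2]
  rw [integral_finsetSum _ fun x _ => (ff_int μ _ _ _ _ _ _ _ _).const_mul _]
  simp only [integral_const_mul]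
  rw [Fintype.sum_prod_type]
  refine Finset.sum_congr rfl fun a _ => ?_
  rw [Fintype.sum_prod_type]
  refine Finset.sum_congr rfl fun b _ => ?_
  rw [Fintype.sum_prod_type]
  rfl

lemma col_orth (V : UG 2 2) (i k : J) : ∑ p, V.1 p i * star (V.1 p k) = if i = k then 1 else 0 := by
  have h := congrFun (congrFun (Matrix.mem_unitaryGroup_iff'.mp V.2) k) i
  simp only [Matrix.mul_apply, star_apply, one_apply] at h
  rw [← show (if k = i then (1 : ℂ) else 0) = if i = k then 1 else 0 by simp [eq_comm], ← h]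
  exact Finset.sum_congr rfl fun _ _ => mul_comm _ _

lemma WW_tr1 (i j k l : J) : ∑ p, ∑ q, WW μ i j k l p q p q =
    (if i = k then 1 else 0) * (if j = l then 1 else 0) := by
  simp only [WW]
  rw [← Fintype.sum_prod_type', ← integral_finsetSum _ fun x _ => ff_int μ _ _ _ _ _ _ _ _]
  have : ∀ V : UG 2 2, ∑ x : J × J, ff i j k l x.1 x.2 x.1 x.2 V =
      (if i = k then 1 else 0) * (if j = l then 1 else 0) := by
    intro V
    rw [← col_orth V, ← col_orth V, Finset.sum_mul_sum, Fintype.sum_prod_type]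
    exact Finset.sum_congr rfl fun _ _ => Finset.sum_congr rfl fun _ _ => by simp only [ff]; ring
  simp [this]

lemma WW_tr2 (i j k l : J) : ∑ p, ∑ q, WW μ i j k l p q q p =
    (if i = l then 1 else 0) * (if j = k then 1 else 0) := by
  simp only [WW]
  rw [← Fintype.sum_prod_type', ← integral_finsetSum _ fun x _ => ff_int μ _ _ _ _ _ _ _ _]
  have : ∀ V : UG 2 2, ∑ x : J × J, ff i j k l x.1 x.2 x.2 x.1 V =
      (if i = l then 1 else 0) * (if j = k then 1 else 0) := by
    intro V
    rw [← col_orth V, ← col_orth V, Finset.sum_mul_sum, Fintype.sum_prod_type]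
    exact Finset.sum_congr rfl fun _ _ => Finset.sum_congr rfl fun _ _ => by simp only [ff]; ring
  simp [this]

lemma chan_single (V : Matrix J J ℂ) (x y a c : Fin 2) :
    chan V (single x y 1) a c = ∑ e, V (a, e) (x, 0) * star (V (c, e) (y, 0)) := by
  simp only [chan, Matrix.of_apply]
  refine Finset.sum_congr rfl fun e _ => ?_
  fin_cases x <;> fin_cases y <;>
    simp [Matrix.mul_apply, Fintype.sum_prod_type, Fin.sum_univ_two, single_apply]

def II (o : Ix 2 2) : ℤ := if o.1 0 = o.2 0 ∧ o.1 1 = o.2 1 then 1 else 0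
def FF (o : Ix 2 2) : ℤ := if o.1 0 = o.2 1 ∧ o.1 1 = o.2 0 then 1 else 0

noncomputable def RR (p q r s : ℝ) : Matrix (Ix 2 2) (Ix 2 2) ℂ := Matrix.of fun o x =>
  (II o : ℂ) * (p * II x + q * FF x) + (FF o : ℂ) * (r * II x + s * FF x)

lemma moment_eq [μ.IsMulLeftInvariant] : moment μ 2 = RR (4 / 15) (-1 / 15) (-1 / 30) (2 / 15) := by
  ext o x
  have h : ∀ V : UG 2 2, ∏ i, chan V.1 (single (x.1 i) (x.2 i) 1) (o.1 i) (o.2 i) =
      ∑ e : J, ff (x.1 0, 0) (x.1 1, 0) (x.2 0, 0) (x.2 1, 0) (o.1 0, e.1) (o.1 1, e.2)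
        (o.2 0, e.1) (o.2 1, e.2) V := by
    intro V
    rw [Fin.prod_univ_two, chan_single, chan_single, Finset.sum_mul_sum, Fintype.sum_prod_type]
    exact Finset.sum_congr rfl fun _ _ => Finset.sum_congr rfl fun _ _ => by simp only [ff]; ring
  simp only [moment, Matrix.of_apply, h]
  rw [integral_finsetSum _ fun x _ => ff_int μ _ _ _ _ _ _ _ _]
  have f := form2 (WW_inv μ (x.1 0, 0) (x.1 1, 0) (x.2 0, 0) (x.2 1, 0)) (u := II x) (v := FF x)
    (by rw [WW_tr1]; simp [II, ite_and]; split_ifs <;> rfl)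
    (by rw [WW_tr2]; simp [FF, ite_and]; split_ifs <;> rfl)
  simp only [WW] at f
  simp only [f, RR, Matrix.of_apply]
  generalize (II x : ℂ) = u
  generalize (FF x : ℂ) = v
  simp only [II, FF]
  generalize o.1 0 = a
  generalize o.1 1 = b
  generalize o.2 0 = c
  generalize o.2 1 = e
  fin_cases a <;> fin_cases b <;> fin_cases c <;> fin_cases e <;>
    simp [Fintype.sum_prod_type, Fin.sum_univ_two] <;> ring

lemma sII : ∑ o, II o * II o = 4 := by decide +kernel
lemma sIF : ∑ o, II o * FF o = 2 := by decide +kernel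
lemma sFF : ∑ o, FF o * FF o = 4 := by decide +kernel

lemma pair_sum (a b c d : ℂ) : ∑ o, (a * II o + b * FF o) * (c * II o + d * FF o) =
    4 * a * c + 2 * a * d + 2 * b * c + 4 * b * d := by
  have h : ∀ o, (a * II o + b * FF o) * (c * II o + d * FF o) =
      a * c * ((II o * II o : ℤ) : ℂ) + (a * d + b * c) * ((II o * FF o : ℤ) : ℂ) +
        b * d * ((FF o * FF o : ℤ) : ℂ) := by intro o; push_cast; ring
  simp only [h, Finset.sum_add_distrib, ← Finset.mul_sum, ← Int.cast_sum, sII, sIF, sFF]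
  push_cast; ring

lemma RR_mul (p q r s P Q R S : ℝ) : RR p q r s * RR P Q R S =
    RR ((4 * p + 2 * q) * P + (2 * p + 4 * q) * R) ((4 * p + 2 * q) * Q + (2 * p + 4 * q) * S)
      ((4 * r + 2 * s) * P + (2 * r + 4 * s) * R) ((4 * r + 2 * s) * Q + (2 * r + 4 * s) * S) := by
  ext o x
  have := pair_sum (II o * p + FF o * r) (II o * q + FF o * s) (P * II x + Q * FF x)
    (R * II x + S * FF x)
  simp only [Matrix.mul_apply, RR, Matrix.of_apply]
  push_cast
  refine Eq.trans (Finset.sum_congr rfl fun y _ => by ring) (this.trans (by ring))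

lemma RR_nrm (p q r s : ℝ) : (trace ((RR p q r s)ᴴ * RR p q r s)).re =
    4 * (4 * p * p + 4 * p * q + 4 * q * q) + 4 * (4 * p * r + 2 * p * s + 2 * q * r + 4 * q * s) +
      4 * (4 * r * r + 4 * r * s + 4 * s * s) := by
  have h : ∀ x, ((RR p q r s)ᴴ * RR p q r s) x x =
      4 * ((p * II x + q * FF x) * (p * II x + q * FF x)) +
      4 * ((p * II x + q * FF x) * (r * II x + s * FF x)) +
      4 * ((r * II x + s * FF x) * (r * II x + s * FF x)) := by
    intro x
    have := pair_sum (p * II x + q * FF x) (r * II x + s * FF x) (p * II x + q * FF x)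
      (r * II x + s * FF x)
    simp only [Matrix.mul_apply, RR, Matrix.of_apply, conjTranspose_apply, star_add, star_mul',
      star_intCast, Complex.star_def, conj_ofReal]
    refine Eq.trans (Finset.sum_congr rfl fun y _ => by ring) (this.trans (by ring))
  simp only [trace, diag, h, Finset.sum_add_distrib, ← Finset.mul_sum, pair_sum]
  norm_cast
  ring

lemma main [μ.IsMulLeftInvariant] : Nrm μ 2 4 < Nrm μ 2 5 := by
  simp only [Nrm, moment_eq, pow_succ, pow_zero, Matrix.one_mul, RR_mul, RR_nrm]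
  norm_num

omit [MeasurableSpace (UG 2 2)] [BorelSpace (UG 2 2)] in
lemma compact : CompactSpace (UG 2 2) := by
  refine isCompact_iff_compactSpace.mp ?_
  have h1 : IsCompact (Set.pi Set.univ fun _ : J => Set.pi Set.univ fun _ : J =>
      Metric.closedBall (0 : ℂ) 1) :=
    isCompact_univ_pi fun _ => isCompact_univ_pi fun _ => isCompact_closedBall _ _
  refine IsCompact.of_isClosed_subset (X := Matrix J J ℂ) h1 ?_ ?_
  · have : ((UG 2 2 : Submonoid (Matrix J J ℂ)) : Set (Matrix J J ℂ)) =
        {A | A * star A = 1} := by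
      ext A; exact Matrix.mem_unitaryGroup_iff
    exact this ▸ isClosed_eq (by fun_prop) continuous_const
  · intro A hA i _ j _
    simpa using entry_norm_bound_of_unitary hA i j

lemma haar_ex : ∃ ν : Measure (UG 2 2), IsProbabilityMeasure ν ∧ ν.IsMulLeftInvariant := by
  have := compact
  refine ⟨Measure.haarMeasure ⊤, ⟨?_⟩, inferInstance⟩
  simpa using Measure.haarMeasure_self (K₀ := (⊤ : TopologicalSpace.PositiveCompacts (UG 2 2)))

end Pool.Agent.H9.HN
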