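import Mathlib

namespace Pool.Agent.H9.Haar1

open MeasureTheory Complex Filter Topology Finset

abbrev U (n : ℕ) := Matrix.unitaryGroup (Fin n) ℂ

lemma compactU (n : ℕ) : CompactSpace (U n) := by
  refine isCompact_iff_compactSpace.1 ?_
  have h : IsCompact (Set.univ.pi fun _ : Fin n => Set.univ.pi fun _ : Fin n =>
      Metric.closedBall (0 : ℂ) 1) :=
    isCompact_univ_pi fun _ => isCompact_univ_pi fun _ => isCompact_closedBall _ _
  refine h.of_isClosed_subset (isClosed_unitary (R := Matrix (Fin n) (Fin n) ℂ))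
    fun A hA i _ j _ => ?_
  simpa using entry_norm_bound_of_unitary hA i j

lemma cont_entry {n : ℕ} (i j : Fin n) : Continuous fun g : U n => g.1 i j :=
  continuous_subtype_val.matrix_elem i j

lemma ex_row {N : ℕ} (a : EuclideanSpace ℂ (Fin (N + 1))) (ha : ‖a‖ = 1) :
    ∃ g : U (N + 1), ∀ k, g.1 0 k = (starRingEnd ℂ) (a k) := by
  obtain ⟨b, hb⟩ := Orthonormal.exists_orthonormalBasis_extension_of_card_eq (𝕜 := ℂ)
    (E := EuclideanSpace ℂ (Fin (N + 1))) (ι := Fin (N + 1)) (by simp) (v := fun _ => a) (s := {0})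
    (by
      refine ⟨fun _ => ha, fun i j h => absurd (Subsingleton.elim i j) h⟩)
  refine ⟨star ⟨_, (EuclideanSpace.basisFun _ ℂ).toMatrix_orthonormalBasis_mem_unitary b⟩,
    fun k => ?_⟩
  simp [Module.Basis.toMatrix_apply, hb 0 rfl]

section deriv
variable {X : Type*} [TopologicalSpace X] [CompactSpace X] [MeasurableSpace X] [BorelSpace X]
  (m : Measure X) [IsFiniteMeasure m]

lemma integ {E : Type*} [NormedAddCommGroup E] {f : X → E} (hf : Continuous f) : Integrable f m :=
  hf.integrable_of_hasCompactSupport (HasCompactSupport.of_compactSpace f)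

lemma dint (f f' : ℝ → X → ℝ) (hf : ∀ t, Continuous (f t))
    (hf' : Continuous fun z : ℝ × X => f' z.1 z.2)
    (hd : ∀ t x, HasDerivAt (fun t => f t x) (f' t x) t) (t : ℝ) :
    HasDerivAt (fun t => ∫ x, f t x ∂m) (∫ x, f' t x ∂m) t := by
  obtain ⟨B, hB⟩ := ((isCompact_closedBall t 1).prod isCompact_univ).exists_bound_of_continuousOn
    hf'.continuousOn
  exact (hasDerivAt_integral_of_dominated_loc_of_deriv_le (bound := fun _ => B)
    (Metric.closedBall_mem_nhds t one_pos)
    (Eventually.of_forall fun s => (integ m (hf s)).aestronglyMeasurable) (integ m (hf t))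
    (integ m (hf'.comp (Continuous.prodMk_right t))).aestronglyMeasurable
    (Eventually.of_forall fun x s hs => hB (s, x) ⟨hs, trivial⟩) (integrable_const _)
    (Eventually.of_forall fun x s _ => hd s x)).2

lemma second (p r q : X → ℝ) (hp : Continuous p) (hr : Continuous r) (hq : Continuous q) (k : ℕ)
    (M : ℝ) (h : ∀ t : ℝ, ∫ x, (p x + t * r x + t ^ 2 * q x) ^ (k + 1) ∂m = (1 + t ^ 2) ^ (k + 1) * M) :
    ∫ x, (k * p x ^ (k - 1) * r x ^ 2 + 2 * (p x ^ k * q x)) ∂m = 2 * M := by
  have hb : ∀ (p r q t : ℝ), HasDerivAt (fun t => p + t * r + t ^ 2 * q) (r + 2 * t * q) t := by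
    intro p r q t
    have := (((hasDerivAt_id t).mul_const r).const_add p).add ((hasDerivAt_pow 2 t).mul_const q)
    exact this.congr_deriv (by simp)
  have h1 : ∀ t : ℝ, ∫ x, (p x + t * r x + t ^ 2 * q x) ^ k * (r x + 2 * t * q x) ∂m =
      (1 + t * 0 + t ^ 2 * 1) ^ k * (0 + 2 * t * 1) * M := by
    intro t
    have a1 := dint m (fun t x => (p x + t * r x + t ^ 2 * q x) ^ (k + 1))
      (fun t x => (k + 1 : ℝ) * ((p x + t * r x + t ^ 2 * q x) ^ k * (r x + 2 * t * q x)))
      (fun t => by fun_prop) (by fun_prop) (fun t x =>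
        ((hb (p x) (r x) (q x) t).fun_pow (k + 1)).congr_deriv (by simp [mul_assoc])) t
    have a2 := ((hb 1 0 1 t).fun_pow (k + 1)).mul_const M
    simp only [h] at a1
    simp only [mul_zero, add_zero, mul_one] at a2
    have := a1.unique a2
    rw [integral_const_mul] at this
    refine mul_left_cancel₀ (show (k + 1 : ℝ) ≠ 0 by positivity) (this.trans ?_)
    simp [mul_assoc]
  have hc : ∀ (p r q : ℝ) (t : ℝ), HasDerivAt (fun t => (p + t * r + t ^ 2 * q) ^ k * (r + 2 * t * q))
      (k * (p + t * r + t ^ 2 * q) ^ (k - 1) * (r + 2 * t * q) ^ 2 +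
        2 * ((p + t * r + t ^ 2 * q) ^ k * q)) t := by
    intro p r q t
    have := ((hb p r q t).fun_pow k).mul ((((hasDerivAt_id t).const_mul 2).mul_const q).const_add r)
    refine this.congr_deriv ?_
    simp only [id]
    ring
  have a1 := dint m _ _ (fun t => by fun_prop) (by fun_prop) (fun t x => hc (p x) (r x) (q x) t) 0
  have a2 := (hc 1 0 1 0).mul_const M
  simp only [h1] at a1
  simpa using a1.unique a2

end deriv

variable {N : ℕ} [MeasurableSpace (U (N + 1))] [BorelSpace (U (N + 1))] (m : Measure (U (N + 1)))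
  [IsProbabilityMeasure m] [m.IsMulLeftInvariant]

noncomputable def P (i : Fin (N + 1)) (g : U (N + 1)) : ℝ := normSq (g.1 i 0)

lemma P_cont (i : Fin (N + 1)) : Continuous (P i) := continuous_normSq.comp (cont_entry i 0)

lemma inv_hom (a : EuclideanSpace ℂ (Fin (N + 1))) (ha : a ≠ 0) (k : ℕ) :
    ∫ g, normSq (∑ i, (starRingEnd ℂ) (a i) * g.1 i 0) ^ k ∂m =
      (‖a‖ ^ 2) ^ k * ∫ g, P 0 g ^ k ∂m := by
  have hn : ‖a‖ ≠ 0 := norm_ne_zero_iff.2 ha
  obtain ⟨h, hh⟩ := ex_row ((‖a‖⁻¹ : ℂ) • a) (by simp [norm_smul, hn])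
  rw [← integral_mul_left_eq_self (fun g => P 0 g ^ k) h, ← integral_const_mul]
  refine integral_congr_ae (Eventually.of_forall fun g => ?_)
  simp only [P, Submonoid.coe_mul, Matrix.mul_apply, hh, ← mul_pow]
  congr 1
  rw [sq, ← normSq_ofReal, ← map_mul, mul_sum]
  congr 1
  refine sum_congr rfl fun i _ => ?_
  have : (‖a‖ : ℂ) ≠ 0 := by exact_mod_cast hn
  simp
  field_simp

lemma cross (j : Fin (N + 1)) (hj : j ≠ 0) (k : ℕ) :
    (k + 1) * ∫ g, P 0 g ^ k * P j g ∂m = ∫ g, P 0 g ^ (k + 1) ∂m := by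
  haveI := compactU (N + 1)
  let r : ℂ → U (N + 1) → ℝ := fun ω g =>
    2 * (g.1 0 0 * (starRingEnd ℂ) (ω * g.1 j 0)).re
  have hr : ∀ ω, Continuous (r ω) := fun ω => by
    exact continuous_const.mul (continuous_re.comp ((cont_entry 0 0).mul
      (continuous_conj.comp (continuous_const.mul (cont_entry j 0)))))
  have key : ∀ ω : ℂ, normSq ω = 1 → ∫ x, (k * P 0 x ^ (k - 1) * r ω x ^ 2 +
      2 * (P 0 x ^ k * P j x)) ∂m = 2 * ∫ g, P 0 g ^ (k + 1) ∂m := by
    intro ω hω
    refine second m (P 0) (r ω) (P j) (P_cont 0) (hr ω) (P_cont j) k _ fun t => ?_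
    let a : EuclideanSpace ℂ (Fin (N + 1)) :=
      EuclideanSpace.single 0 1 + EuclideanSpace.single j ((starRingEnd ℂ) (t * ω))
    have ha : ‖a‖ ^ 2 = 1 + t ^ 2 := by
      have hω' : ‖ω‖ ^ 2 = 1 := by rw [← normSq_eq_norm_sq, hω]
      rw [EuclideanSpace.norm_sq_eq, ← add_sum_erase _ _ (mem_univ 0),
        ← add_sum_erase _ _ (mem_erase.2 ⟨hj, mem_univ j⟩), sum_eq_zero]
      · simp [a, hj, hj.symm, mul_pow, hω']
      · intro i hi
        simp only [mem_erase] at hi
        simp [a, hi.1, hi.2.1]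
    rw [← ha, ← inv_hom m a (fun h => by rw [h] at ha; simp at ha; nlinarith)]
    refine integral_congr_ae (Eventually.of_forall fun g => ?_)
    have : ∑ i, (starRingEnd ℂ) (a i) * g.1 i 0 =
        g.1 0 0 + t * (ω * g.1 j 0) := by
      rw [← add_sum_erase _ _ (mem_univ 0),
        ← add_sum_erase _ _ (mem_erase.2 ⟨hj, mem_univ j⟩), sum_eq_zero]
      · simp [a, hj, hj.symm, mul_assoc]
      · intro i hi
        simp only [mem_erase] at hi
        simp [a, hi.1, hi.2.1]
    simp only [this, normSq_add, map_mul, hω, P, r, normSq_ofReal, conj_ofReal]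
    congr 1
    simp only [mul_re, mul_im, ofReal_re, ofReal_im]
    ring
  have h1 := key 1 (by simp)
  have h2 := key I (by simp)
  have hc : ∀ ω, Continuous fun x => k * P 0 x ^ (k - 1) * r ω x ^ 2 + 2 * (P 0 x ^ k * P j x) :=
    fun ω => by
      have := hr ω
      have := P_cont (N := N) 0
      have := P_cont j
      fun_prop
  have h3 := integral_add (integ m (hc 1)) (integ m (hc I))
  rw [h1, h2] at h3
  have h4 : ∀ x, k * P 0 x ^ (k - 1) * r 1 x ^ 2 + 2 * (P 0 x ^ k * P j x) +
      (k * P 0 x ^ (k - 1) * r I x ^ 2 + 2 * (P 0 x ^ k * P j x)) =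
      4 * (k + 1) * (P 0 x ^ k * P j x) := by
    intro x
    have : r 1 x ^ 2 + r I x ^ 2 = 4 * P 0 x * P j x := by
      simp [r, P, normSq_apply]
      ring
    rcases k with _ | k
    · simp; ring
    · simp only [Nat.add_sub_cancel, pow_succ (P 0 x) k]
      push_cast
      linear_combination (k + 1) * P 0 x ^ k * this
  simp only [h4, integral_const_mul] at h3
  linarith

lemma sumP (g : U (N + 1)) : ∑ i, P i g = 1 := by
  have := congrFun (congrFun (Matrix.UnitaryGroup.star_mul_self g) 0) 0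
  simp only [Matrix.mul_apply, Matrix.star_apply, Matrix.one_apply_eq] at this
  have h2 := congrArg re this
  simpa [P, normSq_apply] using h2

lemma moment (k : ℕ) :
    ∫ g, P 0 g ^ k ∂m = k.factorial * N.factorial / (k + N).factorial := by
  haveI := compactU (N + 1)
  induction k with
  | zero => simp; field_simp
  | succ k ih =>
    have h1 : ∫ g, P 0 g ^ k ∂m = ∑ i, ∫ g, P 0 g ^ k * P i g ∂m := by
      rw [← integral_finsetSum _ fun i _ => integ m (((P_cont 0).fun_pow k).fun_mul (P_cont i))]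
      simp only [← mul_sum, sumP, mul_one]
    have h2 : (k + 1) * ∫ g, P 0 g ^ k ∂m = (k + 1 + N) * ∫ g, P 0 g ^ (k + 1) ∂m := by
      rw [h1, Fin.sum_univ_succ, mul_add, mul_sum]
      simp only [cross m _ (Fin.succ_ne_zero _), ← pow_succ]
      simp
      ring
    rw [ih] at h2
    rw [show k + 1 + N = (k + N) + 1 by ring, Nat.factorial_succ, Nat.factorial_succ]
    push_cast
    have : (k + 1 + N : ℝ) ≠ 0 := by positivity
    refine mul_left_cancel₀ this (h2.symm.trans ?_)
    field_simp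
    ring

lemma mgf (w : ℂ) : w ^ N * ∫ g, exp (w * P 0 g) ∂m =
    N.factorial * (exp w - ∑ i ∈ range N, w ^ i / i.factorial) := by
  haveI := compactU (N + 1)
  have hP : ∀ g : U (N + 1), 0 ≤ P 0 g ∧ P 0 g ≤ 1 := fun g =>
    ⟨normSq_nonneg _, sumP g ▸ single_le_sum (f := fun i => P i g) (fun i _ => normSq_nonneg _)
      (mem_univ 0)⟩
  have hc : ∀ k : ℕ, Continuous fun g : U (N + 1) => (w * P 0 g) ^ k / (k.factorial : ℂ) :=
    fun k => by have := P_cont (N := N) 0; fun_prop
  have he : ∀ x : ℂ, HasSum (fun n => x ^ n / n.factorial) (exp x) := fun x => by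
    rw [exp_eq_exp_ℂ]; exact NormedSpace.expSeries_div_hasSum_exp x
  have h1 := hasSum_integral_of_summable_integral_norm (μ := m) (fun k => integ m (hc k)) (by
    refine Summable.of_nonneg_of_le (fun k => integral_nonneg fun _ => norm_nonneg _) (fun k => ?_)
      (Real.summable_pow_div_factorial ‖w‖)
    refine (integral_mono (integ m (hc k).norm) (integrable_const (‖w‖ ^ k / k.factorial))
      fun g => ?_).trans (by simp)
    simp only [norm_div, norm_pow, norm_mul, norm_natCast, norm_real, Real.norm_eq_abs,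
      abs_of_nonneg (hP g).1]
    gcongr
    · exact mul_nonneg (norm_nonneg _) (hP g).1
    · exact mul_le_of_le_one_right (norm_nonneg _) (hP g).2)
  simp only [(he _).tsum_eq] at h1
  refine (h1.mul_left (w ^ N)).unique ?_
  convert ((hasSum_nat_add_iff' N).2 (he w)).mul_left (N.factorial : ℂ) using 2 with k
  simp only [mul_pow, ← ofReal_pow, integral_div, integral_const_mul, integral_complex_ofReal,
    moment m]
  push_cast
  have : (k.factorial : ℂ) ≠ 0 := by exact_mod_cast k.factorial_ne_zero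
  field_simp
  ring

end Pool.Agent.H9.Haar1
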