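import Mathlib

namespace Pool.Agent.H9.Hyp1

open Filter Topology Complex Set

noncomputable def hh (S : Finset ℝ) (c : ℝ → ℂ) (l : ℂ) : ℂ := ∑ τ ∈ S, c τ * exp (l * τ)

lemma hh_diff (S : Finset ℝ) (c : ℝ → ℂ) : Differentiable ℂ (hh S c) := by
  unfold hh
  fun_prop

lemma tend_exp (τ : ℝ) (hτ : 0 < τ) :
    Tendsto (fun l : ℂ => exp (l * τ)) (comap re atBot) (𝓝 0) := by
  rw [tendsto_zero_iff_norm_tendsto_zero]
  simp only [norm_exp, mul_re, ofReal_re, ofReal_im, mul_zero, sub_zero]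
  exact Real.tendsto_exp_atBot.comp (tendsto_comap.atBot_mul_const hτ)

lemma left_lim (S : Finset ℝ) (c : ℝ → ℂ) (h0 : 0 ∈ S) (hS : ∀ τ ∈ S, 0 ≤ τ) :
    Tendsto (hh S c) (comap re atBot) (𝓝 (c 0)) := by
  have : c 0 = ∑ τ ∈ S, if τ = 0 then c τ else 0 := by simp [h0]
  rw [this]
  refine tendsto_finsetSum _ fun τ hτ => ?_
  split_ifs with h
  · simpa [h] using tendsto_const_nhds
  · simpa using (tend_exp τ (lt_of_le_of_ne (hS τ hτ) (Ne.symm h))).const_mul (c τ)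

lemma right_lim (S : Finset ℝ) (c : ℝ → ℂ) (m : ℝ) (h0 : m ∈ S) (hS : ∀ τ ∈ S, τ ≤ m) :
    Tendsto (fun l => hh S c l * exp (-l * m)) (comap re atTop) (𝓝 (c m)) := by
  have : c m = ∑ τ ∈ S, if τ = m then c τ else 0 := by simp [h0]
  rw [this]
  simp only [hh, Finset.sum_mul]
  refine tendsto_finsetSum _ fun τ hτ => ?_
  have e : ∀ l : ℂ, c τ * exp (l * τ) * exp (-l * m) = c τ * exp (-l * (m - τ : ℝ)) := by
    intro l
    rw [mul_assoc, ← exp_add]
    congr 2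
    push_cast; ring
  simp only [e]
  split_ifs with h
  · simpa [h] using tendsto_const_nhds
  · have hn : Tendsto (fun l : ℂ => -l) (comap re atTop) (comap re atBot) := by
      rw [tendsto_comap_iff]
      exact tendsto_neg_atTop_atBot.comp tendsto_comap
    simpa using ((tend_exp (m - τ) (sub_pos.2 (lt_of_le_of_ne (hS τ hτ) h))).comp hn).const_mul (c τ)

lemma strip (S : Finset ℝ) (c : ℝ → ℂ) (l0 : ℂ) (hl : hh S c l0 ≠ 0) (a : ℝ) :
    ∃ δ > 0, ∀ N : ℝ, ∃ y1 ≥ N, ∃ y2 ≤ -N, ∀ x ∈ Icc (-a) a,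
      δ ≤ ‖hh S c (x + y1 * I)‖ ∧ δ ≤ ‖hh S c (x + y2 * I)‖ := by
  have han : AnalyticOnNhd ℂ (hh S c) univ := fun z _ => (hh_diff S c).analyticAt z
  have hK : IsCompact (Icc (-a) a ×ℂ Icc (0 : ℝ) 1) := isCompact_Icc.reProdIm isCompact_Icc
  have hfin := hK.finite_sdiff_of_mem_codiscreteWithin
    (codiscreteWithin_mono (subset_univ _) (han.preimage_zero_mem_codiscrete hl))
  obtain ⟨y, hy, hy'⟩ := (Set.Icc_infinite (zero_lt_one' ℝ)).exists_notMem_finite (hfin.image im)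
  have hne : ∀ x ∈ Icc (-a) a, hh S c (x + y * I) ≠ 0 := by
    intro x hx h
    refine hy' ⟨x + y * I, ⟨?_, by simpa using h⟩, by simp⟩
    simpa [mem_reProdIm] using ⟨hx, hy⟩
  let F : (S → Circle) → ℝ → ℂ := fun θ x => ∑ τ : S, c τ * exp ((x + y * I) * τ) * θ τ
  have hF : Continuous fun p : (S → Circle) × ℝ => F p.1 p.2 := by
    unfold F; fun_prop
  have hF1 : ∀ x, F 1 x = hh S c (x + y * I) := by
    intro x
    simp only [F, Pi.one_apply, Circle.coe_one, mul_one, hh]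
    exact Finset.sum_coe_sort S fun τ => c τ * exp ((x + y * I) * τ)
  obtain ⟨δ, hδ, hδ'⟩ : ∃ δ > 0, ∀ x ∈ Icc (-a) a, δ ≤ ‖F 1 x‖ / 2 :=
    isCompact_Icc.exists_forall_le' (f := fun x => ‖F 1 x‖ / 2)
      ((hF.comp (Continuous.prodMk_right 1)).norm.div_const 2).continuousOn
      (fun x hx => by have := norm_pos_iff.2 (hne x hx); rw [hF1]; linarith)
  have hev : ∀ᶠ θ in 𝓝 (1 : S → Circle), ∀ x ∈ Icc (-a) a, δ < ‖F θ x‖ := by
    refine isCompact_Icc.eventually_forall_of_forall_eventually fun x hx => ?_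
    refine hF.norm.continuousAt.eventually (lt_mem_nhds ?_)
    have := hδ' x hx
    show δ < ‖F 1 x‖
    linarith
  have hev' : ∀ᶠ θ in 𝓝 (1 : S → Circle), ∀ x ∈ Icc (-a) a, δ < ‖F θ⁻¹ x‖ := by
    have : Tendsto (fun θ : S → Circle => θ⁻¹) (𝓝 1) (𝓝 1) := by
      simpa using (continuous_inv (G := S → Circle)).tendsto 1
    exact this.eventually hev
  let g : S → Circle := fun τ => Circle.exp τ
  have hcl := (mapClusterPt_one_atTop_pow g).frequently (hev.and hev')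
  refine ⟨δ, hδ, fun N => ?_⟩
  obtain ⟨n, ⟨h1, h2⟩, hn⟩ := (hcl.and_eventually (eventually_ge_atTop ⌈N + 1⌉₊)).exists
  have hn' : N + 1 ≤ n := Nat.ceil_le.1 hn
  refine ⟨y + n, by linarith [hy.1], y - n, by linarith [hy.2], fun x hx => ⟨?_, ?_⟩⟩
  · refine (h1 x hx).le.trans (le_of_eq ?_)
    congr 1
    rw [hh, ← Finset.sum_coe_sort S]
    refine Finset.sum_congr rfl fun τ _ => ?_
    simp only [g, Pi.pow_apply, Circle.coe_pow, Circle.coe_exp, ← exp_nat_mul, mul_assoc, ← exp_add]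
    congr 2
    push_cast; ring
  · refine (h2 x hx).le.trans (le_of_eq ?_)
    congr 1
    rw [hh, ← Finset.sum_coe_sort S]
    refine Finset.sum_congr rfl fun τ _ => ?_
    simp only [g, Pi.inv_apply, Pi.pow_apply, Circle.coe_inv, Circle.coe_pow, Circle.coe_exp,
      ← exp_nat_mul, mul_assoc, ← exp_neg, ← exp_add]
    congr 2
    push_cast; ring

lemma hh_ne (S : Finset ℝ) (c : ℝ → ℂ) (h0 : 0 ∈ S) (hS : ∀ τ ∈ S, 0 ≤ τ) (hc0 : c 0 ≠ 0) :
    ∃ l, hh S c l ≠ 0 := by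
  have : NeBot (comap re atBot) := comap_neBot fun t ht => by
    obtain ⟨x, hx⟩ := Filter.nonempty_of_mem ht
    exact ⟨x, by simpa using hx⟩
  exact ((left_lim S c h0 hS).eventually_ne hc0).exists

theorem const_of_quot (S : Finset ℝ) (c : ℝ → ℂ) (m : ℝ) (h0 : 0 ∈ S) (hm : m ∈ S)
    (hS : ∀ τ ∈ S, 0 ≤ τ ∧ τ ≤ m) (hc0 : c 0 ≠ 0) (hcm : c m ≠ 0) (r : ℂ → ℂ)
    (hr : Differentiable ℂ r) (C : ℝ)
    (hb : ∀ l, ‖r l * hh S c l‖ ≤ C * max 1 (Real.exp (l.re * m))) (l l' : ℂ) : r l = r l' := by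
  have hm0 := (hS m hm).1
  have hC : 0 ≤ C := by simpa using (norm_nonneg _).trans (hb 0)
  have h1 := (left_lim S c h0 fun τ h => (hS τ h).1).norm.eventually
    (lt_mem_nhds (half_lt_self (norm_pos_iff.2 hc0)))
  have h2 := (right_lim S c m hm fun τ h => (hS τ h).2).norm.eventually
    (lt_mem_nhds (half_lt_self (norm_pos_iff.2 hcm)))
  rw [eventually_comap, eventually_atBot] at h1
  rw [eventually_comap, eventually_atTop] at h2
  obtain ⟨a1, h1⟩ := h1
  obtain ⟨a2, h2⟩ := h2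
  set a := max 1 (max (-a1) a2) with ha
  have ha0 : 1 ≤ a := le_max_left _ _
  have ha1 : -a ≤ a1 := by have : -a1 ≤ a := le_max_of_le_right (le_max_left _ _); linarith
  have ha2 : a2 ≤ a := le_max_of_le_right (le_max_right _ _)
  obtain ⟨l0, hl0⟩ := hh_ne S c h0 (fun τ h => (hS τ h).1) hc0
  obtain ⟨δ, hδ, hst⟩ := strip S c l0 hl0 a
  have p0 := half_pos (norm_pos_iff.2 hc0)
  have pm := half_pos (norm_pos_iff.2 hcm)
  set B := C / (‖c 0‖ / 2) + C / (‖c m‖ / 2) + C * Real.exp (a * m) / δ with hB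
  have q1 : 0 ≤ C / (‖c 0‖ / 2) := by positivity
  have q2 : 0 ≤ C / (‖c m‖ / 2) := by positivity
  have q3 : 0 ≤ C * Real.exp (a * m) / δ := by positivity
  have bl : ∀ z : ℂ, z.re ≤ -a → ‖r z‖ ≤ B := by
    intro z hz
    have e1 := h1 z.re (hz.trans ha1) z rfl
    have e2 := hb z
    rw [max_eq_left (Real.exp_le_one_iff.2 (by nlinarith)), norm_mul] at e2
    have : ‖r z‖ ≤ C / (‖c 0‖ / 2) := by
      rw [le_div_iff₀ p0]
      nlinarith [norm_nonneg (r z)]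
    linarith
  have br : ∀ z : ℂ, a ≤ z.re → ‖r z‖ ≤ B := by
    intro z hz
    have e1 := h2 z.re (ha2.trans hz) z rfl
    have e2 := hb z
    rw [max_eq_right (Real.one_le_exp (by nlinarith)), norm_mul] at e2
    simp only [norm_mul, norm_exp, neg_mul, neg_re, mul_re, ofReal_re, ofReal_im, mul_zero,
      sub_zero, Real.exp_neg] at e1
    have hp := Real.exp_pos (z.re * m)
    rw [← div_eq_mul_inv, lt_div_iff₀ hp] at e1
    have : ‖r z‖ ≤ C / (‖c m‖ / 2) := by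
      rw [le_div_iff₀ pm]
      refine le_of_mul_le_mul_right ?_ hp
      nlinarith [norm_nonneg (r z)]
    linarith
  have bm : ∀ z : ℂ, z.re ≤ a → δ ≤ ‖hh S c z‖ → ‖r z‖ ≤ B := by
    intro z hz h
    have e2 := hb z
    have e3 : max 1 (Real.exp (z.re * m)) ≤ Real.exp (a * m) :=
      max_le (Real.one_le_exp (by nlinarith)) (Real.exp_le_exp.2 (by nlinarith))
    rw [norm_mul] at e2
    have : ‖r z‖ ≤ C * Real.exp (a * m) / δ := by
      rw [le_div_iff₀ hδ]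
      nlinarith [norm_nonneg (r z)]
    linarith
  refine hr.apply_eq_apply_of_bounded (isBounded_iff_forall_norm_le.2 ⟨B, ?_⟩) l l'
  rintro _ ⟨z, rfl⟩
  rcases le_or_gt z.re (-a) with h | h
  · exact bl z h
  rcases le_or_gt a z.re with h' | h'
  · exact br z h'
  obtain ⟨y1, hy1, y2, hy2, hy⟩ := hst (|z.im| + 1)
  have i1 := le_abs_self z.im
  have i2 := neg_abs_le z.im
  refine norm_le_of_forall_mem_frontier_norm_le (U := Ioo (-a) a ×ℂ Ioo y2 y1)
    ((Metric.isBounded_Ioo _ _).reProdIm (Metric.isBounded_Ioo _ _)) hr.diffContOnCl ?_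
    (subset_closure ⟨⟨h, h'⟩, by constructor <;> linarith⟩)
  intro w hw
  have hlt : y2 < y1 := by linarith [abs_nonneg z.im]
  have hlt' : -a < a := by linarith
  rw [frontier_reProdIm, frontier_Ioo hlt, frontier_Ioo hlt', closure_Ioo hlt'.ne] at hw
  rcases hw with ⟨hw1, hw2⟩ | ⟨hw1, -⟩
  · refine bm w hw1.2 ?_
    have := hy w.re hw1
    rcases hw2 with hw2 | hw2
    · have hw2 : w.im = y2 := hw2
      rw [← hw2, re_add_im] at this; exact this.2
    · have hw2 : w.im = y1 := hw2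
      rw [← hw2, re_add_im] at this; exact this.1
  · rcases hw1 with hw1 | hw1
    · exact bl w (le_of_eq hw1)
    · exact br w (ge_of_eq hw1)

end Pool.Agent.H9.Hyp1
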