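import Pool.Agent.H9.Hyp1

namespace Pool.Agent.H9.Hyp2

open Filter Topology Complex Set Pool.Agent.H9.Hyp1 MeasureTheory

noncomputable def II (u : ℝ → ℂ) (t : ℝ) (l : ℂ) : ℂ := ∫ s in (0 : ℝ)..t, exp (-l * s) * u s

lemma II_diff (u : ℝ → ℂ) (hu : Continuous u) (t : ℝ) : Differentiable ℂ (II u t) := by
  intro l0
  obtain ⟨B, hB⟩ := ((isCompact_closedBall l0 1).prod (isCompact_uIcc (a := (0 : ℝ)) (b := t))).exists_bound_of_continuousOn
    (f := fun p : ℂ × ℝ => exp (-p.1 * p.2) * (-p.2) * u p.2) (by fun_prop)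
  refine (intervalIntegral.hasDerivAt_integral_of_dominated_loc_of_deriv_le (μ := volume)
    (F := fun l s => exp (-l * s) * u s) (F' := fun l s => exp (-l * s) * (-s) * u s)
    (bound := fun _ => B) (Metric.closedBall_mem_nhds l0 one_pos) ?_ ?_ ?_ ?_ ?_ ?_).2.differentiableAt
  · exact Eventually.of_forall fun l => Continuous.aestronglyMeasurable (by fun_prop)
  · exact Continuous.intervalIntegrable (by fun_prop) _ _
  · exact Continuous.aestronglyMeasurable (by fun_prop)
  · exact Eventually.of_forall fun s hs l hl => hB (l, s) ⟨hl, uIoc_subset_uIcc hs⟩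
  · exact intervalIntegrable_const
  · refine Eventually.of_forall fun s _ l _ => ?_
    have : HasDerivAt (fun l : ℂ => -l * s) (-s) l := by
      simpa using ((hasDerivAt_id l).neg).mul_const (s : ℂ)
    exact this.cexp.mul_const (u s)

lemma II_deriv (u : ℝ → ℂ) (hu : Continuous u) (l : ℂ) :
    HasDerivAt (fun t => II u t l) (u 0) 0 := by
  have := (Continuous.deriv_integral (f := fun s : ℝ => exp (-l * s) * u s) (by fun_prop) 0 0)
  have h2 := intervalIntegral.integral_hasDerivAt_right (f := fun s : ℝ => exp (-l * s) * u s)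
    (a := 0) (b := 0) (Continuous.intervalIntegrable (by fun_prop) _ _)
    (Continuous.stronglyMeasurableAtFilter (by fun_prop) _ _) (Continuous.continuousAt (by fun_prop))
  simpa [II] using h2

lemma II_shift (u v : ℝ → ℂ) (hu : Continuous u) (t τ : ℝ) (hτ : 0 ≤ τ) (l : ℂ)
    (hv : ∀ s, 0 ≤ s → v s = u (s + t)) :
    exp (-l * t) * II v τ l = II u (t + τ) l - II u t l := by
  unfold II
  rw [intervalIntegral.integral_interval_sub_left (Continuous.intervalIntegrable (by fun_prop) _ _)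
    (Continuous.intervalIntegrable (by fun_prop) _ _), ← intervalIntegral.integral_const_mul]
  have := intervalIntegral.integral_comp_add_right (fun s : ℝ => exp (-l * s) * u s) t (a := 0) (b := τ)
  rw [zero_add, add_comm τ t] at this
  rw [← this]
  refine intervalIntegral.integral_congr fun s hs => ?_
  rw [uIcc_of_le hτ] at hs
  simp only [hv s hs.1, ← mul_assoc, ← exp_add]
  congr 2
  push_cast; ring

lemma II_bound (u : ℝ → ℂ) (U m τ : ℝ) (h0 : 0 ≤ τ) (hm : τ ≤ m) (hU : ∀ s ∈ Icc 0 m, ‖u s‖ ≤ U)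
    (l : ℂ) : ‖exp (l * τ) * II u τ l‖ ≤ U * m * max 1 (Real.exp (l.re * m)) := by
  unfold II
  rw [← intervalIntegral.integral_const_mul]
  have hU0 : 0 ≤ U := (norm_nonneg _).trans (hU 0 ⟨le_rfl, h0.trans hm⟩)
  refine (intervalIntegral.norm_integral_le_of_norm_le_const
    (C := U * max 1 (Real.exp (l.re * m))) fun s hs => ?_).trans ?_
  · rw [uIoc_of_le h0] at hs
    rw [← mul_assoc, ← exp_add, norm_mul, norm_exp, mul_comm]
    refine mul_le_mul (hU s ⟨hs.1.le, hs.2.trans hm⟩) ?_ (Real.exp_pos _).le hU0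
    simp only [neg_mul, add_re, mul_re, ofReal_re, ofReal_im, mul_zero, sub_zero, neg_re]
    rcases le_total l.re 0 with h | h
    · exact le_max_of_le_left (Real.exp_le_one_iff.2 (by nlinarith [hs.1, hs.2]))
    · exact le_max_of_le_right (Real.exp_le_exp.2 (by nlinarith [hs.1, hs.2]))
  · rw [sub_zero, abs_of_nonneg h0, mul_right_comm]
    gcongr

variable {X : Type*} [NormedAddCommGroup X] [NormedSpace ℝ X]

lemma exJ [CompleteSpace X] (T : ℝ → X →L[ℝ] X) (hc : ∀ x, Continuous fun t => T t x)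
    (φ : X →L[ℝ] ℂ) (l : ℂ) (t : ℝ) :
    ∃ J : X →L[ℝ] ℂ, ∀ x, J x = II (fun s => φ (T s x)) t l := by
  obtain ⟨M, hM⟩ := banach_steinhaus (g := fun s : uIcc (0 : ℝ) t => T s) fun x => by
    obtain ⟨C, hC⟩ := (isCompact_uIcc (a := (0 : ℝ)) (b := t)).exists_bound_of_continuousOn
      (hc x).continuousOn
    exact ⟨C, fun s => hC s s.2⟩
  obtain ⟨B, hB⟩ := (isCompact_uIcc (a := (0 : ℝ)) (b := t)).exists_bound_of_continuousOn
    (f := fun s : ℝ => exp (-l * s)) (by fun_prop)
  have hi : ∀ x, IntervalIntegrable (fun s : ℝ => exp (-l * s) * φ (T s x)) volume 0 t := fun x =>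
    Continuous.intervalIntegrable (by have := hc x; fun_prop) _ _
  let L : X →ₗ[ℝ] ℂ :=
    { toFun := fun x => II (fun s => φ (T s x)) t l
      map_add' := fun x y => by
        simp only [II, map_add, mul_add]
        exact intervalIntegral.integral_add (hi x) (hi y)
      map_smul' := fun a x => by
        simp only [II, map_smul, mul_smul_comm, RingHom.id_apply]
        exact intervalIntegral.integral_smul _ _ }
  refine ⟨L.mkContinuous (B * (‖φ‖ * M) * |t - 0|) fun x => ?_, fun x => rfl⟩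
  refine (intervalIntegral.norm_integral_le_of_norm_le_const
    (C := B * (‖φ‖ * (M * ‖x‖))) fun s hs => ?_).trans (le_of_eq (by ring))
  have hs := uIoc_subset_uIcc hs
  rw [norm_mul]
  refine mul_le_mul (hB s hs) ((φ.le_opNorm _).trans ?_) (norm_nonneg _)
    ((norm_nonneg _).trans (hB s hs))
  exact mul_le_mul_of_nonneg_left ((T s).le_of_opNorm_le (hM ⟨s, hs⟩) x) (norm_nonneg _)

lemma zero_of_bdd {Y : Type*} [NormedAddCommGroup Y] [NormedSpace ℝ Y] (ψ : X →L[ℝ] Y)
    (D : Set X) (hD : Dense D) (B : ℝ) (h : ∀ x ∈ D, ‖ψ x‖ ≤ B) : ψ = 0 := by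
  have h1 : ∀ x, ‖ψ x‖ ≤ B := fun x =>
    hD.induction (P := fun x => ‖ψ x‖ ≤ B) h (isClosed_le (by fun_prop) continuous_const) x
  ext x
  by_contra hx
  have hx : 0 < ‖ψ x‖ := norm_pos_iff.2 hx
  have hB : 0 ≤ B := hx.le.trans (h1 x)
  have := h1 (((B + 1) / ‖ψ x‖) • x)
  rw [map_smul, norm_smul, Real.norm_of_nonneg (by positivity), div_mul_cancel₀ _ hx.ne'] at this
  linarith

lemma eig (T : ℝ → X →L[ℝ] X) (z : X) (hz : Dense {y | ∃ t, 0 ≤ t ∧ T t z = y})
    (ψ : X →L[ℝ] ℂ) (l : ℂ) (h : ∀ t : ℝ, 0 ≤ t → ∀ x, exp (-l * t) * ψ (T t x) - ψ x = 0) : ψ = 0 := by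
  have h1 : ∀ t : ℝ, 0 ≤ t → ‖ψ (T t z)‖ = Real.exp (l.re * t) * ‖ψ z‖ := by
    intro t ht
    rw [← sub_eq_zero.1 (h t ht z), norm_mul, norm_exp, ← mul_assoc, ← Real.exp_add]
    simp
  rcases le_total l.re 0 with hl | hl
  · refine zero_of_bdd ψ _ hz ‖ψ z‖ ?_
    rintro _ ⟨t, ht, rfl⟩
    rw [h1 t ht]
    exact mul_le_of_le_one_left (norm_nonneg _) (Real.exp_le_one_iff.2 (by nlinarith))
  · have h2 : ‖ψ z‖ ≤ ‖ψ 0‖ := by
      refine hz.induction (P := fun x => ‖ψ z‖ ≤ ‖ψ x‖) ?_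
        (isClosed_le continuous_const (by fun_prop)) 0
      rintro _ ⟨t, ht, rfl⟩
      rw [h1 t ht]
      exact le_mul_of_one_le_left (norm_nonneg _) (Real.one_le_exp (by positivity))
    refine zero_of_bdd ψ _ hz 0 ?_
    rintro _ ⟨t, ht, rfl⟩
    rw [h1 t ht]
    simp only [map_zero, norm_zero] at h2
    exact mul_nonpos_of_nonneg_of_nonpos (Real.exp_pos _).le h2

lemma divide [CompleteSpace X] (T : ℝ → X →L[ℝ] X) (z : X)
    (hz : Dense {y | ∃ t, 0 ≤ t ∧ T t z = y}) (J : ℂ → ℝ → X → ℂ)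
    (hJ : ∀ t x, Continuous fun l => J l t x) (l0 : ℂ) (h1 : ℂ → ℂ) (hh1 : ContinuousAt h1 l0)
    (k : ℕ) : ∀ G : ℂ → X →L[ℝ] ℂ, (∀ x, AnalyticAt ℂ (fun l => G l x) l0) →
      (∀ᶠ l in 𝓝 l0, ∀ t : ℝ, 0 ≤ t → ∀ x,
        exp (-l * t) * G l (T t x) - G l x = -((l - l0) ^ k * h1 l) * J l t x) →
      ∃ G' : ℂ → X →L[ℝ] ℂ, (∀ x, AnalyticAt ℂ (fun l => G' l x) l0) ∧
        ∀ᶠ l in 𝓝 l0, ∀ t : ℝ, 0 ≤ t → ∀ x,
          exp (-l * t) * G' l (T t x) - G' l x = -h1 l * J l t x := by
  classical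
  induction k with
  | zero => exact fun G hG h => ⟨G, hG, by simpa using h⟩
  | succ k ih =>
    intro G hG h
    have h0 : G l0 = 0 := eig T z hz _ l0 (by simpa using h.self_of_nhds)
    have han : ∀ x, AnalyticAt ℂ (dslope (fun l => G l x) l0) l0 := fun x => by
      obtain ⟨p, hp⟩ := hG x
      exact ⟨_, hp.has_fpower_series_dslope_fslope⟩
    have hne : ∀ l, l ≠ l0 → ∀ x, ((l - l0)⁻¹ • G l) x = dslope (fun l => G l x) l0 l := by
      intro l hl x
      simp [dslope_of_ne _ hl, slope, h0]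
    have ht : Tendsto (fun l x => ((l - l0)⁻¹ • G l) x) (𝓝[≠] l0)
        (𝓝 fun x => dslope (fun l => G l x) l0 l0) := by
      rw [tendsto_pi_nhds]
      intro x
      refine ((han x).continuousAt.tendsto.mono_left nhdsWithin_le_nhds).congr' ?_
      filter_upwards [self_mem_nhdsWithin] with l hl using (hne l hl x).symm
    let G' : ℂ → X →L[ℝ] ℂ := fun l =>
      if l = l0 then continuousLinearMapOfTendsto _ ht else (l - l0)⁻¹ • G l
    have hG' : ∀ l x, G' l x = dslope (fun l => G l x) l0 l := by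
      intro l x
      by_cases hl : l = l0
      · simp only [G', if_pos hl]
        rw [hl]; rfl
      · simp only [G', if_neg hl]
        exact hne l hl x
    have han' : ∀ x, AnalyticAt ℂ (fun l => G' l x) l0 := fun x => by
      simp only [hG']; exact han x
    refine ih G' han' ?_
    have hp : ∀ᶠ l in 𝓝[≠] l0, ∀ t : ℝ, 0 ≤ t → ∀ x,
        exp (-l * t) * G' l (T t x) - G' l x = -((l - l0) ^ k * h1 l) * J l t x := by
      filter_upwards [self_mem_nhdsWithin, nhdsWithin_le_nhds h] with l hl hl' t ht x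
      have hl : l ≠ l0 := hl
      have := hl' t ht x
      have h3 := sub_ne_zero.2 hl
      simp only [G', if_neg hl, smul_apply, smul_eq_mul]
      linear_combination (l - l0)⁻¹ * this - ((l - l0) ^ k * h1 l * J l t x) * inv_mul_cancel₀ h3
    rw [← nhdsNE_sup_pure, eventually_sup]
    refine ⟨hp, eventually_pure.2 fun t ht x => ?_⟩
    have c1 : ContinuousAt (fun l => exp (-l * t) * G' l (T t x) - G' l x) l0 :=
      (ContinuousAt.mul (by fun_prop) (han' _).continuousAt).sub (han' _).continuousAt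
    have c2 : ContinuousAt (fun l => -((l - l0) ^ k * h1 l) * J l t x) l0 :=
      (ContinuousAt.mul (by fun_prop) hh1).neg.mul (hJ t x).continuousAt
    exact tendsto_nhds_unique_of_eventuallyEq (c1.tendsto.mono_left nhdsWithin_le_nhds)
      (c2.tendsto.mono_left nhdsWithin_le_nhds) (hp.mono fun l hl => hl t ht x)

theorem core [CompleteSpace X] (T : ℝ → X →L[ℝ] X) (hT0 : ∀ x, T 0 x = x)
    (hadd : ∀ s t, 0 ≤ s → 0 ≤ t → ∀ x, T (s + t) x = T s (T t x))
    (hc : ∀ x, Continuous fun t => T t x) (z : X) (hz : Dense {y | ∃ t, 0 ≤ t ∧ T t z = y})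
    (φ : X →L[ℝ] ℂ) (S : Finset ℝ) (c : ℝ → ℂ) (m : ℝ) (h0 : 0 ∈ S) (hm : m ∈ S)
    (hS : ∀ τ ∈ S, 0 ≤ τ ∧ τ ≤ m) (hc0 : c 0 ≠ 0) (hcm : c m ≠ 0)
    (hφ : ∀ x, ∑ τ ∈ S, c τ * φ (T τ x) = 0) : φ = 0 := by
  classical
  choose J hJ using exJ T hc φ
  have hu : ∀ x, Continuous fun s => φ (T s x) := fun x => φ.continuous.comp (hc x)
  have hJd : ∀ t x, Differentiable ℂ fun l => J l t x := fun t x => by
    simp only [hJ]; exact II_diff _ (hu x) t
  have hsh : ∀ (l : ℂ) (t τ : ℝ), 0 ≤ t → 0 ≤ τ → ∀ x,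
      exp (-l * t) * J l τ (T t x) = J l (t + τ) x - J l t x := by
    intro l t τ ht hτ x
    simp only [hJ]
    exact II_shift _ _ (hu x) t τ hτ l fun s hs => by rw [hadd s t hs ht]
  let G : ℂ → X →L[ℝ] ℂ := fun l => ∑ τ ∈ S, (c τ * exp (l * τ)) • J l τ
  have hGa : ∀ l x, G l x = ∑ τ ∈ S, c τ * exp (l * τ) * J l τ x := by
    intro l x; simp [G]
  have hG : ∀ (l : ℂ) (t : ℝ), 0 ≤ t → ∀ x,
      exp (-l * t) * G l (T t x) - G l x = -hh S c l * J l t x := by
    intro l t ht x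
    have e0 : ∑ τ ∈ S, c τ * J l t (T τ x) = 0 := by
      simp only [hJ, II, ← intervalIntegral.integral_const_mul]
      rw [← intervalIntegral.integral_finsetSum fun τ _ => Continuous.intervalIntegrable
        (by have := hu (T τ x); fun_prop) _ _]
      refine (intervalIntegral.integral_congr fun s hs => ?_).trans intervalIntegral.integral_zero
      rw [uIcc_of_le ht] at hs
      have := hφ (T s x)
      have e : ∀ τ ∈ S, c τ * (exp (-l * s) * φ (T s (T τ x))) =
          exp (-l * s) * (c τ * φ (T τ (T s x))) := by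
        intro τ hτ
        rw [← hadd s τ hs.1 (hS τ hτ).1, ← hadd τ s (hS τ hτ).1 hs.1, add_comm]
        ring
      beta_reduce
      rw [Finset.sum_congr rfl e, ← Finset.mul_sum, this, mul_zero]
    suffices hs : exp (-l * t) * G l (T t x) - G l x =
        ∑ τ ∈ S, c τ * J l t (T τ x) - hh S c l * J l t x by rw [hs, e0]; ring
    rw [hGa, hGa, hh, Finset.mul_sum, ← Finset.sum_sub_distrib, Finset.sum_mul,
      ← Finset.sum_sub_distrib]
    refine Finset.sum_congr rfl fun τ hτ => ?_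
    have a1 := hsh l t τ ht (hS τ hτ).1 x
    have a2 := hsh l τ t (hS τ hτ).1 ht x
    have a3 : exp (l * τ) * exp (-l * τ) = 1 := by rw [← exp_add]; simp
    rw [add_comm] at a2
    linear_combination (c τ * exp (l * τ)) * (a1 - a2) + c τ * J l t (T τ x) * a3
  have hGd : ∀ x, Differentiable ℂ fun l => G l x := fun x => by
    simp only [hGa]
    have := fun t => hJd t x
    fun_prop
  let Sol : ℂ → (X →L[ℝ] ℂ) → Prop := fun l ρ => ∀ t : ℝ, 0 ≤ t → ∀ x,
    exp (-l * t) * ρ (T t x) - ρ x = -J l t x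
  have uniq : ∀ l ρ ρ', Sol l ρ → Sol l ρ' → ρ = ρ' := by
    intro l ρ ρ' h h'
    refine sub_eq_zero.1 (eig T z hz _ l fun t ht x => ?_)
    simp only [sub_apply]
    linear_combination h t ht x - h' t ht x
  obtain ⟨l1, hl1⟩ := hh_ne S c h0 (fun τ h => (hS τ h).1) hc0
  have loc : ∀ l0, ∃ R : ℂ → X →L[ℝ] ℂ, (∀ x, AnalyticAt ℂ (fun l => R l x) l0) ∧
      ∀ᶠ l in 𝓝 l0, Sol l (R l) := by
    intro l0
    have han : AnalyticOnNhd ℂ (hh S c) univ := fun z _ => (hh_diff S c).analyticAt z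
    obtain ⟨k, h1, a1, a2, a3⟩ := (han l0 trivial).exists_eventuallyEq_pow_smul_nonzero_iff.2
      fun h => hl1 (han.eqOn_zero_of_preconnected_of_eventuallyEq_zero isPreconnected_univ
        (mem_univ l0) h (mem_univ l1))
    obtain ⟨G', b1, b2⟩ := divide T z hz (fun l t x => J l t x) (fun t x => (hJd t x).continuous)
      l0 h1 a1.continuousAt k G (fun x => (hGd x).analyticAt l0)
      (a3.mono fun l hl t ht x => by rw [hG l t ht x, hl, smul_eq_mul])
    refine ⟨fun l => (h1 l)⁻¹ • G' l, fun x => (a1.inv a2).mul (b1 x), ?_⟩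
    filter_upwards [b2, a1.continuousAt.eventually_ne a2] with l hl hl' t ht x
    simp only [smul_apply, smul_eq_mul]
    linear_combination (h1 l)⁻¹ * hl t ht x - J l t x * inv_mul_cancel₀ hl'
  choose R hR1 hR2 using loc
  have hRs : ∀ l, Sol l (R l l) := fun l => (hR2 l).self_of_nhds
  have hRd : ∀ x, Differentiable ℂ fun l => R l l x := by
    intro x l0
    refine ((hR1 l0 x).congr ?_).differentiableAt
    filter_upwards [hR2 l0] with l hl
    rw [uniq l _ _ hl (hRs l)]
  have hRG : ∀ l x, R l l x * hh S c l = G l x := by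
    intro l x
    have := eig T z hz (hh S c l • R l l - G l) l fun t ht x => by
      simp only [sub_apply, smul_apply, smul_eq_mul]
      linear_combination hh S c l * hRs l t ht x - hG l t ht x
    have := congrArg (fun f => f x) this
    simp only [sub_apply, smul_apply, smul_eq_mul,
      zero_apply] at this
    linear_combination this
  have hconst : ∀ x l, R l l x = R 0 0 x := by
    intro x l
    obtain ⟨U, hU⟩ := (isCompact_Icc (a := (0 : ℝ)) (b := m)).exists_bound_of_continuousOn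
      (hu x).continuousOn
    refine const_of_quot S c m h0 hm hS hc0 hcm _ (hRd x) (∑ τ ∈ S, ‖c τ‖ * (U * m)) (fun l => ?_) l 0
    rw [hRG, hGa, Finset.sum_mul]
    refine norm_sum_le_of_le _ fun τ hτ => ?_
    rw [mul_assoc, norm_mul, mul_assoc, hJ]
    exact mul_le_mul_of_nonneg_left (II_bound _ U m τ (hS τ hτ).1 (hS τ hτ).2 hU l) (norm_nonneg _)
  set ρ := R 0 0
  have hder : ∀ (l : ℂ) x, HasDerivWithinAt (fun t => ρ (T t x)) (l * ρ x - φ x) (Ici 0) 0 := by
    intro l x
    have d1 : HasDerivAt (fun t : ℝ => exp (l * t)) l 0 := by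
      simpa using ((hasDerivAt_id ((0 : ℝ) : ℂ)).const_mul l).cexp.comp_ofReal
    have d2 := d1.mul ((II_deriv _ (hu x) l).const_sub (ρ x))
    have e : ∀ t ∈ Ici (0 : ℝ), ρ (T t x) =
        exp (l * t) * (ρ x - II (fun s => φ (T s x)) t l) := by
      intro t ht
      have := hRs l t ht x
      rw [hconst (T t x) l, hconst x l, hJ] at this
      have a3 : exp (l * t) * exp (-l * t) = 1 := by rw [← exp_add]; simp
      linear_combination exp (l * t) * this - ρ (T t x) * a3
    refine (d2.hasDerivWithinAt.congr e (e 0 self_mem_Ici)).congr_deriv ?_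
    simp [II, hT0, sub_eq_add_neg]
  have hu0 := uniqueDiffWithinAt_Ici (0 : ℝ)
  have hρ : ∀ x, ρ x = 0 := fun x => by
    have := hu0.eq_deriv _ (hder 0 x) (hder 1 x)
    linear_combination -this
  ext x
  have h := hder 0 x
  simp only [hρ] at h
  have := hu0.eq_deriv _ h (hasDerivWithinAt_const _ _ _)
  simpa using this

end Pool.Agent.H9.Hyp2
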