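import Mathlib

/-! A hyperplane of `c₀` with almost monotone bases and no large norm one finite rank projection. -/
namespace Pool.Agent.H9.Hyper
open Filter Metric Topology Finset ZeroAtInfty

noncomputable def w (i : ℕ) : ℝ := (2 / 3) ^ i

lemma w_pos (i : ℕ) : 0 < w i := by unfold w; positivity

lemma w_sum : HasSum w 3 := by
  have := hasSum_geometric_of_lt_one (r := (2 / 3 : ℝ)) (by norm_num) (by norm_num)
  rwa [show (1 - 2 / 3 : ℝ)⁻¹ = 3 by norm_num] at this

/-- the space `c₀` -/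
def V : Type := C₀(ℕ, ℝ)

noncomputable instance : NormedAddCommGroup V := inferInstanceAs (NormedAddCommGroup C₀(ℕ, ℝ))
noncomputable instance : NormedSpace ℝ V := inferInstanceAs (NormedSpace ℝ C₀(ℕ, ℝ))
instance : CompleteSpace V := inferInstanceAs (CompleteSpace C₀(ℕ, ℝ))
instance : CoeFun V fun _ => ℕ → ℝ := ⟨fun x => x.toFun⟩

lemma le0 (x : V) (i : ℕ) : |x i| ≤ ‖x‖ := x.toBCF.norm_coe_le_norm i

lemma bd (x : V) (N i : ℕ) : ‖w (i + N) * x (i + N)‖ ≤ w i * (w N * ‖x‖) := by
  rw [norm_mul, Real.norm_of_nonneg (w_pos _).le, ← mul_assoc, show w i * w N = w (i + N) from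
    (pow_add _ _ _).symm]
  exact mul_le_mul_of_nonneg_left (le0 x _) (w_pos _).le

lemma sm (x : V) : Summable fun i => w i * x i :=
  .of_norm_bounded (w_sum.summable.mul_right _) (bd x 0)

noncomputable def φ : V →L[ℝ] ℝ := LinearMap.mkContinuous
  { toFun := fun x => ∑' i, w i * x i
    map_add' := fun x y => (tsum_congr fun i => mul_add _ _ _).trans ((sm x).tsum_add (sm y))
    map_smul' := fun c x => (tsum_congr fun i => mul_left_comm _ _ _).trans tsum_mul_left } 3 fun x =>
  (tsum_of_norm_bounded (w_sum.mul_right _) (bd x 0)).trans_eq (by simp [w])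

noncomputable abbrev H : Submodule ℝ V := φ.ker

lemma le (x : H) (i : ℕ) : |x.1 i| ≤ ‖x‖ := le0 x.1 i

lemma norm_le {x : H} {c : ℝ} (h : ∀ i, |x.1 i| ≤ c) : ‖x‖ ≤ c :=
  (BoundedContinuousFunction.norm_le (f := x.1.toBCF) ((abs_nonneg _).trans (h 0))).2 h

lemma zero (x : H) : Tendsto x.1 atTop (𝓝 0) := by
  simpa using x.1.zero_at_infty'

lemma tail (x : H) (N : ℕ) : |∑ i ∈ range N, w i * x.1 i| ≤ 3 * (w N * ‖x‖) := by
  rw [eq_neg_of_add_eq_zero_left (((sm x.1).sum_add_tsum_nat_add N).trans x.2), abs_neg]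
  exact tsum_of_norm_bounded (w_sum.mul_right _) (bd x N)

lemma fin {x : H} {N : ℕ} (h : ∀ i ≥ N, x.1 i = 0) : ∑ i ∈ range N, w i * x.1 i = 0 :=
  (tsum_eq_sum fun i hi => by rw [h i (by simpa using hi), mul_zero]).symm.trans x.2

noncomputable def mk (g : ℕ → ℝ) (N : ℕ) (h : ∀ i ≥ N, g i = 0)
    (h' : ∑ i ∈ range N, w i * g i = 0) : H :=
  ⟨⟨⟨g, continuous_of_discreteTopology⟩, by
      simpa using tendsto_const_nhds.congr' ((eventually_ge_atTop N).mono fun i hi => (h i hi).symm)⟩,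
    (tsum_eq_sum fun i hi => by
      show w i * g i = 0
      rw [h i (by simpa using hi), mul_zero]).trans h'⟩

lemma w_zero : Tendsto w atTop (𝓝 0) := w_sum.summable.tendsto_atTop_zero

lemma peak {u : H →ₗ[ℝ] H} (hu : ∀ x, ‖u x‖ ≤ ‖x‖) {z : H} (hz : u z = z) {i : ℕ} {η : ℝ}
    (hη : 0 < η) (h : ∀ j ≠ i, |z.1 j| ≤ z.1 i - η) (x : H) : (u x).1 i = x.1 i := by
  have h1 : ∀ t : ℝ, |t| * ‖x‖ ≤ η / 2 → t * (u x).1 i ≤ t * x.1 i := fun t ht => by
    have h2 : ∀ j, |t * x.1 j| ≤ η / 2 := fun j =>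
      (abs_mul _ _).trans_le ((mul_le_mul_of_nonneg_left (le x j) (abs_nonneg _)).trans ht)
    have h3 := (le_abs_self _).trans ((le (u (z + t • x)) i).trans ((hu _).trans
      (norm_le (c := z.1 i + t * x.1 i) fun j => by
        show |z.1 j + t * x.1 j| ≤ _
        have h3 := abs_le.1 (h2 i)
        have h4 := abs_le.1 (h2 j)
        rcases eq_or_ne j i with rfl | h5
        · have := (abs_nonneg _).trans (h (j + 1) j.succ_ne_self)
          exact (abs_of_nonneg (by linarith)).le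
        · have := abs_le.1 (h j h5)
          exact abs_le.2 ⟨by linarith, by linarith⟩)))
    rw [map_add, map_smul, hz] at h3
    exact le_of_add_le_add_left h3
  have h2 : 0 < η / 2 / (‖x‖ + 1) := by positivity
  have h3 : η / 2 / (‖x‖ + 1) * ‖x‖ ≤ η / 2 := by
    rw [div_mul_eq_mul_div, div_le_iff₀ (by positivity)]
    nlinarith
  have h4 := h1 _ (by rwa [abs_of_pos h2])
  have h5 := h1 (-_) (by rwa [abs_neg, abs_of_pos h2])
  exact mul_left_cancel₀ h2.ne' (by linarith)

noncomputable def x0 : H := mk (fun i => if i = 0 then 1 else if i < 3 then -9 / 10 else 0) 3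
  (fun i hi => by rw [if_neg (by omega), if_neg (by omega)]) (by norm_num [sum_range_succ, w])

noncomputable def x1 : H := mk (fun i => if i = 0 then -2 / 3 else if i = 1 then 1 else 0) 2
  (fun i hi => by rw [if_neg (by omega), if_neg (by omega)]) (by norm_num [sum_range_succ, w])

theorem no_proj (u : H →ₗ[ℝ] H) [FiniteDimensional ℝ u.range] (h1 : ∀ x, u (u x) = u x)
    (hu : ∀ x, ‖u x‖ ≤ ‖x‖) (h2 : ‖u x0 - x0‖ ≤ 1 / 40) (h3 : ‖u x1 - x1‖ ≤ 1 / 40) : False := by
  have h4 := peak hu (h1 x0) (i := 0) (η := 1 / 20) (by norm_num) fun j hj => by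
    have e1 : |(u x0).1 j - if j = 0 then 1 else if j < 3 then -9 / 10 else 0| ≤ _ :=
      (le (u x0 - x0) j).trans h2
    have e2 : |(u x0).1 0 - 1| ≤ _ := (le (u x0 - x0) 0).trans h2
    grind
  have h5 := peak hu (h1 x1) (i := 1) (η := 1 / 20) (by norm_num) fun j hj => by
    have e1 : |(u x1).1 j - if j = 0 then -2 / 3 else if j = 1 then 1 else 0| ≤ _ :=
      (le (u x1 - x1) j).trans h3
    have e2 : |(u x1).1 1 - 1| ≤ _ := (le (u x1 - x1) 1).trans h3
    grind
  obtain ⟨t, -, h6, h7⟩ := finite_cover_balls_of_compact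
    (isCompact_closedBall (0 : u.range) 1) (show (0 : ℝ) < 1 / 4 by norm_num)
  obtain ⟨k, h8, h9⟩ := ((eventually_ge_atTop 2).and ((eventually_all_finite h6).2 fun z _ =>
    (zero z.1).eventually_lt_const (show (0 : ℝ) < 1 / 4 by norm_num))).exists
  obtain ⟨N, h10, h11⟩ := ((eventually_gt_atTop k).and (w_zero.eventually_lt_const
    (show 0 < w k / 6 by linarith [w_pos k]))).exists
  obtain ⟨M, rfl⟩ : ∃ M, N = 2 + M := ⟨N - 2, by omega⟩
  have h12 : 0 ≤ ∑ i ∈ range M, w (2 + i) := sum_nonneg fun i _ => (w_pos _).le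
  have h13 : ∑ i ∈ range M, w (2 + i) ≤ 4 / 3 := by
    have := sum_le_hasSum (range (2 + M)) (fun i _ => (w_pos i).le) w_sum
    rw [sum_range_add] at this
    norm_num [sum_range_succ, show w 0 = 1 from pow_zero _, show w 1 = 2 / 3 from pow_one _] at this
    linarith
  let h : H := mk (fun i => if i < 2 then -3 / 5 * ∑ i ∈ range M, w (2 + i) else
    if i < 2 + M then 1 else 0) (2 + M) (fun i hi => by rw [if_neg (by omega), if_neg (by omega)])
    (by
      generalize hc : -3 / 5 * ∑ i ∈ range M, w (2 + i) = c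
      rw [sum_range_add, sum_congr rfl (s₁ := range M) (g := fun i => w (2 + i)) fun i hi => by
        rw [if_neg (by omega), if_pos (by simpa using hi), mul_one], ← hc]
      norm_num [sum_range_succ, show w 0 = 1 from pow_zero _, show w 1 = 2 / 3 from pow_one _]
      ring)
  have h14 : ‖u h‖ ≤ 1 := (hu h).trans (norm_le fun i => by
    show |ite _ _ _| ≤ _
    grind)
  obtain ⟨z, h15, h16⟩ := Set.mem_iUnion₂.1 (h7 (a := ⟨u h, h, rfl⟩) (mem_closedBall_zero_iff.2 h14))
  have h17 : |(u h).1 k - z.1.1 k| < 1 / 4 := (le (u h - z) k).trans_lt (mem_ball_iff_norm.1 h16)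
  have h18 := single_le_sum (s := range (2 + M)) (f := fun i => w i * h.1 i - w i * (u h).1 i)
    (fun i hi => sub_nonneg.2 (mul_le_mul_of_nonneg_left (by
      by_cases h0 : i = 0
      · rw [h0, h4]
      by_cases h1 : i = 1
      · rw [h1, h5]
      refine (le_abs_self _).trans ((le _ i).trans (h14.trans_eq ?_))
      show _ = ite _ _ _
      rw [if_neg (by omega), if_pos (mem_range.1 hi)]) (w_pos i).le)) (mem_range.2 h10)
  rw [sum_sub_distrib, fin (x := h) fun i hi => by
    show ite _ _ _ = _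
    rw [if_neg (by omega), if_neg (by omega)], show h.1 k = 1 by
    show ite _ _ _ = _
    rw [if_neg (by omega), if_pos h10]] at h18
  have h19 := abs_le.1 (tail (u h) (2 + M))
  have h20 := mul_le_mul_of_nonneg_left h14 (w_pos (2 + M)).le
  have h21 := mul_le_mul_of_nonneg_left (show (u h).1 k ≤ 1 / 2 by
    linarith [(abs_lt.1 h17).2, h9 z h15]) (w_pos k).le
  linarith

/-- vectors that are constant on the `k`-th block and vanish far away -/
def Form (n k : ℕ) (y : H) : Prop := ∀ i, k < i → y.1 i = if i < n then y.1 0 else 0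

lemma key0 {n k : ℕ} {x y : H} (hy : Form n k y) (h : ∀ i, 0 < i → i ≤ k → y.1 i = x.1 i) :
    y.1 0 ≤ ‖x‖ + 3 * (w (max (k + 1) n) * ‖x‖) := by
  have h0 := mul_nonneg (w_pos (max (k + 1) n)).le (norm_nonneg x)
  rcases le_total (y.1 0) ‖x‖ with h1 | h1
  · linarith
  have h2 := single_le_sum (s := range (max (k + 1) n)) (f := fun i => w i * y.1 i - w i * x.1 i)
    (fun i hi => sub_nonneg.2 (mul_le_mul_of_nonneg_left (by
      have h2 := (le_abs_self _).trans ((le x i).trans h1)
      have := mem_range.1 hi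
      by_cases h3 : i = 0
      · rwa [h3] at h2 ⊢
      by_cases h4 : i ≤ k
      · rw [h i (by omega) h4]
      · rwa [hy i (by omega), if_pos (by omega)]) (w_pos i).le)) (a := 0) (mem_range.2 (by omega))
  rw [sum_sub_distrib, fin (x := y) fun i hi => by rw [hy i (by omega), if_neg (by omega)],
    show w 0 = 1 from pow_zero _] at h2
  linarith [abs_le.1 (tail x (max (k + 1) n)), abs_le.1 (le x 0)]

lemma key {n k : ℕ} {x y : H} (hy : Form n k y) (h : ∀ i, 0 < i → i ≤ k → y.1 i = x.1 i) :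
    ‖y‖ ≤ (1 + 3 * w n) * ‖x‖ := by
  have h1 := key0 hy h
  have h2 := key0 (n := n) (k := k) (x := -x) (y := -y) (fun i hi => by
    show -y.1 i = if i < n then -y.1 0 else 0
    rw [hy i hi]
    split_ifs <;> simp) fun i h1 h2 => congrArg Neg.neg (h i h1 h2)
  rw [norm_neg, show (-y).1 0 = -y.1 0 from rfl] at h2
  have h3 : w (max (k + 1) n) * ‖x‖ ≤ w n * ‖x‖ := mul_le_mul_of_nonneg_right
    (pow_le_pow_of_le_one (by norm_num) (by norm_num) (le_max_right _ _)) (norm_nonneg _)
  have h4 := mul_nonneg (w_pos n).le (norm_nonneg x)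
  have h5 : |y.1 0| ≤ (1 + 3 * w n) * ‖x‖ := abs_le.2 ⟨by linarith, by linarith⟩
  refine norm_le fun i => ?_
  by_cases h6 : i = 0
  · rwa [h6]
  by_cases h7 : i ≤ k
  · rw [h i (by omega) h7]
    linarith [le x i]
  rw [hy i (by omega)]
  split_ifs
  exacts [h5, by simpa using (abs_nonneg _).trans h5]

noncomputable def D (n k : ℕ) : ℝ := ∑ i ∈ range (k + 2 + n), if i = 0 ∨ k + 1 < i ∧ i < n then w i else 0

lemma D_pos (n k : ℕ) : 0 < D n k := sum_pos' (fun i _ => by split_ifs; exacts [(w_pos i).le, le_rfl])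
  ⟨0, by simp, by simpa using w_pos 0⟩

noncomputable def b (n k : ℕ) : H := mk (fun i => (if i = k + 1 then 1 else 0) -
    if i = 0 ∨ k + 1 < i ∧ i < n then w (k + 1) / D n k else 0) (k + 2 + n)
  (fun i hi => by rw [if_neg (by omega), if_neg (by omega), sub_zero]) (by
    simp only [mul_sub, sum_sub_distrib, mul_ite, mul_zero, mul_one, sum_ite_eq', mem_range]
    rw [if_pos (by omega), sub_eq_zero]
    refine (mul_div_cancel₀ _ (D_pos n k).ne').symm.trans ?_
    generalize w (k + 1) / D n k = c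
    simp only [D, sum_mul, ite_mul, zero_mul])

lemma b_apply (n k i : ℕ) : (b n k).1 i = (if i = k + 1 then 1 else 0) -
    if i = 0 ∨ k + 1 < i ∧ i < n then w (k + 1) / D n k else 0 := rfl

lemma succ_apply (n : ℕ) (a : ℕ → ℝ) (k i : ℕ) : (∑ j ∈ range (k + 1), a j • b n j).1 i =
    (∑ j ∈ range k, a j • b n j).1 i + a k * (b n k).1 i := by
  rw [sum_range_succ]
  rfl

lemma form (n : ℕ) (a : ℕ → ℝ) (k : ℕ) : Form n k (∑ j ∈ range k, a j • b n j) := by
  induction k with
  | zero => exact fun i _ => (ite_self _).symm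
  | succ k ih =>
    intro i hi
    rw [succ_apply, succ_apply, ih i (by omega), b_apply, b_apply]
    grind

lemma stab (n : ℕ) (a : ℕ → ℝ) {k q : ℕ} (h : k ≤ q) (i : ℕ) (h0 : 0 < i) (hi : i ≤ k) :
    (∑ j ∈ range k, a j • b n j).1 i = (∑ j ∈ range q, a j • b n j).1 i := by
  induction q, h using Nat.le_induction with
  | base => rfl
  | succ q h ih =>
    rw [succ_apply, ← ih, b_apply]
    grind

lemma mono (n : ℕ) (a : ℕ → ℝ) (k q : ℕ) (h : k ≤ q) :
    ‖∑ j ∈ range k, a j • b n j‖ ≤ (1 + 3 * w n) * ‖∑ j ∈ range q, a j • b n j‖ :=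
  key (form n a k) (stab n a h)

lemma conv {n : ℕ} {x : H} {s : ℕ → H} (h1 : ∀ k, Form n k (s k))
    (h2 : ∀ k i, 0 < i → i ≤ k → (s k).1 i = x.1 i) : Tendsto s atTop (𝓝 x) := by
  refine Metric.tendsto_atTop'.2 fun ε hε => ?_
  obtain ⟨N, hN⟩ := eventually_atTop.1 (((eventually_ge_atTop n).and
    ((zero x).abs.eventually_lt_const (show |0| < ε / 2 by simpa using hε))).and
    (((w_zero.mul_const ‖x‖).const_mul 3).eventually_lt_const (show _ < ε / 2 by simpa using hε)))
  refine ⟨N, fun k hk => (dist_eq_norm _ _).trans_lt ((norm_le fun i => ?_).trans_lt (half_lt_self hε))⟩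
  show |(s k).1 i - x.1 i| ≤ _
  by_cases h3 : i = 0
  · have h4 := sum_eq_single (s := range (k + 1)) (f := fun i => w i * (s k).1 i - w i * x.1 i) 0
      (fun j hj h => by rw [h2 k j (by omega) (by simpa [Nat.lt_succ_iff] using hj), sub_self])
      (by simp)
    rw [sum_sub_distrib, fin fun i hi => by
      rw [h1 k i (by omega), if_neg (by have := (hN i (by omega)).1.1; omega)],
      show w 0 = 1 from pow_zero _, one_mul, one_mul] at h4
    rw [h3, ← h4, zero_sub, abs_neg]
    exact (tail x _).trans (hN _ (by omega)).2.le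
  by_cases h4 : i ≤ k
  · rw [h2 k i (by omega) h4, sub_self, abs_zero]
    exact (half_pos hε).le
  · have := hN i (by omega)
    rw [h1 k i (by omega), if_neg (by omega), zero_sub, abs_neg]
    exact this.1.2.le

theorem basis (n : ℕ) (x : H) :
    ∃! a : ℕ → ℝ, Tendsto (fun k => ∑ j ∈ range k, a j • b n j) atTop (𝓝 x) := by
  have h0 : ∀ (a : ℕ → ℝ) k, (∑ j ∈ range (k + 1), a j • b n j).1 (k + 1) =
      (∑ j ∈ range k, a j • b n j).1 (k + 1) + a k := fun a k => by
    rw [succ_apply, b_apply]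
    simp
  refine existsUnique_of_exists_of_unique ?_ fun a a' h h' => ?_
  · let s : ℕ → H := fun k => k.rec 0 fun k s => s + (x.1 (k + 1) - s.1 (k + 1)) • b n k
    have h1 : ∀ k, ∑ j ∈ range k, (x.1 (j + 1) - (s j).1 (j + 1)) • b n j = s k := fun k => by
      induction k with
      | zero => rfl
      | succ k ih => rw [sum_range_succ, ih]
    refine ⟨fun j => x.1 (j + 1) - (s j).1 (j + 1), conv (form n _) fun k i h2 h3 => ?_⟩
    obtain ⟨i, rfl⟩ := Nat.exists_eq_add_one_of_ne_zero h2.ne'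
    rw [← stab n _ h3 _ h2 le_rfl, h0, h1, add_sub_cancel]
  · have h1 : ∀ k, ∑ j ∈ range k, (a j - a' j) • b n j = 0 := fun k => norm_le_zero_iff.1 (by
      have := (h.sub h').norm.const_mul (1 + 3 * w n)
      simp only [← sum_sub_distrib, ← sub_smul, sub_self, norm_zero, mul_zero] at this
      exact ge_of_tendsto this ((eventually_ge_atTop k).mono (mono n _ k)))
    ext k
    have := h0 (fun j => a j - a' j) k
    rw [h1, h1] at this
    exact sub_eq_zero.1 (left_eq_add.1 this)

end Pool.Agent.H9.Hyper
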