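import Mathlib

/-! The differences of endpoints of segments in the boundary of a convex body form a null set
(a short proof with Macbeath regions). -/
namespace Pool.Agent.H9.Klee
open Set Filter Metric Function Topology MeasureTheory Pointwise

variable {V : Type} [NormedAddCommGroup V] [NormedSpace ℝ V]

/-- the Macbeath region -/
def M (K : Set V) (y : V) : Set V := {w | y + w ∈ K ∧ y - w ∈ K}

/-- pairs of points lying in a common supporting hyperplane -/
def S (K : Set V) : Set (V × V) :=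
  {q | q.1 ∈ K ∧ q.2 ∈ K ∧ ∃ ν : V →L[ℝ] ℝ, ν ≠ 0 ∧ (∀ z ∈ K, ν z ≤ ν q.1) ∧ ν q.1 = ν q.2}

lemma M_conv {K : Set V} (hK : Convex ℝ K) {y u v : V} (hu : u ∈ M K y) (hv : v ∈ M K y) {a b : ℝ}
    (ha : 0 ≤ a) (hb : 0 ≤ b) (h : a + b = 1) : a • u + b • v ∈ M K y := by
  obtain rfl : b = 1 - a := by linarith
  exact ⟨by convert hK hu.1 hv.1 ha hb h using 1; module,
    by convert hK hu.2 hv.2 ha hb h using 1; module⟩

omit [NormedSpace ℝ V] in
lemma M_neg {K : Set V} {y u : V} (hu : u ∈ M K y) : -u ∈ M K y :=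
  ⟨by simpa [← sub_eq_add_neg] using hu.2, by simpa using hu.1⟩

lemma M_down {K : Set V} (hK : Convex ℝ K) {y v w z : V} (hv : v ∈ M K y) {a : ℝ} (ha : 0 ≤ a)
    (ha' : a ≤ 1) (hz : a • z = a • y + (1 - a) • v) (hw : w ∈ M K z) : a • w ∈ M K y :=
  ⟨by convert hK hw.1 hv.2 ha (sub_nonneg.2 ha') (by ring) using 1; rw [smul_add, hz]; module,
    by convert hK hw.2 hv.2 ha (sub_nonneg.2 ha') (by ring) using 1; rw [smul_sub, hz]; module⟩

lemma M_up {K : Set V} (hK : Convex ℝ K) {y u w : V} (hu : u ∈ M K y) (hw : w ∈ M K y) :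
    (1 / 2 : ℝ) • u ∈ M K (y + (1 / 2 : ℝ) • w) :=
  ⟨by convert hK hw.1 hu.1 (a := 1 / 2) (b := 1 / 2) (by norm_num) (by norm_num) (by norm_num)
        using 1; module,
    by convert hK hw.1 hu.2 (a := 1 / 2) (b := 1 / 2) (by norm_num) (by norm_num) (by norm_num)
        using 1; module⟩

lemma bound [FiniteDimensional ℝ V] [MeasurableSpace V] [BorelSpace V] (μ : Measure V)
    [μ.IsAddHaarMeasure] {K : Set V} (hc : IsCompact K) (hK : Convex ℝ K)
    (h1 : closedBall 0 1 ⊆ K) {ε : ℝ} (h0 : 0 < ε) (hε : ε < 1 / 2) :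
    μ ((fun q => q.1 - q.2) '' S K) ≤
      ENNReal.ofReal |32 ^ Module.finrank ℝ V| * μ (K \ (1 - 2 * ε) • K) := by
  let m : V × V → V := fun q => (1 / 2 : ℝ) • q.1 + (1 / 2 : ℝ) • q.2
  let x : V × V → V := fun q => (1 - ε) • m q
  let N : V × V → Set V := fun q => (fun z => (2 : ℝ) • (z - x q)) ⁻¹' M K (x q)
  have hm : ∀ q ∈ S K, m q ∈ K := fun q hq => hK hq.1 hq.2.1 (by norm_num) (by norm_num) (by norm_num)
  have h2 : ∀ q ∈ S K, ∀ w ∈ K, -w ∈ K → ε • w ∈ M K (x q) := fun q hq w hw hw' =>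
    ⟨hK (hm q hq) hw (by linarith) h0.le (by ring), by
      convert hK (hm q hq) hw' (a := 1 - ε) (by linarith) h0.le (by ring) using 1
      simp only [x]; module⟩
  have h3 : ∀ q ∈ S K, ε • m q ∈ M K (x q) := fun q hq =>
    ⟨by convert hm q hq using 1; simp only [x]; module, by
      convert hK (hm q hq) (h1 (mem_closedBall_self zero_le_one)) (a := 1 - 2 * ε) (b := 2 * ε)
        (by linarith) (by linarith) (by ring) using 1
      simp only [x]; module⟩
  have h4 : ∀ q ∈ S K, ball (x q) (ε / 2) ⊆ N q := fun q hq z hz => by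
    have h4 : ‖(2 / ε) • (z - x q)‖ ≤ 1 := by
      rw [norm_smul, Real.norm_of_nonneg (by positivity), div_mul_eq_mul_div, div_le_one h0]
      linarith [mem_ball_iff_norm.1 hz]
    have := h2 q hq _ (h1 (mem_closedBall_zero_iff.2 h4))
      (h1 (mem_closedBall_zero_iff.2 (by rwa [norm_neg])))
    rwa [smul_smul, mul_div_cancel₀ _ h0.ne'] at this
  obtain ⟨u, h5, h6, h7⟩ := Vitali.exists_disjoint_subfamily_covering_enlargement N (S K)
    (fun _ => 0) 2 one_lt_two (fun _ _ => le_rfl) 0 (fun _ _ => le_rfl)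
    fun q hq => ⟨_, h4 q hq (mem_ball_self (half_pos h0))⟩
  have h8 : u.Countable := h6.countable_of_nonempty_interior fun q hq =>
    ⟨x q, mem_interior_iff_mem_nhds.2 (mem_of_superset (ball_mem_nhds _ (half_pos h0))
      (h4 q (h5 hq)))⟩
  have h9 : ∀ q, MeasurableSet (N q) := fun q => IsClosed.measurableSet
    ((hc.isClosed.preimage (f := fun z => x q + (2 : ℝ) • (z - x q)) (by fun_prop)).inter
      (hc.isClosed.preimage (f := fun z => x q - (2 : ℝ) • (z - x q)) (by fun_prop)))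
  calc _ ≤ μ (⋃ p ∈ u, (p.1 - p.2 - (32 : ℝ) • x p) +ᵥ (32 : ℝ) • N p) := measure_mono ?_
    _ ≤ ∑' p : u, μ ((p.1.1 - p.1.2 - (32 : ℝ) • x p) +ᵥ (32 : ℝ) • N p) :=
      measure_biUnion_le μ h8 _
    _ = ENNReal.ofReal |32 ^ Module.finrank ℝ V| * μ (⋃ p ∈ u, N p) := by
      rw [measure_biUnion h8 h6 fun p _ => h9 p, ← ENNReal.tsum_mul_left]
      simp only [measure_vadd, Measure.addHaar_smul]
    _ ≤ _ := mul_le_mul_right (measure_mono (iUnion₂_subset fun q hq z hz => ?_)) _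
  · rintro _ ⟨q, hq, rfl⟩
    obtain ⟨p, hp, ⟨z, e1, e2⟩, -⟩ := h7 q hq
    have hp' := h5 hp
    have e3 : ∀ w ∈ M K (x q), (2 / 3 : ℝ) • (1 / 2 : ℝ) • w ∈ M K (x p) := fun w hw =>
      M_down hK e2 (by norm_num) (by norm_num) (by module) (M_up hK hw e1)
    have e4 := M_conv hK (M_conv hK e2 (M_neg (e3 _ e1)) (a := 1 / 4) (b := 3 / 4) (by norm_num)
      (by norm_num) (by norm_num)) (M_conv hK (e3 _ (h3 q hq)) (h3 p hp') (a := 3 / 4) (b := 1 / 4)
      (by norm_num) (by norm_num) (by norm_num)) (a := 1 / 3) (b := 2 / 3) (by norm_num)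
      (by norm_num) (by norm_num)
    have e5 := M_down hK e4 (a := 1 / 4) (z := (1 / 2 : ℝ) • m q + (1 / 2 : ℝ) • m p)
      (w := (1 / 4 : ℝ) • (q.1 - q.2 - (p.1 - p.2))) (by norm_num) (by norm_num)
      (by simp only [x]; module)
      ⟨by convert hK hq.1 hp'.2.1 (a := 1 / 2) (b := 1 / 2) (by norm_num) (by norm_num)
            (by norm_num) using 1; simp only [m]; module,
        by convert hK hq.2.1 hp'.1 (a := 1 / 2) (b := 1 / 2) (by norm_num) (by norm_num)
            (by norm_num) using 1; simp only [m]; module⟩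
    refine mem_biUnion hp ⟨_, ⟨x p + (1 / 32 : ℝ) • (q.1 - q.2 - (p.1 - p.2)), ?_, rfl⟩, ?_⟩
    · show _ ∈ M K _
      convert e5 using 1
      module
    · simp only [vadd_eq_add]
      module
  · obtain ⟨-, -, ν, e1, e2, e3⟩ := h5 hq
    refine ⟨?_, ?_⟩
    · convert hK hz.1 hz.2 (a := 3 / 4) (b := 1 / 4) (by norm_num) (by norm_num) (by norm_num)
        using 1
      module
    · rintro ⟨y, hy, rfl⟩
      obtain ⟨w, e4, e5⟩ := ν.exists_lt_apply_of_lt_opNorm (norm_pos_iff.2 e1)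
      have e6 := e2 w (h1 (mem_closedBall_zero_iff.2 e4.le))
      have e7 := e2 (-w) (h1 (mem_closedBall_zero_iff.2 (by rw [norm_neg]; exact e4.le)))
      have e8 := e2 _ hz.2
      have e9 := mul_le_mul_of_nonneg_left (e2 y hy) (show 0 ≤ 1 - 2 * ε by linarith)
      simp only [x, m, map_neg, map_sub, map_add, map_smul, smul_eq_mul, ← e3] at e7 e8
      have e10 : 0 < ν q.1 := by
        rcases lt_abs.1 e5 with h | h <;> linarith
      nlinarith

lemma null [FiniteDimensional ℝ V] [MeasurableSpace V] [BorelSpace V] (μ : Measure V)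
    [μ.IsAddHaarMeasure] {K : Set V} (hc : IsCompact K) (hK : Convex ℝ K)
    (h1 : closedBall 0 1 ⊆ K) : μ ((fun q => q.1 - q.2) '' S K) = 0 := by
  obtain ⟨k, hk, h2⟩ : ∃ k, 0 ≤ k ∧ μ K = ENNReal.ofReal k :=
    ⟨_, ENNReal.toReal_nonneg, (ENNReal.ofReal_toReal hc.measure_lt_top.ne).symm⟩
  have h3 : Continuous fun ε : ℝ => ENNReal.ofReal (|32 ^ Module.finrank ℝ V| *
      (k - |(1 - 2 * ε) ^ Module.finrank ℝ V| * k)) := ENNReal.continuous_ofReal.comp (by fun_prop)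
  refine le_zero_iff.1 (le_of_le_of_eq (ge_of_tendsto (f := _)
    ((h3.tendsto 0).mono_left (nhdsWithin_le_nhds (s := Ioi 0))) ?_) (by simp))
  filter_upwards [Ioo_mem_nhdsGT (show (0 : ℝ) < 1 / 2 by norm_num)] with ε hε
  refine (bound μ hc hK h1 hε.1 hε.2).trans_eq ?_
  rw [measure_sdiff _ (hc.smul _).measurableSet.nullMeasurableSet (hc.smul _).measure_lt_top.ne,
    Measure.addHaar_smul, h2, ← ENNReal.ofReal_mul (abs_nonneg _),
    ← ENNReal.ofReal_sub _ (by positivity), ← ENNReal.ofReal_mul (abs_nonneg _)]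
  rintro _ ⟨y, hy, rfl⟩
  exact hK.smul_mem_of_zero_mem (h1 (mem_closedBall_self zero_le_one)) hy
    ⟨by linarith [hε.2], by linarith [hε.1]⟩

theorem thin [FiniteDimensional ℝ V] {K : Set V} (hc : IsCompact K) (hK : Convex ℝ K)
    (h0 : (0 : V) ∈ K) {U : Set V} (hU : IsOpen U) (h : U ⊆ (fun q => q.1 - q.2) '' S K) :
    U = ∅ := by
  borelize V
  refine hU.eq_empty_of_measure_zero (μ := Measure.addHaar) (measure_mono_null (h.trans ?_)
    (null _ (hc.add (isCompact_closedBall 0 1)) (hK.add (convex_closedBall 0 1))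
      fun z hz => ⟨0, h0, z, hz, zero_add z⟩))
  rintro _ ⟨q, ⟨h1, h2, ν, h3, h4, h5⟩, rfl⟩
  obtain ⟨w, h6, h7⟩ := (isCompact_closedBall (0 : V) 1).exists_isMaxOn
    ⟨0, mem_closedBall_self zero_le_one⟩ ν.continuous.continuousOn
  refine ⟨(q.1 + w, q.2 + w), ⟨add_mem_add h1 h6, add_mem_add h2 h6, ν, h3, ?_, by simp [h5]⟩,
    by simp⟩
  rintro _ ⟨a, ha, b, hb, rfl⟩
  rw [map_add, map_add]
  exact add_le_add (h4 a ha) (h7 hb)

end Pool.Agent.H9.Klee
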