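import Pool.Agent.H9.Klee

/-! Generic finite tuples in a separable Banach space have unique Hahn-Banach extensions. -/
namespace Pool.Agent.H9.Klee2
open Set Filter Metric Function Topology RCLike

variable {𝕜 E : Type} [RCLike 𝕜] [NormedAddCommGroup E] [NormedSpace 𝕜 E] {n : ℕ}

lemma nle {g : StrongDual 𝕜 E} (hg : ‖g‖ ≤ 1) (x : E) : ‖g x‖ ≤ ‖x‖ :=
  (g.le_opNorm x).trans (mul_le_of_le_one_left (norm_nonneg _) hg)

/-- tuples with two different norm preserving extensions, far apart at `e` -/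
def Bad (𝕜 : Type) [RCLike 𝕜] [NormedSpace 𝕜 E] (n : ℕ) (e : E) (η : ℝ) : Set (Fin n → E) :=
  {x | ∃ f g : StrongDual 𝕜 E, ‖f‖ ≤ 1 ∧ ‖g‖ ≤ 1 ∧ ∃ a : Fin n → 𝕜, ‖a‖ = 1 ∧
    ‖∑ i, a i • x i‖ ≤ re (f (∑ i, a i • x i)) ∧ (∀ i, f (x i) = g (x i)) ∧ η ≤ ‖f e - g e‖}

lemma bad_closed (e : E) (η : ℝ) : IsClosed (Bad 𝕜 n e η) := by
  let K : Set (WeakDual 𝕜 E) := WeakDual.toStrongDual ⁻¹' closedBall 0 1
  have : CompactSpace K := isCompact_iff_compactSpace.1 (WeakDual.isCompact_closedBall 0 1)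
  have h0 : ∀ y, Continuous fun f : K => f.1 y := fun y =>
    (WeakDual.eval_continuous y).comp continuous_subtype_val
  have h1 : IsClosed {p : (Fin n → E) × K × K × sphere (0 : Fin n → 𝕜) 1 |
      (∀ y, ‖∑ i, p.2.2.2.1 i • p.1 i‖ - ‖∑ i, p.2.2.2.1 i • p.1 i - y‖ ≤ re (p.2.1.1 y)) ∧
      (∀ i y, ‖p.2.1.1 y - p.2.2.1.1 y‖ ≤ 2 * ‖p.1 i - y‖) ∧ η ≤ ‖p.2.1.1 e - p.2.2.1.1 e‖} := by
    simp only [ofPred_and, ofPred_forall]
    have h1 : Continuous fun p : (Fin n → E) × K × K × sphere (0 : Fin n → 𝕜) 1 =>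
        ∑ i, p.2.2.2.1 i • p.1 i := continuous_finsetSum _ fun i _ => ((continuous_apply i).comp
      (continuous_subtype_val.comp continuous_snd.snd.snd)).smul
        ((continuous_apply i).comp continuous_fst)
    exact (isClosed_iInter fun y => isClosed_le (h1.norm.sub (h1.sub continuous_const).norm)
      (continuous_re.comp ((h0 y).comp continuous_snd.fst))).inter ((isClosed_iInter fun i =>
      isClosed_iInter fun y => isClosed_le (((h0 y).comp continuous_snd.fst).sub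
        ((h0 y).comp continuous_snd.snd.fst)).norm (by fun_prop)).inter (isClosed_le
      continuous_const (((h0 e).comp continuous_snd.fst).sub
        ((h0 e).comp continuous_snd.snd.fst)).norm))
  convert isClosedMap_fst_of_compactSpace _ h1
  ext x
  constructor
  · rintro ⟨f, g, h2, h3, a, h4, h5, h6, h7⟩
    refine ⟨(x, ⟨f, mem_closedBall_zero_iff.2 h2⟩, ⟨g, mem_closedBall_zero_iff.2 h3⟩,
      ⟨a, mem_sphere_zero_iff_norm.2 h4⟩), ⟨fun y => ?_, fun i y => ?_, h7⟩, rfl⟩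
    · have := (re_le_norm _).trans (nle h2 (∑ i, a i • x i - y))
      rw [map_sub, map_sub] at this
      show ‖∑ i, a i • x i‖ - ‖∑ i, a i • x i - y‖ ≤ re (f y)
      linarith
    · show ‖f y - g y‖ ≤ 2 * ‖x i - y‖
      have : f y - g y = g (x i - y) - f (x i - y) := by rw [map_sub, map_sub, h6]; ring
      rw [this, two_mul]
      exact (norm_sub_le _ _).trans (add_le_add (nle h3 _) (nle h2 _))
  · rintro ⟨⟨x, ⟨f, hf⟩, ⟨g, hg⟩, a, ha⟩, ⟨h2, h3, h4⟩, rfl⟩
    refine ⟨f, g, mem_closedBall_zero_iff.1 hf, mem_closedBall_zero_iff.1 hg, a,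
      mem_sphere_zero_iff_norm.1 ha, ?_, fun i => ?_, h4⟩
    · exact le_of_eq_of_le (by simp) (h2 (∑ i, a i • x i))
    · exact sub_eq_zero.1 (norm_le_zero_iff.1 ((h3 i (x i)).trans_eq (by simp)))

lemma bad_thin (e : E) {η : ℝ} (hη : 0 < η) : interior (Bad 𝕜 n e η) = ∅ := by
  refine eq_empty_of_forall_notMem fun x hx => ?_
  obtain ⟨ρ, hρ, h1⟩ := Metric.mem_nhds_iff.1 (ContinuousAt.preimage_mem_nhds
    (f := fun t : Fin n → 𝕜 => fun i => x i + t i • e) (x := 0) (continuous_pi fun i =>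
      continuous_const.add ((continuous_apply i).smul continuous_const)).continuousAt
    (by simpa using mem_interior_iff_mem_nhds.1 hx))
  let L : StrongDual 𝕜 E → (Fin n → 𝕜) × 𝕜 := fun f => (fun i => f (x i), f e)
  have hL : ∀ (f g : StrongDual 𝕜 E) (a b : ℝ), ‖f‖ ≤ 1 → ‖g‖ ≤ 1 → 0 ≤ a → 0 ≤ b → a + b = 1 →
      ‖(a : 𝕜) • f + (b : 𝕜) • g‖ ≤ 1 := fun f g a b hf hg ha hb h => by
    refine (norm_add_le _ _).trans ?_
    rw [norm_smul, norm_smul, norm_ofReal, norm_ofReal, abs_of_nonneg ha, abs_of_nonneg hb]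
    nlinarith
  have := Klee.thin (K := L '' {f | ‖f‖ ≤ 1}) (U := {v | ‖v.1‖ < ρ * ‖v.2‖ ∧ ‖v.2‖ < η})
    (by
      have := (WeakDual.isCompact_closedBall (0 : StrongDual 𝕜 E) 1).image
        (f := fun f : WeakDual 𝕜 E => L f) (Continuous.prodMk
          (continuous_pi fun i => WeakDual.eval_continuous _) (WeakDual.eval_continuous _))
      refine (Set.ext fun v => ?_ : L '' {f | ‖f‖ ≤ 1} = _) ▸ this
      exact ⟨fun ⟨f, h, h'⟩ => ⟨f, mem_closedBall_zero_iff.2 h, h'⟩,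
        fun ⟨f, h, h'⟩ => ⟨f, mem_closedBall_zero_iff.1 h, h'⟩⟩)
    (by
      rintro _ ⟨f, hf, rfl⟩ _ ⟨g, hg, rfl⟩ a b ha hb h
      refine ⟨_, hL f g a b hf hg ha hb h, ?_⟩
      ext <;> simp [L, real_smul_eq_coe_mul])
    ⟨0, by simp, rfl⟩
    (IsOpen.and (isOpen_lt (by fun_prop) (by fun_prop)) (isOpen_lt (by fun_prop) (by fun_prop))) (by
      rintro ⟨v, l⟩ ⟨h2, h3⟩
      have h4 : 0 < ‖l‖ := (mul_pos_iff_of_pos_left hρ).1 ((norm_nonneg _).trans_lt h2)
      have hl := norm_pos_iff.1 h4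
      obtain ⟨f, g, hf, hg, a, h5, h6, h7, h8⟩ := h1 (a := -l⁻¹ • v) (by
        rw [mem_ball_zero_iff, norm_smul, norm_neg, norm_inv, inv_mul_lt_iff₀' h4]
        exact h2)
      have h9 : 0 < ‖f e - g e‖ := hη.trans_le h8
      have h10 := norm_pos_iff.1 h9
      obtain ⟨r, hr, hr', w, hw, h11⟩ : ∃ r : ℝ, 0 < r ∧ r ≤ 1 ∧ ∃ w : 𝕜, ‖w‖ = 1 ∧
          l = r * w * (f e - g e) := by
        have e1 : 0 < ‖l / (f e - g e)‖ := norm_pos_iff.2 (div_ne_zero hl h10)
        refine ⟨_, e1, ?_, l / (f e - g e) / (‖l / (f e - g e)‖ : ℝ), ?_, ?_⟩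
        · rw [norm_div, div_le_one h9]
          exact h3.le.trans h8
        · rw [norm_div, norm_ofReal, abs_of_pos e1, div_self e1.ne']
        · rw [mul_div_cancel₀ _ (ofReal_ne_zero.2 e1.ne'), div_mul_cancel₀ _ h10]
      have hw0 : w ≠ 0 := norm_pos_iff.1 (hw ▸ one_pos)
      let ν : ((Fin n → 𝕜) × 𝕜) →ₗ[ℝ] ℝ :=
        { toFun := fun u => re (w⁻¹ * ∑ i, a i * (u.1 i + (-l⁻¹ • v) i * u.2))
          map_add' := fun u u' => by
            rw [← map_add, ← mul_add, ← Finset.sum_add_distrib]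
            congr 2
            refine Finset.sum_congr rfl fun i _ => ?_
            simp only [Prod.fst_add, Prod.snd_add, Pi.add_apply]
            ring
          map_smul' := fun c u => by
            rw [RingHom.id_apply, smul_eq_mul, ← re_ofReal_mul, mul_left_comm,
              Finset.mul_sum _ _ (c : 𝕜)]
            congr 2
            refine Finset.sum_congr rfl fun i _ => ?_
            simp only [Prod.smul_fst, Prod.smul_snd, Pi.smul_apply, real_smul_eq_coe_mul]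
            ring }
      have hν : ∀ h : StrongDual 𝕜 E, ν (L h) =
          re (w⁻¹ * h (∑ i, a i • (x i + (-l⁻¹ • v) i • e))) := fun h => by
        simp only [map_sum h, map_smul h, map_add h, smul_eq_mul]
        rfl
      have h12 : f (∑ i, a i • (x i + (-l⁻¹ • v) i • e)) =
          g (∑ i, a i • (x i + (-l⁻¹ • v) i • e)) := by
        simp only [map_sum, map_smul _ (a _), h7]
      refine ⟨(L (w • f), L (w • (((1 - r : ℝ) : 𝕜) • f + (r : 𝕜) • g))), ⟨⟨_, ?_, rfl⟩, ⟨_, ?_, rfl⟩,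
        LinearMap.toContinuousLinearMap ν, fun h => ?_, ?_, ?_⟩, ?_⟩
      · show ‖_‖ ≤ 1
        rwa [norm_smul, hw, one_mul]
      · show ‖_‖ ≤ 1
        rw [norm_smul, hw, one_mul]
        exact hL _ _ _ _ hf hg (by linarith) hr.le (by ring)
      · obtain ⟨i, hi⟩ := Function.ne_iff.1 (norm_pos_iff.1 (h5 ▸ one_pos) : a ≠ 0)
        have : re (w⁻¹ * ∑ j, a j * ((Pi.single i (w / a i) : Fin n → 𝕜) j + (-l⁻¹ • v) j * 0)) = 0 :=
          DFunLike.congr_fun h ((Pi.single i (w / a i) : Fin n → 𝕜), (0 : 𝕜))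
        rw [Finset.sum_eq_single i (fun j _ h => by simp [h]) (by simp), mul_zero, add_zero,
          Pi.single_eq_same, mul_div_cancel₀ _ hi, inv_mul_cancel₀ hw0] at this
        simp at this
      · rintro _ ⟨h, hh, rfl⟩
        show ν _ ≤ ν _
        rw [hν, hν, smul_apply, smul_eq_mul, inv_mul_cancel_left₀ hw0]
        refine (re_le_norm _).trans (le_trans ?_ h6)
        rw [norm_mul, norm_inv, hw, inv_one, one_mul]
        exact nle hh _
      · show ν _ = ν _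
        rw [hν, hν]
        simp only [smul_apply, add_apply, smul_eq_mul, ← h12]
        congr 2
        push_cast
        ring
      · ext i
        · have e1 := h7 i
          simp only [map_add, map_smul, Pi.smul_apply, smul_eq_mul] at e1
          simp only [L, Prod.fst_sub, Pi.sub_apply, smul_apply,
            add_apply, smul_eq_mul]
          have e2 : l * l⁻¹ = 1 := mul_inv_cancel₀ hl
          push_cast
          linear_combination (r * w) * e1 - l⁻¹ * v i * h11 + v i * e2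
        · simp only [L, Prod.snd_sub, smul_apply,
            add_apply, smul_eq_mul, h11]
          push_cast
          ring)
  refine eq_empty_iff_forall_notMem.1 this (0, ((η / 2 : ℝ) : 𝕜)) ?_
  have h2 : ‖((η / 2 : ℝ) : 𝕜)‖ = η / 2 := by rw [norm_ofReal, abs_of_pos (half_pos hη)]
  exact ⟨by rw [h2]; simpa using mul_pos hρ (half_pos hη), by rw [h2]; exact half_lt_self hη⟩

theorem main [CompleteSpace E] [TopologicalSpace.SeparableSpace E]
    (hn : (n : Cardinal) ≤ Module.rank 𝕜 E) : ∃ x : Fin n → E, LinearIndependent 𝕜 x ∧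
    ∀ φ : StrongDual 𝕜 E, ∃! g, g ∈ {g : StrongDual 𝕜 E | ∀ i, g (x i) = 0} ∧
      ‖φ - g‖ = infDist φ {g : StrongDual 𝕜 E | ∀ i, g (x i) = 0} := by
  let e := TopologicalSpace.denseSeq E
  obtain ⟨x, hx, hB⟩ := (dense_iInter_of_isOpen (f := fun k : ℕ × ℕ =>
    (Bad 𝕜 n (e k.1) (1 / ((k.2 : ℝ) + 1)))ᶜ) (fun k => (bad_closed _ _).isOpen_compl) fun k =>
      interior_eq_empty_iff_dense_compl.1 (bad_thin _ Nat.one_div_pos_of_nat)).inter_open_nonempty
    _ isOpen_setOfPred_linearIndependent (exists_linearIndependent_of_le_rank hn)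
  refine ⟨x, hx, fun φ => ?_⟩
  let G := Submodule.span 𝕜 (range x)
  have hG : ∀ g : StrongDual 𝕜 E, (∀ i, g (x i) = 0) → ∀ y : G, g y = 0 := fun g hg y => by
    obtain ⟨c, hc⟩ := (Submodule.mem_span_range_iff_exists_fun 𝕜).1 y.2
    simp [← hc, hg]
  obtain ⟨h, h1, h2⟩ := exists_extension_norm_eq G (φ.comp G.subtypeL)
  have h3 : ∀ i, (φ - h) (x i) = 0 := fun i =>
    sub_eq_zero.2 (h1 ⟨x i, Submodule.subset_span ⟨i, rfl⟩⟩).symm
  have h4 : infDist φ {g : StrongDual 𝕜 E | ∀ i, g (x i) = 0} = ‖h‖ := by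
    refine le_antisymm ((infDist_le_dist_of_mem (y := φ - h) (by exact h3)).trans_eq (by simp))
      ((le_infDist ⟨φ - h, by exact h3⟩).2 fun g hg => ?_)
    rw [h2, dist_eq_norm]
    refine ContinuousLinearMap.opNorm_le_bound _ (norm_nonneg _) fun y => ?_
    have := (φ - g).le_opNorm y
    rwa [sub_apply, hG g hg, sub_zero] at this
  refine ⟨φ - h, ⟨h3, by rw [h4, sub_sub_cancel]⟩, fun g ⟨h5, h6⟩ => ?_⟩
  rw [h4] at h6
  rcases (norm_nonneg h).eq_or_lt with h7 | h7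
  · rw [← h7, norm_eq_zero, sub_eq_zero] at h6
    rw [norm_eq_zero.1 h7.symm, h6, sub_zero]
  have : FiniteDimensional 𝕜 G := FiniteDimensional.span_of_finite _ (finite_range x)
  have := FiniteDimensional.proper_rclike 𝕜 G
  obtain ⟨y, h8, h9⟩ := (isCompact_closedBall (0 : G) 1).exists_isMaxOn
    ⟨0, mem_closedBall_self zero_le_one⟩ (φ.comp G.subtypeL).continuous.norm.continuousOn
  have h10 : ‖h‖ ≤ ‖h y‖ := le_of_not_gt fun h10 => by
    obtain ⟨z, e1, e2⟩ := ContinuousLinearMap.exists_lt_apply_of_lt_opNorm _ (h2 ▸ h10)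
    rw [h1] at e2
    exact not_le.2 e2 (h9 (mem_closedBall_zero_iff.2 e1.le))
  obtain ⟨c, hc⟩ := (Submodule.mem_span_range_iff_exists_fun 𝕜).1 y.2
  have h11 : 0 < ‖h y‖ := h7.trans_le h10
  have h12 : 0 < ‖c‖ := norm_pos_iff.2 fun h0 => by simp [← hc, h0] at h11
  have h13 : ∀ f : StrongDual 𝕜 E, ‖f‖ = ‖h‖ → ‖((‖h‖⁻¹ : ℝ) : 𝕜) • f‖ ≤ 1 := fun f hf => by
    rw [norm_smul, norm_ofReal, abs_of_pos (inv_pos.2 h7), hf, inv_mul_cancel₀ h7.ne']
  by_contra h14
  obtain ⟨k, hk⟩ : ∃ k, (((‖h‖⁻¹ : ℝ) : 𝕜) • h) (e k) ≠ (((‖h‖⁻¹ : ℝ) : 𝕜) • (φ - g)) (e k) := by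
    by_contra! hk
    have : h = φ - g := smul_right_injective _ (ofReal_ne_zero.2 (inv_pos.2 h7).ne')
      (show ((‖h‖⁻¹ : ℝ) : 𝕜) • h = ((‖h‖⁻¹ : ℝ) : 𝕜) • (φ - g) from
        DFunLike.coe_injective ((TopologicalSpace.denseRange_denseSeq E).equalizer
        (ContinuousLinearMap.continuous _) (ContinuousLinearMap.continuous _) (funext hk)))
    exact h14 (by rw [this, sub_sub_cancel])
  obtain ⟨m, hm⟩ := exists_nat_one_div_lt (norm_pos_iff.2 (sub_ne_zero.2 hk))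
  obtain ⟨s, h15, h16⟩ : ∃ s : 𝕜, ‖s‖ = ‖c‖⁻¹ ∧ s * h y = (‖c‖⁻¹ * ‖h y‖ : ℝ) :=
    ⟨(‖c‖⁻¹ * ‖h y‖ : ℝ) / h y, by
      rw [norm_div, norm_ofReal, abs_of_pos (by positivity), mul_div_cancel_right₀ _ h11.ne'],
      div_mul_cancel₀ _ (norm_pos_iff.1 h11)⟩
  refine mem_iInter.1 hB (k, m) ⟨_, _, h13 h rfl, h13 _ h6, s • c, ?_, ?_, fun i => ?_, hm.le⟩
  · rw [norm_smul, h15, inv_mul_cancel₀ h12.ne']
  · have : ∑ i, (s • c) i • x i = s • (y : E) := by
      simp only [← hc, Finset.smul_sum, Pi.smul_apply, smul_eq_mul, mul_smul]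
    rw [this, smul_apply, map_smul h, smul_eq_mul, smul_eq_mul, h16, ← ofReal_mul, ofReal_re,
      norm_smul, h15, mul_left_comm]
    refine mul_le_mul_of_nonneg_left ((mem_closedBall_zero_iff.1 h8).trans ?_) (by positivity)
    rwa [le_inv_mul_iff₀ h7, mul_one]
  · rw [smul_apply, smul_apply, sub_apply, h5, sub_zero,
      show φ (x i) = h (x i) from sub_eq_zero.1 (h3 i)]

end Pool.Agent.H9.Klee2
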