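import Mathlib

/-! A self-similar curve in `ℤ_5 × ℤ_5`: addresses, positions and incidence. -/
namespace Pool.Agent.H9.Koch1
open Filter Topology

instance : Fact (Nat.Prime 5) := ⟨by norm_num⟩

abbrev G0 := ℤ_[5] × ℤ_[5]
abbrev Om := Bool × (ℕ → Fin 9)

/-- base point of the `j`-th edge in a block of type `T` (`true` is horizontal) -/
def c : Bool → Fin 9 → ℤ × ℤ
  | true => ![(0, 0), (1, 0), (1, 1), (2, 0), (2, 0), (3, -1), (3, -1), (4, -1), (4, 0)]
  | false => ![(0, 0), (-1, 1), (-1, 1), (-1, 2), (0, 2), (0, 3), (1, 3), (0, 4), (0, 4)]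

def dir : Bool → ℤ × ℤ
  | true => (1, 0)
  | false => (0, 1)

def fl (T : Bool) (j : Fin 9) : Bool := xor T (decide (j.1 % 2 = 1))

lemma fl_fl (T : Bool) (j : Fin 9) : fl (fl T j) j = T := by revert T j; decide

def sg (w : Om) : Om := (fl w.1 (w.2 0), fun n => w.2 (n + 1))
def ka (j : Fin 9) (w : Om) : Om := (fl w.1 j, fun n => Nat.casesOn n j w.2)

@[simp] lemma sg_ka (j : Fin 9) (w : Om) : sg (ka j w) = w := Prod.ext (fl_fl _ _) rfl
lemma ka_sg (w : Om) : ka (w.2 0) (sg w) = w :=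
  Prod.ext (fl_fl _ _) (funext fun n => by cases n <;> rfl)
@[simp] lemma ka_fst (j : Fin 9) (w : Om) : (ka j w).1 = fl w.1 j := rfl
@[simp] lemma ka_zero (j : Fin 9) (w : Om) : (ka j w).2 0 = j := rfl

lemma exists_ka (w : Om) : ∃ j z, w = ka j z := ⟨_, _, (ka_sg w).symm⟩

lemma cont_sg : Continuous sg := by
  unfold sg
  refine Continuous.prodMk ?_ (by fun_prop)
  exact (continuous_of_discreteTopology (f := fun p : Bool × Fin 9 => fl p.1 p.2)).comp
    (by fun_prop : Continuous fun w : Om => (w.1, w.2 0))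

lemma cont_ka (j : Fin 9) : Continuous (ka j) := by
  unfold ka
  refine Continuous.prodMk ?_ (continuous_pi fun n => ?_)
  · exact (continuous_of_discreteTopology (f := fun p : Bool => fl p j)).comp continuous_fst
  · cases n
    · exact continuous_const
    · show Continuous fun w : Om => w.2 _
      fun_prop

lemma open_ka (j : Fin 9) : IsOpenMap (ka j) := by
  refine IsOpenEmbedding.isOpenMap ⟨Function.LeftInverse.isEmbedding (sg_ka j) cont_sg
    (cont_ka j), ?_⟩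
  have : Set.range (ka j) = (fun w : Om => w.2 0) ⁻¹' {j} := by
    ext w
    constructor
    · rintro ⟨z, rfl⟩; rfl
    · rintro rfl; exact ⟨_, ka_sg w⟩
  rw [this]
  exact (isOpen_discrete _).preimage (by fun_prop)

lemma ev_ka {p : Om → Prop} (h : ∀ᶠ w in residual Om, p w) :
    ∀ᶠ w in residual Om, ∀ j, p (ka j w) :=
  eventually_all.2 fun j => (tendsto_residual_of_isOpenMap (cont_ka j) (open_ka j)).eventually h

noncomputable def io : ℤ × ℤ →+* G0 := (Int.castRingHom _).prodMap (Int.castRingHom _)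

lemma io_inj : Function.Injective io := fun a b h =>
  Prod.ext (Int.cast_injective (α := ℤ_[5]) (congrArg Prod.fst h))
    (Int.cast_injective (α := ℤ_[5]) (congrArg Prod.snd h))

lemma norm_le (x : G0) : ‖x‖ ≤ 1 := max_le (PadicInt.norm_le_one _) (PadicInt.norm_le_one _)

lemma norm_five (x : G0) : ‖5 * x‖ ≤ 5⁻¹ * ‖x‖ := by
  refine (norm_mul_le _ _).trans (mul_le_mul_of_nonneg_right (le_of_eq ?_) (norm_nonneg _))
  have : ‖(5 : ℤ_[5])‖ = 5⁻¹ := by exact_mod_cast PadicInt.norm_p (p := 5)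
  show max ‖(5 : ℤ_[5])‖ ‖(5 : ℤ_[5])‖ = _
  rw [this, max_self]

lemma norm_pow_five (n : ℕ) (x : G0) : ‖5 ^ n * x‖ ≤ 5⁻¹ ^ n := by
  induction n with
  | zero => simpa using norm_le x
  | succ k ih =>
    rw [pow_succ', mul_assoc, pow_succ']
    exact (norm_five _).trans (mul_le_mul_of_nonneg_left ih (by norm_num))

lemma five_cancel {x y : G0} (h : 5 * x = 5 * y) : x = y :=
  Prod.ext (mul_left_cancel₀ (by norm_num : (5 : ℤ_[5]) ≠ 0) (congrArg Prod.fst h))
    (mul_left_cancel₀ (by norm_num : (5 : ℤ_[5]) ≠ 0) (congrArg Prod.snd h))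

lemma zero_of_div (p : G0 → Prop) (h : ∀ v, p v → ∃ v', p v' ∧ v = 5 * v') (v : G0) (hv : p v) :
    v = 0 := by
  have : ∀ n : ℕ, ∀ v, p v → ‖v‖ ≤ 5⁻¹ ^ n := by
    intro n
    induction n with
    | zero => intro v _; simpa using norm_le v
    | succ k ih =>
      intro v hv
      obtain ⟨v', h1, rfl⟩ := h v hv
      rw [pow_succ']
      exact (norm_five _).trans (mul_le_mul_of_nonneg_left (ih _ h1) (by norm_num))
  exact norm_le_zero_iff.1 (ge_of_tendsto' (tendsto_pow_atTop_nhds_zero_of_lt_one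
    (by norm_num : (0 : ℝ) ≤ 5⁻¹) (by norm_num)) fun n => this n v hv)

noncomputable def dig (w : Om) : G0 := io (c (sg w).1 (w.2 0))

lemma cont_dig : Continuous dig :=
  (continuous_of_discreteTopology (f := fun p : Bool × Fin 9 => io (c p.1 p.2))).comp
    ((continuous_fst.comp cont_sg).prodMk (by fun_prop))

noncomputable def pos (w : Om) : G0 := ∑' n : ℕ, 5 ^ n * dig (sg^[n] w)

lemma summ5 : Summable fun n : ℕ => (5⁻¹ : ℝ) ^ n :=
  summable_geometric_of_lt_one (by norm_num) (by norm_num)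

lemma cont_pos : Continuous pos :=
  continuous_tsum (fun n => continuous_const.mul (cont_dig.comp (cont_sg.iterate n))) summ5
    fun _ _ => norm_pow_five _ _

lemma pos_ka (j : Fin 9) (w : Om) : pos (ka j w) = 5 * pos w + io (c w.1 j) := by
  have hs : ∀ w : Om, Summable fun n : ℕ => 5 ^ n * dig (sg^[n] w) := fun w =>
    Summable.of_norm_bounded summ5 fun _ => norm_pow_five _ _
  rw [pos, (hs _).tsum_eq_zero_add, pos, ← (hs w).tsum_mul_left, add_comm]
  congr 1
  · refine tsum_congr fun n => ?_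
    rw [Function.iterate_succ_apply, sg_ka, pow_succ', mul_assoc]
  · simp [dig]

noncomputable def res : G0 →+* ZMod 5 × ZMod 5 := PadicInt.toZMod.prodMap PadicInt.toZMod

def cz (a : ℤ × ℤ) : ZMod 5 × ZMod 5 := (a.1, a.2)

lemma res_io (a : ℤ × ℤ) : res (io a) = cz a :=
  Prod.ext (map_intCast (PadicInt.toZMod (p := 5)) a.1)
    (map_intCast (PadicInt.toZMod (p := 5)) a.2)

lemma res_five (x : G0) (a : ℤ × ℤ) : res (5 * x + io a) = cz a := by
  rw [map_add, map_mul, res_io, map_ofNat]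
  have : (5 : ZMod 5 × ZMod 5) = 0 := rfl
  rw [this, zero_mul, zero_add]

lemma key {x x' : G0} {a a' : ℤ × ℤ} (h : 5 * x + io a = 5 * x' + io a') : cz a = cz a' := by
  rw [← res_five x, h, res_five]

lemma dig_uniq : ∀ (T T' : Bool) (j j' : Fin 9), fl T j = fl T' j' → cz (c T j) = cz (c T' j') →
    T = T' ∧ j = j' := by decide

lemma pos_inj {w w' : Om} (h1 : w.1 = w'.1) (h2 : pos w = pos w') : w = w' := by
  have step : ∀ w w' : Om, w.1 = w'.1 → pos w = pos w' →
      w.2 0 = w'.2 0 ∧ (sg w).1 = (sg w').1 ∧ pos (sg w) = pos (sg w') := by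
    intro w w' h1 h2
    obtain ⟨j, z, rfl⟩ := exists_ka w
    obtain ⟨j', z', rfl⟩ := exists_ka w'
    rw [pos_ka, pos_ka] at h2
    obtain ⟨e1, rfl⟩ := dig_uniq _ _ _ _ h1 (key h2)
    rw [e1] at h2
    simpa [e1] using five_cancel (add_right_cancel h2)
  refine Prod.ext h1 (funext fun n => ?_)
  induction n generalizing w w' with
  | zero => exact (step _ _ h1 h2).1
  | succ k ih => exact ih (step _ _ h1 h2).2.1 (step _ _ h1 h2).2.2

/-- offset of an endpoint -/
def off (T e : Bool) : ℤ × ℤ := if e then dir T else 0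

/-- the vertex `v` is an endpoint of the edge `y` -/
def Inc (v : G0) (y : Om) : Prop := ∃ e, v = pos y + io (off y.1 e)

lemma inc_ka {v : G0} {j : Fin 9} {z : Om} : Inc v (ka j z) ↔
    ∃ e, v = 5 * pos z + io (c z.1 j + off (fl z.1 j) e) := by
  simp only [Inc, pos_ka, ka_fst, map_add, add_assoc]

lemma uniq_dec : ∀ (T T' e e' : Bool) (j j' : Fin 9), fl T j = fl T' j' →
    cz (c T j + off (fl T j) e) = cz (c T' j' + off (fl T' j') e') → T = T' ∧
      ((j = j' ∧ e = e') ∨ ∃ a a', c T j + off (fl T j) e = 5 * off T a ∧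
        c T' j' + off (fl T' j') e' = 5 * off T' a' ∧ a ≠ a') := by decide

lemma io_five (a : ℤ × ℤ) : io (5 * a) = 5 * io a := by rw [map_mul, map_ofNat]

lemma off_inj : ∀ T a a' : Bool, off T a = off T a' → a = a' := by decide

lemma inc_uniq {v : G0} (hv : v ≠ 0) {y y' : Om} (h : Inc v y) (h' : Inc v y') (ht : y.1 = y'.1) :
    y = y' := by
  by_contra hne
  refine hv (zero_of_div (fun v => ∃ y y', Inc v y ∧ Inc v y' ∧ y.1 = y'.1 ∧ y ≠ y') ?_ v
    ⟨y, y', h, h', ht, hne⟩)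
  rintro v ⟨y, y', h, h', ht, hne⟩
  obtain ⟨j, z, rfl⟩ := exists_ka y
  obtain ⟨j', z', rfl⟩ := exists_ka y'
  obtain ⟨e, he⟩ := inc_ka.1 h
  obtain ⟨e', he'⟩ := inc_ka.1 h'
  obtain ⟨hT, ⟨rfl, rfl⟩ | ⟨a, a', h1, h2, h3⟩⟩ := uniq_dec _ _ _ _ _ _ ht (key (he.symm.trans he'))
  · rw [he, hT] at he'
    exact absurd (congrArg _ (pos_inj hT (five_cancel (add_right_cancel he')))) hne
  · rw [h1, io_five, ← mul_add] at he
    rw [h2, io_five, ← mul_add] at he'
    have e1 := five_cancel (he.symm.trans he')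
    refine ⟨_, ⟨z, z', ⟨a, rfl⟩, ⟨a', e1⟩, hT, ?_⟩, he⟩
    rintro rfl
    exact h3 (off_inj _ _ _ (io_inj (add_left_cancel e1)))

lemma ex_dec : ∀ (T e : Bool) (j : Fin 9), (∃ j' e', fl T j' = !fl T j ∧
    c T j + off (fl T j) e = c T j' + off (fl T j') e') ∨
      (fl T j = T ∧ ∃ a, c T j + off (fl T j) e = 5 * off T a) := by decide

lemma end_dec : ∀ T a : Bool, ∃ j e, fl T j = T ∧ c T j + off (fl T j) e = 5 * off T a := by
  decide

lemma pos_zero (T : Bool) : pos (T, fun _ => 0) = 0 := by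
  refine zero_of_div (fun v => v = pos (T, fun _ => 0)) ?_ _ rfl
  rintro v rfl
  refine ⟨_, rfl, ?_⟩
  have : ((T, fun _ => 0) : Om) = ka 0 (T, fun _ => 0) :=
    Prod.ext (by cases T <;> rfl) (funext fun n => by cases n <;> rfl)
  conv_lhs => rw [this, pos_ka]
  cases T <;> exact add_zero _

lemma pos_eight (T : Bool) : pos (T, fun _ => 8) + io (dir T) = 0 := by
  refine zero_of_div (fun v => v = pos (T, fun _ => 8) + io (dir T)) ?_ _ rfl
  rintro v rfl
  refine ⟨_, rfl, ?_⟩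
  have : ((T, fun _ => 8) : Om) = ka 8 (T, fun _ => 8) :=
    Prod.ext (by cases T <;> rfl) (funext fun n => by cases n <;> rfl)
  conv_lhs => rw [this, pos_ka]
  rw [mul_add, ← io_five, add_assoc, ← map_add]
  cases T <;> rfl

lemma inc_ex {v : G0} {y : Om} (h : Inc v y) : ∃ y', Inc v y' ∧ y'.1 = !y.1 := by
  by_contra hne
  have : v = 0 := by
    refine zero_of_div (fun v => ∃ y, Inc v y ∧ ¬ ∃ y', Inc v y' ∧ y'.1 = !y.1) ?_ v ⟨y, h, hne⟩
    rintro v ⟨y, h, hne⟩
    obtain ⟨j, z, rfl⟩ := exists_ka y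
    obtain ⟨e, he⟩ := inc_ka.1 h
    rcases ex_dec z.1 e j with ⟨j', e', h1, h2⟩ | ⟨h1, a, h2⟩
    · exact absurd ⟨ka j' z, inc_ka.2 ⟨e', by rw [he, h2]⟩, h1⟩ hne
    · rw [h2, io_five, ← mul_add] at he
      refine ⟨_, ⟨z, ⟨a, rfl⟩, ?_⟩, he⟩
      rintro ⟨z', ⟨a', h3⟩, h4⟩
      obtain ⟨j', e', h5, h6⟩ := end_dec z'.1 a'
      refine hne ⟨ka j' z', inc_ka.2 ⟨e', ?_⟩, by rw [ka_fst, ka_fst, h5, h1, h4]⟩
      rw [h6, io_five, ← mul_add, ← h3, he]
  exact hne ⟨(!y.1, fun _ => 0), ⟨false, by rw [this, pos_zero]; simp [off]⟩, rfl⟩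

end Pool.Agent.H9.Koch1
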