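import Pool.Agent.H9.Koch1

/-! Cylinders, thin sets, neighbours, and no generic proper colouring. -/
namespace Pool.Agent.H9.Koch2
open Filter Topology Koch1

def Cyl (n : ℕ) (w : Om) : Set Om := {u | u.1 = w.1 ∧ ∀ k < n, u.2 k = w.2 k}

lemma self_cyl (n : ℕ) (w : Om) : w ∈ Cyl n w := ⟨rfl, fun _ _ => rfl⟩

lemma ka_cyl {n : ℕ} {u z : Om} (j : Fin 9) (h : u ∈ Cyl n z) : ka j u ∈ Cyl (n + 1) (ka j z) := by
  refine ⟨by rw [ka_fst, ka_fst, h.1], fun k hk => ?_⟩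
  cases k with
  | zero => rfl
  | succ k => exact h.2 k (by omega)

lemma cyl_sub {U : Set Om} {w : Om} (h : U ∈ 𝓝 w) : ∃ n, Cyl n w ⊆ U := by
  obtain ⟨s, hs, t, ht, hst⟩ := mem_nhds_prod_iff.1 h
  rw [nhds_pi, Filter.mem_pi] at ht
  obtain ⟨I, hI, r, hr, hrt⟩ := ht
  obtain ⟨n, hn⟩ := hI.bddAbove
  refine ⟨n + 1, fun u hu => hst ⟨?_, hrt fun i hi => ?_⟩⟩
  · rw [hu.1]; exact mem_of_mem_nhds hs
  · rw [hu.2 i (Nat.lt_succ_of_le (hn hi))]; exact mem_of_mem_nhds (hr i)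

lemma ev_not {Z : Set Om} (hZ : IsClosed Z) (h : ∀ n w, ¬ Cyl n w ⊆ Z) :
    ∀ᶠ u in residual Om, u ∉ Z := by
  refine residual_of_dense_open hZ.isOpen_compl (interior_eq_empty_iff_dense_compl.1 ?_)
  refine Set.eq_empty_of_forall_notMem fun w hw => ?_
  obtain ⟨n, hn⟩ := cyl_sub (mem_interior_iff_mem_nhds.1 hw)
  exact h n w hn

lemma ev_pos_ne (p : G0) : ∀ᶠ u in residual Om, pos u ≠ p := by
  refine ev_not (Z := {u | pos u = p}) (isClosed_eq cont_pos continuous_const) fun n w h => ?_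
  have h1 : (w.1, Function.update w.2 n (w.2 n + 1)) ∈ Cyl n w :=
    ⟨rfl, fun k hk => Function.update_of_ne hk.ne _ _⟩
  have h2 := pos_inj (w := (w.1, Function.update w.2 n (w.2 n + 1))) (w' := w) rfl
    ((h h1).trans (h (self_cyl n w)).symm)
  have h3 := congrArg (fun u : Om => u.2 n) h2
  simp at h3

lemma ev_inc : ∀ᶠ u in residual Om, ∀ v, Inc v u → v ≠ 0 := by
  have : ∀ᶠ u in residual Om, ∀ T e : Bool, pos u ≠ -io (off T e) :=
    eventually_all.2 fun T => eventually_all.2 fun e => ev_pos_ne _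
  filter_upwards [this] with u hu
  rintro v ⟨e, rfl⟩ h
  exact hu u.1 e (eq_neg_of_add_eq_zero_left h)

lemma base_dec : ∀ (S S' : Bool) (r : ZMod 5 × ZMod 5),
    (∀ T j, fl T j = S → ∃ T' j', fl T' j' = S' ∧ cz (c T' j') = cz (c T j) + r) →
      S = S' ∧ r = 0 := by decide +kernel

lemma res_step {j j' : Fin 9} {z z' : Om} {g : G0} (h : pos (ka j' z') = pos (ka j z) + g) :
    cz (c z'.1 j') = cz (c z.1 j) + res g := by
  have := congrArg res h
  rwa [map_add, pos_ka, pos_ka, res_five, res_five] at this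

lemma step {g : G0} {S' : Bool} {j : Fin 9} {z : Om} {n : ℕ}
    (h : ∀ u ∈ Cyl n z, ∃ u' : Om, u'.1 = S' ∧ pos u' = pos (ka j u) + g) :
    ∃ g' T' j', fl T' j' = S' ∧ cz (c T' j') = cz (c z.1 j) + res g ∧
      g = 5 * g' + io (c T' j' - c z.1 j) ∧
      ∀ u ∈ Cyl n z, ∃ u' : Om, u'.1 = T' ∧ pos u' = pos u + g' := by
  obtain ⟨u0, h1, h2⟩ := h z (self_cyl n z)
  obtain ⟨j0, z0, rfl⟩ := exists_ka u0
  have h3 := res_step h2
  rw [pos_ka, pos_ka] at h2
  refine ⟨pos z0 - pos z, z0.1, j0, h1, h3, by rw [map_sub]; linear_combination -h2,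
    fun u hu => ?_⟩
  obtain ⟨u1, h4, h5⟩ := h u hu
  obtain ⟨j1, z1, rfl⟩ := exists_ka u1
  have h6 := res_step h5
  rw [hu.1] at h6
  obtain ⟨e1, rfl⟩ := dig_uniq _ _ _ _ (h4.trans h1.symm) (h6.trans h3.symm)
  rw [pos_ka, pos_ka, e1, hu.1] at h5
  exact ⟨z1, e1, five_cancel (by linear_combination h5 - h2)⟩

lemma thin0 {g : G0} {S' : Bool} {w : Om}
    (h : ∀ u ∈ Cyl 0 w, ∃ u' : Om, u'.1 = S' ∧ pos u' = pos u + g) : g = 0 := by
  refine zero_of_div (fun g => ∃ S' w, ∀ u ∈ Cyl 0 w, ∃ u' : Om, u'.1 = S' ∧ pos u' = pos u + g)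
    ?_ g ⟨S', w, h⟩
  rintro g ⟨S', w, h⟩
  have hs : ∀ T j, fl T j = w.1 → ∀ u ∈ Cyl 0 (T, w.2), ∃ u' : Om, u'.1 = S' ∧
      pos u' = pos (ka j u) + g := fun T j hT u hu =>
    h _ ⟨by rw [ka_fst, hu.1, hT], fun _ hk => absurd hk (Nat.not_lt_zero _)⟩
  obtain ⟨e1, e2⟩ := base_dec w.1 S' (res g) fun T j hT => by
    obtain ⟨_, T', j', h1, h2, -⟩ := step (hs T j hT)
    exact ⟨T', j', h1, h2⟩
  have h0 : fl w.1 0 = w.1 := by cases w.1 <;> rfl
  obtain ⟨g', T', j', h1, h2, h3, h4⟩ := step (hs w.1 0 h0)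
  rw [e2, add_zero] at h2
  obtain ⟨e3, e4⟩ := dig_uniq _ _ _ _ (h1.trans (h0.trans e1).symm) h2
  refine ⟨g', ⟨T', _, h4⟩, ?_⟩
  rw [h3, e3, e4, sub_self, map_zero, add_zero]

lemma thin (n : ℕ) : ∀ (g : G0) (S' : Bool) (w : Om),
    (∀ u ∈ Cyl n w, ∃ u' : Om, u'.1 = S' ∧ pos u' = pos u + g) → ∃ d, g = io d := by
  induction n with
  | zero => exact fun g S' w h => ⟨0, by rw [thin0 h, map_zero]⟩
  | succ n ih =>
    intro g S' w h
    obtain ⟨j, z, rfl⟩ := exists_ka w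
    obtain ⟨g', T', j', -, -, h3, h4⟩ := step fun u hu => h _ (ka_cyl j hu)
    obtain ⟨d, rfl⟩ := ih _ _ _ h4
    exact ⟨5 * d + (c T' j' - c z.1 j), by rw [h3, map_add, io_five]⟩

lemma ev_thin (g : G0) : ∀ᶠ u in residual Om, ∀ u', pos u' = pos u + g → ∃ d, g = io d := by
  by_cases hg : ∃ d, g = io d
  · exact Eventually.of_forall fun _ _ _ => hg
  have : ∀ S' : Bool, ∀ᶠ u in residual Om,
      u ∉ pos ⁻¹' ((fun u' => pos u' - g) '' {u' : Om | u'.1 = S'}) := fun S' => by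
    refine ev_not (IsClosed.preimage cont_pos (IsCompact.isClosed (IsCompact.image
      (isClosed_eq continuous_fst continuous_const).isCompact
        (cont_pos.sub continuous_const)))) fun n w h => hg (thin n g S' w fun u hu => ?_)
    obtain ⟨u', h1, h2⟩ := h hu
    exact ⟨u', h1, eq_add_of_sub_eq h2⟩
  filter_upwards [eventually_all.2 this] with u hu u' h
  exact absurd ⟨u', rfl, sub_eq_of_eq_add h⟩ (hu u'.1)

/-- positions differ by an integer vector of size at most `K` -/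
def Near (K : ℕ) (u u' : Om) : Prop :=
  ∃ d : ℤ × ℤ, |d.1| ≤ K ∧ |d.2| ≤ K ∧ pos u' = pos u + io d

lemma cz_eq {a b : ℤ × ℤ} (h : cz a = cz b) : ∃ d, a = b + 5 * d := by
  obtain ⟨x, hx⟩ := (ZMod.intCast_eq_intCast_iff_dvd_sub _ _ 5).1 (congrArg Prod.fst h).symm
  obtain ⟨y, hy⟩ := (ZMod.intCast_eq_intCast_iff_dvd_sub _ _ 5).1 (congrArg Prod.snd h).symm
  refine ⟨(x, y), Prod.ext ?_ ?_⟩
  · show a.1 = b.1 + 5 * x
    push_cast at hx; omega
  · show a.2 = b.2 + 5 * y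
    push_cast at hy; omega

lemma up {j j' : Fin 9} {z z' : Om} {d : ℤ × ℤ} (h : pos (ka j' z') = pos (ka j z) + io d) :
    ∃ d', c z.1 j + d = c z'.1 j' + 5 * d' ∧ pos z' = pos z + io d' := by
  rw [pos_ka, pos_ka, add_assoc, ← map_add] at h
  obtain ⟨d', hd⟩ := cz_eq (key h).symm
  refine ⟨d', hd, five_cancel ?_⟩
  rw [hd, map_add, io_five] at h
  linear_combination h

lemma c_bd : ∀ T j, -1 ≤ (c T j).1 ∧ (c T j).1 ≤ 4 ∧ -1 ≤ (c T j).2 ∧ (c T j).2 ≤ 4 := by decide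

lemma near_step {K : ℕ} {u u' : Om} (h : Near (K + 2) u u') : Near (K + 1) (sg u) (sg u') := by
  obtain ⟨j, z, rfl⟩ := exists_ka u
  obtain ⟨j', z', rfl⟩ := exists_ka u'
  obtain ⟨d, h1, h2, h3⟩ := h
  obtain ⟨d', h4, h5⟩ := up h3
  have e1 : (c z.1 j).1 + d.1 = (c z'.1 j').1 + 5 * d'.1 := congrArg Prod.fst h4
  have e2 : (c z.1 j).2 + d.2 = (c z'.1 j').2 + 5 * d'.2 := congrArg Prod.snd h4
  have b1 := c_bd z.1 j
  have b2 := c_bd z'.1 j'
  rw [abs_le] at h1 h2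
  refine ⟨d', abs_le.2 ?_, abs_le.2 ?_, by simpa using h5⟩ <;> push_cast at * <;> omega

lemma near_iter (K : ℕ) : ∀ u u', Near (K + 1) u u' → Near 1 (sg^[K] u) (sg^[K] u') := by
  induction K with
  | zero => exact fun _ _ h => h
  | succ K ih => exact fun u u' h => ih _ _ (near_step h)

def tri (a : Fin 3 × Fin 3) : ℤ × ℤ := ((a.1 : ℤ) - 1, (a.2 : ℤ) - 1)

lemma exists_tri {d : ℤ × ℤ} (h1 : |d.1| ≤ 1) (h2 : |d.2| ≤ 1) : ∃ a, d = tri a := by
  obtain ⟨x, y⟩ := d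
  rw [abs_le] at h1 h2
  obtain ⟨a, b⟩ := h1
  obtain ⟨e, f⟩ := h2
  dsimp only at a b e f
  interval_cases x <;> interval_cases y <;> decide

lemma adj_dec : ∀ (T T' : Bool) (j j' : Fin 9) (a : Fin 3 × Fin 3),
    cz (c T j + tri a) = cz (c T' j') →
      ∃ e e', c T j + tri a + 5 * off T' e' = c T' j' + 5 * off T e := by decide +kernel

lemma adj {u u' : Om} (h : Near 1 u u') : ∃ v, Inc v (sg u) ∧ Inc v (sg u') := by
  obtain ⟨j, z, rfl⟩ := exists_ka u
  obtain ⟨j', z', rfl⟩ := exists_ka u'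
  obtain ⟨d, h1, h2, h3⟩ := h
  obtain ⟨a, rfl⟩ := exists_tri h1 h2
  rw [pos_ka, pos_ka, add_assoc, ← map_add] at h3
  obtain ⟨e, e', h4⟩ := adj_dec _ _ _ _ _ (key h3).symm
  have h5 := congrArg io h4
  rw [map_add, map_add _ (c _ _) (5 * _), io_five, io_five] at h5
  rw [sg_ka, sg_ka]
  exact ⟨_, ⟨e, rfl⟩, ⟨e', five_cancel (by linear_combination -h3 - h5)⟩⟩

/-- a generic proper colouring by `k` and `1 - k` -/
def Good (x : G0 → ℤ) : Prop := ∀ᶠ y in residual Om, x (pos y) + x (pos y + io (dir y.1)) = 1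

lemma path (T : Bool) (x : ℤ × ℤ → ℤ) (h : ∀ j, x (c T j) + x (c T j + dir (fl T j)) = 1) :
    x 0 + x (5 * dir T) = 1 ∧ ∀ j, x 0 =
      if ((c T j).1 + (c T j).2) % 2 = 0 then x (c T j) else 1 - x (c T j) := by
  have h0 := h 0
  have h1 := h 1
  have h2 := h 2
  have h3 := h 3
  have h4 := h 4
  have h5 := h 5
  have h6 := h 6
  have h7 := h 7
  have h8 := h 8
  cases T
  · change x (0, 0) + x (0, 1) = 1 at h0
    change x (-1, 1) + x (0, 1) = 1 at h1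
    change x (-1, 1) + x (-1, 2) = 1 at h2
    change x (-1, 2) + x (0, 2) = 1 at h3
    change x (0, 2) + x (0, 3) = 1 at h4
    change x (0, 3) + x (1, 3) = 1 at h5
    change x (1, 3) + x (1, 4) = 1 at h6
    change x (0, 4) + x (1, 4) = 1 at h7
    change x (0, 4) + x (0, 5) = 1 at h8
    refine ⟨show x (0, 0) + x (0, 5) = 1 by omega, fun j => ?_⟩
    change x (0, 0) = _
    fin_cases j <;> simp [c] <;> omega
  · change x (0, 0) + x (1, 0) = 1 at h0
    change x (1, 0) + x (1, 1) = 1 at h1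
    change x (1, 1) + x (2, 1) = 1 at h2
    change x (2, 0) + x (2, 1) = 1 at h3
    change x (2, 0) + x (3, 0) = 1 at h4
    change x (3, -1) + x (3, 0) = 1 at h5
    change x (3, -1) + x (4, -1) = 1 at h6
    change x (4, -1) + x (4, 0) = 1 at h7
    change x (4, 0) + x (5, 0) = 1 at h8
    refine ⟨show x (0, 0) + x (5, 0) = 1 by omega, fun j => ?_⟩
    change x (0, 0) = _
    fin_cases j <;> simp [c] <;> omega

lemma Good.kids {x : G0 → ℤ} (h : Good x) : ∀ᶠ y in residual Om, ∀ j,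
    x (5 * pos y + io (c y.1 j)) + x (5 * pos y + io (c y.1 j + dir (fl y.1 j))) = 1 := by
  filter_upwards [ev_ka h] with y hy j
  have := hy j
  rwa [pos_ka, ka_fst, add_assoc, ← map_add] at this

lemma Good.five {x : G0 → ℤ} (h : Good x) : Good fun v => x (5 * v) := by
  filter_upwards [h.kids] with y hy
  have := (path y.1 (fun a => x (5 * pos y + io a)) hy).1
  simpa only [map_zero, add_zero, io_five, ← mul_add] using this

lemma Good.pull {x : G0 → ℤ} (h : Good x) {j : Fin 9} {n : ℕ} {z : Om} {k : ℤ}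
    (hk : ∀ᶠ u in residual Om, u ∈ Cyl n z → x (pos (ka j u)) = k) :
    ∃ k', ∀ᶠ u in residual Om, u ∈ Cyl n z → x (5 * pos u) = k' := by
  refine ⟨if ((c z.1 j).1 + (c z.1 j).2) % 2 = 0 then k else 1 - k, ?_⟩
  filter_upwards [h.kids, hk] with y hy hy' hc
  have := (path y.1 (fun a => x (5 * pos y + io a)) hy).2 j
  rw [← hy' hc, pos_ka, ← hc.1]
  simpa only [map_zero, add_zero] using this

lemma not_ev (T : Bool) : ¬ ∀ᶠ u in residual Om, u.1 ≠ T := fun h => by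
  obtain ⟨u, h1, h2⟩ := (dense_of_mem_residual h).inter_open_nonempty {u : Om | u.1 = T}
    ((isOpen_discrete {T}).preimage continuous_fst) ⟨(T, fun _ => 0), rfl⟩
  exact h2 h1

lemma not_const (n : ℕ) : ∀ (x : G0 → ℤ) (z : Om) (k : ℤ), Good x →
    ¬ ∀ᶠ u in residual Om, u ∈ Cyl n z → x (pos u) = k := by
  induction n with
  | zero =>
    intro x z k h hk
    refine not_ev (!z.1) ?_
    filter_upwards [h.kids, ev_ka hk] with y hy hy' ht
    have hc : ∀ j, fl y.1 j = z.1 → x (5 * pos y + io (c y.1 j)) = k := fun j hj => by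
      rw [← pos_ka]
      exact hy' j ⟨hj, fun _ hk => absurd hk (Nat.not_lt_zero _)⟩
    rw [ht] at hy hc
    cases hz : z.1 <;> rw [hz] at hy hc
    · have h1 : x (5 * pos y + io (3, -1)) = k := hc 5 rfl
      have h2 : x (5 * pos y + io (4, -1)) = k := hc 7 rfl
      have h3 : x (5 * pos y + io (3, -1)) + x (5 * pos y + io (4, -1)) = 1 := hy 6
      omega
    · have h1 : x (5 * pos y + io (-1, 1)) = k := hc 1 rfl
      have h2 : x (5 * pos y + io (-1, 2)) = k := hc 3 rfl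
      have h3 : x (5 * pos y + io (-1, 1)) + x (5 * pos y + io (-1, 2)) = 1 := hy 2
      omega
  | succ n ih =>
    intro x w k h hk
    obtain ⟨j, z, rfl⟩ := exists_ka w
    obtain ⟨k', hk'⟩ := h.pull (j := j) (n := n) (z := z) (k := k)
      ((ev_ka hk).mono fun u hu hc => hu j (ka_cyl j hc))
    exact ih _ z k' h.five hk'

lemma ev_const (f : Om → ℤ) (hf : Measurable f) (T : Bool) :
    ∃ n z k, z.1 = T ∧ ∀ᶠ u in residual Om, u ∈ Cyl n z → f u = k := by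
  have hm : ∀ k : ℤ, MeasurableSet {u : Om | u.1 = T ∧ f u = k} := fun k =>
    (measurable_fst (measurableSet_singleton T)).inter (hf (measurableSet_singleton k))
  choose U hU hU' using fun k => (hm k).residualEq_isOpen
  by_cases h : ∃ k w, w ∈ U k
  · obtain ⟨k, w, hw⟩ := h
    obtain ⟨n, hn⟩ := cyl_sub ((hU k).mem_nhds hw)
    have h1 : ∀ᶠ u in residual Om, u ∈ Cyl n w → u.1 = T ∧ f u = k :=
      (hU' k).mono fun u hu hc => hu.symm.mp (hn hc)
    refine ⟨n, w, k, ?_, h1.mono fun u hu hc => (hu hc).2⟩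
    obtain ⟨u, h2, h3⟩ := (dense_of_mem_residual (hU' k)).inter_open_nonempty
      (U k ∩ {u : Om | u.1 = w.1}) ((hU k).inter ((isOpen_discrete {w.1}).preimage continuous_fst))
      ⟨w, hw, rfl⟩
    exact h2.2.symm.trans (Eq.mpr h3 h2.1).1
  · refine absurd ?_ (not_ev T)
    filter_upwards [eventually_countable_forall.2 hU'] with u hu ht
    exact h ⟨f u, u, (hu (f u)).mp ⟨ht, rfl⟩⟩

end Pool.Agent.H9.Koch2
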