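import Pool.Agent.H9.Koch2

/-! No Borel bounded matching between the horizontal and the vertical edges. -/
namespace Pool.Agent.H9.Koch3
open Filter Topology Koch1 Koch2
open scoped Classical

noncomputable def desc : ℕ → Om → Finset Om
  | 0, y => {y}
  | n + 1, y => Finset.univ.biUnion fun j => desc n (ka j y)

lemma mem_desc {n : ℕ} : ∀ {y u : Om}, u ∈ desc n y ↔ sg^[n] u = y := by
  induction n with
  | zero => intro y u; simp [desc]
  | succ n ih =>
    intro y u
    simp only [desc, Finset.mem_biUnion, Finset.mem_univ, true_and, ih,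
      Function.iterate_succ_apply']
    exact ⟨fun ⟨j, hj⟩ => by rw [hj, sg_ka], fun h => ⟨_, by rw [← h, ka_sg]⟩⟩

lemma sum_desc (n : ℕ) (y : Om) (f : Om → ℤ) :
    ∑ u ∈ desc (n + 1) y, f u = ∑ j, ∑ u ∈ desc n (ka j y), f u := by
  refine Finset.sum_biUnion fun j _ j' _ hj => Finset.disjoint_left.2 fun u h h' => hj ?_
  have := (mem_desc.1 h).symm.trans (mem_desc.1 h')
  simpa using congrArg (fun u : Om => u.2 0) this

def sgn (T : Bool) : ℤ := if T then 1 else -1

lemma sum_sgn (n : ℕ) : ∀ y, ∑ u ∈ desc n y, sgn u.1 = sgn y.1 := by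
  induction n with
  | zero => intro y; simp [desc]
  | succ n ih =>
    intro y
    simp only [sum_desc, ih, ka_fst]
    cases y.1 <;> decide

lemma ev_desc {p : Om → Prop} (h : ∀ᶠ u in residual Om, p u) (n : ℕ) :
    ∀ᶠ y in residual Om, ∀ u ∈ desc n y, p u := by
  induction n with
  | zero => exact h.mono fun y hy u hu => by rwa [show u = y from mem_desc.1 hu]
  | succ n ih =>
    filter_upwards [ev_ka ih] with y hy u hu
    obtain ⟨j, -, hj⟩ := Finset.mem_biUnion.1 hu
    exact hy j u hj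

lemma meas_desc {X : Type} [MeasurableSpace X] (F : X × Om → ℤ) (hF : Measurable F) (n : ℕ) :
    ∀ s : X → Om, Measurable s → Measurable fun x => ∑ u ∈ desc n (s x), F (x, u) := by
  induction n with
  | zero =>
    intro s hs
    simp only [desc, Finset.sum_singleton]
    exact hF.comp (measurable_id.prodMk hs)
  | succ n ih =>
    intro s hs
    simp only [sum_desc]
    exact Finset.measurable_sum _ fun j _ => ih _ ((cont_ka j).measurable.comp hs)

noncomputable def nb (v : G0) (T : Bool) : Om :=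
  if h : ∃ y, Inc v y ∧ y.1 = T then h.choose else (T, fun _ => 0)

lemma nb_eq {v : G0} (hv : v ≠ 0) {y : Om} (h : Inc v y) : nb v y.1 = y := by
  have h1 : ∃ y', Inc v y' ∧ y'.1 = y.1 := ⟨y, h, rfl⟩
  rw [nb, dif_pos h1]
  exact inc_uniq hv h1.choose_spec.1 h h1.choose_spec.2

lemma nb_not {v : G0} {y : Om} (h : Inc v y) : Inc v (nb v (!y.1)) ∧ (nb v (!y.1)).1 = !y.1 := by
  rw [nb, dif_pos (inc_ex h)]
  exact (inc_ex h).choose_spec

lemma off_dec : ∀ T a a' : Bool, off (!T) a + off T true ≠ off (!T) a' + off T false := by decide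

/-- the neighbour of `y` at the endpoint `e` -/
noncomputable def nbe (y : Om) (e : Bool) : Om := nb (pos y + io (off y.1 e)) (!y.1)

lemma nbe_ne (y : Om) (e : Bool) : nbe y e ≠ y := fun h => by
  have := (nb_not (y := y) ⟨e, rfl⟩).2
  rw [← nbe, h] at this
  simp at this

lemma nbe_ne' (y : Om) : nbe y false ≠ nbe y true := fun h => by
  obtain ⟨⟨a, h1⟩, h2⟩ := nb_not (y := y) ⟨false, rfl⟩
  obtain ⟨⟨a', h3⟩, h4⟩ := nb_not (y := y) ⟨true, rfl⟩
  rw [← nbe] at h1 h2 h3 h4
  rw [h2, h] at h1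
  rw [h4] at h3
  refine off_dec y.1 a a' (io_inj ?_)
  rw [map_add, map_add]
  linear_combination h3 - h1

lemma tri_cases {y y' : Om} (hy : ∀ v, Inc v y → v ≠ 0) (h : ∃ v, Inc v y ∧ Inc v y') :
    y' = y ∨ y' = nbe y false ∨ y' = nbe y true := by
  obtain ⟨v, h1, h2⟩ := h
  by_cases ht : y'.1 = y.1
  · exact Or.inl (inc_uniq (hy v h1) h2 h1 ht)
  · have h3 : (!y.1) = y'.1 := by revert ht; cases y.1 <;> cases y'.1 <;> simp
    have h4 := nb_eq (hy v h1) h2
    obtain ⟨e, rfl⟩ := h1
    rw [← h3, ← nbe] at h4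
    cases e
    · exact Or.inr (Or.inl h4.symm)
    · exact Or.inr (Or.inr h4.symm)

lemma count (n : ℕ) (y : Om) (r : Om → Prop) (b : Prop) [Decidable b] (h1 : b → ∃! u, r u)
    (h2 : ∀ u, r u → b)
    (h3 : ∀ u, r u → sg^[n] u = y ∨ sg^[n] u = nbe y false ∨ sg^[n] u = nbe y true) :
    (∑ u ∈ desc n y, if r u then (1 : ℤ) else 0) + (∑ u ∈ desc n (nbe y false), if r u then 1 else 0)
      + (∑ u ∈ desc n (nbe y true), if r u then 1 else 0) = if b then 1 else 0 := by
  by_cases hb : b
  · obtain ⟨u0, h4, h5⟩ := h1 hb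
    have h6 : ∀ u, r u ↔ u = u0 := fun u => ⟨h5 u, fun h => h ▸ h4⟩
    have a1 := nbe_ne y false
    have a2 := nbe_ne y true
    have a3 := nbe_ne' y
    simp only [h6, Finset.sum_ite_eq', mem_desc, if_pos hb]
    rcases h3 u0 h4 with h | h | h <;> rw [h] <;> simp [a1, a2, a3, a1.symm, a2.symm, a3.symm]
  · have h6 : ∀ u, ¬ r u := fun u h => hb (h2 u h)
    simp [h6, hb]

noncomputable def M (R : Om → Om → Prop) (n : ℕ) (y y' : Om) : ℤ :=
  ∑ u ∈ desc n y, ∑ u' ∈ desc n y', if R u u' then 1 else 0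

theorem no_matching (R : Om → Om → Prop) (hm : MeasurableSet {p : Om × Om | R p.1 p.2})
    (ht : ∀ u u', R u u' → u.1 = true ∧ u'.1 = false)
    (h1 : ∀ u, u.1 = true → ∃! u', R u u') (h2 : ∀ u', u'.1 = false → ∃! u, R u u') (K : ℕ)
    (h3 : ∀ᶠ u in residual Om, ∀ u', R u u' ∨ R u' u → Near (K + 1) u u') : False := by
  let x : G0 → ℤ := fun v =>
    M R (K + 1) (nb v true) (nb v false) - M R (K + 1) (nb v false) (nb v true)
  have hx : Good x := by
    filter_upwards [ev_desc h3 (K + 1), ev_inc] with y hy hy'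
    have h4 : ∀ u ∈ desc (K + 1) y, ∀ u', R u u' ∨ R u' u → sg^[K + 1] u' = y ∨
        sg^[K + 1] u' = nbe y false ∨ sg^[K + 1] u' = nbe y true := fun u hu u' h => by
      have := adj (near_iter K _ _ (hy u hu u' h))
      rw [← Function.iterate_succ_apply' sg, ← Function.iterate_succ_apply' sg,
        mem_desc.1 hu] at this
      exact tri_cases hy' this
    have e1 := Finset.sum_congr rfl fun u hu => count (K + 1) y (R u) (u.1 = true) (h1 u)
      (fun u' h => (ht _ _ h).1) fun u' h => h4 u hu u' (Or.inl h)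
    have e2 := Finset.sum_congr rfl fun u hu => count (K + 1) y (R · u) (u.1 = false) (h2 u)
      (fun u' h => (ht _ _ h).2) fun u' h => h4 u hu u' (Or.inr h)
    have e3 : (∑ u ∈ desc (K + 1) y, if u.1 = true then (1 : ℤ) else 0) -
        (∑ u ∈ desc (K + 1) y, if u.1 = false then (1 : ℤ) else 0) = sgn y.1 := by
      rw [← Finset.sum_sub_distrib, ← sum_sgn (K + 1) y]
      exact Finset.sum_congr rfl fun u _ => by cases u.1 <;> rfl
    simp only [Finset.sum_add_distrib] at e1 e2
    rw [Finset.sum_comm, Finset.sum_comm (t := desc _ (nbe y false)),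
      Finset.sum_comm (t := desc _ (nbe y true))] at e2
    have e4 : ∀ e, x (pos y + io (off y.1 e)) =
        sgn y.1 * (M R (K + 1) y (nbe y e) - M R (K + 1) (nbe y e) y) := fun e => by
      have f1 := nb_eq (hy' _ ⟨e, rfl⟩) (y := y) ⟨e, rfl⟩
      have f2 : nb (pos y + io (off y.1 e)) (!y.1) = nbe y e := rfl
      generalize pos y + io (off y.1 e) = v at f1 f2 ⊢
      cases hT : y.1 <;> rw [hT] at f1 f2 <;> simp only [Bool.not_true, Bool.not_false] at f2 <;>
        simp only [x, f1, f2, sgn] <;> simp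
    have e5 := e4 false
    have e6 := e4 true
    simp only [off, if_true, Bool.false_eq_true, if_false, map_zero, add_zero] at e5 e6
    have e7 : sgn y.1 * sgn y.1 = 1 := by cases y.1 <;> rfl
    rw [e5, e6, ← mul_add, ← e7]
    congr 1
    simp only [M]
    convert e3 using 1
    rw [← e1, ← e2]
    ring
  have hM : ∀ s s' : Om → Om, Measurable s → Measurable s' →
      Measurable fun y => M R (K + 1) (s y) (s' y) := fun s s' hs hs' =>
    meas_desc (fun p => ∑ u' ∈ desc (K + 1) (s' p.1), if R p.2 u' then 1 else 0)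
      (meas_desc (fun q : (Om × Om) × Om => if R q.1.2 q.2 then 1 else 0)
        (Measurable.ite ((measurable_fst.snd.prodMk measurable_snd) hm) measurable_const
          measurable_const) _ _ (hs'.comp measurable_fst)) _ _ hs
  obtain ⟨n, z, k, hz, hk⟩ := ev_const (fun y => M R (K + 1) (ka 0 y) (ka 1 y) -
    M R (K + 1) (ka 1 y) (ka 0 y)) ((hM _ _ (cont_ka 0).measurable (cont_ka 1).measurable).sub
      (hM _ _ (cont_ka 1).measurable (cont_ka 0).measurable)) true
  obtain ⟨k', hk'⟩ := hx.pull (j := 1) (n := n) (z := z) (k := k) (by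
    filter_upwards [hk, ev_ka ev_inc] with y hy hy' hc
    have hT : y.1 = true := hc.1.trans hz
    have i1 : Inc (pos (ka 1 y)) (ka 1 y) := ⟨false, by simp [off]⟩
    have i0 : Inc (pos (ka 1 y)) (ka 0 y) := inc_ka.2 ⟨true, by rw [pos_ka, hT]; rfl⟩
    have f1 := nb_eq (hy' 1 _ i1) i1
    have f0 := nb_eq (hy' 1 _ i1) i0
    rw [ka_fst, hT] at f1 f0
    rw [← hy hc]
    show M R _ (nb _ (fl true 0)) (nb _ (fl true 1)) - M R _ (nb _ (fl true 1)) (nb _ (fl true 0))
      = _
    rw [f1, f0])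
  exact not_const n _ z k' hx.five hk'

end Pool.Agent.H9.Koch3
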