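import Pool.Agent.H9.Koch3

/-! The counterexample to Borel cancellation in `ℤ_5 × ℤ_5`. -/
namespace Pool.Agent.H9.Koch4
open Filter Topology Koch1 Koch2 Koch3

lemma mem_img {G : Type} [Group G] (g : G) (s : Equiv.Perm ℕ) (P : Set (G × ℕ)) (q : G × ℕ) :
    q ∈ (fun p : G × ℕ => (g * p.1, s p.2)) '' P ↔ (g⁻¹ * q.1, s.symm q.2) ∈ P :=
  ⟨by rintro ⟨p, hp, rfl⟩; simpa using hp, fun h => ⟨_, h, by simp⟩⟩

lemma img_prod {G : Type} [Group G] (g : G) (s : Equiv.Perm ℕ) (P : Set G) (m : ℕ) :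
    (fun p : G × ℕ => (g * p.1, s p.2)) '' (P ×ˢ {m}) = {v | g⁻¹ * v ∈ P} ×ˢ {s m} := by
  ext q
  rw [mem_img]
  simp [Equiv.symm_apply_eq]

theorem double {G : Type} [CommGroup G] [MeasurableSpace G] [MeasurableSingletonClass G]
    (hmul : ∀ g : G, Measurable fun x => g * x) (A B : Set G) (hA : MeasurableSet A)
    (hB : MeasurableSet B) (e f : G)
    (h : ∀ v, (v ∈ A ∨ e⁻¹ * v ∈ A) ↔ (v ∈ B ∨ f⁻¹ * v ∈ B))
    (a1 : ∀ v, v ∈ A → e⁻¹ * v ∈ A → v = 1) (b1 : ∀ v, v ∈ B → f⁻¹ * v ∈ B → v = 1)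
    (a2 : 1 ∈ A) (b2 : 1 ∈ B) (a3 : e⁻¹ ∈ A) (b3 : f⁻¹ ∈ B) :
    ∃ (k : ℕ) (P : Fin k → Set (G × ℕ)) (g : Fin k → G) (σ : Fin k → Equiv.Perm ℕ),
      (∀ i, MeasurableSet (P i)) ∧
      Pairwise (fun i j => Disjoint (P i) (P j)) ∧
      (⋃ i, P i) = A ×ˢ Set.Iio 2 ∧
      Pairwise (fun i j =>
        Disjoint ((fun p : G × ℕ => (g i * p.1, σ i p.2)) '' P i)
                 ((fun p : G × ℕ => (g j * p.1, σ j p.2)) '' P j)) ∧
      (⋃ i, (fun p : G × ℕ => (g i * p.1, σ i p.2)) '' P i) = B ×ˢ Set.Iio 2 := by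
  let C : Set G := {a | e * a ∈ B ∧ e * a ≠ 1}
  have hC : MeasurableSet C := hmul e (hB.diff (measurableSet_singleton 1))
  let Q : Fin 4 → Set G := ![A ∩ B, A \ B, A ∩ C, A \ C]
  let m : Fin 4 → ℕ := ![0, 0, 1, 1]
  let g : Fin 4 → G := ![1, f⁻¹, e, f⁻¹ * e]
  let s : Fin 4 → Equiv.Perm ℕ := ![1, Equiv.swap 0 1, Equiv.swap 0 1, 1]
  refine ⟨4, fun i => Q i ×ˢ {m i}, g, s, fun i => ?_, fun i j hij => ?_, ?_, fun i j hij => ?_, ?_⟩
  · refine MeasurableSet.prod ?_ (measurableSet_singleton _)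
    fin_cases i
    exacts [hA.inter hB, hA.diff hB, hA.inter hC, hA.diff hC]
  · beta_reduce
    rw [Set.disjoint_left]
    rintro ⟨v, n⟩
    fin_cases i <;> fin_cases j <;> simp [Q, m] at hij ⊢ <;> grind
  · ext ⟨v, n⟩
    simp only [Set.mem_iUnion, Fin.exists_fin_succ, Set.mem_prod, Set.mem_Iio]
    simp [Q, m]
    grind
  · beta_reduce
    rw [img_prod, img_prod, Set.disjoint_left]
    rintro ⟨v, n⟩
    have := a1 v
    have := a1 (f * v)
    have e1 : e⁻¹ * f * v = e⁻¹ * (f * v) := mul_assoc _ _ _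
    fin_cases i <;> fin_cases j <;> simp [Q, m, g, s, C, e1] at hij ⊢ <;> grind
  · ext ⟨v, n⟩
    simp only [img_prod, Set.mem_iUnion, Fin.exists_fin_succ, Set.mem_prod, Set.mem_Iio]
    have e1 : e⁻¹ * f * v = e⁻¹ * (f * v) := mul_assoc _ _ _
    have h1 := h v
    have h2 := h (f * v)
    have h3 := b1 (f * v)
    rw [inv_mul_cancel_left] at h2 h3
    have h4 : f * v = 1 → v ∈ B ∧ e⁻¹ * (f * v) ∈ A := fun h => by
      rw [h, mul_one, eq_inv_of_mul_eq_one_right h]; exact ⟨b3, a3⟩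
    simp [Q, m, g, s, C, e1]
    grind

/-- base points of the edges of type `T` -/
def E (T : Bool) : Set G0 := pos '' {u | u.1 = T}

lemma closed_E (T : Bool) : IsClosed (E T) :=
  ((isClosed_eq continuous_fst continuous_const).isCompact.image cont_pos).isClosed

lemma inc_iff (T : Bool) (v : G0) : (v ∈ E T ∨ -io (dir T) + v ∈ E T) ↔ ∃ y, Inc v y ∧ y.1 = T := by
  constructor
  · rintro (⟨y, h1, h2⟩ | ⟨y, h1, h2⟩)
    · exact ⟨y, ⟨false, by simp [off, h2]⟩, h1⟩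
    · exact ⟨y, ⟨true, by rw [h2, show y.1 = T from h1]; simp [off]⟩, h1⟩
  · rintro ⟨y, ⟨e, rfl⟩, rfl⟩
    cases e
    · exact Or.inl ⟨y, rfl, by simp [off]⟩
    · exact Or.inr ⟨y, rfl, by simp [off]⟩

lemma union_E (v : G0) : (v ∈ E true ∨ -io (dir true) + v ∈ E true) ↔
    (v ∈ E false ∨ -io (dir false) + v ∈ E false) := by
  rw [inc_iff, inc_iff]
  constructor <;> rintro ⟨y, h1, h2⟩ <;> obtain ⟨y', h3, h4⟩ := inc_ex h1 <;>
    exact ⟨y', h3, by rw [h4, h2]; rfl⟩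

lemma inter_E (T : Bool) (v : G0) (h : v ∈ E T) (h' : -io (dir T) + v ∈ E T) : v = 0 := by
  by_contra hv
  obtain ⟨y, h1, h2⟩ := h
  obtain ⟨y', h3, h4⟩ := h'
  have h5 : y'.1 = T := h3
  have := inc_uniq hv (y := y) (y' := y') ⟨false, by simp [off, h2]⟩
    ⟨true, by rw [h4, h5]; simp [off]⟩ (h1.trans h5.symm)
  rw [← this, h2] at h4
  have h6 : io (dir T) = io 0 := by rw [map_zero]; linear_combination h4
  have := io_inj h6
  revert this
  cases T <;> decide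

theorem not_equi (k : ℕ) (P : Fin k → Set G0) (g : Fin k → G0)
    (hP : ∀ i, MeasurableSet (pos ⁻¹' P i)) (d1 : Pairwise fun i j => Disjoint (P i) (P j))
    (u1 : (⋃ i, P i) = E true)
    (d2 : Pairwise fun i j => Disjoint ((fun x => g i + x) '' P i) ((fun x => g j + x) '' P j))
    (u2 : (⋃ i, (fun x => g i + x) '' P i) = E false) : False := by
  have hd : ∀ i, ∃ d : ℤ × ℤ, (∃ d, g i = io d) → g i = io d := fun i => by
    by_cases h : ∃ d, g i = io d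
    · exact h.imp fun d hd _ => hd
    · exact ⟨0, fun h' => absurd h' h⟩
  choose d hd using hd
  obtain ⟨K, hK⟩ := (Set.finite_range fun i => (d i).1.natAbs + (d i).2.natAbs).bddAbove
  have hK' : ∀ i, |(d i).1| ≤ (K + 1 : ℕ) ∧ |(d i).2| ≤ (K + 1 : ℕ) := fun i => by
    have : (d i).1.natAbs + (d i).2.natAbs ≤ K := hK ⟨i, rfl⟩
    rw [abs_le, abs_le]
    omega
  refine no_matching (fun u u' => u.1 = true ∧ u'.1 = false ∧
    ∃ i, pos u ∈ P i ∧ pos u' = g i + pos u) ?_ (fun u u' h => ⟨h.1, h.2.1⟩) (fun u hu => ?_)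
      (fun u' hu => ?_) K ?_
  · refine (measurable_fst.fst (measurableSet_singleton true)).inter
      ((measurable_snd.fst (measurableSet_singleton false)).inter ?_)
    show MeasurableSet {p : Om × Om | ∃ i, pos p.1 ∈ P i ∧ pos p.2 = g i + pos p.1}
    rw [Set.ofPred_exists]
    exact MeasurableSet.iUnion fun i => (measurable_fst (hP i)).inter (isClosed_eq
      (cont_pos.comp continuous_snd)
      (continuous_const.add (cont_pos.comp continuous_fst))).measurableSet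
  · obtain ⟨i, hi⟩ := Set.mem_iUnion.1 (u1 ▸ ⟨u, hu, rfl⟩ : pos u ∈ ⋃ i, P i)
    obtain ⟨u', h1, h2⟩ : g i + pos u ∈ E false := u2 ▸ Set.mem_iUnion.2 ⟨i, _, hi, rfl⟩
    refine ⟨u', ⟨hu, h1, i, hi, h2⟩, ?_⟩
    rintro w ⟨-, h3, j, h4, h5⟩
    obtain rfl : j = i := by_contra fun h => Set.disjoint_left.1 (d1 h) h4 hi
    exact pos_inj (h3.trans h1.symm) (h5.trans h2.symm)
  · obtain ⟨i, a, hi, h0⟩ := Set.mem_iUnion.1
      (u2 ▸ ⟨u', hu, rfl⟩ : pos u' ∈ ⋃ i, (fun x => g i + x) '' P i)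
    obtain ⟨u, h1, rfl⟩ : a ∈ E true := u1 ▸ Set.mem_iUnion.2 ⟨i, hi⟩
    refine ⟨u, ⟨h1, hu, i, hi, h0.symm⟩, ?_⟩
    rintro w ⟨h3, -, j, h4, h5⟩
    obtain rfl : j = i := by_contra fun h =>
      Set.disjoint_left.1 (d2 h) ⟨_, h4, h5.symm⟩ ⟨_, hi, h0⟩
    exact pos_inj (h3.trans h1.symm) (add_left_cancel (h5.symm.trans h0.symm))
  · filter_upwards [eventually_all.2 fun i => ev_thin (g i),
      eventually_all.2 fun i => ev_thin (-g i)] with u h1 h2 u'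
    rintro (⟨-, -, i, -, h⟩ | ⟨-, -, i, -, h⟩)
    · exact ⟨d i, (hK' i).1, (hK' i).2, by rw [← hd i (h1 i u' (by rw [h, add_comm])), h, add_comm]⟩
    · obtain ⟨a, ha⟩ := h2 i u' (by rw [h]; ring)
      have := hd i ⟨-a, by rw [map_neg, ← ha, neg_neg]⟩
      exact ⟨-d i, by simpa using (hK' i).1, by simpa using (hK' i).2,
        by rw [map_neg, ← this, h]; ring⟩

end Pool.Agent.H9.Koch4
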