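import Pool.Agent.H9.Wcr

/-! A Baernstein type norm on the finitely supported sequences. -/
namespace Pool.Agent.H9.Kott
open Filter Metric Topology Finset

/-- systems of vectors in a Hilbert ball, the `i`-th one orthogonal to all but `i + 1` of them -/
structure Sys : Type 1 where
  H : Type
  [i1 : NormedAddCommGroup H]
  [i2 : InnerProductSpace ℝ H]
  v : ℕ → H
  le : ∀ i, ‖v i‖ ≤ 1
  card : ∀ i (s : Finset ℕ), (∀ j ∈ s, inner ℝ (v i) (v j) ≠ 0) → s.card ≤ i + 1

attribute [instance] Sys.i1 Sys.i2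

noncomputable def Sys.T (S : Sys) : (ℕ →₀ ℝ) →ₗ[ℝ] S.H := Finsupp.linearCombination ℝ S.v

noncomputable def one (v : ℕ → ℝ) (h : ∀ i, |v i| ≤ 1) (s : Finset ℕ) (h1 : ∀ i, v i ≠ 0 → i ∈ s)
    (h2 : ∀ i ∈ s, s.card ≤ i + 1) : Sys :=
  ⟨ℝ, v, h, fun i t ht => t.eq_empty_or_nonempty.elim (fun e => by simp [e]) fun ⟨j, hj⟩ =>
    (card_le_card fun k hk => h1 k (left_ne_zero_of_mul (ht k hk))).trans
      (h2 i (h1 i (right_ne_zero_of_mul (ht j hj))))⟩

instance : Nonempty Sys := ⟨one 0 (by simp) ∅ (by simp) (by simp)⟩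

lemma T_le (S : Sys) (x : ℕ →₀ ℝ) : ‖S.T x‖ ≤ ∑ i ∈ x.support, |x i| :=
  norm_sum_le_of_le _ fun i _ => (norm_smul _ _).trans_le
    (mul_le_of_le_one_right (abs_nonneg _) (S.le i))

/-- the underlying space -/
abbrev B : Type := ℕ →₀ ℝ

noncomputable def N (x : B) : ℝ := ⨆ S : Sys, ‖S.T x‖

lemma le_N (S : Sys) (x : B) : ‖S.T x‖ ≤ N x :=
  le_ciSup (f := fun S : Sys => ‖S.T x‖) ⟨_, Set.forall_mem_range.2 fun S => T_le S x⟩ S

lemma l1' (φ : B →ₗ[ℝ] ℝ) {c : ℝ} (h : ∀ i, |φ (Finsupp.single i 1)| ≤ c) (s : Finset ℕ)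
    (h1 : ∀ i, φ (Finsupp.single i 1) ≠ 0 → i ∈ s) (h2 : ∀ i ∈ s, s.card ≤ i + 1) (x : B) :
    |φ x| ≤ c * N x := by
  have h0 := (abs_nonneg _).trans (h 0)
  let S := one (fun i => φ (Finsupp.single i 1) / c) (fun i => by
    rw [abs_div, abs_of_nonneg h0]
    exact div_le_one_of_le₀ (h i) h0) s (fun i hi => h1 i (div_ne_zero_iff.1 hi).1) h2
  let v := fun i => φ (Finsupp.single i 1) / c
  have : φ = c • Finsupp.linearCombination ℝ v := Finsupp.lhom_ext' fun i =>
    LinearMap.ext_ring (by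
      rcases h0.eq_or_lt with e | e
      · simpa [← e] using h i
      · simp [v, mul_div_cancel₀ _ e.ne'])
  rw [this, LinearMap.smul_apply, smul_eq_mul, abs_mul, abs_of_nonneg h0]
  exact mul_le_mul_of_nonneg_left (le_N S x) h0

lemma le' (x : B) (i : ℕ) : |x i| ≤ N x := by
  simpa using l1' (Finsupp.lapply i) (c := 1) (fun j => by
    show |Finsupp.single j 1 i| ≤ _
    rw [Finsupp.single_apply]
    split_ifs <;> simp) {i} (fun j hj => mem_singleton.2 (Finsupp.single_apply_ne_zero.1 hj).1.symm)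
    (by simp) x

noncomputable scoped instance : NormedAddCommGroup B := AddGroupNorm.toNormedAddCommGroup
  { toFun := N
    map_zero' := by simp [N, show ∀ S : Sys, S.T (0 : B) = 0 from fun S => S.T.map_zero]
    add_le' := fun x y => ciSup_le fun S => (congrArg _ (S.T.map_add x y)).trans_le
      (norm_add_le_of_le (le_N S x) (le_N S y))
    neg' := fun x => iSup_congr fun S => (congrArg _ (S.T.map_neg x)).trans (norm_neg _)
    eq_zero_of_map_eq_zero' := fun x h => Finsupp.ext fun i => abs_nonpos_iff.1 (h ▸ le' x i) }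

noncomputable scoped instance : NormedSpace ℝ B where
  norm_smul_le c x := ciSup_le fun S => (congrArg _ (S.T.map_smul c x)).trans_le
    ((norm_smul _ _).trans_le (mul_le_mul_of_nonneg_left (le_N S x) (norm_nonneg _)))

lemma le_norm (S : Sys) (x : B) : ‖S.T x‖ ≤ ‖x‖ := le_N S x

lemma norm_le {x : B} {c : ℝ} (h : ∀ S : Sys, ‖S.T x‖ ≤ c) : ‖x‖ ≤ c := ciSup_le h

lemma le (x : B) (i : ℕ) : |x i| ≤ ‖x‖ := le' x i

lemma split (p : ℕ → Prop) [DecidablePred p] (x : B) (S S' : Sys) :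
    ‖S.T (x.filter p)‖ ^ 2 + ‖S'.T (x.filter (¬p ·))‖ ^ 2 ≤ ‖x‖ ^ 2 := by
  let U : Sys := ⟨WithLp 2 (S.H × S'.H),
    fun i => WithLp.toLp 2 (if p i then S.v i else 0, if p i then 0 else S'.v i), fun i => by
      split_ifs
      · simpa using S.le i
      · simpa using S'.le i, fun i s hs => by
      by_cases h : p i
      · exact S.card i s fun j hj e => hs j hj (by by_cases h' : p j <;> simp [*])
      · exact S'.card i s fun j hj e => hs j hj (by by_cases h' : p j <;> simp [*])⟩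
  have : U.T x = WithLp.toLp 2 (S.T (x.filter p), S'.T (x.filter (¬p ·))) := by
    induction x using Finsupp.induction_linear with
    | zero =>
      simp only [Finsupp.filter_zero, map_zero]
      rfl
    | add a b ha hb =>
      rw [map_add, ha, hb, Finsupp.filter_add, Finsupp.filter_add, map_add, map_add]
      rfl
    | single i c => by_cases h : p i <;> simp [U, Sys.T, h, ← WithLp.toLp_smul]
  refine le_trans (le_of_eq ?_) (pow_le_pow_left₀ (norm_nonneg _) (le_norm U x) 2)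
  rw [this, WithLp.prod_norm_sq_eq_of_L2]
  rfl

lemma fl_le (p : ℕ → Prop) [DecidablePred p] (x : B) : ‖x.filter p‖ ≤ ‖x‖ := norm_le fun S =>
  (abs_le_of_sq_le_sq' ((le_add_of_nonneg_right (sq_nonneg _)).trans (split p x S S))
    (norm_nonneg _)).2

lemma fl_add (p : ℕ → Prop) [DecidablePred p] (x : B) :
    ‖x.filter p‖ + ‖x.filter (¬p ·)‖ ≤ 3 / 2 * ‖x‖ :=
  le_sub_iff_add_le.1 (norm_le fun S => le_sub_comm.1 (norm_le fun S' => le_sub_iff_add_le'.2
    (abs_le_of_sq_le_sq' (by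
      nlinarith [split p x S S', sq_nonneg (‖S.T (x.filter p)‖ - ‖S'.T (x.filter (¬p ·))‖)])
      (by positivity)).2))

lemma upper (w y : B) {η : ℝ} (h : ∀ j, |y j| ≤ η) :
    ‖w + y‖ ^ 2 ≤ ‖w‖ ^ 2 + ‖y‖ ^ 2 + 2 * ((∑ i ∈ w.support, |w i| * (i + 1)) * η) := by
  have h0 := (abs_nonneg _).trans (h 0)
  refine (Real.le_sqrt (norm_nonneg _) (by positivity)).1 (norm_le fun S => Real.le_sqrt_of_sq_le ?_)
  have h1 : inner ℝ (S.T w) (S.T y) ≤ (∑ i ∈ w.support, |w i| * (i + 1)) * η := by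
    rw [Sys.T, Finsupp.linearCombination_apply, Finsupp.sum, sum_inner, sum_mul]
    refine sum_le_sum fun i _ => ?_
    rw [real_inner_smul_left, mul_assoc]
    refine (le_abs_self _).trans ((abs_mul _ _).trans_le
      (mul_le_mul_of_nonneg_left ?_ (abs_nonneg _)))
    classical
    rw [Finsupp.linearCombination_apply, Finsupp.sum, inner_sum, ← sum_filter_of_ne
      (p := fun j => inner ℝ (S.v i) (S.v j) ≠ 0) fun j _ hj e => hj (by
        rw [real_inner_smul_right, e, mul_zero])]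
    refine (abs_sum_le_sum_abs _ _).trans ((sum_le_card_nsmul _ _ η fun j _ => ?_).trans ?_)
    · rw [real_inner_smul_right, abs_mul]
      exact (mul_le_of_le_one_right (abs_nonneg _) ((abs_real_inner_le_norm _ _).trans
        (mul_le_one₀ (S.le i) (norm_nonneg _) (S.le j)))).trans (h j)
    · rw [nsmul_eq_mul]
      exact mul_le_mul_of_nonneg_right (by
        exact_mod_cast S.card i _ fun j hj => (mem_filter.1 hj).2) h0
  rw [show S.T (w + y) = _ from S.T.map_add w y, norm_add_sq_real]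
  linarith [pow_le_pow_left₀ (norm_nonneg _) (le_norm S w) 2,
    pow_le_pow_left₀ (norm_nonneg _) (le_norm S y) 2]

end Pool.Agent.H9.Kott
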