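import Pool.Agent.H9.Kott

/-! The dual of the Baernstein type space has Kottman constant less than two. -/
namespace Pool.Agent.H9.Kott
open Filter Metric Topology Finset

lemma tail (g : B →L[ℝ] ℝ) {ε : ℝ} (hε : 0 < ε) :
    ∃ N, ∀ x : B, (∀ i < N, x i = 0) → |g x| ≤ ε * ‖x‖ := by
  by_contra! h
  have h1 : ∀ N, ∃ x : B, (∀ i < N, x i = 0) ∧ ‖x‖ ≤ 1 ∧ ε ≤ g x := fun N => by
    obtain ⟨x, e1, e2⟩ := h N
    have e3 : 0 < |g x| := lt_of_le_of_lt (by positivity) e2
    refine ⟨(ε / g x) • x, fun i hi => by simp [e1 i hi], ?_, by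
      rw [map_smul, smul_eq_mul, div_mul_cancel₀ _ (abs_pos.1 e3).symm.symm]⟩
    rw [norm_smul, norm_div, Real.norm_of_nonneg hε.le, div_mul_eq_mul_div]
    exact (div_le_one e3).2 e2.le
  have h2 : ∀ k : ℕ, ∃ z : B, ‖z‖ ≤ k ∧ (∀ i, |z i| ≤ 1) ∧ k * ε ≤ g z := fun k => by
    induction k with
    | zero => exact ⟨0, by simp⟩
    | succ k ih =>
      obtain ⟨z, e1, e2, e3⟩ := ih
      obtain ⟨x, e4, e5, e6⟩ := h1 (z.support.sup id + 1)
      refine ⟨z + x, (norm_add_le_of_le e1 e5).trans_eq (by simp), fun i => ?_, by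
        rw [map_add, Nat.cast_succ]
        linarith⟩
      by_cases hi : z i = 0
      · simpa [hi] using (le x i).trans e5
      · simpa [e4 i (Nat.lt_succ_of_le (le_sup (f := id) (Finsupp.mem_support_iff.2 hi)))]
          using e2 i
  have h3 : ∀ k : ℕ, ∃ w : B, ‖w‖ ^ 2 ≤ 3 * k ∧ k * ε ≤ g w := fun k => by
    induction k with
    | zero => exact ⟨0, by simp⟩
    | succ k ih =>
      obtain ⟨w, e1, e2⟩ := ih
      obtain ⟨m, hm⟩ := exists_nat_gt (∑ i ∈ w.support, |w i| * (i + 1))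
      have h0 : (0 : ℝ) < m := lt_of_le_of_lt (by positivity) hm
      obtain ⟨z, e3, e4, e5⟩ := h2 m
      have e6 := upper w ((m : ℝ)⁻¹ • z) (η := (m : ℝ)⁻¹) fun j => by
        rw [Finsupp.smul_apply, smul_eq_mul, abs_mul, abs_of_pos (inv_pos.2 h0)]
        exact mul_le_of_le_one_right (by positivity) (e4 j)
      have e7 : ‖(m : ℝ)⁻¹ • z‖ ≤ 1 := by
        rw [norm_smul, norm_inv, Real.norm_of_nonneg h0.le]
        exact inv_mul_le_one_of_le₀ e3 h0.le
      have e8 := mul_inv_le_one_of_le₀ hm.le h0.le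
      have e9 := (le_inv_mul_iff₀ h0).2 e5
      refine ⟨w + (m : ℝ)⁻¹ • z, ?_, by
        rw [map_add, map_smul, Nat.cast_succ, smul_eq_mul]
        linarith⟩
      rw [Nat.cast_succ]
      nlinarith [norm_nonneg ((m : ℝ)⁻¹ • z)]
  obtain ⟨k, hk⟩ := exists_nat_gt (3 * ‖g‖ ^ 2 / ε ^ 2)
  obtain ⟨w, e1, e2⟩ := h3 k
  have h0 : (0 : ℝ) < k := lt_of_le_of_lt (by positivity) hk
  have e3 := pow_le_pow_left₀ (by positivity) (e2.trans ((le_abs_self _).trans (g.le_opNorm w))) 2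
  rw [div_lt_iff₀ (by positivity)] at hk
  rw [mul_pow, mul_pow] at e3
  nlinarith [mul_le_mul_of_nonneg_left e1 (sq_nonneg ‖g‖), mul_lt_mul_of_pos_left hk h0]

lemma head (g : B →L[ℝ] ℝ) (N : ℕ) (x : B) :
    |g (x.filter (· < N))| ≤ (∑ i ∈ range N, |g (Finsupp.single i 1)|) * ‖x‖ := by
  have : x.filter (· < N) = ∑ i ∈ range N, x i • Finsupp.single i 1 := by
    ext j
    simp [Finsupp.filter_apply, Finsupp.finsetSum_apply, Finsupp.single_apply]
  rw [this, map_sum, sum_mul]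
  refine (abs_sum_le_sum_abs _ _).trans (sum_le_sum fun i _ => ?_)
  rw [map_smul, smul_eq_mul, abs_mul, mul_comm]
  exact mul_le_mul_of_nonneg_left (le x i) (abs_nonneg _)

theorem close (g : ℕ → B →L[ℝ] ℝ) (h : ∀ n, ‖g n‖ ≤ 1) : ∃ n m, n ≠ m ∧ ‖g n - g m‖ ≤ 19 / 10 := by
  obtain ⟨G, -, h1⟩ := (WeakDual.isCompact_closedBall (0 : StrongDual ℝ B) 1
    ).exists_mapClusterPt_of_frequently (f := fun n => StrongDual.toWeakDual (g n)) (l := atTop)
    (.of_forall fun n => mem_closedBall_zero_iff.2 (h n))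
  let G' : B →L[ℝ] ℝ := G
  have h2 : ∀ N, ∃ᶠ n in atTop, ∀ x : B, |(g n - G') (x.filter (· < N))| ≤ 1 / 10 * ‖x‖ :=
    fun N => (h1.frequently (IsOpen.mem_nhds (isOpen_lt (f := fun u : WeakDual ℝ B =>
      ∑ i ∈ range N, |u (Finsupp.single i 1) - G (Finsupp.single i 1)|) (g := fun _ => 1 / 10)
      (continuous_finsetSum _ fun i _ => ((WeakDual.eval_continuous _).sub continuous_const).abs)
      continuous_const) (by simp))).mono fun n hn x => (head _ N x).trans
        (mul_le_mul_of_nonneg_right (le_of_lt hn) (norm_nonneg _))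
  obtain ⟨K, hK⟩ := tail G' (ε := 1 / 10) (by norm_num)
  obtain ⟨n, hn⟩ := (h2 K).exists
  obtain ⟨N, hN⟩ := tail (g n) (ε := 1 / 10) (by norm_num)
  obtain ⟨m, hm, hm'⟩ := ((h2 (max N K)).and_eventually (eventually_ne_atTop n)).exists
  refine ⟨n, m, hm'.symm, ContinuousLinearMap.opNorm_le_bound _ (by norm_num) fun x => ?_⟩
  let y := x.filter (¬· < K)
  have e1 := fl_le (¬· < K) x
  have e2 := fl_add (· < max N K) y
  have e5 := abs_le.1 (hK (y.filter (· < max N K)) fun i hi => by simp [y, hi])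
  have e6 := abs_le.1 (hN (y.filter (¬· < max N K)) fun i hi => by simp [hi])
  have e7 := abs_le.1 (hn x)
  have e8 := abs_le.1 (hm x)
  have e9 := abs_le.1 ((g n).le_of_opNorm_le (h n) (y.filter (· < max N K)))
  have e10 := abs_le.1 ((g m).le_of_opNorm_le (h m) (y.filter (¬· < max N K)))
  have e3 : x.filter (· < max N K) = x.filter (· < K) + y.filter (· < max N K) := by
    ext i
    simp only [y, Finsupp.filter_apply, Finsupp.add_apply, lt_max_iff]
    by_cases h1 : i < K <;> simp [h1]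
  have e4 : ∀ u : B →L[ℝ] ℝ, u x = u (x.filter (· < K)) + u (y.filter (· < max N K)) +
      u (y.filter (¬· < max N K)) := fun u => by
    rw [add_assoc, ← map_add, ← map_add, Finsupp.filter_add_filter_not,
      Finsupp.filter_add_filter_not]
  rw [e3] at e8
  simp only [sub_apply, map_add] at e7 e8 ⊢
  rw [e4 (g n), e4 (g m)]
  exact abs_le.2 ⟨by linarith [norm_nonneg x], by linarith [norm_nonneg x]⟩

/-- coordinate functionals -/
noncomputable def y (n : ℕ) : B →L[ℝ] ℝ :=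
  (Finsupp.lapply n).mkContinuous 1 fun x => (le x n).trans_eq (one_mul _).symm

lemma y_apply (n : ℕ) (x : B) : y n x = x n := rfl

lemma single_le (n : ℕ) : ‖(Finsupp.single n 1 : B)‖ ≤ 1 :=
  norm_le fun S => (T_le S _).trans (by simp)

lemma ev_le (g : B →L[ℝ] ℝ) (n : ℕ) : |g (Finsupp.single n 1)| ≤ ‖g‖ :=
  g.unit_le_opNorm _ (single_le n)

open Wcr Hyper

/-- the unit vectors of `c₀` -/
noncomputable def e (k : ℕ) : V := tr (Pi.single k 1) (k + 1)

noncomputable def ev (j : ℕ) : V →ₗ[ℝ] ℝ := ⟨⟨fun x => x j, fun _ _ => rfl⟩, fun _ _ => rfl⟩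

lemma ev_e (j k : ℕ) : ev j (e k) = if j = k then 1 else 0 := by
  show ite _ _ _ = _
  rw [Pi.single_apply]
  grind

lemma dense : Dense (Submodule.span ℝ (Set.range e) : Set V) := fun z => by
  refine mem_closure_of_tendsto (f := tr z) (b := atTop) (Metric.tendsto_atTop'.2 fun ε hε => ?_)
    (.of_forall fun K => ?_)
  · obtain ⟨N, hN⟩ := eventually_atTop.1 ((zero0 z).abs.eventually_lt_const
      (show |0| < ε / 2 by simpa using hε))
    refine ⟨N, fun K hK => (dist_eq_norm _ _).trans_lt ((nle fun i => ?_).trans_lt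
      (half_lt_self hε))⟩
    show |ite _ _ _ - z i| ≤ _
    split_ifs
    · simpa using (half_pos hε).le
    · rw [zero_sub, abs_neg]
      exact (hN i (by omega)).le
  · rw [show tr z K = ∑ k ∈ range K, z k • e k from ZeroAtInftyContinuousMap.ext fun j =>
      Eq.symm ((map_sum (ev j) _ _).trans (by simp [ev_e]; rfl))]
    exact Submodule.sum_mem _ fun k _ => Submodule.smul_mem _ _ (Submodule.subset_span ⟨k, rfl⟩)

theorem spread {k : ℕ} (a : Fin k → ℝ) (n : Fin k → ℕ) (h : StrictMono n) (h' : ∀ i, k ≤ n i) :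
    ‖∑ i, a i • y (n i)‖ = ‖∑ i, a i • e i‖ := by
  have h1 : ∀ j, (∑ i, a i • y (n i)) (Finsupp.single j 1) = ∑ i, if j = n i then a i else 0 :=
    fun j => by simp [y_apply, Finsupp.single_apply]
  have h2 : ∀ j, (∑ i, a i • e i) j = ∑ i : Fin k, if j = i then a i else 0 := fun j =>
    (map_sum (ev j) _ _).trans (by simp [ev_e])
  refine le_antisymm (ContinuousLinearMap.opNorm_le_bound _ (norm_nonneg _) fun x =>
    l1' (∑ i, a i • y (n i)).toLinearMap (fun j => ?_) (univ.image n) (fun j hj => ?_)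
      (fun j hj => ?_) x) (nle fun j => ?_)
  · by_cases hj : ∃ i, j = n i
    · obtain ⟨i, rfl⟩ := hj
      refine le_trans (le_of_eq (congrArg _ ((h1 _).trans ?_))) (le0 _ i)
      simp [h2, h.injective.eq_iff, Fin.val_inj]
    · rw [ContinuousLinearMap.coe_coe, h1, sum_eq_zero fun i _ => if_neg fun e => hj ⟨i, e⟩, abs_zero]
      exact norm_nonneg _
  · obtain ⟨i, -, hi⟩ := exists_ne_zero_of_sum_ne_zero (h1 j ▸ hj)
    exact mem_image.2 ⟨i, mem_univ _, (ite_ne_right_iff.1 hi).1.symm⟩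
  · obtain ⟨i, -, rfl⟩ := mem_image.1 hj
    exact card_image_le.trans (by simpa using (h' i).trans (n i).le_succ)
  · by_cases hj : j < k
    · refine le_trans (le_of_eq (congrArg _ ((h2 _).trans ?_))) (ev_le _ (n ⟨j, hj⟩))
      rw [h1]
      exact sum_congr rfl fun i _ => by simp [h.injective.eq_iff, Fin.ext_iff]
    · rw [h2, sum_eq_zero fun i _ => if_neg (by omega), abs_zero]
      exact norm_nonneg _

noncomputable def z (n : ℕ) : V := tr (fun i => if i ≤ n then 1 else -1) (n + 2)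

lemma z_le (n : ℕ) : ‖z n‖ ≤ 1 := nle fun i => by
  show |ite _ (ite _ _ _) _| ≤ _
  split_ifs <;> simp

lemma z_sub {n m : ℕ} (h : n ≠ m) : 2 ≤ ‖z n - z m‖ := by
  refine le_trans ?_ (le0 _ (min n m + 1))
  show _ ≤ |z n _ - z m _|
  simp only [z, tr_apply]
  grind

lemma z_add (n m : ℕ) : 2 ≤ ‖z n + z m‖ := by
  refine le_trans ?_ (le0 _ 0)
  show _ ≤ |z n _ + z m _|
  simp only [z, tr_apply]
  grind

end Pool.Agent.H9.Kott
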