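import Mathlib

/-! Ideals in L-embedded spaces. -/
namespace Pool.Agent.H9.LEmb
open Filter Metric Topology Finset NormedSpace

variable {𝕜 : Type} [RCLike 𝕜]

lemma iter {E : Type} [NormedAddCommGroup E] [NormedSpace 𝕜 E] [CompleteSpace E]
    (L T : E →L[𝕜] E) (hL : ∀ a, L (L a) = L a) (hn : ∀ a, ‖a‖ = ‖L a‖ + ‖a - L a‖)
    (hT : ∀ a, T (T a) = T a) (h1 : ∀ a, ‖T a‖ ≤ ‖a‖) (F : E) (hF : T F = F) :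
    ∃ c, L c = c ∧ T c = c ∧ ∀ ω, L ω = ω → T ω = ω → ‖L F - c‖ + ‖c - ω‖ ≤ ‖L F - ω‖ := by
  have h2 : ∀ F ω, T F = F → L ω = ω → T ω = ω →
      ‖L F - L (T (L F))‖ + ‖L (T (L F)) - ω‖ ≤ ‖L F - ω‖ := fun F ω e1 e2 e3 => by
    have a1 := h1 (L F - ω)
    have a2 := h1 (F - L F)
    have a3 := hn (T (L F) - ω)
    have a4 := hn (F - T (L F))
    have a5 := norm_add_le (F - T (L F) - (L F - L (T (L F)))) (T (L F) - L (T (L F)))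
    rw [show F - T (L F) - (L F - L (T (L F))) + (T (L F) - L (T (L F))) = F - L F by abel] at a5
    simp only [map_sub, e1, e2, e3, sub_sub_sub_cancel_right] at a1 a2 a3 a4
    linarith
  let x : ℕ → E := fun n => (fun a => L (T a))^[n] (L F)
  have e1 : ∀ n, x (n + 1) = L (T (x n)) := fun n => Function.iterate_succ_apply' _ _ _
  have h3 : ∀ n ω, L ω = ω → T ω = ω → ‖x n - x (n + 1)‖ + ‖x (n + 1) - ω‖ ≤ ‖x n - ω‖ := by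
    rintro (- | n) ω e2 e3
    · exact h2 F ω hF e2 e3
    · rw [e1 (n + 1), e1]
      exact h2 _ ω (hT _) e2 e3
  obtain ⟨c, hc⟩ := cauchySeq_tendsto_of_complete (cauchySeq_of_summable_dist (f := x)
    (summable_of_sum_range_le (c := ‖x 0 - 0‖) (fun _ => dist_nonneg) fun n =>
      (sum_le_sum fun i _ => (dist_eq_norm _ _).trans_le (le_sub_iff_add_le.2
        (h3 i 0 L.map_zero T.map_zero))).trans ((sum_range_sub' (fun i => ‖x i - 0‖) n).trans_le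
          (sub_le_self _ (norm_nonneg _)))))
  have h4 : L (T c) = c := tendsto_nhds_unique (((L.continuous.comp T.continuous).tendsto c).comp
    hc) ((hc.comp (tendsto_add_atTop_nat 1)).congr e1)
  refine ⟨c, by rw [← h4, hL], sub_eq_zero.1 (norm_le_zero_iff.1 ?_), fun ω e2 e3 =>
    le_of_tendsto' ((hc.const_sub _).norm.add (hc.sub_const ω).norm) fun n => ?_⟩
  · linarith [h1 c, h4 ▸ hn (T c)]
  · induction n with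
    | zero => simp [x]
    | succ n ih => linarith [h3 n ω e2 e3, norm_sub_le_norm_sub_add_norm_sub (L F) (x n) (x (n + 1))]

variable {X : Type} [NormedAddCommGroup X] [NormedSpace 𝕜 X]

lemma hbx {K : Type} [AddCommGroup K] [Module 𝕜 K] (T : K →ₗ[𝕜] X) (φ : K →ₗ[𝕜] 𝕜)
    (h : ∀ κ, ‖φ κ‖ ≤ ‖T κ‖) : ∃ g : X →L[𝕜] 𝕜, ‖g‖ ≤ 1 ∧ ∀ κ, g (T κ) = φ κ := by
  let f := T.ker.liftQ φ (fun κ e => norm_le_zero_iff.1 ((h κ).trans_eq (norm_eq_zero.2 e))) ∘ₗ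
    T.quotKerEquivRange.symm.toLinearMap
  have h1 : ∀ κ, f ⟨T κ, κ, rfl⟩ = φ κ := fun κ => by
    simp only [f, LinearMap.comp_apply, LinearEquiv.coe_coe]
    rw [T.quotKerEquivRange_symm_apply_image κ ⟨κ, rfl⟩]
    rfl
  have h2 : ∀ q, ‖f q‖ ≤ 1 * ‖q‖ := by
    rintro ⟨_, κ, rfl⟩
    rw [h1, one_mul]
    exact h κ
  obtain ⟨g, h3, h4⟩ := exists_extension_norm_eq T.range (f.mkContinuous 1 h2)
  exact ⟨g, h4.trans_le (f.mkContinuous_norm_le zero_le_one _), fun κ =>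
    (h3 ⟨T κ, κ, rfl⟩).trans (h1 κ)⟩

/-- the canonical embedding -/
noncomputable def ι (𝕜 : Type) [RCLike 𝕜] (X : Type) [NormedAddCommGroup X] [NormedSpace 𝕜 X] :
    X →ₗᵢ[𝕜] (X →L[𝕜] 𝕜) →L[𝕜] 𝕜 := inclusionInDoubleDualLi 𝕜

lemma orth (W : Submodule 𝕜 X) {y : X} (h : ∀ w ∈ W, ‖y‖ + ‖w‖ ≤ ‖y + w‖)
    (G : (X →L[𝕜] 𝕜) →L[𝕜] 𝕜) (hG : ∀ f : X →L[𝕜] 𝕜, (∀ w ∈ W, f w = 0) → G f = 0) :
    ‖y‖ + ‖G‖ ≤ ‖ι 𝕜 X y - G‖ := by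
  have h1 : ∀ f, ‖f‖ ≤ 1 → ‖G f‖ ≤ ‖ι 𝕜 X y - G‖ - ‖y‖ := fun f hf => by
    obtain ⟨c, e1, e2⟩ := RCLike.exists_norm_eq_mul_self (G f)
    obtain ⟨g, e3, e4⟩ := hbx ((LinearMap.toSpanSingleton 𝕜 X y).coprod W.subtype)
      ((LinearMap.toSpanSingleton 𝕜 𝕜 ‖y‖).coprod ((-(c • f) : X →L[𝕜] 𝕜) ∘ₗ W.subtype))
      fun ⟨a, w⟩ => (norm_add_le_of_le (show ‖a • (‖y‖ : 𝕜)‖ ≤ ‖a‖ * ‖y‖ by simp)
        (show ‖-(c * f w)‖ ≤ ‖(w : X)‖ by simpa [e1] using f.le_of_opNorm_le hf w)).trans (by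
          show _ ≤ ‖a • y + w‖
          rcases eq_or_ne a 0 with rfl | e
          · simp
          · have := mul_le_mul_of_nonneg_left (h _ (W.smul_mem a⁻¹ w.2)) (norm_nonneg a)
            rwa [mul_add, ← norm_smul a (a⁻¹ • _), ← norm_smul a (y + _), smul_add,
              smul_inv_smul₀ e] at this)
    have e5 := hG (g + c • f) fun w hw => by
      simpa [add_eq_zero_iff_eq_neg] using e4 (0, ⟨w, hw⟩)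
    have e6 := (ι 𝕜 X y - G).unit_le_opNorm g e3
    rw [map_add, map_smul, smul_eq_mul, ← e2, add_eq_zero_iff_eq_neg] at e5
    rw [show (ι 𝕜 X y - G) g = g y - G g from rfl, e5,
      show g y = ‖y‖ by simpa using e4 (1, 0), sub_neg_eq_add, ← RCLike.ofReal_add,
      RCLike.norm_ofReal] at e6
    linarith [le_abs_self (‖y‖ + ‖G f‖)]
  linarith [G.opNorm_le_of_unit_norm ((norm_nonneg _).trans (h1 0 (by simp)))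
    fun f hf => h1 f hf.le]

lemma mem (W : Submodule 𝕜 X) (hW : IsClosed (W : Set X)) {x : X}
    (h : ∀ f : X →L[𝕜] 𝕜, (∀ w ∈ W, f w = 0) → f x = 0) : x ∈ W := by
  obtain ⟨g, -, hg⟩ := exists_dual_vector'' 𝕜 (W.mkQ x)
  have := h (g ∘L W.mkQL) fun w hw =>
    (congrArg g ((Submodule.Quotient.mk_eq_zero W).2 hw)).trans g.map_zero
  exact (Submodule.Quotient.mk_eq_zero W).1 (norm_eq_zero.1 (RCLike.ofReal_eq_zero.1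
    (hg.symm.trans this)))

theorem key (W : Submodule 𝕜 X) (hW : IsClosed (W : Set X))
    (L : ((X →L[𝕜] 𝕜) →L[𝕜] 𝕜) →L[𝕜] (X →L[𝕜] 𝕜) →L[𝕜] 𝕜) (hL : ∀ a, L (L a) = L a)
    (hX : ∀ Φ, (∃ x : X, ∀ f : X →L[𝕜] 𝕜, Φ f = f x) ↔ L Φ = Φ)
    (hn : ∀ a, ‖a‖ = ‖L a‖ + ‖a - L a‖) (P : (X →L[𝕜] 𝕜) →L[𝕜] X →L[𝕜] 𝕜)
    (hP : ∀ f, P (P f) = P f) (h1 : ‖P‖ ≤ 1) (hk : ∀ f, P f = 0 ↔ ∀ w ∈ W, f w = 0)
    (F : (X →L[𝕜] 𝕜) →L[𝕜] 𝕜) (hF : ∀ f : X →L[𝕜] 𝕜, (∀ w ∈ W, f w = 0) → F f = 0) :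
    ∃ w ∈ W, ∀ f, L F f = f w := by
  have h2 : ∀ G : (X →L[𝕜] 𝕜) →L[𝕜] 𝕜, (∀ f : X →L[𝕜] 𝕜, (∀ w ∈ W, f w = 0) → G f = 0) →
      G ∘L P = G := fun G hG => ContinuousLinearMap.ext fun f => sub_eq_zero.1
    ((G.map_sub (P f) f).symm.trans (hG _ ((hk _).1 (by rw [map_sub, hP, sub_self]))))
  obtain ⟨T, hT⟩ : ∃ T : ((X →L[𝕜] 𝕜) →L[𝕜] 𝕜) →L[𝕜] (X →L[𝕜] 𝕜) →L[𝕜] 𝕜, ∀ a, T a = a ∘L P :=
    ⟨(ContinuousLinearMap.compL 𝕜 (X →L[𝕜] 𝕜) (X →L[𝕜] 𝕜) 𝕜).flip P, fun _ => rfl⟩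
  obtain ⟨c, e1, e2, e3⟩ := iter (𝕜 := 𝕜) (E := (X →L[𝕜] 𝕜) →L[𝕜] 𝕜) L T hL hn
    (fun a => by
      rw [hT, hT]
      exact ContinuousLinearMap.ext fun f => congrArg a (hP f))
    (fun a => by
      rw [hT]
      exact (a.opNorm_comp_le P).trans (mul_le_of_le_one_right (norm_nonneg _) h1))
    F ((hT F).trans (h2 F hF))
  obtain ⟨w, hw⟩ := (hX c).2 e1
  obtain ⟨x, hx⟩ := (hX _).2 (hL F)
  have e4 : w ∈ W := mem W hW fun f hf => by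
    rw [← hw, ← e2, hT]
    exact (congrArg c ((hk f).2 hf)).trans c.map_zero
  obtain rfl : ι 𝕜 X w = c := ContinuousLinearMap.ext fun f => (hw f).symm
  have e5 : L F = ι 𝕜 X x := ContinuousLinearMap.ext hx
  have e6 := orth W (y := x - w) (fun v hv => by
    have := e3 (ι 𝕜 X (w - v)) ((hX _).1 ⟨_, fun _ => rfl⟩)
      ((hT _).trans (h2 _ fun f hf => hf _ (W.sub_mem e4 hv)))
    simp only [e5, ← (ι 𝕜 X).map_sub, (ι 𝕜 X).norm_map] at this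
    rwa [sub_sub_cancel, ← sub_add] at this)
    (F - ι 𝕜 X w) fun f hf =>
      sub_eq_zero.2 ((hF f hf).trans (hf w e4).symm)
  have e7 := hn (F - ι 𝕜 X w)
  rw [show L (F - ι 𝕜 X w) = L F - L (ι 𝕜 X w) from map_sub L _ _, e1, e5,
    sub_sub_sub_cancel_right F, ← (ι 𝕜 X).map_sub, (ι 𝕜 X).norm_map] at e7
  rw [(ι 𝕜 X).map_sub, sub_sub_sub_cancel_right (ι 𝕜 X x), norm_sub_rev (ι 𝕜 X x)] at e6
  exact ⟨w, e4, fun f => (hx f).trans (congrArg f (sub_eq_zero.1 (norm_le_zero_iff.1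
    (by linarith))))⟩

lemma fac {A B : Type} [NormedAddCommGroup A] [NormedSpace 𝕜 A] [NormedAddCommGroup B]
    [NormedSpace 𝕜 B] (J : A →ₗᵢ[𝕜] B) (L : B →L[𝕜] B) (h : ∀ a, ∃ c, J c = L (J a)) :
    ∃ Q : A →L[𝕜] A, ∀ a, J (Q a) = L (J a) :=
  ⟨J.equivRange.symm.toLinearIsometry.toContinuousLinearMap ∘L (L ∘L
    J.toContinuousLinearMap).codRestrict J.range h,
    fun _ => congrArg Subtype.val (J.equivRange.apply_symm_apply _)⟩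

theorem main (W : Submodule 𝕜 X) (L : ((X →L[𝕜] 𝕜) →L[𝕜] 𝕜) →L[𝕜] (X →L[𝕜] 𝕜) →L[𝕜] 𝕜)
    (hL : ∀ a, L (L a) = L a) (hX : ∀ Φ, (∃ x : X, ∀ f : X →L[𝕜] 𝕜, Φ f = f x) ↔ L Φ = Φ)
    (hn : ∀ a, ‖a‖ = ‖L a‖ + ‖a - L a‖) (h : ∀ F : (X →L[𝕜] 𝕜) →L[𝕜] 𝕜,
      (∀ f : X →L[𝕜] 𝕜, (∀ w ∈ W, f w = 0) → F f = 0) → ∃ w ∈ W, ∀ f, L F f = f w) :
    ∃ Q : ((W →L[𝕜] 𝕜) →L[𝕜] 𝕜) →L[𝕜] ((W →L[𝕜] 𝕜) →L[𝕜] 𝕜), Q.comp Q = Q ∧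
      (∀ Φ : (W →L[𝕜] 𝕜) →L[𝕜] 𝕜, (∃ y : W, ∀ f : W →L[𝕜] 𝕜, Φ f = f y) ↔ Q Φ = Φ) ∧
      ∀ Φ : (W →L[𝕜] 𝕜) →L[𝕜] 𝕜, ‖Φ‖ = ‖Q Φ‖ + ‖Φ - Q Φ‖ := by
  obtain ⟨r, hr⟩ : ∃ r : (X →L[𝕜] 𝕜) →L[𝕜] W →L[𝕜] 𝕜, ∀ f, r f = f ∘L W.subtypeL :=
    ⟨(ContinuousLinearMap.compL 𝕜 W X 𝕜).flip W.subtypeL, fun _ => rfl⟩
  obtain ⟨J, hJ⟩ : ∃ J : ((W →L[𝕜] 𝕜) →L[𝕜] 𝕜) →ₗᵢ[𝕜] (X →L[𝕜] 𝕜) →L[𝕜] 𝕜, ∀ Φ f, J Φ f = Φ (r f) :=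
    ⟨⟨⟨⟨(· ∘L r), fun _ _ => rfl⟩, fun _ _ => rfl⟩, fun Φ => le_antisymm
      ((Φ ∘L r).opNorm_le_bound (norm_nonneg Φ) fun f => Φ.le_opNorm_of_le (hr f ▸
        ContinuousLinearMap.opNorm_le_bound _ (norm_nonneg _) fun w => f.le_opNorm w))
      (Φ.opNorm_le_bound (norm_nonneg (Φ ∘L r)) fun f => by
        obtain ⟨g, e1, e2⟩ := exists_extension_norm_eq W f
        rw [← e2, ← show r g = f from (hr g).trans (ContinuousLinearMap.ext e1)]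
        exact (Φ ∘L r).le_opNorm g)⟩, fun _ _ => rfl⟩
  have h1 : ∀ Φ, ∃ w : W, L (J Φ) = J (ι 𝕜 W w) := fun Φ => by
    obtain ⟨w, e1, e2⟩ := h (J Φ) fun f hf => by
      rw [hJ, hr, show f ∘L W.subtypeL = 0 from ContinuousLinearMap.ext fun w => hf w w.2, map_zero]
    exact ⟨⟨w, e1⟩, ContinuousLinearMap.ext fun f => by
      rw [e2, hJ, hr]
      rfl⟩
  obtain ⟨Q, hQ⟩ : ∃ Q : ((W →L[𝕜] 𝕜) →L[𝕜] 𝕜) →L[𝕜] (W →L[𝕜] 𝕜) →L[𝕜] 𝕜, ∀ Φ, J (Q Φ) = L (J Φ) :=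
    fac (𝕜 := 𝕜) (A := (W →L[𝕜] 𝕜) →L[𝕜] 𝕜) (B := (X →L[𝕜] 𝕜) →L[𝕜] 𝕜) J L
      fun Φ => (h1 Φ).elim fun _ e => ⟨_, e.symm⟩
  refine ⟨Q, ContinuousLinearMap.ext fun Φ => J.injective ?_, fun Φ => ⟨fun ⟨y, e⟩ =>
    J.injective ((hQ Φ).trans ((hX _).1 ⟨y, fun f => by
      rw [hJ, e, hr]
      rfl⟩)), fun e => (h1 Φ).imp fun y hy f => ?_⟩, fun Φ => ?_⟩
  · rw [ContinuousLinearMap.comp_apply, hQ, hQ, hL]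
  · rw [← hQ, e] at hy
    rw [show Φ = ι 𝕜 W y from J.injective hy]
    rfl
  · rw [← J.norm_map Φ, ← J.norm_map (Q Φ), ← J.norm_map (Φ - _), J.map_sub, hQ, ← hn]

end Pool.Agent.H9.LEmb
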