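import Mathlib

/-! Integer-valued measurable functions with convergence in measure: every endomorphism of the
underlying abstract group is continuous, and the group is connected. -/
namespace Pool.Agent.H9.LZero
open MeasureTheory Filter Topology Set

noncomputable abbrev mu : Measure ℝ := volume.restrict (Icc 0 1)

abbrev L0 := ℝ →ₘ[mu] ℤ

lemma mono {s t : Set ℝ} (h : ∀ᵐ x ∂mu, x ∈ s → x ∈ t) : mu.real s ≤ mu.real t :=
  ENNReal.toReal_mono (measure_ne_top _ _) (measure_mono_ae h)

lemma mono2 {s t r : Set ℝ} (h : ∀ᵐ x ∂mu, x ∈ s → x ∈ t ∪ r) :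
    mu.real s ≤ mu.real t + mu.real r := (mono h).trans (measureReal_union_le _ _)

noncomputable def nn : AddGroupNorm L0 where
  toFun f := mu.real {x | f x ≠ 0}
  map_zero' := le_antisymm ((mono (s := {x | (0 : L0) x ≠ 0}) (t := ∅)
    (AEEqFun.coeFn_zero.mono fun x hx h => h hx)).trans_eq measureReal_empty) measureReal_nonneg
  add_le' f g := mono2 ((f.coeFn_add g).mono fun x hx h => by
    by_contra hn
    simp only [mem_union, mem_ofPred, not_or, not_not] at hn
    exact h (by rw [hx, Pi.add_apply, hn.1, hn.2, add_zero]))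
  neg' f := measureReal_congr (f.coeFn_neg.mono fun x hx => by
    show (_ ≠ _) = (_ ≠ _)
    rw [hx]; simp)
  eq_zero_of_map_eq_zero' f h := AEEqFun.ext (Filter.EventuallyEq.trans
    ((measureReal_eq_zero_iff (measure_ne_top _ _)).1 h) AEEqFun.coeFn_zero.symm)

def L := L0

noncomputable instance : NormedAddCommGroup L := nn.toNormedAddCommGroup

noncomputable def ev (f : L) : ℝ → ℤ := AEEqFun.cast f

noncomputable def mk (f : ℝ → ℤ) (h : AEStronglyMeasurable f mu) : L := AEEqFun.mk f h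

lemma norm_def (f : L) : ‖f‖ = mu.real {x | ev f x ≠ 0} := rfl

lemma norm_sub_def (f g : L) : ‖f - g‖ = mu.real {x | ev f x ≠ ev g x} :=
  (norm_def _).trans (measureReal_congr ((AEEqFun.coeFn_sub (show L0 from f) g).mono fun x hx => by
    show (ev (f - g) x ≠ 0) = (ev f x ≠ ev g x)
    rw [show ev (f - g) x = ev f x - ev g x from hx, sub_ne_zero]))

lemma ev_smul (a : ℤ) (f : L) : ∀ᵐ x ∂mu, ev (a • f) x = a * ev f x :=
  AEEqFun.coeFn_smul a (show L0 from f)

lemma norm_smul_le (a : ℤ) (f : L) : ‖a • f‖ ≤ ‖f‖ := by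
  rw [norm_def, norm_def]
  exact mono ((ev_smul a f).mono fun x hx h h' => h (by rw [hx, h', mul_zero]))

lemma norm_smul_ge {a : ℤ} (ha : a ≠ 0) (f : L) : ‖f‖ ≤ ‖a • f‖ := by
  rw [norm_def, norm_def]
  exact mono ((ev_smul a f).mono fun x hx h h' =>
    h ((mul_eq_zero.1 (hx.symm.trans h')).resolve_left ha))

instance : CompleteSpace L := NormedAddCommGroup.completeSpace_of_summable_imp_tendsto fun u hu => by
  have h1 : ∀ᵐ x ∂mu, ∀ᶠ n in atTop, x ∉ {x | ev (u n) x ≠ 0} := ae_eventually_notMem (by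
    have : ∀ n, mu {x | ev (u n) x ≠ 0} = ENNReal.ofReal ‖u n‖ := fun n =>
      (ofReal_measureReal (measure_ne_top _ _)).symm
    simp only [this]
    exact hu.tsum_ofReal_ne_top)
  have h2 : ∀ᵐ x ∂mu, ∀ n, ev (∑ i ∈ Finset.range n, u i) x = ∑ i ∈ Finset.range n, ev (u i) x :=
    ae_all_iff.2 fun n => AEEqFun.coeFn_fun_finsetSum (Finset.range n) (show ℕ → L0 from u)
  have h3 : ∀ᵐ x ∂mu, Tendsto (fun n => ev (∑ i ∈ Finset.range n, u i) x) atTop
      (𝓝 (∑' i, ev (u i) x)) := by
    filter_upwards [h1, h2] with x e1 e2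
    simp only [e2]
    rw [← Nat.cofinite_eq_atTop] at e1
    exact (summable_of_hasFiniteSupport (show {i | ¬ ev (u i) x = 0}.Finite by simpa using e1)).hasSum.tendsto_sum_nat
  have h4 : ∀ n, AEStronglyMeasurable (ev (∑ i ∈ Finset.range n, u i)) mu := fun n =>
    AEEqFun.aestronglyMeasurable _
  have h5 := aestronglyMeasurable_of_tendsto_ae _ h4 h3
  refine ⟨mk _ h5, tendsto_iff_norm_sub_tendsto_zero.2 ?_⟩
  have h6 := (ENNReal.tendsto_toReal ENNReal.zero_ne_top).comp
    (tendstoInMeasure_of_tendsto_ae h4 h3 1 one_pos)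
  refine squeeze_zero (fun _ => norm_nonneg _) (fun n => ?_) h6
  rw [norm_sub_def]
  refine mono ((AEEqFun.coeFn_mk _ h5).mono fun x hx h => ?_)
  show 1 ≤ edist _ _
  rw [edist_dist, ENNReal.one_le_ofReal, Int.dist_eq]
  exact_mod_cast Int.one_le_abs (sub_ne_zero.2 fun h' => h (h'.trans hx.symm))

noncomputable def big (u : L) (a : ℕ) : ℝ := mu.real {x | (a : ℤ) ≤ 2 * |ev u x|}

lemma big_small (u : L) {e : ℝ} (he : 0 < e) : ∃ N, ∀ a ≥ N, big u a ≤ e := by
  have h := tendsto_measure_iInter_atTop (μ := mu) (s := fun a : ℕ => {x | (a : ℤ) ≤ 2 * |ev u x|})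
    (fun a => (AEEqFun.aemeasurable (show L0 from u)).nullMeasurable
      (show MeasurableSet {z : ℤ | (a : ℤ) ≤ 2 * |z|} from trivial))
    (fun a b h x hx => (Int.ofNat_le.2 h).trans hx) ⟨0, measure_ne_top _ _⟩
  rw [show (⋂ a : ℕ, {x | (a : ℤ) ≤ 2 * |ev u x|}) = ∅ from eq_empty_of_forall_notMem fun x hx => by
    have := mem_iInter.1 hx ((2 * |ev u x|).natAbs + 1)
    simp only [mem_ofPred] at this
    omega, measure_empty] at h
  exact eventually_atTop.1 (((ENNReal.tendsto_toReal ENNReal.zero_ne_top).comp h).eventually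
    (ge_mem_nhds he))

lemma close (u v w : L) (a : ℕ) (h : u = v + (a : ℤ) • w) : ‖u - v‖ ≤ big u a + big v a := by
  rw [norm_sub_def]
  refine mono2 ?_
  filter_upwards [ev_smul a w, AEEqFun.coeFn_add (show L0 from v) ((a : ℤ) • w)] with x h1 h2 h3
  have h4 : ev u x = ev v x + a * ev w x := by rw [h, ← h1]; exact h2
  have h5 : (a : ℤ) ≤ |ev u x - ev v x| :=
    Int.le_of_dvd (abs_pos.2 (sub_ne_zero.2 h3)) ((dvd_abs _ _).2 ⟨ev w x, by omega⟩)
  have h6 := abs_sub (ev u x) (ev v x)
  simp only [mem_union, mem_ofPred]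
  omega

theorem cont (φ : L →+ L) : Continuous φ := by
  refine continuous_of_continuousAt_zero φ (Metric.continuousAt_iff.2 fun e he => ?_)
  by_contra hn
  simp only [not_exists, not_and, not_forall, map_zero, dist_zero_right, not_lt] at hn
  choose f h1 h2 using fun n : ℕ => hn ((1 / 2) ^ n) (by positivity)
  choose N hN using fun u => big_small u (show 0 < e / 5 by positivity)
  let p : ℕ → ℕ × L := fun k => k.rec (1, 0) fun k q =>
    (q.1 * (N (φ (q.2 + (q.1 : ℤ) • f k)) + k + 1), q.2 + (q.1 : ℤ) • f k)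
  have e1 : ∀ k, (p (k + 1)).1 = (p k).1 * (N (φ (p (k + 1)).2) + k + 1) := fun _ => rfl
  have e2 : ∀ k, (p (k + 1)).2 = (p k).2 + ((p k).1 : ℤ) • f k := fun _ => rfl
  have e0 : (p 0).2 = 0 := rfl
  have e3 : ∀ k, 0 < (p k).1 := fun k => by
    induction k with
    | zero => exact one_pos
    | succ k ih => rw [e1]; positivity
  generalize p = p at *
  have e4 : ∀ k, (p k).2 = ∑ i ∈ Finset.range k, ((p i).1 : ℤ) • f i := fun k => by
    induction k with
    | zero => exact e0
    | succ k ih => rw [e2, ih, Finset.sum_range_succ]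
  have e5 : ∀ k n, (p k).1 ∣ (p (n + k)).1 := fun k n => by
    induction n with
    | zero => simp
    | succ n ih => rw [Nat.add_right_comm, e1]; exact ih.mul_right _
  have hs : ∀ (k : ℕ) (c : ℕ → ℤ), Summable fun n => c n • f (n + k) := fun k c =>
    Summable.of_norm_bounded ((summable_nat_add_iff k).2 summable_geometric_two) fun n =>
      (norm_smul_le _ _).trans (h1 _).le
  have e6 : ∀ k, ∃ w, ∑' n, ((p n).1 : ℤ) • f n = (p k).2 + ((p k).1 : ℤ) • w := fun k => by
    choose c hc using e5 k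
    refine ⟨∑' n, (c n : ℤ) • f (n + k), ?_⟩
    rw [← (hs k _).tsum_const_smul, e4, ← Summable.sum_add_tsum_nat_add
      (f := fun n => ((p n).1 : ℤ) • f n) k (hs 0 _)]
    simp only [hc, smul_smul, Nat.cast_mul]
  generalize ∑' n, ((p n).1 : ℤ) • f n = H at e6
  have e7 : ∀ k ≥ N (φ H), ‖φ H - φ (p (k + 1)).2‖ ≤ e / 5 + e / 5 := fun k hk => by
    obtain ⟨w, hw⟩ := e6 (k + 1)
    have := (Nat.le_mul_of_pos_left _ (e3 k)).trans_eq (e1 k).symm
    exact (close _ _ (φ w) _ (by rw [hw, map_add, map_zsmul])).trans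
      (add_le_add (hN _ _ (by omega)) (hN _ _ (by omega)))
  have e8 := e7 _ le_rfl
  have e9 := e7 _ (Nat.le_succ _)
  have e10 := norm_sub_le (φ H - φ (p (N (φ H) + 1)).2) (φ H - φ (p (N (φ H) + 1 + 1)).2)
  rw [sub_sub_sub_cancel_left, e2 (N (φ H) + 1), map_add, add_sub_cancel_left, map_zsmul,
    ← map_zsmul, ← map_add, ← e2] at e10
  have e11 := (h2 _).trans (norm_smul_ge (Nat.cast_ne_zero.2 (e3 (N (φ H) + 1)).ne')
    (φ (f (N (φ H) + 1))))
  rw [← map_zsmul] at e11
  linarith

noncomputable def ga (t : ℝ) : L := mk ((Iic t).indicator fun _ => (1 : ℤ))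
  (aestronglyMeasurable_const.indicator measurableSet_Iic)

lemma ev_ga (t : ℝ) : ∀ᵐ x ∂mu, ev (ga t) x = if x ≤ t then 1 else 0 :=
  (AEEqFun.coeFn_mk _ _).mono fun x hx => hx.trans (by simp [indicator])

lemma cont_ga : Continuous ga := by
  refine LipschitzWith.continuous (K := 1) (LipschitzWith.of_dist_le_mul fun s t => ?_)
  rw [dist_eq_norm, norm_sub_def]
  refine (mono (t := uIcc s t) ?_).trans ?_
  · filter_upwards [ev_ga s, ev_ga t] with x h1 h2 h3
    simp only [h1, h2] at h3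
    rw [mem_uIcc]
    split_ifs at h3 with h4 h5 h5 <;> simp at h3 <;> grind
  · refine (ENNReal.toReal_mono (by simp) (Measure.restrict_apply_le _ _)).trans ?_
    simp [Real.dist_eq, abs_sub_comm]

lemma ga_ne : ga 1 - ga 0 ≠ 0 := fun h => by
  have h1 : mu.real (Ioc 0 1) ≤ ‖ga 1 - ga 0‖ := by
    rw [norm_sub_def]
    refine mono ?_
    filter_upwards [ev_ga 1, ev_ga 0] with x h1 h2 h3
    simp [h1, h2, h3.2, h3.1]
  rw [h, norm_zero, measureReal_restrict_apply measurableSet_Ioc,
    inter_eq_left.2 Ioc_subset_Icc_self] at h1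
  norm_num at h1

noncomputable def T (G : Type) [AddCommGroup G] : AddGroupTopology G where
  toTopologicalSpace := ⨅ f : G →+ L, TopologicalSpace.induced f inferInstance
  toIsTopologicalAddGroup := topologicalAddGroup_iInf fun f => topologicalAddGroup_induced f

lemma T_cont (G H : Type) [AddCommGroup G] [AddCommGroup H] (f : G →+ H) :
    @Continuous G H (T G).toTopologicalSpace (T H).toTopologicalSpace f :=
  continuous_iInf_rng.mpr fun g => continuous_induced_rng.mpr
    (continuous_iInf_dom (i := g.comp f) continuous_induced_dom)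

lemma T_eq : (T L).toTopologicalSpace = (inferInstance : TopologicalSpace L) :=
  le_antisymm (iInf_le_of_le (AddMonoidHom.id L) induced_id.le)
    (le_iInf fun f => continuous_iff_le_induced.mp (cont f))

instance : Infinite L := Infinite.of_injective (fun n : ℤ => n • (ga 1 - ga 0)) fun a b h => by
  by_contra hn
  have := norm_smul_ge (sub_ne_zero.2 hn) (ga 1 - ga 0)
  rw [sub_smul, sub_eq_zero.2 h, norm_zero] at this
  exact ga_ne (norm_le_zero_iff.1 this)

theorem no_basis (B : Set (Set L)) (hB : TopologicalSpace.IsTopologicalBasis B)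
    (h : ∀ s ∈ B, IsClopen s) : False := by
  obtain ⟨s, h1, h2, h3⟩ := hB.exists_subset_of_mem_open (a := ga 1) (u := {ga 0}ᶜ)
    (sub_ne_zero.1 ga_ne) isOpen_compl_singleton
  rcases isClopen_iff.1 ((h s h1).preimage cont_ga) with h4 | h4
  · exact (h4.subset h2 : (1 : ℝ) ∈ (∅ : Set ℝ))
  · exact h3 (h4.superset (mem_univ 0)) rfl

end Pool.Agent.H9.LZero
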