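import Mathlib

set_option autoImplicit false

namespace Pool.Agent.H9.Lie2

abbrev S := Σ n : ℕ, Fin n

def L := (S →₀ ℂ) × (S → ℂ) × ((S ⊕ S) → (S ⊕ S) → ℂ) × ℂ

noncomputable instance : AddCommGroup L :=
  inferInstanceAs (AddCommGroup ((S →₀ ℂ) × (S → ℂ) × ((S ⊕ S) → (S ⊕ S) → ℂ) × ℂ))

noncomputable instance : Module ℂ L :=
  inferInstanceAs (Module ℂ ((S →₀ ℂ) × (S → ℂ) × ((S ⊕ S) → (S ⊕ S) → ℂ) × ℂ))

def ev (x : L) (t : S ⊕ S) : ℂ := Sum.elim (fun s => x.1 s) x.2.1 t

def blk (t : S ⊕ S) : ℕ := Sum.elim (fun s => s.1) (fun s => s.1) t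

noncomputable def p (a : S →₀ ℂ) (b : S → ℂ) : ℂ := a.sum fun s c => c * b s

lemma p_add_left (a a' : S →₀ ℂ) (b : S → ℂ) : p (a + a') b = p a b + p a' b := by
  unfold p
  rw [Finsupp.sum_add_index']
  · intro s; simp
  · intro s c c'; ring

lemma p_add_right (a : S →₀ ℂ) (b b' : S → ℂ) : p a (b + b') = p a b + p a b' := by
  unfold p Finsupp.sum
  rw [← Finset.sum_add_distrib]
  refine Finset.sum_congr rfl fun s _ => ?_
  simp [mul_add]

lemma p_smul_left (t : ℂ) (a : S →₀ ℂ) (b : S → ℂ) : p (t • a) b = t * p a b := by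
  unfold p
  rw [Finsupp.sum_smul_index']
  · unfold Finsupp.sum
    rw [Finset.mul_sum]
    refine Finset.sum_congr rfl fun s _ => ?_
    simp [mul_assoc]
  · intro s; simp

lemma p_smul_right (t : ℂ) (a : S →₀ ℂ) (b : S → ℂ) : p a (t • b) = t * p a b := by
  unfold p Finsupp.sum
  rw [Finset.mul_sum]
  refine Finset.sum_congr rfl fun s _ => ?_
  simp; ring

lemma p_zero_left (b : S → ℂ) : p 0 b = 0 := by simp [p]

lemma p_zero_right (a : S →₀ ℂ) : p a 0 = 0 := by simp [p]

lemma p_single (a : S →₀ ℂ) (s : S) : p a (Pi.single s 1) = a s := by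
  unfold p Finsupp.sum
  rw [Finset.sum_eq_single s]
  · simp
  · intro t _ hts; simp [hts]
  · intro h; simp at h; simp [h]

noncomputable def br (x y : L) : L :=
  ((0, 0, fun t u => if blk t = blk u then 0 else ev x t * ev y u - ev y t * ev x u,
    p x.1 y.2.1 - p y.1 x.2.1) : (S →₀ ℂ) × (S → ℂ) × ((S ⊕ S) → (S ⊕ S) → ℂ) × ℂ)

lemma ext' {x y : L} (h1 : x.1 = y.1) (h2 : x.2.1 = y.2.1) (h3 : x.2.2.1 = y.2.2.1)
    (h4 : x.2.2.2 = y.2.2.2) : x = y :=
  Prod.ext h1 (Prod.ext h2 (Prod.ext h3 h4))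

lemma add1 (x y : L) : (x + y).1 = x.1 + y.1 := rfl
lemma add2 (x y : L) : (x + y).2.1 = x.2.1 + y.2.1 := rfl
lemma add3 (x y : L) : (x + y).2.2.1 = x.2.2.1 + y.2.2.1 := rfl
lemma add4 (x y : L) : (x + y).2.2.2 = x.2.2.2 + y.2.2.2 := rfl
lemma smul1 (t : ℂ) (x : L) : (t • x).1 = t • x.1 := rfl
lemma smul2 (t : ℂ) (x : L) : (t • x).2.1 = t • x.2.1 := rfl
lemma smul3 (t : ℂ) (x : L) : (t • x).2.2.1 = t • x.2.2.1 := rfl
lemma smul4 (t : ℂ) (x : L) : (t • x).2.2.2 = t • x.2.2.2 := rfl
lemma zero1 : (0 : L).1 = 0 := rfl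
lemma zero2 : (0 : L).2.1 = 0 := rfl
lemma zero3 : (0 : L).2.2.1 = 0 := rfl
lemma zero4 : (0 : L).2.2.2 = 0 := rfl
lemma br1 (x y : L) : (br x y).1 = 0 := rfl
lemma br2 (x y : L) : (br x y).2.1 = 0 := rfl
lemma br3 (x y : L) : (br x y).2.2.1 =
  fun t u => if blk t = blk u then 0 else ev x t * ev y u - ev y t * ev x u := rfl
lemma br4 (x y : L) : (br x y).2.2.2 = p x.1 y.2.1 - p y.1 x.2.1 := rfl

lemma ev_add (x y : L) (t : S ⊕ S) : ev (x + y) t = ev x t + ev y t := by
  cases t <;> simp [ev, add1, add2]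

lemma ev_smul (c : ℂ) (x : L) (t : S ⊕ S) : ev (c • x) t = c * ev x t := by
  cases t <;> simp [ev, smul1, smul2]

lemma ev_zero (t : S ⊕ S) : ev 0 t = 0 := by
  cases t <;> simp [ev, zero1, zero2]

lemma br_of_left (x y : L) (h1 : x.1 = 0) (h2 : x.2.1 = 0) : br x y = 0 := by
  have : ∀ t, ev x t = 0 := by
    intro t; cases t <;> simp [ev, h1, h2]
  apply ext'
  · rfl
  · rfl
  · rw [br3, zero3]; funext t u; simp [this]
  · rw [br4, zero4, h1, h2, p_zero_left, p_zero_right]; simp

lemma br_of_right (x y : L) (h1 : y.1 = 0) (h2 : y.2.1 = 0) : br x y = 0 := by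
  have : ∀ t, ev y t = 0 := by
    intro t; cases t <;> simp [ev, h1, h2]
  apply ext'
  · rfl
  · rfl
  · rw [br3, zero3]; funext t u; simp [this]
  · rw [br4, zero4, h1, h2, p_zero_left, p_zero_right]; simp

noncomputable instance : LieRing L where
  bracket := br
  add_lie x y z := by
    show br (x + y) z = br x z + br y z
    apply ext'
    · simp [add1, br1]
    · simp [add2, br2]
    · rw [add3, br3, br3, br3]; funext t u
      simp only [Pi.add_apply, ev_add]
      split_ifs <;> ring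
    · rw [add4, br4, br4, br4, add1, add2, p_add_left, p_add_right]; ring
  lie_add x y z := by
    show br x (y + z) = br x y + br x z
    apply ext'
    · simp [add1, br1]
    · simp [add2, br2]
    · rw [add3, br3, br3, br3]; funext t u
      simp only [Pi.add_apply, ev_add]
      split_ifs <;> ring
    · rw [add4, br4, br4, br4, add1, add2, p_add_left, p_add_right]; ring
  lie_self x := by
    show br x x = 0
    apply ext'
    · rfl
    · rfl
    · rw [br3, zero3]; funext t u; simp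
    · rw [br4, zero4]; simp
  leibniz_lie x y z := by
    show br x (br y z) = br (br x y) z + br y (br x z)
    rw [br_of_right x (br y z) rfl rfl, br_of_left (br x y) z rfl rfl,
      br_of_right y (br x z) rfl rfl, add_zero]

lemma lie_eq (x y : L) : ⁅x, y⁆ = br x y := rfl

noncomputable instance : LieAlgebra ℂ L where
  lie_smul c x y := by
    show br x (c • y) = c • br x y
    apply ext'
    · simp [smul1, br1]
    · simp [smul2, br2]
    · rw [smul3, br3, br3]; funext t u
      simp only [Pi.smul_apply, ev_smul, smul_eq_mul]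
      split_ifs <;> ring
    · rw [smul4, br4, br4, smul1, smul2, p_smul_left, p_smul_right, smul_eq_mul]; ring

noncomputable def E (s : S) : L :=
  ((Finsupp.single s 1, 0, 0, 0) : (S →₀ ℂ) × (S → ℂ) × ((S ⊕ S) → (S ⊕ S) → ℂ) × ℂ)

noncomputable def F (s : S) : L :=
  ((0, Pi.single s 1, 0, 0) : (S →₀ ℂ) × (S → ℂ) × ((S ⊕ S) → (S ⊕ S) → ℂ) × ℂ)

noncomputable def w0 : L :=
  ((0, 0, 0, 1) : (S →₀ ℂ) × (S → ℂ) × ((S ⊕ S) → (S ⊕ S) → ℂ) × ℂ)

noncomputable def G (t : S ⊕ S) : L := Sum.elim E F t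

lemma ev_G (t u : S ⊕ S) : ev (G t) u = if t = u then 1 else 0 := by
  cases t <;> cases u <;> simp [ev, G, E, F, Finsupp.single_apply, Pi.single_apply, eq_comm]

/-- `ev` as a linear map -/
noncomputable def evL (t : S ⊕ S) : L →ₗ[ℂ] ℂ where
  toFun x := ev x t
  map_add' x y := ev_add x y t
  map_smul' c x := ev_smul c x t

lemma central_of_ev (z : L) (h : ∀ t, ev z t = 0) (u : L) : ⁅z, u⁆ = 0 := by
  apply br_of_left
  · ext s; exact h (Sum.inl s)
  · funext s; exact h (Sum.inr s)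

def inb (n : ℕ) (i : Fin n ⊕ Fin n) : S ⊕ S := Sum.map (fun j => ⟨n, j⟩) (fun j => ⟨n, j⟩) i

lemma inb_inj (n : ℕ) : Function.Injective (inb n) := by
  intro i j h
  cases i <;> cases j <;> simp_all [inb]

lemma blk_inb (n : ℕ) (i : Fin n ⊕ Fin n) : blk (inb n i) = n := by
  cases i <;> simp [blk, inb]

lemma exists_inb (t : S ⊕ S) : ∃ i, inb (blk t) i = t := by
  cases t with
  | inl s => exact ⟨Sum.inl s.2, rfl⟩
  | inr s => exact ⟨Sum.inr s.2, rfl⟩

theorem centralizer (x : L) (hx : ∃ y : L, ⁅x, y⁆ ≠ 0) :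
    ∃ W : Submodule ℂ L, FiniteDimensional ℂ W ∧
      ∀ y : L, ⁅x, y⁆ = 0 → ∃ w ∈ W, ∃ z : L, (∀ u : L, ⁅z, u⁆ = 0) ∧ y = w + z := by
  classical
  obtain ⟨y0, hy0⟩ := hx
  have : ∃ t0, ev x t0 ≠ 0 := by
    by_contra h
    push Not at h
    exact hy0 (central_of_ev x h y0)
  obtain ⟨t0, ht0⟩ := this
  set n := blk t0 with hn
  let f : Option (Fin n ⊕ Fin n) → L := fun o => o.elim x (fun i => G (inb n i))
  refine ⟨Submodule.span ℂ (Set.range f), FiniteDimensional.span_of_finite ℂ (Set.finite_range f), ?_⟩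
  intro y hy
  set lam := ev y t0 / ev x t0 with hlam
  have key : ∀ u, blk u ≠ n → ev y u = lam * ev x u := by
    intro u hu
    have h3 := congrArg (fun q : L => q.2.2.1 t0 u) hy
    simp only [lie_eq, br3, zero3, Pi.zero_apply] at h3
    rw [if_neg (fun h => hu (by rw [← h]))] at h3
    rw [hlam]
    field_simp
    linear_combination h3
  let w : L := lam • x + ∑ i : Fin n ⊕ Fin n, (ev y (inb n i) - lam * ev x (inb n i)) • G (inb n i)
  refine ⟨w, ?_, y - w, ?_, by abel⟩
  · apply Submodule.add_mem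
    · exact Submodule.smul_mem _ _ (Submodule.subset_span ⟨none, rfl⟩)
    · apply Submodule.sum_mem
      intro i _
      exact Submodule.smul_mem _ _ (Submodule.subset_span ⟨some i, rfl⟩)
  · apply central_of_ev
    intro t
    show evL t (y - w) = 0
    rw [map_sub, map_add, map_smul, map_sum]
    simp only [map_smul, smul_eq_mul]
    show ev y t - (lam * ev x t + ∑ i, (ev y (inb n i) - lam * ev x (inb n i)) * ev (G (inb n i)) t) = 0
    simp only [ev_G]
    by_cases ht : blk t = n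
    · obtain ⟨i, hi⟩ : ∃ i, inb n i = t := by
        have := exists_inb t
        rw [ht] at this
        exact this
      rw [Finset.sum_eq_single i]
      · rw [hi]; simp
      · intro j _ hj
        rw [if_neg]
        · simp
        · intro h; exact hj (inb_inj n (h.trans hi.symm))
      · simp
    · rw [Finset.sum_eq_zero]
      · rw [key t ht]; ring
      · intro j _
        rw [if_neg]
        · simp
        · intro h; apply ht; rw [← h, blk_inb]

theorem w0_mem (I : LieIdeal ℂ L) [FiniteDimensional ℂ (L ⧸ (I : Submodule ℂ L))] : w0 ∈ I := by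
  classical
  set d := Module.finrank ℂ (L ⧸ (I : Submodule ℂ L))
  let n := d + 1
  let φ : (Fin n → ℂ) →ₗ[ℂ] L := Fintype.linearCombination ℂ (fun i : Fin n => E ⟨n, i⟩)
  let ψ := (Submodule.mkQ (I : Submodule ℂ L)).comp φ
  have hker : LinearMap.ker ψ ≠ ⊥ := by
    apply LinearMap.ker_ne_bot_of_finrank_lt
    rw [Module.finrank_fin_fun]
    exact Nat.lt_succ_self d
  obtain ⟨c, hc, hc0⟩ := Submodule.exists_mem_ne_zero_of_ne_bot hker
  have hmem : φ c ∈ I := by
    have : (Submodule.mkQ (I : Submodule ℂ L)) (φ c) = 0 := hc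
    rw [Submodule.mkQ_apply, Submodule.Quotient.mk_eq_zero] at this
    exact this
  obtain ⟨i, hi⟩ : ∃ i, c i ≠ 0 := by
    by_contra h; push Not at h; exact hc0 (funext h)
  have hev : ∀ t, ev (φ c) t = ∑ j : Fin n, c j * (if Sum.inl (⟨n, j⟩ : S) = t then 1 else 0) := by
    intro t
    show evL t (φ c) = _
    simp only [φ, Fintype.linearCombination_apply, map_sum, map_smul, smul_eq_mul]
    refine Finset.sum_congr rfl fun j _ => ?_
    congr 1
    exact ev_G (Sum.inl ⟨n, j⟩) t
  have h2 : (φ c).2.1 = 0 := by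
    funext s
    have := hev (Sum.inr s)
    simpa [ev] using this
  have h1 : (φ c).1 ⟨n, i⟩ = c i := by
    have := hev (Sum.inl ⟨n, i⟩)
    rw [Finset.sum_eq_single i] at this
    · simpa [ev] using this
    · intro j _ hj
      rw [if_neg]
      · simp
      · intro h; apply hj; simpa using h
    · simp
  have hbr : ⁅φ c, F ⟨n, i⟩⁆ = c i • w0 := by
    rw [lie_eq]
    apply ext'
    · rw [br1, smul1]; simp [w0]
    · rw [br2, smul2]; simp [w0]
    · rw [br3, smul3]; funext t u
      have hz : ∀ t, blk t ≠ n → ev (φ c) t = 0 := by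
        intro t ht
        rw [hev, Finset.sum_eq_zero]
        intro j _
        rw [if_neg]
        · simp
        · intro h; apply ht; rw [← h]; rfl
      have hz2 : ∀ t, blk t ≠ n → ev (F ⟨n, i⟩) t = 0 := by
        intro t ht
        have := ev_G (Sum.inr ⟨n, i⟩) t
        rw [if_neg] at this
        · exact this
        · intro h; apply ht; rw [← h]; rfl
      have : (c i • w0.2.2.1) t u = 0 := by simp [w0]
      rw [this]
      split_ifs with h
      · rfl
      · by_cases ht : blk t = n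
        · have hu : blk u ≠ n := fun hu => h (ht.trans hu.symm)
          rw [hz u hu, hz2 u hu]; ring
        · rw [hz t ht, hz2 t ht]; ring
    · rw [br4, smul4, h2, p_zero_right]
      have : (F ⟨n, i⟩).2.1 = Pi.single (⟨n, i⟩ : S) (1 : ℂ) := rfl
      rw [this, p_single, h1]
      simp [w0]
  have : c i • w0 ∈ I := by
    rw [← hbr]
    exact lie_mem_left ℂ L I _ _ hmem
  have h3 : (c i)⁻¹ • (c i • w0) ∈ I := (I : Submodule ℂ L).smul_mem _ this
  rwa [smul_smul, inv_mul_cancel₀ hi, one_smul] at h3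

lemma w0_ne : w0 ≠ 0 := by
  intro h
  have := congrArg (fun q : L => q.2.2.2) h
  simp [w0, zero4] at this

lemma nilp (x y z : L) : ⁅x, ⁅y, z⁆⁆ = 0 := br_of_right x (br y z) rfl rfl

end Pool.Agent.H9.Lie2
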