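import Mathlib

/-! A hyperplane of `ℂ ⊕∞ c` whose dual is `ℂ ⊕₁ ℓ₁`. -/
namespace Pool.Agent.H9.NI2
open Filter Topology ContinuousLinearMap Finset
open scoped InnerProductSpace

/-- the defining functional -/
noncomputable def F0 : ℂ × C(OnePoint ℕ, ℝ) →L[ℝ] ℝ :=
  ContinuousMap.evalCLM ℝ OnePoint.infty ∘L .snd ℝ _ _ -
    (1 / 20 : ℝ) • Complex.reCLM ∘L .fst ℝ _ _

/-- the space -/
def X : Type := F0.ker

noncomputable instance : NormedAddCommGroup X := inferInstanceAs (NormedAddCommGroup F0.ker)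
noncomputable instance : NormedSpace ℝ X := inferInstanceAs (NormedSpace ℝ F0.ker)
instance : CompleteSpace X := F0.isClosed_ker.completeSpace_coe

noncomputable def H : X →L[ℝ] ℂ := .fst ℝ _ _ ∘L F0.ker.subtypeL
noncomputable def d (k : ℕ) : X →L[ℝ] ℝ :=
  ContinuousMap.evalCLM ℝ (k : OnePoint ℕ) ∘L .snd ℝ _ _ ∘L F0.ker.subtypeL

lemma lim (x : X) : Tendsto (fun k => d k x) atTop (𝓝 (1 / 20 * (H x).re)) :=
  (sub_eq_zero.1 x.2 : x.1.2 OnePoint.infty = 1 / 20 * (H x).re) ▸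
    (OnePoint.continuous_iff_from_nat _).1 x.1.2.continuous

/-- points -/
noncomputable def mk (h : ℂ) (f : ℕ → ℝ) (e : Tendsto f atTop (𝓝 (1 / 20 * h.re))) : X :=
  ⟨(h, OnePoint.continuousMapMkNat f _ e), sub_self (1 / 20 * h.re)⟩

@[simp] lemma H_mk (h f e) : H (mk h f e) = h := rfl
@[simp] lemma d_mk (h f e k) : d k (mk h f e) = f k := rfl

lemma H_le (x : X) : ‖H x‖ ≤ ‖x‖ := norm_fst_le x.1
lemma d_le (k) (x : X) : |d k x| ≤ ‖x‖ := (x.1.2.norm_coe_le_norm _).trans (norm_snd_le x.1)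

lemma nle {x : X} {r : ℝ} (h : ‖H x‖ ≤ r) (h1 : ∀ k, |d k x| ≤ r) : ‖x‖ ≤ r :=
  max_le h ((x.1.2.norm_le ((norm_nonneg _).trans h)).2 fun p => p.rec
    (le_of_tendsto' ((OnePoint.continuous_iff_from_nat _).1 x.1.2.continuous).norm h1) h1)

/-- unit vectors -/
noncomputable def e (k : ℕ) : X := mk 0 (fun j => if j = k then 1 else 0) (tendsto_const_nhds.congr'
  ((eventually_ne_atTop k).mono fun j h => by simp [h]))

@[simp] lemma H_e (k) : H (e k) = 0 := rfl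
@[simp] lemma d_e (j k) : d j (e k) = if j = k then 1 else 0 := rfl

noncomputable def u : ℂ →L[ℝ] X :=
  Complex.reCLM.smulRight (mk 1 (fun _ => 1 / 20 * 1) tendsto_const_nhds) +
    Complex.imCLM.smulRight (mk .I (fun _ => 1 / 20 * 0) tendsto_const_nhds)

@[simp] lemma H_u (h) : H (u h) = h := by simp [u]
@[simp] lemma d_u (k h) : d k (u h) = 1 / 20 * h.re := by simp [u, mul_comm]

noncomputable def ι : ℂ →L[ℝ] X →L[ℝ] ℝ := (compL ℝ X ℂ ℝ).flip H ∘L innerSL ℝ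

lemma ι_apply (z x) : ι z x = ⟪z, H x⟫_ℝ := rfl

lemma ι_le (z) : ‖ι z‖ ≤ ‖z‖ := opNorm_le_bound _ (norm_nonneg _) fun x =>
  (abs_real_inner_le_norm z (H x)).trans (by gcongr; exact H_le x)

lemma d_norm (k) : ‖d k‖ ≤ 1 := opNorm_le_bound _ zero_le_one fun x => by
  simpa using d_le k x

lemma re_le {h : ℂ} (h1 : ‖h‖ ≤ 1) : |1 / 20 * h.re| ≤ 1 / 20 := by
  rw [abs_mul, abs_of_pos (by norm_num)]
  linarith [h.abs_re_le_norm]

lemma fin (φ : X →L[ℝ] ℝ) {h : ℂ} {C : ℝ} (h1 : ‖h‖ ≤ 1)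
    (h2 : ∀ x, ‖x‖ ≤ 1 → H x = h → φ x ≤ C) (N : ℕ) :
    φ (u h) + ∑ k ∈ range N, (|φ (e k)| - 1 / 20 * h.re * φ (e k)) ≤ C := by
  have := h2 (u h + ∑ k ∈ range N, ((SignType.sign (φ (e k)) : ℝ) - 1 / 20 * h.re) • e k)
    (nle (by simpa using h1) fun j => ?_) (by simp)
  · simpa [sub_mul] using this
  · simp only [map_add, map_sum, map_smul, d_e, d_u, smul_eq_mul, mul_ite, mul_one, mul_zero,
      sum_ite_eq]
    split_ifs
    · rw [add_sub_cancel]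
      cases SignType.sign (φ (e j)) <;> simp
    · rw [add_zero]
      linarith [re_le h1]

lemma sum_le (φ : X →L[ℝ] ℝ) (N : ℕ) : ∑ k ∈ range N, |φ (e k)| ≤ ‖φ‖ := by
  simpa using fin φ (h := 0) (by simp) (fun x h _ => (le_abs_self _).trans
    (φ.unit_le_opNorm x h)) N

lemma smb (φ : X →L[ℝ] ℝ) : Summable fun k => |φ (e k)| :=
  summable_of_sum_range_le (fun _ => abs_nonneg _) (sum_le φ)

noncomputable def σ : (X →L[ℝ] ℝ) →L[ℝ] ℝ := LinearMap.mkContinuous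
  ⟨⟨fun φ => ∑' k, φ (e k), fun φ ψ => (smb φ).of_abs.tsum_add (smb ψ).of_abs⟩,
    fun _ _ => tsum_mul_left⟩ 1 fun φ => (tsum_of_norm_bounded (smb φ).hasSum fun _ => le_rfl).trans
      ((Real.tsum_le_of_sum_range_le (fun _ => abs_nonneg _) (sum_le φ)).trans_eq (one_mul _).symm)

lemma σ_sum (φ : X →L[ℝ] ℝ) : HasSum (fun k => φ (e k)) (σ φ) := (smb φ).of_abs.hasSum

noncomputable def π : (X →L[ℝ] ℝ) →L[ℝ] ℂ :=
  (apply ℝ ℝ (u 1) - (1 / 20 : ℝ) • σ).smulRight 1 + (apply ℝ ℝ (u .I)).smulRight .I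

lemma π_inner (φ : X →L[ℝ] ℝ) (h : ℂ) : ⟪π φ, h⟫_ℝ = φ (u h) - 1 / 20 * h.re * σ φ := by
  simp [π, u]
  ring

lemma apx (x : X) : Tendsto (fun N => ∑ k ∈ range N, (d k x - 1 / 20 * (H x).re) • e k) atTop
    (𝓝 (x - u (H x))) := by
  refine Metric.tendsto_atTop.2 fun ε hε => ?_
  obtain ⟨N, hN⟩ := Metric.tendsto_atTop.1 (lim x) _ (half_pos hε)
  refine ⟨N, fun n hn => (dist_eq_norm _ _).trans_lt ((nle (r := ε / 2) (by simp; linarith)
    fun j => ?_).trans_lt (half_lt_self hε))⟩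
  simp only [map_sub, map_sum, map_smul, d_e, d_u, smul_eq_mul, mul_ite, mul_one, mul_zero,
    sum_ite_eq]
  split_ifs with h
  · simp; linarith
  · rw [zero_sub, abs_neg]
    exact (hN j (hn.trans (by simpa using h))).le

lemma dec (φ : X →L[ℝ] ℝ) : HasSum (fun k => φ (e k) • d k) (φ - ι (π φ)) := by
  have h : Summable fun k => φ (e k) • d k := .of_norm_bounded (smb φ) fun k =>
    (norm_smul _ _).trans_le (mul_le_of_le_one_right (norm_nonneg _) (d_norm k))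
  convert h.hasSum
  ext x
  have h1 := (((apply ℝ ℝ x).hasSum h.hasSum).sub
    ((σ_sum φ).mul_left (1 / 20 * (H x).re))).tendsto_sum_nat
  have := tendsto_nhds_unique h1 (((φ.continuous.tendsto _).comp (apx x)).congr fun N => by
    simp [mul_sub, mul_comm])
  rw [sub_apply, ι_apply, π_inner]
  rw [map_sub, apply_apply] at this
  linarith

lemma blk (φ : X →L[ℝ] ℝ) {h : ℂ} {C : ℝ} (h1 : ‖h‖ ≤ 1)
    (h2 : ∀ x, ‖x‖ ≤ 1 → H x = h → φ x ≤ C) : ⟪π φ, h⟫_ℝ + ∑' k, |φ (e k)| ≤ C := by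
  have := le_of_tendsto' (((smb φ).hasSum.sub ((σ_sum φ).mul_left
    (1 / 20 * h.re))).tendsto_sum_nat.const_add (φ (u h))) (fin φ h1 h2)
  linarith [π_inner φ h]

lemma op_le {Y : Type} [NormedAddCommGroup Y] [NormedSpace ℝ Y] (T : (X →L[ℝ] ℝ) →L[ℝ] Y) {V : ℝ}
    (h : ∀ k, ‖T (d k)‖ ≤ V) (φ : X →L[ℝ] ℝ) : ‖T (φ - ι (π φ))‖ ≤ (∑' k, |φ (e k)|) * V :=
  (T.hasSum (dec φ)).norm_le_of_bounded ((smb φ).hasSum.mul_right V) fun k => by
    rw [map_smul, norm_smul]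
    exact mul_le_mul_of_nonneg_left (h k) (norm_nonneg _)

lemma rest_le (φ : X →L[ℝ] ℝ) : ‖φ - ι (π φ)‖ ≤ ∑' k, |φ (e k)| := by
  simpa using op_le (.id ℝ _) d_norm φ

lemma norm_ge (φ : X →L[ℝ] ℝ) : ‖π φ‖ + ∑' k, |φ (e k)| ≤ ‖φ‖ := by
  have := blk φ (h := ‖π φ‖⁻¹ • π φ) (by rw [norm_smul, norm_inv, norm_norm]; exact inv_mul_le_one)
    fun x h _ => (le_abs_self _).trans (φ.unit_le_opNorm x h)
  rwa [real_inner_smul_right, real_inner_self_eq_norm_mul_norm, ← mul_assoc, inv_mul_mul_self]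
    at this

lemma face (k : ℕ) (φ : X →L[ℝ] ℝ) {V : ℝ} (h : ∀ x, ‖x‖ ≤ 1 → d k x = 1 → |φ x| ≤ V) :
    ‖φ‖ ≤ V := by
  have h1 : ∀ x, ‖x‖ ≤ 1 → |φ x + (1 - d k x) * φ (e k)| ≤ V := fun x hx => by
    simpa using h (x + (1 - d k x) • e k) (nle (by simpa using (H_le x).trans hx) fun j => by
      by_cases h : j = k
      · simp [h]
      · simpa [h] using (d_le j x).trans hx) (by simp)
  refine φ.opNorm_le_of_unit_norm ((abs_nonneg _).trans (h1 0 (by simp))) fun x hx => ?_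
  obtain ⟨a1, a2⟩ := abs_le.1 (h1 x hx.le)
  obtain ⟨a3, a4⟩ := abs_le.1 (h1 (-x) (by simp [hx]))
  obtain ⟨a5, a6⟩ := abs_le.1 ((d_le k x).trans hx.le)
  simp only [map_neg] at a3 a4
  refine abs_le.2 ⟨?_, ?_⟩ <;> nlinarith

lemma rot (z : ℂ) (t : ℝ) : ‖z + t • (.I * z)‖ ≤ ‖z‖ * (1 + t ^ 2) := by
  rw [show z + t • (.I * z) = z * ((1 : ℝ) + t * .I) by simp; ring, norm_mul,
    Complex.norm_add_mul_I]
  exact mul_le_mul_of_nonneg_left (Real.sqrt_le_iff.2 ⟨by positivity, by nlinarith⟩)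
    (norm_nonneg _)

lemma der {Y : Type} [NormedAddCommGroup Y] [NormedSpace ℝ Y] {x y : Y} {f : Y →L[ℝ] ℝ}
    {c C : ℝ} (h1 : ‖f‖ = 1) (h2 : f x = 1) (h : ∀ t : ℝ, ‖x + t • y‖ ≤ 1 + c * |t| + (C * t) ^ 2) :
    |f y| ≤ c := by
  refine le_of_forall_pos_le_add fun ε hε => ?_
  have h3 := fun t => (le_abs_self _).trans (f.le_of_opNorm_le_of_le h1.le (h t))
  obtain ⟨s, s1, s2⟩ : ∃ s : ℝ, 0 < s ∧ s * (C ^ 2 + 1) = ε :=
    ⟨ε / (C ^ 2 + 1), by positivity, div_mul_cancel₀ _ (by positivity)⟩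
  have a1 := h3 s
  have a2 := h3 (-s)
  simp only [map_add, map_smul, h2, smul_eq_mul, abs_neg, abs_of_pos s1] at a1 a2
  refine abs_le.2 ⟨?_, ?_⟩ <;> refine le_of_mul_le_mul_left ?_ s1 <;> nlinarith

/-- the operator on the space -/
noncomputable def T0 : X →L[ℝ] X := u ∘L mul ℝ ℂ .I ∘L H

lemma T0_le (x : X) (f : X →L[ℝ] ℝ) (h : ‖x‖ = 1) (h1 : ‖f‖ = 1) (h2 : f x = 1) :
    |f (T0 x)| ≤ 1 / 20 := by
  have h3 := (H_le x).trans h.le
  refine der (C := 1) h1 h2 fun t => nle ?_ fun k => ?_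
  · have := (rot (H x) t).trans (mul_le_of_le_one_left (by positivity) h3)
    simp only [T0, map_add, map_smul, comp_apply, H_u, mul_apply', one_mul]
    linarith [abs_nonneg t]
  · simp only [T0, map_add, map_smul, comp_apply, d_u, mul_apply', smul_eq_mul]
    refine (abs_add_le _ _).trans ?_
    have := re_le (h := .I * H x) (by simpa using h3)
    rw [abs_mul]
    nlinarith [d_le k x, abs_nonneg t]

lemma T0_far (S : X →L[ℝ] X)
    (h : ∀ (x : X) (f : X →L[ℝ] ℝ), ‖x‖ = 1 → ‖f‖ = 1 → f x = 1 → |f (S x)| ≤ 0) :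
    1 ≤ ‖T0 - S‖ := by
  have h1 : ∀ k, d k ∘L S = 0 := fun k => norm_le_zero_iff.1 (face k _ fun x a1 a2 => by
    have := (d k).le_opNorm x
    rw [a2, norm_one] at this
    exact h x _ (by nlinarith [d_norm k, norm_nonneg x])
      (by nlinarith [d_norm k, norm_nonneg (d k)]) a2)
  have h2 := tendsto_nhds_unique (lim (S (u (-.I)))) (tendsto_const_nhds.congr fun k =>
    (DFunLike.congr_fun (h1 k) _).symm)
  have h3 := (Complex.re_le_norm _).trans ((H_le _).trans ((T0 - S).unit_le_opNorm (u (-.I))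
    (nle (by simp) (by simp))))
  generalize ‖T0 - S‖ = r at *
  simp [T0] at h2 h3
  linarith

/-- the skew operator on the dual -/
noncomputable def S0 : (X →L[ℝ] ℝ) →L[ℝ] X →L[ℝ] ℝ := ι ∘L mul ℝ ℂ .I ∘L π

lemma S0_le (c : ℝ) (φ : X →L[ℝ] ℝ) (f : (X →L[ℝ] ℝ) →L[ℝ] ℝ) (h : ‖φ‖ = 1) (h1 : ‖f‖ = 1)
    (h2 : f φ = 1) : |f ((c • S0) φ)| ≤ 0 := by
  refine der (C := c) h1 h2 fun t => ?_
  rw [show φ + t • (c • S0) φ = ι (π φ + (c * t) • (.I * π φ)) + (φ - ι (π φ)) by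
    rw [map_add, map_smul, smul_apply, smul_smul, mul_comm t]
    abel_nf
    rfl]
  have := norm_ge φ
  have h3 : 0 ≤ ∑' k, |φ (e k)| := tsum_nonneg fun _ => abs_nonneg _
  nlinarith [norm_add_le (ι (π φ + (c * t) • (.I * π φ))) (φ - ι (π φ)), rest_le φ,
    (ι_le _).trans (rot (π φ) (c * t)), sq_nonneg (c * t)]

lemma near (T : (X →L[ℝ] ℝ) →L[ℝ] X →L[ℝ] ℝ) {V : ℝ} (h : ∀ (φ : X →L[ℝ] ℝ)
    (f : (X →L[ℝ] ℝ) →L[ℝ] ℝ), ‖φ‖ = 1 → ‖f‖ = 1 → f φ = 1 → |f (T φ)| ≤ V) :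
    ‖T - (π (T (ι 1))).im • S0‖ ≤ 10 * V := by
  have h1 : ∀ (φ : X →L[ℝ] ℝ) (x : X), ‖φ‖ ≤ 1 → ‖x‖ ≤ 1 → φ x = 1 → |T φ x| ≤ V :=
    fun φ x a1 a2 a3 => by
      have a4 := (NormedSpace.double_dual_bound ℝ X x).trans a2
      have := (NormedSpace.inclusionInDoubleDual ℝ X x).le_opNorm φ
      rw [NormedSpace.dual_def, a3, norm_one] at this
      exact h φ (NormedSpace.inclusionInDoubleDual ℝ X x) (by nlinarith [norm_nonneg φ])
        (a4.antisymm (this.trans (mul_le_of_le_one_right (norm_nonneg _) a1))) a3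
  have h2 : ∀ k, ‖T (d k)‖ ≤ V := fun k => face k _ fun x => h1 _ x (d_norm k)
  have h3 : ∀ z : ℂ, ‖z‖ = 1 → |⟪π (T (ι z)), z⟫_ℝ| ≤ V ∧ ‖T (ι z) - ι (π (T (ι z)))‖ ≤ V :=
    fun z hz => by
      have a1 := fun x a b => abs_le.1 (h1 (ι z) x ((ι_le z).trans hz.le) a
        (by rw [ι_apply, show H x = z from b, real_inner_self_eq_norm_sq, hz, one_pow]))
      have a2 := blk (T (ι z)) hz.le fun x a b => (a1 x a b).2
      have a3 := blk (-T (ι z)) hz.le fun x a b => neg_le.1 (a1 x a b).1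
      have h3 : 0 ≤ ∑' k, |T (ι z) (e k)| := tsum_nonneg fun _ => abs_nonneg _
      simp only [map_neg, inner_neg_left, neg_apply, abs_neg] at a3
      exact ⟨abs_le.2 ⟨by linarith, by linarith⟩, by linarith [rest_le (T (ι z))]⟩
  obtain ⟨a1, a2⟩ := h3 1 norm_one
  obtain ⟨a3, a4⟩ := h3 .I Complex.norm_I
  obtain ⟨a5, -⟩ := h3 ((3 / 5 : ℝ) • 1 + (4 / 5 : ℝ) • .I) (by
    rw [Complex.real_smul, mul_one, Complex.real_smul, Complex.norm_add_mul_I]
    norm_num)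
  rw [map_add, map_add, map_add, map_smul, map_smul, map_smul, map_smul, map_smul, map_smul] at a5
  generalize ha : π (T (ι 1)) = a at *
  generalize hb : π (T (ι .I)) = b at *
  simp only [inner_add_left, inner_add_right, real_inner_smul_left, real_inner_smul_right] at a5
  simp at a1 a3 a5
  have hV := (abs_nonneg _).trans a1
  have a6 : ‖a - a.im • .I‖ ≤ V := by
    rwa [show a - a.im • .I = a.re by simp [Complex.ext_iff], Complex.norm_real]
  have a7 : ‖b + a.im • 1‖ ≤ 6 * V := (Complex.norm_le_abs_re_add_abs_im _).trans (by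
    have : |b.re + a.im| ≤ 5 * V := by
      rw [abs_le] at *
      constructor <;> linarith
    simp
    linarith)
  refine opNorm_le_of_unit_norm (by linarith) fun φ hφ => ?_
  have a8 : ι (π φ) = (π φ).re • ι 1 + (π φ).im • ι .I := by
    rw [← map_smul, ← map_smul, ← map_add]
    simp
  rw [show (T - a.im • S0) φ = T (φ - ι (π φ)) + (π φ).re • (T (ι 1) - ι a + ι (a - a.im • .I)) +
    (π φ).im • (T (ι .I) - ι b + ι (b + a.im • 1)) by
      rw [map_sub T, a8, sub_apply, smul_apply, S0, comp_apply, comp_apply, mul_apply',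
        show .I * π φ = (π φ).re • Complex.I - (π φ).im • 1 by simp [Complex.ext_iff]]
      simp only [map_add, map_sub, map_smul]
      module]
  have b1 := norm_ge φ
  have b2 : 0 ≤ ∑' k, |φ (e k)| := tsum_nonneg fun _ => abs_nonneg _
  have b3 := norm_nonneg (π φ)
  refine (norm_add₃_le.trans (add_le_add_three (op_le T h2 φ) ((norm_smul _ _).trans_le
    (mul_le_mul (Complex.abs_re_le_norm _) (norm_add_le_of_le a2 ((ι_le _).trans a6))
      (norm_nonneg _) b3)) ((norm_smul _ _).trans_le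
    (mul_le_mul (Complex.abs_im_le_norm _) (norm_add_le_of_le a4 ((ι_le _).trans a7))
      (norm_nonneg _) b3)))).trans ?_
  nlinarith

end Pool.Agent.H9.NI2
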