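import Mathlib

/-! Positive-part `ℓ_p` functionals and numerical radius bounds through sublinear functionals. -/
namespace Pool.Agent.H9.UP
open Finset

variable {ι : Type} [Fintype ι] {p : ℝ} [hp : Fact (1 ≤ p)]

/-- the `ℓ_p` norm of the positive part -/
noncomputable def P (p : ℝ) (x : ι → ℝ) : ℝ := (∑ i, max (x i) 0 ^ p) ^ (1 / p)

lemma p_pos : 0 < p := one_pos.trans_le hp.out

omit hp in
lemma P_nonneg (x : ι → ℝ) : 0 ≤ P p x := by unfold P; positivity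

omit hp in
lemma P_pos (x : ι → ℝ) : P p (fun i => max (x i) 0) = P p x := by simp [P]

lemma P_mono {x y : ι → ℝ} (h : ∀ i, x i ≤ y i) : P p x ≤ P p y := by
  have := p_pos (p := p)
  unfold P
  gcongr with i
  exact h i

lemma P_add (x y : ι → ℝ) : P p (x + y) ≤ P p x + P p y := by
  have := p_pos (p := p)
  refine le_trans ?_ (Real.Lp_add_le_of_nonneg univ hp.out (fun i _ => le_max_right (x i) 0)
    fun i _ => le_max_right (y i) 0)
  unfold P
  gcongr with i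
  exact max_le (add_le_add (le_max_left _ _) (le_max_left _ _)) (by positivity)

lemma P_smul {c : ℝ} (hc : 0 ≤ c) (x : ι → ℝ) : P p (c • x) = c * P p x := by
  have := p_pos (p := p)
  have h : ∀ i, max ((c • x) i) 0 ^ p = c ^ p * max (x i) 0 ^ p := fun i => by
    rw [← Real.mul_rpow hc (le_max_right _ _), mul_max_of_nonneg _ _ hc, mul_zero]
    rfl
  rw [P, P, sum_congr rfl fun i _ => h i, ← mul_sum, Real.mul_rpow (by positivity) (by positivity),
    one_div, Real.rpow_rpow_inv hc this.ne']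

lemma P_pow (x : ι → ℝ) : P p x ^ p = ∑ i, max (x i) 0 ^ p := by
  rw [P, one_div, Real.rpow_inv_rpow (by positivity) p_pos.ne']

lemma P_np {x : ι → ℝ} (h : ∀ i, x i ≤ 0) : P p x = 0 := by
  simp [P, h, p_pos.ne']

lemma P_single [DecidableEq ι] (i : ι) : P p (Pi.single i 1) = 1 := by
  rw [P, sum_eq_single i] <;> simp +contextual [p_pos.ne']

lemma P_ge (x : ι → ℝ) (i : ι) : x i ≤ P p x := by
  classical
  have := P_smul (p := p) (le_max_right (x i) 0) (Pi.single i 1)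
  rw [P_single, mul_one] at this
  refine (le_max_left _ 0).trans (this ▸ P_pos (p := p) x ▸ P_mono fun j => ?_)
  by_cases h : j = i <;> simp [h]

lemma P_sup (x y : ι → ℝ) :
    P p x + P p y ≤ 2 ^ (p - 1) * P p fun i => max (x i) 0 + max (y i) 0 := by
  have := p_pos (p := p)
  have h1 : (1 : ℝ) ≤ 2 ^ (p - 1) := Real.one_le_rpow one_le_two (sub_nonneg.2 hp.out)
  have h2 : (P p x + P p y) ^ p ≤ 2 ^ (p - 1) * (P p x ^ p + P p y ^ p) := by
    exact_mod_cast NNReal.rpow_add_le_mul_rpow_add_rpow ⟨_, P_nonneg (p := p) x⟩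
      ⟨_, P_nonneg (p := p) y⟩ hp.out
  refine (Real.rpow_le_rpow_iff (add_nonneg (P_nonneg _) (P_nonneg _))
    (mul_nonneg (by positivity) (P_nonneg _)) this).1 (h2.trans ?_)
  rw [Real.mul_rpow (by positivity) (P_nonneg _), P_pow, P_pow, P_pow, ← sum_add_distrib]
  refine mul_le_mul (Real.self_le_rpow_of_one_le h1 hp.out) (sum_le_sum fun i _ => ?_)
    (by positivity) (by positivity)
  exact (Real.add_rpow_le_rpow_add (le_max_right _ _) (le_max_right _ _) hp.out).trans_eq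
    (by rw [max_eq_left (a := _ + _) (by positivity)])

lemma P_dfc (x y : ι → ℝ) : P p (x + y) + P p (-x) + P p (-y) ≤
    (2 ^ (p - 1)) ^ 2 * (P p (-(x + y)) + P p x + P p y) := by
  have h1 : (1 : ℝ) ≤ 2 ^ (p - 1) := Real.one_le_rpow one_le_two (sub_nonneg.2 hp.out)
  have h2 := P_sup (p := p) (x + y) (-x)
  have h3 := (P_sup (p := p) (fun i => max ((x + y) i) 0 + max ((-x) i) 0) (-y)).trans
    (mul_le_mul_of_nonneg_left ((P_mono (y := ((fun i => max ((-(x + y)) i) 0) +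
      fun i => max (x i) 0) + fun i => max (y i) 0) fun i => by
        simp only [Pi.add_apply, Pi.neg_apply]
        grind).trans ((P_add _ _).trans (add_le_add_left (P_add _ _) _))) (by positivity))
  rw [P_pos, P_pos, P_pos] at h3
  nlinarith [P_nonneg (p := p) (-y)]

lemma P_avg [Nonempty ι] : P p (fun _ : ι => (Fintype.card ι : ℝ)⁻¹) =
    (Fintype.card ι : ℝ) ^ (1 / p - 1) := by
  have := P_smul (p := p) (c := (Fintype.card ι : ℝ)⁻¹) (by positivity) fun _ : ι => 1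
  rw [Real.rpow_sub_one (by positivity), div_eq_inv_mul]
  simpa [P, Pi.smul_def] using this

/-- bound on the numerical radius -/
def NR {Y : Type} [SeminormedAddCommGroup Y] [NormedSpace ℝ Y] (T : Y →L[ℝ] Y) (V : ℝ) : Prop :=
  ∀ (x : Y) (f : Y →L[ℝ] ℝ), ‖x‖ = 1 → ‖f‖ = 1 → f x = 1 → |f (T x)| ≤ V

lemma hb {Y : Type} [AddCommGroup Y] [Module ℝ Y] (q : Y → ℝ)
    (h1 : ∀ c : ℝ, 0 < c → ∀ x, q (c • x) = c * q x) (h2 : ∀ x y, q (x + y) ≤ q x + q y) (y : Y) :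
    ∃ f : Y →ₗ[ℝ] ℝ, f y = q y ∧ ∀ x, f x ≤ q x := by
  have h0 : q 0 = 0 := by linarith [h1 2 two_pos 0, congrArg q (smul_zero (2 : ℝ) : _ = (0 : Y))]
  obtain ⟨f, e1, e2⟩ := exists_extension_of_le_sublinear (LinearPMap.mkSpanSingleton' y (q y)
    fun c h => (smul_eq_zero.1 h).elim (by simp +contextual) (by simp +contextual [h0])) q h1 h2
    fun ⟨x, hx⟩ => by
      obtain ⟨c, rfl⟩ := Submodule.mem_span_singleton.1 hx
      rw [LinearPMap.mkSpanSingleton'_apply]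
      obtain h | rfl | h := lt_trichotomy c 0
      · have := h2 (c • y) (-c • y)
        rw [h1 _ (neg_pos.2 h), neg_smul, add_neg_cancel, h0] at this
        simpa using this
      · simp [h0]
      · exact (h1 c h y).ge
  exact ⟨f, (e1 ⟨y, Submodule.mem_span_singleton_self y⟩).trans
    (LinearPMap.mkSpanSingleton'_apply_self _ _ _ _), e2⟩

variable {Y : Type} [NormedAddCommGroup Y] [NormedSpace ℝ Y] {T : Y →L[ℝ] Y} {V : ℝ}

lemma NR.le (h : NR T V) (x : Y) (f : Y →L[ℝ] ℝ) (e1 : ‖x‖ ≤ 1) (e2 : ‖f‖ ≤ 1) (e3 : f x = 1) :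
    |f (T x)| ≤ V := by
  have e5 := f.le_opNorm x
  rw [e3, norm_one] at e5
  exact h x f (by nlinarith [norm_nonneg x, norm_nonneg f])
    (by nlinarith [norm_nonneg x, norm_nonneg f]) e3

lemma NR.lin (h : NR T V) (f : Y →ₗ[ℝ] ℝ) (h1 : ∀ x, f x ≤ ‖x‖) {e : Y} (he : ‖e‖ ≤ f e) :
    |f (T e)| ≤ V * ‖e‖ := by
  obtain rfl | h0 := eq_or_ne e 0
  · simp
  have h2 : ∀ x, ‖f x‖ ≤ 1 * ‖x‖ := fun x =>
    abs_le.2 ⟨by simpa [neg_le] using h1 (-x), by simpa using h1 x⟩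
  have h3 := norm_pos_iff.2 h0
  have := h.le (‖e‖⁻¹ • e) (f.mkContinuous 1 h2) (norm_smul_inv_norm h0).le
    (f.mkContinuous_norm_le zero_le_one h2) (by simp [(h1 e).antisymm he, h3.ne'])
  simpa [abs_mul, inv_mul_le_iff₀' h3] using this

lemma NR.key (h : NR T V) (q : Y → ℝ) (h1 : ∀ c : ℝ, 0 < c → ∀ x, q (c • x) = c * q x)
    (h2 : ∀ x y, q (x + y) ≤ q x + q y) (h3 : ∀ x, q x ≤ ‖x‖) {e : Y} (he : q (-e) ≤ -‖e‖) :
    q (T e) ≤ V * ‖e‖ ∧ q (-T e) ≤ V * ‖e‖ := by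
  have : ∀ y, ∃ f : Y →ₗ[ℝ] ℝ, f y = q y ∧ |f (T e)| ≤ V * ‖e‖ := fun y =>
    let ⟨f, a, b⟩ := hb q h1 h2 y
    ⟨f, a, h.lin f (fun x => (b x).trans (h3 x)) (by linarith [b (-e), f.map_neg e])⟩
  obtain ⟨f, a, b⟩ := this (T e)
  obtain ⟨g, c, d⟩ := this (-T e)
  exact ⟨a ▸ (le_abs_self _).trans b, c ▸ (g.map_neg _).trans_le ((neg_le_abs _).trans d)⟩

lemma sum_bd {Z : ℕ → Type} [∀ k, NormedAddCommGroup (Z k)] [∀ k, NormedSpace ℝ (Z k)]
    [∀ k, Nontrivial (Z k)] {C : ℝ} (T : lp Z ⊤ →L[ℝ] lp Z ⊤) (h : NR T V) (hC : 0 ≤ C)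
    (H : ∀ k (S : Z k →L[ℝ] Z k), NR S V → ‖S‖ ≤ C) : ‖T‖ ≤ C := by
  have h1 : ∀ k (r : lp Z ⊤) (z : Z k), ‖r‖ ≤ 1 → r k = 0 → ‖z‖ = 1 →
      ‖T (lp.single ⊤ k z + r) k‖ ≤ C := fun k r z a1 a2 a3 => by
    obtain ⟨f, b1, b2⟩ := exists_dual_vector ℝ z (a3.trans_ne one_ne_zero)
    have := (lp.evalCLM ℝ Z ⊤ k ∘L T ∘L (lp.singleContinuousLinearMap ℝ Z ⊤ k +
      f.smulRight r)).le_of_opNorm_le_of_le (H k _ fun w g c1 c2 c3 => h.le _
        (g ∘L lp.evalCLM ℝ Z ⊤ k) (lp.norm_le_of_forall_le zero_le_one fun j => ?_)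
        (ContinuousLinearMap.opNorm_le_bound _ zero_le_one fun x => (g.le_of_opNorm_le_of_le c2.le
          (lp.norm_apply_le_norm ENNReal.top_ne_zero x k))) ?_) a3.le
    · simpa [b2, a3, lp.evalCLM] using this
    · show ‖Pi.single k w j + f w • r j‖ ≤ 1
      obtain rfl | hj := eq_or_ne j k
      · simp [a2, c1]
      · simpa [hj, norm_smul] using mul_le_one₀ (f.le_of_opNorm_le_of_le b1.le c1.le |>.trans_eq (one_mul _))
          (norm_nonneg _) ((lp.norm_apply_le_norm ENNReal.top_ne_zero r j).trans a1)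
    · show g (Pi.single k w k + f w • r k) = 1
      simpa [a2] using c3
  refine T.opNorm_le_of_unit_norm hC fun x hx => lp.norm_le_of_forall_le hC fun k => ?_
  have a0 := fun j => (lp.norm_apply_le_norm ENNReal.top_ne_zero x j).trans hx.le
  obtain ⟨z, a1, a2⟩ : ∃ z : Z k, ‖z‖ = 1 ∧ x k = ‖x k‖ • z := by
    obtain h | h := eq_or_ne (x k) 0
    · exact (exists_norm_eq (Z k) zero_le_one).imp fun z e => ⟨e, by simp [h]⟩
    · exact ⟨_, norm_smul_inv_norm h, (smul_inv_smul₀ (norm_ne_zero_iff.2 h) _).symm⟩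
  have a3 := fun z => h1 k (x - lp.single ⊤ k (x k)) z (lp.norm_le_of_forall_le zero_le_one
    fun j => by
      obtain rfl | hj := eq_or_ne j k
      · simp
      · simp [hj, a0]) (by simp)
  have a4 : x = ((1 + ‖x k‖) / 2) • (lp.single ⊤ k z + (x - lp.single ⊤ k (x k))) +
      ((1 - ‖x k‖) / 2) • (lp.single ⊤ k (-z) + (x - lp.single ⊤ k (x k))) := by
    generalize ‖x k‖ = r at a2
    rw [a2, lp.single_neg, lp.single_smul]
    module
  rw [a4, map_add, map_smul, map_smul, lp.coeFn_add, lp.coeFn_smul, lp.coeFn_smul, Pi.add_apply,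
    Pi.smul_apply, Pi.smul_apply]
  refine (norm_add_le _ _).trans ?_
  rw [norm_smul, norm_smul, Real.norm_of_nonneg (by positivity),
    Real.norm_of_nonneg (by linarith [a0 k])]
  nlinarith [a3 z a1, a3 (-z) (by simp [a1]), a0 k, norm_nonneg (x k)]

end Pool.Agent.H9.UP
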