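import Pool.Agent.H9.RL2
import Pool.Agent.H9.UP1

/-! No renorming of `ℓ₁ ⊕ ℓ₂(ℝ)` has numerical index one: small slices and spear vectors. -/
namespace Pool.Agent.H9.NR1
open Filter Topology Finset RL UP
open scoped InnerProductSpace

/-- the Hilbert space -/
abbrev H : Type := lp (fun _ : ℝ => ℝ) 2

variable {Z : Type} [NormedAddCommGroup Z] [NormedSpace ℝ Z]

omit [NormedSpace ℝ Z] in
lemma nearmax (Φ : Z → ℝ) {C δ : ℝ} (h : ∀ z, ‖z‖ ≤ 1 → Φ z ≤ C) (hδ : 0 < δ) :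
    ∃ w, ‖w‖ ≤ 1 ∧ ∀ z, ‖z‖ ≤ 1 → Φ z ≤ Φ w + δ := by
  obtain ⟨_, ⟨w, a, rfl⟩, b⟩ := exists_lt_of_lt_csSup (s := Φ '' {z | ‖z‖ ≤ 1})
    ⟨_, 0, by simp, rfl⟩ (sub_lt_self _ hδ)
  exact ⟨w, a, fun z c => by
    linarith [le_csSup (s := Φ '' {z | ‖z‖ ≤ 1}) ⟨C, Set.forall_mem_image.2 h⟩ ⟨z, c, rfl⟩]⟩

lemma tail (F : Finset ℕ) (a b : L) : ‖a - b‖ ≤ ∑ j ∈ F, |(a - b) j| +
    (‖a‖ - ∑ j ∈ F, |a j|) + (‖b‖ - ∑ j ∈ F, |b j|) := by
  have := hasSum_le (fun j => ?_) (hs (a - b)) (((hs a).add (hs b)).add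
    (hasSum_sum_of_ne_finset_zero (s := F)
      (f := fun j => if j ∈ F then |(a - b) j| - |a j| - |b j| else 0) (by simp +contextual)))
  · rw [sum_congr rfl fun j h => if_pos h, sum_sub_distrib, sum_sub_distrib] at this
    linarith
  · split_ifs
    · linarith
    · simpa using abs_sub (a j) (b j)

lemma slice (A : Z →L[ℝ] L) (B : Z →L[ℝ] H) {M η : ℝ} (hM : 1 ≤ M) (hη : 0 < η)
    (hA : ∀ z, ‖z‖ ≤ 1 → ‖A z‖ ≤ M) (hB : ∀ z, ‖z‖ ≤ 1 → ‖B z‖ ≤ M) (γ : ℝ)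
    (h0 : ∃ z, ‖z‖ ≤ 1 ∧ 1 / M ≤ B z γ) : ∃ (d : Z) (f : Z →L[ℝ] ℝ) (δ : ℝ), 0 < δ ∧ ‖d‖ ≤ 1 ∧
      1 / (2 * M) ≤ B d γ ∧ ∀ z, ‖z‖ ≤ 1 → f d - δ ≤ f z → ‖A (z - d)‖ ≤ η ∧ ‖B (z - d)‖ ≤ η := by
  obtain ⟨α, a1, a2⟩ : ∃ α : ℝ, 0 < α ∧ α * M = 1 / (4 * M) :=
    ⟨1 / (4 * M) / M, by positivity, by field_simp⟩
  obtain ⟨ρ, r1, r2, r3⟩ : ∃ ρ : ℝ, 0 < ρ ∧ 7 * ρ ≤ 1 / (4 * M) ∧ 7 * ρ ≤ α * (η / 4) :=
    ⟨min (1 / (4 * M)) (α * (η / 4)) / 7, by positivity, 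
      by linarith [min_le_left (1 / (4 * M)) (α * (η / 4))],
      by linarith [min_le_right (1 / (4 * M)) (α * (η / 4))]⟩
  have a3 : α ≤ 1 := by
    have : 1 / (4 * M) ≤ 1 := (div_le_one (by positivity)).2 (by linarith)
    nlinarith
  have e1 := fun z : H => (le_abs_self _).trans (lp.norm_apply_le_norm two_ne_zero z γ)
  obtain ⟨z0, b1, b2⟩ := nearmax (fun z => B z γ + α * ‖A z‖) (fun z h => add_le_add
    ((e1 _).trans (hB z h)) (mul_le_mul_of_nonneg_left (hA z h) a1.le)) r1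
  obtain ⟨F, hF⟩ := ((hs (A z0)).eventually (lt_mem_nhds (sub_lt_self _ r1))).exists
  let f1 : Z →L[ℝ] ℝ := lp.evalCLM ℝ (fun _ : ℝ => ℝ) 2 γ ∘L B +
    α • ∑ j ∈ F, (SignType.sign (A z0 j) : ℝ) • ev j ∘L A
  have c0 : ∀ z, f1 z = B z γ + α * ∑ j ∈ F, (SignType.sign (A z0 j) : ℝ) * A z j := fun z => by
    simp [f1, ev, lp.evalCLM]
  have c1 : ∀ z, f1 z ≤ B z γ + α * ∑ j ∈ F, |A z j| := fun z => by
    rw [c0]
    gcongr with j
    cases SignType.sign (A z0 j) <;> simp [le_abs_self, neg_le_abs]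
  have c2 := fun z => mul_le_mul_of_nonneg_left
    (sum_le_hasSum F (fun _ _ => abs_nonneg _) (hs (A z))) a1.le
  let b : Z →L[ℝ] Z →L[ℝ] ℝ := ∑ j ∈ F, (ev j ∘L A).smulRight (ev j ∘L A) +
    (show H →L[ℝ] H →L[ℝ] ℝ from innerSL ℝ).bilinearComp B B
  have c3 : ∀ z w, b z w = ∑ j ∈ F, A z j * A w j + ⟪B z, B w⟫_ℝ := fun z w => by
    simp [b, ev, lp.evalCLM]
    rfl
  have c4 : ∀ z, 0 ≤ ∑ j ∈ F, A z j * A z j := fun z => sum_nonneg fun _ _ => mul_self_nonneg _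
  have c5 : ∀ z, 0 ≤ b z z := fun z => c3 z z ▸ add_nonneg (c4 z) real_inner_self_nonneg
  obtain ⟨τ, t1, t2⟩ : ∃ τ : ℝ, 0 < τ ∧ τ * ‖b‖ ≤ ρ := ⟨ρ / (‖b‖ + 1), by positivity, by
    rw [div_mul_eq_mul_div, div_le_iff₀ (by positivity)]
    nlinarith⟩
  have c6 : ∀ z, ‖z‖ ≤ 1 → τ * b z z ≤ ρ := fun z h => (mul_le_mul_of_nonneg_left
    ((le_abs_self _).trans (((b z).unit_le_opNorm z h).trans (b.unit_le_opNorm z h))) t1.le).trans t2
  obtain ⟨κ, k1, k2⟩ : ∃ κ : ℝ, 0 < κ ∧ (F.card + 1) * κ = η / 2 :=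
    ⟨η / 2 / (F.card + 1), by positivity, by field_simp⟩
  have d1 : 0 < min ρ (τ * κ ^ 2 / 2) := by positivity
  have d2 := min_le_left ρ (τ * κ ^ 2 / 2)
  have d3 := min_le_right ρ (τ * κ ^ 2 / 2)
  generalize min ρ (τ * κ ^ 2 / 2) = δ at *
  obtain ⟨d, b3, b4⟩ := nearmax (fun z => f1 z + τ * b z z) (fun z h => add_le_add
    ((le_abs_self _).trans (f1.unit_le_opNorm z h)) (c6 z h)) d1
  have k3 : ∀ z, ‖z‖ ≤ 1 → (f1 + (2 * τ) • b d) d - δ ≤ (f1 + (2 * τ) • b d) z →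
      b (z - d) (z - d) ≤ κ ^ 2 ∧ B z0 γ + α * ‖A z0‖ - 5 * ρ ≤ f1 z := fun z h1 h2 => by
    have e2 : b (z - d) (z - d) = b z z - 2 * b d z + b d d := by
      have : b z d = b d z := by simp [c3, mul_comm, real_inner_comm]
      simp only [map_sub, sub_apply, this]
      ring
    simp only [add_apply, smul_apply, smul_eq_mul] at h2
    have e3 := b4 z0 b1
    rw [c0, sgn_sum] at e3
    refine ⟨le_of_mul_le_mul_left (by nlinarith [b4 z h1]) t1, ?_⟩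
    nlinarith [c6 z h1, mul_nonneg t1.le (c5 z0), mul_nonneg t1.le (c5 (z - d))]
  obtain ⟨-, k4⟩ := k3 d b3 (by linarith)
  refine ⟨d, f1 + (2 * τ) • b d, δ, d1, b3, ?_, fun z h1 h2 => ?_⟩
  · obtain ⟨w, e2, e3⟩ := h0
    have : 1 / M = 1 / (2 * M) + 1 / (4 * M) + 1 / (4 * M) := by field_simp; ring
    nlinarith [b2 w e2, c1 d, c2 d, hA d b3, norm_nonneg (A w)]
  · obtain ⟨e2, e3⟩ := k3 z h1 h2
    rw [c3, real_inner_self_eq_norm_sq] at e2
    have e4 : ∀ w, ‖w‖ ≤ 1 → B z0 γ + α * ‖A z0‖ - 5 * ρ ≤ f1 w →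
        ‖A w‖ - ∑ j ∈ F, |A w j| ≤ η / 4 := fun w e5 e6 =>
      le_of_mul_le_mul_left (by linarith [b2 w e5, c1 w]) a1
    have e5 : ∑ j ∈ F, |A (z - d) j| ≤ F.card • κ := sum_le_card_nsmul _ _ _ fun j hj =>
      have := single_le_sum (f := fun j => A (z - d) j * A (z - d) j)
        (fun _ _ => mul_self_nonneg _) hj
      abs_le_of_sq_le_sq (by nlinarith) k1.le
    have e6 := tail F (A z) (A d)
    rw [← map_sub] at e6
    rw [nsmul_eq_mul] at e5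
    exact ⟨by linarith [e4 z h1 e3, e4 d b3 k4], (abs_le_of_sq_le_sq' (by linarith [c4 (z - d)])
      k1.le).2.trans (by nlinarith [(F.card.cast_nonneg : (0 : ℝ) ≤ _)])⟩

lemma sg (a : ℝ) : ∃ s : ℝ, |s| = 1 ∧ s * a = |a| :=
  (le_total 0 a).elim (fun h => ⟨1, by simp, by simp [abs_of_nonneg h]⟩)
    fun h => ⟨-1, by simp, by simp [abs_of_nonpos h]⟩

/-- approximate spear vectors -/
def Spear (η : ℝ) (d : Z) : Prop :=
  ‖d‖ ≤ 1 ∧ ∀ w : Z, ∃ s : ℝ, |s| ≤ 1 ∧ (1 - η) * (‖w‖ + 1) ≤ ‖w + s • d‖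

lemma spear [Nontrivial Z] (h : ∀ (T : Z →L[ℝ] Z) V, NR T V → ‖T‖ ≤ V) {d : Z} {f : Z →L[ℝ] ℝ}
    {δ η : ℝ} (h1 : 0 < δ) (h0 : 0 < η) (h2 : ‖d‖ ≤ 1)
    (h3 : ∀ z, ‖z‖ ≤ 1 → f d - δ ≤ f z → ‖z - d‖ ≤ η) : Spear (2 * η) d := by
  refine ⟨h2, fun w => ?_⟩
  obtain ⟨x, a1, a2⟩ : ∃ x : Z, ‖x‖ = 1 ∧ w = ‖w‖ • x := by
    obtain h | h := eq_or_ne w 0
    · exact (exists_norm_eq Z zero_le_one).imp fun z e => ⟨e, by simp [h]⟩
    · exact ⟨_, norm_smul_inv_norm h, (smul_inv_smul₀ (norm_ne_zero_iff.2 h) _).symm⟩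
  obtain ⟨y, g, b1, b2, b3, b4, b5⟩ : ∃ (y : Z) (g : Z →L[ℝ] ℝ), ‖y‖ ≤ 1 ∧ ‖g‖ ≤ 1 ∧ |g y| = 1 ∧
      ‖f‖ - δ ≤ f y ∧ 1 - η ≤ g x := by
    obtain rfl | hf := eq_or_ne f 0
    · obtain ⟨g, c1, c2⟩ := exists_dual_vector ℝ x (a1.trans_ne one_ne_zero)
      exact ⟨x, g, a1.le, c1.le, by simp [c2, a1], by simp [h1.le], by simp [c2, a1, h0.le]⟩
    have c0 := norm_pos_iff.2 hf
    by_contra! c
    have := h (f.smulRight x) (max (‖f‖ - δ) (‖f‖ * (1 - η))) fun y g c1 c2 c3 => by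
      have c4 : |f y| ≤ ‖f‖ := f.unit_le_opNorm y c1.le
      have c5 : |g x| ≤ 1 := (g.unit_le_opNorm x a1.le).trans c2.le
      rw [ContinuousLinearMap.smulRight_apply, map_smul, smul_eq_mul, abs_mul, le_max_iff]
      by_contra! c6
      obtain ⟨s, s1, s2⟩ := sg (f y)
      obtain ⟨t, t1, t2⟩ := sg (g x)
      have := c (s • y) (t • g) (by simp [norm_smul, s1, c1]) (by simp [norm_smul, t1, c2])
        (by simp [s1, t1, c3]) (by simp [s2]; nlinarith [abs_nonneg (f y)])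
      rw [smul_apply, smul_eq_mul, t2] at this
      nlinarith [abs_nonneg (g x)]
    rw [ContinuousLinearMap.norm_smulRight_apply, a1, le_max_iff] at this
    obtain e | e := this <;> nlinarith
  have b6 := g.le_of_opNorm_le_of_le b2 (h3 y b1 (by
    linarith [(le_abs_self _).trans (f.unit_le_opNorm d h2)]))
  refine ⟨SignType.sign (g d), by cases SignType.sign (g d) <;> simp, le_trans ?_
    ((le_abs_self _).trans (g.le_of_opNorm_le b2 _) |>.trans_eq (one_mul _))⟩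
  rw [map_add, map_smul, smul_eq_mul, sign_mul_self, show g w = ‖w‖ * g x by
    conv_lhs => rw [a2, map_smul, smul_eq_mul]]
  rw [map_sub, Real.norm_eq_abs] at b6
  nlinarith [abs_sub_abs_le_abs_sub (g y) (g d), norm_nonneg w]

lemma greedy {η R : ℝ} (hη : 0 ≤ η) (d : ℕ → Z) (h : ∀ k, Spear η (d k)) (x : Z) (n : ℕ)
    (hR : ‖x‖ + n ≤ R) : ∃ g : Z →L[ℝ] ℝ, ‖g‖ ≤ 1 ∧ ‖x‖ - n * (η * R) ≤ g x ∧
      ∀ k < n, 1 - n * (η * R) ≤ |g (d k)| := by
  obtain ⟨s, a1, a2⟩ : ∃ s : ℕ → ℝ, (∀ k, |s k| ≤ 1) ∧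
      ‖x‖ + n - n * (η * R) ≤ ‖x + ∑ k ∈ range n, s k • d k‖ := by
    induction n with
    | zero => exact ⟨0, by simp, by simp⟩
    | succ n ih =>
      push_cast at hR ⊢
      obtain ⟨s, a1, a2⟩ := ih (by linarith)
      obtain ⟨t, a3, a4⟩ := (h n).2 (x + ∑ k ∈ range n, s k • d k)
      have a5 := norm_add_le_of_le (le_refl ‖x‖) (norm_sum_le_of_le (range n) (n := fun _ => 1)
        fun k _ => (norm_smul (s k) (d k)).trans_le (mul_le_one₀ (a1 k) (norm_nonneg _) (h k).1))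
      refine ⟨Function.update s n t, fun k => by by_cases e : k = n <;> simp [e, a1, a3], ?_⟩
      rw [sum_range_succ, Function.update_self, sum_congr rfl fun k e => by
        rw [Function.update_of_ne (mem_range.1 e).ne], ← add_assoc x]
      simp at a5
      nlinarith
  obtain ⟨g, b1, b2⟩ := exists_dual_vector'' ℝ (x + ∑ k ∈ range n, s k • d k)
  have b3 : ∀ k, s k * g (d k) ≤ |g (d k)| := fun k => (le_abs_self _).trans
    ((abs_mul _ _).trans_le (mul_le_of_le_one_left (abs_nonneg _) (a1 k)))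
  have b4 : ∀ k, 0 ≤ 1 - s k * g (d k) := fun k => sub_nonneg.2
    ((b3 k).trans ((g.unit_le_opNorm _ (h k).1).trans b1))
  have b5 : g x ≤ ‖x‖ := (le_abs_self _).trans (g.le_of_opNorm_le b1 x |>.trans_eq (one_mul _))
  have b6 := fun k (e : k < n) => single_le_sum (fun k _ => b4 k) (mem_range.2 e)
  have b7 := sum_nonneg (s := range n) fun k _ => b4 k
  simp at b2 b6 b7
  exact ⟨g, b1, by linarith, fun k e => by linarith [b6 k e, b3 k]⟩

lemma gram {V : ℕ → H} {θ : ℝ} (h : Pairwise fun i j => |⟪V i, V j⟫_ℝ| ≤ θ) (s : Finset ℕ) :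
    |‖∑ k ∈ s, V k‖ ^ 2 - ∑ k ∈ s, ‖V k‖ ^ 2| ≤ s.card ^ 2 * θ := by
  induction s using Finset.induction with
  | empty => simp
  | insert a s e ih =>
    have := (abs_sum_le_sum_abs _ _).trans (sum_le_card_nsmul s (fun k => |⟪V a, V k⟫_ℝ|) θ
      fun k c => h (ne_of_mem_of_not_mem c e).symm)
    have h0 := (abs_nonneg _).trans (h zero_ne_one)
    rw [sum_insert e, sum_insert e, norm_add_sq_real, inner_sum, card_insert_of_notMem e]
    rw [nsmul_eq_mul] at this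
    rw [abs_le] at *
    push_cast
    constructor <;> nlinarith

lemma sep : ∃ t : Set L, t.Countable ∧ ∀ a : L, a ∈ closure t := by
  obtain ⟨t, a, b⟩ := (Set.countable_range fun k : ℕ =>
    (lp.single 1 k 1 : L)).isSeparable.span (R := ℝ) |>.closure
  refine ⟨t, a, fun c => b (mem_closure_of_tendsto (lp.hasSum_single (by simp) c)
    (.of_forall fun s => Submodule.sum_mem _ fun k _ => ?_))⟩
  rw [← mul_one (c k), ← smul_eq_mul, lp.single_smul]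
  exact Submodule.smul_mem _ _ (Submodule.subset_span ⟨k, rfl⟩)

lemma orth (u : ℝ → H) {S : Set ℝ} (hS : S.Infinite) {M c θ : ℝ} (hθ : 0 < θ) (hc : 0 < c)
    (h1 : ∀ γ, ‖u γ‖ ≤ M) (h2 : ∀ γ, 2 * c ≤ u γ γ) : ∃ (h : H) (κ : ℕ → ℝ), ‖h‖ ≤ M ∧
      (∀ k, κ k ∈ S ∧ c ≤ ‖u (κ k) - h‖) ∧
      Pairwise fun i j => |⟪u (κ i) - h, u (κ j) - h⟫_ℝ| ≤ θ := by
  have := hS.cofinite_inf_principal_neBot
  obtain ⟨U, hU⟩ := (cofinite ⊓ 𝓟 S).exists_ultrafilter_le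
  have a0 := fun (g : H) γ => abs_le.1 ((abs_real_inner_le_norm (u γ) g).trans
    (mul_le_mul_of_nonneg_right (h1 γ) (norm_nonneg _)))
  choose l l1 l2 using fun g : H => (isCompact_Icc (a := -(M * ‖g‖)) (b := M * ‖g‖)).ultrafilter_le_nhds'
    (U.map fun γ => ⟪u γ, g⟫_ℝ) (Ultrafilter.mem_map.2 (univ_mem' (a0 g)))
  have l3 : ∀ g, Tendsto (fun γ => ⟪u γ, g⟫_ℝ) U (𝓝 (l g)) := l2
  let Λ : H →L[ℝ] ℝ := LinearMap.mkContinuous ⟨⟨l, fun y z => tendsto_nhds_unique (l3 _)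
    (by simpa [inner_add_right] using (l3 y).add (l3 z))⟩, fun c y => tendsto_nhds_unique (l3 _)
    (by simpa [inner_smul_right] using (l3 y).const_mul c)⟩ M fun y => abs_le.2 (l1 y)
  obtain ⟨h, rfl⟩ : ∃ h : H, l = fun g => ⟪h, g⟫_ℝ := ⟨(InnerProductSpace.toDual ℝ H).symm Λ,
    funext fun g => (InnerProductSpace.toDual_symm_apply (y := Λ)).symm⟩
  have a1 : Tendsto (fun γ => ‖h γ‖ ^ 2) cofinite (𝓝 0) := by
    simpa using ((lp.memℓp h).summable (by simp)).tendsto_cofinite_zero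
  have : Std.Symm fun a b => |⟪u a - h, u b - h⟫_ℝ| ≤ θ := ⟨fun a b e => by rwa [real_inner_comm]⟩
  obtain ⟨κ, k1, k2⟩ := exists_seq_of_forall_finset_exists' (fun γ => γ ∈ S ∧ c ≤ ‖u γ - h‖)
    (fun a b => |⟪u a - h, u b - h⟫_ℝ| ≤ θ) fun s _ => by
      refine (((Eventually.and (le_principal_iff.1 (hU.trans inf_le_right))
        (((a1.eventually (ge_mem_nhds (sq_pos_of_pos hc))).filter_mono (hU.trans inf_le_left)).mono
          fun γ e => ?_)).and ((eventually_all_finset s).2 fun a _ => ?_))).exists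
      · have := (le_abs_self _).trans (lp.norm_apply_le_norm two_ne_zero (u γ - h) γ)
        have := abs_le_of_sq_le_sq' e hc.le
        simp at *
        linarith [h2 γ, le_abs_self (h γ)]
      · refine (((l3 (u a - h)).sub_const ⟪h, u a - h⟫_ℝ).abs.eventually (ge_mem_nhds
          (by simpa using hθ))).mono fun γ e => ?_
        rwa [real_inner_comm, inner_sub_left]
  have : ⟪h, h⟫_ℝ ≤ _ := (l1 h).2
  rw [real_inner_self_eq_norm_mul_norm] at this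
  exact ⟨h, κ, by nlinarith [norm_nonneg h, (norm_nonneg _).trans (h1 0)], k1, k2⟩

lemma main (E : Z ≃L[ℝ] L × H) (h : ∀ (T : Z →L[ℝ] Z) V, NR T V → ‖T‖ ≤ V) : False := by
  have : Nontrivial L := (lp.isometry_single 0).injective.nontrivial
  have := E.surjective.nontrivial
  obtain ⟨M, hM, m1, m2⟩ : ∃ M : ℝ, 1 ≤ M ∧ (∀ z, ‖E z‖ ≤ M * ‖z‖) ∧ ∀ p, ‖E.symm p‖ ≤ M * ‖p‖ :=
    ⟨‖(E : Z →L[ℝ] L × H)‖ + ‖(E.symm : L × H →L[ℝ] Z)‖ + 1, le_add_of_nonneg_left (by positivity),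
      (E : Z →L[ℝ] L × H).le_of_opNorm_le (by linarith [norm_nonneg (E.symm : L × H →L[ℝ] Z)]),
      (E.symm : L × H →L[ℝ] Z).le_of_opNorm_le (by linarith [norm_nonneg (E : Z →L[ℝ] L × H)])⟩
  obtain ⟨N, hN⟩ := exists_nat_gt (32 * M ^ 4 * (65 * M ^ 4) ^ 2)
  have n1 : (1 : ℝ) ≤ N := Nat.one_le_cast.2 (Nat.cast_pos.1 (lt_trans (by positivity) hN))
  obtain ⟨η, e1, e2⟩ : ∃ η : ℝ, 0 < η ∧ (2 * N + 1) ^ 3 * (M * η) = 1 / 8 :=
    ⟨1 / 8 / (2 * N + 1) ^ 3 / M, by positivity, by field_simp⟩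
  obtain ⟨c, c1, c2⟩ : ∃ c : ℝ, 0 < c ∧ 4 * M * c = 1 := ⟨1 / (4 * M), by positivity, by field_simp⟩
  obtain ⟨θ, t1, t2⟩ : ∃ θ : ℝ, 0 < θ ∧ 4 * N * θ = c ^ 2 :=
    ⟨c ^ 2 / (4 * N), by positivity, by field_simp⟩
  let A : Z →L[ℝ] L := .fst ℝ _ _ ∘L (E : Z →L[ℝ] L × H)
  let B : Z →L[ℝ] H := .snd ℝ _ _ ∘L (E : Z →L[ℝ] L × H)
  have m3 : ∀ z, ‖z‖ ≤ 1 → ‖E z‖ ≤ M := fun z e => (m1 z).trans
    (mul_le_of_le_one_right (by linarith) e)
  choose d f δ a1 a2 a3 a4 using fun γ => slice A B hM e1 (fun z e => (norm_fst_le _).trans (m3 z e))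
    (fun z e => (norm_snd_le _).trans (m3 z e)) γ ⟨E.symm (0, lp.single 2 γ (1 / M)),
      (m2 _).trans (by simp [abs_of_pos (one_pos.trans_le hM), zero_le_one.trans hM, mul_inv_le_one]), by simp [B]⟩
  have a5 : ∀ γ, Spear (2 * (M * η)) (d γ) := fun γ => spear h (a1 γ) (by positivity) (a2 γ)
    fun z b1 b2 => by
      simpa using (m2 (E (z - d γ))).trans (mul_le_mul_of_nonneg_left
        (max_le (a4 γ z b1 b2).1 (a4 γ z b1 b2).2) (by linarith))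
  obtain ⟨a, ha⟩ : ∃ a, {γ | dist (A (d γ)) a < η}.Infinite := by
    by_contra! b
    obtain ⟨t, b1, b2⟩ := sep
    exact Set.not_countable_univ ((b1.biUnion fun a _ => (b a).countable).mono fun γ _ =>
      Set.mem_iUnion₂.2 (by simpa using Metric.mem_closure_iff.1 (b2 (A (d γ))) η e1))
  obtain ⟨u, κ, u1, u2, u3⟩ := orth (fun γ => B (d γ)) ha t1 c1
    (fun γ => (norm_snd_le _).trans (m3 _ (a2 γ))) fun γ => le_trans (by
      rw [le_div_iff₀ (by positivity)]; linarith) (a3 γ)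
  have s0 : ∑ k ∈ range (2 * N), (-1 : ℝ) ^ k = 0 := by simp [neg_one_geom_sum]
  obtain ⟨x, hx⟩ : ∃ x, x = ∑ k ∈ range (2 * N), (-1 : ℝ) ^ k • d (κ k) := ⟨_, rfl⟩
  have x1 : ‖x‖ ≤ 2 * N := hx ▸ (norm_sum_le_of_le _ (n := fun _ => 1) fun k _ => by
    simpa [norm_smul] using a2 (κ k)).trans (by simp)
  have x2 : N * c ^ 2 ≤ (M * ‖x‖) ^ 2 := by
    have := (abs_le.1 (gram (V := fun k => (-1 : ℝ) ^ k • (B (d (κ k)) - u)) (θ := θ)
      (fun i j e => by simpa [inner_smul_left, inner_smul_right] using u3 e) (range (2 * N)))).1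
    have b1 := card_nsmul_le_sum (range (2 * N)) (fun k => ‖(-1 : ℝ) ^ k • (B (d (κ k)) - u)‖ ^ 2)
      (c ^ 2) fun k _ => by simpa [norm_smul] using pow_le_pow_left₀ c1.le (u2 k).2 2
    rw [show ∑ k ∈ range (2 * N), (-1 : ℝ) ^ k • (B (d (κ k)) - u) = B x by
      simp [hx, smul_sub, ← sum_smul, s0]] at this
    have b2 := pow_le_pow_left₀ (norm_nonneg _) ((norm_snd_le _).trans (m1 x)) 2
    change ‖B x‖ ^ 2 ≤ _ at b2
    rw [card_range, nsmul_eq_mul] at *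
    push_cast at *
    nlinarith
  obtain ⟨g, g1, g2, g3⟩ := greedy (R := 4 * N) (by positivity) _ (fun k => a5 (κ k)) x (2 * N)
    (by push_cast; linarith)
  have e3 : 0 < M * η := by positivity
  have e4 : (2 * N + 1) * (((2 * N : ℕ) : ℝ) * (2 * (M * η) * (4 * N))) ≤ 1 / 2 := by
    push_cast
    nlinarith [mul_pos e3 (show (0 : ℝ) < N by linarith)]
  have e5 : M * η ≤ 1 / 8 := by nlinarith [one_le_pow₀ (n := 3) (show (1 : ℝ) ≤ 2 * N + 1 by linarith)]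
  have e6 : 0 ≤ ((2 * N : ℕ) : ℝ) * (2 * (M * η) * (4 * N)) := by positivity
  generalize ((2 * N : ℕ) : ℝ) * (2 * (M * η) * (4 * N)) = ρ at *
  obtain ⟨σ, s1, s2⟩ := sg (g (E.symm (a, u)))
  have g4 : ∀ p, |σ * g (E.symm p)| ≤ M * ‖p‖ := fun p => by
    rw [abs_mul, s1, one_mul]
    exact (g.le_of_opNorm_le g1 _).trans ((one_mul _).trans_le (m2 p))
  obtain ⟨s, hs⟩ : ∃ s, s = (range (2 * N)).filter fun k => σ * g (d (κ k)) < 0 := ⟨_, rfl⟩
  have b1 : (s.card : ℝ) ≤ 32 * M ^ 4 := by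
    have b2 := card_nsmul_le_sum s (fun k => -(σ * g (E.symm (0, B (d (κ k)) - u)))) (1 / 2)
      fun k e => by
        obtain ⟨e7, e8⟩ := mem_filter.1 (hs ▸ e)
        have b3 := g3 k (mem_range.1 e7)
        have b4 := abs_le.1 ((g4 (A (d (κ k)) - a, 0)).trans (mul_le_mul_of_nonneg_left
          (c := η) (by simpa [← dist_eq_norm, e1.le] using le_of_lt (u2 k).1.out) (by linarith)))
        have b5 : g (d (κ k)) = g (E.symm (a, u)) + g (E.symm (0, B (d (κ k)) - u)) +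
            g (E.symm (A (d (κ k)) - a, 0)) := by
          rw [← map_add, ← map_add, ← map_add, ← map_add]
          simp [A, B]
        rw [← one_mul |g _|, ← s1, ← abs_mul, abs_of_neg e8, b5] at b3
        nlinarith [abs_nonneg (g (E.symm (a, u)))]
    have b3 := (neg_le_abs _).trans (g4 (0, ∑ k ∈ s, (B (d (κ k)) - u)))
    have b4 := (abs_le.1 (gram u3 s)).2
    have b5 := sum_le_card_nsmul s (fun k => ‖B (d (κ k)) - u‖ ^ 2) ((M + M) ^ 2) fun k _ =>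
      pow_le_pow_left₀ (norm_nonneg _) (norm_sub_le_of_le ((norm_snd_le _).trans
        (m3 _ (a2 (κ k)))) u1) 2
    rw [show ((0, ∑ k ∈ s, (B (d (κ k)) - u)) : L × H) = ∑ k ∈ s, (0, B (d (κ k)) - u) by
      simp [Prod.ext_iff, Prod.fst_sum, Prod.snd_sum], map_sum, map_sum, mul_sum, ← sum_neg_distrib,
      Prod.norm_def, Prod.fst_sum, Prod.snd_sum, sum_const_zero, norm_zero,
      max_eq_right (norm_nonneg _)] at b3
    have b6 := pow_le_pow_left₀ (by positivity) (b2.trans b3) 2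
    rw [nsmul_eq_mul] at b5 b6
    have b7 : M ^ 2 * θ ≤ 1 / 8 := by nlinarith [mul_pos (pow_pos (one_pos.trans_le hM) 2) t1]
    by_contra! b8
    have b9 := mul_lt_mul_of_pos_left b8 (lt_trans (by positivity) b8)
    nlinarith [mul_le_mul_of_nonneg_left b7 (sq_nonneg (s.card : ℝ)), sq_nonneg M]
  have b2 : g x ≤ 2 * N * ρ + 2 * s.card := by
    have := sum_le_sum (s := range (2 * N)) (f := fun k => (-1 : ℝ) ^ k * (g (d (κ k)) - σ))
      (g := fun k => ρ + if σ * g (d (κ k)) < 0 then 2 else 0) fun k e => (le_abs_self _).trans (by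
        have b3 := g3 k (mem_range.1 e)
        have b4 : |g (d (κ k))| ≤ 1 := (g.unit_le_opNorm _ (a2 _)).trans g1
        rw [abs_mul, abs_neg_one_pow, ← s1, ← abs_mul, mul_sub, ← abs_mul_abs_self σ, s1]
        rw [← one_mul |g _|, ← s1, ← abs_mul] at b3 b4
        rw [s1] at b3 b4
        split_ifs with e
        · rw [abs_le] at *
          constructor <;> linarith
        · rw [abs_of_nonneg (not_lt.1 e)] at b3 b4
          exact abs_le.2 ⟨by linarith, by linarith⟩)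
    simp only [mul_sub, sum_sub_distrib, ← sum_mul, s0, sum_add_distrib, ← sum_filter, ← hs] at this
    simpa [hx, mul_comm] using this
  have b3 : ‖x‖ ≤ 65 * M ^ 4 := by nlinarith [one_le_pow₀ (n := 4) hM]
  have b4 := pow_le_pow_left₀ (norm_nonneg _) b3 2
  have b5 : (N : ℝ) ≤ 16 * M ^ 2 * (M * ‖x‖) ^ 2 := by
    have := mul_le_mul_of_nonneg_left x2 (show 0 ≤ 16 * M ^ 2 by positivity)
    rwa [show 16 * M ^ 2 * (N * c ^ 2) = N * (4 * M * c) ^ 2 by ring, c2, one_pow, mul_one] at this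
  nlinarith [mul_le_mul_of_nonneg_left b4 (show 0 ≤ 16 * M ^ 4 by positivity), norm_nonneg x,
    show 0 ≤ M ^ 4 * (65 * M ^ 4) ^ 2 by positivity]

lemma one {T : L →L[ℝ] L} {V : ℝ} (h : NR T V) : ‖T‖ ≤ V := by
  have a1 : ∀ k, ‖T (lp.single 1 k 1)‖ ≤ V := fun k => hasSum_le_of_sum_le (hs _) fun s => by
    choose σ s1 s2 using fun j => sg (T (lp.single 1 k 1) j)
    have := h.le (σ k • lp.single 1 k 1) (∑ j ∈ insert k s, σ j • ev j) (by simp [norm_smul, s1])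
      (ContinuousLinearMap.opNorm_le_bound _ zero_le_one fun c => by
        rw [_root_.sum_apply, one_mul]
        exact (norm_sum_le_of_le _ fun j _ => by simp [s1, ev, lp.evalCLM]).trans
          (sum_le_hasSum _ (fun _ _ => abs_nonneg _) (hs c)))
      (by simp [ev, lp.evalCLM, Pi.single_apply, ← abs_mul_abs_self (σ k), s1])
    rw [map_smul, map_smul, smul_eq_mul, abs_mul, s1, one_mul, _root_.sum_apply] at this
    exact (sum_le_sum_of_subset_of_nonneg (subset_insert k s) fun _ _ _ => abs_nonneg _).trans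
      ((sum_congr rfl fun j _ => (s2 j).symm).trans_le ((le_abs_self _).trans this))
  refine T.opNorm_le_bound ((norm_nonneg _).trans (a1 0)) fun c =>
    (T.hasSum (lp.hasSum_single (by simp) c)).norm_le_of_bounded ((hs c).mul_left V) fun k => ?_
  rw [← mul_one (c k), ← smul_eq_mul, lp.single_smul, map_smul, norm_smul, mul_comm, smul_eq_mul,
    mul_one]
  exact mul_le_mul_of_nonneg_right (a1 k) (norm_nonneg _)

end Pool.Agent.H9.NR1
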