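import Pool.Agent.H9.NR1

/-! Numerical index one, and the pair `ℓ₁ ⊂ ℓ₁ ⊕ ℓ₂(ℝ)`. -/
namespace Pool.Agent.H9.NR1
open RL UP

/-- the numerical range values -/
def vals {Z : Type} [NormedAddCommGroup Z] [NormedSpace ℝ Z] (T : Z →L[ℝ] Z) : Set ℝ :=
  {r | ∃ (x : Z) (f : Z →L[ℝ] ℝ), ‖x‖ = 1 ∧ ‖f‖ = 1 ∧ f x = 1 ∧ r = |f (T x)|}

lemma idx (Z : Type) [NormedAddCommGroup Z] [NormedSpace ℝ Z] [Nontrivial Z] :
    sInf {r | ∃ T : Z →L[ℝ] Z, ‖T‖ = 1 ∧ r = sSup (vals T)} = 1 ↔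
      ∀ (T : Z →L[ℝ] Z) V, NR T V → ‖T‖ ≤ V := by
  obtain ⟨x, a1⟩ := exists_norm_eq Z zero_le_one
  obtain ⟨f, a2, a3⟩ := exists_dual_vector ℝ x (a1.trans_ne one_ne_zero)
  have a4 : IsGreatest (vals (.id ℝ Z)) 1 := ⟨⟨x, f, a1, a2, by simp [a3, a1], by simp [a3, a1]⟩,
    fun _ ⟨_, _, _, _, b, e⟩ => by simp [e, b]⟩
  have a5 : ∀ T : Z →L[ℝ] Z, 0 ≤ sSup (vals T) := fun T =>
    Real.sSup_nonneg fun _ ⟨_, _, _, _, _, e⟩ => e ▸ abs_nonneg _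
  refine ⟨fun h T V e => ?_, fun h => IsLeast.csInf_eq ⟨⟨_, ContinuousLinearMap.norm_id,
    a4.csSup_eq.symm⟩, fun _ ⟨T, e1, e2⟩ => e1.ge.trans ((h T _ fun p f a1 a2 a3 =>
      le_csSup (s := vals T) ⟨1, fun _ ⟨q, g, b1, b2, _, e⟩ =>
        e.trans_le ((g.unit_le_opNorm _ ((T.unit_le_opNorm q b1.le).trans e1.le)).trans b2.le)⟩
        ⟨p, f, a1, a2, a3, rfl⟩).trans e2.ge)⟩⟩
  have hV := (abs_nonneg _).trans (e x f a1 a2 (by simp [a3, a1]))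
  obtain rfl | h0 := eq_or_ne T 0
  · simpa using hV
  have h1 := norm_pos_iff.2 h0
  refine (one_le_div h1).1 (h.ge.trans ((csInf_le (s := {r | ∃ T : Z →L[ℝ] Z, ‖T‖ = 1 ∧
    r = sSup (vals T)}) ⟨0, fun _ ⟨S, _, e⟩ => (a5 S).trans e.ge⟩
    ⟨_, norm_smul_inv_norm (𝕜 := ℝ) h0, rfl⟩).trans (Real.sSup_le ?_ (by positivity))))
  rintro _ ⟨y, g, b1, b2, b3, rfl⟩
  simpa [div_eq_inv_mul, h1] using e y g b1 b2 b3

lemma fin : ∃ (X : Type) (_ : NormedAddCommGroup X) (_ : NormedSpace ℝ X), CompleteSpace X ∧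
    ∃ Y : Submodule ℝ X, IsClosed (Y : Set X) ∧ ¬FiniteDimensional ℝ Y ∧
      (∃ (Z : Type) (_ : NormedAddCommGroup Z) (_ : NormedSpace ℝ Z) (_ : Nontrivial Z),
        Nonempty (Z ≃L[ℝ] Y) ∧ ∀ (T : Z →L[ℝ] Z) V, NR T V → ‖T‖ ≤ V) ∧ Nontrivial X ∧
      ∀ (Z : Type) (_ : NormedAddCommGroup Z) (_ : NormedSpace ℝ Z) (_ : Z ≃L[ℝ] X),
        ¬∀ (T : Z →L[ℝ] Z) V, NR T V → ‖T‖ ≤ V := by
  have : Nontrivial L := (lp.isometry_single 0).injective.nontrivial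
  let J : L →ₗᵢ[ℝ] L × H := ⟨.inl ℝ _ _, by simp⟩
  refine ⟨L × H, _, _, inferInstance, _, J.isometry.isClosedEmbedding.isClosed_range, fun _ => ?_,
    ⟨L, _, _, this, ⟨J.equivRange.toContinuousLinearEquiv⟩, fun _ _ => one⟩, inferInstance,
    fun _ _ _ => main⟩
  have := J.equivRange.toLinearEquiv.symm.finiteDimensional
  refine Module.Finite.not_linearIndependent_of_infinite (R := ℝ)
    (fun k : ℕ => (lp.single 1 k 1 : L)) (.of_comp (.pi fun k => (ev k).toLinearMap) ?_)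
  convert Pi.linearIndependent_single_one ℕ ℝ using 1
  · ext i j
    simp [ev, lp.evalCLM]
  · rfl

end Pool.Agent.H9.NR1
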