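import Mathlib

/-! A bounded degree graph with auxiliary 8-ary trees on all deep levels. -/

namespace Pool.Agent.H9.NetG

open SimpleGraph

def ok (m : ℕ) (p : ℕ × ℕ × ℕ) : Prop :=
  p.2.1 ≤ 2 * m - 1 ∧ (p.2.1 = 0 ∨ 6 * m ≤ p.1) ∧ p.2.2 < 2 ^ (p.1 + 1 - 3 * p.2.1)

def VV (m : ℕ) : Type := {p : ℕ × ℕ × ℕ // ok m p}

variable {m : ℕ}

def VV.l (v : VV m) : ℕ := v.1.1
def VV.i (v : VV m) : ℕ := v.1.2.1
def VV.y (v : VV m) : ℕ := v.1.2.2

lemma VV.ext' {u v : VV m} (h1 : u.l = v.l) (h2 : u.i = v.i) (h3 : u.y = v.y) : u = v :=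
  Subtype.ext (Prod.ext h1 (Prod.ext h2 h3))

def tri (v : VV m) : ℕ × ℕ × ℕ := (v.l, v.i, v.y)

lemma tri_inj : Function.Injective (tri (m := m)) := fun u v h => by
  simp only [tri, Prod.mk.injEq] at h
  exact VV.ext' h.1 h.2.1 h.2.2

lemma VV.hi (v : VV m) : v.i ≤ 2 * m - 1 := v.2.1
lemma VV.hl (v : VV m) : v.i = 0 ∨ 6 * m ≤ v.l := v.2.2.1
lemma VV.hy (v : VV m) : v.y < 2 ^ (v.l + 1 - 3 * v.i) := v.2.2.2

def mk (l i y : ℕ) (h1 : i ≤ 2 * m - 1) (h2 : i = 0 ∨ 6 * m ≤ l) (h3 : y < 2 ^ (l + 1 - 3 * i)) :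
    VV m := ⟨(l, i, y), h1, h2, h3⟩

@[simp] lemma mk_l (l i y : ℕ) (h1 h2 h3) : (mk (m := m) l i y h1 h2 h3).l = l := rfl
@[simp] lemma mk_i (l i y : ℕ) (h1 h2 h3) : (mk (m := m) l i y h1 h2 h3).i = i := rfl
@[simp] lemma mk_y (l i y : ℕ) (h1 h2 h3) : (mk (m := m) l i y h1 h2 h3).y = y := rfl

def Bs (u v : VV m) : Prop := u.i = 0 ∧ v.i = 0 ∧ v.l = u.l + 1 ∧ v.y / 4 = u.y / 2
def Ax (u v : VV m) : Prop := u.l = v.l ∧ u.i = v.i + 1 ∧ v.y / 8 = u.y

def GG (m : ℕ) : SimpleGraph (VV m) where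
  Adj u v := Bs u v ∨ Bs v u ∨ Ax u v ∨ Ax v u
  symm := ⟨fun u v h => by tauto⟩
  loopless := ⟨fun u h => by unfold Bs Ax at h; omega⟩

lemma adj_Bs {u v : VV m} (h : Bs u v) : (GG m).Adj u v := Or.inl h
lemma adj_Ax {u v : VV m} (h : Ax u v) : (GG m).Adj u v := Or.inr (Or.inr (Or.inl h))

lemma bs_child (u : VV m) (hu : u.i = 0) (r : ℕ) (hr : r < 4) :
    ∃ v : VV m, Bs u v ∧ v.y = 4 * (u.y / 2) + r := by
  have h := u.hy
  rw [hu] at h
  refine ⟨mk (u.l + 1) 0 (4 * (u.y / 2) + r) (by omega) (Or.inl rfl) ?_, ⟨hu, rfl, rfl, ?_⟩, rfl⟩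
  · simp only [Nat.mul_zero, Nat.sub_zero, pow_succ] at h ⊢
    omega
  · simp only [mk_y]; omega

lemma bs_parent (v : VV m) (hv : v.i = 0) (hl : 0 < v.l) : ∃ u : VV m, Bs u v := by
  have h := v.hy
  rw [hv] at h
  obtain ⟨l, hl'⟩ : ∃ l, v.l = l + 1 := ⟨v.l - 1, by omega⟩
  refine ⟨mk l 0 (2 * (v.y / 4)) (by omega) (Or.inl rfl) ?_, ⟨rfl, hv, hl', ?_⟩⟩
  · rw [hl'] at h
    simp only [Nat.mul_zero, Nat.sub_zero, pow_succ] at h ⊢
    omega
  · simp only [mk_y]; omega

lemma ax_child (u : VV m) (hu : 0 < u.i) (r : ℕ) (hr : r < 8) :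
    ∃ v : VV m, Ax u v ∧ v.y = 8 * u.y + r := by
  have h := u.hy
  have h1 := u.hi
  have h2 := u.hl
  refine ⟨mk u.l (u.i - 1) (8 * u.y + r) (by omega) (by omega) ?_, ⟨rfl, ?_, ?_⟩, rfl⟩
  · have e : u.l + 1 - 3 * (u.i - 1) = (u.l + 1 - 3 * u.i) + 3 := by omega
    rw [e, pow_add]
    omega
  · simp only [mk_i]; omega
  · simp only [mk_y]; omega

lemma ax_parent (v : VV m) (hl : 6 * m ≤ v.l) (hi : v.i < 2 * m - 1) : ∃ u : VV m, Ax u v := by
  have h := v.hy
  refine ⟨mk v.l (v.i + 1) (v.y / 8) (by omega) (by omega) ?_, ⟨rfl, rfl, rfl⟩⟩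
  have e : v.l + 1 - 3 * v.i = (v.l + 1 - 3 * (v.i + 1)) + 3 := by omega
  rw [e, pow_add] at h
  omega

def root0 (m : ℕ) : VV m := mk 0 0 0 (by omega) (Or.inl rfl) (by simp)

lemma reach_base (n : ℕ) : ∀ v : VV m, v.i = 0 → v.l = n → (GG m).Reachable (root0 m) v := by
  induction n with
  | zero =>
    intro v hv hl
    obtain ⟨w, hw, _⟩ := bs_child v hv 0 (by norm_num)
    have h := v.hy
    rw [hv, hl] at h
    have h2 : Bs (root0 m) w := by
      obtain ⟨_, a, b, c⟩ := hw
      refine ⟨rfl, a, by rw [b, hl]; rfl, ?_⟩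
      show w.y / 4 = 0 / 2
      simp at h
      omega
    exact (adj_Bs h2).reachable.trans (adj_Bs hw).reachable.symm
  | succ n ih =>
    intro v hv hl
    obtain ⟨u, hu⟩ := bs_parent v hv (by omega)
    have := hu.2.2.1
    exact (ih u hu.1 (by omega)).trans (adj_Bs hu).reachable

lemma reach_all (n : ℕ) : ∀ v : VV m, v.i = n → (GG m).Reachable (root0 m) v := by
  induction n with
  | zero => intro v hv; exact reach_base _ v hv rfl
  | succ n ih =>
    intro v hv
    obtain ⟨w, hw, _⟩ := ax_child v (by omega) 0 (by norm_num)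
    have := hw.2.1
    exact (ih w (by omega)).trans (adj_Ax hw).reachable.symm

lemma conn (m : ℕ) : (GG m).Connected :=
  haveI : Nonempty (VV m) := ⟨root0 m⟩
  ⟨fun u v => (reach_all _ u rfl).symm.trans (reach_all _ v rfl)⟩

instance (m : ℕ) : Infinite (VV m) :=
  Infinite.of_injective (fun l : ℕ => mk (m := m) l 0 0 (by omega) (Or.inl rfl) (by positivity))
    fun a b h => by simpa using congrArg VV.l h

lemma deg (v : VV m) : ((GG m).neighborSet v).encard < 10 := by
  classical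
  rw [← Function.Injective.encard_image tri_inj]
  have key : ∀ L : List (ℕ × ℕ × ℕ), L.length ≤ 9 →
      (∀ w, (GG m).Adj v w → (w.l, w.i, w.y) ∈ L) →
      (tri '' (GG m).neighborSet v).encard < 10 := by
    intro L hL h
    have h1 : tri '' (GG m).neighborSet v ⊆ (L.toFinset : Set (ℕ × ℕ × ℕ)) := by
      rintro _ ⟨w, hw, rfl⟩
      simpa [tri] using h w hw
    have h2 : L.toFinset.card ≤ 9 := (List.toFinset_card_le L).trans hL
    calc _ ≤ (L.toFinset : Set (ℕ × ℕ × ℕ)).encard := Set.encard_le_encard h1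
      _ = (L.toFinset.card : ℕ∞) := Set.encard_coe_eq_coe_finsetCard _
      _ < 10 := by exact_mod_cast Nat.lt_succ_of_le h2
  by_cases hi : v.i = 0
  · apply key (((List.range 4).map fun r => (v.l + 1, 0, 4 * (v.y / 2) + r)) ++
      (((List.range 2).map fun r => (v.l - 1, 0, 2 * (v.y / 4) + r)) ++ [(v.l, 1, v.y / 8)]))
      (by simp)
    intro w hw
    simp only [List.mem_append, List.mem_map, List.mem_range, List.mem_singleton, Prod.mk.injEq]
    rcases hw with h | h | h | h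
    · unfold Bs at h
      exact Or.inl ⟨w.y % 4, by omega, by omega, by omega, by omega⟩
    · unfold Bs at h
      exact Or.inr (Or.inl ⟨w.y % 2, by omega, by omega, by omega, by omega⟩)
    · exact absurd h.2.1 (by omega)
    · unfold Ax at h
      exact Or.inr (Or.inr ⟨by omega, by omega, by omega⟩)
  · apply key (((List.range 8).map fun r => (v.l, v.i - 1, 8 * v.y + r)) ++
      [(v.l, v.i + 1, v.y / 8)]) (by simp)
    intro w hw
    simp only [List.mem_append, List.mem_map, List.mem_range, List.mem_singleton, Prod.mk.injEq]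
    rcases hw with h | h | h | h
    · exact absurd h.1 hi
    · exact absurd h.2.1 hi
    · unfold Ax at h
      exact Or.inl ⟨w.y % 8, by omega, by omega, by omega, by omega⟩
    · unfold Ax at h
      exact Or.inr ⟨by omega, by omega, by omega⟩

lemma cross {W : Type} (R : W → W → Prop) (o n : W → ℕ)
    (hout : ∀ s, ∃ O : Finset W, o s ≤ O.card ∧ ∀ t ∈ O, R s t)
    (hin : ∀ t, ∀ F : Finset W, (∀ s ∈ F, R s t) → F.card ≤ n t) (A : Finset W) :
    ∃ B : Finset (W × W), (∀ p ∈ B, R p.1 p.2 ∧ p.1 ∈ A ∧ p.2 ∉ A) ∧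
      ∑ s ∈ A, o s ≤ ∑ s ∈ A, n s + B.card := by
  classical
  choose O hO hOR using hout
  have h1 : ∑ s ∈ A, (A.filter fun t => t ∈ O s).card ≤ ∑ s ∈ A, n s := by
    have : ∑ s ∈ A, (A.filter fun t => t ∈ O s).card =
        ∑ t ∈ A, (A.filter fun s => t ∈ O s).card := by
      simp only [Finset.card_filter]
      exact Finset.sum_comm
    rw [this]
    apply Finset.sum_le_sum
    intro t _
    exact hin t _ fun s hs => hOR s t (Finset.mem_filter.1 hs).2
  have h2 : ∑ s ∈ A, o s ≤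
      ∑ s ∈ A, (A.filter fun t => t ∈ O s).card + ∑ s ∈ A, (O s \ A).card := by
    rw [← Finset.sum_add_distrib]
    apply Finset.sum_le_sum
    intro s _
    have e : (A.filter fun t => t ∈ O s) = O s ∩ A := by
      ext t; simp [and_comm]
    rw [e, add_comm, Finset.card_sdiff_add_card_inter]
    exact hO s
  refine ⟨A.biUnion fun s => (O s \ A).image fun t => (s, t), ?_, ?_⟩
  · intro p hp
    simp only [Finset.mem_biUnion, Finset.mem_image, Finset.mem_sdiff] at hp
    obtain ⟨s, hs, t, ⟨h1, h2⟩, rfl⟩ := hp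
    exact ⟨hOR s t h1, hs, h2⟩
  · rw [Finset.card_biUnion]
    · have : ∑ s ∈ A, ((O s \ A).image fun t => (s, t)).card = ∑ s ∈ A, (O s \ A).card := by
        apply Finset.sum_congr rfl
        intro s _
        exact Finset.card_image_of_injective _ (Prod.mk_right_injective s)
      omega
    · intro s _ s' _ hne
      rw [Function.onFun, Finset.disjoint_left]
      intro e he he'
      simp only [Finset.mem_image, Finset.mem_sdiff] at he he'
      obtain ⟨t, _, rfl⟩ := he
      obtain ⟨t', _, h⟩ := he'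
      exact hne (congrArg Prod.fst h).symm

lemma out_of_range {R : VV m → VV m → Prop} (s : VV m) (c b : ℕ)
    (h : ∀ r, r < c → ∃ v, R s v ∧ v.y = b + r) :
    ∃ O : Finset (VV m), c ≤ O.card ∧ ∀ t ∈ O, R s t := by
  classical
  have : Nonempty (VV m) := ⟨s⟩
  choose! f hf1 hf2 using h
  refine ⟨(Finset.range c).image f, ?_, fun t ht => ?_⟩
  · rw [Finset.card_image_of_injOn, Finset.card_range]
    intro a ha b' hb he
    simp only [Finset.coe_range, Set.mem_Iio] at ha hb
    have h1 := hf2 a ha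
    have h2 := hf2 b' hb
    rw [he] at h1
    omega
  · obtain ⟨r, hr, rfl⟩ := Finset.mem_image.1 ht
    exact hf1 r (Finset.mem_range.1 hr)

lemma expand (A : Finset (VV m)) : ∃ B : Finset (VV m × VV m),
    (∀ p ∈ B, (GG m).Adj p.1 p.2 ∧ p.1 ∈ A ∧ p.2 ∉ A) ∧ 7 * A.card ≤ 4 * B.card := by
  classical
  obtain ⟨B1, h1, c1⟩ := cross (Bs (m := m)) (fun s => if s.i = 0 then 4 else 0)
    (fun s => if s.i = 0 then 2 else 0) (by
      intro s
      by_cases hs : s.i = 0
      · simp only [hs, if_true]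
        exact out_of_range s 4 _ fun r hr => bs_child s hs r hr
      · exact ⟨∅, by simp [hs], by simp⟩) (by
      intro t F hF
      by_cases ht : t.i = 0
      · simp only [ht, if_true]
        have := Finset.card_le_card_of_injOn (s := F) (t := Finset.range 2) (fun s => s.y % 2)
          (fun s _ => by simp only [Finset.coe_range, Set.mem_Iio]; omega) (by
            intro a ha b hb h
            have ha' := hF a ha
            have hb' := hF b hb
            unfold Bs at ha' hb'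
            simp only at h
            apply VV.ext' <;> omega)
        simpa using this
      · simp only [ht, if_false, Nat.le_zero, Finset.card_eq_zero]
        rw [Finset.eq_empty_iff_forall_notMem]
        intro s hs
        exact ht (hF s hs).2.1) A
  obtain ⟨B2, h2, c2⟩ := cross (Ax (m := m)) (fun s => if s.i = 0 then 0 else 8)
    (fun _ => 1) (by
      intro s
      by_cases hs : s.i = 0
      · exact ⟨∅, by simp [hs], by simp⟩
      · simp only [hs, if_false]
        exact out_of_range s 8 _ fun r hr => ax_child s (by omega) r hr) (by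
      intro t F hF
      rw [Finset.card_le_one]
      intro a ha b hb
      have ha' := hF a ha
      have hb' := hF b hb
      unfold Ax at ha' hb'
      apply VV.ext' <;> omega) A
  refine ⟨B1 ∪ B2, fun p hp => ?_, ?_⟩
  · rcases Finset.mem_union.1 hp with h | h
    · exact ⟨adj_Bs (h1 p h).1, (h1 p h).2⟩
    · exact ⟨adj_Ax (h2 p h).1, (h2 p h).2⟩
  · rw [Finset.card_union_of_disjoint]
    · have e : ∑ s ∈ A, 7 + (4 * ∑ s ∈ A, (if s.i = 0 then 2 else 0) + ∑ s ∈ A, 1) =
          4 * ∑ s ∈ A, (if s.i = 0 then 4 else 0) + ∑ s ∈ A, (if s.i = 0 then 0 else 8) := by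
        rw [Finset.mul_sum, Finset.mul_sum, ← Finset.sum_add_distrib, ← Finset.sum_add_distrib,
          ← Finset.sum_add_distrib]
        apply Finset.sum_congr rfl
        intro s _
        split_ifs <;> rfl
      have e2 : ∑ s ∈ A, 7 = 7 * A.card := by simp [mul_comm]
      omega
    · rw [Finset.disjoint_left]
      intro p hp1 hp2
      have a := (h1 p hp1).1
      have b := (h2 p hp2).1
      unfold Bs at a
      unfold Ax at b
      omega

lemma lip (Φ : VV m → ℤ) (hB : ∀ u v, Bs u v → |Φ u - Φ v| ≤ 1)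
    (hA : ∀ u v, Ax u v → |Φ u - Φ v| ≤ 1) (u v : VV m) : Φ v - Φ u ≤ (GG m).dist u v := by
  obtain ⟨p, hp⟩ := (conn m).exists_walk_length_eq_dist u v
  rw [← hp]
  clear hp
  induction p with
  | nil => simp
  | @cons a b c h p ih =>
    have h1 : |Φ a - Φ b| ≤ 1 := by
      rcases h with h | h | h | h
      · exact hB _ _ h
      · rw [abs_sub_comm]; exact hB _ _ h
      · exact hA _ _ h
      · rw [abs_sub_comm]; exact hA _ _ h
    rw [abs_le] at h1
    simp only [Walk.length_cons]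
    push_cast
    omega

lemma dist_lvl (u v : VV m) (h : u.l < v.l) :
    v.l - u.l + u.i + v.i ≤ (GG m).dist u v := by
  have := lip (fun w => (w.l : ℤ) + if w.l = v.l then (w.i : ℤ) else -(w.i : ℤ))
    (by intro a b hab; unfold Bs at hab; rw [abs_le]; split_ifs <;> omega)
    (by intro a b hab; unfold Ax at hab; rw [abs_le]; split_ifs <;> omega) u v
  simp only [if_true, h.ne, if_false] at this
  omega

lemma div_ax {a b : VV m} (h : Ax a b) (e : ℕ) : b.y / 2 ^ (e + 3) = a.y / 2 ^ e := by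
  rw [← h.2.2, Nat.div_div_eq_div_mul, pow_add, mul_comm]; rfl

lemma div_bs {a b : VV m} (h : Bs a b) (e : ℕ) : b.y / 2 ^ (e + 2) = a.y / 2 ^ (e + 1) := by
  have h1 : b.y / 2 ^ (e + 2) = b.y / 4 / 2 ^ e := by
    rw [Nat.div_div_eq_div_mul, pow_add, mul_comm]; rfl
  have h2 : a.y / 2 ^ (e + 1) = a.y / 2 / 2 ^ e := by
    rw [Nat.div_div_eq_div_mul, pow_add, mul_comm]; rfl
  rw [h1, h2, h.2.2.2]

lemma dist_roots (u v : VV m) (hu : u.i = 2 * m - 1) (hv : v.i = 2 * m - 1) 
    (hne : u.y ≠ v.y) : 2 * (2 * m - 1) ≤ (GG m).dist u v := by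
  have := lip (fun w => if w.y / 2 ^ (3 * (2 * m - 1 - w.i)) = v.y then (w.i : ℤ) else -(w.i : ℤ))
    (by intro a b hab; unfold Bs at hab; rw [abs_le]; split_ifs <;> omega)
    (by
      intro a b hab
      have h1 := div_ax hab (3 * (2 * m - 1 - a.i))
      have h2 := a.hi
      unfold Ax at hab
      have e : 3 * (2 * m - 1 - b.i) = 3 * (2 * m - 1 - a.i) + 3 := by omega
      simp only [e, h1]
      rw [abs_le]; split_ifs <;> omega) u v
  simp only [hu, hv, Nat.sub_self, mul_zero, pow_zero, Nat.div_one, if_true, hne, if_false] at this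
  omega

lemma dist_top (u v : VV m) (hul : u.l = 5 * m) (hvl : v.l = 5 * m)
    (hne : u.y / 2 ^ (m + 1) ≠ v.y / 2 ^ (m + 1)) : 2 * m ≤ (GG m).dist u v := by
  have := lip (fun w => if w.y / 2 ^ (w.l + 1 - 4 * m) = v.y / 2 ^ (m + 1) then
      ((min (w.l - 4 * m) (6 * m - w.l) : ℕ) : ℤ) else -((min (w.l - 4 * m) (6 * m - w.l) : ℕ) : ℤ))
    (by
      intro a b hab
      by_cases h : 4 * m ≤ a.l
      · have h1 := div_bs hab (a.l - 4 * m)
        unfold Bs at hab
        have e1 : b.l + 1 - 4 * m = a.l - 4 * m + 2 := by omega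
        have e2 : a.l + 1 - 4 * m = a.l - 4 * m + 1 := by omega
        simp only [e1, e2, h1]
        rw [abs_le]; split_ifs <;> omega
      · unfold Bs at hab
        rw [abs_le]; split_ifs <;> omega)
    (by
      intro a b hab
      have := a.hl
      unfold Ax at hab
      rw [abs_le]; split_ifs <;> omega) u v
  have e : 5 * m + 1 - 4 * m = m + 1 := by omega
  simp only [hul, hvl, e, if_true, hne, if_false] at this
  omega

lemma dist_grp (hm : 1 ≤ m) (u v : VV m) (hu : u.i = 2 * m - 1) (hv : v.i = 2 * m - 1)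
    (hul : 8 * m - 1 ≤ u.l) (hvl : 8 * m + 1 ≤ v.l)
    (hne : u.y / 2 ^ (u.l - (8 * m - 1)) ≠ v.y / 2 ^ (v.l - (8 * m - 1))) :
    4 * m < (GG m).dist u v := by
  have := lip (fun w => if 8 * m - 1 ≤ w.l then
      (if w.y / 2 ^ (3 * (2 * m - 1 - w.i) + (w.l - (8 * m - 1))) = v.y / 2 ^ (v.l - (8 * m - 1))
        then ((w.i + (w.l - (8 * m - 1)) + 1 : ℕ) : ℤ)
        else -((w.i + (w.l - (8 * m - 1)) + 1 : ℕ) : ℤ)) else 0)
    (by
      intro a b hab
      by_cases h : 8 * m - 1 ≤ a.l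
      · have h1 := div_bs hab (3 * (2 * m - 1) + (a.l - (8 * m - 1)) - 1)
        unfold Bs at hab
        have e1 : 3 * (2 * m - 1 - b.i) + (b.l - (8 * m - 1)) =
          3 * (2 * m - 1) + (a.l - (8 * m - 1)) - 1 + 2 := by omega
        have e2 : 3 * (2 * m - 1 - a.i) + (a.l - (8 * m - 1)) =
          3 * (2 * m - 1) + (a.l - (8 * m - 1)) - 1 + 1 := by omega
        simp only [e1, e2, h1]
        rw [abs_le]; split_ifs <;> omega
      · unfold Bs at hab
        rw [abs_le]; split_ifs <;> omega)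
    (by
      intro a b hab
      have h1 := div_ax hab (3 * (2 * m - 1 - a.i) + (a.l - (8 * m - 1)))
      have h2 := a.hi
      unfold Ax at hab
      have e : 3 * (2 * m - 1 - b.i) + (b.l - (8 * m - 1)) =
        3 * (2 * m - 1 - a.i) + (a.l - (8 * m - 1)) + 3 := by omega
      simp only [e, h1]
      rw [abs_le]; split_ifs <;> omega) u v
  have h3 : 8 * m - 1 ≤ v.l := by omega
  simp only [hu, hv, Nat.sub_self, mul_zero, zero_add, if_true, hne, if_false, hul, h3] at this
  omega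

lemma to_root (n : ℕ) : ∀ v : VV m, 6 * m ≤ v.l → v.i + n = 2 * m - 1 →
    ∃ u : VV m, u.i = 2 * m - 1 ∧ u.l = v.l ∧ (GG m).dist v u ≤ n := by
  induction n with
  | zero => intro v _ h; exact ⟨v, h, rfl, by simp⟩
  | succ n ih =>
    intro v hl h
    obtain ⟨w, hw⟩ := ax_parent v hl (by omega)
    have h1 := hw.1
    have h2 := hw.2.1
    obtain ⟨u, a, b, c⟩ := ih w (by omega) (by omega)
    refine ⟨u, a, by omega, ?_⟩
    have := (conn m).dist_triangle (u := v) (v := w) (w := u)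
    rw [dist_eq_one_iff_adj.2 (adj_Ax hw).symm] at this
    omega

lemma fin_lvl (n : ℕ) : {v : VV m | v.l ≤ n}.Finite := by
  apply Set.Finite.of_finite_image (f := tri) _ tri_inj.injOn
  apply Set.Finite.subset
    ((Set.finite_Iic n).prod ((Set.finite_Iic (2 * m)).prod (Set.finite_Iic (2 ^ (n + 1)))))
  rintro _ ⟨v, hv, rfl⟩
  have h1 := v.hi
  have h2 := v.hy
  have hv' : v.l ≤ n := hv
  have h3 : 2 ^ (v.l + 1 - 3 * v.i) ≤ 2 ^ (n + 1) := Nat.pow_le_pow_right (by norm_num) (by omega)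
  refine ⟨hv', ?_, ?_⟩
  · show v.i ≤ 2 * m
    omega
  · show v.y ≤ 2 ^ (n + 1)
    omega

end Pool.Agent.H9.NetG
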