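import Mathlib

set_option autoImplicit false

namespace Pool.Agent.H9.Orth

open scoped InnerProductSpace

variable {V : Type} [NormedAddCommGroup V] [InnerProductSpace ℝ V]

/-- decomposition along a finite-dimensional subspace -/
lemma decomp (F : Submodule ℝ V) [FiniteDimensional ℝ F] (x : V) :
    ∃ q ∈ F, (∀ w ∈ F, ⟪x - q, w⟫_ℝ = 0) ∧ ‖q‖ ≤ ‖x‖ ∧ ‖x - q‖ ≤ ‖x‖ := by
  have : CompleteSpace F := FiniteDimensional.complete ℝ F
  refine ⟨F.starProjection x, F.starProjection_apply_mem x,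
    fun w hw => Submodule.starProjection_inner_eq_zero x w hw, F.norm_starProjection_apply_le x, ?_⟩
  rw [← Submodule.starProjection_orthogonal_val]
  exact Submodule.norm_starProjection_apply_le _ x

lemma bump (ev : V →ₗ[ℝ] ℝ) (hev : ∀ δ > 0, ∃ β : V, ev β = 1 ∧ ‖β‖ < δ)
    (F : Submodule ℝ V) [FiniteDimensional ℝ F] (δ : ℝ) (hδ : 0 < δ) :
    ∃ b : V, ev b = 1 ∧ ‖b‖ < δ ∧ ∀ w ∈ F, ⟪b, w⟫_ℝ = 0 := by
  obtain ⟨C, hC0, hC⟩ : ∃ C : ℝ, 0 < C ∧ ∀ q ∈ F, |ev q| ≤ C * ‖q‖ := by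
    let g : F →L[ℝ] ℝ := LinearMap.toContinuousLinearMap (ev.comp F.subtype)
    refine ⟨‖g‖ + 1, by positivity, fun q hq => ?_⟩
    have := g.le_opNorm ⟨q, hq⟩
    have h2 : g ⟨q, hq⟩ = ev q := rfl
    rw [h2] at this
    have h3 : ‖(⟨q, hq⟩ : F)‖ = ‖q‖ := rfl
    rw [h3, Real.norm_eq_abs] at this
    nlinarith [norm_nonneg q]
  obtain ⟨β, hβ1, hβ⟩ := hev (min (δ / 2) (1 / (2 * C))) (by positivity)
  obtain ⟨q, hqF, hq, hq1, hq2⟩ := decomp F β
  have hb1 : ‖β‖ < δ / 2 := hβ.trans_le (min_le_left _ _)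
  have hb2 : ‖β‖ < 1 / (2 * C) := hβ.trans_le (min_le_right _ _)
  have hevq : |ev q| ≤ 1 / 2 := by
    calc |ev q| ≤ C * ‖q‖ := hC q hqF
      _ ≤ C * (1 / (2 * C)) := by gcongr; linarith
      _ = 1 / 2 := by field_simp
  have hpos : 1 / 2 ≤ 1 - ev q := by linarith [le_abs_self (ev q)]
  have hne : 1 - ev q ≠ 0 := by linarith
  refine ⟨(1 - ev q)⁻¹ • (β - q), ?_, ?_, ?_⟩
  · rw [map_smul, map_sub, hβ1, smul_eq_mul, inv_mul_cancel₀ hne]
  · rw [norm_smul, Real.norm_eq_abs, abs_of_pos (by positivity)]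
    have : (1 - ev q)⁻¹ ≤ 2 := by
      rw [inv_le_comm₀ (by linarith) (by norm_num)]; linarith
    calc (1 - ev q)⁻¹ * ‖β - q‖ ≤ 2 * ‖β‖ := by gcongr
      _ < δ := by linarith
  · intro w hw
    rw [inner_smul_left, hq w hw]; simp

lemma step (ev : V →ₗ[ℝ] ℝ) (hev : ∀ δ > 0, ∃ β : V, ev β = 1 ∧ ‖β‖ < δ) (one : V)
    (E : Submodule ℝ V) [FiniteDimensional ℝ E] (h : V) (hE : ∀ w ∈ E, ⟪h, w⟫_ℝ = 0)
    (hn : h ∉ E ⊔ Submodule.span ℝ {one}) :
    ∃ u v : V, h = u + v ∧ (∀ w ∈ E, ⟪u, w⟫_ℝ = 0) ∧ (∀ w ∈ E, ⟪v, w⟫_ℝ = 0) ∧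
      ⟪u, v⟫_ℝ = 0 ∧ ⟪u, one⟫_ℝ = 0 ∧ ev v = 0 := by
  set F := E ⊔ Submodule.span ℝ {one} with hF
  obtain ⟨q, hqF, hq, -, -⟩ := decomp F h
  set p := h - q with hp
  have hp0 : p ≠ 0 := by
    intro h0
    apply hn
    have : h = q := sub_eq_zero.mp h0
    rw [this]; exact hqF
  have hpp : 0 < ‖p‖ := norm_pos_iff.mpr hp0
  set a := ev h
  set c := ev p
  obtain ⟨b, hb1, hb2, hb3⟩ := bump ev hev (F ⊔ Submodule.span ℝ {p})
    (‖p‖ / (2 * (|a - c / 2| + 1))) (by positivity)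
  have hbF : ∀ w ∈ F, ⟪b, w⟫_ℝ = 0 := fun w hw => hb3 w (Submodule.mem_sup_left hw)
  have hbp : ⟪b, p⟫_ℝ = 0 :=
    hb3 p (Submodule.mem_sup_right (Submodule.mem_span_singleton_self p))
  let f : ℝ → ℝ := fun s => s ^ 2 * ‖p‖ ^ 2 - s * ‖p‖ ^ 2 + (a - s * c) ^ 2 * ‖b‖ ^ 2
  have hf : Continuous f := by fun_prop
  have h0 : 0 ≤ f 0 := by simp only [f]; nlinarith [sq_nonneg (a * ‖b‖)]
  have h1 : f (1 / 2) ≤ 0 := by
    simp only [f]
    have : |a - c / 2| * ‖b‖ ≤ ‖p‖ / 2 := by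
      rw [lt_div_iff₀ (by positivity)] at hb2
      nlinarith [norm_nonneg b, abs_nonneg (a - c / 2)]
    have h2 : (|a - c / 2| * ‖b‖) ^ 2 ≤ (‖p‖ / 2) ^ 2 := by gcongr
    rw [mul_pow, sq_abs] at h2
    have : a - 1 / 2 * c = a - c / 2 := by ring
    rw [this]
    nlinarith
  obtain ⟨s, -, hs⟩ : ∃ s ∈ Set.Icc (0 : ℝ) (1 / 2), f s = 0 :=
    intermediate_value_Icc' (by norm_num) hf.continuousOn ⟨h1, h0⟩
  set u := s • p + (a - s * c) • b with hu
  have huF : ∀ w ∈ F, ⟪u, w⟫_ℝ = 0 := by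
    intro w hw
    rw [hu, inner_add_left, inner_smul_left, inner_smul_left, hq w hw, hbF w hw]; simp
  refine ⟨u, h - u, by abel, fun w hw => huF w (Submodule.mem_sup_left hw), ?_, ?_, ?_, ?_⟩
  · intro w hw
    rw [inner_sub_left, hE w hw, huF w (Submodule.mem_sup_left hw)]; simp
  · have hh : h = p + q := by rw [hp]; abel
    have e1 : ⟪u, h⟫_ℝ = s * ‖p‖ ^ 2 := by
      rw [hh, inner_add_right, huF q hqF, hu, inner_add_left, inner_smul_left, inner_smul_left,
        hbp, real_inner_self_eq_norm_sq]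
      simp
    have hpb : ⟪p, b⟫_ℝ = 0 := by rw [real_inner_comm]; exact hbp
    have e2 : ⟪u, u⟫_ℝ = s ^ 2 * ‖p‖ ^ 2 + (a - s * c) ^ 2 * ‖b‖ ^ 2 := by
      rw [hu]
      simp only [inner_add_left, inner_add_right, inner_smul_left, inner_smul_right, hbp, hpb,
        real_inner_self_eq_norm_sq, conj_trivial]
      ring
    rw [inner_sub_right, e1, e2]
    simp only [f] at hs
    linarith
  · exact huF one (Submodule.mem_sup_right (Submodule.mem_span_singleton_self one))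
  · rw [map_sub, hu, map_add, map_smul, map_smul, hb1]
    simp only [smul_eq_mul]
    ring

/-- good finite sets -/
def Good (ev : V →ₗ[ℝ] ℝ) (one : V) (S : Finset V) : Prop :=
  (∀ x ∈ S, x ≠ 0) ∧ (∀ x ∈ S, ∀ y ∈ S, x ≠ y → ⟪x, y⟫_ℝ = 0) ∧
    ∀ x ∈ S, ⟪x, one⟫_ℝ = 0 ∨ ev x = 0

lemma good_insert (ev : V →ₗ[ℝ] ℝ) (one : V) (S : Finset V) (hS : Good ev one S) (u : V)
    (hu : ∀ w ∈ S, ⟪u, w⟫_ℝ = 0) (hu2 : ⟪u, one⟫_ℝ = 0 ∨ ev u = 0) :
    ∃ T : Finset V, Good ev one T ∧ S ⊆ T ∧ u ∈ Submodule.span ℝ (T : Set V) ∧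
      (u ≠ 0 → S.card < T.card) ∧ ∀ x ∈ T, x ∈ S ∨ x = u := by
  classical
  by_cases h0 : u = 0
  · exact ⟨S, hS, le_rfl, by rw [h0]; exact Submodule.zero_mem _, fun h => absurd h0 h,
      fun x hx => Or.inl hx⟩
  · have hnot : u ∉ S := by
      intro h
      exact h0 (inner_self_eq_zero.mp (hu u h))
    refine ⟨insert u S, ⟨?_, ?_, ?_⟩, Finset.subset_insert _ _,
      Submodule.subset_span (by simp), fun _ => by rw [Finset.card_insert_of_notMem hnot]; omega,
      fun x hx => by simpa [or_comm] using hx⟩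
    · intro x hx
      rcases Finset.mem_insert.mp hx with rfl | hx
      · exact h0
      · exact hS.1 x hx
    · intro x hx y hy hxy
      rcases Finset.mem_insert.mp hx with hx1 | hx1
      · rcases Finset.mem_insert.mp hy with hy1 | hy1
        · exact absurd (hx1.trans hy1.symm) hxy
        · rw [hx1]; exact hu y hy1
      · rcases Finset.mem_insert.mp hy with hy1 | hy1
        · rw [real_inner_comm, hy1]; exact hu x hx1
        · exact hS.2.1 x hx1 y hy1 hxy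
    · intro x hx
      rcases Finset.mem_insert.mp hx with rfl | hx
      · exact hu2
      · exact hS.2.2 x hx

lemma extend (ev : V →ₗ[ℝ] ℝ) (hev : ∀ δ > 0, ∃ β : V, ev β = 1 ∧ ‖β‖ < δ) (one : V)
    {X : Type} [NormedAddCommGroup X] [NormedSpace ℝ X] (ι : V ≃ₗ[ℝ] X)
    (S : Finset V) (hS : Good ev one S) (x : X) (ε : ℝ) (hε : 0 < ε) :
    ∃ T : Finset V, Good ev one T ∧ S ⊆ T ∧ S.card < T.card ∧
      ∃ y ∈ Submodule.span ℝ (T : Set V), ‖x - ι y‖ < ε := by
  set E := Submodule.span ℝ (S : Set V) with hE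
  set F := E ⊔ Submodule.span ℝ {one} with hF
  obtain ⟨g, hgF, hg⟩ : ∃ g : V, g ∉ F ∧ ‖x - ι g‖ < ε := by
    by_cases h : ι.symm x ∈ F
    · obtain ⟨b, hb1, -, hb3⟩ := bump ev hev F 1 one_pos
      have hbF : b ∉ F := by
        intro hb
        have : b = 0 := inner_self_eq_zero.mp (hb3 b hb)
        rw [this, map_zero] at hb1
        exact zero_ne_one hb1
      set t : ℝ := ε / (‖ι b‖ + 1) with ht
      have ht0 : 0 < t := by positivity
      refine ⟨ι.symm x + t • b, ?_, ?_⟩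
      · intro hm
        apply hbF
        have h1 : t • b ∈ F := by
          have := F.sub_mem hm h
          simpa using this
        have h2 := F.smul_mem t⁻¹ h1
        rwa [smul_smul, inv_mul_cancel₀ ht0.ne', one_smul] at h2
      · rw [map_add, map_smul, LinearEquiv.apply_symm_apply]
        have : x - (x + t • ι b) = -(t • ι b) := by abel
        rw [this, norm_neg, norm_smul, Real.norm_eq_abs, abs_of_pos ht0, ht, div_mul_eq_mul_div,
          div_lt_iff₀ (by positivity)]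
        nlinarith
    · exact ⟨ι.symm x, h, by simpa using hε⟩
  obtain ⟨q, hqE, hq, -, -⟩ := decomp E g
  have hn : g - q ∉ F := by
    intro h
    apply hgF
    have := F.add_mem h (Submodule.mem_sup_left hqE)
    simpa using this
  obtain ⟨u, v, huv, hu, hv, huv0, hu1, hv1⟩ := step ev hev one E (g - q) hq hn
  obtain ⟨T1, hT1, hST1, huT1, hc1, hm1⟩ := good_insert ev one S hS u
    (fun w hw => hu w (Submodule.subset_span hw)) (Or.inl hu1)
  obtain ⟨T2, hT2, hST2, hvT2, hc2, -⟩ := good_insert ev one T1 hT1 v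
    (fun w hw => by
      rcases hm1 w hw with h | h
      · exact hv w (Submodule.subset_span h)
      · rw [h, real_inner_comm]; exact huv0) (Or.inr hv1)
  refine ⟨T2, hT2, hST1.trans hST2, ?_, g, ?_, hg⟩
  · by_cases hu0 : u = 0
    · have hv0 : v ≠ 0 := by
        intro hv0
        apply hn
        rw [huv, hu0, hv0, add_zero]; exact F.zero_mem
      exact (Finset.card_le_card hST1).trans_lt (hc2 hv0)
    · exact (hc1 hu0).trans_le (Finset.card_le_card hST2)
  · have : g = q + (u + v) := by rw [← huv]; abel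
    rw [this]
    refine Submodule.add_mem _ ?_ (Submodule.add_mem _ ?_ hvT2)
    · exact Submodule.span_mono (by exact_mod_cast hST1.trans hST2) hqE
    · exact Submodule.span_mono (by exact_mod_cast hST2) huT1

theorem abstract (ev : V →ₗ[ℝ] ℝ) (hev : ∀ δ > 0, ∃ β : V, ev β = 1 ∧ ‖β‖ < δ) (one : V)
    {X : Type} [NormedAddCommGroup X] [NormedSpace ℝ X] [TopologicalSpace.SeparableSpace X]
    (ι : V ≃ₗ[ℝ] X) :
    ∃ φ : ℕ → V, (∀ n, φ n ≠ 0) ∧ (∀ m n, m ≠ n → ⟪φ m, φ n⟫_ℝ = 0) ∧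
      (∀ n, ⟪φ n, one⟫_ℝ = 0 ∨ ev (φ n) = 0) ∧
      ∀ x : X, ∀ ε > 0, ∃ s : Finset ℕ, ∃ c : ℕ → ℝ, ‖x - ι (∑ i ∈ s, c i • φ i)‖ < ε := by
  classical
  let g : ℕ → X := TopologicalSpace.denseSeq X
  have hex : ∀ (k : ℕ) (S : {S : Finset V // Good ev one S}),
      ∃ T : {S : Finset V // Good ev one S}, S.1 ⊆ T.1 ∧ S.1.card < T.1.card ∧
      ∃ y ∈ Submodule.span ℝ (T.1 : Set V), ‖g (Nat.unpair k).1 - ι y‖
        < 1 / (((Nat.unpair k).2 : ℝ) + 1) := by
    intro k S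
    obtain ⟨T, h1, h2, h3, h4⟩ := extend ev hev one ι S.1 S.2 (g (Nat.unpair k).1)
      (1 / (((Nat.unpair k).2 : ℝ) + 1)) (by positivity)
    exact ⟨⟨T, h1⟩, h2, h3, h4⟩
  choose nx hnx using hex
  let S : ℕ → {S : Finset V // Good ev one S} := fun k =>
    Nat.rec ⟨∅, by simp [Good]⟩ (fun k T => nx k T) k
  have hS : ∀ k, S (k + 1) = nx k (S k) := fun k => rfl
  have hmono : Monotone (fun k => (S k).1) := by
    apply monotone_nat_of_le_succ
    intro k
    rw [hS]; exact (hnx k (S k)).1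
  have hcard : ∀ k, k ≤ (S k).1.card := by
    intro k
    induction k with
    | zero => exact Nat.zero_le _
    | succ k ih =>
      have := (hnx k (S k)).2.1
      rw [← hS] at this
      omega
  let U : Set V := ⋃ k, ((S k).1 : Set V)
  have hUc : U.Countable := Set.countable_iUnion fun k => (S k).1.countable_toSet
  have hUi : U.Infinite := by
    intro hfin
    have h1 : (S (hfin.toFinset.card + 1)).1 ⊆ hfin.toFinset := by
      intro x hx
      rw [Set.Finite.mem_toFinset]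
      exact Set.mem_iUnion.mpr ⟨hfin.toFinset.card + 1, hx⟩
    have := Finset.card_le_card h1
    have := hcard (hfin.toFinset.card + 1)
    omega
  have := hUc.to_subtype
  have := hUi.to_subtype
  obtain ⟨e⟩ : Nonempty (ℕ ≃ U) := nonempty_equiv_of_countable
  have hmem : ∀ n, ∃ k, (e n).1 ∈ (S k).1 := fun n => Set.mem_iUnion.mp (e n).2
  refine ⟨fun n => (e n).1, ?_, ?_, ?_, ?_⟩
  · intro n
    obtain ⟨k, hk⟩ := hmem n
    exact (S k).2.1 _ hk
  · intro m n hmn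
    obtain ⟨k, hk⟩ := hmem m
    obtain ⟨l, hl⟩ := hmem n
    refine (S (max k l)).2.2.1 _ (hmono (le_max_left k l) hk) _ (hmono (le_max_right k l) hl) ?_
    intro h
    exact hmn (e.injective (Subtype.ext h))
  · intro n
    obtain ⟨k, hk⟩ := hmem n
    exact (S k).2.2.2 _ hk
  · intro x ε hε
    obtain ⟨i, hi⟩ := (TopologicalSpace.denseRange_denseSeq X).exists_dist_lt x (half_pos hε)
    obtain ⟨j, hj⟩ := exists_nat_one_div_lt (half_pos hε)
    obtain ⟨y, hy, hy2⟩ := (hnx (Nat.pair i j) (S (Nat.pair i j))).2.2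
    rw [← hS] at hy
    simp only [Nat.unpair_pair] at hy2
    have hy' : y ∈ Submodule.span ℝ (Set.range fun n => (e n).1) := by
      refine Submodule.span_mono ?_ hy
      intro z hz
      have hzU : z ∈ U := Set.mem_iUnion.mpr ⟨Nat.pair i j + 1, hz⟩
      exact ⟨e.symm ⟨z, hzU⟩, by simp⟩
    obtain ⟨c, hc⟩ := Finsupp.mem_span_range_iff_exists_finsupp.mp hy'
    refine ⟨c.support, c, ?_⟩
    have : ∑ i ∈ c.support, c i • (e i).1 = y := hc
    rw [this]
    rw [dist_eq_norm] at hi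
    calc ‖x - ι y‖ = ‖(x - g i) + (g i - ι y)‖ := by congr 1; abel
      _ ≤ ‖x - g i‖ + ‖g i - ι y‖ := norm_add_le _ _
      _ < ε / 2 + ε / 2 := add_lt_add hi (hy2.trans hj)
      _ = ε := by ring

/-- concrete model -/
def W : Type := C(Set.Icc (0 : ℝ) 1, ℝ)

noncomputable instance : AddCommGroup W := inferInstanceAs (AddCommGroup C(Set.Icc (0 : ℝ) 1, ℝ))
noncomputable instance : Module ℝ W := inferInstanceAs (Module ℝ C(Set.Icc (0 : ℝ) 1, ℝ))

def toC (f : W) : C(Set.Icc (0 : ℝ) 1, ℝ) := f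

noncomputable def ext (f : W) : ℝ → ℝ := Set.IccExtend zero_le_one (toC f)

lemma ext_cont (f : W) : Continuous (ext f) := (toC f).continuous.Icc_extend'

lemma ext_add (f g : W) (t : ℝ) : ext (f + g) t = ext f t + ext g t := rfl
lemma ext_smul (r : ℝ) (g : W) (t : ℝ) : ext (r • g) t = r * ext g t := rfl
lemma ext_mem (f : W) (t : ℝ) (ht : t ∈ Set.Icc (0 : ℝ) 1) : ext f t = toC f ⟨t, ht⟩ :=
  Set.IccExtend_of_mem _ _ ht

noncomputable def core : InnerProductSpace.Core ℝ W where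
  inner f g := ∫ t in (0 : ℝ)..1, ext f t * ext g t
  conj_inner_symm f g := by
    simp only [conj_trivial]
    congr 1; funext t; ring
  re_inner_nonneg f := by
    simp only [RCLike.re_to_real]
    exact intervalIntegral.integral_nonneg zero_le_one fun t _ => mul_self_nonneg _
  add_left f g h := by
    simp only [ext_add, add_mul]
    exact intervalIntegral.integral_add
      (((ext_cont f).mul (ext_cont h)).intervalIntegrable _ _)
      (((ext_cont g).mul (ext_cont h)).intervalIntegrable _ _)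
  smul_left f g r := by
    simp only [ext_smul, conj_trivial, mul_assoc]
    exact intervalIntegral.integral_const_mul _ _
  definite f hf := by
    by_contra hne
    have : ∃ t : Set.Icc (0 : ℝ) 1, toC f t ≠ 0 := by
      by_contra h
      push Not at h
      exact hne (ContinuousMap.ext h)
    obtain ⟨t, ht⟩ := this
    have hpos : 0 < ∫ t in (0 : ℝ)..1, ext f t * ext f t := by
      apply intervalIntegral.integral_pos zero_lt_one
        ((ext_cont f).mul (ext_cont f)).continuousOn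
      · intro x _; exact mul_self_nonneg _
      · refine ⟨t, t.2, ?_⟩
        show 0 < ext f t * ext f t
        rw [ext_mem f t t.2]
        exact mul_self_pos.mpr ht
    exact hpos.ne' hf

noncomputable instance : NormedAddCommGroup W :=
  @InnerProductSpace.Core.toNormedAddCommGroup ℝ W _ _ _ core

noncomputable instance : InnerProductSpace ℝ W := InnerProductSpace.ofCore core.toCore

lemma inner_eq (f g : W) : ⟪f, g⟫_ℝ = ∫ t in (0 : ℝ)..1, ext f t * ext g t := rfl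

noncomputable def iota : W ≃ₗ[ℝ] C(Set.Icc (0 : ℝ) 1, ℝ) := LinearEquiv.refl ℝ _

noncomputable def ev0 : W →ₗ[ℝ] ℝ where
  toFun f := ext f 0
  map_add' f g := ext_add f g 0
  map_smul' r f := ext_smul r f 0

noncomputable def oneW : W := (1 : C(Set.Icc (0 : ℝ) 1, ℝ))

lemma ext_one (t : ℝ) : ext oneW t = 1 := rfl

lemma hev0 : ∀ δ > 0, ∃ β : W, ev0 β = 1 ∧ ‖β‖ < δ := by
  intro δ hδ
  obtain ⟨n, hn⟩ := exists_nat_one_div_lt (show 0 < δ ^ 2 by positivity)
  let β : W := (⟨fun t => (1 - t.1) ^ n, by fun_prop⟩ : C(Set.Icc (0 : ℝ) 1, ℝ))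
  have hβ : ∀ t ∈ Set.Icc (0 : ℝ) 1, ext β t = (1 - t) ^ n := fun t ht => ext_mem β t ht
  refine ⟨β, ?_, ?_⟩
  · show ext β 0 = 1
    rw [hβ 0 (by simp)]; simp
  · have h1 : ‖β‖ ^ 2 = 1 / (((2 * n : ℕ) : ℝ) + 1) := by
      rw [← real_inner_self_eq_norm_sq, inner_eq]
      have : ∫ t in (0 : ℝ)..1, ext β t * ext β t = ∫ t in (0 : ℝ)..1, (1 - t) ^ (2 * n) := by
        apply intervalIntegral.integral_congr
        intro t ht
        rw [Set.uIcc_of_le zero_le_one] at ht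
        simp only [hβ t ht]
        ring
      rw [this, intervalIntegral.integral_comp_sub_left (fun x => x ^ (2 * n)) 1, integral_pow]
      simp
    have h2 : 1 / (((2 * n : ℕ) : ℝ) + 1) ≤ 1 / ((n : ℝ) + 1) := by
      apply one_div_le_one_div_of_le (by positivity)
      push_cast
      have : (0 : ℝ) ≤ n := Nat.cast_nonneg n
      linarith
    have h3 : ‖β‖ ^ 2 < δ ^ 2 := by rw [h1]; exact h2.trans_lt hn
    exact lt_of_pow_lt_pow_left₀ 2 hδ.le h3

lemma ext_sum (s : Finset ℕ) (c : ℕ → ℝ) (φ : ℕ → W) (t : ℝ) :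
    ext (∑ i ∈ s, c i • φ i) t = ∑ i ∈ s, c i * ext (φ i) t := by
  classical
  induction s using Finset.induction_on with
  | empty => rfl
  | insert a s ha ih => rw [Finset.sum_insert ha, Finset.sum_insert ha, ext_add, ext_smul, ih]

theorem main : ∃ φ : ℕ → ℝ → ℝ,
      (∀ n, ContinuousOn (φ n) (Set.Icc (0:ℝ) 1)) ∧
      (∀ n, ∃ t ∈ Set.Icc (0:ℝ) 1, φ n t ≠ 0) ∧
      (∀ m n : ℕ, m ≠ n → ∫ t in (0:ℝ)..1, φ m t * φ n t = 0) ∧
      (∀ g : ℝ → ℝ, ContinuousOn g (Set.Icc (0:ℝ) 1) → ∀ ε : ℝ, ε > 0 →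
        ∃ s : Finset ℕ, ∃ c : ℕ → ℝ,
          ∀ t ∈ Set.Icc (0:ℝ) 1, |g t - ∑ i ∈ s, c i * φ i t| < ε) ∧
      ∀ n, (∫ t in (0:ℝ)..1, φ n t) = 0 ∨ φ n 0 = 0 := by
  obtain ⟨φ, h1, h2, h3, h4⟩ := abstract ev0 hev0 oneW iota
  refine ⟨fun n => ext (φ n), fun n => (ext_cont _).continuousOn, ?_, h2, ?_, ?_⟩
  · intro n
    by_contra h
    push Not at h
    apply h1 n
    apply ContinuousMap.ext
    intro t
    have := h t t.2
    rw [ext_mem _ _ t.2] at this
    exact this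
  · intro g hg ε hε
    obtain ⟨s, c, hs⟩ := h4 ⟨(Set.Icc (0 : ℝ) 1).domRestrict g, hg.domRestrict⟩ ε hε
    refine ⟨s, c, fun t ht => ?_⟩
    have := (ContinuousMap.norm_coe_le_norm _ ⟨t, ht⟩).trans_lt hs
    rw [← ext_sum, ext_mem _ _ ht]
    exact this
  · intro n
    rcases h3 n with h | h
    · left
      rw [inner_eq] at h
      simpa [ext_one] using h
    · right; exact h

end Pool.Agent.H9.Orth
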