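import Mathlib

namespace Pool.Agent.H9.PW
open Matrix Complex MeasureTheory

/-- adjacency matrix of the path on `n` vertices -/
def adj (n : ℕ) : Matrix (Fin n) (Fin n) ℂ :=
  Matrix.of fun a b => if a.val + 1 = b.val ∨ b.val + 1 = a.val then 1 else 0

/-- the quantum walk `exp (i t A)` -/
noncomputable def walk (n : ℕ) (t : ℝ) : Matrix (Fin n) (Fin n) ℂ :=
  NormedSpace.exp ((I * t) • adj n)

/-- the mixing matrix -/
noncomputable def mix (n : ℕ) (t : ℝ) : Matrix (Fin n) (Fin n) ℝ :=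
  Matrix.of fun a b => normSq (walk n t a b)

/-- the mixing matrix averaged against a density -/
noncomputable def avg (n : ℕ) (f : ℝ → ℝ) : Matrix (Fin n) (Fin n) ℝ :=
  Matrix.of fun a b => ∫ s, f s * mix n s a b

noncomputable abbrev ψ : AddChar (ZMod 24) ℂ := ZMod.stdAddChar

def ι (a : Fin 11) : ZMod 24 := ((a.val + 1 : ℕ) : ZMod 24)

noncomputable def sn (x r : ZMod 24) : ℂ := ψ (x * r) - ψ (-(x * r))
noncomputable def cs (x k : ZMod 24) : ℂ := ψ (x * k) + ψ (-(x * k))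

lemma key : ∀ x : ZMod 24, (if x = 0 then 1 else 0) + (if x = 12 then 1 else 0) +
    (∑ a, if x = ι a then 1 else 0) + (∑ a, if x = -ι a then 1 else 0) = (1 : ℕ) := by
  decide +kernel

lemma half (h : ZMod 24 → ℂ) (h0 : h 0 = 0) (h12 : h 12 = 0) (he : ∀ x, h (-x) = h x) :
    ∑ x, h x = 2 * ∑ a, h (ι a) := by
  have e : ∀ x, h x = (if x = 0 then h x else 0) + (if x = 12 then h x else 0) +
      (∑ a, if x = ι a then h x else 0) + (∑ a, if x = -ι a then h x else 0) := by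
    intro x
    have := congrArg (fun m : ℕ => (m : ℂ) * h x) (key x)
    simp only [Nat.cast_add, Nat.cast_sum, Nat.cast_ite, Nat.cast_one, Nat.cast_zero, add_mul,
      Finset.sum_mul, ite_mul, one_mul, zero_mul] at this
    exact this.symm
  rw [Finset.sum_congr rfl fun x _ => e x]
  simp only [Finset.sum_add_distrib]
  rw [Finset.sum_comm (f := fun x a => if x = ι a then h x else 0),
    Finset.sum_comm (f := fun x a => if x = -ι a then h x else 0)]
  simp [h0, h12, he, two_mul]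

def dl (j : ZMod 24) : ℤ := if j = 0 then 1 else 0
def BB (k r s : ZMod 24) : ℤ := dl (r + s + k) + dl (r + s - k) + dl (-r - s + k) +
  dl (-r - s - k) - dl (r - s + k) - dl (r - s - k) - dl (s - r + k) - dl (s - r - k)

lemma orth (j : ZMod 24) : ∑ x, ψ (x * j) = 24 * (dl j : ℂ) := by
  rw [AddChar.sum_mulShift j (ZMod.isPrimitive_stdAddChar 24), dl]
  split_ifs <;> simp

lemma sn12 (r : ZMod 24) : sn 12 r = 0 := by
  have : ∀ r : ZMod 24, -(12 * r) = 12 * r := by decide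
  rw [sn, this, sub_self]

lemma sumB (k r s : ZMod 24) : ∑ a, sn (ι a) r * sn (ι a) s * cs (ι a) k = 12 * (BB k r s : ℂ) := by
  have h := half (fun x => sn x r * sn x s * cs x k) (by simp [sn]) (by simp [sn12])
    (fun x => by simp only [sn, cs, neg_mul, neg_neg]; ring)
  have e : ∀ x, sn x r * sn x s * cs x k = ψ (x * (r + s + k)) + ψ (x * (r + s - k)) +
      ψ (x * (-r - s + k)) + ψ (x * (-r - s - k)) - ψ (x * (r - s + k)) - ψ (x * (r - s - k)) -
      ψ (x * (s - r + k)) - ψ (x * (s - r - k)) := by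
    intro x
    simp only [sn, cs, sub_eq_add_neg, mul_add, mul_neg, AddChar.map_add_eq_mul]
    ring
  simp only [e, Finset.sum_add_distrib, Finset.sum_sub_distrib, orth] at h
  simp only [e, Finset.sum_add_distrib, Finset.sum_sub_distrib, BB]
  push_cast
  linear_combination (-1 / 2) * h

noncomputable def S : Matrix (Fin 11) (Fin 11) ℂ := Matrix.of fun a r => sn (ι a) (ι r)
noncomputable def th (r : ZMod 24) : ℂ := cs 1 r

lemma B0 : ∀ r s : Fin 11, BB 0 (ι r) (ι s) = if r = s then -4 else 0 := by decide +kernel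

lemma sn_comm (x r : ZMod 24) : sn x r = sn r x := by simp only [sn, mul_comm]

lemma sumS (r s : Fin 11) : ∑ a, sn (ι a) (ι r) * sn (ι a) (ι s) = if r = s then -24 else 0 := by
  have := sumB 0 (ι r) (ι s)
  simp only [cs, mul_zero, neg_zero, AddChar.map_zero_eq_one, B0, ← Finset.sum_mul] at this
  split_ifs at this ⊢ <;> push_cast at this <;> linear_combination (1 / 2) * this

lemma SS : S * ((-1 / 24 : ℂ) • S) = 1 := by
  ext r s
  simp only [Matrix.mul_apply, S, Matrix.of_apply, Matrix.smul_apply, smul_eq_mul, one_apply]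
  have := sumS r s
  simp only [mul_left_comm _ (-1 / 24 : ℂ), ← Finset.mul_sum, sn_comm (ι r), this]
  split_ifs <;> norm_num

lemma nb (g : ZMod 24 → ℂ) (h0 : g 0 = 0) (h12 : g 12 = 0) (a : Fin 11) :
    ∑ b, adj 11 a b * g (ι b) = g (ι a - 1) + g (ι a + 1) := by
  fin_cases a <;> simp [adj, ι, Fin.sum_univ_succ] <;> norm_num [h0, h12]

lemma AS : adj 11 * S = S * diagonal fun r => th (ι r) := by
  ext a r
  rw [mul_diagonal, Matrix.mul_apply]
  simp only [S, Matrix.of_apply]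
  rw [nb (fun x => sn x (ι r)) (by simp [sn]) (sn12 _)]
  simp only [sn, th, cs, sub_eq_add_neg, add_mul, neg_mul, neg_add, one_mul, neg_neg,
    AddChar.map_add_eq_mul]
  ring

lemma walk_eq (t : ℝ) (a b : Fin 11) : walk 11 t a b =
    (-1 / 24) * ∑ r, sn (ι a) (ι r) * cexp (I * t * th (ι r)) * sn (ι b) (ι r) := by
  have hi : S⁻¹ = (-1 / 24 : ℂ) • S := Matrix.inv_eq_right_inv SS
  have hu : IsUnit S := IsUnit.of_mul_eq_one _ SS
  have h1 : (I * t) • adj 11 = S * diagonal (fun r => I * t * th (ι r)) * S⁻¹ := by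
    have : diagonal (fun r => I * t * th (ι r)) = (I * t) • diagonal fun r => th (ι r) := by
      rw [← diagonal_smul]; rfl
    rw [this, mul_smul_comm, ← AS, smul_mul_assoc, Matrix.mul_assoc, hi, SS, Matrix.mul_one]
  rw [walk, h1, Matrix.exp_conj _ _ hu, Matrix.exp_diagonal, hi, Matrix.mul_apply,
    Finset.mul_sum]
  refine Finset.sum_congr rfl fun r _ => ?_
  rw [mul_diagonal, Pi.exp_def, ← Complex.exp_eq_exp_ℂ]
  simp only [S, Matrix.of_apply, Matrix.smul_apply, smul_eq_mul, sn_comm (ι r)]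
  ring

lemma conj_psi (x : ZMod 24) : (starRingEnd ℂ) (ψ x) = ψ (-x) := by
  rw [AddChar.map_neg_eq_conj]

lemma conj_sn (x r : ZMod 24) : (starRingEnd ℂ) (sn x r) = - sn x r := by
  simp [sn, conj_psi]
lemma conj_cs (x r : ZMod 24) : (starRingEnd ℂ) (cs x r) = cs x r := by
  simp [cs, conj_psi, add_comm]

lemma mix_eq (t : ℝ) (a b : Fin 11) : (mix 11 t a b : ℂ) = (1 / 576) * ∑ r, ∑ s,
    cexp (I * t * (th (ι r) - th (ι s))) * (sn (ι a) (ι r) * sn (ι a) (ι s)) *
      (sn (ι b) (ι r) * sn (ι b) (ι s)) := by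
  rw [mix, Matrix.of_apply, ← Complex.mul_conj, walk_eq]
  simp only [map_mul, map_sum, conj_sn, ← exp_conj, th, conj_cs, conj_I, conj_ofReal, map_div₀,
    map_neg, map_one, map_ofNat]
  rw [mul_mul_mul_comm, Finset.sum_mul_sum]
  congr 1
  · norm_num
  · refine Finset.sum_congr rfl fun r _ => Finset.sum_congr rfl fun s _ => ?_
    rw [mul_sub, sub_eq_add_neg, Complex.exp_add]
    ring_nf

lemma swap4 (F : Fin 11 → Fin 11 → Fin 11 → Fin 11 → ℂ) :
    ∑ a, ∑ b, ∑ r, ∑ s, F a b r s = ∑ r, ∑ s, ∑ a, ∑ b, F a b r s :=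
  calc _ = ∑ a, ∑ r, ∑ b, ∑ s, F a b r s := Finset.sum_congr rfl fun _ _ => Finset.sum_comm
    _ = ∑ r, ∑ a, ∑ b, ∑ s, F a b r s := Finset.sum_comm
    _ = ∑ r, ∑ a, ∑ s, ∑ b, F a b r s :=
      Finset.sum_congr rfl fun _ _ => Finset.sum_congr rfl fun _ _ => Finset.sum_comm
    _ = _ := Finset.sum_congr rfl fun _ _ => Finset.sum_comm

lemma pair (t : ℝ) (k l : ZMod 24) :
    ∑ a, ∑ b, cs (ι a) k * cs (ι b) l * (mix 11 t a b : ℂ) = (1 / 4) * ∑ r, ∑ s,
      ((BB k (ι r) (ι s) * BB l (ι r) (ι s) : ℤ) : ℂ) * cexp (I * t * (th (ι r) - th (ι s))) := by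
  have e : ∀ r s : Fin 11, ((BB k (ι r) (ι s) * BB l (ι r) (ι s) : ℤ) : ℂ) = (1 / 144) *
      ((∑ a, sn (ι a) (ι r) * sn (ι a) (ι s) * cs (ι a) k) *
        (∑ b, sn (ι b) (ι r) * sn (ι b) (ι s) * cs (ι b) l)) := by
    intro r s; rw [sumB, sumB]; push_cast; ring
  simp only [e, mix_eq, Finset.sum_mul_sum]
  simp only [Finset.mul_sum, Finset.sum_mul]
  rw [swap4]
  exact Finset.sum_congr rfl fun _ _ => Finset.sum_congr rfl fun _ _ =>
    Finset.sum_congr rfl fun _ _ => Finset.sum_congr rfl fun _ _ => by ring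

end Pool.Agent.H9.PW
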