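import Pool.Agent.H9.PW1

namespace Pool.Agent.H9.PW
open Matrix Complex MeasureTheory

lemma psi_ne {k : ZMod 24} (hk : k ≠ 0) : ψ k ≠ 1 := fun h =>
  hk (ZMod.injective_stdAddChar (h.trans (AddChar.map_zero_eq_one _).symm))

lemma p12 : ψ 12 = -1 := by
  have h : ψ 12 * ψ 12 = 1 := by
    rw [← AddChar.map_add_eq_mul, show (12 + 12 : ZMod 24) = 0 by decide, AddChar.map_zero_eq_one]
  have : (ψ 12 - 1) * (ψ 12 + 1) = 0 := by linear_combination h
  have h2 := (mul_eq_zero.mp this).resolve_left (sub_ne_zero.mpr (psi_ne (by decide)))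
  linear_combination h2

lemma p8 : ψ 16 + ψ 8 + 1 = 0 := by
  have h1 : ψ 16 = ψ 8 * ψ 8 := by
    rw [← AddChar.map_add_eq_mul, show (8 + 8 : ZMod 24) = 16 by decide]
  have h : ψ 16 * ψ 8 = 1 := by
    rw [← AddChar.map_add_eq_mul, show (16 + 8 : ZMod 24) = 0 by decide, AddChar.map_zero_eq_one]
  have : (ψ 8 - 1) * (ψ 16 + ψ 8 + 1) = 0 := by linear_combination h - h1
  exact (mul_eq_zero.mp this).resolve_left (sub_ne_zero.mpr (psi_ne (by decide)))

lemma sh12 (x : ZMod 24) : ψ (x + 12) = - ψ x := by rw [AddChar.map_add_eq_mul, p12]; ring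
lemma sh8 (x : ZMod 24) : ψ (x + 16) + ψ (x + 8) + ψ x = 0 := by
  rw [AddChar.map_add_eq_mul, AddChar.map_add_eq_mul]; linear_combination ψ x * p8

lemma th_neg (r : ZMod 24) : th (12 - r) = - th r := by
  have e : ∀ r : ZMod 24, 1 * (12 - r) = -(1 * r) + 12 ∧ -(1 * (12 - r)) = 1 * r + 12 := by decide
  rw [th, th, cs, cs, (e r).2, (e r).1, sh12, sh12]; ring

lemma cs_tri (x : ZMod 24) : th (x + 16) + th (x + 8) + th x = 0 := by
  have e : ∀ x : ZMod 24, -(x + 16) = -x + 8 ∧ -(x + 8) = -x + 16 := by decide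
  simp only [th, cs, one_mul, (e x).1, (e x).2]
  linear_combination sh8 x + sh8 (-x)

lemma th_even (x : ZMod 24) : th (-x) = th x := by simp [th, cs, add_comm]

lemma th6 : th 6 = 0 := by
  have := th_neg 6
  rw [show (12 - 6 : ZMod 24) = 6 by decide] at this
  linear_combination (1 / 2) * this
lemma th7 : th 7 = - th 5 := by rw [← th_neg]; rfl
lemma th9 : th 9 = - th 3 := by rw [← th_neg]; rfl
lemma th11 : th 11 = - th 1 := by rw [← th_neg]; rfl
lemma th1 : th 1 = th 3 + th 5 := by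
  have h := cs_tri 1
  rw [show (1 + 16 : ZMod 24) = -7 by decide, show (1 + 8 : ZMod 24) = 9 by decide, th_even, th7,
    th9] at h
  linear_combination h

def CC (r s : Fin 11) : ℤ :=
  if (r, s) ∈ [(0, 4), (4, 0), (6, 10), (10, 6)] then -4
  else if (r, s) ∈ [(2, 5), (5, 2), (5, 8), (8, 5)] then 4 else 0

lemma CC_eq : ∀ r s : Fin 11,
    BB 4 (ι r) (ι s) * BB 6 (ι r) (ι s) = BB 3 (ι r) (ι s) * BB 9 (ι r) (ι s) + CC r s := by
  decide +kernel

lemma ident (t : ℝ) : ∑ a, ∑ b, cs (ι a) 4 * cs (ι b) 6 * (mix 11 t a b : ℂ) =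
    ∑ a, ∑ b, cs (ι a) 3 * cs (ι b) 9 * (mix 11 t a b : ℂ) := by
  rw [pair, pair]
  simp only [CC_eq, Int.cast_add, add_mul, Finset.sum_add_distrib]
  have : ∑ r, ∑ s, (CC r s : ℂ) * cexp (I * t * (th (ι r) - th (ι s))) = 0 := by
    simp [CC, ι, Fin.sum_univ_succ]
    norm_num [th6, th7, th9, th11, th1]
  rw [this, add_zero]

lemma rowsum (t : ℝ) (a : Fin 11) : ∑ b, mix 11 t a b = 1 := by
  have : ∑ b, (mix 11 t a b : ℂ) = 1 := by
    simp only [mix_eq]
    rw [← Finset.mul_sum, Finset.sum_comm]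
    simp_rw [Finset.sum_comm (f := fun b s => cexp (I * t * (th (ι _) - th (ι s))) *
      (sn (ι a) (ι _) * sn (ι a) (ι s)) * (sn (ι b) (ι _) * sn (ι b) (ι s))), ← Finset.mul_sum, sumS]
    simp only [mul_ite, mul_zero, Finset.sum_ite_eq, Finset.mem_univ, if_true, sub_self,
      Complex.exp_zero, one_mul, ← Finset.sum_mul, sn_comm (ι a), sumS]
    norm_num
  exact_mod_cast this

lemma mix_symm (t : ℝ) (a b : Fin 11) : mix 11 t a b = mix 11 t b a := by
  have : (mix 11 t a b : ℂ) = mix 11 t b a := by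
    simp only [mix_eq]
    congr 1
    exact Finset.sum_congr rfl fun _ _ => Finset.sum_congr rfl fun _ _ => by ring
  exact_mod_cast this

lemma mix_cont (a b : Fin 11) : Continuous fun t => mix 11 t a b := by
  simp only [mix, Matrix.of_apply, walk_eq]
  exact continuous_normSq.comp (by fun_prop)

lemma mix_le (t : ℝ) (a b : Fin 11) : ‖mix 11 t a b‖ ≤ 1 := by
  have h0 : ∀ c, 0 ≤ mix 11 t a c := fun c => normSq_nonneg _
  rw [Real.norm_of_nonneg (h0 b), ← rowsum t a]
  exact Finset.single_le_sum (fun c _ => h0 c) (Finset.mem_univ b)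

lemma integ {f : ℝ → ℝ} (hf : Integrable f) (a b : Fin 11) :
    Integrable fun s => f s * mix 11 s a b :=
  hf.mul_bdd (c := 1) (mix_cont a b).aestronglyMeasurable
    (Filter.Eventually.of_forall fun s => mix_le s a b)

lemma csum (k : ZMod 24) : ∑ a, cs (ι a) k = 24 * (dl k : ℂ) - 1 - ψ (12 * k) := by
  have h := half (fun x => cs x k - (1 + ψ (12 * k)) -
    (if x = 0 then 1 - ψ (12 * k) else 0) + (if x = 12 then 1 - ψ (12 * k) else 0))
    (by
      have h2 : (0 : ZMod 24) ≠ 12 := by decide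
      simp [cs, h2])
    (by
      have : ∀ r : ZMod 24, -(12 * r) = 12 * r := by decide
      have h2 : (12 : ZMod 24) ≠ 0 := by decide
      simp [cs, this, h2])
    (fun x => by
      have e : ∀ x : ZMod 24, (-x = 12 ↔ x = 12) := by decide
      simp [cs, add_comm, e])
  have e0 : ∀ a, ι a ≠ 0 := by decide
  have e1 : ∀ a, ι a ≠ 12 := by decide
  have e2 : ∑ x, cs x k = 48 * (dl k : ℂ) := by
    have e3 : dl (-k) = dl k := by simp [dl]
    simp only [cs, ← mul_neg, Finset.sum_add_distrib, orth, e3]; ring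
  simp [e0, e1, Finset.sum_add_distrib, Finset.sum_sub_distrib, e2, ZMod.card] at h
  linear_combination (-1 / 2) * h

lemma main {f : ℝ → ℝ} (hf : Integrable f) (h1 : ∫ s, f s = 1) : (avg 11 f).rank ≠ 1 := by
  intro hr
  have row : ∀ a, ∑ b, avg 11 f a b = 1 := by
    intro a
    simp only [avg, Matrix.of_apply]
    rw [← integral_finsetSum _ fun b _ => integ hf a b]
    simp only [← Finset.mul_sum, rowsum, mul_one, h1]
  have sym : ∀ a b, avg 11 f a b = avg 11 f b a := fun a b => by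
    simp only [avg, Matrix.of_apply, mix_symm _ a b]
  obtain ⟨v, -, hv⟩ := finrank_eq_one_iff'.mp hr
  have col : ∀ b, ∃ c : ℝ, ∀ a, avg 11 f a b = c * v.1 a := by
    intro b
    obtain ⟨c, hc⟩ := hv ⟨_, ⟨Pi.single b 1, rfl⟩⟩
    refine ⟨c, fun a => ?_⟩
    have := congrFun (congrArg Subtype.val hc) a
    simpa using this.symm
  choose c hc using col
  have ent : ∀ a b, avg 11 f a b = 1 / 11 := by
    intro a b
    have m : ∀ x y, avg 11 f a b * avg 11 f x y = avg 11 f a y * avg 11 f b x := by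
      intro x y; rw [sym b x]; simp only [hc]; ring
    have s1 : ∑ x, ∑ y, avg 11 f a b * avg 11 f x y = avg 11 f a b * 11 := by
      simp [← Finset.mul_sum, row, mul_comm]
    have s2 : ∑ x, ∑ y, avg 11 f a y * avg 11 f b x = 1 := by
      simp [← Finset.sum_mul, row]
    simp only [m] at s1
    linarith
  have lin : ∀ k l : ZMod 24, ∫ s, (f s : ℂ) * ∑ a, ∑ b, cs (ι a) k * cs (ι b) l *
      (mix 11 s a b : ℂ) = (∑ a, cs (ι a) k) * (∑ b, cs (ι b) l) / 11 := by
    intro k l
    have e : ∀ s, (f s : ℂ) * ∑ a, ∑ b, cs (ι a) k * cs (ι b) l * (mix 11 s a b : ℂ) =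
        ∑ x : Fin 11 × Fin 11, cs (ι x.1) k * cs (ι x.2) l *
          ((f s * mix 11 s x.1 x.2 : ℝ) : ℂ) := by
      intro s
      rw [Fintype.sum_prod_type]
      simp only [Finset.mul_sum]
      exact Finset.sum_congr rfl fun _ _ => Finset.sum_congr rfl fun _ _ => by push_cast; ring
    simp only [e]
    rw [integral_finsetSum _ fun x _ => ((integ hf x.1 x.2).ofReal).const_mul _]
    have e2 : ∀ a b, ∫ s, ((f s * mix 11 s a b : ℝ) : ℂ) = 1 / 11 := by
      intro a b
      rw [integral_complex_ofReal]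
      have := ent a b
      simp only [avg, Matrix.of_apply] at this
      rw [this]; norm_num
    simp only [integral_const_mul, e2]
    rw [Finset.sum_mul_sum, Fintype.sum_prod_type, Finset.sum_div]
    refine Finset.sum_congr rfl fun _ _ => ?_
    rw [Finset.sum_div]
    exact Finset.sum_congr rfl fun _ _ => by ring
  have fin := lin 4 6
  simp only [ident] at fin
  rw [lin, csum, csum, csum, csum, show (12 * 3 : ZMod 24) = 12 by decide,
    show (12 * 4 : ZMod 24) = 0 by decide, show (12 * 6 : ZMod 24) = 0 by decide, p12,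
    show dl 3 = 0 by decide, show dl 4 = 0 by decide, show dl 6 = 0 by decide] at fin
  norm_num at fin

end Pool.Agent.H9.PW
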