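import Pool.Agent.H9.Adic

/-! Lattice covering bound, an averaging bound and coordinate norms. -/
namespace Pool.Agent.H9.PiAdic1
open Finset Module

lemma cover {ι κ : Type} [Fintype ι] [Fintype κ] (L : AddSubgroup (ι → ℤ)) (c : (ι → ℤ) → κ)
    (hc : ∀ u v, c u = c v → u - v ∈ L) (x : ι → ℤ) (m t : ℕ) (ht0 : 0 < t)
    (hx : ∀ i, |x i| ≤ m) (hmin : ∀ v ∈ L, ∃ i, (m : ℤ) ≤ |x i + v i|)
    (ht : ∀ v ∈ L, (∀ i, |v i| < t) → v = 0) :
    m * t ^ Fintype.card ι ≤ t * Fintype.card κ := by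
  classical
  let y : Fin (m / t + 1) × (ι → Fin t) → ι → ℤ := fun p i =>
    max (-(((p.1 : ℕ) * t : ℕ) : ℤ)) (min (((p.1 : ℕ) * t : ℕ) : ℤ) (x i)) + (p.2 i : ℕ)
  have aux : ∀ p q : Fin (m / t + 1) × (ι → Fin t), (q.1 : ℕ) < p.1 → c (y p) ≠ c (y q) := by
    intro p q hpq h
    obtain ⟨i, hi⟩ := hmin _ (hc _ _ h.symm)
    have h1 : (q.1 : ℕ) * t + t ≤ p.1 * t := by
      rw [← Nat.succ_mul]; exact Nat.mul_le_mul_right _ hpq
    have h2 : (p.1 : ℕ) * t ≤ m :=
      (Nat.mul_le_mul_right _ (Nat.lt_succ_iff.1 p.1.2)).trans (Nat.div_mul_le_self _ _)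
    have h3 := abs_le.1 (hx i)
    have h4 := (p.2 i).2
    have h5 := (q.2 i).2
    simp only [y, Pi.sub_apply, le_abs] at hi
    generalize (p.1 : ℕ) * t = a at *
    generalize (q.1 : ℕ) * t = b at *
    omega
  have hinj : Function.Injective fun p => c (y p) := by
    intro p q h
    have h1 : p.1 = q.1 := by
      rcases lt_trichotomy (p.1 : ℕ) q.1 with h1 | h1 | h1
      exacts [absurd h.symm (aux _ _ h1), Fin.ext h1, absurd h (aux _ _ h1)]
    have h2 : ∀ i, (y p - y q) i = ((p.2 i : ℕ) : ℤ) - (q.2 i : ℕ) := fun i => by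
      simp only [y, Pi.sub_apply, h1]; ring
    have h3 := ht _ (hc _ _ h) fun i => by
      have h4 := (p.2 i).2
      have h5 := (q.2 i).2
      rw [h2, abs_lt]; omega
    refine Prod.ext h1 (funext fun i => Fin.ext ?_)
    have := h2 i
    rw [h3, Pi.zero_apply] at this
    omega
  have h1 := Fintype.card_le_of_injective _ hinj
  simp only [Fintype.card_prod, Fintype.card_fin, Fintype.card_fun] at h1
  have h2 : m ≤ t * (m / t + 1) := (Nat.lt_mul_div_succ m ht0).le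
  calc _ ≤ t * (m / t + 1) * t ^ Fintype.card ι := Nat.mul_le_mul_right _ h2
    _ ≤ _ := by rw [mul_assoc]; exact Nat.mul_le_mul_left _ h1

lemma sum_inv {ι : Type} [Fintype ι] (M : ℕ) (hM : 0 < M) (hc : Fintype.card ι = M) (τ : ι → ℕ)
    (h0 : ∀ a, 0 < τ a) (C : ℕ) (h : ∀ s, #{a | τ a ≤ s} ≤ C * s ^ 2) :
    ∑ a, Real.sqrt M / τ a ≤ (2 + C) * M := by
  set R := Nat.sqrt M with hR
  have hR1 : 1 ≤ R := Nat.sqrt_pos.2 hM
  obtain ⟨S, hS⟩ : ∃ S, R = S + 1 := ⟨R - 1, by omega⟩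
  have h1 : ∑ a, (1 : ℝ) / τ a ≤ M / R + C * S := by
    refine (sum_le_sum fun a _ => Adic.inv_le _ S (h0 a)).trans ?_
    rw [sum_add_distrib, sum_comm]
    apply add_le_add
    · simp [hS, div_eq_mul_inv, hc]
    · have : ∀ s ∈ range S, ∑ a,
          (if τ a ≤ s + 1 then 1 / (((s : ℝ) + 1) * (s + 2)) else 0) ≤ C := by
        intro s _
        rw [← sum_filter, sum_const, nsmul_eq_mul]
        have h3 : (#{a | τ a ≤ s + 1} : ℝ) ≤ C * ((s : ℝ) + 1) ^ 2 := by exact_mod_cast h (s + 1)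
        rw [mul_one_div, div_le_iff₀ (by positivity)]
        have : (0 : ℝ) ≤ C * (s + 1) := by positivity
        nlinarith
      refine (sum_le_card_nsmul _ _ _ this).trans ?_
      simp [mul_comm]
  have hsq : Real.sqrt M ≤ R + 1 := by
    rw [Real.sqrt_le_left (by positivity)]
    exact_mod_cast (Nat.lt_succ_sqrt' M).le
  have hsq2 : (R : ℝ) * R ≤ M := by exact_mod_cast Nat.sqrt_le M
  have hRr : (1 : ℝ) ≤ R := by exact_mod_cast hR1
  have hSr : (S : ℝ) = R - 1 := by rw [hS]; push_cast; ring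
  have h2 : ∑ a, Real.sqrt M / τ a = Real.sqrt M * ∑ a, (1 : ℝ) / τ a := by
    rw [mul_sum]; simp [div_eq_mul_inv]
  rw [h2]
  have h3 : (0 : ℝ) ≤ M / R + C * S := by positivity
  calc _ ≤ Real.sqrt M * (M / R + C * S) := mul_le_mul_of_nonneg_left h1 (Real.sqrt_nonneg _)
    _ ≤ (R + 1) * (M / R + C * S) := mul_le_mul_of_nonneg_right hsq h3
    _ ≤ _ := by
      have h4 : ((R : ℝ) + 1) * (M / R) ≤ 2 * M := by
        rw [← mul_div_assoc, div_le_iff₀ (by positivity)]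
        nlinarith [(Nat.cast_nonneg M : (0 : ℝ) ≤ M)]
      have h5 := mul_le_mul_of_nonneg_left hsq2 (Nat.cast_nonneg C : (0 : ℝ) ≤ C)
      rw [hSr]
      nlinarith [(Nat.cast_nonneg C : (0 : ℝ) ≤ C)]

variable {R : Type} [CommRing R] {d : ℕ} (b : Basis (Fin d) ℤ R)

/-- the largest absolute value of a coordinate -/
noncomputable def nr (x : R) : ℕ := univ.sup fun i => (b.repr x i).natAbs

lemma nr_le {x : R} {m : ℕ} : nr b x ≤ m ↔ ∀ i, |b.repr x i| ≤ m := by
  simp only [nr, Finset.sup_le_iff, mem_univ, true_imp_iff]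
  exact forall_congr' fun i => by rw [abs_le]; omega

lemma le_nr (x : R) (i : Fin d) : |b.repr x i| ≤ nr b x := (nr_le b).1 le_rfl i

lemma nr_add (x y : R) : nr b (x + y) ≤ nr b x + nr b y := (nr_le b).2 fun i => by
  rw [map_add, Finsupp.add_apply, Nat.cast_add]
  exact (abs_add_le _ _).trans (add_le_add (le_nr b x i) (le_nr b y i))

lemma nr_pos {x : R} (h : x ≠ 0) : 0 < nr b x := Nat.pos_of_ne_zero fun h0 =>
  h (b.ext_elem fun i => by simpa [h0] using le_nr b x i)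

lemma card_box (m : ℕ) : ∃ B : Finset R, #B ≤ (2 * m + 1) ^ d ∧ ∀ x, nr b x ≤ m → x ∈ B := by
  classical
  refine ⟨(Fintype.piFinset fun _ => Icc (-m : ℤ) m).image b.equivFun.symm,
    card_image_le.trans (le_of_eq ?_), fun x hx => mem_image.2 ⟨b.equivFun x, ?_, b.equivFun.symm_apply_apply x⟩⟩
  · have : ((m : ℤ) + 1 + m).toNat = 2 * m + 1 := by omega
    simp [this]
  · simpa [← abs_le] using (nr_le b).1 hx

lemma nr_mul : ∃ C : ℕ, ∀ x y, nr b (x * y) ≤ C * nr b x * nr b y := by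
  refine ⟨∑ i, ∑ j, nr b (b i * b j), fun x y => (nr_le b).2 fun k => ?_⟩
  conv_lhs => rw [← b.sum_repr x, ← b.sum_repr y, sum_mul_sum]
  simp only [map_sum, Finsupp.finsetSum_apply, smul_mul_smul_comm, map_smul, Finsupp.smul_apply,
    smul_eq_mul]
  push_cast
  rw [sum_mul, sum_mul]
  refine (abs_sum_le_sum_abs _ _).trans (sum_le_sum fun i _ => ?_)
  rw [sum_mul, sum_mul]
  refine (abs_sum_le_sum_abs _ _).trans (sum_le_sum fun j _ => ?_)
  rw [abs_mul, abs_mul, mul_comm, mul_assoc]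
  gcongr <;> apply le_nr

lemma round [IsDomain R] : ∃ C : ℕ, ∀ g : R, g ≠ 0 → ∀ x, ∃ y r, x = r + g * y ∧
    nr b r ≤ C * nr b g := by
  obtain ⟨C, hC⟩ := nr_mul b
  refine ⟨C, fun g hg x => ?_⟩
  have := Module.Finite.of_basis b
  obtain ⟨c, D, hD, h⟩ := (Algebra.IsAlgebraic.isAlgebraic (R := ℤ) g).exists_smul_eq_mul x
    (mem_nonZeroDivisors_of_ne_zero hg)
  let y := b.equivFun.symm fun i => b.repr c i / D
  refine ⟨y, x - g * y, by ring, ?_⟩
  have h1 : nr b (c - D • y) ≤ D.natAbs := (nr_le b).2 fun i => by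
    have : b.repr (c - D • y) i = b.repr c i % D := by
      have : b.repr y i = b.repr c i / D := congrFun (b.equivFun.apply_symm_apply _) i
      rw [map_sub, map_smul, Finsupp.sub_apply, Finsupp.smul_apply, this, Int.emod_def]
      rfl
    rw [this, abs_of_nonneg (Int.emod_nonneg _ hD)]
    exact (Int.emod_lt _ hD).le
  have h2 : D • (x - g * y) = g * (c - D • y) := by rw [smul_sub, h, mul_sub, mul_smul_comm]
  refine (nr_le b).2 fun i => le_of_mul_le_mul_left ?_ (abs_pos.2 hD)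
  have h3 := le_nr b (D • (x - g * y)) i
  rw [map_smul, Finsupp.smul_apply, smul_eq_mul, abs_mul, h2] at h3
  have h4 := (hC g _).trans (Nat.mul_le_mul_left _ h1)
  rw [← Int.natCast_natAbs D] at h3 ⊢
  exact h3.trans (by exact_mod_cast h4.trans_eq (mul_comm _ _))

end Pool.Agent.H9.PiAdic1
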