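import Pool.Agent.H9.PiAdic1

/-! Digit expansions modulo powers of `π`, short vectors and their statistics. -/
namespace Pool.Agent.H9.PiAdic2
open Finset Module PiAdic1

variable {R : Type} [CommRing R] {N : ℕ} {π : R}

def val (π : R) {n : ℕ} (a : Fin n → Fin N) : R := ∑ i, ((a i : ℕ) : R) * π ^ (i : ℕ)

lemma val_succ {n : ℕ} (a : Fin (n + 1) → Fin N) :
    val π a = ((a 0 : ℕ) : R) + π * val π (Fin.tail a) := by
  simp only [val, Fin.sum_univ_succ, mul_sum, Fin.tail, Fin.val_succ, pow_succ]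
  simp [mul_comm, mul_assoc]

lemma val_surj (H1 : ∀ x : R, ∃ k : Fin N, π ∣ x - (k : ℕ)) (n : ℕ) :
    ∀ x : R, ∃ a : Fin n → Fin N, π ^ n ∣ x - val π a := by
  induction n with
  | zero => exact fun x => ⟨Fin.elim0, by simp⟩
  | succ n ih =>
    intro x
    obtain ⟨k, y, hy⟩ := H1 x
    obtain ⟨a, z, hz⟩ := ih y
    exact ⟨Fin.cons k a, z, by
      rw [val_succ, Fin.tail_cons, Fin.cons_zero]; linear_combination hy + π * hz⟩

lemma val_inj [IsDomain R] (h0 : π ≠ 0)
    (H2 : ∀ k k' : Fin N, π ∣ ((k : ℕ) : R) - (k' : ℕ) → k = k') (n : ℕ) :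
    ∀ a a' : Fin n → Fin N, π ^ n ∣ val π a - val π a' → a = a' := by
  induction n with
  | zero => exact fun a a' _ => Subsingleton.elim _ _
  | succ n ih =>
    rintro a a' ⟨z, hz⟩
    rw [val_succ, val_succ] at hz
    have h1 := H2 (a 0) (a' 0) ⟨π ^ n * z - val π (Fin.tail a) + val π (Fin.tail a'), by
      linear_combination hz⟩
    rw [h1] at hz
    rw [← Fin.cons_self_tail a, ← Fin.cons_self_tail a', h1,
      ih (Fin.tail a) (Fin.tail a') ⟨z, mul_left_cancel₀ h0 (by linear_combination hz)⟩]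

lemma val_eq {n : ℕ} (a : Fin n → Fin N) (s : ℕ → Fin N) (h : ∀ i : Fin n, s i = a i) :
    ∑ i ∈ range n, ((s i : ℕ) : R) * π ^ i = val π a := by
  rw [val, ← Fin.sum_univ_eq_sum_range (fun i => ((s i : ℕ) : R) * π ^ i)]
  simp [h]

lemma exists_ext (H1 : ∀ x : R, ∃ k : Fin N, π ∣ x - (k : ℕ)) {n : ℕ} (a : Fin n → Fin N)
    {f g : R} (hg : π ∣ g - 1) (h : π ^ n ∣ g * val π a - f) :
    ∃ s : ℕ → Fin N, (∀ i : Fin n, s i = a i) ∧
      ∀ k : ℕ, π ^ k ∣ g * (∑ i ∈ range k, ((s i : ℕ) : R) * π ^ i) - f := by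
  have : ∀ r : R, ∃ (k : Fin N) (r' : R), r + g * (k : ℕ) = π * r' := fun r => by
    obtain ⟨k, y, hy⟩ := H1 (-r)
    obtain ⟨z, hz⟩ := hg
    exact ⟨k, z * (k : ℕ) - y, by linear_combination ((k : ℕ) : R) * hz - hy⟩
  choose dd nx hd using this
  obtain ⟨r0, hr0⟩ := h
  let s : ℕ → Fin N := fun i => if h : i < n then a ⟨i, h⟩ else dd (nx^[i - n] r0)
  have hb : ∀ i : Fin n, s i = a i := fun i => by simp [s]
  have hup : ∀ j, g * (∑ i ∈ range (n + j), ((s i : ℕ) : R) * π ^ i) - f =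
      π ^ (n + j) * nx^[j] r0 := by
    intro j
    induction j with
    | zero => rw [add_zero, val_eq a s hb, hr0]; rfl
    | succ j ih =>
      have e1 : s (n + j) = dd (nx^[j] r0) := by simp [s]
      rw [← add_assoc, sum_range_succ, e1, Function.iterate_succ_apply', pow_succ]
      linear_combination ih + π ^ (n + j) * hd (nx^[j] r0)
  refine ⟨s, hb, fun k => ?_⟩
  have h1 : π ^ k ∣ g * (∑ i ∈ range (n + k), ((s i : ℕ) : R) * π ^ i) - f := by
    rw [hup k]
    exact Dvd.dvd.mul_right (pow_dvd_pow _ (by omega)) _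
  rw [add_comm, sum_range_add] at h1
  have h2 : π ^ k ∣ ∑ i ∈ range n, ((s (k + i) : ℕ) : R) * π ^ (k + i) :=
    dvd_sum fun i _ => Dvd.dvd.mul_left (pow_dvd_pow _ (by omega)) _
  have h3 := dvd_sub h1 (Dvd.dvd.mul_left h2 g)
  have e : ∀ A B : R, g * (A + B) - f - g * B = g * A - f := fun A B => by ring
  rwa [e] at h3

variable {d : ℕ} (b : Basis (Fin d) ℤ R)

/-- the length of a shortest nonzero vector of the lattice attached to `x` -/
noncomputable def lam (π : R) (n : ℕ) (x : R) : ℕ :=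
  sInf {t | ∃ f g, ¬ (f = 0 ∧ g = 0) ∧ π ^ n ∣ g * x - f ∧ t = max (nr b f) (nr b g)}

lemma lam_spec (n : ℕ) [Nontrivial R] (x : R) : ∃ f g, ¬ (f = 0 ∧ g = 0) ∧ π ^ n ∣ g * x - f ∧
    lam b π n x = max (nr b f) (nr b g) :=
  Nat.sInf_mem (s := {t | ∃ f g, ¬ (f = 0 ∧ g = 0) ∧ π ^ n ∣ g * x - f ∧
    t = max (nr b f) (nr b g)}) ⟨_, x, 1, by simp, by simp, rfl⟩

lemma lam_le {n : ℕ} {x f g : R} (h0 : ¬ (f = 0 ∧ g = 0)) (h : π ^ n ∣ g * x - f) :
    lam b π n x ≤ max (nr b f) (nr b g) := Nat.sInf_le ⟨f, g, h0, h, rfl⟩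

lemma lam_pos (n : ℕ) [Nontrivial R] (x : R) : 0 < lam b π n x := by
  obtain ⟨f, g, h1, -, h2⟩ := lam_spec b (π := π) n x
  rw [h2, lt_max_iff]
  exact (not_and_or.1 h1).imp (nr_pos b) (nr_pos b)

lemma good [Nontrivial R] (H1 : ∀ x : R, ∃ k : Fin N, π ∣ x - (k : ℕ)) (n : ℕ) (x : R) :
    ∃ f g, π ∣ g - 1 ∧ π ^ n ∣ g * x - f ∧
      max (nr b f) (nr b g) * lam b π n x ^ (2 * d) ≤ lam b π n x * N ^ (n + 1) := by
  obtain ⟨f, g, h1, h2, h3⟩ := Nat.sInf_mem (s := {t | ∃ f g, π ∣ g - 1 ∧ π ^ n ∣ g * x - f ∧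
    t = max (nr b f) (nr b g)}) ⟨_, x, 1, by simp, by simp, rfl⟩
  have h4 : ∀ f' g', π ∣ g' - 1 → π ^ n ∣ g' * x - f' →
      max (nr b f) (nr b g) ≤ max (nr b f') (nr b g') := fun f' g' e1 e2 =>
    h3 ▸ Nat.sInf_le ⟨f', g', e1, e2, rfl⟩
  refine ⟨f, g, h1, h2, ?_⟩
  choose dg hdg using val_surj H1
  let F : (Fin d ⊕ Fin d → ℤ) →+ R := (b.equivFun.symm.toLinearMap.comp
    (LinearMap.funLeft ℤ ℤ Sum.inl)).toAddMonoidHom
  let G : (Fin d ⊕ Fin d → ℤ) →+ R := (b.equivFun.symm.toLinearMap.comp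
    (LinearMap.funLeft ℤ ℤ Sum.inr)).toAddMonoidHom
  have hF : ∀ v i, b.repr (F v) i = v (.inl i) := fun v i =>
    congrFun (b.equivFun.apply_symm_apply _) i
  have hG : ∀ v i, b.repr (G v) i = v (.inr i) := fun v i =>
    congrFun (b.equivFun.apply_symm_apply _) i
  let L : AddSubgroup (Fin d ⊕ Fin d → ℤ) :=
    { carrier := {v | π ∣ G v ∧ π ^ n ∣ G v * x - F v}
      zero_mem' := by simp
      add_mem' := fun {u v} hu hv => ⟨by rw [map_add]; exact dvd_add hu.1 hv.1, by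
        convert dvd_add hu.2 hv.2 using 1; rw [map_add, map_add]; ring⟩
      neg_mem' := fun {u} hu => ⟨by rw [map_neg]; exact hu.1.neg_right, by
        convert hu.2.neg_right using 1; rw [map_neg, map_neg]; ring⟩ }
  have := cover L (fun v => (dg 1 (G v), dg n (G v * x - F v))) (fun u v h => by
      have e1 := hdg 1 (G u)
      have e2 := hdg n (G u * x - F u)
      rw [(Prod.mk.inj h).1, pow_one] at e1
      rw [(Prod.mk.inj h).2] at e2
      refine ⟨?_, ?_⟩
      · convert dvd_sub e1 (pow_one π ▸ hdg 1 (G v)) using 1; rw [map_sub]; ring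
      · convert dvd_sub e2 (hdg n (G v * x - F v)) using 1; rw [map_sub, map_sub]; ring)
    (Sum.elim (b.repr f) (b.repr g)) (max (nr b f) (nr b g)) _ (lam_pos b (π := π) n x)
    (by
      rintro (i | i)
      · exact (le_nr b f i).trans (by exact_mod_cast le_max_left _ _)
      · exact (le_nr b g i).trans (by exact_mod_cast le_max_right _ _))
    (fun v hv => by
      by_contra hn
      simp only [not_exists, not_le] at hn
      have e1 := h4 (f + F v) (g + G v) (by convert dvd_add h1 hv.1 using 1; ring)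
        (by convert dvd_add h2 hv.2 using 1; ring)
      have e0 : 0 < d := Nat.pos_of_ne_zero fun h => by
        subst h
        exact zero_ne_one (b.ext_elem (x := 0) (y := 1) fun i => i.elim0)
      have e4 := (abs_nonneg _).trans_lt (hn (.inl ⟨0, e0⟩))
      generalize max (nr b f) (nr b g) = m at *
      have e2 : nr b (f + F v) ≤ m - 1 := (nr_le b).2 fun i => by
        have := hn (.inl i)
        rw [map_add, Finsupp.add_apply, hF]
        simp only [Sum.elim_inl] at this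
        omega
      have e3 : nr b (g + G v) ≤ m - 1 := (nr_le b).2 fun i => by
        have := hn (.inr i)
        rw [map_add, Finsupp.add_apply, hG]
        simp only [Sum.elim_inr] at this
        omega
      omega)
    (fun v hv h => by
      have e0 := lam_pos b (π := π) n x
      have e2 : nr b (F v) ≤ lam b π n x - 1 := (nr_le b).2 fun i => by
        have := h (.inl i)
        rw [hF]; omega
      have e3 : nr b (G v) ≤ lam b π n x - 1 := (nr_le b).2 fun i => by
        have := h (.inr i)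
        rw [hG]; omega
      have e4 : F v = 0 ∧ G v = 0 := by
        by_contra hn
        have := lam_le b hn hv.2
        omega
      funext i
      rcases i with i | i
      · rw [← hF v, e4.1]; simp
      · rw [← hG v, e4.2]; simp)
  simpa [two_mul, pow_succ'] using this

lemma count [IsDomain R] (h0 : π ≠ 0) (H1 : ∀ x : R, ∃ k : Fin N, π ∣ x - (k : ℕ))
    (H2 : ∀ k k' : Fin N, π ∣ ((k : ℕ) : R) - (k' : ℕ) → k = k') : ∃ C : ℕ, ∀ n s : ℕ,
    #{a : Fin n → Fin N | lam b π n (val π a) ^ d ≤ s} ≤ C * s ^ 2 := by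
  classical
  obtain ⟨C, hC⟩ := round b
  refine ⟨(3 * (2 * C + 3)) ^ d, fun n s => ?_⟩
  rcases (univ.filter fun a : Fin n → Fin N => lam b π n (val π a) ^ d ≤ s).eq_empty_or_nonempty
    with h | h
  · simp [h]
  obtain ⟨a0, e1, e2⟩ := exists_max_image _ (fun a => lam b π n (val π a)) h
  have e3 := lam_pos b (π := π) n (val π a0)
  have e4 := (mem_filter.1 e1).2
  have : Nonempty (Fin n → Fin N) := ⟨a0⟩
  generalize lam b π n (val π a0) = r at e2 e3 e4
  obtain ⟨B, hB, hB'⟩ := card_box b r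
  obtain ⟨W, hW, hW'⟩ := card_box b (r + C * r)
  choose dg hdg using val_surj H1 n
  have key : ∀ g ∈ B.filter fun g => g ≠ 0 ∧ nr b g ≤ r,
      #{a : Fin n → Fin N | ∃ f, nr b f ≤ r ∧ π ^ n ∣ g * val π a - f} ≤ #W := by
    intro g hg
    obtain ⟨-, hg, hgr⟩ := mem_filter.1 hg
    choose y rr h1 h2 using hC g hg
    have : ∀ a : Fin n → Fin N, ∃ f, (∃ f, nr b f ≤ r ∧ π ^ n ∣ g * val π a - f) →
        nr b f ≤ r ∧ π ^ n ∣ g * val π a - f := fun a => by
      by_cases h : ∃ f, nr b f ≤ r ∧ π ^ n ∣ g * val π a - f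
      exacts [h.imp fun f hf _ => hf, ⟨0, fun h' => absurd h' h⟩]
    choose f hf using this
    have := card_le_card_of_injOn (s := (univ.filter fun a : Fin n → Fin N =>
        ∃ f, nr b f ≤ r ∧ π ^ n ∣ g * val π a - f) ×ˢ (univ : Finset (Fin n → Fin N)))
      (t := W ×ˢ (univ : Finset (Fin n → Fin N)))
      (fun p => (f p.1 + rr (val π p.2), dg (y (val π p.2) - val π p.1)))
      (fun p hp => mem_coe.2 (mem_product.2 ⟨hW' _ ((nr_add b _ _).trans (add_le_add
        (hf _ (mem_filter.1 (mem_product.1 (mem_coe.1 hp)).1).2).1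
        ((h2 _).trans (Nat.mul_le_mul_left _ hgr)))), mem_univ _⟩)) (by
        rintro ⟨a, q⟩ hp ⟨a', q'⟩ hp' h
        obtain ⟨k1, k2⟩ := Prod.ext_iff.1 h
        dsimp only at k1 k2
        obtain ⟨z1, k3⟩ := (hf _ (mem_filter.1 (mem_product.1 (mem_coe.1 hp)).1).2).2
        obtain ⟨z2, k4⟩ := (hf _ (mem_filter.1 (mem_product.1 (mem_coe.1 hp')).1).2).2
        obtain ⟨z3, k5⟩ := hdg (y (val π q) - val π a)
        obtain ⟨z4, k6⟩ := hdg (y (val π q') - val π a')
        rw [k2] at k5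
        dsimp only at k3 k4
        obtain rfl : q = q' := val_inj h0 H2 n _ _ ⟨z1 - z2 + g * (z3 - z4), by
          linear_combination h1 (val π q) - h1 (val π q') + k1 + k3 - k4 + g * (k5 - k6)⟩
        rw [val_inj h0 H2 n a a' ⟨z4 - z3, by linear_combination k6 - k5⟩])
    rw [card_product, card_product] at this
    exact Nat.le_of_mul_le_mul_right this univ_nonempty.card_pos
  calc _ ≤ #((B.filter fun g => g ≠ 0 ∧ nr b g ≤ r).biUnion fun g =>
        univ.filter fun a : Fin n → Fin N => ∃ f, nr b f ≤ r ∧ π ^ n ∣ g * val π a - f) := by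
        refine card_le_card fun a ha => ?_
        obtain ⟨f, g, h1, h2, h3⟩ := lam_spec b (π := π) n (val π a)
        have h4 := max_le_iff.1 (h3 ▸ e2 a ha)
        simp only [mem_biUnion, mem_filter, mem_univ, true_and]
        by_cases hg : g = 0
        · refine ⟨f, ⟨hB' _ h4.1, fun h => h1 ⟨h, hg⟩, h4.1⟩, 0, (nr_le b).2 (by simp), ?_⟩
          rw [hg, zero_mul, zero_sub, dvd_neg] at h2
          simpa using h2.mul_right _
        · exact ⟨g, ⟨hB' _ h4.2, hg, h4.2⟩, f, h4.1, h2⟩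
    _ ≤ (2 * r + 1) ^ d * (2 * (r + C * r) + 1) ^ d :=
        (card_biUnion_le_card_mul _ _ _ key).trans
          (Nat.mul_le_mul ((card_filter_le _ _).trans hB) hW)
    _ ≤ (3 * r) ^ d * ((2 * C + 3) * r) ^ d := by gcongr <;> nlinarith
    _ = (3 * (2 * C + 3)) ^ d * (r ^ d) ^ 2 := by simp only [mul_pow]; ring
    _ ≤ _ := by gcongr

end Pool.Agent.H9.PiAdic2
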