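import Pool.Agent.H9.QVDefs

namespace Pool.Agent.H9.QV

open FirstOrder FirstOrder.Language Filter

section gen
variable {L : FirstOrder.Language.{0, 0}}

def gen (C : Set (Sys L)) : Set (Sys L) :=
  {B | ∀ q : List (Atom L ℕ) × Atom L ℕ, (∀ A ∈ C, Sat A q) → Sat B q}

lemma gen_qv (C : Set (Sys L)) : IsQV (gen C) := ⟨{q | ∀ A ∈ C, Sat A q}, rfl⟩

lemma sub_gen (C : Set (Sys L)) : C ⊆ gen C := fun A hA _ h => h A hA

lemma gen_le {C K : Set (Sys L)} (hK : IsQV K) (h : C ⊆ K) : gen C ⊆ K := by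
  obtain ⟨S, rfl⟩ := hK
  exact fun B hB q hq => hB q fun A hA => h hA q hq

lemma gen_mono {C K : Set (Sys L)} (h : C ⊆ K) : gen C ⊆ gen K :=
  gen_le (gen_qv K) (h.trans (sub_gen K))

lemma IsQV.inter {K K' : Set (Sys L)} (h : IsQV K) (h' : IsQV K') : IsQV (K ∩ K') := by
  obtain ⟨S, rfl⟩ := h
  obtain ⟨S', rfl⟩ := h'
  refine ⟨S ∪ S', Set.ext fun A => ?_⟩
  simp [or_imp, forall_and]

@[simp] lemma ev_var {V : Type} (A : Sys L) (v : V → A.M) (j : V) : ev A v (.var j) = v j := rfl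

@[simp] lemma ev_func {V : Type} (A : Sys L) (v : V → A.M) {n : ℕ} (f : L.Functions n)
    (ts : Fin n → L.Term V) : ev A v (.func f ts) = A.str.funMap f fun i => ev A v (ts i) := rfl

def Atom.map {V V' : Type} (ρ : V → V') : Atom L V → Atom L V'
  | .eq s t => .eq (s.relabel ρ) (t.relabel ρ)
  | .rel r ts => .rel r fun i => (ts i).relabel ρ

lemma ev_relabel {V V' : Type} (ρ : V → V') (A : Sys L) (v : V' → A.M) (t : L.Term V) :
    ev A v (t.relabel ρ) = ev A (v ∘ ρ) t := by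
  letI := A.str
  exact Term.realize_relabel

lemma holds_map {V V' : Type} (ρ : V → V') (A : Sys L) (v : V' → A.M) (a : Atom L V) :
    (a.map ρ).Holds A v ↔ a.Holds A (v ∘ ρ) := by
  cases a <;> simp only [Atom.map, Atom.Holds, ev_relabel]

lemma supp_term {V : Type} (t : L.Term V) : ∃ S : Set V, S.Countable ∧
    ∀ (A : Sys L) (v v' : V → A.M), Set.EqOn v v' S → ev A v t = ev A v' t := by
  induction t with
  | var j => exact ⟨{j}, by simp, fun A v v' h => h rfl⟩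
  | func f ts ih =>
    choose S h1 h2 using ih
    refine ⟨⋃ i, S i, Set.countable_iUnion h1, fun A v v' h => ?_⟩
    simp only [ev_func]
    congr 1
    exact funext fun i => h2 i A v v' (h.mono (Set.subset_iUnion S i))

lemma supp_atom {V : Type} (a : Atom L V) : ∃ S : Set V, S.Countable ∧
    ∀ (A : Sys L) (v v' : V → A.M), Set.EqOn v v' S → (a.Holds A v ↔ a.Holds A v') := by
  choose S h1 h2 using supp_term (L := L) (V := V)
  cases a with
  | eq s t =>
    refine ⟨S s ∪ S t, (h1 s).union (h1 t), fun A v v' h => ?_⟩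
    simp only [Atom.Holds]
    rw [h2 s A v v' (h.mono Set.subset_union_left), h2 t A v v' (h.mono Set.subset_union_right)]
  | rel r ts =>
    refine ⟨⋃ i, S (ts i), Set.countable_iUnion fun i => h1 _, fun A v v' h => ?_⟩
    simp only [Atom.Holds]
    rw [funext fun i => h2 (ts i) A v v' (h.mono (Set.subset_iUnion (fun i => S (ts i)) i))]

lemma sat_gen {C : Set (Sys L)} {B : Sys L} (hB : B ∈ gen C) {V : Type} (P : List (Atom L V))
    (c : Atom L V) (h : ∀ A ∈ C, Sat A (P, c)) : Sat B (P, c) := by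
  choose S h1 h2 using supp_atom (L := L) (V := V)
  have hc : (⋃ a ∈ {a | a ∈ c :: P}, S a).Countable :=
    (List.finite_toSet _).countable.biUnion fun a _ => h1 a
  obtain ⟨ρ, hρ⟩ := Set.countable_iff_exists_injOn.1 hc
  intro v hv
  let v' : ℕ → B.M := Function.extend (Set.domRestrict _ ρ) (Set.domRestrict (⋃ a ∈ {a | a ∈ c :: P}, S a) v)
    fun _ => B.ne.some
  have hv' : ∀ a ∈ c :: P, (a.Holds B (v' ∘ ρ) ↔ a.Holds B v) := by
    intro a ha
    refine h2 a B _ _ fun x hx => ?_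
    exact hρ.injective.extend_apply (Set.domRestrict _ v) (fun _ => B.ne.some)
      ⟨x, Set.mem_biUnion ha hx⟩
  have := hB (P.map (Atom.map ρ), c.map ρ) (fun A hA w hw => by
    rw [holds_map]
    refine h A hA _ fun a ha => (holds_map ρ A w a).1 (hw _ (List.mem_map_of_mem ha))) v' ?_
  · exact (hv' c (by simp)).1 ((holds_map ρ B v' c).1 this)
  · intro a ha
    obtain ⟨b, hb, rfl⟩ := List.mem_map.1 ha
    exact (holds_map ρ B v' b).2 ((hv' b (by simp [hb])).2 (hv b hb))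

lemma ev_nat {X : Type*} {𝓕 : Filter X} (A0 : Sys L) (A : X → Sys L) (φ : ∀ x, A0.M → (A x).M)
    (hφ : ∀ n (f : L.Functions n) (a : Fin n → A0.M),
      ∀ᶠ x in 𝓕, φ x (A0.str.funMap f a) = (A x).str.funMap f fun i => φ x (a i))
    {V : Type} (y : V → A0.M) (w : ∀ x, V → (A x).M) (hw : ∀ j, ∀ᶠ x in 𝓕, φ x (y j) = w x j)
    (t : L.Term V) : ∀ᶠ x in 𝓕, φ x (ev A0 y t) = ev (A x) (w x) t := by
  induction t with
  | var j => exact hw j
  | func f ts ih =>
    filter_upwards [eventually_all.2 ih, hφ _ f fun i => ev A0 y (ts i)] with x h1 h2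
    simp only [ev_func, h2, h1]

lemma holds_nat {X : Type*} {𝓕 : Filter X} (A0 : Sys L) (A : X → Sys L) (φ : ∀ x, A0.M → (A x).M)
    (hφ : ∀ n (f : L.Functions n) (a : Fin n → A0.M),
      ∀ᶠ x in 𝓕, φ x (A0.str.funMap f a) = (A x).str.funMap f fun i => φ x (a i))
    (he : ∀ a b, (∀ᶠ x in 𝓕, φ x a = φ x b) → a = b)
    (hr : ∀ n (r : L.Relations n) (a : Fin n → A0.M),
      A0.str.RelMap r a ↔ ∀ᶠ x in 𝓕, (A x).str.RelMap r fun i => φ x (a i))
    {V : Type} (y : V → A0.M) (w : ∀ x, V → (A x).M) (hw : ∀ j, ∀ᶠ x in 𝓕, φ x (y j) = w x j)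
    (a : Atom L V) : a.Holds A0 y ↔ ∀ᶠ x in 𝓕, a.Holds (A x) (w x) := by
  have H := ev_nat A0 A φ hφ y w hw
  cases a with
  | eq s t =>
    simp only [Atom.Holds]
    constructor
    · intro h
      filter_upwards [H s, H t] with x h1 h2
      rw [← h1, ← h2, h]
    · intro h
      refine he _ _ ?_
      filter_upwards [H s, H t, h] with x h1 h2 h3
      rw [h1, h2, h3]
  | rel r ts =>
    simp only [Atom.Holds]
    rw [hr]
    refine eventually_congr ?_
    filter_upwards [eventually_all.2 fun i => H (ts i)] with x h1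
    simp only [h1]

def one (L : FirstOrder.Language.{0, 0}) : Sys L := ⟨Unit, inferInstance, ⟨fun _ _ => (), fun _ _ => True⟩⟩

lemma one_holds {V : Type} (v : V → (one L).M) (a : Atom L V) : a.Holds (one L) v := by
  cases a
  · rfl
  · trivial

lemma one_mem {K : Set (Sys L)} (h : IsQV K) : one L ∈ K := by
  obtain ⟨S, rfl⟩ := h
  exact fun q _ v _ => one_holds v _

end gen

inductive Fn : ℕ → Type
  | cond : Fn 4
  | zero : Fn 1
  | succ : Fn 1
  | put : Fn 3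
  | get : Fn 2
  | app : Fn 2

inductive Rl : ℕ → Type
  | R : Rl 2

def tau : FirstOrder.Language.{0, 0} := ⟨Fn, Rl⟩

lemma tau_finite : Finite tau.Symbols := by
  refine Finite.of_surjective (![Sum.inl ⟨_, Fn.cond⟩, Sum.inl ⟨_, Fn.zero⟩, Sum.inl ⟨_, Fn.succ⟩,
    Sum.inl ⟨_, Fn.put⟩, Sum.inl ⟨_, Fn.get⟩, Sum.inl ⟨_, Fn.app⟩, Sum.inr ⟨_, Rl.R⟩] :
      Fin 7 → tau.Symbols) ?_
  rintro (⟨_, f⟩ | ⟨_, f⟩)
  · cases f
    exacts [⟨0, rfl⟩, ⟨1, rfl⟩, ⟨2, rfl⟩, ⟨3, rfl⟩, ⟨4, rfl⟩, ⟨5, rfl⟩]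
  · cases f
    exact ⟨6, rfl⟩

structure Data (σ : FirstOrder.Language.{0, 0}) where
  N : ℕ
  dF : ZMod (N + 1) → Option (Σ n, σ.Functions n)
  dR : ZMod (N + 1) → Option (Σ n, σ.Relations n)
  cF : (Σ n, σ.Functions n) → ℕ
  cR : (Σ n, σ.Relations n) → ℕ
  hF : ∀ f, dF (cF f) = some f ∧ f.1 ≤ N + 1
  hR : ∀ r, dR (cR r) = some r ∧ r.1 ≤ N + 1
  h0 : dR 0 = none

lemma exData (σ : FirstOrder.Language.{0, 0}) (h : Finite σ.Symbols) : Nonempty (Data σ) := by
  obtain ⟨M, ⟨e⟩⟩ := Finite.exists_equiv_fin σ.Symbols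
  obtain ⟨K, hK⟩ := (Set.finite_range (Sum.elim (fun f => f.1) (fun r => r.1) :
    σ.Symbols → ℕ)).bddAbove
  have key : ∀ a b : ℕ, a ≤ M → b ≤ M → (a : ZMod (M + K + 1)) = b → a = b := by
    intro a b ha hb h
    rw [ZMod.natCast_eq_natCast_iff', Nat.mod_eq_of_lt (by omega), Nat.mod_eq_of_lt (by omega)] at h
    exact h
  have inj : Function.Injective fun s => (((e s).1 + 1 : ℕ) : ZMod (M + K + 1)) := by
    intro s s' h
    exact e.injective (Fin.ext (Nat.succ_injective (key _ _ (e s).2 (e s').2 h)))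
  refine ⟨⟨M + K, Function.partialInv fun f => (((e (.inl f)).1 + 1 : ℕ) : ZMod (M + K + 1)),
    Function.partialInv fun f => (((e (.inr f)).1 + 1 : ℕ) : ZMod (M + K + 1)),
    fun f => (e (.inl f)).1 + 1, fun f => (e (.inr f)).1 + 1, fun f => ⟨?_, ?_⟩,
    fun f => ⟨?_, ?_⟩, ?_⟩⟩
  · exact Function.partialInv_left (inj.comp Sum.inl_injective) f
  · have : f.1 ≤ K := hK ⟨.inl f, rfl⟩
    omega
  · exact Function.partialInv_left (inj.comp Sum.inr_injective) f
  · have : f.1 ≤ K := hK ⟨.inr f, rfl⟩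
    omega
  · refine dif_neg ?_
    rintro ⟨f, hf⟩
    exact absurd (key _ 0 (e _).2 (Nat.zero_le _) (by simpa using hf)) (Nat.succ_ne_zero _)

end Pool.Agent.H9.QV
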