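import Pool.Agent.H9.QV1

namespace Pool.Agent.H9.QV

open FirstOrder FirstOrder.Language Filter

variable {σ : FirstOrder.Language.{0, 0}} (D : Data σ)

abbrev W (M : Type) : Type := (ZMod (D.N + 1) → M) × ZMod (D.N + 1)

def appF (A : Sys σ) (u : ZMod (D.N + 1) → A.M) : Option (Σ n, σ.Functions n) → A.M
  | some f => A.str.funMap f.2 fun l => u (l : ℕ)
  | none => u 0

def relF (A : Sys σ) (u : ZMod (D.N + 1) → A.M) : Option (Σ n, σ.Relations n) → Prop
  | some r => A.str.RelMap r.2 fun l => u (l : ℕ)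
  | none => True

def opF (A : Sys σ) : ∀ {n : ℕ}, Fn n → (Fin n → W D A.M) → W D A.M
  | _, .cond, x => if (x 0).2 = (x 1).2 then x 2 else x 3
  | _, .zero, x => ((x 0).1, 0)
  | _, .succ, x => ((x 0).1, (x 0).2 + 1)
  | _, .put, x => (Function.update (x 0).1 (x 2).2 ((x 1).1 0), (x 0).2)
  | _, .get, x => (fun _ => (x 0).1 (x 1).2, 0)
  | _, .app, x => (fun _ => appF D A (x 0).1 (D.dF (x 1).2), 0)

def rlF (A : Sys σ) : ∀ {n : ℕ}, Rl n → (Fin n → W D A.M) → Prop
  | _, .R, x => relF D A (x 0).1 (D.dR (x 1).2)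

def F (A : Sys σ) : Sys tau :=
  ⟨W D A.M, ⟨(fun _ => A.ne.some, 0)⟩, ⟨fun f x => opF D A f x, fun r x => rlF D A r x⟩⟩

def mapW {M M' : Type} (φ : M → M') (u : W D M) : W D M' := (φ ∘ u.1, u.2)

lemma F_nat {X : Type*} {𝓕 : Filter X} (A0 : Sys σ) (A : X → Sys σ) (φ : ∀ x, A0.M → (A x).M)
    (hφ : ∀ n (f : σ.Functions n) (a : Fin n → A0.M),
      ∀ᶠ x in 𝓕, φ x (A0.str.funMap f a) = (A x).str.funMap f fun i => φ x (a i))
    (n : ℕ) (f : tau.Functions n) (a : Fin n → (F D A0).M) :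
    ∀ᶠ x in 𝓕, mapW D (φ x) ((F D A0).str.funMap f a) =
      (F D (A x)).str.funMap f fun i => mapW D (φ x) (a i) := by
  show ∀ᶠ x in 𝓕, mapW D (φ x) (opF D A0 f a) = opF D (A x) f fun i => mapW D (φ x) (a i)
  cases f with
  | cond =>
    refine Eventually.of_forall fun x => ?_
    simp only [opF, mapW]
    split_ifs <;> rfl
  | zero => exact Eventually.of_forall fun x => rfl
  | succ => exact Eventually.of_forall fun x => rfl
  | put =>
    refine Eventually.of_forall fun x => ?_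
    simp only [opF, mapW, Function.comp_update]
    rfl
  | get => exact Eventually.of_forall fun x => rfl
  | app =>
    simp only [opF, mapW]
    cases D.dF (a 1).2 with
    | none => exact Eventually.of_forall fun x => rfl
    | some f =>
      filter_upwards [hφ _ f.2 fun l => (a 0).1 (l : ℕ)] with x hx
      refine Prod.ext (funext fun _ => hx) rfl

def TA (σ : FirstOrder.Language.{0, 0}) (V : Type) [Inhabited V] : Sys σ :=
  ⟨σ.Term V, ⟨.var default⟩, ⟨fun f x => .func f x, fun _ _ => True⟩⟩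

lemma F_gen {C : Set (Sys σ)} (h1 : one σ ∈ C) {A : Sys σ} (hA : A ∈ gen C) :
    F D A ∈ gen (F D '' C) := by
  classical
  rintro ⟨P, c⟩ hq w hw
  let V := ℕ × ZMod (D.N + 1)
  let y : ℕ → (F D (TA σ V)).M := fun j => (fun l => .var (j, l), (w j).2)
  let wa : ∀ A' : Sys σ, (V → A'.M) → ℕ → (F D A').M := fun A' a j => (fun l => a (j, l), (w j).2)
  have nat : ∀ (A' : Sys σ) (a : V → A'.M) (t : tau.Term ℕ),
      mapW D (ev A' a) (ev (F D (TA σ V)) y t) = ev (F D A') (wa A' a) t := by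
    intro A' a t
    have := ev_nat (𝓕 := (⊤ : Filter Unit)) (F D (TA σ V)) (fun _ => F D A')
      (fun _ => mapW D (ev A' a)) (F_nat D (TA σ V) (fun _ => A') (fun _ => ev A' a)
        fun n f a => Eventually.of_forall fun _ => rfl) y (fun _ => wa A' a)
      (fun j => Eventually.of_forall fun _ => rfl) t
    exact eventually_top.1 this ()
  have tr : ∀ α : Atom tau ℕ, ∃ (p : Prop) (l : List (Atom σ V)), ∀ (A' : Sys σ) (a : V → A'.M),
      α.Holds (F D A') (wa A' a) ↔ p ∧ ∀ β ∈ l, β.Holds A' a := by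
    intro α
    cases α with
    | eq s t =>
      refine ⟨(ev (F D (TA σ V)) y s).2 = (ev (F D (TA σ V)) y t).2,
        Finset.univ.toList.map fun l => .eq ((ev (F D (TA σ V)) y s).1 l)
          ((ev (F D (TA σ V)) y t).1 l), fun A' a => ?_⟩
      simp only [Atom.Holds, ← nat, mapW, List.forall_mem_map, Finset.mem_toList, Finset.mem_univ,
        true_imp_iff]
      rw [and_comm]
      exact Prod.ext_iff.trans (and_congr_left' funext_iff)
    | rel r ts =>
      cases r
      have e : ∀ (A' : Sys σ) (a : V → A'.M), (Atom.rel Rl.R ts).Holds (F D A') (wa A' a) ↔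
          relF D A' (ev A' a ∘ (ev (F D (TA σ V)) y (ts 0)).1)
            (D.dR (ev (F D (TA σ V)) y (ts 1)).2) := by
        intro A' a
        simp only [Atom.Holds, ← nat]
        rfl
      simp only [e]
      cases D.dR (ev (F D (TA σ V)) y (ts 1)).2 with
      | none => exact ⟨True, [], fun A' a => by simp [relF]⟩
      | some r =>
        refine ⟨True, [.rel r.2 fun l => (ev (F D (TA σ V)) y (ts 0)).1 (l : ℕ)], fun A' a => ?_⟩
        simp only [true_and, List.mem_singleton, forall_eq]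
        rfl
  choose p l hpl using tr
  let a0 : V → A.M := fun z => (w z.1).1 z.2
  have hw0 : wa A a0 = w := rfl
  have key : ∀ A' ∈ C, ∀ a : V → A'.M, (∀ β ∈ P.flatMap l, β.Holds A' a) →
      p c ∧ ∀ β ∈ l c, β.Holds A' a := by
    intro A' hA' a ha
    refine (hpl c A' a).1 (hq _ ⟨A', hA', rfl⟩ _ fun α hα => (hpl α A' a).2
      ⟨((hpl α A a0).1 (hw α hα)).1, fun β hβ => ha β (List.mem_flatMap.2 ⟨α, hα, hβ⟩)⟩)
  refine (hpl c A a0).2 ⟨(key _ h1 (fun _ => ()) fun β _ => one_holds _ β).1, fun β hβ => ?_⟩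
  refine sat_gen hA (P.flatMap l) β (fun A' hA' a ha => (key A' hA' a ha).2 β hβ) a0 ?_
  intro γ hγ
  obtain ⟨α, hα, hγ⟩ := List.mem_flatMap.1 hγ
  exact ((hpl α A a0).1 (hw α hα)).2 γ hγ

section trans
variable {V V' : Type}

def cI (o : tau.Term V) : ℕ → tau.Term V
  | 0 => .func Fn.zero ![o]
  | k + 1 => .func Fn.succ ![cI o k]

lemma ev_cI (A : Sys σ) (w : V → (F D A).M) (o : tau.Term V) (k : ℕ) :
    (ev (F D A) w (cI o k)).2 = k := by
  induction k with
  | zero => exact Nat.cast_zero.symm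
  | succ k ih =>
    show (ev (F D A) w (cI o k)).2 + 1 = _
    rw [ih, Nat.cast_succ]

def tup (o : tau.Term V) (ts : ℕ → tau.Term V) : ℕ → tau.Term V
  | 0 => o
  | k + 1 => .func Fn.put ![tup o ts k, ts k, cI o k]

lemma ev_tup (A : Sys σ) (w : V → (F D A).M) (o : tau.Term V) (ts : ℕ → tau.Term V) (k : ℕ)
    (hk : k ≤ D.N + 1) (l : ℕ) (hl : l < k) :
    (ev (F D A) w (tup o ts k)).1 l = (ev (F D A) w (ts l)).1 0 := by
  induction k with
  | zero => omega
  | succ k ih =>
    show Function.update (ev (F D A) w (tup o ts k)).1 (ev (F D A) w (cI o k)).2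
      ((ev (F D A) w (ts k)).1 0) l = _
    rw [ev_cI]
    by_cases h : l = k
    · rw [h, Function.update_self]
    · rw [Function.update_of_ne, ih (by omega) (by omega)]
      intro h'
      rw [ZMod.natCast_eq_natCast_iff', Nat.mod_eq_of_lt (by omega), Nat.mod_eq_of_lt (by omega)] at h'
      exact h h'

def tupF (o : tau.Term V) {n : ℕ} (ts : Fin n → tau.Term V) : tau.Term V :=
  tup o (fun k => if h : k < n then ts ⟨k, h⟩ else o) n

lemma ev_tupF (A : Sys σ) (w : V → (F D A).M) (o : tau.Term V) {n : ℕ} (ts : Fin n → tau.Term V)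
    (hn : n ≤ D.N + 1) :
    (fun l : Fin n => (ev (F D A) w (tupF o ts)).1 (l : ℕ)) = fun l => (ev (F D A) w (ts l)).1 0 := by
  funext l
  rw [tupF, ev_tup D A w o _ n hn l l.2, dif_pos l.2]

def appT (o : tau.Term V) {n : ℕ} (f : σ.Functions n) (ts : Fin n → tau.Term V) : tau.Term V :=
  .func Fn.app ![tupF o ts, cI o (D.cF ⟨n, f⟩)]

lemma ev_appT (A : Sys σ) (w : V → (F D A).M) (o : tau.Term V) {n : ℕ} (f : σ.Functions n)
    (ts : Fin n → tau.Term V) : (ev (F D A) w (appT D o f ts)).1 0 =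
      A.str.funMap f fun l => (ev (F D A) w (ts l)).1 0 := by
  show appF D A (ev (F D A) w (tupF o ts)).1 (D.dF (ev (F D A) w (cI o (D.cF ⟨n, f⟩))).2) = _
  rw [ev_cI, (D.hF _).1, ← ev_tupF D A w o ts (D.hF ⟨n, f⟩).2]
  rfl

def up (o : tau.Term V') (s : V → V') : σ.Term V → tau.Term V'
  | .var j => .var (s j)
  | .func f ts => appT D o f fun l => up o s (ts l)

lemma ev_up (A : Sys σ) (w : V' → (F D A).M) (o : tau.Term V') (s : V → V') (t : σ.Term V) :
    (ev (F D A) w (up D o s t)).1 0 = ev A (fun j => (w (s j)).1 0) t := by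
  induction t with
  | var j => rfl
  | func f ts ih => simp only [up, ev_appT, ih, ev_func]

def getT (o u : tau.Term V) (k : ℕ) : tau.Term V := .func Fn.get ![u, cI o k]

lemma ev_getT (A : Sys σ) (w : V → (F D A).M) (o u : tau.Term V) (k : ℕ) :
    ev (F D A) w (getT o u k) = (fun _ => (ev (F D A) w u).1 k, 0) := by
  show ((fun _ => (ev (F D A) w u).1 (ev (F D A) w (cI o k)).2, 0) : W D A.M) = _
  rw [ev_cI]

def upA (o : tau.Term V') (s : V → V') : Atom σ V → Atom tau V'
  | .eq t t' => .eq (getT o (up D o s t) 0) (getT o (up D o s t') 0)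
  | .rel r ts => .rel Rl.R ![tupF o fun l => up D o s (ts l), cI o (D.cR ⟨_, r⟩)]

lemma holds_upA (A : Sys σ) (w : V' → (F D A).M) (o : tau.Term V') (s : V → V') (a : Atom σ V) :
    (upA D o s a).Holds (F D A) w ↔ a.Holds A fun j => (w (s j)).1 0 := by
  cases a with
  | eq t t' =>
    simp only [upA, Atom.Holds, ev_getT, Nat.cast_zero, ev_up]
    exact ⟨fun h => congrFun (congrArg Prod.fst h) 0, fun h => by rw [h]⟩
  | rel r ts =>
    show relF D A (ev (F D A) w (tupF o fun l => up D o s (ts l))).1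
      (D.dR (ev (F D A) w (cI o (D.cR ⟨_, r⟩))).2) ↔ _
    rw [ev_cI, (D.hR _).1]
    simp only [relF, Atom.Holds]
    rw [ev_tupF D A w o _ (D.hR ⟨_, r⟩).2]
    simp only [ev_up]

def iteT (o : tau.Term V) (s t : tau.Term V) : List (V × ℕ) → tau.Term V
  | [] => s
  | z :: l => .func Fn.cond ![.var z.1, cI o z.2, iteT o s t l, t]

lemma ev_iteT (A : Sys σ) (w : V → (F D A).M) (o s t : tau.Term V) (l : List (V × ℕ)) :
    ((∀ z ∈ l, (w z.1).2 = z.2) → ev (F D A) w (iteT o s t l) = ev (F D A) w s) ∧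
    ((¬ ∀ z ∈ l, (w z.1).2 = z.2) → ev (F D A) w (iteT o s t l) = ev (F D A) w t) := by
  induction l with
  | nil => exact ⟨fun _ => rfl, fun h => absurd (by simp) h⟩
  | cons z l ih =>
    have e : ev (F D A) w (iteT o s t (z :: l)) = if (w z.1).2 = (ev (F D A) w (cI o z.2)).2 then
      ev (F D A) w (iteT o s t l) else ev (F D A) w t := rfl
    rw [e, ev_cI, List.forall_mem_cons]
    refine ⟨fun h => by rw [if_pos h.1, ih.1 h.2], fun h => ?_⟩
    split_ifs with h'
    · exact ih.2 fun h2 => h ⟨h', h2⟩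
    · rfl

def locA (o : tau.Term V) (l : List (V × ℕ)) : Atom tau V → Atom tau V
  | .eq s t => .eq (iteT o s t l) t
  | .rel Rl.R ts => .rel Rl.R ![ts 0, iteT o (ts 1) (cI o 0) l]

lemma holds_locA (A : Sys σ) (w : V → (F D A).M) (o : tau.Term V) (l : List (V × ℕ))
    (a : Atom tau V) :
    (locA o l a).Holds (F D A) w ↔ ((∀ z ∈ l, (w z.1).2 = z.2) → a.Holds (F D A) w) := by
  by_cases h : ∀ z ∈ l, (w z.1).2 = z.2
  · rw [imp_iff_right h]
    cases a with
    | eq s t => simp only [locA, Atom.Holds, (ev_iteT D A w o _ _ l).1 h]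
    | rel r ts =>
      cases r
      show relF D A (ev (F D A) w (ts 0)).1 (D.dR (ev (F D A) w (iteT o (ts 1) (cI o 0) l)).2) ↔ _
      rw [(ev_iteT D A w o _ _ l).1 h]
      rfl
  · refine iff_of_true ?_ fun h' => absurd h' h
    cases a with
    | eq s t => simp only [locA, Atom.Holds, (ev_iteT D A w o _ _ l).2 h]
    | rel r ts =>
      cases r
      show relF D A (ev (F D A) w (ts 0)).1 (D.dR (ev (F D A) w (iteT o (ts 1) (cI o 0) l)).2)
      rw [(ev_iteT D A w o _ _ l).2 h, ev_cI, Nat.cast_zero, D.h0]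
      trivial

end trans

lemma F_reflect {Q : Set (Sys σ)} (hQ : IsQV Q) {A : Sys σ} (h : F D A ∈ gen (F D '' Q)) :
    A ∈ Q := by
  refine gen_le hQ subset_rfl ?_
  rintro ⟨P, c⟩ hq v hv
  let w : ℕ → (F D A).M := fun j => (fun _ => v j, 0)
  refine (holds_upA D A w (.var 0) id c).1
    (h (P.map (upA D (.var 0) id), upA D (.var 0) id c) ?_ w ?_)
  · rintro _ ⟨A', hA', rfl⟩ w' hw'
    exact (holds_upA D A' w' _ _ c).2 (hq A' hA' _ fun a ha =>
      (holds_upA D A' w' _ _ a).1 (hw' _ (List.mem_map_of_mem ha)))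
  · intro a ha
    obtain ⟨b, hb, rfl⟩ := List.mem_map.1 ha
    exact (holds_upA D A w _ _ b).2 (hv b hb)

end Pool.Agent.H9.QV
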