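import Pool.Agent.H9.QV2

namespace Pool.Agent.H9.QV

open FirstOrder FirstOrder.Language Filter

variable {σ : FirstOrder.Language.{0, 0}} (D : Data σ)

def listFilter {X ι : Type*} (p : ι → Prop) (R : ι → X → Prop) : Filter X where
  sets := {S | ∃ l : List ι, (∀ i ∈ l, p i) ∧ ∀ x, (∀ i ∈ l, R i x) → x ∈ S}
  univ_sets := ⟨[], by simp, by simp⟩
  sets_of_superset := fun ⟨l, h1, h2⟩ h => ⟨l, h1, fun x hx => h (h2 x hx)⟩
  inter_sets := fun ⟨l, h1, h2⟩ ⟨l', h1', h2'⟩ => ⟨l ++ l', by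
    simpa [or_imp, forall_and] using ⟨h1, h1'⟩, fun x hx =>
      ⟨h2 x fun i hi => hx i (by simp [hi]), h2' x fun i hi => hx i (by simp [hi])⟩⟩

lemma ev_listFilter {X ι : Type*} (p : ι → Prop) (R : ι → X → Prop) (S : X → Prop) :
    (∀ᶠ x in listFilter p R, S x) ↔
      ∃ l : List ι, (∀ i ∈ l, p i) ∧ ∀ x, (∀ i ∈ l, R i x) → S x := Iff.rfl

lemma listFilter_self {X ι : Type*} (p : ι → Prop) (R : ι → X → Prop) (i : ι) (h : p i) :
    ∀ᶠ x in listFilter p R, R i x := ⟨[i], by simpa, by simp⟩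

lemma ev_list {X ι : Type*} {𝓕 : Filter X} (R : ι → X → Prop) (l : List ι)
    (h : ∀ i ∈ l, ∀ᶠ x in 𝓕, R i x) : ∀ᶠ x in 𝓕, ∀ i ∈ l, R i x :=
  (eventually_all_finite (List.finite_toSet l)).2 h

theorem stalk {B : Sys tau} (hB : B ∈ gen (Set.range (F D))) (c : Atom tau B.M)
    (hc : ¬ c.Holds B id) : ∃ (A : Sys σ) (h : B.M → (F D A).M),
      (∀ α : Atom tau B.M, α.Holds B id → α.Holds (F D A) h) ∧ ¬ c.Holds (F D A) h ∧
      ∀ Q, IsQV Q → B ∈ gen (F D '' Q) → A ∈ Q := by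
  classical
  let X := Σ A : Sys σ, B.M → (F D A).M
  let 𝓖 : Filter X := listFilter (fun α : Atom tau B.M => α.Holds B id)
    fun α x => α.Holds (F D x.1) x.2
  have hG : NeBot (𝓖 ⊓ 𝓟 {x | ¬ c.Holds (F D x.1) x.2}) := by
    rw [← frequently_iff_neBot]
    rintro ⟨P, h1, h2⟩
    refine hc (sat_gen hB P c ?_ id h1)
    rintro _ ⟨A, rfl⟩ w hw
    exact not_not.1 (h2 ⟨A, w⟩ hw)
  let 𝓤 := Ultrafilter.of (𝓖 ⊓ 𝓟 {x | ¬ c.Holds (F D x.1) x.2})
  have hU : (𝓤 : Filter X) ≤ _ := Ultrafilter.of_le _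
  have hg : ∀ u : B.M, ∃ i, ∀ᶠ x : X in 𝓤, (x.2 u).2 = i := fun u =>
    Ultrafilter.eventually_exists_iff.1 (Eventually.of_forall fun x => ⟨_, rfl⟩)
  choose g hg using hg
  let 𝓕 : Filter X := 𝓖 ⊓ listFilter (fun _ : B.M => True) fun u x => (x.2 u).2 = g u
  have hUF : (𝓤 : Filter X) ≤ 𝓕 := by
    refine le_inf (hU.trans inf_le_left) ?_
    rintro S ⟨l, -, h⟩
    exact mem_of_superset (ev_list _ l fun u _ => hg u) h
  have hne : NeBot 𝓕 := NeBot.mono inferInstance hUF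
  have hnc : ¬ ∀ᶠ x in 𝓕, c.Holds (F D x.1) x.2 := fun h => by
    obtain ⟨x, h1, h2⟩ := ((h.filter_mono hUF).and
      (le_principal_iff.1 (hU.trans inf_le_right))).exists
    exact h2 h1
  have ftrue : ∀ α : Atom tau B.M, α.Holds B id → ∀ᶠ x in 𝓕, α.Holds (F D x.1) x.2 := fun α h =>
    (listFilter_self _ _ α h).filter_mono inf_le_left
  have fidx : ∀ u, ∀ᶠ x in 𝓕, (x.2 u).2 = g u := fun u =>
    (listFilter_self (fun _ : B.M => True) (fun u (x : X) => (x.2 u).2 = g u) u trivial).filter_mono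
      inf_le_right
  have fterm : ∀ t : tau.Term B.M, ∀ᶠ x in 𝓕, x.2 (ev B id t) = ev (F D x.1) x.2 t := fun t =>
    ftrue (.eq (.var (ev B id t)) t) rfl
  let o : tau.Term B.M := .var B.ne.some
  have floc : ∀ P : List (Atom tau B.M), (∀ α ∈ P, ∀ᶠ x in 𝓕, α.Holds (F D x.1) x.2) →
      ∃ l : List (B.M × ℕ), (∀ᶠ x in 𝓕, ∀ z ∈ l, (x.2 z.1).2 = (z.2 : ZMod (D.N + 1))) ∧
        ∀ α ∈ P, (locA o l α).Holds B id := by
    intro P hP
    obtain ⟨S1, ⟨P', h1, h2⟩, S2, ⟨l, -, h3⟩, h4⟩ := mem_inf_iff_superset.1 (ev_list _ P hP)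
    refine ⟨l.map fun u => (u, (g u).val), ?_, fun α hα => sat_gen hB P' _ ?_ id h1⟩
    · filter_upwards [ev_list _ l fun u _ => fidx u] with x hx
      simpa using hx
    · rintro _ ⟨A, rfl⟩ w hw
      refine (holds_locA D A w o _ α).2 fun h => h4 ⟨h2 ⟨A, w⟩ hw, h3 ⟨A, w⟩ ?_⟩ α hα
      simpa using h
  let s : Setoid B.M := ⟨fun u u' => ∀ᶠ x in 𝓕, (x.2 u).1 0 = (x.2 u').1 0,
    fun _ => Eventually.of_forall fun _ => rfl, fun h => h.mono fun _ => Eq.symm,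
    fun h h' => by filter_upwards [h, h'] with x h1 h2 using h1.trans h2⟩
  let rep : ∀ x : X, Quotient s → x.1.M := fun x a => (x.2 a.out).1 0
  have hmk : ∀ u, ∀ᶠ x in 𝓕, rep x (Quotient.mk s u) = (x.2 u).1 0 := fun u =>
    Quotient.mk_out (s := s) u
  have he : ∀ a b, (∀ᶠ x in 𝓕, rep x a = rep x b) → a = b := fun a b h =>
    Quotient.out_equiv_out.1 h
  let A : Sys σ := ⟨Quotient s, ⟨Quotient.mk s B.ne.some⟩,
    ⟨fun f a => Quotient.mk s (ev B id (appT D o f fun i => .var (a i).out)),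
      fun r a => ∀ᶠ x in 𝓕, x.1.str.RelMap r fun i => rep x (a i)⟩⟩
  have hφ : ∀ n (f : σ.Functions n) (a : Fin n → A.M),
      ∀ᶠ x in 𝓕, rep x (A.str.funMap f a) = x.1.str.funMap f fun i => rep x (a i) := by
    intro n f a
    filter_upwards [hmk (ev B id (appT D o f fun i => .var (a i).out)),
      fterm (appT D o f fun i => .var (a i).out)] with x h1 h2
    refine h1.trans ?_
    rw [h2, ev_appT]
    rfl
  have HA : ∀ (v : ℕ → A.M) (α : Atom σ ℕ), α.Holds A v ↔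
      ∀ᶠ x in 𝓕, (upA D o (fun j => (v j).out) α).Holds (F D x.1) x.2 := by
    intro v α
    simp only [holds_upA]
    exact holds_nat A (fun x : X => x.1) rep hφ he (fun _ _ _ => Iff.rfl) v _
      (fun j => Eventually.of_forall fun _ => rfl) α
  let h : B.M → (F D A).M := fun u =>
    (fun l => Quotient.mk s (ev B id (getT o (.var u) l.val)), g u)
  have HF : ∀ α : Atom tau B.M, α.Holds (F D A) h ↔ ∀ᶠ x in 𝓕, α.Holds (F D x.1) x.2 := by
    refine holds_nat (F D A) (fun x : X => F D x.1) (fun x => mapW D (rep x))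
      (F_nat D A (fun x : X => x.1) rep hφ) ?_ ?_ h _ ?_
    · intro a b hab
      refine Prod.ext (funext fun l => he _ _ (hab.mono fun x hx => ?_)) ?_
      · exact congrFun (congrArg Prod.fst hx) l
      · obtain ⟨x, hx⟩ := hab.exists
        exact (congrArg Prod.snd hx :)
    · intro n r a
      cases r
      show relF D A (a 0).1 (D.dR (a 1).2) ↔
        ∀ᶠ x in 𝓕, relF D x.1 (rep x ∘ (a 0).1) (D.dR (a 1).2)
      cases D.dR (a 1).2 with
      | none => simp [relF]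
      | some r => rfl
    · intro u
      filter_upwards [fidx u, eventually_all.2 fun l : ZMod (D.N + 1) =>
        (hmk (ev B id (getT o (.var u) l.val))).and (fterm (getT o (.var u) l.val))] with x h1 h2
      refine Prod.ext (funext fun l => ?_) h1.symm
      refine (h2 l).1.trans ?_
      rw [(h2 l).2, ev_getT, ZMod.natCast_zmod_val]
      rfl
  refine ⟨A, h, fun α hα => (HF α).2 (ftrue α hα), fun h' => hnc ((HF c).1 h'), ?_⟩
  intro Q hQ hBQ
  refine gen_le hQ subset_rfl ?_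
  rintro ⟨P, c'⟩ hq v hv
  obtain ⟨l, hl1, hl2⟩ := floc (P.map (upA D o fun j => (v j).out)) fun α hα => by
    obtain ⟨b, hb, rfl⟩ := List.mem_map.1 hα
    exact (HA v b).1 (hv b hb)
  have := sat_gen hBQ ((P.map (upA D o fun j => (v j).out)).map (locA o l))
    (locA o l (upA D o (fun j => (v j).out) c')) ?_ id ?_
  · refine (HA v c').2 ?_
    filter_upwards [ftrue _ this, hl1] with x h1 h2
    exact (holds_locA D x.1 x.2 o l _).1 h1 h2
  · rintro _ ⟨A', hA', rfl⟩ w hw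
    refine (holds_locA D A' w o l _).2 fun hl => (holds_upA D A' w _ _ c').2 (hq A' hA' _ ?_)
    intro a ha
    exact (holds_upA D A' w _ _ a).1 ((holds_locA D A' w o l _).1
      (hw _ (List.mem_map_of_mem (List.mem_map_of_mem ha))) hl)
  · intro a ha
    obtain ⟨b, hb, rfl⟩ := List.mem_map.1 ha
    exact hl2 b hb

lemma F_meet {Q Q' : Set (Sys σ)} (hQ : IsQV Q) (hQ' : IsQV Q') :
    gen (F D '' Q) ∩ gen (F D '' Q') ⊆ gen (F D '' (Q ∩ Q')) := by
  rintro B ⟨h1, h2⟩ ⟨P, c⟩ hq v hv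
  by_contra hc
  obtain ⟨A, h, a1, a2, a3⟩ := stalk D (gen_mono (Set.image_subset_range _ _) h1) (c.map v)
    (by rwa [holds_map])
  refine a2 ((holds_map v _ h c).2 (hq _ ⟨A, ⟨a3 Q hQ h1, a3 Q' hQ' h2⟩, rfl⟩ _ fun a ha => ?_))
  exact (holds_map v _ h a).1 (a1 _ ((holds_map v B id a).2 (hv a ha)))

end Pool.Agent.H9.QV
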