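import Mathlib

namespace Pool.Agent.H9.QV

open FirstOrder

/-- An algebraic system of signature `L`: a nonempty set with operations and relations. -/
structure Sys (L : FirstOrder.Language.{0, 0}) : Type 1 where
  M : Type
  ne : Nonempty M
  str : L.Structure M

/-- Atomic formulas with variables in `V`: equations and relations applied to terms. -/
inductive Atom (L : FirstOrder.Language.{0, 0}) (V : Type) : Type
  | eq (s t : L.Term V)
  | rel {n : ℕ} (r : L.Relations n) (ts : Fin n → L.Term V)

/-- The value of a term in a system under an assignment. -/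
def ev {L : FirstOrder.Language.{0, 0}} {V : Type} (A : Sys L) (v : V → A.M) (t : L.Term V) : A.M :=
  @FirstOrder.Language.Term.realize L A.M A.str V v t

/-- Truth of an atomic formula in a system under an assignment. -/
def Atom.Holds {L : FirstOrder.Language.{0, 0}} {V : Type} (A : Sys L) (v : V → A.M) : Atom L V → Prop
  | .eq s t => ev A v s = ev A v t
  | .rel r ts => A.str.RelMap r fun i => ev A v (ts i)

/-- `A` satisfies the quasi-identity whose premises are the atoms in `q.1` and whose conclusion
is the atom `q.2`. -/
def Sat {L : FirstOrder.Language.{0, 0}} {V : Type} (A : Sys L) (q : List (Atom L V) × Atom L V) : Prop :=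
  ∀ v : V → A.M, (∀ a ∈ q.1, a.Holds A v) → q.2.Holds A v

/-- A quasivariety: the class of all systems satisfying some set of quasi-identities. -/
def IsQV {L : FirstOrder.Language.{0, 0}} (K : Set (Sys L)) : Prop :=
  ∃ S : Set (List (Atom L ℕ) × Atom L ℕ), K = {A | ∀ q ∈ S, Sat A q}

/-- The subquasivarieties of `K`, ordered by inclusion. -/
abbrev Lq {L : FirstOrder.Language.{0, 0}} (K : Set (Sys L)) : Type 1 :=
  {Q : Set (Sys L) // IsQV Q ∧ Q ⊆ K}

end Pool.Agent.H9.QV
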