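import Mathlib

namespace Pool.Agent.H9.RE
open Matrix Complex
open scoped Kronecker ComplexOrder

/-- density matrix -/
def IsState {n : Type} [Fintype n] (ρ : Matrix n n ℂ) : Prop := ρ.PosSemidef ∧ trace ρ = 1

/-- quantum channel, in Kraus form -/
def IsChannel {a b : ℕ} (Φ : Matrix (Fin a) (Fin a) ℂ → Matrix (Fin b) (Fin b) ℂ) : Prop :=
  ∃ (r : ℕ) (K : Fin r → Matrix (Fin b) (Fin a) ℂ),
    ∑ k, (K k)ᴴ * K k = 1 ∧ ∀ X, Φ X = ∑ k, K k * X * (K k)ᴴ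

/-- operator convexity on the positive half-line -/
def OpConvex (f : ℝ → ℝ) : Prop :=
  ∀ (n : ℕ) (A B : Matrix (Fin n) (Fin n) ℂ), A.PosDef → B.PosDef → ∀ t : ℝ, 0 ≤ t → t ≤ 1 →
    ((t : ℂ) • cfc f A + ((1 - t : ℝ) : ℂ) • cfc f B -
      cfc f ((t : ℂ) • A + ((1 - t : ℝ) : ℂ) • B)).PosSemidef

variable {n : Type} [Fintype n] [DecidableEq n]

/-- generalised inverse on the support -/
noncomputable def ginv (A : Matrix n n ℂ) : Matrix n n ℂ := cfc (fun x : ℝ => x⁻¹) A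

/-- a matrix as a vector of the Hilbert-Schmidt space -/
def vec (Y : Matrix n n ℂ) : n × n → ℂ := fun p => Y p.1 p.2

/-- the superoperator `Y ↦ ρ Y (ginv γ)` on the Hilbert-Schmidt space -/
noncomputable def LR (ρ γ : Matrix n n ℂ) : Matrix (n × n) (n × n) ℂ := ρ ⊗ₖ (ginv γ)ᵀ

/-- standard `f`-divergence -/
noncomputable def Dstd (f : ℝ → ℝ) (ρ γ : Matrix n n ℂ) : ℝ :=
  (star (vec (cfc Real.sqrt γ)) ⬝ᵥ cfc f (LR ρ γ) *ᵥ vec (cfc Real.sqrt γ)).re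

/-- squared Riemannian semi-norm -/
noncomputable def Riem (κ : ℝ → ℝ) (σ Y : Matrix n n ℂ) : ℝ :=
  (star (vec Y) ⬝ᵥ cfc κ (LR σ σ) *ᵥ vec (Y * ginv σ)).re

/-- the quotients defining the divergence expansion coefficient -/
def divRatios {a b c : ℕ} (f : ℝ → ℝ) (N : Matrix (Fin a) (Fin a) ℂ → Matrix (Fin b) (Fin b) ℂ)
    (M : Matrix (Fin a) (Fin a) ℂ → Matrix (Fin c) (Fin c) ℂ) : Set ℝ :=
  {r | ∃ ρ γ, IsState ρ ∧ IsState γ ∧ ρ ≠ γ ∧ (∀ v, ρ *ᵥ v = 0 ↔ γ *ᵥ v = 0) ∧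
    Dstd f (M ρ) (M γ) ≠ 0 ∧ r = Dstd f (N ρ) (N γ) / Dstd f (M ρ) (M γ)}

/-- the quotients defining the Riemannian expansion coefficient -/
def riemRatios {a b c : ℕ} (κ : ℝ → ℝ) (N : Matrix (Fin a) (Fin a) ℂ → Matrix (Fin b) (Fin b) ℂ)
    (M : Matrix (Fin a) (Fin a) ℂ → Matrix (Fin c) (Fin c) ℂ) : Set ℝ :=
  {r | ∃ ρ X, IsState ρ ∧ X.IsHermitian ∧ trace X = 0 ∧
    Riem κ (M ρ) (M X) ≠ 0 ∧ r = Riem κ (N ρ) (N X) / Riem κ (M ρ) (M X)}

abbrev dg (d : n → ℝ) : Matrix n n ℂ := diagonal fun i => (d i : ℂ)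

lemma spec {A : Matrix n n ℂ} (hA : A.IsHermitian) (g : ℝ → ℝ) :
    ∃ U : Matrix n n ℂ, Uᴴ * U = 1 ∧ U * Uᴴ = 1 ∧ A = U * dg hA.eigenvalues * Uᴴ ∧
      cfc g A = U * dg (fun i => g (hA.eigenvalues i)) * Uᴴ := by
  refine ⟨hA.eigenvectorUnitary, ?_, ?_, ?_, ?_⟩
  · simpa [star_eq_conjTranspose] using (Unitary.coe_star_mul_self hA.eigenvectorUnitary)
  · simpa [star_eq_conjTranspose] using (Unitary.coe_mul_star_self hA.eigenvectorUnitary)
  · have := hA.spectral_theorem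
    rw [Unitary.conjStarAlgAut_apply] at this
    exact this
  · rw [hA.cfc_eq, IsHermitian.cfc, Unitary.conjStarAlgAut_apply]
    rfl

lemma herm_conj (W : Matrix n n ℂ) (d : n → ℝ) : (W * dg d * Wᴴ).IsHermitian := by
  have : (dg d)ᴴ = dg d := by
    rw [dg, diagonal_conjTranspose]; congr 1; funext i; simp
  rw [IsHermitian, conjTranspose_mul, conjTranspose_mul, conjTranspose_conjTranspose, this,
    Matrix.mul_assoc]

lemma fc_eq {W : Matrix n n ℂ} (h1 : Wᴴ * W = 1) (h2 : W * Wᴴ = 1) (d : n → ℝ) (g : ℝ → ℝ) :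
    cfc g (W * dg d * Wᴴ) = W * dg (fun i => g (d i)) * Wᴴ := by
  obtain ⟨U, u1, u2, hA, hg⟩ := spec (herm_conj W d) g
  generalize (herm_conj W d).eigenvalues = l at hA hg
  have e1 : dg l * (Uᴴ * W) = (Uᴴ * W) * dg d := by
    calc dg l * (Uᴴ * W) = (Uᴴ * U) * dg l * Uᴴ * W := by rw [u1]; simp [Matrix.mul_assoc]
      _ = Uᴴ * (U * dg l * Uᴴ) * W := by simp [Matrix.mul_assoc]
      _ = Uᴴ * W * dg d * (Wᴴ * W) := by rw [← hA]; simp [Matrix.mul_assoc]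
      _ = _ := by rw [h1, Matrix.mul_one]
  have e2 : dg (fun i => g (l i)) * (Uᴴ * W) = (Uᴴ * W) * dg (fun i => g (d i)) := by
    ext i j
    have := congrFun (congrFun e1 i) j
    simp only [diagonal_mul, mul_diagonal] at this ⊢
    by_cases h : (Uᴴ * W) i j = 0
    · simp [h]
    · have h3 : (l i : ℂ) = d j := mul_right_cancel₀ h (by rw [this, mul_comm])
      have h4 : l i = d j := by exact_mod_cast h3
      rw [h4, mul_comm]
  rw [hg]
  calc U * dg (fun i => g (l i)) * Uᴴ = U * (dg (fun i => g (l i)) * (Uᴴ * W)) * Wᴴ := by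
        simp only [Matrix.mul_assoc, h2, Matrix.mul_one]
    _ = (U * Uᴴ) * W * dg (fun i => g (d i)) * Wᴴ := by rw [e2]; simp only [Matrix.mul_assoc]
    _ = _ := by rw [u2, Matrix.one_mul]

lemma fc_dg (d : n → ℝ) (g : ℝ → ℝ) : cfc g (dg d) = dg (fun i => g (d i)) := by
  have := fc_eq (W := (1 : Matrix n n ℂ)) (by simp) (by simp) d g
  simpa using this

lemma dg_mul (d e : n → ℝ) : dg d * dg e = dg fun i => d i * e i := by
  simp [dg, diagonal_mul_diagonal]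

lemma fc_sq {A : Matrix n n ℂ} (hA : A.IsHermitian) :
    cfc (fun x : ℝ => (x - 1) ^ 2) A = (A - 1) * (A - 1) := by
  obtain ⟨U, u1, u2, h, hg⟩ := spec hA (fun x : ℝ => (x - 1) ^ 2)
  generalize hA.eigenvalues = l at h hg
  have e : A - 1 = U * dg (fun i => l i - 1) * Uᴴ := by
    have : dg (fun i => l i - 1) = dg l - 1 := by
      ext i j; by_cases hij : i = j <;> simp [hij, one_apply]
    rw [this, Matrix.mul_sub, Matrix.sub_mul, Matrix.mul_one, u2, ← h]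
  rw [hg, e]
  calc U * dg (fun i => (l i - 1) ^ 2) * Uᴴ
      = U * (dg (fun i => l i - 1) * (Uᴴ * U) * dg (fun i => l i - 1)) * Uᴴ := by
        rw [u1, Matrix.mul_one, dg_mul]; simp only [sq]
    _ = _ := by simp only [Matrix.mul_assoc]

lemma fc_kap {A : Matrix n n ℂ} (hA : A.PosDef) :
    cfc (fun x : ℝ => 2 / (1 + x)) A = (2 : ℂ) • (1 + A)⁻¹ := by
  obtain ⟨U, u1, u2, h, hg⟩ := spec hA.1 (fun x : ℝ => 2 / (1 + x))
  have hp := hA.eigenvalues_pos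
  generalize hA.1.eigenvalues = l at h hg hp
  have e : 1 + A = U * dg (fun i => 1 + l i) * Uᴴ := by
    have : dg (fun i => 1 + l i) = 1 + dg l := by
      ext i j; by_cases hij : i = j <;> simp [hij, one_apply]
    rw [this, Matrix.mul_add, Matrix.add_mul, Matrix.mul_one, u2, ← h]
  have e2 : (1 + A)⁻¹ = U * dg (fun i => (1 + l i)⁻¹) * Uᴴ := by
    apply Matrix.inv_eq_right_inv
    rw [e]
    calc U * dg (fun i => 1 + l i) * Uᴴ * (U * dg (fun i => (1 + l i)⁻¹) * Uᴴ)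
        = U * (dg (fun i => 1 + l i) * (Uᴴ * U) * dg (fun i => (1 + l i)⁻¹)) * Uᴴ := by
          simp only [Matrix.mul_assoc]
      _ = 1 := by
          rw [u1, Matrix.mul_one, dg_mul]
          have : (dg fun i => (1 + l i) * (1 + l i)⁻¹) = 1 := by
            rw [← diagonal_one]; congr 1; funext i
            rw [mul_inv_cancel₀ (by have := hp i; positivity)]
          rw [this, Matrix.mul_one, u2]
  rw [hg, e2, ← smul_mul_assoc, ← mul_smul_comm]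
  congr 2
  ext i j; by_cases hij : i = j <;> simp [hij, div_eq_mul_inv]

omit [Fintype n] [DecidableEq n] in
lemma psd_smul {A : Matrix n n ℂ} (h : A.PosSemidef) {t : ℝ} (ht : 0 ≤ t) :
    ((t : ℂ) • A).PosSemidef := h.smul (Complex.zero_le_real.mpr ht)

omit [Fintype n] [DecidableEq n] in
lemma pd_comb {A B : Matrix n n ℂ} (hA : A.PosDef) (hB : B.PosDef) {t : ℝ} (h0 : 0 ≤ t)
    (h1 : t ≤ 1) : ((t : ℂ) • A + ((1 - t : ℝ) : ℂ) • B).PosDef := by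
  rcases h0.eq_or_lt with rfl | h0
  · simpa using hB
  · exact (hA.smul (Complex.zero_lt_real.mpr h0)).add_posSemidef
      (psd_smul hB.posSemidef (by linarith))

lemma conv_sq : OpConvex (fun x : ℝ => (x - 1) ^ 2) := by
  intro k A B hA hB t h0 h1
  rw [fc_sq hA.1, fc_sq hB.1, fc_sq (pd_comb hA hB h0 h1).1]
  have h : (A - B)ᴴ = A - B := (hA.1.sub hB.1)
  have := psd_smul (posSemidef_conjTranspose_mul_self (A - B)) (mul_nonneg h0 (sub_nonneg.mpr h1))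
  rw [h] at this
  convert this using 1
  simp only [Matrix.mul_sub, Matrix.sub_mul, Matrix.mul_add, Matrix.add_mul, smul_mul_assoc,
    mul_smul_comm, Matrix.mul_one, Matrix.one_mul]
  push_cast
  module

lemma conv_kap : OpConvex (fun x : ℝ => 2 / (1 + x)) := by
  intro k A B hA hB t h0 h1
  have hC := pd_comb hA hB h0 h1
  rw [fc_kap hA, fc_kap hB, fc_kap hC]
  have hP : (1 + A).PosDef := PosDef.one.add hA
  have hQ : (1 + B).PosDef := PosDef.one.add hB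
  have hR : (1 + ((t : ℂ) • A + ((1 - t : ℝ) : ℂ) • B)).PosDef := PosDef.one.add hC
  have eR : 1 + ((t : ℂ) • A + ((1 - t : ℝ) : ℂ) • B) =
      (t : ℂ) • (1 + A) + ((1 - t : ℝ) : ℂ) • (1 + B) := by push_cast; module
  generalize 1 + ((t : ℂ) • A + ((1 - t : ℝ) : ℂ) • B) = R at hR eR
  generalize 1 + A = P at hP eR
  generalize 1 + B = Q at hQ eR
  have p1 := Matrix.nonsing_inv_mul P ((isUnit_iff_isUnit_det P).mp hP.isUnit)
  have p2 := Matrix.mul_nonsing_inv P ((isUnit_iff_isUnit_det P).mp hP.isUnit)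
  have q1 := Matrix.nonsing_inv_mul Q ((isUnit_iff_isUnit_det Q).mp hQ.isUnit)
  have q2 := Matrix.mul_nonsing_inv Q ((isUnit_iff_isUnit_det Q).mp hQ.isUnit)
  have r1 := Matrix.nonsing_inv_mul R ((isUnit_iff_isUnit_det R).mp hR.isUnit)
  have a1 := psd_smul (hP.posSemidef.conjTranspose_mul_mul_same (P⁻¹ - R⁻¹))
    (mul_nonneg zero_le_two h0)
  have a2 := psd_smul (hQ.posSemidef.conjTranspose_mul_mul_same (Q⁻¹ - R⁻¹))
    (mul_nonneg zero_le_two (sub_nonneg.mpr h1))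
  rw [(hP.inv.1.sub hR.inv.1)] at a1
  rw [(hQ.inv.1.sub hR.inv.1)] at a2
  have e3 : R⁻¹ = (t : ℂ) • (R⁻¹ * P * R⁻¹) + ((1 - t : ℝ) : ℂ) • (R⁻¹ * Q * R⁻¹) := by
    calc R⁻¹ = R⁻¹ * R * R⁻¹ := by rw [r1, Matrix.one_mul]
      _ = R⁻¹ * ((t : ℂ) • P + ((1 - t : ℝ) : ℂ) • Q) * R⁻¹ := by rw [← eR]
      _ = _ := by simp only [Matrix.mul_add, Matrix.add_mul, smul_mul_assoc, mul_smul_comm]
  have b1 : (P⁻¹ - R⁻¹) * P * (P⁻¹ - R⁻¹) = P⁻¹ - R⁻¹ - R⁻¹ + R⁻¹ * P * R⁻¹ := by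
    rw [Matrix.sub_mul, Matrix.sub_mul, p1, Matrix.mul_sub (R⁻¹ * P), Matrix.mul_assoc R⁻¹ P P⁻¹,
      p2, Matrix.one_mul, Matrix.mul_one]; abel
  have b2 : (Q⁻¹ - R⁻¹) * Q * (Q⁻¹ - R⁻¹) = Q⁻¹ - R⁻¹ - R⁻¹ + R⁻¹ * Q * R⁻¹ := by
    rw [Matrix.sub_mul, Matrix.sub_mul, q1, Matrix.mul_sub (R⁻¹ * Q), Matrix.mul_assoc R⁻¹ Q Q⁻¹,
      q2, Matrix.one_mul, Matrix.mul_one]; abel
  have := a1.add a2
  rw [b1, b2] at this
  convert this using 1
  generalize R⁻¹ * P * R⁻¹ = X at e3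
  generalize R⁻¹ * Q * R⁻¹ = Y at e3
  rw [e3]
  push_cast
  module

end Pool.Agent.H9.RE
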