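import Mathlib
import Pool.Agent.H9.RE1

namespace Pool.Agent.H9.RC
open Matrix Complex Pool.Agent.H9.RE
open scoped Kronecker ComplexOrder

variable {n m : Type} [Fintype n] [DecidableEq n] [Fintype m] [DecidableEq m]

/-- real power of a Hermitian matrix; `0 ^ p = 0` for `p ≠ 0`, so taken on the support -/
noncomputable def pw (A : Matrix n n ℂ) (p : ℝ) : Matrix n n ℂ := cfc (fun x : ℝ => x ^ p) A

/-- partial trace over the first factor -/
def ptr (ρ : Matrix (n × m) (n × m) ℂ) : Matrix m m ℂ := fun i j => ∑ a, ρ (a, i) (a, j)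

/-- the quantity `Q` -/
noncomputable def Q (α : ℝ) (ρ : Matrix (n × m) (n × m) ℂ) : ℝ :=
  (trace (pw (((1 : Matrix n n ℂ) ⊗ₖ pw (ptr ρ) ((1 - α) / (2 * α))) * ρ *
    ((1 : Matrix n n ℂ) ⊗ₖ pw (ptr ρ) ((1 - α) / (2 * α)))) α)).re

/-- sandwiched conditional Renyi entropy, down version -/
noncomputable def Hd (α : ℝ) (ρ : Matrix (n × m) (n × m) ℂ) : ℝ := Real.log (Q α ρ) / (1 - α)

/-- the projector `|x⟩⟨x|` -/
def pr (x : Fin 2) : Matrix (Fin 2) (Fin 2) ℂ := single x x 1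

/-- the state `ρ_i` -/
noncomputable def rho (σ : Fin 2 → Matrix n n ℂ) : Matrix (Fin 2 × n) (Fin 2 × n) ℂ :=
  (1 / 2 : ℂ) • ∑ x, pr x ⊗ₖ σ x

/-- the `(X₁+X₂) B₁ B₂` marginal of the state after the CNOT -/
noncomputable def tau (σ : Fin 2 → Matrix n n ℂ) (s : Fin 2 → Matrix m m ℂ) :
    Matrix (Fin 2 × (n × m)) (Fin 2 × (n × m)) ℂ :=
  (1 / 4 : ℂ) • ∑ a, ∑ b, pr (a + b) ⊗ₖ (σ a ⊗ₖ s b)

def cq (s t : Matrix n n ℂ) : Matrix (Fin 2 × n) (Fin 2 × n) ℂ := pr 0 ⊗ₖ s + pr 1 ⊗ₖ t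

omit [DecidableEq n] in
lemma cq_mul (s t u v : Matrix n n ℂ) : cq s t * cq u v = cq (s * u) (t * v) := by
  have a : pr 0 * pr 0 = pr 0 := by simp [pr, single_mul_single_same]
  have b : pr 1 * pr 1 = pr 1 := by simp [pr, single_mul_single_same]
  have c : pr 0 * pr 1 = 0 := by simp [pr]
  have d : pr 1 * pr 0 = 0 := by simp [pr]
  simp only [cq, Matrix.add_mul, Matrix.mul_add, ← mul_kronecker_mul, a, b, c, d, zero_kronecker,
    add_zero, zero_add]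

omit [Fintype n] [DecidableEq n] in
lemma cq_one (G : Matrix n n ℂ) : (1 : Matrix (Fin 2) (Fin 2) ℂ) ⊗ₖ G = cq G G := by
  rw [cq, ← add_kronecker]; congr 1
  ext i j; fin_cases i <;> fin_cases j <;> simp [pr]

omit [DecidableEq n] in
lemma cq_tr (s t : Matrix n n ℂ) : trace (cq s t) = trace s + trace t := by
  simp [cq, trace_kronecker, pr]

omit [Fintype n] [DecidableEq n] in
lemma cq_ptr (s t : Matrix n n ℂ) : ptr (cq s t) = s + t := by
  ext i j; simp [ptr, cq, pr, Fin.sum_univ_two]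

omit [Fintype n] [DecidableEq n] in
lemma cq_herm {s t : Matrix n n ℂ} (hs : s.IsHermitian) (ht : t.IsHermitian) :
    (cq s t).IsHermitian := by
  simp only [IsHermitian, cq, conjTranspose_add, conjTranspose_kronecker, hs.eq, ht.eq, pr,
    conjTranspose_single, star_one]

lemma pw_herm (A : Matrix n n ℂ) (p : ℝ) : (pw A p).IsHermitian := by
  have : IsSelfAdjoint (pw A p) := cfc_predicate _ _
  exact this

lemma pw3 {A : Matrix n n ℂ} (h : A.IsHermitian) : pw A 3 = A * A * A := by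
  have e : (fun x : ℝ => x ^ (3 : ℝ)) = fun x : ℝ => x ^ (3 : ℕ) := by
    funext x; exact_mod_cast Real.rpow_natCast x 3
  have h' : IsSelfAdjoint A := h
  rw [pw, e, cfc_pow_id A 3 h', pow_three, Matrix.mul_assoc]

lemma pw_kron {A : Matrix n n ℂ} {B : Matrix m m ℂ} (hA : A.PosSemidef) (hB : B.PosSemidef)
    (p : ℝ) : pw (A ⊗ₖ B) p = pw A p ⊗ₖ pw B p := by
  obtain ⟨U, u1, u2, h, hg⟩ := spec hA.1 (fun x : ℝ => x ^ p)
  obtain ⟨V, v1, v2, k, kg⟩ := spec hB.1 (fun x : ℝ => x ^ p)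
  have hp := hA.eigenvalues_nonneg
  have kp := hB.eigenvalues_nonneg
  generalize hA.1.eigenvalues = l at h hg hp
  generalize hB.1.eigenvalues = r at k kg kp
  have dk : ∀ (a : n → ℝ) (b : m → ℝ), dg a ⊗ₖ dg b = dg (fun i : n × m => a i.1 * b i.2) := by
    intro a b; simp [dg, diagonal_kronecker_diagonal]
  have e : A ⊗ₖ B = (U ⊗ₖ V) * dg (fun i : n × m => l i.1 * r i.2) * (U ⊗ₖ V)ᴴ := by
    rw [← dk, conjTranspose_kronecker, ← mul_kronecker_mul, ← mul_kronecker_mul, ← h, ← k]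
  unfold pw
  rw [e, fc_eq, hg, kg, mul_kronecker_mul, mul_kronecker_mul, dk, conjTranspose_kronecker]
  · congr 3; funext i; rw [Real.mul_rpow (hp _) (kp _)]
  · rw [conjTranspose_kronecker, ← mul_kronecker_mul, u1, v1, one_kronecker_one]
  · rw [conjTranspose_kronecker, ← mul_kronecker_mul, u2, v2, one_kronecker_one]

/-- sandwich by the power `-1/3` -/
noncomputable def sw (R X : Matrix n n ℂ) : Matrix n n ℂ := pw R (-1 / 3) * X * pw R (-1 / 3)

lemma tr_cube {R : Matrix n n ℂ} (hR : R.PosSemidef) :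
    trace (sw R R * sw R R * sw R R) = trace R := by
  obtain ⟨U, u1, u2, h, hg⟩ := spec hR.1 (fun x : ℝ => x ^ (-1 / 3 : ℝ))
  have hp := hR.eigenvalues_nonneg
  generalize hR.1.eigenvalues = l at h hg hp
  have mm : ∀ a b : n → ℝ, U * dg a * Uᴴ * (U * dg b * Uᴴ) = U * dg (fun i => a i * b i) * Uᴴ := by
    intro a b
    calc _ = U * (dg a * (Uᴴ * U) * dg b) * Uᴴ := by simp only [Matrix.mul_assoc]
      _ = _ := by rw [u1, Matrix.mul_one, dg_mul]
  have e : sw R R = U * dg (fun i => l i ^ (-1 / 3 : ℝ) * l i * l i ^ (-1 / 3 : ℝ)) * Uᴴ := by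
    rw [sw, pw, hg, ← mm, ← mm, ← h]
  rw [e, mm, mm]
  conv_rhs => rw [h]
  refine congrArg (fun z => trace (U * dg z * Uᴴ)) (funext fun i => ?_)
  rcases (hp i).eq_or_lt with h0 | h0
  · rw [← h0]; simp
  · have : (l i ^ (-1 / 3 : ℝ)) ^ (3 : ℕ) = (l i)⁻¹ := by
      rw [← Real.rpow_natCast, ← Real.rpow_mul h0.le, ← Real.rpow_neg_one]; norm_num
    generalize l i ^ (-1 / 3 : ℝ) = y at this
    have h2 : y ^ 3 * l i = 1 := by rw [this, inv_mul_cancel₀ h0.ne']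
    calc _ = (y ^ 3 * l i) ^ 2 * l i := by ring
      _ = _ := by rw [h2]; ring

lemma sw_psd (R : Matrix n n ℂ) {X : Matrix n n ℂ} (h : X.PosSemidef) : (sw R X).PosSemidef := by
  have := h.conjTranspose_mul_mul_same (pw R (-1 / 3))
  rwa [(pw_herm R _).eq] at this

lemma sw_herm (R : Matrix n n ℂ) {X : Matrix n n ℂ} (h : X.IsHermitian) : (sw R X).IsHermitian := by
  have := isHermitian_conjTranspose_mul_mul (pw R (-1 / 3)) h
  rwa [(pw_herm R _).eq] at this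

/-- the invariant -/
noncomputable def ee (s t : Matrix n n ℂ) : ℂ :=
  trace (sw (s + t) (s - t) * sw (s + t) (s + t) * sw (s + t) (s - t))

lemma ee_nonneg {s t : Matrix n n ℂ} (hs : s.PosSemidef) (ht : t.PosSemidef) : 0 ≤ ee s t := by
  have := (sw_psd (s + t) (hs.add ht)).conjTranspose_mul_mul_same (sw (s + t) (s - t))
  rw [(sw_herm (s + t) (hs.1.sub ht.1)).eq] at this
  exact this.trace_nonneg

omit [DecidableEq n] in
lemma cubes (X Y : Matrix n n ℂ) :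
    trace ((X + Y) * (X + Y) * (X + Y)) = trace (X * X * X) + trace (Y * Y * Y) +
      3 * trace (X * Y * X) + 3 * trace (Y * X * Y) ∧
    trace ((X - Y) * (X + Y) * (X - Y)) = trace (X * X * X) + trace (Y * Y * Y) -
      trace (X * Y * X) - trace (Y * X * Y) := by
  have a := trace_mul_cycle X X Y
  have b := trace_mul_cycle X Y X
  have c := trace_mul_cycle Y Y X
  have d := trace_mul_cycle Y X Y
  simp only [Matrix.add_mul, Matrix.mul_add, Matrix.sub_mul, Matrix.mul_sub, trace_add, trace_sub]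
  constructor
  · linear_combination -a - 2 * b - c - 2 * d
  · linear_combination a + 2 * b + c + 2 * d

lemma Q3 {s t : Matrix n n ℂ} (hs : s.PosSemidef) (ht : t.PosSemidef) (h1 : trace (s + t) = 1) :
    Q 3 (cq s t) = (1 + 3 * (ee s t).re) / 4 ∧ (ee s t).re ≤ 1 := by
  have g : ((1 : ℝ) - 3) / (2 * 3) = -1 / 3 := by norm_num
  have c := tr_cube (hs.add ht)
  have a1 : sw (s + t) (s + t) = sw (s + t) s + sw (s + t) t := by
    simp only [sw, Matrix.add_mul, Matrix.mul_add]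
  have a2 : sw (s + t) (s - t) = sw (s + t) s - sw (s + t) t := by
    simp only [sw, Matrix.sub_mul, Matrix.mul_sub]
  have p1 := sw_psd (s + t) hs
  have p2 := sw_psd (s + t) ht
  have q : Q 3 (cq s t) = (trace (sw (s + t) s * sw (s + t) s * sw (s + t) s) +
      trace (sw (s + t) t * sw (s + t) t * sw (s + t) t)).re := by
    rw [Q, cq_ptr, g, cq_one, cq_mul, cq_mul]
    change (trace (pw (cq (sw (s + t) s) (sw (s + t) t)) 3)).re = _
    rw [pw3 (cq_herm p1.1 p2.1), cq_mul, cq_mul, cq_tr]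
  rw [q, ee, a2, a1]
  rw [a1, h1] at c
  generalize sw (s + t) s = X at *
  generalize sw (s + t) t = Y at *
  obtain ⟨k1, k2⟩ := cubes X Y
  have n1 := (p2.conjTranspose_mul_mul_same X).trace_nonneg
  have n2 := (p1.conjTranspose_mul_mul_same Y).trace_nonneg
  rw [p1.1.eq] at n1
  rw [p2.1.eq] at n2
  have r1 := (Complex.nonneg_iff.mp n1).1
  have r2 := (Complex.nonneg_iff.mp n2).1
  rw [c] at k1
  have k3 := congrArg Complex.re k1
  have k4 := congrArg Complex.re k2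
  simp at k3 k4 ⊢
  constructor <;> linarith

omit [Fintype n] [DecidableEq n] in
lemma rho_eq (σ : Fin 2 → Matrix n n ℂ) :
    rho σ = cq ((1 / 2 : ℂ) • σ 0) ((1 / 2 : ℂ) • σ 1) := by
  simp only [rho, cq, Fin.sum_univ_two, kronecker_smul, smul_add]

omit [Fintype n] [DecidableEq n] [Fintype m] [DecidableEq m] in
lemma tau_eq (σ : Fin 2 → Matrix n n ℂ) (s : Fin 2 → Matrix m m ℂ) :
    tau σ s = cq (((1 / 2 : ℂ) • σ 0) ⊗ₖ ((1 / 2 : ℂ) • s 0) + ((1 / 2 : ℂ) • σ 1) ⊗ₖ ((1 / 2 : ℂ) • s 1))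
      (((1 / 2 : ℂ) • σ 0) ⊗ₖ ((1 / 2 : ℂ) • s 1) + ((1 / 2 : ℂ) • σ 1) ⊗ₖ ((1 / 2 : ℂ) • s 0)) := by
  have a : (1 : Fin 2) + 1 = 0 := rfl
  simp only [tau, cq, Fin.sum_univ_two, kronecker_smul, smul_kronecker, smul_add, kronecker_add,
    smul_smul, zero_add, add_zero, a]
  norm_num
  abel

lemma ee_kron {s t : Matrix n n ℂ} {u v : Matrix m m ℂ} (hs : s.PosSemidef) (ht : t.PosSemidef)
    (hu : u.PosSemidef) (hv : v.PosSemidef) :
    ee (s ⊗ₖ u + t ⊗ₖ v) (s ⊗ₖ v + t ⊗ₖ u) = ee s t * ee u v := by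
  have a : s ⊗ₖ u + t ⊗ₖ v + (s ⊗ₖ v + t ⊗ₖ u) = (s + t) ⊗ₖ (u + v) := by
    simp only [add_kronecker, kronecker_add]; abel
  have b : s ⊗ₖ u + t ⊗ₖ v - (s ⊗ₖ v + t ⊗ₖ u) = (s - t) ⊗ₖ (u - v) := by
    ext i j; simp; ring
  simp only [ee, sw]
  rw [a, b, pw_kron (hs.add ht) (hu.add hv)]
  simp only [← mul_kronecker_mul, trace_kronecker]

lemma main (σ : Fin 2 → Matrix n n ℂ) (s : Fin 2 → Matrix m m ℂ) (hσ : ∀ x, IsState (σ x))
    (hs : ∀ x, IsState (s x)) : ∃ a b : ℝ, 0 ≤ a ∧ a ≤ 1 ∧ 0 ≤ b ∧ b ≤ 1 ∧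
      Q 3 (rho σ) = (1 + 3 * a) / 4 ∧ Q 3 (rho s) = (1 + 3 * b) / 4 ∧
      Q 3 (tau σ s) = (1 + 3 * (a * b)) / 4 := by
  have h2 : (0 : ℂ) ≤ 1 / 2 := by
    rw [Complex.nonneg_iff]; norm_num
  have p0 := (hσ 0).1.smul h2
  have p1 := (hσ 1).1.smul h2
  have q0 := (hs 0).1.smul h2
  have q1 := (hs 1).1.smul h2
  have t1 : trace ((1 / 2 : ℂ) • σ 0 + (1 / 2 : ℂ) • σ 1) = 1 := by
    rw [trace_add, trace_smul, trace_smul, (hσ 0).2, (hσ 1).2]; norm_num
  have t2 : trace ((1 / 2 : ℂ) • s 0 + (1 / 2 : ℂ) • s 1) = 1 := by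
    rw [trace_add, trace_smul, trace_smul, (hs 0).2, (hs 1).2]; norm_num
  rw [rho_eq, rho_eq, tau_eq]
  generalize (1 / 2 : ℂ) • σ 0 = A at *
  generalize (1 / 2 : ℂ) • σ 1 = B at *
  generalize (1 / 2 : ℂ) • s 0 = C at *
  generalize (1 / 2 : ℂ) • s 1 = D at *
  have e1 := Complex.nonneg_iff.mp (ee_nonneg p0 p1)
  have e2 := Complex.nonneg_iff.mp (ee_nonneg q0 q1)
  have t3 : trace (A ⊗ₖ C + B ⊗ₖ D + (A ⊗ₖ D + B ⊗ₖ C)) = 1 := by
    rw [trace_add] at t1 t2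
    simp only [trace_add, trace_kronecker]
    linear_combination (trace C + trace D) * t1 + t2
  refine ⟨(ee A B).re, (ee C D).re, e1.1, (Q3 p0 p1 t1).2, e2.1, (Q3 q0 q1 t2).2, (Q3 p0 p1 t1).1,
    (Q3 q0 q1 t2).1, ?_⟩
  rw [(Q3 ((p0.kronecker q0).add (p1.kronecker q1)) ((p0.kronecker q1).add (p1.kronecker q0)) t3).1,
    ee_kron p0 p1 q0 q1, Complex.mul_re, ← e1.2]
  ring

end Pool.Agent.H9.RC
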