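import Mathlib
import Pool.Agent.H9.RC1

namespace Pool.Agent.H9.RC
open Matrix Complex Pool.Agent.H9.RE
open scoped Kronecker ComplexOrder

variable {n m : Type} [Fintype n] [DecidableEq n] [Fintype m] [DecidableEq m]

lemma tr_pp {X Z : Matrix n n ℂ} (hX : X.PosSemidef) (hZ : Z.PosSemidef) : 0 ≤ trace (X * Z) := by
  open scoped MatrixOrder in
  obtain ⟨B, hB⟩ := CStarAlgebra.nonneg_iff_eq_star_mul_self.mp hX.nonneg
  rw [hB, Matrix.mul_assoc, trace_mul_comm]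
  exact (hZ.mul_mul_conjTranspose_same B).trace_nonneg

lemma pw4 {A : Matrix n n ℂ} (h : A.IsHermitian) : pw A 4 = A * (A * (A * A)) := by
  have e : (fun x : ℝ => x ^ (4 : ℝ)) = fun x : ℝ => x ^ (4 : ℕ) := by
    funext x; exact_mod_cast Real.rpow_natCast x 4
  have h' : IsSelfAdjoint A := h
  rw [pw, e, cfc_pow_id A 4 h', pow_succ', pow_three]

/-- sandwich by the power `-3/8` -/
noncomputable def s4 (R X : Matrix n n ℂ) : Matrix n n ℂ := pw R (-3 / 8) * X * pw R (-3 / 8)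

lemma tr_four {R : Matrix n n ℂ} (hR : R.PosSemidef) :
    trace (s4 R R * (s4 R R * (s4 R R * s4 R R))) = trace R := by
  obtain ⟨U, u1, u2, h, hg⟩ := spec hR.1 (fun x : ℝ => x ^ (-3 / 8 : ℝ))
  have hp := hR.eigenvalues_nonneg
  generalize hR.1.eigenvalues = l at h hg hp
  have mm : ∀ a b : n → ℝ, U * dg a * Uᴴ * (U * dg b * Uᴴ) = U * dg (fun i => a i * b i) * Uᴴ := by
    intro a b
    calc _ = U * (dg a * (Uᴴ * U) * dg b) * Uᴴ := by simp only [Matrix.mul_assoc]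
      _ = _ := by rw [u1, Matrix.mul_one, dg_mul]
  have e : s4 R R = U * dg (fun i => l i ^ (-3 / 8 : ℝ) * l i * l i ^ (-3 / 8 : ℝ)) * Uᴴ := by
    rw [s4, pw, hg, ← mm, ← mm, ← h]
  rw [e, mm, mm, mm]
  conv_rhs => rw [h]
  refine congrArg (fun z => trace (U * dg z * Uᴴ)) (funext fun i => ?_)
  rcases (hp i).eq_or_lt with h0 | h0
  · rw [← h0]; simp
  · have : (l i ^ (-3 / 8 : ℝ)) ^ (8 : ℕ) = ((l i) ^ (3 : ℕ))⁻¹ := by
      rw [← Real.rpow_natCast, ← Real.rpow_mul h0.le, ← Real.rpow_natCast, ← Real.rpow_neg h0.le]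
      norm_num
    generalize l i ^ (-3 / 8 : ℝ) = y at this
    have h2 : y ^ 8 * l i ^ 3 = 1 := by rw [this, inv_mul_cancel₀ (by positivity)]
    calc _ = (y ^ 8 * l i ^ 3) * l i := by ring
      _ = _ := by rw [h2]; ring

lemma s4_psd (R : Matrix n n ℂ) {X : Matrix n n ℂ} (h : X.PosSemidef) : (s4 R X).PosSemidef := by
  have := h.conjTranspose_mul_mul_same (pw R (-3 / 8))
  rwa [(pw_herm R _).eq] at this

omit [DecidableEq n] in
lemma cyc (A B C F : Matrix n n ℂ) : trace (A * (B * (C * F))) = trace (B * (C * (F * A))) := by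
  rw [trace_mul_comm]; simp only [Matrix.mul_assoc]

noncomputable def DD (s t : Matrix n n ℂ) := s4 (s + t) (s + t)
noncomputable def EE (s t : Matrix n n ℂ) := s4 (s + t) (s - t)
noncomputable def aa (s t : Matrix n n ℂ) : ℂ := trace (DD s t * (DD s t * (EE s t * EE s t)))
noncomputable def bb (s t : Matrix n n ℂ) : ℂ := trace (DD s t * (EE s t * (DD s t * EE s t)))
noncomputable def cc (s t : Matrix n n ℂ) : ℂ := trace (EE s t * (EE s t * (EE s t * EE s t)))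

lemma key {X Y D E : Matrix n n ℂ} (hX : X.PosSemidef) (hY : Y.PosSemidef) (hD : D = X + Y)
    (hE : E = X - Y) :
    8 * (trace (X * (X * (X * X))) + trace (Y * (Y * (Y * Y)))) = trace (D * (D * (D * D))) +
      4 * trace (D * (D * (E * E))) + 2 * trace (D * (E * (D * E))) + trace (E * (E * (E * E))) ∧
    0 ≤ trace (D * (D * (E * E))) - trace (D * (E * (D * E))) ∧
    0 ≤ trace (D * (E * (D * E))) - trace (E * (E * (E * E))) ∧ 0 ≤ trace (E * (E * (E * E))) := by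
  have eD : Dᴴ = D := hD ▸ (hX.1.add hY.1).eq
  have eE : Eᴴ = E := hE ▸ (hX.1.sub hY.1).eq
  refine ⟨?_, ?_, ?_, ?_⟩
  · have x : X = (1 / 2 : ℂ) • (D + E) := by rw [hD, hE]; module
    have y : Y = (1 / 2 : ℂ) • (D - E) := by rw [hD, hE]; module
    have c1 := cyc D D E E
    have c2 := cyc D E E D
    have c3 := cyc E E D D
    have c4 := cyc D E D E
    rw [x, y]
    simp only [Matrix.smul_mul, Matrix.mul_smul, trace_smul, smul_eq_mul, Matrix.add_mul,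
      Matrix.mul_add, Matrix.sub_mul, Matrix.mul_sub, trace_add, trace_sub]
    linear_combination (-3) * c1 - 2 * c2 - c3 - c4
  · have p := (posSemidef_conjTranspose_mul_self (D * E - E * D)).trace_nonneg
    have c1 := cyc D D E E
    have c2 := cyc D E E D
    have c3 := cyc E E D D
    have c4 := cyc D E D E
    have : trace (D * (D * (E * E))) - trace (D * (E * (D * E))) =
        (1 / 2 : ℂ) * trace ((D * E - E * D)ᴴ * (D * E - E * D)) := by
      simp only [conjTranspose_sub, conjTranspose_mul, eD, eE, Matrix.sub_mul, Matrix.mul_sub,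
        trace_sub, Matrix.mul_assoc]
      linear_combination c1 + (1 / 2) * c2 + (1 / 2) * c3 - (1 / 2) * c4
    rw [this]
    exact mul_nonneg (by rw [Complex.nonneg_iff]; norm_num) p
  · have p := tr_pp hX (hY.conjTranspose_mul_mul_same E)
    rw [eE] at p
    have c1 := cyc X E Y E
    have c2 := cyc E Y E X
    have : trace (D * (E * (D * E))) - trace (E * (E * (E * E))) = 4 * trace (X * (E * Y * E)) := by
      have z : trace (E * (E * (E * E))) = trace ((X - Y) * (E * ((X - Y) * E))) := by rw [← hE]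
      rw [z, hD]
      simp only [Matrix.add_mul, Matrix.mul_add, Matrix.sub_mul, Matrix.mul_sub, trace_add,
        trace_sub, Matrix.mul_assoc]
      linear_combination (-2) * c1 - 2 * c2
    rw [this]
    exact mul_nonneg (by rw [Complex.nonneg_iff]; norm_num) p
  · have p := (posSemidef_conjTranspose_mul_self (E * E)).trace_nonneg
    rwa [conjTranspose_mul, eE, Matrix.mul_assoc] at p

lemma Q4 {s t : Matrix n n ℂ} (hs : s.PosSemidef) (ht : t.PosSemidef) (h1 : trace (s + t) = 1) :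
    Q 4 (cq s t) = (1 + (4 * aa s t + 2 * bb s t + cc s t).re) / 8 ∧
      0 ≤ aa s t - bb s t ∧ 0 ≤ bb s t - cc s t ∧ 0 ≤ cc s t := by
  have g : ((1 : ℝ) - 4) / (2 * 4) = -3 / 8 := by norm_num
  have c := tr_four (hs.add ht)
  have a1 : DD s t = s4 (s + t) s + s4 (s + t) t := by
    simp only [DD, s4, Matrix.add_mul, Matrix.mul_add]
  have a2 : EE s t = s4 (s + t) s - s4 (s + t) t := by
    simp only [EE, s4, Matrix.sub_mul, Matrix.mul_sub]
  have p1 := s4_psd (s + t) hs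
  have p2 := s4_psd (s + t) ht
  obtain ⟨k1, k2⟩ := key p1 p2 a1 a2
  refine ⟨?_, k2⟩
  rw [Q, cq_ptr, g, cq_one, cq_mul, cq_mul]
  change (trace (pw (cq (s4 (s + t) s) (s4 (s + t) t)) 4)).re = _
  rw [pw4 (cq_herm p1.1 p2.1), cq_mul, cq_mul, cq_mul, cq_tr]
  rw [h1] at c
  have c' : trace (DD s t * (DD s t * (DD s t * DD s t))) = 1 := c
  rw [c'] at k1
  have k3 := congrArg Complex.re k1
  simp only [aa, bb, cc]
  simp at k3 ⊢
  linarith

lemma DE_kron {s t : Matrix n n ℂ} {u v : Matrix m m ℂ} (hs : s.PosSemidef) (ht : t.PosSemidef)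
    (hu : u.PosSemidef) (hv : v.PosSemidef) :
    DD (s ⊗ₖ u + t ⊗ₖ v) (s ⊗ₖ v + t ⊗ₖ u) = DD s t ⊗ₖ DD u v ∧
    EE (s ⊗ₖ u + t ⊗ₖ v) (s ⊗ₖ v + t ⊗ₖ u) = EE s t ⊗ₖ EE u v := by
  have a : s ⊗ₖ u + t ⊗ₖ v + (s ⊗ₖ v + t ⊗ₖ u) = (s + t) ⊗ₖ (u + v) := by
    simp only [add_kronecker, kronecker_add]; abel
  have b : s ⊗ₖ u + t ⊗ₖ v - (s ⊗ₖ v + t ⊗ₖ u) = (s - t) ⊗ₖ (u - v) := by
    ext i j; simp; ring
  simp only [DD, EE, s4]
  rw [a, b, pw_kron (hs.add ht) (hu.add hv)]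
  simp only [← mul_kronecker_mul, and_self]

lemma main4 (σ : Fin 2 → Matrix n n ℂ) (s : Fin 2 → Matrix m m ℂ) (hσ : ∀ x, IsState (σ x))
    (hs : ∀ x, IsState (s x)) : ∃ a b c a' b' c' : ℝ, 0 ≤ c ∧ c ≤ b ∧ b ≤ a ∧
      0 ≤ c' ∧ c' ≤ b' ∧ b' ≤ a' ∧
      Q 4 (rho σ) = (1 + (4 * a + 2 * b + c)) / 8 ∧ Q 4 (rho s) = (1 + (4 * a' + 2 * b' + c')) / 8 ∧
      Q 4 (tau σ s) = (1 + (4 * (a * a') + 2 * (b * b') + c * c')) / 8 := by
  have h2 : (0 : ℂ) ≤ 1 / 2 := by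
    rw [Complex.nonneg_iff]; norm_num
  have p0 := (hσ 0).1.smul h2
  have p1 := (hσ 1).1.smul h2
  have q0 := (hs 0).1.smul h2
  have q1 := (hs 1).1.smul h2
  have t1 : trace ((1 / 2 : ℂ) • σ 0 + (1 / 2 : ℂ) • σ 1) = 1 := by
    rw [trace_add, trace_smul, trace_smul, (hσ 0).2, (hσ 1).2]; norm_num
  have t2 : trace ((1 / 2 : ℂ) • s 0 + (1 / 2 : ℂ) • s 1) = 1 := by
    rw [trace_add, trace_smul, trace_smul, (hs 0).2, (hs 1).2]; norm_num
  rw [rho_eq, rho_eq, tau_eq]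
  generalize (1 / 2 : ℂ) • σ 0 = A at *
  generalize (1 / 2 : ℂ) • σ 1 = B at *
  generalize (1 / 2 : ℂ) • s 0 = C at *
  generalize (1 / 2 : ℂ) • s 1 = D at *
  have t3 : trace (A ⊗ₖ C + B ⊗ₖ D + (A ⊗ₖ D + B ⊗ₖ C)) = 1 := by
    rw [trace_add] at t1 t2
    simp only [trace_add, trace_kronecker]
    linear_combination (trace C + trace D) * t1 + t2
  obtain ⟨e0, e1, e2, e3⟩ := Q4 p0 p1 t1
  obtain ⟨f0, f1, f2, f3⟩ := Q4 q0 q1 t2
  have g0 := (Q4 ((p0.kronecker q0).add (p1.kronecker q1))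
    ((p0.kronecker q1).add (p1.kronecker q0)) t3).1
  obtain ⟨k1, k2⟩ := DE_kron p0 p1 q0 q1
  have z1 : aa (A ⊗ₖ C + B ⊗ₖ D) (A ⊗ₖ D + B ⊗ₖ C) = aa A B * aa C D := by
    simp only [aa, k1, k2, ← mul_kronecker_mul, trace_kronecker]
  have z2 : bb (A ⊗ₖ C + B ⊗ₖ D) (A ⊗ₖ D + B ⊗ₖ C) = bb A B * bb C D := by
    simp only [bb, k1, k2, ← mul_kronecker_mul, trace_kronecker]
  have z3 : cc (A ⊗ₖ C + B ⊗ₖ D) (A ⊗ₖ D + B ⊗ₖ C) = cc A B * cc C D := by
    simp only [cc, k2, ← mul_kronecker_mul, trace_kronecker]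
  rw [z1, z2, z3] at g0
  rw [Complex.nonneg_iff] at e1 e2 e3 f1 f2 f3
  simp only [sub_re, sub_im] at e1 e2 f1 f2
  have i3 : (cc A B).im = 0 := e3.2.symm
  have i2 : (bb A B).im = 0 := by linarith [e2.2]
  have i1 : (aa A B).im = 0 := by linarith [e1.2]
  refine ⟨(aa A B).re, (bb A B).re, (cc A B).re, (aa C D).re, (bb C D).re, (cc C D).re,
    e3.1, by linarith [e2.1], by linarith [e1.1], f3.1, by linarith [f2.1], by linarith [f1.1],
    ?_, ?_, ?_⟩
  · rw [e0]; simp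
  · rw [f0]; simp
  · rw [g0]; simp [i1, i2, i3]

end Pool.Agent.H9.RC
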