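import Mathlib
import Pool.Agent.H9.RC2

namespace Pool.Agent.H9.RC
open Matrix Complex Pool.Agent.H9.RE
open scoped Kronecker ComplexOrder

variable {n m : Type} [Fintype n] [DecidableEq n] [Fintype m] [DecidableEq m]

lemma pw5 {A : Matrix n n ℂ} (h : A.IsHermitian) : pw A 5 = A * (A * (A * (A * A))) := by
  have e : (fun x : ℝ => x ^ (5 : ℝ)) = fun x : ℝ => x ^ (5 : ℕ) := by
    funext x; exact_mod_cast Real.rpow_natCast x 5
  have h' : IsSelfAdjoint A := h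
  rw [pw, e, cfc_pow_id A 5 h', pow_succ', pow_succ', pow_three]

/-- sandwich by the power `-2/5` -/
noncomputable def s5 (R X : Matrix n n ℂ) : Matrix n n ℂ := pw R (-2 / 5) * X * pw R (-2 / 5)

lemma tr_five {R : Matrix n n ℂ} (hR : R.PosSemidef) :
    trace (s5 R R * (s5 R R * (s5 R R * (s5 R R * s5 R R)))) = trace R := by
  obtain ⟨U, u1, u2, h, hg⟩ := spec hR.1 (fun x : ℝ => x ^ (-2 / 5 : ℝ))
  have hp := hR.eigenvalues_nonneg
  generalize hR.1.eigenvalues = l at h hg hp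
  have mm : ∀ a b : n → ℝ, U * dg a * Uᴴ * (U * dg b * Uᴴ) = U * dg (fun i => a i * b i) * Uᴴ := by
    intro a b
    calc _ = U * (dg a * (Uᴴ * U) * dg b) * Uᴴ := by simp only [Matrix.mul_assoc]
      _ = _ := by rw [u1, Matrix.mul_one, dg_mul]
  have e : s5 R R = U * dg (fun i => l i ^ (-2 / 5 : ℝ) * l i * l i ^ (-2 / 5 : ℝ)) * Uᴴ := by
    rw [s5, pw, hg, ← mm, ← mm, ← h]
  rw [e, mm, mm, mm, mm]
  conv_rhs => rw [h]
  refine congrArg (fun z => trace (U * dg z * Uᴴ)) (funext fun i => ?_)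
  rcases (hp i).eq_or_lt with h0 | h0
  · rw [← h0]; simp
  · have : (l i ^ (-2 / 5 : ℝ)) ^ (10 : ℕ) = ((l i) ^ (4 : ℕ))⁻¹ := by
      rw [← Real.rpow_natCast, ← Real.rpow_mul h0.le, ← Real.rpow_natCast, ← Real.rpow_neg h0.le]
      norm_num
    generalize l i ^ (-2 / 5 : ℝ) = y at this
    have h2 : y ^ 10 * l i ^ 4 = 1 := by rw [this, inv_mul_cancel₀ (by positivity)]
    calc _ = (y ^ 10 * l i ^ 4) * l i := by ring
      _ = _ := by rw [h2]; ring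

lemma s5_psd (R : Matrix n n ℂ) {X : Matrix n n ℂ} (h : X.PosSemidef) : (s5 R X).PosSemidef := by
  have := h.conjTranspose_mul_mul_same (pw R (-2 / 5))
  rwa [(pw_herm R _).eq] at this

omit [DecidableEq n] in
lemma cyc5 (A B C F G : Matrix n n ℂ) :
    trace (A * (B * (C * (F * G)))) = trace (B * (C * (F * (G * A)))) := by
  rw [trace_mul_comm]; simp only [Matrix.mul_assoc]

noncomputable def DD5 (s t : Matrix n n ℂ) := s5 (s + t) (s + t)
noncomputable def EE5 (s t : Matrix n n ℂ) := s5 (s + t) (s - t)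
noncomputable def aa5 (s t : Matrix n n ℂ) : ℂ :=
  trace (DD5 s t * (DD5 s t * (DD5 s t * (EE5 s t * EE5 s t))))
noncomputable def bb5 (s t : Matrix n n ℂ) : ℂ :=
  trace (DD5 s t * (DD5 s t * (EE5 s t * (DD5 s t * EE5 s t))))
noncomputable def cc5 (s t : Matrix n n ℂ) : ℂ :=
  trace (DD5 s t * (EE5 s t * (EE5 s t * (EE5 s t * EE5 s t))))

lemma key5 {X Y D E : Matrix n n ℂ} (hX : X.PosSemidef) (hY : Y.PosSemidef) (hD : D = X + Y)
    (hE : E = X - Y) :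
    16 * (trace (X * (X * (X * (X * X)))) + trace (Y * (Y * (Y * (Y * Y))))) =
      trace (D * (D * (D * (D * D)))) + 5 * trace (D * (D * (D * (E * E)))) +
      5 * trace (D * (D * (E * (D * E)))) + 5 * trace (D * (E * (E * (E * E)))) ∧
    0 ≤ trace (D * (D * (D * (E * E)))) - trace (D * (D * (E * (D * E)))) ∧
    0 ≤ trace (D * (D * (E * (D * E)))) - trace (D * (E * (E * (E * E)))) ∧
    0 ≤ trace (D * (E * (E * (E * E)))) := by
  have eD : Dᴴ = D := hD ▸ (hX.1.add hY.1).eq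
  have eE : Eᴴ = E := hE ▸ (hX.1.sub hY.1).eq
  have pD : D.PosSemidef := hD ▸ hX.add hY
  have x : X = (1 / 2 : ℂ) • (D + E) := by rw [hD, hE]; module
  have y : Y = (1 / 2 : ℂ) • (D - E) := by rw [hD, hE]; module
  have a1 := cyc5 D D D E E
  have a2 := cyc5 D D E E D
  have a3 := cyc5 D E E D D
  have a4 := cyc5 E E D D D
  have b1 := cyc5 D D E D E
  have b2 := cyc5 D E D E D
  have b3 := cyc5 E D E D D
  have b4 := cyc5 D E D D E
  have c1 := cyc5 D E E E E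
  have c2 := cyc5 E E E E D
  have c3 := cyc5 E E E D E
  have c4 := cyc5 E E D E E
  refine ⟨?_, ?_, ?_, ?_⟩
  · rw [x, y]
    simp only [Matrix.smul_mul, Matrix.mul_smul, trace_smul, smul_eq_mul, Matrix.add_mul,
      Matrix.mul_add, Matrix.sub_mul, Matrix.mul_sub, trace_add, trace_sub]
    linear_combination (-4) * a1 - 3 * a2 - 2 * a3 - a4 - 4 * b1 - 3 * b2 - 2 * b3 - b4 - 4 * c1
      - 3 * c2 - 2 * c3 - c4
  · have p := (pD.conjTranspose_mul_mul_same (D * E - E * D)).trace_nonneg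
    have : trace (D * (D * (D * (E * E)))) - trace (D * (D * (E * (D * E)))) =
        trace ((D * E - E * D)ᴴ * D * (D * E - E * D)) := by
      simp only [conjTranspose_sub, conjTranspose_mul, eD, eE, Matrix.sub_mul, Matrix.mul_sub,
        trace_sub, Matrix.mul_assoc]
      linear_combination a1 + a2 + a3 + a4 - b1 - 2 * b2 - 2 * b3 - b4
    rw [this]; exact p
  · have p := (hX.mul_mul_conjTranspose_same (D * E - E * E)).trace_nonneg
    have q := (hY.mul_mul_conjTranspose_same (D * E + E * E)).trace_nonneg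
    have : trace (D * (D * (E * (D * E)))) - trace (D * (E * (E * (E * E)))) =
        trace ((D * E - E * E) * X * (D * E - E * E)ᴴ) +
        trace ((D * E + E * E) * Y * (D * E + E * E)ᴴ) := by
      rw [x, y]
      simp only [conjTranspose_sub, conjTranspose_add, conjTranspose_mul, eD, eE,
        Matrix.smul_mul, Matrix.mul_smul, trace_smul, smul_eq_mul, Matrix.add_mul,
        Matrix.mul_add, Matrix.sub_mul, Matrix.mul_sub, trace_add, trace_sub, Matrix.mul_assoc]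
      linear_combination b1 + c2 + c3
    rw [this]; exact add_nonneg p q
  · have p := (pD.mul_mul_conjTranspose_same (E * E)).trace_nonneg
    rw [conjTranspose_mul, eE] at p
    simp only [Matrix.mul_assoc] at p
    rw [c1, c2, c3]; exact p

lemma Q5 {s t : Matrix n n ℂ} (hs : s.PosSemidef) (ht : t.PosSemidef) (h1 : trace (s + t) = 1) :
    Q 5 (cq s t) = (1 + (5 * aa5 s t + 5 * bb5 s t + 5 * cc5 s t).re) / 16 ∧
      0 ≤ aa5 s t - bb5 s t ∧ 0 ≤ bb5 s t - cc5 s t ∧ 0 ≤ cc5 s t := by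
  have g : ((1 : ℝ) - 5) / (2 * 5) = -2 / 5 := by norm_num
  have c := tr_five (hs.add ht)
  have a1 : DD5 s t = s5 (s + t) s + s5 (s + t) t := by
    simp only [DD5, s5, Matrix.add_mul, Matrix.mul_add]
  have a2 : EE5 s t = s5 (s + t) s - s5 (s + t) t := by
    simp only [EE5, s5, Matrix.sub_mul, Matrix.mul_sub]
  have p1 := s5_psd (s + t) hs
  have p2 := s5_psd (s + t) ht
  obtain ⟨k1, k2⟩ := key5 p1 p2 a1 a2
  refine ⟨?_, k2⟩
  rw [Q, cq_ptr, g, cq_one, cq_mul, cq_mul]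
  change (trace (pw (cq (s5 (s + t) s) (s5 (s + t) t)) 5)).re = _
  rw [pw5 (cq_herm p1.1 p2.1), cq_mul, cq_mul, cq_mul, cq_mul, cq_tr]
  rw [h1] at c
  have c' : trace (DD5 s t * (DD5 s t * (DD5 s t * (DD5 s t * DD5 s t)))) = 1 := c
  rw [c'] at k1
  have k3 := congrArg Complex.re k1
  simp only [aa5, bb5, cc5]
  simp at k3 ⊢
  linarith

lemma DE_kron5 {s t : Matrix n n ℂ} {u v : Matrix m m ℂ} (hs : s.PosSemidef) (ht : t.PosSemidef)
    (hu : u.PosSemidef) (hv : v.PosSemidef) :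
    DD5 (s ⊗ₖ u + t ⊗ₖ v) (s ⊗ₖ v + t ⊗ₖ u) = DD5 s t ⊗ₖ DD5 u v ∧
    EE5 (s ⊗ₖ u + t ⊗ₖ v) (s ⊗ₖ v + t ⊗ₖ u) = EE5 s t ⊗ₖ EE5 u v := by
  have a : s ⊗ₖ u + t ⊗ₖ v + (s ⊗ₖ v + t ⊗ₖ u) = (s + t) ⊗ₖ (u + v) := by
    simp only [add_kronecker, kronecker_add]; abel
  have b : s ⊗ₖ u + t ⊗ₖ v - (s ⊗ₖ v + t ⊗ₖ u) = (s - t) ⊗ₖ (u - v) := by
    ext i j; simp; ring
  simp only [DD5, EE5, s5]
  rw [a, b, pw_kron (hs.add ht) (hu.add hv)]
  simp only [← mul_kronecker_mul, and_self]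

lemma main5 (σ : Fin 2 → Matrix n n ℂ) (s : Fin 2 → Matrix m m ℂ) (hσ : ∀ x, IsState (σ x))
    (hs : ∀ x, IsState (s x)) : ∃ a b c a' b' c' : ℝ, 0 ≤ c ∧ c ≤ b ∧ b ≤ a ∧
      0 ≤ c' ∧ c' ≤ b' ∧ b' ≤ a' ∧
      Q 5 (rho σ) = (1 + (5 * a + 5 * b + 5 * c)) / 16 ∧ Q 5 (rho s) = (1 + (5 * a' + 5 * b' + 5 * c')) / 16 ∧
      Q 5 (tau σ s) = (1 + (5 * (a * a') + 5 * (b * b') + 5 * (c * c'))) / 16 := by
  have h2 : (0 : ℂ) ≤ 1 / 2 := by
    rw [Complex.nonneg_iff]; norm_num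
  have p0 := (hσ 0).1.smul h2
  have p1 := (hσ 1).1.smul h2
  have q0 := (hs 0).1.smul h2
  have q1 := (hs 1).1.smul h2
  have t1 : trace ((1 / 2 : ℂ) • σ 0 + (1 / 2 : ℂ) • σ 1) = 1 := by
    rw [trace_add, trace_smul, trace_smul, (hσ 0).2, (hσ 1).2]; norm_num
  have t2 : trace ((1 / 2 : ℂ) • s 0 + (1 / 2 : ℂ) • s 1) = 1 := by
    rw [trace_add, trace_smul, trace_smul, (hs 0).2, (hs 1).2]; norm_num
  rw [rho_eq, rho_eq, tau_eq]
  generalize (1 / 2 : ℂ) • σ 0 = A at *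
  generalize (1 / 2 : ℂ) • σ 1 = B at *
  generalize (1 / 2 : ℂ) • s 0 = C at *
  generalize (1 / 2 : ℂ) • s 1 = D at *
  have t3 : trace (A ⊗ₖ C + B ⊗ₖ D + (A ⊗ₖ D + B ⊗ₖ C)) = 1 := by
    rw [trace_add] at t1 t2
    simp only [trace_add, trace_kronecker]
    linear_combination (trace C + trace D) * t1 + t2
  obtain ⟨e0, e1, e2, e3⟩ := Q5 p0 p1 t1
  obtain ⟨f0, f1, f2, f3⟩ := Q5 q0 q1 t2
  have g0 := (Q5 ((p0.kronecker q0).add (p1.kronecker q1))
    ((p0.kronecker q1).add (p1.kronecker q0)) t3).1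
  obtain ⟨k1, k2⟩ := DE_kron5 p0 p1 q0 q1
  have z1 : aa5 (A ⊗ₖ C + B ⊗ₖ D) (A ⊗ₖ D + B ⊗ₖ C) = aa5 A B * aa5 C D := by
    simp only [aa5, k1, k2, ← mul_kronecker_mul, trace_kronecker]
  have z2 : bb5 (A ⊗ₖ C + B ⊗ₖ D) (A ⊗ₖ D + B ⊗ₖ C) = bb5 A B * bb5 C D := by
    simp only [bb5, k1, k2, ← mul_kronecker_mul, trace_kronecker]
  have z3 : cc5 (A ⊗ₖ C + B ⊗ₖ D) (A ⊗ₖ D + B ⊗ₖ C) = cc5 A B * cc5 C D := by
    simp only [cc5, k1, k2, ← mul_kronecker_mul, trace_kronecker]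
  rw [z1, z2, z3] at g0
  rw [Complex.nonneg_iff] at e1 e2 e3 f1 f2 f3
  simp only [sub_re, sub_im] at e1 e2 f1 f2
  have i3 : (cc5 A B).im = 0 := e3.2.symm
  have i2 : (bb5 A B).im = 0 := by linarith [e2.2]
  have i1 : (aa5 A B).im = 0 := by linarith [e1.2]
  refine ⟨(aa5 A B).re, (bb5 A B).re, (cc5 A B).re, (aa5 C D).re, (bb5 C D).re, (cc5 C D).re,
    e3.1, by linarith [e2.1], by linarith [e1.1], f3.1, by linarith [f2.1], by linarith [f1.1],
    ?_, ?_, ?_⟩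
  · rw [e0]; simp
  · rw [f0]; simp
  · rw [g0]; simp [i1, i2, i3]

end Pool.Agent.H9.RC
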