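import Mathlib
import Pool.Agent.H9.RC2

namespace Pool.Agent.H9.RC
open Matrix Complex Pool.Agent.H9.RE
open scoped Kronecker ComplexOrder

variable {n m : Type} [Fintype n] [DecidableEq n] [Fintype m] [DecidableEq m]

lemma pw6 {A : Matrix n n ℂ} (h : A.IsHermitian) : pw A 6 = A * (A * (A * (A * (A * A)))) := by
  have e : (fun x : ℝ => x ^ (6 : ℝ)) = fun x : ℝ => x ^ (6 : ℕ) := by
    funext x; exact_mod_cast Real.rpow_natCast x 6
  have h' : IsSelfAdjoint A := h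
  rw [pw, e, cfc_pow_id A 6 h', pow_succ', pow_succ', pow_succ', pow_three]

/-- sandwich by the power `-5/12` -/
noncomputable def s6 (R X : Matrix n n ℂ) : Matrix n n ℂ := pw R (-5 / 12) * X * pw R (-5 / 12)

lemma tr_six {R : Matrix n n ℂ} (hR : R.PosSemidef) :
    trace (s6 R R * (s6 R R * (s6 R R * (s6 R R * (s6 R R * s6 R R))))) = trace R := by
  obtain ⟨U, u1, u2, h, hg⟩ := spec hR.1 (fun x : ℝ => x ^ (-5 / 12 : ℝ))
  have hp := hR.eigenvalues_nonneg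
  generalize hR.1.eigenvalues = l at h hg hp
  have mm : ∀ a b : n → ℝ, U * dg a * Uᴴ * (U * dg b * Uᴴ) = U * dg (fun i => a i * b i) * Uᴴ := by
    intro a b
    calc _ = U * (dg a * (Uᴴ * U) * dg b) * Uᴴ := by simp only [Matrix.mul_assoc]
      _ = _ := by rw [u1, Matrix.mul_one, dg_mul]
  have e : s6 R R = U * dg (fun i => l i ^ (-5 / 12 : ℝ) * l i * l i ^ (-5 / 12 : ℝ)) * Uᴴ := by
    rw [s6, pw, hg, ← mm, ← mm, ← h]
  rw [e, mm, mm, mm, mm, mm]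
  conv_rhs => rw [h]
  refine congrArg (fun z => trace (U * dg z * Uᴴ)) (funext fun i => ?_)
  rcases (hp i).eq_or_lt with h0 | h0
  · rw [← h0]; simp
  · have : (l i ^ (-5 / 12 : ℝ)) ^ (12 : ℕ) = ((l i) ^ (5 : ℕ))⁻¹ := by
      rw [← Real.rpow_natCast, ← Real.rpow_mul h0.le, ← Real.rpow_natCast, ← Real.rpow_neg h0.le]
      norm_num
    generalize l i ^ (-5 / 12 : ℝ) = y at this
    have h2 : y ^ 12 * l i ^ 5 = 1 := by rw [this, inv_mul_cancel₀ (by positivity)]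
    calc _ = (y ^ 12 * l i ^ 5) * l i := by ring
      _ = _ := by rw [h2]; ring

lemma s6_psd (R : Matrix n n ℂ) {X : Matrix n n ℂ} (h : X.PosSemidef) : (s6 R X).PosSemidef := by
  have := h.conjTranspose_mul_mul_same (pw R (-5 / 12))
  rwa [(pw_herm R _).eq] at this

omit [DecidableEq n] in
lemma cyc6 (A B C F G H : Matrix n n ℂ) :
    trace (A * (B * (C * (F * (G * H))))) = trace (B * (C * (F * (G * (H * A))))) := by
  rw [trace_mul_comm]; simp only [Matrix.mul_assoc]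

noncomputable def DD6 (s t : Matrix n n ℂ) := s6 (s + t) (s + t)
noncomputable def EE6 (s t : Matrix n n ℂ) := s6 (s + t) (s - t)
noncomputable def wa1 (s t : Matrix n n ℂ) : ℂ :=
  trace (DD6 s t * (DD6 s t * (DD6 s t * (DD6 s t * (EE6 s t * EE6 s t)))))
noncomputable def wa2 (s t : Matrix n n ℂ) : ℂ :=
  trace (DD6 s t * (DD6 s t * (DD6 s t * (EE6 s t * (DD6 s t * EE6 s t)))))
noncomputable def wa3 (s t : Matrix n n ℂ) : ℂ :=
  trace (DD6 s t * (DD6 s t * (EE6 s t * (DD6 s t * (DD6 s t * EE6 s t)))))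
noncomputable def wb1 (s t : Matrix n n ℂ) : ℂ :=
  trace (DD6 s t * (DD6 s t * (EE6 s t * (EE6 s t * (EE6 s t * EE6 s t)))))
noncomputable def wb2 (s t : Matrix n n ℂ) : ℂ :=
  trace (DD6 s t * (EE6 s t * (DD6 s t * (EE6 s t * (EE6 s t * EE6 s t)))))
noncomputable def wb3 (s t : Matrix n n ℂ) : ℂ :=
  trace (DD6 s t * (EE6 s t * (EE6 s t * (DD6 s t * (EE6 s t * EE6 s t)))))
noncomputable def wc0 (s t : Matrix n n ℂ) : ℂ :=
  trace (EE6 s t * (EE6 s t * (EE6 s t * (EE6 s t * (EE6 s t * EE6 s t)))))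

set_option linter.unusedSimpArgs false in
lemma key6 {X Y D E : Matrix n n ℂ} (hX : X.PosSemidef) (hY : Y.PosSemidef) (hD : D = X + Y)
    (hE : E = X - Y) :
    32 * (trace (X * (X * (X * (X * (X * X))))) + trace (Y * (Y * (Y * (Y * (Y * Y)))))) = trace (D * (D * (D * (D * (D * D))))) + (6 * trace (D * (D * (D * (D * (E * E))))) + 6 * trace (D * (D * (D * (E * (D * E))))) + 3 * trace (D * (D * (E * (D * (D * E))))) + 6 * trace (D * (D * (E * (E * (E * E))))) + 6 * trace (D * (E * (D * (E * (E * E))))) + 3 * trace (D * (E * (E * (D * (E * E))))) + trace (E * (E * (E * (E * (E * E)))))) ∧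
    0 ≤ trace (D * (D * (D * (E * (D * E))))) - trace (D * (D * (E * (D * (D * E))))) ∧
    0 ≤ trace (D * (D * (E * (E * (E * E))))) - trace (D * (E * (E * (D * (E * E))))) ∧
    0 ≤ trace (D * (D * (E * (E * (E * E))))) + trace (D * (E * (E * (D * (E * E))))) - 2 * trace (D * (E * (D * (E * (E * E))))) ∧
    0 ≤ trace (D * (D * (D * (D * (E * E))))) + trace (D * (D * (E * (D * (D * E))))) - 2 * trace (D * (D * (D * (E * (D * E))))) ∧
    0 ≤ trace (D * (D * (D * (E * (D * E))))) + trace (D * (E * (D * (E * (E * E))))) + trace (D * (E * (E * (D * (E * E))))) - trace (E * (E * (E * (E * (E * E))))) - 2 * trace (D * (D * (E * (E * (E * E))))) ∧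
    0 ≤ trace (D * (D * (D * (E * (D * E))))) + trace (D * (E * (E * (D * (E * E))))) + trace (E * (E * (E * (E * (E * E))))) - 2 * trace (D * (D * (E * (E * (E * E))))) - trace (D * (E * (D * (E * (E * E))))) ∧
    0 ≤ trace (E * (E * (E * (E * (E * E))))) ∧
    0 ≤ trace (D * (E * (E * (D * (E * E))))) := by
  have eD : Dᴴ = D := hD ▸ (hX.1.add hY.1).eq
  have eE : Eᴴ = E := hE ▸ (hX.1.sub hY.1).eq
  have pD : D.PosSemidef := hD ▸ hX.add hY
  have x : X = (1 / 2 : ℂ) • (D + E) := by rw [hD, hE]; module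
  have y : Y = (1 / 2 : ℂ) • (D - E) := by rw [hD, hE]; module
  have hh : (0 : ℂ) ≤ 1 / 2 := by rw [Complex.nonneg_iff]; norm_num
  have h2 : (0 : ℂ) ≤ 2 := by rw [Complex.nonneg_iff]; norm_num
  have eDDDEED : trace (D * (D * (D * (E * (E * D))))) = trace (D * (D * (D * (D * (E * E))))) :=
    ((cyc6 D D D E E D).trans ((cyc6 D D E E D D).trans ((cyc6 D E E D D D).trans ((cyc6 E E D D D D).trans (cyc6 E D D D D E)))))
  have eDDEDED : trace (D * (D * (E * (D * (E * D))))) = trace (D * (D * (D * (E * (D * E))))) :=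
    ((cyc6 D D E D E D).trans ((cyc6 D E D E D D).trans ((cyc6 E D E D D D).trans ((cyc6 D E D D D E).trans (cyc6 E D D D E D)))))
  have eDDEEDD : trace (D * (D * (E * (E * (D * D))))) = trace (D * (D * (D * (D * (E * E))))) :=
    ((cyc6 D D E E D D).trans ((cyc6 D E E D D D).trans ((cyc6 E E D D D D).trans (cyc6 E D D D D E))))
  have eDEDDDE : trace (D * (E * (D * (D * (D * E))))) = trace (D * (D * (D * (E * (D * E))))) :=
    ((cyc6 D E D D D E).trans (cyc6 E D D D E D))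
  have eDEDDED : trace (D * (E * (D * (D * (E * D))))) = trace (D * (D * (E * (D * (D * E))))) :=
    ((cyc6 D E D D E D).trans (cyc6 E D D E D D))
  have eDEDEDD : trace (D * (E * (D * (E * (D * D))))) = trace (D * (D * (D * (E * (D * E))))) :=
    ((cyc6 D E D E D D).trans ((cyc6 E D E D D D).trans ((cyc6 D E D D D E).trans (cyc6 E D D D E D))))
  have eDEEDDD : trace (D * (E * (E * (D * (D * D))))) = trace (D * (D * (D * (D * (E * E))))) :=
    ((cyc6 D E E D D D).trans ((cyc6 E E D D D D).trans (cyc6 E D D D D E)))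
  have eDEEEDE : trace (D * (E * (E * (E * (D * E))))) = trace (D * (E * (D * (E * (E * E))))) :=
    ((cyc6 D E E E D E).trans ((cyc6 E E E D E D).trans ((cyc6 E E D E D E).trans (cyc6 E D E D E E))))
  have eDEEEED : trace (D * (E * (E * (E * (E * D))))) = trace (D * (D * (E * (E * (E * E))))) :=
    ((cyc6 D E E E E D).trans ((cyc6 E E E E D D).trans ((cyc6 E E E D D E).trans ((cyc6 E E D D E E).trans (cyc6 E D D E E E)))))
  have eEDDDDE : trace (E * (D * (D * (D * (D * E))))) = trace (D * (D * (D * (D * (E * E))))) :=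
    (cyc6 E D D D D E)
  have eEDDDED : trace (E * (D * (D * (D * (E * D))))) = trace (D * (D * (D * (E * (D * E))))) :=
    (cyc6 E D D D E D)
  have eEDDEDD : trace (E * (D * (D * (E * (D * D))))) = trace (D * (D * (E * (D * (D * E))))) :=
    (cyc6 E D D E D D)
  have eEDDEEE : trace (E * (D * (D * (E * (E * E))))) = trace (D * (D * (E * (E * (E * E))))) :=
    (cyc6 E D D E E E)
  have eEDEDDD : trace (E * (D * (E * (D * (D * D))))) = trace (D * (D * (D * (E * (D * E))))) :=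
    ((cyc6 E D E D D D).trans ((cyc6 D E D D D E).trans (cyc6 E D D D E D)))
  have eEDEDEE : trace (E * (D * (E * (D * (E * E))))) = trace (D * (E * (D * (E * (E * E))))) :=
    (cyc6 E D E D E E)
  have eEDEEDE : trace (E * (D * (E * (E * (D * E))))) = trace (D * (E * (E * (D * (E * E))))) :=
    (cyc6 E D E E D E)
  have eEDEEED : trace (E * (D * (E * (E * (E * D))))) = trace (D * (E * (D * (E * (E * E))))) :=
    ((cyc6 E D E E E D).trans ((cyc6 D E E E D E).trans ((cyc6 E E E D E D).trans ((cyc6 E E D E D E).trans (cyc6 E D E D E E)))))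
  have eEEDDDD : trace (E * (E * (D * (D * (D * D))))) = trace (D * (D * (D * (D * (E * E))))) :=
    ((cyc6 E E D D D D).trans (cyc6 E D D D D E))
  have eEEDDEE : trace (E * (E * (D * (D * (E * E))))) = trace (D * (D * (E * (E * (E * E))))) :=
    ((cyc6 E E D D E E).trans (cyc6 E D D E E E))
  have eEEDEDE : trace (E * (E * (D * (E * (D * E))))) = trace (D * (E * (D * (E * (E * E))))) :=
    ((cyc6 E E D E D E).trans (cyc6 E D E D E E))
  have eEEDEED : trace (E * (E * (D * (E * (E * D))))) = trace (D * (E * (E * (D * (E * E))))) :=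
    ((cyc6 E E D E E D).trans (cyc6 E D E E D E))
  have eEEEDDE : trace (E * (E * (E * (D * (D * E))))) = trace (D * (D * (E * (E * (E * E))))) :=
    ((cyc6 E E E D D E).trans ((cyc6 E E D D E E).trans (cyc6 E D D E E E)))
  have eEEEDED : trace (E * (E * (E * (D * (E * D))))) = trace (D * (E * (D * (E * (E * E))))) :=
    ((cyc6 E E E D E D).trans ((cyc6 E E D E D E).trans (cyc6 E D E D E E)))
  have eEEEEDD : trace (E * (E * (E * (E * (D * D))))) = trace (D * (D * (E * (E * (E * E))))) :=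
    ((cyc6 E E E E D D).trans ((cyc6 E E E D D E).trans ((cyc6 E E D D E E).trans (cyc6 E D D E E E))))
  refine ⟨?_, ?_, ?_, ?_, ?_, ?_, ?_, ?_, ?_⟩
  · have : True := trivial
    · rw [x, y]
      simp only [conjTranspose_sub, conjTranspose_add, conjTranspose_mul, eD, eE,
        Matrix.smul_mul, Matrix.mul_smul, trace_smul, smul_eq_mul, Matrix.add_mul,
        Matrix.mul_add, Matrix.sub_mul, Matrix.mul_sub, trace_add, trace_sub, Matrix.mul_assoc,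
        eDDDEED, eDDEDED, eDDEEDD, eDEDDDE, eDEDDED, eDEDEDD, eDEEDDD, eDEEEDE, eDEEEED, eEDDDDE, eEDDDED, eEDDEDD, eEDDEEE, eEDEDDD, eEDEDEE, eEDEEDE, eEDEEED, eEEDDDD, eEEDDEE, eEEDEDE, eEEDEED, eEEEDDE, eEEEDED, eEEEEDD]
      ring
  · have : trace (D * (D * (D * (E * (D * E))))) - trace (D * (D * (E * (D * (D * E))))) =
        1 / 2 * trace (D * ((D * E - E * D) * D * (D * E - E * D)ᴴ)) := by
      simp only [conjTranspose_sub, conjTranspose_add, conjTranspose_mul, eD, eE,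
        Matrix.smul_mul, Matrix.mul_smul, trace_smul, smul_eq_mul, Matrix.add_mul,
        Matrix.mul_add, Matrix.sub_mul, Matrix.mul_sub, trace_add, trace_sub, Matrix.mul_assoc,
        eDDDEED, eDDEDED, eDDEEDD, eDEDDDE, eDEDDED, eDEDEDD, eDEEDDD, eDEEEDE, eDEEEED, eEDDDDE, eEDDDED, eEDDEDD, eEDDEEE, eEDEDDD, eEDEDEE, eEDEEDE, eEDEEED, eEEDDDD, eEEDDEE, eEEDEDE, eEEDEED, eEEEDDE, eEEEDED, eEEEEDD]
      ring
    rw [this]; exact mul_nonneg hh (tr_pp pD (pD.mul_mul_conjTranspose_same (D * E - E * D)))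
  · have : trace (D * (D * (E * (E * (E * E))))) - trace (D * (E * (E * (D * (E * E))))) =
        1 / 2 * trace ((D * E * E - E * E * D)ᴴ * (D * E * E - E * E * D)) := by
      simp only [conjTranspose_sub, conjTranspose_add, conjTranspose_mul, eD, eE,
        Matrix.smul_mul, Matrix.mul_smul, trace_smul, smul_eq_mul, Matrix.add_mul,
        Matrix.mul_add, Matrix.sub_mul, Matrix.mul_sub, trace_add, trace_sub, Matrix.mul_assoc,
        eDDDEED, eDDEDED, eDDEEDD, eDEDDDE, eDEDDED, eDEDEDD, eDEEDDD, eDEEEDE, eDEEEED, eEDDDDE, eEDDDED, eEDDEDD, eEDDEEE, eEDEDDD, eEDEDEE, eEDEEDE, eEDEEED, eEEDDDD, eEEDDEE, eEEDEDE, eEEDEED, eEEEDDE, eEEEDED, eEEEEDD]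
      ring
    rw [this]; exact mul_nonneg hh (posSemidef_conjTranspose_mul_self (D * E * E - E * E * D)).trace_nonneg
  · have : trace (D * (D * (E * (E * (E * E))))) + trace (D * (E * (E * (D * (E * E))))) - 2 * trace (D * (E * (D * (E * (E * E))))) =
        trace ((D * E * E - E * D * E)ᴴ * (D * E * E - E * D * E)) := by
      simp only [conjTranspose_sub, conjTranspose_add, conjTranspose_mul, eD, eE,
        Matrix.smul_mul, Matrix.mul_smul, trace_smul, smul_eq_mul, Matrix.add_mul,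
        Matrix.mul_add, Matrix.sub_mul, Matrix.mul_sub, trace_add, trace_sub, Matrix.mul_assoc,
        eDDDEED, eDDEDED, eDDEEDD, eDEDDDE, eDEDDED, eDEDEDD, eDEEDDD, eDEEEDE, eDEEEED, eEDDDDE, eEDDDED, eEDDEDD, eEDDEEE, eEDEDDD, eEDEDEE, eEDEEDE, eEDEEED, eEEDDDD, eEEDDEE, eEEDEDE, eEEDEED, eEEEDDE, eEEEDED, eEEEEDD]
      ring
    rw [this]; exact (posSemidef_conjTranspose_mul_self (D * E * E - E * D * E)).trace_nonneg
  · have : trace (D * (D * (D * (D * (E * E))))) + trace (D * (D * (E * (D * (D * E))))) - 2 * trace (D * (D * (D * (E * (D * E))))) =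
        trace ((D * D * E - D * E * D)ᴴ * (D * D * E - D * E * D)) := by
      simp only [conjTranspose_sub, conjTranspose_add, conjTranspose_mul, eD, eE,
        Matrix.smul_mul, Matrix.mul_smul, trace_smul, smul_eq_mul, Matrix.add_mul,
        Matrix.mul_add, Matrix.sub_mul, Matrix.mul_sub, trace_add, trace_sub, Matrix.mul_assoc,
        eDDDEED, eDDEDED, eDDEEDD, eDEDDDE, eDEDDED, eDEDEDD, eDEEDDD, eDEEEDE, eDEEEED, eEDDDDE, eEDDDED, eEDDEDD, eEDDEEE, eEDEDDD, eEDEDEE, eEDEEDE, eEDEEED, eEEDDDD, eEEDDEE, eEEDEDE, eEEDEED, eEEEDDE, eEEEDED, eEEEEDD]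
      ring
    rw [this]; exact (posSemidef_conjTranspose_mul_self (D * D * E - D * E * D)).trace_nonneg
  · have : trace (D * (D * (D * (E * (D * E))))) + trace (D * (E * (D * (E * (E * E))))) + trace (D * (E * (E * (D * (E * E))))) - trace (E * (E * (E * (E * (E * E))))) - 2 * trace (D * (D * (E * (E * (E * E))))) =
        2 * (trace (X * ((E * E + D * E) * Y * (E * E + D * E)ᴴ)) + trace (Y * ((E * E - D * E) * X * (E * E - D * E)ᴴ))) := by
      rw [x, y]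
      simp only [conjTranspose_sub, conjTranspose_add, conjTranspose_mul, eD, eE,
        Matrix.smul_mul, Matrix.mul_smul, trace_smul, smul_eq_mul, Matrix.add_mul,
        Matrix.mul_add, Matrix.sub_mul, Matrix.mul_sub, trace_add, trace_sub, Matrix.mul_assoc,
        eDDDEED, eDDEDED, eDDEEDD, eDEDDDE, eDEDDED, eDEDEDD, eDEEDDD, eDEEEDE, eDEEEED, eEDDDDE, eEDDDED, eEDDEDD, eEDDEEE, eEDEDDD, eEDEDEE, eEDEEDE, eEDEEED, eEEDDDD, eEEDDEE, eEEDEDE, eEEDEED, eEEEDDE, eEEEDED, eEEEEDD]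
      ring
    rw [this]; exact mul_nonneg h2 (add_nonneg (tr_pp hX (hY.mul_mul_conjTranspose_same (E * E + D * E))) (tr_pp hY (hX.mul_mul_conjTranspose_same (E * E - D * E))))
  · have : trace (D * (D * (D * (E * (D * E))))) + trace (D * (E * (E * (D * (E * E))))) + trace (E * (E * (E * (E * (E * E))))) - 2 * trace (D * (D * (E * (E * (E * E))))) - trace (D * (E * (D * (E * (E * E))))) =
        2 * (trace (X * ((D * E - E * E) * X * (D * E - E * E)ᴴ)) + trace (Y * ((D * E + E * E) * Y * (D * E + E * E)ᴴ))) := by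
      rw [x, y]
      simp only [conjTranspose_sub, conjTranspose_add, conjTranspose_mul, eD, eE,
        Matrix.smul_mul, Matrix.mul_smul, trace_smul, smul_eq_mul, Matrix.add_mul,
        Matrix.mul_add, Matrix.sub_mul, Matrix.mul_sub, trace_add, trace_sub, Matrix.mul_assoc,
        eDDDEED, eDDEDED, eDDEEDD, eDEDDDE, eDEDDED, eDEDEDD, eDEEDDD, eDEEEDE, eDEEEED, eEDDDDE, eEDDDED, eEDDEDD, eEDDEEE, eEDEDDD, eEDEDEE, eEDEEDE, eEDEEED, eEEDDDD, eEEDDEE, eEEDEDE, eEEDEED, eEEEDDE, eEEEDED, eEEEEDD]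
      ring
    rw [this]; exact mul_nonneg h2 (add_nonneg (tr_pp hX (hX.mul_mul_conjTranspose_same (D * E - E * E))) (tr_pp hY (hY.mul_mul_conjTranspose_same (D * E + E * E))))
  · have p := (posSemidef_conjTranspose_mul_self (E * E * E)).trace_nonneg
    simpa only [conjTranspose_mul, eE, Matrix.mul_assoc] using p
  · have p := tr_pp pD (pD.mul_mul_conjTranspose_same (E * E))
    simpa only [conjTranspose_mul, eE, Matrix.mul_assoc] using p

lemma Q6 {s t : Matrix n n ℂ} (hs : s.PosSemidef) (ht : t.PosSemidef) (h1 : trace (s + t) = 1) :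
    Q 6 (cq s t) = (1 + (6 * wa1 s t + 6 * wa2 s t + 3 * wa3 s t + 6 * wb1 s t + 6 * wb2 s t + 3 * wb3 s t + wc0 s t).re) / 32 ∧
    0 ≤ wa2 s t - wa3 s t ∧
    0 ≤ wb1 s t - wb3 s t ∧
    0 ≤ wb1 s t + wb3 s t - 2 * wb2 s t ∧
    0 ≤ wa1 s t + wa3 s t - 2 * wa2 s t ∧
    0 ≤ wa2 s t + wb2 s t + wb3 s t - wc0 s t - 2 * wb1 s t ∧
    0 ≤ wa2 s t + wb3 s t + wc0 s t - 2 * wb1 s t - wb2 s t ∧
    0 ≤ wc0 s t ∧ 0 ≤ wb3 s t := by
  have g : ((1 : ℝ) - 6) / (2 * 6) = -5 / 12 := by norm_num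
  have c := tr_six (hs.add ht)
  have a1 : DD6 s t = s6 (s + t) s + s6 (s + t) t := by
    simp only [DD6, s6, Matrix.add_mul, Matrix.mul_add]
  have a2 : EE6 s t = s6 (s + t) s - s6 (s + t) t := by
    simp only [EE6, s6, Matrix.sub_mul, Matrix.mul_sub]
  have p1 := s6_psd (s + t) hs
  have p2 := s6_psd (s + t) ht
  obtain ⟨k1, k2⟩ := key6 p1 p2 a1 a2
  refine ⟨?_, k2⟩
  rw [Q, cq_ptr, g, cq_one, cq_mul, cq_mul]
  change (trace (pw (cq (s6 (s + t) s) (s6 (s + t) t)) 6)).re = _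
  rw [pw6 (cq_herm p1.1 p2.1), cq_mul, cq_mul, cq_mul, cq_mul, cq_mul, cq_tr]
  rw [h1] at c
  have c' : trace (DD6 s t * (DD6 s t * (DD6 s t * (DD6 s t * (DD6 s t * DD6 s t))))) = 1 := c
  rw [c'] at k1
  have k3 := congrArg Complex.re k1
  simp only [wa1, wa2, wa3, wb1, wb2, wb3, wc0]
  simp at k3 ⊢
  linarith

lemma DE_kron6 {s t : Matrix n n ℂ} {u v : Matrix m m ℂ} (hs : s.PosSemidef) (ht : t.PosSemidef)
    (hu : u.PosSemidef) (hv : v.PosSemidef) :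
    DD6 (s ⊗ₖ u + t ⊗ₖ v) (s ⊗ₖ v + t ⊗ₖ u) = DD6 s t ⊗ₖ DD6 u v ∧
    EE6 (s ⊗ₖ u + t ⊗ₖ v) (s ⊗ₖ v + t ⊗ₖ u) = EE6 s t ⊗ₖ EE6 u v := by
  have a : s ⊗ₖ u + t ⊗ₖ v + (s ⊗ₖ v + t ⊗ₖ u) = (s + t) ⊗ₖ (u + v) := by
    simp only [add_kronecker, kronecker_add]; abel
  have b : s ⊗ₖ u + t ⊗ₖ v - (s ⊗ₖ v + t ⊗ₖ u) = (s - t) ⊗ₖ (u - v) := by
    ext i j; simp; ring
  simp only [DD6, EE6, s6]
  rw [a, b, pw_kron (hs.add ht) (hu.add hv)]
  simp only [← mul_kronecker_mul, and_self]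

lemma main6 (σ : Fin 2 → Matrix n n ℂ) (s : Fin 2 → Matrix m m ℂ) (hσ : ∀ x, IsState (σ x))
    (hs : ∀ x, IsState (s x)) : ∃ a1 a2 a3 b1 b2 b3 c0 a1' a2' a3' b1' b2' b3' c0' : ℝ,
    (0 ≤ a2 - a3 ∧ 0 ≤ b1 - b3 ∧ 0 ≤ b1 + b3 - 2 * b2 ∧ 0 ≤ a1 + a3 - 2 * a2 ∧ 0 ≤ a2 + b2 + b3 - c0 - 2 * b1 ∧ 0 ≤ a2 + b3 + c0 - 2 * b1 - b2 ∧ 0 ≤ c0 ∧ 0 ≤ b3) ∧
    (0 ≤ a2' - a3' ∧ 0 ≤ b1' - b3' ∧ 0 ≤ b1' + b3' - 2 * b2' ∧ 0 ≤ a1' + a3' - 2 * a2' ∧ 0 ≤ a2' + b2' + b3' - c0' - 2 * b1' ∧ 0 ≤ a2' + b3' + c0' - 2 * b1' - b2' ∧ 0 ≤ c0' ∧ 0 ≤ b3') ∧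
    Q 6 (rho σ) = (1 + (6 * a1 + 6 * a2 + 3 * a3 + 6 * b1 + 6 * b2 + 3 * b3 + c0)) / 32 ∧
    Q 6 (rho s) = (1 + (6 * a1' + 6 * a2' + 3 * a3' + 6 * b1' + 6 * b2' + 3 * b3' + c0')) / 32 ∧
    Q 6 (tau σ s) = (1 + (6 * (a1 * a1') + 6 * (a2 * a2') + 3 * (a3 * a3') + 6 * (b1 * b1') + 6 * (b2 * b2') + 3 * (b3 * b3') + (c0 * c0'))) / 32 := by
  have h2 : (0 : ℂ) ≤ 1 / 2 := by
    rw [Complex.nonneg_iff]; norm_num
  have p0 := (hσ 0).1.smul h2
  have p1 := (hσ 1).1.smul h2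
  have q0 := (hs 0).1.smul h2
  have q1 := (hs 1).1.smul h2
  have t1 : trace ((1 / 2 : ℂ) • σ 0 + (1 / 2 : ℂ) • σ 1) = 1 := by
    rw [trace_add, trace_smul, trace_smul, (hσ 0).2, (hσ 1).2]; norm_num
  have t2 : trace ((1 / 2 : ℂ) • s 0 + (1 / 2 : ℂ) • s 1) = 1 := by
    rw [trace_add, trace_smul, trace_smul, (hs 0).2, (hs 1).2]; norm_num
  rw [rho_eq, rho_eq, tau_eq]
  generalize (1 / 2 : ℂ) • σ 0 = A at *
  generalize (1 / 2 : ℂ) • σ 1 = B at *
  generalize (1 / 2 : ℂ) • s 0 = C at *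
  generalize (1 / 2 : ℂ) • s 1 = D at *
  have t3 : trace (A ⊗ₖ C + B ⊗ₖ D + (A ⊗ₖ D + B ⊗ₖ C)) = 1 := by
    rw [trace_add] at t1 t2
    simp only [trace_add, trace_kronecker]
    linear_combination (trace C + trace D) * t1 + t2
  obtain ⟨e0, e1, e2, e3, e4, e5, e6, e7, e8⟩ := Q6 p0 p1 t1
  obtain ⟨f0, f1, f2, f3, f4, f5, f6, f7, f8⟩ := Q6 q0 q1 t2
  have g0 := (Q6 ((p0.kronecker q0).add (p1.kronecker q1))
    ((p0.kronecker q1).add (p1.kronecker q0)) t3).1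
  obtain ⟨k1, k2⟩ := DE_kron6 p0 p1 q0 q1
  have za1 : wa1 (A ⊗ₖ C + B ⊗ₖ D) (A ⊗ₖ D + B ⊗ₖ C) = wa1 A B * wa1 C D := by
    simp only [wa1, k1, k2, ← mul_kronecker_mul, trace_kronecker]
  have za2 : wa2 (A ⊗ₖ C + B ⊗ₖ D) (A ⊗ₖ D + B ⊗ₖ C) = wa2 A B * wa2 C D := by
    simp only [wa2, k1, k2, ← mul_kronecker_mul, trace_kronecker]
  have za3 : wa3 (A ⊗ₖ C + B ⊗ₖ D) (A ⊗ₖ D + B ⊗ₖ C) = wa3 A B * wa3 C D := by
    simp only [wa3, k1, k2, ← mul_kronecker_mul, trace_kronecker]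
  have zb1 : wb1 (A ⊗ₖ C + B ⊗ₖ D) (A ⊗ₖ D + B ⊗ₖ C) = wb1 A B * wb1 C D := by
    simp only [wb1, k1, k2, ← mul_kronecker_mul, trace_kronecker]
  have zb2 : wb2 (A ⊗ₖ C + B ⊗ₖ D) (A ⊗ₖ D + B ⊗ₖ C) = wb2 A B * wb2 C D := by
    simp only [wb2, k1, k2, ← mul_kronecker_mul, trace_kronecker]
  have zb3 : wb3 (A ⊗ₖ C + B ⊗ₖ D) (A ⊗ₖ D + B ⊗ₖ C) = wb3 A B * wb3 C D := by
    simp only [wb3, k1, k2, ← mul_kronecker_mul, trace_kronecker]
  have zc0 : wc0 (A ⊗ₖ C + B ⊗ₖ D) (A ⊗ₖ D + B ⊗ₖ C) = wc0 A B * wc0 C D := by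
    simp only [wc0, k2, ← mul_kronecker_mul, trace_kronecker]
  rw [za1, za2, za3, zb1, zb2, zb3, zc0] at g0
  rw [Complex.nonneg_iff] at e1 e2 e3 e4 e5 e6 e7 e8 f1 f2 f3 f4 f5 f6 f7 f8
  simp only [sub_re, sub_im, add_re, add_im, mul_re, mul_im, re_ofNat, im_ofNat, zero_mul,
    sub_zero, add_zero] at e1 e2 e3 e4 e5 e6 f1 f2 f3 f4 f5 f6
  have ia1 : (wa1 A B).im = 0 := by linarith [e1.2, e2.2, e3.2, e4.2, e5.2, e6.2, e7.2]
  have ia2 : (wa2 A B).im = 0 := by linarith [e1.2, e2.2, e3.2, e4.2, e5.2, e6.2, e7.2]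
  have ia3 : (wa3 A B).im = 0 := by linarith [e1.2, e2.2, e3.2, e4.2, e5.2, e6.2, e7.2]
  have ib1 : (wb1 A B).im = 0 := by linarith [e1.2, e2.2, e3.2, e4.2, e5.2, e6.2, e7.2]
  have ib2 : (wb2 A B).im = 0 := by linarith [e1.2, e2.2, e3.2, e4.2, e5.2, e6.2, e7.2]
  have ib3 : (wb3 A B).im = 0 := by linarith [e1.2, e2.2, e3.2, e4.2, e5.2, e6.2, e7.2]
  have ic0 : (wc0 A B).im = 0 := by linarith [e1.2, e2.2, e3.2, e4.2, e5.2, e6.2, e7.2]
  refine ⟨(wa1 A B).re, (wa2 A B).re, (wa3 A B).re, (wb1 A B).re, (wb2 A B).re, (wb3 A B).re, (wc0 A B).re,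
    (wa1 C D).re, (wa2 C D).re, (wa3 C D).re, (wb1 C D).re, (wb2 C D).re, (wb3 C D).re, (wc0 C D).re,
    ⟨e1.1, e2.1, e3.1, e4.1, e5.1, e6.1, e7.1, e8.1⟩, ⟨f1.1, f2.1, f3.1, f4.1, f5.1, f6.1, f7.1, f8.1⟩, ?_, ?_, ?_⟩
  · rw [e0]; simp
  · rw [f0]; simp
  · rw [g0]; simp [ia1, ia2, ia3, ib1, ib2, ib3, ic0]

end Pool.Agent.H9.RC
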