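import Pool.Agent.H9.RE1

namespace Pool.Agent.H9.RE
open Matrix Complex
open scoped Kronecker ComplexOrder

variable {n : Type} [Fintype n] [DecidableEq n]

omit [DecidableEq n] in
lemma kron_vec (A B Y : Matrix n n ℂ) : (A ⊗ₖ Bᵀ) *ᵥ vec Y = vec (A * Y * B) := by
  funext ⟨i, j⟩
  simp only [mulVec, dotProduct, vec, Fintype.sum_prod_type, kronecker_apply, transpose_apply,
    Matrix.mul_apply, Finset.sum_mul]
  rw [Finset.sum_comm]
  exact Finset.sum_congr rfl fun _ _ => Finset.sum_congr rfl fun _ _ => by ring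

lemma riem_formula (κ : ℝ → ℝ) {U : Matrix n n ℂ} (u1 : Uᴴ * U = 1) (u2 : U * Uᴴ = 1)
    (l : n → ℝ) (Y : Matrix n n ℂ) :
    Riem κ (U * dg l * Uᴴ) Y =
      ∑ i, ∑ j, κ (l i * (l j)⁻¹) * (l j)⁻¹ * normSq ((Uᴴ * Y * U) i j) := by
  have hW : (U ⊗ₖ (Uᴴ)ᵀ)ᴴ = Uᴴ ⊗ₖ Uᵀ := by
    rw [conjTranspose_kronecker]; congr 1; ext i j; simp
  have w1 : (U ⊗ₖ (Uᴴ)ᵀ)ᴴ * (U ⊗ₖ (Uᴴ)ᵀ) = 1 := by
    rw [hW, ← mul_kronecker_mul, ← transpose_mul, u1, transpose_one, one_kronecker_one]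
  have w2 : (U ⊗ₖ (Uᴴ)ᵀ) * (U ⊗ₖ (Uᴴ)ᵀ)ᴴ = 1 := by
    rw [hW, ← mul_kronecker_mul, ← transpose_mul, u2, transpose_one, one_kronecker_one]
  have hL : LR (U * dg l * Uᴴ) (U * dg l * Uᴴ) =
      (U ⊗ₖ (Uᴴ)ᵀ) * dg (fun p : n × n => l p.1 * (l p.2)⁻¹) * (U ⊗ₖ (Uᴴ)ᵀ)ᴴ := by
    rw [LR, ginv, fc_eq u1 u2, hW, transpose_mul, transpose_mul, diagonal_transpose,
      ← Matrix.mul_assoc, mul_kronecker_mul, mul_kronecker_mul, diagonal_kronecker_diagonal]
    simp [dg]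
  rw [Riem, hL, fc_eq w1 w2, ← mulVec_mulVec, ← mulVec_mulVec, dotProduct_mulVec,
    ← conjTranspose_conjTranspose (U ⊗ₖ (Uᴴ)ᵀ), ← star_mulVec, conjTranspose_conjTranspose,
    hW, kron_vec, kron_vec, ginv, fc_eq u1 u2]
  have e : Uᴴ * (Y * (U * dg (fun i => (l i)⁻¹) * Uᴴ)) * U =
      (Uᴴ * Y * U) * dg (fun i => (l i)⁻¹) := by
    simp only [Matrix.mul_assoc, u1, Matrix.mul_one]
  rw [e]
  generalize Uᴴ * Y * U = Z
  simp only [dotProduct, mulVec_diagonal, Fintype.sum_prod_type, vec, Pi.star_apply,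
    mul_diagonal, re_sum]
  refine Finset.sum_congr rfl fun i _ => Finset.sum_congr rfl fun j _ => ?_
  have : star (Z i j) * ((κ (l i * (l j)⁻¹) : ℂ) * (Z i j * (((l j)⁻¹ : ℝ) : ℂ))) =
      ((κ (l i * (l j)⁻¹) * (l j)⁻¹ * normSq (Z i j) : ℝ) : ℂ) := by
    rw [ofReal_mul, ofReal_mul, normSq_eq_conj_mul_self, Complex.star_def]; ring
  rw [this, ofReal_re]

lemma riem_diag (κ : ℝ → ℝ) (h1 : κ 1 = 1) (q y : n → ℝ) :
    Riem κ (dg q) (dg y) = ∑ i, (q i)⁻¹ * y i ^ 2 := by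
  have := riem_formula κ (U := (1 : Matrix n n ℂ)) (by simp) (by simp) q (dg y)
  simp only [conjTranspose_one, Matrix.mul_one, Matrix.one_mul] at this
  rw [this]
  refine Finset.sum_congr rfl fun i _ => ?_
  rw [Finset.sum_eq_single i]
  · by_cases h : q i = 0
    · simp [h]
    · simp [h, h1, sq]
  · intro j _ hj; simp [Ne.symm hj]
  · simp

omit [DecidableEq n] in
lemma re_star_self (v : n → ℂ) : (star v ⬝ᵥ v).re = ∑ i, normSq (v i) := by
  simp only [dotProduct, Pi.star_apply, re_sum]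
  refine Finset.sum_congr rfl fun i _ => ?_
  rw [Complex.star_def, ← normSq_eq_conj_mul_self, ofReal_re]

lemma dstd_sq {ρ γ : Matrix n n ℂ} (h : (LR ρ γ).IsHermitian) :
    Dstd (fun x => (x - 1) ^ 2) ρ γ =
      ∑ p, normSq (((LR ρ γ - 1) *ᵥ vec (cfc Real.sqrt γ)) p) := by
  have h' : (LR ρ γ - 1)ᴴ = LR ρ γ - 1 := h.sub isHermitian_one
  rw [Dstd, fc_sq h, ← mulVec_mulVec, dotProduct_mulVec, ← re_star_self, star_mulVec, h']

lemma dstd_nonneg (ρ γ : Matrix n n ℂ) : 0 ≤ Dstd (fun x => (x - 1) ^ 2) ρ γ := by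
  by_cases h : (LR ρ γ).IsHermitian
  · rw [dstd_sq h]; exact Finset.sum_nonneg fun _ _ => normSq_nonneg _
  · have : cfc (fun x : ℝ => (x - 1) ^ 2) (LR ρ γ) = 0 := cfc_apply_of_not_predicate _ h
    rw [Dstd, this]; simp

lemma dstd_diag {ρ : Matrix n n ℂ} (hρ : ρ.IsHermitian) {m : n → ℝ} (hm : ∀ i, 0 < m i) :
    Dstd (fun x => (x - 1) ^ 2) ρ (dg m) = ∑ i, ∑ j, normSq ((ρ - dg m) i j) / m j := by
  have hL : LR ρ (dg m) = ρ ⊗ₖ (dg fun i => (m i)⁻¹)ᵀ := by rw [LR, ginv, fc_dg]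
  have hH : (LR ρ (dg m)).IsHermitian := by
    rw [hL, IsHermitian, conjTranspose_kronecker, hρ, diagonal_transpose, diagonal_conjTranspose]
    congr 2; funext i; simp
  rw [dstd_sq hH, hL, sub_mulVec, kron_vec, one_mulVec, fc_dg, Fintype.sum_prod_type]
  refine Finset.sum_congr rfl fun i _ => Finset.sum_congr rfl fun j _ => ?_
  have hs : Real.sqrt (m j) * Real.sqrt (m j) = m j := Real.mul_self_sqrt (hm j).le
  have hj := (hm j).ne'
  have : (vec (ρ * dg (fun i => Real.sqrt (m i)) * dg fun i => (m i)⁻¹) -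
      vec (dg fun i => Real.sqrt (m i))) (i, j) =
      (ρ - dg m) i j * ((Real.sqrt (m j) * (m j)⁻¹ : ℝ) : ℂ) := by
    simp only [vec, Pi.sub_apply, mul_diagonal, Matrix.sub_apply]
    have hjc : (m j : ℂ) ≠ 0 := by exact_mod_cast hj
    by_cases h : i = j
    · subst h; simp only [diagonal_apply_eq]; push_cast; field_simp
    · simp only [diagonal_apply_ne _ h]; push_cast; ring
  rw [this, normSq_mul, normSq_ofReal]
  field_simp
  rw [sq, hs]

lemma riem_two {σ Y : Matrix (Fin 2) (Fin 2) ℂ} (hσ : σ.PosSemidef) (t1 : trace σ = 1)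
    (hY : Y.IsHermitian) (t0 : trace Y = 0) :
    0 ≤ Riem (fun x => 2 / (1 + x)) σ Y ∧ Riem (fun x => 2 / (1 + x)) σ Y ≤
      (trace (σ * Y)).re ^ 2 / (det σ).re + 2 * (trace (Y * Y)).re := by
  obtain ⟨U, u1, u2, h, -⟩ := spec hσ.1 id
  have hp := hσ.eigenvalues_nonneg
  have hd := hσ.1.det_eq_prod_eigenvalues
  have ht := hσ.1.trace_eq_sum_eigenvalues
  generalize hσ.1.eigenvalues = l at h hp hd ht
  have hZ : (Uᴴ * Y * U).IsHermitian := isHermitian_conjTranspose_mul_mul U hY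
  have z0 : trace (Uᴴ * Y * U) = 0 := by rw [trace_mul_cycle, u2, Matrix.one_mul, t0]
  have z1 : trace (σ * Y) = trace (dg l * (Uᴴ * Y * U)) := by
    rw [h, ← Matrix.mul_assoc, trace_mul_comm (dg l * (Uᴴ * Y)) U]
    simp only [Matrix.mul_assoc]
  have z2 : trace (Y * Y) = trace ((Uᴴ * Y * U) * (Uᴴ * Y * U)) := by
    rw [show (Uᴴ * Y * U) * (Uᴴ * Y * U) = Uᴴ * (Y * (U * Uᴴ) * Y) * U by
      simp only [Matrix.mul_assoc], trace_mul_cycle, u2, Matrix.mul_one, Matrix.one_mul]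
  rw [z1, z2, hd]
  conv_lhs => rw [h, riem_formula _ u1 u2]
  conv_rhs => rw [h, riem_formula _ u1 u2]
  rw [t1] at ht
  generalize Uᴴ * Y * U = Z at hZ z0
  have a1 : (Z 0 0).im = 0 := by
    have := congrArg Complex.im (hZ.apply 0 0); simp at this; linarith
  have a2 : Z 1 0 = star (Z 0 1) := (hZ.apply 1 0).symm
  have a3 : Z 1 1 = - Z 0 0 := by
    simp [trace, Fin.sum_univ_two] at z0; linear_combination z0
  have a4 : l 1 = 1 - l 0 := by
    have := congrArg Complex.re ht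
    simp [Fin.sum_univ_two] at this; linarith
  have p0 := hp 0
  have p1 := hp 1
  simp only [Fin.sum_univ_two, Fin.prod_univ_two, trace, diag, Matrix.mul_apply, diagonal_apply,
    a2, a3, a4, normSq_apply] at p1 ⊢
  simp [a1]
  generalize (Z 0 0).re = x
  generalize (Z 0 1).re = y
  generalize (Z 0 1).im = z
  generalize l 0 = s at p0 p1
  rcases p0.eq_or_lt with rfl | p0
  · simp; constructor <;> nlinarith [sq_nonneg x, sq_nonneg y, sq_nonneg z]
  rcases p1.eq_or_lt with e | p1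
  · obtain rfl : s = 1 := by linarith
    simp; constructor <;> nlinarith [sq_nonneg x, sq_nonneg y, sq_nonneg z]
  · have e1 := p0.ne'
    have e2 := p1.ne'
    refine ⟨?_, le_of_eq ?_⟩
    · generalize 1 - s = u at p1
      have := mul_self_nonneg x
      have := mul_self_nonneg y
      have := mul_self_nonneg z
      positivity
    · field_simp
      ring

end Pool.Agent.H9.RE
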