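import Pool.Agent.H9.RE2

namespace Pool.Agent.H9.RE
open Matrix Complex
open scoped Kronecker ComplexOrder

noncomputable def NN (X : Matrix (Fin 3) (Fin 3) ℂ) : Matrix (Fin 3) (Fin 3) ℂ :=
  diagonal ![(X 1 1 + X 2 2) / 4, X 0 0 / 2 + X 1 1 / 2 + X 2 2 / 4,
    X 0 0 / 2 + X 1 1 / 4 + X 2 2 / 2]

noncomputable def MM (X : Matrix (Fin 3) (Fin 3) ℂ) : Matrix (Fin 2) (Fin 2) ℂ :=
  !![X 0 0 + (X 1 1 + X 2 2) / 2, (X 1 1 - X 2 2) / 4; (X 1 1 - X 2 2) / 4, (X 1 1 + X 2 2) / 2]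

noncomputable def KN : Fin 12 → Matrix (Fin 3) (Fin 3) ℂ :=
  ![single 1 0 (1 / 2), single 1 0 (1 / 2), single 2 0 (1 / 2), single 2 0 (1 / 2),
    single 0 1 (1 / 2), single 1 1 (1 / 2), single 1 1 (1 / 2), single 2 1 (1 / 2),
    single 0 2 (1 / 2), single 1 2 (1 / 2), single 2 2 (1 / 2), single 2 2 (1 / 2)]

noncomputable def KM : Fin 7 → Matrix (Fin 2) (Fin 3) ℂ :=
  ![!![1, 0, 0; 0, 0, 0], !![0, 1 / 2, 0; 0, 1 / 2, 0], !![0, 1 / 2, 0; 0, 0, 0],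
    !![0, 0, 0; 0, 1 / 2, 0], !![0, 0, 1 / 2; 0, 0, -1 / 2], !![0, 0, 1 / 2; 0, 0, 0],
    !![0, 0, 0; 0, 0, 1 / 2]]

lemma chanN : IsChannel NN := by
  refine ⟨12, KN, ?_, fun X => ?_⟩
  · ext i j
    fin_cases i <;> fin_cases j <;>
      simp [KN, Fin.sum_univ_succ] <;> norm_num
  · ext i j
    fin_cases i <;> fin_cases j <;>
      simp [NN, KN, Fin.sum_univ_succ] <;> ring

lemma chanM : IsChannel MM := by
  refine ⟨7, KM, ?_, fun X => ?_⟩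
  · ext i j
    fin_cases i <;> fin_cases j <;>
      simp [KM, Fin.sum_univ_succ, Matrix.mul_apply, map_ofNat] <;> norm_num
  · ext i j
    simp only [Matrix.sum_apply, Matrix.mul_apply, conjTranspose_apply, Fin.sum_univ_three]
    fin_cases i <;> fin_cases j <;> simp [MM, KM, Fin.sum_univ_succ, map_ofNat] <;> ring

lemma chan_psd {a b : ℕ} {Φ : Matrix (Fin a) (Fin a) ℂ → Matrix (Fin b) (Fin b) ℂ}
    (h : IsChannel Φ) {X : Matrix (Fin a) (Fin a) ℂ} (hX : X.PosSemidef) : (Φ X).PosSemidef := by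
  obtain ⟨r, K, -, hK⟩ := h
  rw [hK]
  exact posSemidef_sum _ fun k _ => hX.mul_mul_conjTranspose_same (K k)

lemma real_diag {X : Matrix (Fin 3) (Fin 3) ℂ} (hX : X.IsHermitian) :
    ∃ x : Fin 3 → ℝ, ∀ i, X i i = x i :=
  ⟨fun i => (X i i).re, fun i => (hX.coe_re_apply_self i).symm⟩

lemma NN_eq {X : Matrix (Fin 3) (Fin 3) ℂ} {x : Fin 3 → ℝ} (h : ∀ i, X i i = x i) :
    NN X = dg ![(x 1 + x 2) / 4, x 0 / 2 + x 1 / 2 + x 2 / 4, x 0 / 2 + x 1 / 4 + x 2 / 2] := by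
  rw [NN, dg]; congr 1; funext i; fin_cases i <;> simp [h]

lemma key (p1 p2 x1 x2 : ℝ) (h1 : 0 ≤ p1) (h2 : 0 ≤ p2) (h3 : p1 + p2 ≤ 1) :
    (1 / 40) * ((-((x1 + x2) / 2) * (1 - (p1 + p2)) + (p1 - p2) * (x1 - x2) / 8) ^ 2 /
      ((1 - (p1 + p2) / 2) * ((p1 + p2) / 2) - ((p1 - p2) / 4) ^ 2) +
      2 * ((x1 + x2) ^ 2 / 2 + (x1 - x2) ^ 2 / 8)) ≤
    ((p1 + p2) / 4)⁻¹ * ((x1 + x2) / 4) ^ 2 + (1 / 2 - p2 / 4)⁻¹ * (x2 / 4) ^ 2 +
      (1 / 2 - p1 / 4)⁻¹ * (x1 / 4) ^ 2 := by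
  have b1 : 2 ≤ (1 / 2 - p2 / 4)⁻¹ := by
    rw [le_inv_comm₀ (by norm_num) (by linarith)]; linarith
  have b2 : 2 ≤ (1 / 2 - p1 / 4)⁻¹ := by
    rw [le_inv_comm₀ (by norm_num) (by linarith)]; linarith
  have c1 := mul_le_mul_of_nonneg_right b1 (sq_nonneg (x2 / 4))
  have c2 := mul_le_mul_of_nonneg_right b2 (sq_nonneg (x1 / 4))
  have d1 := sq_nonneg (x1 - x2)
  have d2 := sq_nonneg (x1 + x2)
  rcases (add_nonneg h1 h2).eq_or_lt with e0 | e0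
  · obtain rfl : p1 = 0 := by linarith
    obtain rfl : p2 = 0 := by linarith
    simp only [add_zero, zero_div, mul_zero, sub_self, _root_.inv_zero, zero_mul, ne_eq,
      OfNat.ofNat_ne_zero, not_false_eq_true, zero_pow, div_zero, zero_add] at c1 c2 ⊢
    nlinarith
  · obtain ⟨e, he⟩ : ∃ e, e = p1 + p2 := ⟨_, rfl⟩
    obtain ⟨d, hd⟩ : ∃ d, d = p1 - p2 := ⟨_, rfl⟩
    obtain ⟨a, ha⟩ : ∃ a, a = x1 + x2 := ⟨_, rfl⟩
    obtain ⟨b, hb⟩ : ∃ b, b = x1 - x2 := ⟨_, rfl⟩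
    have hde : d ^ 2 ≤ e ^ 2 := by rw [hd, he]; nlinarith [mul_nonneg h1 h2]
    have hab : a ^ 2 + b ^ 2 = 2 * (x1 ^ 2 + x2 ^ 2) := by rw [ha, hb]; ring
    rw [← he, ← hd, ← ha, ← hb]
    rw [← he] at e0 h3
    have det1 : 3 * e / 16 ≤ (1 - e / 2) * (e / 2) - (d / 4) ^ 2 := by nlinarith
    have num1 : (-(a / 2) * (1 - e) + d * b / 8) ^ 2 ≤ a ^ 2 / 2 + e ^ 2 * b ^ 2 / 32 := by
      have f1 : (1 - e) ^ 2 ≤ 1 := by nlinarith
      have f2 := mul_le_mul_of_nonneg_left f1 (sq_nonneg a)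
      have f3 := mul_le_mul_of_nonneg_right hde (sq_nonneg b)
      nlinarith [sq_nonneg ((a / 2) * (1 - e) + d * b / 8)]
    have q1 : (-(a / 2) * (1 - e) + d * b / 8) ^ 2 / ((1 - e / 2) * (e / 2) - (d / 4) ^ 2) ≤
        (a ^ 2 / 2 + e ^ 2 * b ^ 2 / 32) / (3 * e / 16) :=
      div_le_div₀ (by positivity) num1 (by positivity) det1
    have q2 : (a ^ 2 / 2 + e ^ 2 * b ^ 2 / 32) / (3 * e / 16) =
        (32 / 3) * ((e / 4)⁻¹ * (a / 4) ^ 2) + e * b ^ 2 / 6 := by field_simp; ring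
    have q3 : e * b ^ 2 ≤ b ^ 2 := by nlinarith [sq_nonneg b]
    have q4 : 0 ≤ (e / 4)⁻¹ * (a / 4) ^ 2 := by positivity
    nlinarith [sq_nonneg a, sq_nonneg b]

lemma riem_lb : ∀ r ∈ riemRatios (fun x => 2 / (1 + x)) NN MM, 1 / 40 ≤ r := by
  rintro r ⟨ρ, X, ⟨hρ, tρ⟩, hX, tX, hne, rfl⟩
  obtain ⟨p, hp⟩ := real_diag hρ.1
  obtain ⟨x, hx⟩ := real_diag hX
  have pn : ∀ i, 0 ≤ p i := fun i => by
    have := hρ.diag_nonneg (i := i)
    rw [hp] at this; exact_mod_cast this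
  have tp : p 0 = 1 - p 1 - p 2 := by
    simp only [trace, diag, Fin.sum_univ_three, hp] at tρ
    have : p 0 + p 1 + p 2 = 1 := by exact_mod_cast tρ
    linarith
  have tx : x 0 = - x 1 - x 2 := by
    simp only [trace, diag, Fin.sum_univ_three, hx] at tX
    have : x 0 + x 1 + x 2 = 0 := by exact_mod_cast tX
    linarith
  have hY : (MM X).IsHermitian := by
    ext i j; fin_cases i <;> fin_cases j <;> simp [MM, hx]
  obtain ⟨m0, m1⟩ := riem_two (chan_psd chanM hρ) (Y := MM X)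
    (by simp [MM, trace, Fin.sum_univ_two, hp, tp]; ring) hY
    (by simp [MM, trace, Fin.sum_univ_two, hx, tx]; ring)
  have e1 : trace (MM ρ * MM X) = ((-((x 1 + x 2) / 2) * (1 - (p 1 + p 2)) +
      (p 1 - p 2) * (x 1 - x 2) / 8 : ℝ) : ℂ) := by
    simp [MM, trace, Fin.sum_univ_two, hp, hx, tp, tx]; ring
  have e2 : det (MM ρ) = (((1 - (p 1 + p 2) / 2) * ((p 1 + p 2) / 2) -
      ((p 1 - p 2) / 4) ^ 2 : ℝ) : ℂ) := by
    simp [MM, det_fin_two, hp, tp]; ring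
  have e3 : trace (MM X * MM X) = (((x 1 + x 2) ^ 2 / 2 + (x 1 - x 2) ^ 2 / 8 : ℝ) : ℂ) := by
    simp [MM, trace, Fin.sum_univ_two, hx, tx]; ring
  rw [e1, e2, e3, ofReal_re, ofReal_re, ofReal_re] at m1
  have k := key (p 1) (p 2) (x 1) (x 2) (pn 1) (pn 2) (by linarith [pn 0])
  rw [le_div_iff₀ (lt_of_le_of_ne m0 (Ne.symm hne)), NN_eq hp, NN_eq hx,
    riem_diag _ (by norm_num)]
  simp only [Fin.sum_univ_three, Matrix.cons_val_zero, Matrix.cons_val_one, Matrix.cons_val, tp,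
    tx]
  have g1 : (1 - p 1 - p 2) / 2 + p 1 / 2 + p 2 / 4 = 1 / 2 - p 2 / 4 := by ring
  have g2 : (1 - p 1 - p 2) / 2 + p 1 / 4 + p 2 / 2 = 1 / 2 - p 1 / 4 := by ring
  have g3 : ((-x 1 - x 2) / 2 + x 1 / 2 + x 2 / 4) ^ 2 = (x 2 / 4) ^ 2 := by ring
  have g4 : ((-x 1 - x 2) / 2 + x 1 / 4 + x 2 / 2) ^ 2 = (x 1 / 4) ^ 2 := by ring
  rw [g1, g2, g3, g4]
  linarith

lemma state_dg {x : Fin 3 → ℝ} (h : ∀ i, 0 < x i) (t : x 0 + x 1 + x 2 = 1) :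
    IsState (dg x) ∧ ∀ v, dg x *ᵥ v = 0 ↔ v = 0 := by
  refine ⟨⟨posSemidef_diagonal_iff.mpr fun i => Complex.zero_le_real.mpr (h i).le, ?_⟩, ?_⟩
  · simp only [trace_diagonal, Fin.sum_univ_three]; exact_mod_cast t
  · intro v
    refine ⟨fun hv => funext fun i => ?_, fun hv => by simp [hv]⟩
    have := congrFun hv i
    rw [mulVec_diagonal] at this
    have hi : (x i : ℂ) ≠ 0 := by exact_mod_cast (h i).ne'
    simpa [hi] using this

lemma riem_ne : (riemRatios (fun x => 2 / (1 + x)) NN MM).Nonempty := by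
  have hs := state_dg (x := ![1 / 2, 1 / 4, 1 / 4]) (fun i => by fin_cases i <;> simp)
    (by simp; norm_num)
  refine ⟨_, dg ![1 / 2, 1 / 4, 1 / 4], dg ![2, -1, -1], hs.1, ?_, ?_, ?_, rfl⟩
  · simpa using herm_conj (1 : Matrix (Fin 3) (Fin 3) ℂ) ![2, -1, -1]
  · simp [trace_diagonal, Fin.sum_univ_three]; norm_num
  · have e1 : MM (dg ![1 / 2, 1 / 4, 1 / 4]) = dg ![3 / 4, 1 / 4] := by
      ext i j; fin_cases i <;> fin_cases j <;> simp [MM] <;> norm_num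
    have e2 : MM (dg ![2, -1, -1]) = dg ![1, -1] := by
      ext i j; fin_cases i <;> fin_cases j <;> simp [MM] <;> norm_num
    rw [e1, e2, riem_diag _ (by norm_num)]
    simp [Fin.sum_univ_two]; norm_num

lemma div_small (e : ℝ) (h0 : 0 < e) (h1 : e < 1) :
    ∃ r ∈ divRatios (fun x => (x - 1) ^ 2) NN MM, r ≤ e := by
  have hr := state_dg (x := ![1 - e, 3 * e / 4, e / 4])
    (fun i => by fin_cases i <;> simp <;> linarith) (by simp; ring)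
  have hg := state_dg (x := ![1 - e, e / 2, e / 2])
    (fun i => by fin_cases i <;> simp <;> linarith) (by simp; ring)
  have e1 : MM (dg ![1 - e, e / 2, e / 2]) = dg ![1 - e / 2, e / 2] := by
    ext i j; fin_cases i <;> fin_cases j <;> simp [MM] <;> ring
  have e2 : NN (dg ![1 - e, e / 2, e / 2]) = dg ![e / 4, 1 / 2 - e / 8, 1 / 2 - e / 8] := by
    ext i j; fin_cases i <;> fin_cases j <;> simp [NN] <;> ring
  have dM : Dstd (fun x => (x - 1) ^ 2) (MM (dg ![1 - e, 3 * e / 4, e / 4]))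
      (MM (dg ![1 - e, e / 2, e / 2])) = (e / 8) ^ 2 / (e / 2) + (e / 8) ^ 2 / (1 - e / 2) := by
    rw [e1, dstd_diag (chan_psd chanM hr.1.1).1 (fun i => by fin_cases i <;> simp <;> linarith)]
    have : MM (dg ![1 - e, 3 * e / 4, e / 4]) - dg ![1 - e / 2, e / 2] =
        !![0, ((e / 8 : ℝ) : ℂ); ((e / 8 : ℝ) : ℂ), 0] := by
      ext i j; fin_cases i <;> fin_cases j <;> simp [MM] <;> ring
    rw [this]
    simp only [Fin.sum_univ_two, of_apply, cons_val', cons_val_zero, cons_val_one,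
      cons_val_fin_one, normSq_ofReal, map_zero, zero_div, zero_add, add_zero, sq]
  have dN : Dstd (fun x => (x - 1) ^ 2) (NN (dg ![1 - e, 3 * e / 4, e / 4]))
      (NN (dg ![1 - e, e / 2, e / 2])) = 2 * ((e / 16) ^ 2 / (1 / 2 - e / 8)) := by
    rw [e2, dstd_diag (chan_psd chanN hr.1.1).1 (fun i => by fin_cases i <;> simp <;> linarith)]
    have : NN (dg ![1 - e, 3 * e / 4, e / 4]) - dg ![e / 4, 1 / 2 - e / 8, 1 / 2 - e / 8] =
        dg ![0, e / 16, -(e / 16)] := by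
      ext i j; fin_cases i <;> fin_cases j <;> simp [NN] <;> ring
    rw [this]
    simp [Fin.sum_univ_three]
    ring
  have p1 : e / 32 ≤ (e / 8) ^ 2 / (e / 2) + (e / 8) ^ 2 / (1 - e / 2) := by
    have a1 : (e / 8) ^ 2 / (e / 2) = e / 32 := by field_simp; ring
    have a2 : 0 ≤ (e / 8) ^ 2 / (1 - e / 2) := div_nonneg (sq_nonneg _) (by linarith)
    linarith
  have p2 : (e / 16) ^ 2 / (1 / 2 - e / 8) ≤ e ^ 2 / 64 := by
    rw [div_le_iff₀ (by linarith)]; nlinarith [sq_nonneg e]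
  refine ⟨_, ⟨_, _, hr.1, hg.1, ?_, fun v => (hr.2 v).trans (hg.2 v).symm, ?_, rfl⟩, ?_⟩
  · intro h
    have := congrFun (congrFun h 2) 2
    simp only [diagonal_apply_eq, Matrix.cons_val] at this
    have h2 : e / 4 = e / 2 := by exact_mod_cast this
    linarith
  · rw [dM]; linarith
  · rw [dM, dN, div_le_iff₀ (by linarith)]
    nlinarith

lemma div_glb : IsGLB (divRatios (fun x => (x - 1) ^ 2) NN MM) 0 := by
  constructor
  · rintro r ⟨ρ, γ, -, -, -, -, -, rfl⟩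
    exact div_nonneg (dstd_nonneg _ _) (dstd_nonneg _ _)
  · intro c hc
    by_contra h
    have h0 : 0 < c := lt_of_not_ge h
    obtain ⟨r, hr, hle⟩ := div_small (min (c / 2) (1 / 2)) (by positivity)
      (lt_of_le_of_lt (min_le_right _ _) (by norm_num))
    have := hc hr
    have := min_le_left (c / 2) (1 / 2)
    linarith

end Pool.Agent.H9.RE
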