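import Pool.Agent.H9.RL2
import Pool.Agent.H9.UP1
import Pool.Agent.H9.NI2

/-! A renorming of `ℓ₁` whose dual has a smaller numerical index. -/
namespace Pool.Agent.H9.RL
open Filter Topology Finset UP

/-- indices of the norming functionals -/
abbrev I : Type := {g : ℝ × ℝ // g.1 ^ 2 + g.2 ^ 2 ≤ 1} ⊕ ℕ ⊕ ℕ

/-- coefficients of the norming functionals -/
noncomputable def W : I → ℕ → ℝ
  | .inl g, j => if j = 0 then g.1.1 else if j = 1 then g.1.2 else 0
  | .inr (.inl k), j => if j = 0 then 1 / 4 else if j % 2 = 0 ∧ 2 * k + 2 < j then 1 else 0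
  | .inr (.inr i), j => if j = 2 * i + 3 then 1 else
      if j ∈ ((Denumerable.eqv (Finset ℕ × ℕ)).symm i).1 then 1 / 300 else 0

lemma W_le (i : I) (j : ℕ) : |W i j| ≤ 1 := by
  obtain ⟨⟨a, b⟩, h⟩ | k | i := i <;> simp only [W] <;> split_ifs
  · exact abs_le_one_iff_mul_self_le_one.2 (by nlinarith)
  · exact abs_le_one_iff_mul_self_le_one.2 (by nlinarith)
  all_goals norm_num

lemma bd (i : I) (c : L) (j : ℕ) : ‖W i j * c j‖ ≤ |c j| :=
  (norm_mul _ _).trans_le (mul_le_of_le_one_left (norm_nonneg _) (W_le i j))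

lemma sm (i : I) (c : L) : Summable fun j => W i j * c j := (hs c).summable.of_norm_bounded (bd i c)

/-- the norming functionals -/
noncomputable def fn (i : I) : L →ₗ[ℝ] ℝ :=
  ⟨⟨fun c => ∑' j, W i j * c j, fun c d => by simp [mul_add, (sm i c).tsum_add (sm i d)]⟩,
    fun r c => by simp [mul_left_comm _ r, tsum_mul_left]⟩

lemma fn_le (i : I) (c : L) : |fn i c| ≤ ‖c‖ := tsum_of_norm_bounded (hs c) (bd i c)

lemma fn_lim {i : ℕ → I} {w : ℕ → ℝ} (h : ∀ j, ∀ᶠ n in atTop, W (i n) j = w j) (c : L) :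
    Tendsto (fun n => fn (i n) c) atTop (𝓝 (∑' j, w j * c j)) :=
  tendsto_tsum_of_dominated_convergence (hs c).summable (fun j => tendsto_const_nhds.congr'
    ((h j).mono fun n e => by simp [e])) (.of_forall fun n => bd (i n) c)

lemma bdd (c : L) : BddAbove (Set.range fun i => |fn i c|) :=
  ⟨‖c‖, Set.forall_mem_range.2 fun i => fn_le i c⟩

lemma low (c : L) : ‖c‖ ≤ 600 * ⨆ i, |fn i c| := by
  have h : ∀ s : Finset ℕ, |∑ j ∈ s, c j| ≤ 300 * ⨆ i, |fn i c| := fun s => by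
    have h1 : Tendsto (fun n : ℕ => Denumerable.eqv _ (s, n)) atTop atTop :=
      Function.Injective.nat_tendsto_atTop fun a b e => by simpa using e
    have := le_of_tendsto' (fn_lim (i := fun n => .inr (.inr (Denumerable.eqv _ (s, n))))
      (w := fun j => if j ∈ s then 1 / 300 else 0) (fun j => (h1.eventually_ge_atTop j).mono
        fun n e => by rw [W, if_neg (by omega), Equiv.symm_apply_apply]) c).abs
      fun n => le_ciSup (bdd c) _
    rw [tsum_eq_sum (s := s) (by simp +contextual), sum_congr rfl (g := fun j => 1 / 300 * c j)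
      (by simp +contextual), ← mul_sum, abs_mul, abs_of_pos (by norm_num)] at this
    linarith
  refine hasSum_le_of_sum_le (hs c) fun s => ?_
  rw [← sum_filter_add_sum_filter_not s fun j => 0 ≤ c j,
    sum_congr rfl fun j e => abs_of_nonneg (mem_filter.1 e).2,
    sum_congr rfl fun j e => abs_of_neg (not_le.1 (mem_filter.1 e).2), sum_neg_distrib]
  linarith [(abs_le.1 (h (s.filter fun j => 0 ≤ c j))).2,
    (abs_le.1 (h (s.filter fun j => ¬0 ≤ c j))).1]

/-- the space -/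
def X : Type := L

noncomputable instance : AddCommGroup X := inferInstanceAs (AddCommGroup L)
noncomputable instance : Module ℝ X := inferInstanceAs (Module ℝ L)

noncomputable instance : NormedAddCommGroup X := AddGroupNorm.toNormedAddCommGroup
  { toFun c := ⨆ i, |fn i c|
    map_zero' := (congrArg _ (funext fun i => congrArg _ (fn i).map_zero)).trans (by simp)
    add_le' c d := ciSup_le fun i => ((congrArg _ ((fn i).map_add c d)).trans_le
      (abs_add_le _ _)).trans (add_le_add (le_ciSup (bdd c) i) (le_ciSup (bdd d) i))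
    neg' c := congrArg _ (funext fun i => (congrArg _ ((fn i).map_neg c)).trans (abs_neg _))
    eq_zero_of_map_eq_zero' c h := norm_le_zero_iff.1 ((low c).trans_eq (by simp [h])) }

noncomputable instance : NormedSpace ℝ X := ⟨fun r c => ciSup_le fun i =>
  ((congrArg _ ((fn i).map_smul r c)).trans_le (abs_mul _ _).le).trans
    (mul_le_mul_of_nonneg_left (le_ciSup (bdd c) i) (abs_nonneg r))⟩

noncomputable def E0 : X ≃ₗ[ℝ] L := LinearEquiv.refl ℝ L

noncomputable def E : X ≃L[ℝ] L := E0.toContinuousLinearEquivOfBounds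
  600 1 low fun c => ciSup_le fun i => (fn_le i c).trans_eq (one_mul _).symm

instance : CompleteSpace X := (completeSpace_congr (e := E.toEquiv) E.isUniformEmbedding).2 inferInstance

noncomputable def φ (i : I) : X →L[ℝ] ℝ :=
  (fn i ∘ₗ E0.toLinearMap).mkContinuous 1 fun c => (le_ciSup (bdd c) i).trans_eq (one_mul _).symm

lemma φ_norm (i : I) : ‖φ i‖ ≤ 1 := LinearMap.mkContinuous_norm_le _ zero_le_one _
lemma φ_le (i : I) (x : X) : |φ i x| ≤ ‖x‖ := le_ciSup (bdd x) i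
lemma nle {x : X} {r : ℝ} (h : ∀ i, |φ i x| ≤ r) : ‖x‖ ≤ r := ciSup_le h

noncomputable def e (j : ℕ) : X := lp.single 1 j 1

@[simp] lemma φ_e (i : I) (j : ℕ) : φ i (e j) = W i j :=
  (tsum_eq_single (f := fun k => W i k * (lp.single 1 j 1 : L) k) j fun k h => by simp [h]).trans
    (by simp)

lemma e_le (j : ℕ) : ‖e j‖ ≤ 1 := nle fun i => by simpa using W_le i j

/-- the first coordinate -/
noncomputable def c0 : X →L[ℝ] ℝ := φ (.inl ⟨(1, 0), by simp⟩)
/-- the second coordinate -/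
noncomputable def c1 : X →L[ℝ] ℝ := φ (.inl ⟨(0, 1), by simp⟩)

@[simp] lemma c0_e (j : ℕ) : c0 (e j) = if j = 0 then 1 else 0 := by simp [c0, W]
@[simp] lemma c1_e (j : ℕ) : c1 (e j) = if j = 1 then 1 else 0 := by
  obtain rfl | h := eq_or_ne j 0 <;> simp [c1, W, *]

lemma φ_inl (g) (x : X) : φ (.inl g) x = g.1.1 * c0 x + g.1.2 * c1 x := by
  have : ∀ g, φ (.inl g) x = g.1.1 * E0 x 0 + g.1.2 * E0 x 1 := fun g =>
    (tsum_eq_sum (s := {0, 1}) (by simp +contextual [W])).trans (by simp [W])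
  simp [c0, c1, this]

lemma φ_lim (x : X) : Tendsto (fun k => φ (.inr (.inl k)) x) atTop (𝓝 (1 / 4 * c0 x)) := by
  have := fn_lim (i := fun k => .inr (.inl k)) (w := fun j => if j = 0 then 1 / 4 else 0)
    (fun j => (eventually_ge_atTop j).mono fun n e => by rw [W, if_neg (c := _ ∧ _) (by omega)]) (E0 x)
  have h : c0 x = E0 x 0 := (tsum_eq_single 0 (by simp +contextual [W])).trans (by simp [W])
  rwa [tsum_eq_single 0 (by simp +contextual), if_pos rfl, ← h] at this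

variable {S : X →L[ℝ] X} {V : ℝ}

lemma face (h : NR S V) (i : I) (p x : X) (hp : φ i p = 1) (hx : ‖x‖ ≤ 1)
    (H : ∀ j, |φ j p| ≤ 1 / 3 ∨ ∃ b, |b| ≤ 1 ∧ φ j p = b ∧ φ j x = b * φ i x) :
    |φ i (S x)| ≤ 5 * V := by
  have a := abs_le.1 ((φ_le i x).trans hx)
  have a1 := h.le p _ (nle fun j => (H j).elim (by intro; linarith) fun ⟨_, c, d, _⟩ => d ▸ c)
    (φ_norm i) hp
  have a2 := h.le ((1 / 2 : ℝ) • x + (1 - φ i x / 2) • p) _ (nle fun j => by
    rw [map_add, map_smul, map_smul, smul_eq_mul, smul_eq_mul]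
    obtain c | ⟨b, c, d, e⟩ := H j
    · have := abs_le.1 ((φ_le j x).trans hx)
      rw [abs_le] at *
      constructor <;> nlinarith
    · rwa [d, e, show 1 / 2 * (b * φ i x) + (1 - φ i x / 2) * b = b by ring]) (φ_norm i)
    (by simp [hp]; ring)
  rw [map_add, map_add, map_smul, map_smul, map_smul, map_smul, smul_eq_mul, smul_eq_mul] at a2
  rw [abs_le] at *
  constructor <;> nlinarith

lemma big (h : NR S V) : ‖S‖ ≤ 74 * V := by
  have a1 : ∀ k x, ‖x‖ ≤ 1 → |φ (.inr (.inl k)) (S x)| ≤ 5 * V := fun k x hx =>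
    face h _ (e (2 * k + 4) - e (2 * k + 2)) x (by simp [W]) hx fun j => by
      obtain g | m | i := j
      · simp [W]
      · obtain rfl | hm := eq_or_ne m k
        · exact .inr ⟨1, by simp [W]⟩
        · refine .inl ?_
          simp only [map_sub, φ_e, W]
          split_ifs <;> first | omega | norm_num
      · refine .inl ?_
        simp only [map_sub, φ_e, W]
        split_ifs <;> first | omega | norm_num [abs_le]
  have a2 : ∀ k x, ‖x‖ ≤ 1 → |φ (.inr (.inr k)) (S x)| ≤ 5 * V := fun k x hx =>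
    face h _ (e (2 * k + 3)) x (by simp [W]) hx fun j => by
      obtain g | m | i := j
      · simp [W]
      · refine .inl ?_
        simp only [φ_e, W]
        split_ifs <;> first | omega | norm_num
      · obtain rfl | hm := eq_or_ne i k
        · exact .inr ⟨1, by simp [W]⟩
        · refine .inl ?_
          simp only [φ_e, W]
          split_ifs <;> first | omega | norm_num [abs_le]
  have a3 : ∀ x, ‖x‖ ≤ 1 → |c0 (S x)| ≤ 20 * V := fun x hx => by
    have := le_of_tendsto' (φ_lim (S x)).abs fun k => a1 k x hx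
    rw [abs_mul, abs_of_pos (by norm_num)] at this
    linarith
  have a4 : ∀ x, ‖x‖ ≤ 1 → c0 x = 0 → |c1 (S x)| ≤ 5 * V := fun x hx h0 =>
    face h _ (e 1) x (by simp [W]) hx fun j => by
      obtain ⟨⟨a, b⟩, g⟩ | m | i := j
      · exact .inr ⟨b, abs_le_one_iff_mul_self_le_one.2 (by nlinarith), by simp [W],
          by simp [φ_inl, h0]⟩
      · simp [W]
      · refine .inl ?_
        simp only [φ_e, W]
        split_ifs <;> first | omega | norm_num [abs_le]
  have hV : 0 ≤ V := by linarith [abs_nonneg (c0 (S 0)), a3 0 (by simp)]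
  have a5 : |c1 (S (e 0))| ≤ 44 * V := by
    have := h.le ((3 / 5 : ℝ) • e 0 + (4 / 5 : ℝ) • e 1) _ (nle fun j => by
      obtain ⟨⟨a, b⟩, g⟩ | m | i := j <;> simp only [map_add, map_smul, φ_e, W, smul_eq_mul]
      · exact abs_le_one_iff_mul_self_le_one.2 (by simp; nlinarith [sq_nonneg (4 * a - 3 * b)])
      · norm_num [abs_le]
      · split_ifs <;> first | omega | norm_num [abs_le])
      (φ_norm (.inl ⟨(3 / 5, 4 / 5), by norm_num⟩)) (by norm_num [W])
    have b1 := a3 _ (e_le 0)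
    have b2 := a3 _ (e_le 1)
    have b3 := a4 _ (e_le 1) (by simp)
    simp only [φ_inl, map_add, map_smul, smul_eq_mul] at this
    rw [abs_le] at *
    constructor <;> linarith
  refine S.opNorm_le_of_unit_norm (by linarith) fun x hx => nle fun j => ?_
  obtain ⟨⟨a, b⟩, g⟩ | m | i := j
  · have b0 : |c0 x| ≤ 1 := (φ_le _ x).trans hx.le
    have b1 := a4 ((1 / 2 : ℝ) • (x - c0 x • e 0)) (by
      have := norm_sub_le_of_le hx.le ((norm_smul (c0 x) _).trans_le
        (mul_le_one₀ b0 (norm_nonneg _) (e_le 0)))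
      rw [norm_smul, Real.norm_of_nonneg (by norm_num)]
      linarith) (by simp)
    have b2 : |c1 (S x)| ≤ 54 * V := by
      have := (abs_mul _ _).trans_le (mul_le_mul b0 a5 (abs_nonneg _) zero_le_one)
      simp only [map_sub, map_smul, smul_eq_mul] at b1
      rw [abs_le] at *
      constructor <;> linarith
    have := (abs_mul a _).trans_le (mul_le_mul (abs_le_one_iff_mul_self_le_one.2 (by nlinarith))
      (a3 x hx.le) (abs_nonneg _) zero_le_one)
    have := (abs_mul b _).trans_le (mul_le_mul (abs_le_one_iff_mul_self_le_one.2 (by nlinarith))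
      b2 (abs_nonneg _) zero_le_one)
    rw [φ_inl]
    linarith [abs_add_le (a * c0 (S x)) (b * c1 (S x))]
  · linarith [a1 m x hx.le]
  · linarith [a2 i x hx.le]

lemma rot (x : X) (hx : ‖x‖ ≤ 1) (t : ℝ) : ∀ᶠ n in atTop, ‖x + t • (-c1 x • e 0 + c0 x • e 1 +
    (c1 x / 4) • e (2 * n + 2))‖ ≤ 1 + 1 / 100 * |t| + (1 * t) ^ 2 := by
  have b0 : |c0 x| ≤ 1 := (φ_le _ x).trans hx
  have b1 : |c1 x| ≤ 1 := (φ_le _ x).trans hx
  have b2 := abs_nonneg t
  have b3 : ∀ a c : ℝ, |a| ≤ c → |t * a| ≤ c * |t| := fun a c h => by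
    rw [abs_mul, mul_comm]
    exact mul_le_mul_of_nonneg_right h b2
  filter_upwards [eventually_forall_ge_atTop.2 ((φ_lim x).abs.eventually (ge_mem_nhds
    (show _ < (3 / 4 : ℝ) by rw [abs_mul, abs_of_pos (by norm_num)]; linarith)))] with n hn
  refine nle fun j => ?_
  have b4 := (φ_le j x).trans hx
  simp only [map_add, map_smul, φ_e, smul_eq_mul]
  obtain ⟨⟨a, b⟩, g⟩ | m | i := j
  · have := (φ_le (.inl ⟨((a + t * b) / (1 + t ^ 2), (b - t * a) / (1 + t ^ 2)), by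
      rw [div_pow, div_pow, ← add_div, div_le_one (by positivity)]
      nlinarith [mul_nonneg (sub_nonneg.2 g) (sq_nonneg t), sq_nonneg t, sq_nonneg (t ^ 2)]⟩)
        x).trans hx
    rw [φ_inl, div_mul_eq_mul_div, div_mul_eq_mul_div, ← add_div, abs_div,
      abs_of_pos (a := 1 + t ^ 2) (by positivity), div_le_one (by positivity)] at this
    refine le_trans (le_of_eq (congrArg _ ?_)) (this.trans (by nlinarith))
    simp [φ_inl, W]
    ring
  · rw [show W (.inr (.inl m)) 0 = 1 / 4 from rfl, show W (.inr (.inl m)) 1 = 0 by simp [W], W,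
      if_neg (by omega)]
    split_ifs with c
    · refine le_trans (le_of_eq (congrArg _ (by ring))) (b4.trans (by nlinarith))
    · have := b3 (-c1 x * (1 / 4)) (1 / 4) (by
        rw [abs_mul, abs_neg, abs_of_pos (a := (1 / 4 : ℝ)) (by norm_num)]
        linarith)
      have := hn m (by omega)
      refine (abs_add_le _ _).trans ?_
      rw [mul_zero, mul_zero, add_zero, add_zero]
      nlinarith [sq_abs t, sq_nonneg (|t| - 1 / 8)]
  · have b5 : ∀ j, j ≠ 2 * i + 3 → |W (.inr (.inr i)) j| ≤ 1 / 300 := fun j h => by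
      simp only [W, if_neg h]
      split_ifs <;> norm_num [abs_le]
    have b6 := fun (a : ℝ) j (h : |a| ≤ 1) c => (abs_mul a _).trans_le (mul_le_mul h (b5 j c)
      (abs_nonneg _) zero_le_one)
    have := b3 _ _ ((abs_add_three _ _ _).trans (add_le_add_three
      (b6 (-c1 x) 0 (by simpa using b1) (by omega)) (b6 _ 1 b0 (by omega))
      (b6 (c1 x / 4) (2 * n + 2) (by rw [abs_div, abs_of_pos (a := (4 : ℝ)) four_pos]; linarith) (by omega))))
    nlinarith [abs_add_le (φ (.inr (.inr i)) x) (t * (-c1 x * W (.inr (.inr i)) 0 +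
      c0 x * W (.inr (.inr i)) 1 + c1 x / 4 * W (.inr (.inr i)) (2 * n + 2)))]

lemma nrm {Y : Type} [NormedAddCommGroup Y] [NormedSpace ℝ Y] {T : Y →L[ℝ] Y} (a1 : 1 ≤ ‖T‖)
    (a2 : NR T V) : ∃ T : Y →L[ℝ] Y, ‖T‖ = 1 ∧ NR T V := by
  refine ⟨‖T‖⁻¹ • T, norm_smul_inv_norm fun h => by norm_num [h] at a1, fun y f b1 b2 b3 => ?_⟩
  rw [smul_apply, map_smul, smul_eq_mul, abs_mul, abs_inv, abs_norm]
  exact (mul_le_of_le_one_left (abs_nonneg _) (inv_le_one_of_one_le₀ a1)).trans (a2 y f b1 b2 b3)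

lemma small : ∃ T : (X →L[ℝ] ℝ) →L[ℝ] X →L[ℝ] ℝ, ‖T‖ = 1 ∧ NR T (1 / 100) := by
  have a0 := fun (y : X →L[ℝ] ℝ) n => abs_le.1 (y.unit_le_opNorm _ (e_le (2 * n + 2)))
  choose l l1 l2 using fun y : X →L[ℝ] ℝ => (isCompact_Icc (a := -‖y‖) (b := ‖y‖)).ultrafilter_le_nhds'
    ((hyperfilter ℕ).map fun n => y (e (2 * n + 2))) (Ultrafilter.mem_map.2 (univ_mem' (a0 y)))
  have l3 : ∀ y, Tendsto (fun n => y (e (2 * n + 2))) (hyperfilter ℕ) (𝓝 (l y)) := l2
  let Λ : (X →L[ℝ] ℝ) →L[ℝ] ℝ := LinearMap.mkContinuous ⟨⟨l, fun y z =>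
    tendsto_nhds_unique (l3 _) ((l3 y).add (l3 z))⟩, fun c y =>
    tendsto_nhds_unique (l3 _) ((l3 y).const_mul c)⟩ 1 fun y => by simpa using abs_le.2 (l1 y)
  let T : (X →L[ℝ] ℝ) →L[ℝ] X →L[ℝ] ℝ := (ContinuousLinearMap.apply ℝ ℝ (e 0)).smulRight (-c1) +
    (ContinuousLinearMap.apply ℝ ℝ (e 1)).smulRight c0 + Λ.smulRight ((1 / 4 : ℝ) • c1)
  have a1 : 1 ≤ ‖T‖ := by
    have := ((T c0).unit_le_opNorm _ (e_le 1)).trans (T.unit_le_opNorm _ (φ_norm _))
    have h : Λ c0 = 0 := tendsto_nhds_unique (l3 _) (by simp)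
    simpa [T, h] using this
  have a2 : NR T (1 / 100) := fun y f b1 b2 b3 => NI2.der (C := 1) b2 b3 fun t =>
    ContinuousLinearMap.opNorm_le_of_unit_norm (by positivity) fun x hx => by
      refine le_of_tendsto (((((l3 y).const_mul (c1 x / 4)).const_add (-c1 x * y (e 0) +
        c0 x * y (e 1))).const_mul t).const_add (y x)).norm (((rot x hx.le t).filter_mono
          (hyperfilter_le_cofinite.trans_eq Nat.cofinite_eq_atTop)).mono fun n hn => ?_)
        |>.trans_eq' (congrArg _ ?_)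
      · simpa [mul_add] using y.le_of_opNorm_le_of_le b1.le hn
      · simp [T, Λ]
        ring
  exact nrm a1 a2

instance : Nontrivial X := ⟨⟨e 0, 0, fun h => by simpa using congrArg c0 h⟩⟩

lemma big' {Z : Type} [NormedAddCommGroup Z] [NormedSpace ℝ Z] (Ψ : Z ≃ₗᵢ[ℝ] X) {S : Z →L[ℝ] Z}
    (h : NR S V) : ‖S‖ ≤ 74 * V := by
  have := big (S := (Ψ : Z →L[ℝ] X) ∘L S ∘L (Ψ.symm : X →L[ℝ] Z)) (V := V) fun x f a b c =>
    h.le (Ψ.symm x) (f ∘L (Ψ : Z →L[ℝ] X)) (by simp [a]) (ContinuousLinearMap.opNorm_le_bound _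
      zero_le_one fun z => by simpa using f.le_of_opNorm_le b.le (Ψ z)) (by simpa using c)
  exact S.opNorm_le_bound ((norm_nonneg _).trans this) fun z => by
    simpa using ContinuousLinearMap.le_of_opNorm_le _ this (Ψ z)

lemma lowZ {Z : Type} [NormedAddCommGroup Z] [NormedSpace ℝ Z] (Ψ : Z ≃ₗᵢ[ℝ] X) {S : Z →L[ℝ] Z}
    (h : ‖S‖ = 1) : 1 / 74 ≤ sSup {r : ℝ | ∃ (x : Z) (f : Z →L[ℝ] ℝ),
      ‖x‖ = 1 ∧ ‖f‖ = 1 ∧ f x = 1 ∧ r = ‖f (S x)‖} := by
  have := big' Ψ (S := S) (V := sSup {r : ℝ | ∃ (x : Z) (f : Z →L[ℝ] ℝ),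
      ‖x‖ = 1 ∧ ‖f‖ = 1 ∧ f x = 1 ∧ r = ‖f (S x)‖}) fun p f a1 a2 a3 => le_csSup ⟨1,
    fun _ ⟨q, g, b1, b2, _, e⟩ => e.trans_le ((g.unit_le_opNorm _
      ((S.unit_le_opNorm q b1.le).trans h.le)).trans b2.le)⟩ ⟨p, f, a1, a2, a3, rfl⟩
  linarith

lemma upY : ∃ T : (X →L[ℝ] ℝ) →L[ℝ] X →L[ℝ] ℝ, ‖T‖ = 1 ∧ sSup {r : ℝ | ∃ (x : X →L[ℝ] ℝ)
    (f : (X →L[ℝ] ℝ) →L[ℝ] ℝ), ‖x‖ = 1 ∧ ‖f‖ = 1 ∧ f x = 1 ∧ r = ‖f (T x)‖} ≤ 1 / 100 :=
  small.imp fun _ ⟨a, b⟩ => ⟨a, Real.sSup_le (fun _ ⟨x, f, c1, c2, c3, e⟩ =>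
    e.trans_le (b x f c1 c2 c3)) (by norm_num)⟩

end Pool.Agent.H9.RL
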