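import Pool.Agent.H9.LEmb

/-! Spaces isomorphic to `ℓ₁`: Radon-Nikodym property and uniqueness of the predual. -/
namespace Pool.Agent.H9.RL
open Filter Topology MeasureTheory Finset

/-- the space `ℓ₁` -/
abbrev L : Type := lp (fun _ : ℕ => ℝ) 1

/-- coordinates -/
noncomputable def ev (k : ℕ) : L →L[ℝ] ℝ := lp.evalCLM ℝ (fun _ : ℕ => ℝ) 1 k

lemma hs (c : L) : HasSum (fun k => |c k|) ‖c‖ := by
  simpa using lp.hasSum_norm (p := 1) (by simp) c

lemma mem {g : ℕ → ℝ} {C : ℝ} (h : ∀ s : Finset ℕ, ∑ k ∈ s, |g k| ≤ C) : Memℓp g 1 :=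
  memℓp_gen' (C := C) (by simpa using h)

lemma sgn_sum (g : ℕ → ℝ) (s : Finset ℕ) :
    ∑ k ∈ s, (SignType.sign (g k) : ℝ) * g k = ∑ k ∈ s, |g k| := by simp

lemma sgn_le (g : ℕ → ℝ) (s : Finset ℕ) (c : L) :
    |∑ k ∈ s, (SignType.sign (g k) : ℝ) * c k| ≤ ‖c‖ :=
  (abs_sum_le_sum_abs _ _).trans ((sum_le_sum fun k _ => by
    cases SignType.sign (g k) <;> simp).trans (sum_le_hasSum s (fun _ _ => abs_nonneg _) (hs c)))

lemma rnp0 (f : ℝ → L) (K : NNReal) (h : LipschitzWith K f) :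
    ∀ᵐ t ∂(volume : Measure ℝ), DifferentiableAt ℝ f t := by
  have h1 := fun k => (ev k).lipschitz.comp h
  have h2 := ae_all_iff.2 fun k => (h1 k).ae_differentiableAt_real
  let g : ℝ → L := fun t => ∑' k, lp.single 1 k (deriv (ev k ∘ f) t)
  have h3 : ∀ᵐ t : ℝ, ∃ c : L, (∀ k, c k = deriv (ev k ∘ f) t) ∧ ‖c‖ ≤ K := h2.mono fun t ht => by
    have : ∀ s : Finset ℕ, ∑ k ∈ s, |deriv (ev k ∘ f) t| ≤ K := fun s => by
      rw [← sgn_sum]
      refine (le_abs_self _).trans ((HasDerivAt.fun_sum fun k _ =>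
        (ht k).hasDerivAt.const_mul _).le_of_lipschitz (.of_dist_le_mul fun a b => ?_))
      refine le_trans ?_ ((sgn_le (fun k => deriv (ev k ∘ f) t) s (f a - f b)).trans
        (h.norm_sub_le a b))
      simp [Real.dist_eq, ev, lp.evalCLM, mul_sub]
    exact ⟨⟨_, mem this⟩, fun _ => rfl, hasSum_le_of_sum_le (hs _) this⟩
  have h4 : ∀ᵐ t : ℝ, HasSum (fun k => lp.single 1 k (deriv (ev k ∘ f) t)) (g t) ∧ ‖g t‖ ≤ K ∧
      ∀ k, ev k (g t) = deriv (ev k ∘ f) t := h3.mono fun t ⟨c, a, b⟩ => by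
    have := lp.hasSum_single (by simp) c
    simp only [a] at this
    simp only [g, this.tsum_eq]
    exact ⟨this, b, a⟩
  have h5 : AEStronglyMeasurable g := aestronglyMeasurable_of_tendsto_ae atTop
    (fun n => Finset.aestronglyMeasurable_fun_sum (range n) fun k _ =>
      (lp.isometry_single k).continuous.comp_aestronglyMeasurable
        (measurable_deriv _).aestronglyMeasurable) (h4.mono fun t a => a.1.tendsto_sum_nat)
  have h6 : LocallyIntegrable g := (locallyIntegrable_const (K : ℝ)).mono h5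
    (h4.mono fun t a => by simpa using a.2.1)
  have h7 : f = fun t => (∫ s in (0 : ℝ)..t, g s) + f 0 := funext fun t => by
    refine eq_add_of_sub_eq (lp.ext (funext fun k => ?_))
    have := (ev k).intervalIntegral_comp_comm (intervalIntegrable_iff.2
      ((h6.integrableOn_isCompact (isCompact_uIcc (a := 0) (b := t))).mono_set Set.uIoc_subset_uIcc))
    rw [intervalIntegral.integral_congr_ae (h4.mono fun s a _ => a.2.2 k),
      (h1 k).lipschitzOnWith.absolutelyContinuousOnInterval.integral_deriv_eq_sub] at this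
    exact this
  filter_upwards [LocallyIntegrable.ae_hasDerivAt_integral h6] with t ht
  exact h7 ▸ ((ht 0).add_const _).differentiableAt

variable {X : Type} [NormedAddCommGroup X] [NormedSpace ℝ X]

lemma rnp (E : X ≃L[ℝ] L) (f : ℝ → X) (K : NNReal) (h : LipschitzWith K f) :
    ∀ᵐ t ∂(volume : Measure ℝ), DifferentiableAt ℝ f t :=
  (rnp0 _ _ (E.lipschitz.comp h)).mono fun _ => E.comp_differentiableAt_iff.1

lemma lsc {ψ : ℕ → X →L[ℝ] ℝ} {φ : X →L[ℝ] ℝ} (h : ∀ x, Tendsto (fun m => ψ m x) atTop (𝓝 (φ x)))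
    {a : ℝ} (ha : a < ‖φ‖) : ∀ᶠ m in atTop, a < ‖ψ m‖ := by
  obtain ⟨x, b, c⟩ := φ.exists_lt_apply_of_lt_opNorm ha
  exact ((h x).norm.eventually (lt_mem_nhds c)).mono fun m e =>
    e.trans_le ((ψ m).unit_le_opNorm x b.le)

lemma uniq (E : X ≃L[ℝ] L) (Z : Type) [NormedAddCommGroup Z] [NormedSpace ℝ Z] [CompleteSpace Z]
    (Φ : (Z →L[ℝ] ℝ) ≃ₗᵢ[ℝ] (X →L[ℝ] ℝ)) : Nonempty (Z ≃ₗᵢ[ℝ] X) := by
  let u : ℕ → X →L[ℝ] ℝ := fun k => ev k ∘L E
  have a1 : ∀ z (s : Finset ℕ), ∑ k ∈ s, |Φ.symm (u k) z| ≤ ‖(E : X →L[ℝ] L)‖ * ‖z‖ :=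
    fun z s => by
      have := (Φ.symm (∑ k ∈ s, (SignType.sign (Φ.symm (u k) z) : ℝ) • u k)).le_of_opNorm_le
        ((Φ.symm.norm_map _).trans_le (ContinuousLinearMap.opNorm_le_bound _ (norm_nonneg _)
          fun x => le_trans (by simpa [u, ev, lp.evalCLM] using sgn_le (fun k => Φ.symm (u k) z) s (E x))
            ((E : X →L[ℝ] L).le_opNorm x))) z
      exact (le_abs_self _).trans (by simpa using this)
  let j : Z →ₗ[ℝ] X := E.symm.toLinearMap ∘ₗ ⟨⟨fun z => ⟨_, mem (a1 z)⟩, fun z w =>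
    lp.ext (funext fun k => map_add _ z w)⟩, fun c z => lp.ext (funext fun k => map_smul _ c z)⟩
  have a2 : ∀ k z, Φ.symm (u k) z = u k (j z) := fun k z => by simp [u, j, ev, lp.evalCLM]
  have a3 : ∀ (y : X →L[ℝ] ℝ) z, Φ.symm y z = y (j z) := fun y => by
    let v : ℕ → X →L[ℝ] ℝ := fun k => y (E.symm (lp.single 1 k 1)) • u k
    have b1 : ∀ x, Tendsto (fun m => (∑ k ∈ range m, v k) x) atTop (𝓝 (y x)) := fun x => by
      have := ((y ∘L E.symm).hasSum (lp.hasSum_single (by simp) (E x))).tendsto_sum_nat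
      rw [ContinuousLinearMap.comp_apply, ContinuousLinearEquiv.coe_coe, E.symm_apply_apply] at this
      refine this.congr fun m => ?_
      rw [_root_.sum_apply]
      refine sum_congr rfl fun k _ => ?_
      rw [← mul_one (E x k), ← smul_eq_mul, lp.single_smul, map_smul, smul_eq_mul, mul_comm]
      rfl
    have b2 : ∀ s, ‖∑ k ∈ s, v k‖ ≤ ‖y ∘L (E.symm : L →L[ℝ] X)‖ * ‖(E : X →L[ℝ] L)‖ := fun s =>
      ContinuousLinearMap.opNorm_le_bound _ (by positivity) fun x => by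
        rw [_root_.sum_apply, mul_assoc]
        refine (norm_sum_le_of_le s (n := fun k => ‖y ∘L (E.symm : L →L[ℝ] X)‖ * |E x k|)
          fun k _ => (norm_mul _ _).trans_le (mul_le_mul_of_nonneg_right
            ((y ∘L (E.symm : L →L[ℝ] X)).unit_le_opNorm _ (by simp)) (abs_nonneg _))).trans ?_
        rw [← mul_sum]
        exact mul_le_mul_of_nonneg_left ((sum_le_hasSum s (fun _ _ => abs_nonneg _) (hs _)).trans
          ((E : X →L[ℝ] L).le_opNorm x)) (norm_nonneg _)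
    obtain ⟨d, hd⟩ : ∃ d : X →L[ℝ] ℝ, ∀ z, Φ.symm (d + y) z = y (j z) := ⟨Φ ((y.toLinearMap ∘ₗ
      j).mkContinuous (‖y ∘L (E.symm : L →L[ℝ] X)‖ * ‖(E : X →L[ℝ] L)‖) fun z => mul_assoc _ _ ‖z‖ ▸
        (y ∘L (E.symm : L →L[ℝ] X)).le_opNorm_of_le (hasSum_le_of_sum_le (hs _) (a1 z))) - y,
      fun z => by simp⟩
    have b3 : ∀ (n : ℕ) w, ∃ N, ∃ s ⊆ range N, ‖w + (n : ℝ) • d‖ - n * (‖d‖ / 2) ≤
        ‖w + ∑ k ∈ s, v k‖ := fun n => by
      induction n with
      | zero => exact fun w => ⟨0, ∅, by simp, by simp⟩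
      | succ n ih =>
        intro w
        obtain rfl | h0 := eq_or_ne d 0
        · exact ⟨0, ∅, by simp, by simp⟩
        obtain ⟨N, s, c1, c2⟩ := ih (w + d)
        obtain ⟨n, c3, c4⟩ := ((lsc (φ := w + ∑ k ∈ s, v k + d) (ψ := fun n =>
          w + ∑ k ∈ s, v k + d + (y - ∑ k ∈ range n, v k)) (fun x => by
            simpa using ((b1 x).const_sub (y x)).const_add ((w + ∑ k ∈ s, v k + d) x))
          (sub_lt_self _ (half_pos (norm_pos_iff.2 h0)))).and (eventually_ge_atTop N)).exists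
        obtain ⟨m, c5, c6⟩ := ((lsc (ψ := fun m => Φ.symm (w + ∑ k ∈ s, v k +
          (∑ k ∈ range m, v k - ∑ k ∈ range n, v k))) (fun z => by
            have := ((b1 (j z)).sub_const (Φ.symm (∑ k ∈ range n, v k) z)).const_add
              (Φ.symm (w + ∑ k ∈ s, v k) z)
            rw [← hd] at this
            convert this using 2
            · simp [v, a2]
            · simp only [map_add, map_sub, add_apply, sub_apply]
              ring) (c3.trans_eq (Φ.symm.norm_map _).symm)).and (eventually_ge_atTop n)).exists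
        refine ⟨m, s ∪ Ico n m, union_subset (c1.trans (range_subset_range.2 (c4.trans c6)))
          fun k hk => mem_range.2 (mem_Ico.1 hk).2, ?_⟩
        rw [sum_union (disjoint_left.2 fun k a b => by
          linarith [mem_range.1 (c1 a), (mem_Ico.1 b).1]), sum_Ico_eq_sub _ c6, ← add_assoc]
        rw [Φ.symm.norm_map, add_right_comm] at c5
        rw [Nat.cast_succ, add_smul, one_smul, add_comm _ d, ← add_assoc]
        linarith
    have b4 : ‖d‖ ≤ 0 := le_of_not_gt fun h0 => by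
      obtain ⟨n, hn⟩ := exists_nat_gt (‖y ∘L (E.symm : L →L[ℝ] X)‖ * ‖(E : X →L[ℝ] L)‖ / (‖d‖ / 2))
      obtain ⟨-, s, -, c⟩ := b3 n 0
      rw [zero_add, zero_add, norm_smul, Real.norm_natCast] at c
      rw [div_lt_iff₀ (half_pos h0)] at hn
      linarith [b2 s]
    simpa [norm_le_zero_iff.1 b4] using hd
  let J : Z →ₗᵢ[ℝ] X := ⟨j, fun z => by
    obtain ⟨y, b1, b2⟩ := exists_dual_vector'' ℝ (j z)
    obtain ⟨g, b3, b4⟩ := exists_dual_vector'' ℝ z
    have b5 := (Φ.symm y).le_of_opNorm_le ((Φ.symm.norm_map y).trans_le b1) z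
    have b6 := (Φ g).le_of_opNorm_le ((Φ.norm_map g).trans_le b3) (j z)
    rw [a3, b2] at b5
    rw [← a3, Φ.symm_apply_apply, b4] at b6
    exact le_antisymm (by simpa using b5) (by simpa using b6)⟩
  exact ⟨.ofSurjective J fun x => LEmb.mem J.range J.isometry.isClosedEmbedding.isClosed_range
    fun y hy => by
      rw [Φ.symm.map_eq_zero_iff.1 (ContinuousLinearMap.ext fun z => (a3 y z).trans (hy _ ⟨z, rfl⟩))]
      rfl⟩

end Pool.Agent.H9.RL
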