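import Mathlib

open Filter Topology Matrix

namespace Pool.Agent.H9.SQ

variable {m : Type} [Fintype m] [DecidableEq m]

omit [DecidableEq m] in
lemma psd_conj {A : Matrix m m ℝ} (h : A.PosSemidef) (B : Matrix m m ℝ) :
    (Bᵀ * A * B).PosSemidef := by
  simpa [conjTranspose_eq_transpose_of_trivial] using h.conjTranspose_mul_mul_same B

omit [Fintype m] [DecidableEq m] in
lemma psd_symm {A : Matrix m m ℝ} (h : A.PosSemidef) : Aᵀ = A := by
  simpa [conjTranspose_eq_transpose_of_trivial] using h.1.eq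

omit [DecidableEq m] in
lemma psd_tmul (S : Matrix m m ℝ) : (Sᵀ * S).PosSemidef := by
  simpa [conjTranspose_eq_transpose_of_trivial] using posSemidef_conjTranspose_mul_self S

open scoped MatrixOrder in
lemma exists_sqrt {A : Matrix m m ℝ} (h : A.PosSemidef) :
    ∃ B : Matrix m m ℝ, B.PosSemidef ∧ B * B = A :=
  ⟨CFC.sqrt A, nonneg_iff_posSemidef.1 (CFC.sqrt_nonneg A),
    CFC.sqrt_mul_sqrt_self A (nonneg_iff_posSemidef.2 h)⟩

open scoped MatrixOrder in
lemma sqrt_uniq {B C : Matrix m m ℝ} (hB : B.PosSemidef) (hC : C.PosSemidef)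
    (h : B * B = C * C) : B = C :=
  (CFC.mul_self_eq_mul_self_iff B C (nonneg_iff_posSemidef.2 hB)
    (nonneg_iff_posSemidef.2 hC)).1 h

lemma pd_mul_inv {A : Matrix m m ℝ} (h : A.PosDef) : A * A⁻¹ = 1 :=
  mul_nonsing_inv A (isUnit_iff_ne_zero.2 h.det_pos.ne')

lemma pd_inv_mul {A : Matrix m m ℝ} (h : A.PosDef) : A⁻¹ * A = 1 :=
  nonsing_inv_mul A (isUnit_iff_ne_zero.2 h.det_pos.ne')

lemma inv_anti {A B : Matrix m m ℝ} (hA : A.PosDef) (h : (B - A).PosSemidef) :
    (A⁻¹ - B⁻¹).PosSemidef := by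
  have hB : B.PosDef := by simpa using hA.add_posSemidef h
  have h1 := psd_conj hA.posSemidef (A⁻¹ - B⁻¹)
  have h2 := psd_conj h B⁻¹
  have e : A⁻¹ - B⁻¹ = (A⁻¹ - B⁻¹)ᵀ * A * (A⁻¹ - B⁻¹) + B⁻¹ᵀ * (B - A) * B⁻¹ := by
    rw [transpose_sub, psd_symm hA.inv.posSemidef, psd_symm hB.inv.posSemidef]
    simp only [Matrix.sub_mul, Matrix.mul_sub, pd_inv_mul hA, pd_inv_mul hB, Matrix.one_mul,
      Matrix.mul_assoc, pd_mul_inv hA, Matrix.mul_one]
    abel
  rw [e]
  exact h1.add h2

omit [DecidableEq m] in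
lemma psd_limit {A : ℕ → Matrix m m ℝ} {B : Matrix m m ℝ} (h : ∀ k, (A k).PosSemidef)
    (hl : Tendsto A atTop (𝓝 B)) : B.PosSemidef := by
  refine PosSemidef.of_dotProduct_mulVec_nonneg ?_ fun x => ?_
  · have h1 : Tendsto (fun k => (A k)ᵀ) atTop (𝓝 Bᵀ) :=
      (continuous_id.matrix_transpose.tendsto B).comp hl
    simp only [fun k => psd_symm (h k)] at h1
    have := tendsto_nhds_unique h1 hl
    simpa [IsHermitian, conjTranspose_eq_transpose_of_trivial] using this
  · have hc : Continuous fun M : Matrix m m ℝ => star x ⬝ᵥ (M *ᵥ x) := by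
      simp only [dotProduct, mulVec]
      fun_prop
    exact ge_of_tendsto' ((hc.tendsto B).comp hl) fun k => (h k).dotProduct_mulVec_nonneg x

lemma inv_tendsto {A : ℕ → Matrix m m ℝ} {B : Matrix m m ℝ} (hB : B.det ≠ 0)
    (hl : Tendsto A atTop (𝓝 B)) : Tendsto (fun k => (A k)⁻¹) atTop (𝓝 B⁻¹) := by
  have : ContinuousAt Inv.inv B := by
    apply continuousAt_matrix_inv
    rw [Ring.inverse_eq_inv']
    exact continuousAt_inv₀ hB
  exact this.tendsto.comp hl

omit [DecidableEq m] in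
lemma entry_bound {S G : Matrix m m ℝ} (h : (G - Sᵀ * S).PosSemidef) (i j : m) :
    |S i j| ≤ 1 + G j j := by
  have h1 : 0 ≤ (G - Sᵀ * S) j j := h.diag_nonneg
  rw [Matrix.sub_apply, Matrix.mul_apply] at h1
  simp only [Matrix.transpose_apply] at h1
  have h2 : S i j * S i j ≤ ∑ l, S l j * S l j :=
    Finset.single_le_sum (f := fun l => S l j * S l j) (fun l _ => mul_self_nonneg _)
      (Finset.mem_univ i)
  have h3 := sq_nonneg (|S i j| - 1)
  have h4 := abs_mul_abs_self (S i j)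
  nlinarith [abs_nonneg (S i j)]

omit [DecidableEq m] in
lemma subseq3 (S T M : ℕ → Matrix m m ℝ) (R : ℝ) (hS : ∀ k i j, |S k i j| ≤ R)
    (hT : ∀ k i j, |T k i j| ≤ R) (hM : ∀ k i j, |M k i j| ≤ R) :
    ∃ (φ : ℕ → ℕ) (S' T' M' : Matrix m m ℝ), StrictMono φ ∧
      Tendsto (fun k => S (φ k)) atTop (𝓝 S') ∧ Tendsto (fun k => T (φ k)) atTop (𝓝 T') ∧
      Tendsto (fun k => M (φ k)) atTop (𝓝 M') := by
  have hK : IsCompact (Set.pi Set.univ fun _ : m => Set.pi Set.univ fun _ : m => Set.Icc (-R) R) :=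
    isCompact_univ_pi fun _ => isCompact_univ_pi fun _ => isCompact_Icc
  have hs := (hK.prod (hK.prod hK)).isSeqCompact
  obtain ⟨⟨S', T', M'⟩, -, φ, hφ, h⟩ := hs
    (x := fun k => (fun i j => S k i j, fun i j => T k i j, fun i j => M k i j))
    fun k => ⟨fun i _ j _ => abs_le.1 (hS k i j), fun i _ j _ => abs_le.1 (hT k i j),
      fun i _ j _ => abs_le.1 (hM k i j)⟩
  exact ⟨φ, S', T', M', hφ, (continuous_fst.tendsto _).comp h,
    ((continuous_fst.comp continuous_snd).tendsto _).comp h,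
    ((continuous_snd.comp continuous_snd).tendsto _).comp h⟩

lemma ev_sum {A : Matrix m m ℝ} (h : A.IsHermitian) : ∑ i, h.eigenvalues₀ i = A.trace := by
  rw [h.trace_eq_sum_eigenvalues]
  simp only [RCLike.ofReal_real_eq_id, id, IsHermitian.eigenvalues]
  exact (Equiv.sum_comp _ h.eigenvalues₀).symm

lemma ev_mem {A : Matrix m m ℝ} (h : A.IsHermitian) (i : Fin (Fintype.card m)) :
    ∃ j, h.eigenvalues₀ i = h.eigenvalues j :=
  ⟨Fintype.equivOfCardEq (Fintype.card_fin _) i, by simp [IsHermitian.eigenvalues]⟩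

open Polynomial in
lemma ev_char {A : Matrix m m ℝ} (h : A.IsHermitian) :
    A.charpoly = ∏ i, (X - C (h.eigenvalues₀ i)) := by
  rw [h.charpoly_eq]
  simp only [RCLike.ofReal_real_eq_id, id, IsHermitian.eigenvalues]
  exact Equiv.prod_comp _ fun i => X - C (h.eigenvalues₀ i)

open Polynomial in
lemma ev_tendsto {A : ℕ → Matrix m m ℝ} {B : Matrix m m ℝ} (h : ∀ k, (A k).PosSemidef)
    (hB : B.IsHermitian) (hl : Tendsto A atTop (𝓝 B)) :
    Tendsto (fun k => (h k).1.eigenvalues₀) atTop (𝓝 hB.eigenvalues₀) := by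
  have htr : Tendsto (fun k => (A k).trace) atTop (𝓝 B.trace) :=
    (continuous_id.matrix_trace.tendsto B).comp hl
  obtain ⟨R, hR⟩ := htr.bddAbove_range
  have hK : IsCompact (Set.pi Set.univ fun _ : Fin (Fintype.card m) => Set.Icc (0 : ℝ) R) :=
    isCompact_univ_pi fun _ => isCompact_Icc
  have h0 : ∀ k i, 0 ≤ (h k).1.eigenvalues₀ i := by
    intro k i
    obtain ⟨j, hj⟩ := ev_mem (h k).1 i
    rw [hj]
    exact (h k).eigenvalues_nonneg j
  refine tendsto_of_subseq_tendsto fun ns hns => ?_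
  obtain ⟨d, -, φ, hφ, hd⟩ := hK.tendsto_subseq (x := fun k => (h (ns k)).1.eigenvalues₀)
    fun k i _ => ⟨h0 _ i, (Finset.single_le_sum (f := (h (ns k)).1.eigenvalues₀)
      (fun j _ => h0 _ j) (Finset.mem_univ i)).trans
      ((ev_sum (h (ns k)).1).trans_le (hR ⟨_, rfl⟩))⟩
  refine ⟨φ, ?_⟩
  have hanti : Antitone d := fun i j hij =>
    le_of_tendsto_of_tendsto' (((continuous_apply j).tendsto d).comp hd)
      (((continuous_apply i).tendsto d).comp hd)
      fun k => (h (ns (φ k))).1.eigenvalues₀_antitone hij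
  have hch : B.charpoly = ∏ i, (X - C (d i)) := by
    apply Polynomial.funext
    intro x
    have c1 : Continuous fun M : Matrix m m ℝ => (scalar m x - M).det :=
      (continuous_const.sub continuous_id).matrix_det
    have c2 : Continuous fun v : Fin (Fintype.card m) → ℝ => ∏ i, (x - v i) := by fun_prop
    have t1 := (c1.tendsto B).comp ((hl.comp hns).comp hφ.tendsto_atTop)
    have t2 := (c2.tendsto d).comp hd
    rw [eval_charpoly, eval_prod]
    simp only [eval_sub, eval_X, eval_C]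
    refine tendsto_nhds_unique t1 (t2.congr fun k => ?_)
    simp only [Function.comp]
    rw [← eval_charpoly, ev_char (h (ns (φ k))).1, eval_prod]
    simp only [eval_sub, eval_X, eval_C]
  have he : hB.eigenvalues₀ = d := by
    have h1 := hB.sort_roots_charpoly_eq_eigenvalues₀
    rw [hch, Polynomial.roots_prod _ _ (by
      simp [Finset.prod_ne_zero_iff, Polynomial.X_sub_C_ne_zero])] at h1
    simp only [roots_X_sub_C, Multiset.bind_singleton, Fin.univ_val_map, Multiset.map_coe,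
      List.map_ofFn, Function.comp_def, RCLike.re_to_real, Multiset.coe_sort] at h1
    rw [List.mergeSort_of_pairwise (by
      simp_rw [decide_eq_true_eq, ← List.sortedGE_iff_pairwise]
      exact hanti.sortedGE_ofFn)] at h1
    exact (List.ofFn_inj.1 h1).symm
  rw [he]
  exact hd

end Pool.Agent.H9.SQ
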