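import Pool.Agent.H9.SQ1

open Filter Topology Matrix

namespace Pool.Agent.H9.SQ

variable {m : Type} [Fintype m] [DecidableEq m]

omit [DecidableEq m] in
lemma asc {A B C : Matrix m m ℝ} (h : A * B = C) (X : Matrix m m ℝ) : A * (B * X) = C * X := by
  rw [← Matrix.mul_assoc, h]

omit [DecidableEq m] in
lemma asc3 {A B C D : Matrix m m ℝ} (h : A * B * C = D) (X : Matrix m m ℝ) :
    A * (B * (C * X)) = D * X := by
  rw [← h]
  simp only [Matrix.mul_assoc]

lemma pd_of_right_inv {A B : Matrix m m ℝ} (hA : A.PosSemidef) (h : A * B = 1) : A.PosDef :=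
  hA.posDef_iff_det_ne_zero.2 (Matrix.det_ne_zero_of_right_inverse h)

omit [DecidableEq m] in
lemma dot_conj (A B C : Matrix m m ℝ) (x y : m → ℝ) :
    (A *ᵥ x) ⬝ᵥ (C *ᵥ (B *ᵥ y)) = x ⬝ᵥ ((Aᵀ * C * B) *ᵥ y) := by
  rw [← mulVec_mulVec, ← mulVec_mulVec, dotProduct_mulVec x, vecMul_transpose]

def Unc (J G : Matrix m m ℝ) : Prop :=
  Gᵀ = G ∧ ∀ x y : m → ℝ, 0 ≤ x ⬝ᵥ (G *ᵥ x) + y ⬝ᵥ (G *ᵥ y) + 2 * (x ⬝ᵥ (J *ᵥ y))

lemma unc_pd {J G : Matrix m m ℝ} (hJJ : J * J = -1) (h : Unc J G) : G.PosDef := by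
  refine PosDef.of_dotProduct_mulVec_pos
    (by simpa [IsHermitian, conjTranspose_eq_transpose_of_trivial] using h.1) fun x hx => ?_
  have hx2 : 0 < x ⬝ᵥ x := by
    simpa using (PosDef.one (n := m) (R := ℝ)).dotProduct_mulVec_pos hx
  set c := (J *ᵥ x) ⬝ᵥ (G *ᵥ (J *ᵥ x)) with hc
  have hc0 : 0 ≤ c := by simpa [hc] using h.2 (J *ᵥ x) 0
  have h1 := h.2 x ((x ⬝ᵥ x / (c + 1)) • (J *ᵥ x))
  rw [mulVec_smul, mulVec_smul, smul_dotProduct, dotProduct_smul, dotProduct_smul,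
    mulVec_mulVec x J J, hJJ, neg_mulVec, one_mulVec, dotProduct_neg, ← hc] at h1
  simp only [smul_eq_mul, star_trivial] at h1 ⊢
  set t := x ⬝ᵥ x / (c + 1) with ht
  have ht0 : 0 < t := by positivity
  have h2 : t * (c + 1) = x ⬝ᵥ x := by
    rw [ht]
    field_simp
  nlinarith [mul_pos ht0 ht0, mul_pos ht0 hx2]

lemma pure_pd {J P : Matrix m m ℝ} (hJJ : J * J = -1) (hP : P.PosSemidef) (h : P * J * P = J) :
    P.PosDef := by
  refine pd_of_right_inv (B := -(J * P * J)) hP ?_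
  rw [Matrix.mul_neg, ← Matrix.mul_assoc, ← Matrix.mul_assoc, h, hJJ, neg_neg]

lemma pure_sqrt {J P : Matrix m m ℝ} (hJt : Jᵀ = -J) (hJJ : J * J = -1) (hP : P.PosSemidef)
    (h : P * J * P = J) : ∃ R : Matrix m m ℝ, R.PosSemidef ∧ R * R = P ∧ R * J * R = J := by
  obtain ⟨R, hR, hRR⟩ := exists_sqrt hP
  have hPd := pure_pd hJJ hP h
  have hRd : R.PosDef := pd_of_right_inv (B := R * P⁻¹) hR (by rw [asc hRR, pd_mul_inv hPd])
  have h1 := pd_mul_inv hRd
  have h2 := pd_inv_mul hRd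
  have h3 : R⁻¹ * R⁻¹ * J = J * P := by
    conv_lhs => rw [← h]
    nth_rewrite 1 [← hRR]
    simp only [Matrix.mul_assoc, asc h2, Matrix.one_mul]
  have h4 : Jᵀ * R⁻¹ * J = R := by
    refine sqrt_uniq (psd_conj hRd.inv.posSemidef J) hR ?_
    rw [hRR, hJt]
    simp only [Matrix.mul_assoc, Matrix.neg_mul, Matrix.mul_neg, asc hJJ, Matrix.one_mul, neg_neg]
    rw [← Matrix.mul_assoc R⁻¹, h3, asc hJJ]
    simp
  refine ⟨R, hR, hRR, ?_⟩
  nth_rewrite 2 [← h4]
  rw [hJt]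
  simp only [Matrix.mul_assoc, Matrix.neg_mul, Matrix.mul_neg, asc hJJ, Matrix.one_mul, neg_neg,
    asc h1]

lemma geo_mean {J G : Matrix m m ℝ} (hJt : Jᵀ = -J) (hJJ : J * J = -1) (hG : G.PosDef) :
    ∃ X : Matrix m m ℝ, X.PosSemidef ∧ X * J * X = J ∧ G * J * X = X * J * G := by
  obtain ⟨g, hg, hgg⟩ := exists_sqrt hG.posSemidef
  have hG1 := pd_mul_inv hG
  have hG2 := pd_inv_mul hG
  have hgd : g.PosDef := pd_of_right_inv (B := g * G⁻¹) hg (by rw [asc hgg, hG1])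
  have h1 := pd_mul_inv hgd
  have h2 := pd_inv_mul hgd
  have hgi : g⁻¹ᵀ = g⁻¹ := psd_symm hgd.inv.posSemidef
  have hGi : g * G⁻¹ * g = 1 := by
    rw [← hgg, Matrix.mul_inv_rev]
    simp only [Matrix.mul_assoc, asc h1, Matrix.one_mul, h2]
  obtain ⟨a, ha, haa⟩ := exists_sqrt (psd_conj (psd_conj hG.inv.posSemidef J) g⁻¹)
  rw [hgi, hJt] at haa
  have hX : (g * a * g).PosSemidef := by
    have := psd_conj ha g
    rwa [psd_symm hg] at this
  set X := g * a * g with hXdef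
  have hmain : X * G⁻¹ * X = -(J * G⁻¹ * J) := by
    rw [hXdef]
    simp only [Matrix.mul_assoc, asc3 hGi, Matrix.one_mul, asc haa, Matrix.neg_mul,
      Matrix.mul_neg, asc h1, h2, Matrix.mul_one]
  have hXd : X.PosDef := by
    refine pd_of_right_inv (B := G⁻¹ * X * -(J * G * J)) hX ?_
    simp only [Matrix.mul_assoc, asc3 hmain, Matrix.neg_mul, Matrix.mul_neg, asc hJJ,
      Matrix.one_mul, neg_neg, asc hG2, hJJ]
  have h3 := pd_mul_inv hXd
  have h4 := pd_inv_mul hXd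
  have hY : g⁻¹ᵀ * (Jᵀ * X⁻¹ * J) * g⁻¹ = a := by
    refine sqrt_uniq (psd_conj (psd_conj hXd.inv.posSemidef J) g⁻¹) ha ?_
    have hgg' : g⁻¹ * g⁻¹ = G⁻¹ := by rw [← hgg, Matrix.mul_inv_rev]
    have hm2 : J * G⁻¹ * J = -(X * G⁻¹ * X) := by rw [hmain, neg_neg]
    rw [haa, hgi, hJt]
    simp only [Matrix.mul_assoc, Matrix.neg_mul, Matrix.mul_neg, asc hgg', asc3 hm2, neg_neg,
      asc h3, asc h4, Matrix.one_mul]
  have hXJX : X * J * X = J := by
    have e : X = -(J * X⁻¹ * J) := by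
      conv_lhs => rw [hXdef, ← hY, hgi, hJt]
      simp only [Matrix.mul_assoc, Matrix.neg_mul, Matrix.mul_neg, asc h1, h2, Matrix.one_mul,
        Matrix.mul_one]
    nth_rewrite 2 [e]
    simp only [Matrix.mul_assoc, Matrix.neg_mul, Matrix.mul_neg, asc hJJ, Matrix.one_mul, neg_neg,
      asc h3]
  refine ⟨X, hX, hXJX, ?_⟩
  have e1 : -(X * J * G * J * X) * G⁻¹ * X = X := by
    simp only [Matrix.mul_assoc, Matrix.neg_mul]
    rw [← Matrix.mul_assoc X G⁻¹ X, hmain]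
    simp only [Matrix.mul_assoc, Matrix.neg_mul, Matrix.mul_neg, asc hJJ, Matrix.one_mul, neg_neg,
      asc hG1, hJJ, Matrix.mul_one]
  have e2 : -(X * J * G * J * X) = G := by
    have := congrArg (fun Y => Y * (X⁻¹ * G)) e1
    simpa only [Matrix.mul_assoc, asc h3, Matrix.one_mul, hG2, Matrix.mul_one] using this
  nth_rewrite 1 [← e2]
  simp only [Matrix.mul_assoc, Matrix.neg_mul]
  rw [← Matrix.mul_assoc X J X, hXJX, hJJ]
  simp

omit [Fintype m] in
lemma two_pd : ((2 : ℝ) • (1 : Matrix m m ℝ)).PosDef := PosDef.one.smul two_pos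

lemma two_inv : ((2 : ℝ) • (1 : Matrix m m ℝ))⁻¹ = (1 / 2 : ℝ) • (1 : Matrix m m ℝ) := by
  apply Matrix.inv_eq_left_inv
  simp [smul_smul]

lemma decomp {J G : Matrix m m ℝ} (hJt : Jᵀ = -J) (hJJ : J * J = -1) (h : Unc J G) :
    ∃ T M : Matrix m m ℝ, Tᵀ = T ∧ T * J * T = J ∧ M.PosSemidef ∧ M * J = J * M ∧
      (J * T * J * G * (J * T * J) - 1).PosSemidef ∧
      (1 - M * M) * (J * T * J * G * (J * T * J) + 1) = (2 : ℝ) • 1 := by
  have hG := unc_pd hJJ h
  obtain ⟨X, hX, hXJ, hc⟩ := geo_mean hJt hJJ hG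
  obtain ⟨T, hT, hTT, hTJ⟩ := pure_sqrt hJt hJJ hX hXJ
  have hTs := psd_symm hT
  set U := J * T * J with hU
  have hUs : Uᵀ = U := by
    rw [hU, transpose_mul, transpose_mul, hJt, hTs]
    simp [Matrix.mul_assoc]
  have hUT : U * T = -1 := by
    rw [hU, Matrix.mul_assoc, Matrix.mul_assoc, ← Matrix.mul_assoc T, hTJ, hJJ]
  have hTU : T * U = -1 := by
    rw [hU, ← Matrix.mul_assoc, ← Matrix.mul_assoc, hTJ, hJJ]
  have hUJ : U * J = -(J * T) := by
    rw [hU, Matrix.mul_assoc, hJJ]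
    simp
  have hJU : J * U = -(T * J) := by
    rw [hU, Matrix.mul_assoc, asc hJJ]
    simp
  set H := U * G * U with hH
  have hHJ : H * J = J * H := by
    have := congrArg (fun Y => U * Y * U) hc
    simp only [← hTT, Matrix.mul_assoc, hTU, asc hUT, Matrix.mul_neg, Matrix.neg_mul,
      Matrix.mul_one, Matrix.one_mul] at this
    simp only [hH, Matrix.mul_assoc, hUJ, asc hJU, Matrix.mul_neg, Matrix.neg_mul]
    exact this
  have hH1 : (H - 1).PosSemidef := by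
    refine PosSemidef.of_dotProduct_mulVec_nonneg ?_ fun x => ?_
    · simp [IsHermitian, conjTranspose_eq_transpose_of_trivial, hH, hUs, h.1, Matrix.mul_assoc]
    · have h1 := h.2 (U *ᵥ x) ((U * J) *ᵥ x)
      rw [dot_conj, dot_conj, dot_conj, transpose_mul U J, hUs, hJt] at h1
      have e1 : -J * U * G * (U * J) = H := by
        have : -J * U * G * (U * J) = -(J * (H * J)) := by
          simp only [hH, Matrix.mul_assoc, Matrix.neg_mul]
        rw [this, hHJ, asc hJJ]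
        simp
      have e2 : U * J * (U * J) = -1 := by
        rw [hUJ]
        simp only [Matrix.mul_neg, Matrix.neg_mul, neg_neg, Matrix.mul_assoc]
        rw [← Matrix.mul_assoc T J T, hTJ, hJJ]
      rw [e1, e2, ← hH, neg_mulVec, dotProduct_neg] at h1
      rw [star_trivial, sub_mulVec, dotProduct_sub]
      linarith
  have e3 : H + 1 - (2 : ℝ) • 1 = H - 1 := by module
  have hH2 : (H + 1).PosDef := by
    have := (two_pd (m := m)).add_posSemidef hH1
    rwa [← e3, add_sub_cancel] at this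
  have h5 := inv_anti (B := H + 1) two_pd (by rwa [e3])
  rw [two_inv] at h5
  have h6 := pd_mul_inv hH2
  have h7 := pd_inv_mul hH2
  set V := (H + 1)⁻¹ with hV
  have hVJ : V * J = J * V := by
    have e : (H + 1) * J = J * (H + 1) := by rw [Matrix.add_mul, Matrix.mul_add, hHJ]; simp
    calc V * J = V * (J * ((H + 1) * V)) := by rw [h6, Matrix.mul_one]
      _ = J * V := by rw [← Matrix.mul_assoc J, ← e, Matrix.mul_assoc, asc h7, Matrix.one_mul]
  obtain ⟨M, hM, hMM⟩ := exists_sqrt (h5.smul (zero_le_two (α := ℝ)))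
  have hMM' : M * M = 1 - (2 : ℝ) • V := by
    rw [hMM]
    module
  have hMJ : Jᵀ * M * J = M := by
    refine sqrt_uniq (psd_conj hM J) hM ?_
    rw [hJt]
    simp only [Matrix.mul_assoc, Matrix.neg_mul, Matrix.mul_neg, asc hJJ, Matrix.one_mul, neg_neg,
      asc hMM', hMM', Matrix.sub_mul, Matrix.mul_sub, Matrix.smul_mul, Matrix.mul_smul, hVJ, hJJ]
    module
  refine ⟨T, M, hTs, hTJ, hM, ?_, hH1, ?_⟩
  · conv_rhs => rw [← hMJ, hJt]
    simp only [Matrix.mul_assoc, Matrix.neg_mul, Matrix.mul_neg, asc hJJ, Matrix.one_mul, neg_neg]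
  · rw [hMM', sub_sub_cancel, Matrix.smul_mul, h7]

end Pool.Agent.H9.SQ
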