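import Pool.Agent.H9.SQ2

open Filter Topology Matrix

namespace Pool.Agent.H9.SQ

variable {m : Type} [Fintype m] [DecidableEq m]

lemma exists_contr {J M Z : Matrix m m ℝ} (hM : M.PosSemidef) (hMJ : M * J = J * M)
    (h1 : (M * M - Z).PosSemidef) (h2 : (M * M + Z).PosSemidef) (hZ : Z * J = -(J * Z)) :
    ∃ C : Matrix m m ℝ, (1 - C).PosSemidef ∧ (1 + C).PosSemidef ∧ C * J = -(J * C) ∧
      M * C * M = Z := by
  set N : ℕ → Matrix m m ℝ := fun k => M + (1 / ((k : ℝ) + 1)) • 1 with hN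
  have he : ∀ k : ℕ, (0 : ℝ) < 1 / ((k : ℝ) + 1) := fun k => by positivity
  have hNd : ∀ k, (N k).PosDef := fun k => PosDef.posSemidef_add hM (PosDef.one.smul (he k))
  have hNl : Tendsto N atTop (𝓝 M) := by
    have := ((tendsto_one_div_add_atTop_nhds_zero_nat (𝕜 := ℝ)).smul_const
      (1 : Matrix m m ℝ)).const_add M
    rw [zero_smul, add_zero] at this
    exact this
  have hNN : ∀ k, (N k * N k - M * M).PosSemidef := by
    intro k
    have e : N k * N k - M * M = (2 * (1 / ((k : ℝ) + 1))) • M +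
        ((1 / ((k : ℝ) + 1)) * (1 / ((k : ℝ) + 1))) • (1 : Matrix m m ℝ) := by
      simp only [hN, Matrix.add_mul, Matrix.mul_add, Matrix.smul_mul, Matrix.mul_smul,
        Matrix.one_mul, Matrix.mul_one]
      module
    rw [e]
    exact (hM.smul (by positivity)).add (PosSemidef.one.smul (by positivity))
  have hNJ : ∀ k, (N k)⁻¹ * J = J * (N k)⁻¹ := by
    intro k
    have e : N k * J = J * N k := by simp [hN, Matrix.add_mul, Matrix.mul_add, hMJ]
    calc (N k)⁻¹ * J = (N k)⁻¹ * (J * (N k * (N k)⁻¹)) := by rw [pd_mul_inv (hNd k), Matrix.mul_one]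
      _ = J * (N k)⁻¹ := by
        rw [← Matrix.mul_assoc J, ← e, Matrix.mul_assoc, asc (pd_inv_mul (hNd k)), Matrix.one_mul]
  have hp : ∀ k, (1 + (N k)⁻¹ * Z * (N k)⁻¹).PosSemidef := by
    intro k
    have := psd_conj ((hNN k).add h2) (N k)⁻¹
    rw [psd_symm (hNd k).inv.posSemidef] at this
    convert this using 1
    simp only [Matrix.add_mul, Matrix.mul_add, Matrix.sub_mul, Matrix.mul_sub, Matrix.mul_assoc,
      asc (pd_inv_mul (hNd k)), pd_mul_inv (hNd k), Matrix.one_mul]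
    abel
  have hm : ∀ k, (1 - (N k)⁻¹ * Z * (N k)⁻¹).PosSemidef := by
    intro k
    have := psd_conj ((hNN k).add h1) (N k)⁻¹
    rw [psd_symm (hNd k).inv.posSemidef] at this
    convert this using 1
    simp only [Matrix.add_mul, Matrix.mul_add, Matrix.sub_mul, Matrix.mul_sub, Matrix.mul_assoc,
      asc (pd_inv_mul (hNd k)), pd_mul_inv (hNd k), Matrix.one_mul]
    abel
  choose B hB hBB using fun k => exists_sqrt (hp k)
  have hC : ∀ k, (N k)⁻¹ * Z * (N k)⁻¹ = B k * B k - 1 := fun k => by rw [hBB]; abel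
  have hb : ∀ k i j, |B k i j| ≤ 3 := by
    intro k i j
    have := entry_bound (S := B k) (G := (2 : ℝ) • 1) (by
      rw [psd_symm (hB k), hBB]
      convert hm k using 1
      module) i j
    simp only [Matrix.smul_apply, one_apply_eq, smul_eq_mul] at this
    linarith
  obtain ⟨φ, B', -, -, hφ, hl, -, -⟩ := subseq3 B B B 3 hb hb hb
  have hCl : Tendsto (fun k => (N (φ k))⁻¹ * Z * (N (φ k))⁻¹) atTop (𝓝 (B' * B' - 1)) := by
    simp only [hC]
    exact (hl.mul hl).sub_const 1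
  refine ⟨B' * B' - 1, psd_limit (fun k => hm (φ k)) (hCl.const_sub 1),
    psd_limit (fun k => hp (φ k)) (hCl.const_add 1), ?_, ?_⟩
  · refine tendsto_nhds_unique (hCl.mul_const J) ((hCl.const_mul J).neg.congr fun k => ?_)
    simp only [Matrix.mul_assoc, hNJ, asc hZ, Matrix.neg_mul, Matrix.mul_neg, asc (hNJ _)]
  · have hN' := hNl.comp hφ.tendsto_atTop
    refine tendsto_nhds_unique ((hN'.mul hCl).mul hN') (tendsto_const_nhds.congr fun k => ?_)
    simp only [Function.comp, Matrix.mul_assoc, asc (pd_mul_inv (hNd _)), pd_inv_mul (hNd _),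
      Matrix.one_mul, Matrix.mul_one]

lemma one_sub_sq {M H : Matrix m m ℝ} (hH : (H - 1).PosSemidef)
    (h : (1 - M * M) * (H + 1) = (2 : ℝ) • 1) :
    (H + 1).PosDef ∧ M * M = 1 - (2 : ℝ) • (H + 1)⁻¹ := by
  have e3 : H + 1 - (2 : ℝ) • 1 = H - 1 := by module
  have hH2 : (H + 1).PosDef := by
    have := (two_pd (m := m)).add_posSemidef hH
    rwa [← e3, add_sub_cancel] at this
  refine ⟨hH2, ?_⟩
  have := congrArg (fun Y => Y * (H + 1)⁻¹) h
  simp only [Matrix.mul_assoc, pd_mul_inv hH2, Matrix.mul_one, Matrix.smul_mul,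
    Matrix.one_mul] at this
  rw [← this, sub_sub_cancel]

lemma approx {J M H P : Matrix m m ℝ} {Mk Hk : ℕ → Matrix m m ℝ} (hJt : Jᵀ = -J)
    (hJJ : J * J = -1) (hMk : ∀ k, (Mk k).PosSemidef) (hMJ : ∀ k, Mk k * J = J * Mk k)
    (hHk : ∀ k, (Hk k - 1).PosSemidef)
    (hr : ∀ k, (1 - Mk k * Mk k) * (Hk k + 1) = (2 : ℝ) • 1)
    (hMl : Tendsto Mk atTop (𝓝 M)) (hHl : Tendsto Hk atTop (𝓝 H))
    (hP : P.PosSemidef) (hPJ : P * J * P = J) (hHP : (H - P).PosSemidef) :
    ∃ Pk : ℕ → Matrix m m ℝ, (∀ k, (Pk k).PosSemidef ∧ Pk k * J * Pk k = J ∧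
      (Hk k - Pk k).PosSemidef) ∧ Tendsto Pk atTop (𝓝 P) := by
  have hM := psd_limit hMk hMl
  have hMJ' : M * J = J * M :=
    tendsto_nhds_unique (hMl.mul_const J) ((hMl.const_mul J).congr fun k => (hMJ k).symm)
  have hH := psd_limit hHk (hHl.sub_const 1)
  have hr' : (1 - M * M) * (H + 1) = (2 : ℝ) • 1 :=
    tendsto_nhds_unique (((hMl.mul hMl).const_sub 1).mul (hHl.add_const 1))
      (tendsto_const_nhds.congr fun k => (hr k).symm)
  obtain ⟨hH2, hMM⟩ := one_sub_sq hH hr'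
  have hP1 : (P + 1).PosDef := PosDef.posSemidef_add hP PosDef.one
  have w1 := pd_mul_inv hP1
  have w2 := pd_inv_mul hP1
  have hle := inv_anti (B := H + 1) hP1 (by rwa [add_sub_add_right_eq_sub])
  set W := (P + 1)⁻¹ with hW
  have hWJ : W * J + J * W = J := by
    have e : (P + 1) * J * (P + 1) = J * (P + 1) + (P + 1) * J := by
      simp only [Matrix.add_mul, Matrix.mul_add, hPJ, Matrix.one_mul, Matrix.mul_one]
      abel
    have := congrArg (fun Y => W * Y * W) e
    simpa only [Matrix.mul_assoc, asc w2, w1, Matrix.one_mul, Matrix.mul_one,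
      Matrix.mul_add W (J * (P + 1)), Matrix.add_mul (W * (J * (P + 1))), eq_comm] using this
  have hZ : (1 - (2 : ℝ) • W) * J = -(J * (1 - (2 : ℝ) • W)) := by
    have e : W * J = J - J * W := eq_sub_of_add_eq hWJ
    simp only [Matrix.sub_mul, Matrix.mul_sub, Matrix.smul_mul, Matrix.mul_smul, e,
      Matrix.one_mul, Matrix.mul_one]
    module
  have h1 : (M * M - (1 - (2 : ℝ) • W)).PosSemidef := by
    convert hle.smul (zero_le_two (α := ℝ)) using 1
    rw [hMM]
    module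
  have h2 : (M * M + (1 - (2 : ℝ) • W)).PosSemidef := by
    convert psd_conj h1 J using 1
    rw [hJt, Matrix.mul_assoc, Matrix.sub_mul, hZ]
    simp only [Matrix.mul_assoc, hMJ', asc hMJ', Matrix.neg_mul, sub_neg_eq_add,
      Matrix.mul_add, asc hJJ, Matrix.one_mul]
    abel
  obtain ⟨C, hC1, hC2, hCJ, hCZ⟩ := exists_contr hM hMJ' h1 h2 hZ
  have hZl : Tendsto (fun k => 1 - Mk k * C * Mk k) atTop (𝓝 ((2 : ℝ) • W)) := by
    have := ((hMl.mul_const C).mul hMl).const_sub 1
    rwa [hCZ, sub_sub_cancel] at this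
  have hWd : ((2 : ℝ) • W).PosDef := hP1.inv.smul two_pos
  have hinv : ((2 : ℝ) • W)⁻¹ = (1 / 2 : ℝ) • (P + 1) := by
    apply Matrix.inv_eq_left_inv
    rw [Matrix.smul_mul, Matrix.mul_smul, w1, smul_smul]
    simp
  refine ⟨fun k => (2 : ℝ) • (1 - Mk k * C * Mk k)⁻¹ - 1, fun k => ?_, ?_⟩
  · obtain ⟨g1, g2⟩ := one_sub_sq (hHk k) (hr k)
    have gd : ((2 : ℝ) • (Hk k + 1)⁻¹).PosDef := g1.inv.smul two_pos
    have ginv : ((2 : ℝ) • (Hk k + 1)⁻¹)⁻¹ = (1 / 2 : ℝ) • (Hk k + 1) := by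
      apply Matrix.inv_eq_left_inv
      rw [Matrix.smul_mul, Matrix.mul_smul, pd_mul_inv g1, smul_smul]
      simp
    have a1 := psd_conj hC1 (Mk k)
    have a2 := psd_conj hC2 (Mk k)
    rw [psd_symm (hMk k)] at a1 a2
    have b1 : (1 - Mk k * C * Mk k - (2 : ℝ) • (Hk k + 1)⁻¹).PosSemidef := by
      convert a1 using 1
      rw [Matrix.mul_sub, Matrix.sub_mul, Matrix.mul_one, g2]
      abel
    have bd : (1 - Mk k * C * Mk k).PosDef := by simpa using gd.add_posSemidef b1
    have b2 : ((2 : ℝ) • 1 - (1 - Mk k * C * Mk k)).PosSemidef := by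
      convert a2.add gd.posSemidef using 1
      rw [Matrix.mul_add, Matrix.add_mul, Matrix.mul_one, g2]
      module
    have c1 := inv_anti gd b1
    have c2 := inv_anti bd b2
    rw [ginv] at c1
    rw [two_inv] at c2
    have y1 := pd_mul_inv bd
    have y2 := pd_inv_mul bd
    have hz : (1 - Mk k * C * Mk k) * J + J * (1 - Mk k * C * Mk k) = (2 : ℝ) • J := by
      simp only [Matrix.sub_mul, Matrix.mul_sub, Matrix.one_mul, Matrix.mul_one, Matrix.mul_assoc,
        hMJ k, asc hCJ, Matrix.neg_mul, Matrix.mul_neg, asc (hMJ k)]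
      module
    set D := 1 - Mk k * C * Mk k
    set Y := D⁻¹
    refine ⟨?_, ?_, ?_⟩
    · convert c2.smul (zero_le_two (α := ℝ)) using 1
      module
    · have := congrArg (fun X => Y * X * Y) hz
      simp only [Matrix.mul_add, Matrix.add_mul, Matrix.mul_assoc, asc y2, y1, Matrix.one_mul,
        Matrix.mul_one, Matrix.smul_mul, Matrix.mul_smul] at this
      change ((2 : ℝ) • Y - 1) * J * ((2 : ℝ) • Y - 1) = J
      simp only [Matrix.sub_mul, Matrix.mul_sub, Matrix.smul_mul, Matrix.mul_smul,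
        Matrix.one_mul, Matrix.mul_one, Matrix.mul_assoc]
      linear_combination (norm := module) (-2 : ℝ) • this
    · convert c1.smul (zero_le_two (α := ℝ)) using 1
      module
  · have := ((inv_tendsto hWd.det_pos.ne' hZl).const_smul (2 : ℝ)).sub_const 1
    rw [hinv] at this
    convert this using 2
    module

end Pool.Agent.H9.SQ
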