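import Pool.Agent.H9.SQ3

open Filter Topology Matrix

namespace Pool.Agent.H9.SQ

variable {m : Type} [Fintype m] [DecidableEq m]

lemma spec {A : Matrix m m ℝ} (h : Aᵀ = A) :
    ∃ (U : Matrix m m ℝ) (d : m → ℝ), Uᵀ * U = 1 ∧ U * Uᵀ = 1 ∧ A = U * diagonal d * Uᵀ := by
  have hA : A.IsHermitian := by simpa [IsHermitian, conjTranspose_eq_transpose_of_trivial] using h
  refine ⟨hA.eigenvectorUnitary, hA.eigenvalues, ?_, ?_, ?_⟩
  · simpa [star_eq_conjTranspose, conjTranspose_eq_transpose_of_trivial] using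
      (Unitary.coe_star_mul_self hA.eigenvectorUnitary)
  · simpa [star_eq_conjTranspose, conjTranspose_eq_transpose_of_trivial] using
      (Unitary.coe_mul_star_self hA.eigenvectorUnitary)
  · have := hA.spectral_theorem
    rw [Unitary.conjStarAlgAut_apply] at this
    simpa [star_eq_conjTranspose, conjTranspose_eq_transpose_of_trivial] using this

open Polynomial in
lemma roots_diag {U : Matrix m m ℝ} (hU : Uᵀ * U = 1) (d : m → ℝ) :
    (U * diagonal d * Uᵀ).charpoly.roots = Finset.univ.val.map d := by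
  rw [charpoly_mul_comm, asc hU, Matrix.one_mul, charpoly_diagonal, Polynomial.roots_prod]
  · simp
  · simp [Finset.prod_ne_zero_iff, Polynomial.X_sub_C_ne_zero]

noncomputable def val (P : Matrix m m ℝ) : ℝ :=
  (P.charpoly.roots.map fun x => max 0 (Real.log x) / 2).sum

lemma val_diag {U : Matrix m m ℝ} (hU : Uᵀ * U = 1) (d : m → ℝ) :
    val (U * diagonal d * Uᵀ) = ∑ j, max 0 (Real.log (d j)) / 2 := by
  rw [val, roots_diag hU, Multiset.map_map]
  rfl

lemma val_nonneg (P : Matrix m m ℝ) : 0 ≤ val P :=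
  Multiset.sum_nonneg fun x hx => by
    obtain ⟨y, -, rfl⟩ := Multiset.mem_map.1 hx
    positivity

lemma dpos {U : Matrix m m ℝ} (hU : Uᵀ * U = 1) {d : m → ℝ} (h : (U * diagonal d * Uᵀ).PosDef)
    (j : m) : 0 < d j := by
  have hi : Function.Injective U.mulVec := by
    intro x y hxy
    have := congrArg (fun v => Uᵀ *ᵥ v) hxy
    simpa [mulVec_mulVec, hU] using this
  have h1 := h.conjTranspose_mul_mul_same hi
  rw [conjTranspose_eq_transpose_of_trivial] at h1
  simp only [Matrix.mul_assoc, hU, asc hU, Matrix.mul_one, Matrix.one_mul] at h1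
  simpa using h1.diag_pos (i := j)

noncomputable def fc (x : ℝ) : ℝ := max 0 (Real.log ((1 + x) / (1 - x))) / 2

lemma fc_convex : ConvexOn ℝ (Set.Ioo (-1) 1) fc := by
  have hd : ∀ x ∈ Set.Ico (0 : ℝ) 1, HasDerivAt (fun x => Real.log (1 + x) - Real.log (1 - x))
      (2 / (1 - x ^ 2)) x := by
    intro x hx
    have a1 : 1 + x ≠ 0 := by linarith [hx.1]
    have a2 : 1 - x ≠ 0 := by linarith [hx.2]
    have a3 : 1 - x ^ 2 ≠ 0 := by nlinarith [hx.1, hx.2]
    refine ((((hasDerivAt_id x).const_add 1).log a1).sub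
      (((hasDerivAt_id x).const_sub 1).log a2)).congr_deriv ?_
    simp only [id]
    field_simp
    ring
  have hg : ConvexOn ℝ (Set.Ico (0 : ℝ) 1) fun x => Real.log (1 + x) - Real.log (1 - x) := by
    refine MonotoneOn.convexOn_of_deriv (convex_Ico 0 1)
      (fun x hx => (hd x hx).continuousAt.continuousWithinAt)
      (fun x hx => (hd x (interior_subset hx)).differentiableAt.differentiableWithinAt) ?_
    intro x hx y hy hxy
    have hx' := interior_subset hx
    have hy' := interior_subset hy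
    rw [(hd x hx').deriv, (hd y hy').deriv]
    apply div_le_div_of_nonneg_left (by norm_num) (by nlinarith [hy'.1, hy'.2])
    nlinarith [hx'.1]
  have hm : MonotoneOn (fun x => Real.log (1 + x) - Real.log (1 - x)) (Set.Ico (0 : ℝ) 1) := by
    intro x hx y hy hxy
    have h1 := Real.log_le_log (by linarith [hx.1] : 0 < 1 + x) (by linarith : 1 + x ≤ 1 + y)
    have h2 := Real.log_le_log (by linarith [hy.2] : 0 < 1 - y) (by linarith : 1 - y ≤ 1 - x)
    simp only
    linarith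
  have he : ∀ x ∈ Set.Ioo (-1 : ℝ) 1,
      fc x = (Real.log (1 + max x 0) - Real.log (1 - max x 0)) / 2 := by
    intro x hx
    have a1 : 0 < 1 + x := by linarith [hx.1]
    have a2 : 0 < 1 - x := by linarith [hx.2]
    rw [fc, Real.log_div a1.ne' a2.ne']
    rcases le_total x 0 with h | h
    · rw [max_eq_right h, max_eq_left (sub_nonpos.2 (Real.log_le_log a1 (by linarith)))]
      simp
    · rw [max_eq_left h, max_eq_right (sub_nonneg.2 (Real.log_le_log a2 (by linarith)))]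
  refine ⟨convex_Ioo _ _, fun x hx y hy a b ha hb hab => ?_⟩
  have hxy := convex_Ioo (-1 : ℝ) 1 hx hy ha hb hab
  have mx : ∀ x ∈ Set.Ioo (-1 : ℝ) 1, max x 0 ∈ Set.Ico (0 : ℝ) 1 := fun x hx =>
    ⟨le_max_right _ _, max_lt hx.2 one_pos⟩
  have h1 := hg.2 (mx x hx) (mx y hy) ha hb hab
  have h2 := hm (mx _ hxy) (hg.1 (mx x hx) (mx y hy) ha hb hab) (by
    simp only [smul_eq_mul]
    apply max_le
    · nlinarith [le_max_left x 0, le_max_left y 0]
    · nlinarith [le_max_right x 0, le_max_right y 0])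
  rw [he _ hxy, he x hx, he y hy]
  simp only [smul_eq_mul] at h1 h2 ⊢
  linarith

lemma peierls {U V : Matrix m m ℝ} (hU : U * Uᵀ = 1) (hU' : Uᵀ * U = 1) (hV : V * Vᵀ = 1)
    (hV' : Vᵀ * V = 1) {d : m → ℝ} (hd : ∀ j, d j ∈ Set.Ioo (-1 : ℝ) 1) :
    ∑ j, fc ((Vᵀ * (U * diagonal d * Uᵀ) * V) j j) ≤ ∑ j, fc (d j) := by
  set W := Uᵀ * V with hW
  have e : Vᵀ * (U * diagonal d * Uᵀ) * V = Wᵀ * diagonal d * W := by
    simp [hW, Matrix.mul_assoc]
  have w1 : Wᵀ * W = 1 := by simp [hW, Matrix.mul_assoc, asc hU, hV']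
  have w2 : W * Wᵀ = 1 := by simp [hW, Matrix.mul_assoc, asc hV, hU']
  have r1 : ∀ j, ∑ i, W i j * W i j = 1 := fun j => by
    simpa [Matrix.mul_apply] using congrFun (congrFun w1 j) j
  have r2 : ∀ i, ∑ j, W i j * W i j = 1 := fun i => by
    simpa [Matrix.mul_apply] using congrFun (congrFun w2 i) i
  have h1 : ∀ j, fc ((Wᵀ * diagonal d * W) j j) ≤ ∑ i, W i j * W i j * fc (d i) := by
    intro j
    have := fc_convex.map_sum_le (t := Finset.univ) (w := fun i => W i j * W i j) (p := d)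
      (fun i _ => mul_self_nonneg _) (r1 j) fun i _ => hd i
    simp only [smul_eq_mul] at this
    refine le_of_eq_of_le (congrArg fc ?_) this
    rw [Matrix.mul_apply]
    refine Finset.sum_congr rfl fun i _ => ?_
    rw [mul_diagonal, transpose_apply]
    ring
  rw [e]
  refine (Finset.sum_le_sum fun j _ => h1 j).trans_eq ?_
  rw [Finset.sum_comm]
  refine Finset.sum_congr rfl fun i _ => ?_
  rw [← Finset.sum_mul, r2, one_mul]

lemma cay_val {U : Matrix m m ℝ} (hU : U * Uᵀ = 1) (hU' : Uᵀ * U = 1) {d : m → ℝ}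
    (hd : ∀ j, d j ∈ Set.Ioo (-1 : ℝ) 1) :
    val ((2 : ℝ) • (1 - U * diagonal d * Uᵀ)⁻¹ - 1) = ∑ j, fc (d j) := by
  have one : ∀ c : ℝ, c • (1 : Matrix m m ℝ) = U * diagonal (fun _ => c) * Uᵀ := by
    intro c
    rw [← smul_one_eq_diagonal, Matrix.mul_smul, Matrix.smul_mul, Matrix.mul_one, hU]
  have e1 : 1 - U * diagonal d * Uᵀ = U * diagonal (fun j => 1 - d j) * Uᵀ := by
    rw [← one_smul ℝ (1 : Matrix m m ℝ), one, ← Matrix.sub_mul, ← Matrix.mul_sub, diagonal_sub]
  have e2 : (1 - U * diagonal d * Uᵀ)⁻¹ = U * diagonal (fun j => (1 - d j)⁻¹) * Uᵀ := by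
    apply Matrix.inv_eq_left_inv
    rw [e1]
    simp only [Matrix.mul_assoc, asc hU', Matrix.one_mul]
    rw [← Matrix.mul_assoc (diagonal _), diagonal_mul_diagonal]
    have : (fun j => (1 - d j)⁻¹ * (1 - d j)) = fun _ => (1 : ℝ) := by
      funext j
      exact inv_mul_cancel₀ (by linarith [(hd j).2])
    rw [this, diagonal_one, Matrix.one_mul, hU]
  have e3 : (2 : ℝ) • (1 - U * diagonal d * Uᵀ)⁻¹ - 1 =
      U * diagonal (fun j => (1 + d j) / (1 - d j)) * Uᵀ := by
    rw [e2, ← Matrix.smul_mul, ← Matrix.mul_smul, ← one_smul ℝ (1 : Matrix m m ℝ), one,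
      ← Matrix.sub_mul, ← Matrix.mul_sub, ← diagonal_smul, diagonal_sub]
    congr 3
    funext j
    have : 1 - d j ≠ 0 := by linarith [(hd j).2]
    simp only [Pi.smul_apply, smul_eq_mul]
    field_simp
    ring
  rw [e3, val_diag hU']
  rfl

lemma spec_cay {Z : Matrix m m ℝ} (h1 : (1 - Z).PosDef) (h2 : (1 + Z).PosDef) :
    ∃ (U : Matrix m m ℝ) (d : m → ℝ), Uᵀ * U = 1 ∧ U * Uᵀ = 1 ∧ Z = U * diagonal d * Uᵀ ∧
      ∀ j, d j ∈ Set.Ioo (-1 : ℝ) 1 := by
  have hs : Zᵀ = Z := by simpa using psd_symm h2.posSemidef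
  obtain ⟨U, d, hU', hU, rfl⟩ := spec hs
  have one : (1 : Matrix m m ℝ) = U * diagonal (fun _ => 1) * Uᵀ := by simp [hU]
  rw [one, ← Matrix.sub_mul, ← Matrix.mul_sub, diagonal_sub] at h1
  rw [one, ← Matrix.add_mul, ← Matrix.mul_add, diagonal_add] at h2
  refine ⟨U, d, hU', hU, rfl, fun j => ⟨?_, ?_⟩⟩
  · linarith [dpos hU' h2 j]
  · linarith [dpos hU' h1 j]

lemma cay_pure {J Z g : Matrix m m ℝ} (hg : (g + 1).PosDef) (hZ : Z * J = -(J * Z))
    (b1 : (1 - Z - (2 : ℝ) • (g + 1)⁻¹).PosSemidef) (h2 : (1 + Z).PosSemidef) :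
    ((2 : ℝ) • (1 - Z)⁻¹ - 1).PosSemidef ∧
      ((2 : ℝ) • (1 - Z)⁻¹ - 1) * J * ((2 : ℝ) • (1 - Z)⁻¹ - 1) = J ∧
      (g - ((2 : ℝ) • (1 - Z)⁻¹ - 1)).PosSemidef := by
  have gd : ((2 : ℝ) • (g + 1)⁻¹).PosDef := hg.inv.smul two_pos
  have ginv : ((2 : ℝ) • (g + 1)⁻¹)⁻¹ = (1 / 2 : ℝ) • (g + 1) := by
    apply Matrix.inv_eq_left_inv
    rw [Matrix.smul_mul, Matrix.mul_smul, pd_mul_inv hg, smul_smul]
    simp
  have bd : (1 - Z).PosDef := by simpa using gd.add_posSemidef b1
  have b2 : ((2 : ℝ) • 1 - (1 - Z)).PosSemidef := by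
    convert h2 using 1
    module
  have c1 := inv_anti gd b1
  have c2 := inv_anti bd b2
  rw [ginv] at c1
  rw [two_inv] at c2
  have y1 := pd_mul_inv bd
  have y2 := pd_inv_mul bd
  have hz : (1 - Z) * J + J * (1 - Z) = (2 : ℝ) • J := by
    simp only [Matrix.sub_mul, Matrix.mul_sub, Matrix.one_mul, Matrix.mul_one, hZ]
    module
  set D := 1 - Z
  set Y := D⁻¹
  refine ⟨?_, ?_, ?_⟩
  · convert c2.smul (zero_le_two (α := ℝ)) using 1
    module
  · have := congrArg (fun X => Y * X * Y) hz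
    simp only [Matrix.mul_add, Matrix.add_mul, Matrix.mul_assoc, asc y2, y1, Matrix.one_mul,
      Matrix.mul_one, Matrix.smul_mul, Matrix.mul_smul] at this
    simp only [Matrix.sub_mul, Matrix.mul_sub, Matrix.smul_mul, Matrix.mul_smul,
      Matrix.one_mul, Matrix.mul_one, Matrix.mul_assoc]
    linear_combination (norm := module) (-2 : ℝ) • this
  · convert c1.smul (zero_le_two (α := ℝ)) using 1
    module

lemma pure_cay {J P g : Matrix m m ℝ} (hJt : Jᵀ = -J) (hJJ : J * J = -1) (hP : P.PosSemidef)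
    (hPJ : P * J * P = J) (hgP : (g - P).PosSemidef) :
    ∃ Z : Matrix m m ℝ, Z * J = -(J * Z) ∧ (1 - Z - (2 : ℝ) • (g + 1)⁻¹).PosSemidef ∧
      (1 - Z).PosDef ∧ (1 + Z).PosDef ∧ (2 : ℝ) • (1 - Z)⁻¹ - 1 = P := by
  have hP1 : (P + 1).PosDef := PosDef.posSemidef_add hP PosDef.one
  have w1 := pd_mul_inv hP1
  have w2 := pd_inv_mul hP1
  have hle := inv_anti (B := g + 1) hP1 (by rwa [add_sub_add_right_eq_sub])
  have hWd : ((2 : ℝ) • (P + 1)⁻¹).PosDef := hP1.inv.smul two_pos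
  set W := (P + 1)⁻¹ with hW
  have hWJ : W * J + J * W = J := by
    have e : (P + 1) * J * (P + 1) = J * (P + 1) + (P + 1) * J := by
      simp only [Matrix.add_mul, Matrix.mul_add, hPJ, Matrix.one_mul, Matrix.mul_one]
      abel
    have := congrArg (fun Y => W * Y * W) e
    simpa only [Matrix.mul_assoc, asc w2, w1, Matrix.one_mul, Matrix.mul_one,
      Matrix.mul_add W (J * (P + 1)), Matrix.add_mul (W * (J * (P + 1))), eq_comm] using this
  have e : W * J = J - J * W := eq_sub_of_add_eq hWJ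
  have hinv : ((2 : ℝ) • W)⁻¹ = (1 / 2 : ℝ) • (P + 1) := by
    apply Matrix.inv_eq_left_inv
    rw [Matrix.smul_mul, Matrix.mul_smul, w1, smul_smul]
    simp
  refine ⟨1 - (2 : ℝ) • W, ?_, ?_, by rwa [sub_sub_cancel], ?_, ?_⟩
  · simp only [Matrix.sub_mul, Matrix.mul_sub, Matrix.smul_mul, Matrix.mul_smul, e,
      Matrix.one_mul, Matrix.mul_one]
    module
  · convert hle.smul (zero_le_two (α := ℝ)) using 1
    module
  · have hi : Function.Injective J.mulVec := by
      intro x y hxy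
      have := congrArg (fun v => J *ᵥ v) hxy
      simpa [mulVec_mulVec, hJJ, neg_mulVec] using this
    have := hWd.conjTranspose_mul_mul_same hi
    rw [conjTranspose_eq_transpose_of_trivial, hJt] at this
    convert this using 1
    simp only [Matrix.mul_assoc, Matrix.neg_mul, Matrix.smul_mul, Matrix.mul_smul, e,
      Matrix.mul_sub, asc hJJ, hJJ, Matrix.one_mul]
    module
  · rw [sub_sub_cancel, hinv]
    module

end Pool.Agent.H9.SQ
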