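import Pool.Agent.H9.SQ4

open Filter Topology Matrix

namespace Pool.Agent.H9.SQ

variable {m : Type} [Fintype m] [DecidableEq m]

lemma pairing {J P : Matrix m m ℝ} (hJJ : J * J = -1) (hP : P.PosSemidef) (h : P * J * P = J)
    {n : ℕ} (hn : Fintype.card m = n * 2) (hH : P.IsHermitian) :
    ∑ i : Fin (Fintype.card m) with i.val < n, Real.log (√(hH.eigenvalues₀ i)) = val P := by
  have hPd := pure_pd hJJ hP h
  have hpos : ∀ i, 0 < hH.eigenvalues₀ i := by
    intro i
    obtain ⟨j, hj⟩ := ev_mem hH i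
    rw [hj]
    exact hPd.eigenvalues_pos j
  have hR : P.charpoly.roots = Finset.univ.val.map hH.eigenvalues₀ := by
    simpa using hH.roots_charpoly_eq_eigenvalues₀
  have hinv : P.charpoly.roots.map (fun x => x⁻¹) = P.charpoly.roots := by
    obtain ⟨U, d, hU', hU, hd⟩ := spec (psd_symm hP)
    have hd0 := dpos hU' (hd ▸ hPd)
    have e1 : P⁻¹ = U * diagonal (fun j => (d j)⁻¹) * Uᵀ := by
      apply Matrix.inv_eq_left_inv
      rw [hd]
      simp only [Matrix.mul_assoc, asc hU', Matrix.one_mul]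
      rw [← Matrix.mul_assoc (diagonal _), diagonal_mul_diagonal]
      have : (fun j => (d j)⁻¹ * d j) = fun _ => (1 : ℝ) := by
        funext j
        exact inv_mul_cancel₀ (hd0 j).ne'
      rw [this, diagonal_one, Matrix.one_mul, hU]
    have e2 : P⁻¹ = -J * P * J := by
      apply Matrix.inv_eq_left_inv
      simp only [Matrix.mul_assoc, Matrix.neg_mul]
      rw [← Matrix.mul_assoc P, h, hJJ, neg_neg]
    have e3 : P⁻¹.charpoly = P.charpoly := by
      rw [e2, charpoly_mul_comm, Matrix.neg_mul, Matrix.mul_neg, asc hJJ]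
      simp
    conv_rhs => rw [← e3, e1, roots_diag hU']
    rw [hd, roots_diag hU', Multiset.map_map]
    rfl
  set ev := hH.eigenvalues₀ with hev
  have hc : (Finset.univ.filter fun i => ev i < 1).card =
      (Finset.univ.filter fun i => 1 < ev i).card := by
    have := congrArg (Multiset.countP fun x : ℝ => 1 < x) hinv
    rw [hR, Multiset.map_map, Multiset.countP_map, Multiset.countP_map] at this
    have e : (Finset.univ.filter fun i => ev i < 1) =
        (Finset.univ.filter fun i => 1 < (ev i)⁻¹) :=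
      Finset.filter_congr fun i _ => (one_lt_inv₀ (hpos i)).symm
    rw [e]
    exact this
  have hd : (Finset.univ.filter fun i => ev i < 1).card +
      (Finset.univ.filter fun i => 1 < ev i).card ≤ n * 2 := by
    rw [← Finset.card_union_of_disjoint (Finset.disjoint_filter.2 fun i _ h1 h2 => lt_asymm h1 h2),
      ← hn]
    exact (Finset.card_le_univ _).trans_eq (Fintype.card_fin _)
  have ha : Antitone ev := hH.eigenvalues₀_antitone
  have h1 : ∀ i : Fin (Fintype.card m), i.val < n → 1 ≤ ev i := by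
    intro i hi
    by_contra hlt
    push Not at hlt
    have : Finset.Ici i ⊆ Finset.univ.filter fun i => ev i < 1 := fun j hj =>
      Finset.mem_filter.2 ⟨Finset.mem_univ _, (ha (Finset.mem_Ici.1 hj)).trans_lt hlt⟩
    have := Finset.card_le_card this
    rw [Fin.card_Ici] at this
    omega
  have h2 : ∀ i : Fin (Fintype.card m), ¬ i.val < n → ev i ≤ 1 := by
    intro i hi
    by_contra hlt
    push Not at hlt
    have : Finset.Iic i ⊆ Finset.univ.filter fun i => 1 < ev i := fun j hj =>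
      Finset.mem_filter.2 ⟨Finset.mem_univ _, hlt.trans_le (ha (Finset.mem_Iic.1 hj))⟩
    have := Finset.card_le_card this
    rw [Fin.card_Iic] at this
    omega
  rw [val, hR, Multiset.map_map, Finset.sum_filter]
  refine Finset.sum_congr rfl fun i _ => ?_
  simp only [Function.comp]
  split_ifs with hi
  · rw [Real.log_sqrt (hpos i).le, max_eq_right (Real.log_nonneg (h1 i hi))]
  · rw [max_eq_left (Real.log_nonpos (hpos i).le (h2 i hi)), zero_div]

def PS (J g : Matrix m m ℝ) : Set ℝ :=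
  {r | ∃ P : Matrix m m ℝ, P.PosSemidef ∧ P * J * P = J ∧ (g - P).PosSemidef ∧ r = val P}

lemma PS_bdd (J g : Matrix m m ℝ) : BddBelow (PS J g) :=
  ⟨0, by rintro _ ⟨P, -, -, -, rfl⟩; exact val_nonneg P⟩

lemma PS_ne {J g : Matrix m m ℝ} (hJt : Jᵀ = -J) (hJJ : J * J = -1) (h : Unc J g) :
    (PS J g).Nonempty := by
  obtain ⟨T, M, h1, hT, -, -, h5, -⟩ := decomp hJt hJJ h
  have e : T * (J * T * J * g * (J * T * J)) * T = g := by
    simp only [Matrix.mul_assoc, asc3 hT, asc hJJ, Matrix.neg_mul, Matrix.one_mul]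
    rw [← Matrix.mul_assoc T J T, hT, hJJ]
    simp
  have := psd_conj h5 T
  rw [h1, Matrix.mul_sub, Matrix.sub_mul, e, Matrix.mul_one] at this
  refine ⟨_, T * T, by simpa only [h1] using psd_tmul T, ?_, this, rfl⟩
  simp only [Matrix.mul_assoc, asc3 hT]
  rw [← Matrix.mul_assoc, hT]

lemma symp_tr {J S : Matrix m m ℝ} (hJJ : J * J = -1) (v1 : Sᵀ * J * S = J) : S * J * Sᵀ = J := by
  have a1 : -(J * Sᵀ * J) * S = 1 := by
    simp only [Matrix.neg_mul, Matrix.mul_assoc]
    rw [← Matrix.mul_assoc Sᵀ, v1, hJJ, neg_neg]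
  have a2 := congrArg (fun Y => Y * J) (mul_eq_one_comm.1 a1)
  simpa only [Matrix.mul_neg, Matrix.neg_mul, Matrix.mul_assoc, hJJ, Matrix.mul_one, neg_neg,
    Matrix.one_mul] using a2

lemma PS_eq {J g : Matrix m m ℝ} (hJt : Jᵀ = -J) (hJJ : J * J = -1) {n : ℕ}
    (hn : Fintype.card m = n * 2) :
    {r | ∃ S : Matrix m m ℝ, Sᵀ * J * S = J ∧ (g - Sᵀ * S).PosSemidef ∧
      r = ∑ i : Fin (Fintype.card m) with i.val < n,
        Real.log (√((isHermitian_conjTranspose_mul_self S).eigenvalues₀ i))} = PS J g := by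
  have key : ∀ S : Matrix m m ℝ, Sᵀ * J * S = J → Sᵀ * S * J * (Sᵀ * S) = J ∧
      ∑ i : Fin (Fintype.card m) with i.val < n,
        Real.log (√((isHermitian_conjTranspose_mul_self S).eigenvalues₀ i)) = val (Sᵀ * S) := by
    intro S hS
    have e : Sᵀ * S * J * (Sᵀ * S) = J := by
      simp only [Matrix.mul_assoc, asc3 (symp_tr hJJ hS)]
      rw [← Matrix.mul_assoc, hS]
    refine ⟨e, ?_⟩
    rw [pairing hJJ (posSemidef_conjTranspose_mul_self S)
      (by rwa [conjTranspose_eq_transpose_of_trivial]) hn, conjTranspose_eq_transpose_of_trivial]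
  ext r
  constructor
  · rintro ⟨S, h1, h2, rfl⟩
    exact ⟨_, psd_tmul S, (key S h1).1, h2, (key S h1).2⟩
  · rintro ⟨P, h1, h2, h3, rfl⟩
    obtain ⟨R, r1, r2, r3⟩ := pure_sqrt hJt hJJ h1 h2
    have r4 : Rᵀ * J * R = J := by rw [psd_symm r1, r3]
    have r5 : Rᵀ * R = P := by rw [psd_symm r1, r2]
    exact ⟨R, r4, by rwa [r5], by rw [(key R r4).2, r5]⟩

lemma PS_reindex {k : Type} [Fintype k] [DecidableEq k] (e : m ≃ k) (J g : Matrix m m ℝ) :
    PS J g ⊆ PS (reindex e e J) (reindex e e g) := by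
  rintro _ ⟨P, h1, h2, h3, rfl⟩
  refine ⟨reindex e e P, h1.submatrix _, ?_, h3.submatrix e.symm, ?_⟩
  · simp only [reindex_apply, submatrix_mul_equiv, h2]
  · rw [val, val, charpoly_reindex]

variable {k : Type} [Fintype k] [DecidableEq k]

lemma val_blocks (A : Matrix m m ℝ) (B : Matrix k k ℝ) :
    val (fromBlocks A 0 0 B) = val A + val B := by
  rw [val, charpoly_fromBlocks_zero₁₂,
    Polynomial.roots_mul (mul_ne_zero (charpoly_monic A).ne_zero (charpoly_monic B).ne_zero),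
    Multiset.map_add, Multiset.sum_add, val, val]

lemma psd_blocks {A : Matrix m m ℝ} {B : Matrix k k ℝ} (hA : A.PosSemidef) (hB : B.PosSemidef) :
    (fromBlocks A 0 0 B).PosSemidef := by
  obtain ⟨a, ha, rfl⟩ := exists_sqrt hA
  obtain ⟨b, hb, rfl⟩ := exists_sqrt hB
  have := psd_tmul (fromBlocks a 0 0 b)
  simpa [fromBlocks_transpose, fromBlocks_multiply, psd_symm ha, psd_symm hb] using this

lemma PS_add {J1 g1 : Matrix m m ℝ} {J2 g2 : Matrix k k ℝ} {r1 r2 : ℝ} (h1 : r1 ∈ PS J1 g1)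
    (h2 : r2 ∈ PS J2 g2) : r1 + r2 ∈ PS (fromBlocks J1 0 0 J2) (fromBlocks g1 0 0 g2) := by
  obtain ⟨P, a1, a2, a3, rfl⟩ := h1
  obtain ⟨Q, b1, b2, b3, rfl⟩ := h2
  refine ⟨fromBlocks P 0 0 Q, psd_blocks a1 b1, by simp [fromBlocks_multiply, a2, b2], ?_,
    (val_blocks P Q).symm⟩
  have := psd_blocks a3 b3
  convert this using 1
  ext i j
  rcases i with i | i <;> rcases j with j | j <;> simp

lemma PS_split {J1 g1 : Matrix m m ℝ} {J2 g2 : Matrix k k ℝ} (t1 : J1ᵀ = -J1) (s1 : J1 * J1 = -1)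
    (t2 : J2ᵀ = -J2) (s2 : J2 * J2 = -1) (p1 : (g1 + 1).PosDef) (p2 : (g2 + 1).PosDef) {r : ℝ}
    (h : r ∈ PS (fromBlocks J1 0 0 J2) (fromBlocks g1 0 0 g2)) :
    ∃ r1 ∈ PS J1 g1, ∃ r2 ∈ PS J2 g2, r1 + r2 ≤ r := by
  obtain ⟨P, a1, a2, a3, rfl⟩ := h
  obtain ⟨Z, z1, z2, z3, z4, rfl⟩ := pure_cay
    (by simp [fromBlocks_transpose, t1, t2, fromBlocks_neg])
    (by rw [← fromBlocks_one, fromBlocks_neg]; simp [fromBlocks_multiply, s1, s2]) a1 a2 a3
  have hinv : (fromBlocks g1 0 0 g2 + 1)⁻¹ = fromBlocks (g1 + 1)⁻¹ 0 0 (g2 + 1)⁻¹ := by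
    apply Matrix.inv_eq_left_inv
    rw [← fromBlocks_one, fromBlocks_add, fromBlocks_multiply]
    simp [pd_inv_mul p1, pd_inv_mul p2]
  rw [hinv] at z2
  obtain ⟨A, B, C, D, rfl⟩ : ∃ A B C D, Z = fromBlocks A B C D :=
    ⟨_, _, _, _, (fromBlocks_toBlocks Z).symm⟩
  simp only [fromBlocks_multiply, Matrix.mul_zero, Matrix.zero_mul, add_zero, zero_add,
    fromBlocks_neg, fromBlocks_inj] at z1
  have A3 : (1 - A).PosDef := by
    have := z3.submatrix Sum.inl_injective
    convert this using 1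
    ext i j
    simp [Matrix.one_apply]
  have A4 : (1 + A).PosDef := by
    have := z4.submatrix Sum.inl_injective
    convert this using 1
    ext i j
    simp [Matrix.one_apply]
  have A2 : (1 - A - (2 : ℝ) • (g1 + 1)⁻¹).PosSemidef := by
    have := z2.submatrix Sum.inl
    convert this using 1
    ext i j
    simp [Matrix.one_apply]
  have D3 : (1 - D).PosDef := by
    have := z3.submatrix Sum.inr_injective
    convert this using 1
    ext i j
    simp [Matrix.one_apply]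
  have D4 : (1 + D).PosDef := by
    have := z4.submatrix Sum.inr_injective
    convert this using 1
    ext i j
    simp [Matrix.one_apply]
  have D2 : (1 - D - (2 : ℝ) • (g2 + 1)⁻¹).PosSemidef := by
    have := z2.submatrix Sum.inr
    convert this using 1
    ext i j
    simp [Matrix.one_apply]
  obtain ⟨c1, c2, c3⟩ := cay_pure p1 z1.1 A2 A4.posSemidef
  obtain ⟨d1, d2, d3⟩ := cay_pure p2 z1.2.2.2 D2 D4.posSemidef
  refine ⟨_, ⟨_, c1, c2, c3, rfl⟩, _, ⟨_, d1, d2, d3, rfl⟩, ?_⟩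
  obtain ⟨U, d, u1, u2, u3, u4⟩ := spec_cay z3 z4
  obtain ⟨V, a, v1, v2, v3, v4⟩ := spec_cay A3 A4
  obtain ⟨W, b, w1, w2, w3, w4⟩ := spec_cay D3 D4
  have hp := peierls (V := fromBlocks V 0 0 W) u2 u1
    (by simp [fromBlocks_transpose, fromBlocks_multiply, v2, w2])
    (by simp [fromBlocks_transpose, fromBlocks_multiply, v1, w1]) u4
  have eA : Vᵀ * A * V = diagonal a := by
    rw [v3]
    simp only [Matrix.mul_assoc, asc v1, v1, Matrix.mul_one, Matrix.one_mul]
  have eD : Wᵀ * D * W = diagonal b := by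
    rw [w3]
    simp only [Matrix.mul_assoc, asc w1, w1, Matrix.mul_one, Matrix.one_mul]
  rw [← u3, Fintype.sum_sum_type] at hp
  simp only [fromBlocks_transpose, fromBlocks_multiply, transpose_zero, Matrix.mul_zero,
    Matrix.zero_mul, add_zero, zero_add, fromBlocks_apply₁₁, fromBlocks_apply₂₂, eA, eD,
    diagonal_apply_eq] at hp
  rw [u3, cay_val u2 u1 u4, v3, cay_val v2 v1 v4, w3, cay_val w2 w1 w4]
  exact hp

lemma inf_add {J1 g1 : Matrix m m ℝ} {J2 g2 : Matrix k k ℝ} (t1 : J1ᵀ = -J1) (s1 : J1 * J1 = -1)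
    (t2 : J2ᵀ = -J2) (s2 : J2 * J2 = -1) (p1 : Unc J1 g1) (p2 : Unc J2 g2) :
    sInf (PS (fromBlocks J1 0 0 J2) (fromBlocks g1 0 0 g2)) =
      sInf (PS J1 g1) + sInf (PS J2 g2) := by
  have n1 := PS_ne t1 s1 p1
  have n2 := PS_ne t2 s2 p2
  apply le_antisymm
  · rw [← sub_le_iff_le_add]
    refine le_csInf n1 fun r1 h1 => ?_
    rw [sub_le_comm]
    refine le_csInf n2 fun r2 h2 => ?_
    have := csInf_le (PS_bdd _ _) (PS_add h1 h2)
    linarith
  · refine le_csInf ⟨_, PS_add n1.some_mem n2.some_mem⟩ fun r h => ?_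
    obtain ⟨r1, h1, r2, h2, h3⟩ := PS_split t1 s1 t2 s2
      ((unc_pd s1 p1).add PosDef.one) ((unc_pd s2 p2).add PosDef.one) h
    linarith [csInf_le (PS_bdd _ _) h1, csInf_le (PS_bdd _ _) h2]

end Pool.Agent.H9.SQ
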