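import Mathlib

/-! Averages of the Cauchy kernel over a disc. -/
namespace Pool.Agent.H9.SR
open Filter Metric Topology MeasureTheory Set ComplexConjugate

lemma kint (S : ℝ) : Integrable ((ball (0 : ℂ) S).indicator fun z => z⁻¹) :=
  (integrable_indicator_iff measurableSet_ball).2 (integrableOn_ball_of_norm_le_rpow (C := 1)
    (α := 1) (by simp) (by simp) (.of_forall fun z => by simp [Real.rpow_neg_one])
    measurable_inv.aestronglyMeasurable)

lemma mem_b {z l : ℂ} {R S : ℝ} (hl : l ∈ ball (0 : ℂ) R) (h : ‖z‖ + R ≤ S) :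
    z - l ∈ ball (0 : ℂ) S :=
  mem_ball_zero_iff.2 ((norm_sub_le _ _).trans_lt (by linarith [mem_ball_zero_iff.1 hl]))

lemma cint (z : ℂ) (R : ℝ) : IntegrableOn (fun l => (z - l)⁻¹) (ball 0 R) :=
  ((kint (‖z‖ + R)).comp_sub_left z).integrableOn.congr_fun
    (fun _ hl => indicator_of_mem (mem_b hl le_rfl) _) measurableSet_ball

lemma trans (M R : ℝ) {ε : ℝ} (hε : 0 < ε) : ∃ h ≠ (0 : ℂ), ∀ z : ℂ, ‖z‖ ≤ M →
    ∫ l in ball 0 R, ‖(z - l)⁻¹ - (z - h - l)⁻¹‖ ≤ ε := by
  have hk := kint (M + 1 + R)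
  set k := (ball (0 : ℂ) (M + 1 + R)).indicator fun z => z⁻¹
  have h1 : Tendsto (fun h : ℂ => ‖hk.toL1 - (DomAddAct.mk (-h) +ᵥ hk.toL1)‖) (𝓝 0) (𝓝 0) := by
    have : Fact ((1 : ENNReal) ≠ ⊤) := ⟨by simp⟩
    refine Continuous.tendsto' (continuous_const.sub ((DomAddAct.continuous_mk.comp
      continuous_neg).vadd continuous_const)).norm _ _ ?_
    show ‖_ - (DomAddAct.mk (-(0 : ℂ)) +ᵥ hk.toL1)‖ = 0
    rw [neg_zero, show DomAddAct.mk (0 : ℂ) = 0 from rfl, zero_vadd, sub_self, norm_zero]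
  obtain ⟨h, ⟨e1, e2⟩, e3⟩ := (((h1.eventually_le_const hε).and (ball_mem_nhds 0 one_pos)).filter_mono
    (nhdsWithin_le_nhds (s := {0}ᶜ))).and self_mem_nhdsWithin |>.exists
  refine ⟨h, e3, fun z hz => ?_⟩
  rw [L1.norm_eq_integral_norm, integral_congr_ae (g := fun ζ => ‖k ζ - k (-h + ζ)‖) (by
    filter_upwards [Lp.coeFn_sub hk.toL1 (DomAddAct.mk (-h) +ᵥ hk.toL1), hk.coeFn_toL1,
      DomAddAct.vadd_Lp_ae_eq (DomAddAct.mk (-h)) hk.toL1, (measurePreserving_add_left volume
        (-h)).quasiMeasurePreserving.ae hk.coeFn_toL1] with ζ a1 a2 a3 a4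
    rw [a1, Pi.sub_apply, a2, a3, ← a4]
    rfl), ← integral_sub_left_eq_self _ _ z] at e1
  refine le_trans ((setIntegral_congr_fun measurableSet_ball fun l hl => ?_).trans_le
    (setIntegral_le_integral ((hk.sub (hk.comp_add_left (-h))).norm.comp_sub_left z)
      (.of_forall fun _ => norm_nonneg _))) e1
  have := mem_ball_zero_iff.1 e2
  simp only [k, Pi.sub_apply]
  rw [indicator_of_mem (mem_b hl (by linarith)), show -h + (z - l) = z - h - l by ring,
    indicator_of_mem (mem_b hl (by linarith [norm_sub_le z h]))]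

/-- the averaged kernel -/
noncomputable def G (R : ℝ) (z : ℂ) : ℂ := ∫ l in ball 0 R, z * (z - l)⁻¹

lemma G_real (R : ℝ) (z : ℂ) : conj (G R z) = G R z := by
  rcases eq_or_ne z 0 with rfl | hz
  · simp [G]
  let T := (rotation (Circle.ofConjDivSelf z hz)).trans Complex.conjLIE
  have h1 : ∀ l, conj (T l) = conj z / z * l := fun l => Complex.conj_conj _
  rw [G, ← integral_conj, ← T.measurePreserving.setIntegral_preimage_emb
    T.toHomeomorph.measurableEmbedding, T.preimage_ball, map_zero]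
  refine integral_congr_ae (.of_forall fun l => ?_)
  have h2 : conj z ≠ 0 := by simpa
  simp only [map_mul, map_inv₀, map_sub, h1]
  rw [show conj z - conj z / z * l = conj z / z * (z - l) by
    rw [mul_sub, div_mul_cancel₀ _ hz], mul_inv, ← mul_assoc, inv_div, mul_div_cancel₀ _ h2]

lemma G_ne {z : ℂ} (hz : z ≠ 0) : G (‖z‖ / 3) z ≠ 0 := fun h => by
  have h0 := norm_pos_iff.2 hz
  have h1 : volume (ball (0 : ℂ) (‖z‖ / 3)) < ⊤ := measure_ball_lt_top
  have := norm_setIntegral_le_of_norm_le_const (f := fun l => z * (z - l)⁻¹ - 1) (C := 1 / 2) h1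
    fun l hl => by
      have e1 := mem_ball_zero_iff.1 hl
      have e2 := norm_sub_norm_le z l
      have e3 : 0 < ‖z - l‖ := by linarith
      rw [show z * (z - l)⁻¹ - 1 = l / (z - l) by field_simp [norm_pos_iff.1 e3]; ring, norm_div,
        div_le_iff₀ e3]
      linarith
  rw [integral_sub ((cint z _).const_mul z) (integrableOn_const h1.ne), show ∫ l in _, _ = _ from h,
    setIntegral_const] at this
  simp only [zero_sub, norm_neg, norm_smul, norm_one, Real.norm_eq_abs, mul_one] at this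
  linarith [le_abs_self (volume.real (ball (0 : ℂ) (‖z‖ / 3))), ENNReal.toReal_pos
    (measure_ball_pos volume (0 : ℂ) (show 0 < ‖z‖ / 3 by linarith)).ne' h1.ne,
    show volume.real _ = (volume (ball (0 : ℂ) (‖z‖ / 3))).toReal from rfl]

end Pool.Agent.H9.SR
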