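import Pool.Agent.H9.SR1

/-! Density of Gelfand transforms from a weak spectral extension property. -/
namespace Pool.Agent.H9.SR
open Filter Metric Topology MeasureTheory Set ComplexConjugate WeakDual

variable (A : Type*) [NonUnitalNormedCommRing A] [NormedSpace ℂ A] [IsScalarTower ℂ A A]
  [SMulCommClass ℂ A A] [CompleteSpace A]

/-- characters together with zero -/
abbrev K : Set (WeakDual ℂ A) := {φ | ∀ x y : A, φ (x * y) = φ x * φ y}

/-- the consequence of the SR property that is used -/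
def Hyp : Prop := ∀ I : Submodule ℂ A, (∀ a, ∀ y ∈ I, a * y ∈ I) → IsClosed (I : Set A) →
  ∀ (x : A) (c : ℂ), x * x - c • x ∈ I → ∃ y ∈ I, ∀ φ : K A, ‖φ.1 (x + y)‖ ≤ ‖c‖ + 1

variable {A}

omit [IsScalarTower ℂ A A] [SMulCommClass ℂ A A] [CompleteSpace A] in
lemma K_norm (φ : K A) : ‖toStrongDual φ.1‖ ≤ 1 := by
  have h := (toStrongDual φ.1).opNorm_le_bound (Real.sqrt_nonneg ‖toStrongDual φ.1‖) fun w =>
    abs_le_of_sq_le_sq' (a := ‖φ.1 w‖) (by
      rw [mul_pow, Real.sq_sqrt (norm_nonneg _), sq, ← norm_mul, ← φ.2, sq]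
      exact (toStrongDual φ.1).le_opNorm_of_le (norm_mul_le w w)) (by positivity) |>.2
  nlinarith [Real.sq_sqrt (norm_nonneg (toStrongDual φ.1)), Real.sqrt_nonneg ‖toStrongDual φ.1‖]

omit [IsScalarTower ℂ A A] [SMulCommClass ℂ A A] [CompleteSpace A] in
lemma K_le (φ : K A) (w : A) : ‖φ.1 w‖ ≤ ‖w‖ := (toStrongDual φ.1).le_of_opNorm_le (K_norm φ) w
  |>.trans_eq (one_mul _)

instance : CompactSpace (K A) := isCompact_iff_compactSpace.1
  ((WeakDual.isCompact_closedBall (0 : StrongDual ℂ A) 1).of_isClosed_subset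
  (by rw [K, ← CharacterSpace.union_zero]; exact CharacterSpace.union_zero_isClosed ℂ A)
  fun φ h => mem_closedBall_zero_iff.2 (K_norm ⟨φ, h⟩))

omit [IsScalarTower ℂ A A] [SMulCommClass ℂ A A] [CompleteSpace A] in
lemma ev (x : A) : Continuous fun φ : K A => φ.1 x :=
  (eval_continuous x).comp continuous_subtype_val

omit [CompleteSpace A] in
lemma one (H : Hyp A) (f : A) {h : ℂ} (hh : h ≠ 0) (l : ℂ) : ∃ a : A, ∀ φ : K A,
    ‖φ.1 f * (φ.1 f - h - l) / -h + (φ.1 f - l) * (φ.1 f - h - l) * φ.1 a‖ ≤ ‖l‖ + 2 := by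
  let m : ℂ → A →L[ℂ] A := fun c => ContinuousLinearMap.mul ℂ A f - c • .id ℂ A
  have h1 : ∀ c a, m c a = f * a - c • a := fun _ _ => rfl
  have h2 : ∀ c a b, a * m c b = m c (a * b) := fun c a b => by
    rw [h1, h1, mul_sub, mul_left_comm, mul_smul_comm]
  have h3 : ∀ c a (φ : K A), φ.1 (m c a) = (φ.1 f - c) * φ.1 a := fun c a φ => by
    rw [h1, map_sub, φ.2, map_smul, smul_eq_mul, sub_mul]
  obtain ⟨y, e1, e2⟩ := H (m l ∘L m (h + l)).range.topologicalClosure
    (fun a y hy => map_mem_closure (continuous_const_mul a) hy fun _ ⟨b, e⟩ =>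
      ⟨a * b, by rw [← e]; exact ((h2 _ _ _).trans (congrArg _ (h2 _ _ _))).symm⟩)
    isClosed_closure ((-h)⁻¹ • m (h + l) f) l (subset_closure ⟨(h⁻¹ * h⁻¹) • m h f, by
      show m l (m (h + l) _) = _
      simp only [h1, mul_sub, sub_mul, smul_sub, mul_smul_comm, smul_mul_assoc, smul_smul, mul_assoc]
      match_scalars <;> field_simp <;> ring⟩)
  obtain ⟨_, ⟨a, rfl⟩, e3⟩ := Metric.mem_closure_iff.1 e1 1 one_pos
  refine ⟨a, fun φ => ?_⟩
  have e4 := K_le φ (y - m l (m (h + l) a))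
  have e5 := norm_sub_le (φ.1 ((-h)⁻¹ • m (h + l) f + y)) (φ.1 (y - m l (m (h + l) a)))
  have e6 : ‖y - m l (m (h + l) a)‖ < 1 := (dist_eq_norm _ _).symm.trans_lt e3
  refine le_trans (le_of_eq (congrArg _ ?_)) (e5.trans (by linarith [e2 φ]))
  simp only [map_add, map_sub, map_smul, h3, smul_eq_mul]
  field_simp
  ring

omit [CompleteSpace A] in
lemma sel (H : Hyp A) (f : A) {h : ℂ} (hh : h ≠ 0) : ∃ a : C(ℂ, A), ∀ l, ∀ φ : K A,
    ‖φ.1 f * (φ.1 f - h - l) / -h + (φ.1 f - l) * (φ.1 f - h - l) * φ.1 (a l)‖ ≤ ‖l‖ + 3 := by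
  refine exists_continuous_forall_mem_convex_of_local_const (t := fun l => {a : A | ∀ φ : K A,
    ‖φ.1 f * (φ.1 f - h - l) / -h + (φ.1 f - l) * (φ.1 f - h - l) * φ.1 a‖ ≤ ‖l‖ + 3})
    (fun l a ha b hb s t hs ht e φ => ?_) fun l => ?_
  · have := (convex_closedBall (0 : ℂ) _) (mem_closedBall_zero_iff.2 (ha φ))
      (mem_closedBall_zero_iff.2 (hb φ)) hs ht e
    refine (mem_closedBall_zero_iff.1 this).trans_eq' (congrArg _ ?_)
    have e1 : (s : ℂ) + t = 1 := by exact_mod_cast e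
    rw [map_add, ← Complex.coe_smul, ← Complex.coe_smul, ← Complex.coe_smul s a,
      ← Complex.coe_smul t b, map_smul, map_smul]
    simp only [smul_eq_mul]
    linear_combination (φ.1 f * (φ.1 f - h - l) / -h) * e1
  · obtain ⟨a, ha⟩ := one H f hh l
    refine ⟨a, isCompact_univ.eventually_forall_of_forall_eventually (fun φ _ => ?_) |>.mono
      fun _ e φ => e φ trivial⟩
    have e1 : Continuous fun p : ℂ × ℂ × ℂ => ‖p.2.1 * (p.2.1 - h - p.1) / -h +
      (p.2.1 - p.1) * (p.2.1 - h - p.1) * p.2.2‖ - ‖p.1‖ := by fun_prop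
    have e2 : Tendsto (fun p : ℂ × K A => (p.1, p.2.1 f, p.2.1 a)) (𝓝 (l, φ))
        (𝓝 (l, φ.1 f, φ.1 a)) :=
      (continuous_fst.prodMk (((ev f).prodMk (ev a)).comp continuous_snd)).tendsto _
    filter_upwards [e2.eventually ((e1.tendsto _).eventually_lt_const (show _ < (3 : ℝ) by
      linarith [ha φ]))] with p e
    linarith

lemma approx (H : Hyp A) (f : A) (R : ℝ) {ε : ℝ} (hε : 0 < ε) :
    ∃ a : A, ∀ φ : K A, ‖G R (φ.1 f) - φ.1 a‖ ≤ ε := by
  obtain ⟨h, hh, e1⟩ := trans ‖f‖ R (ε := ε / (|R| + 3)) (by positivity)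
  obtain ⟨a, ha⟩ := sel H f hh
  have h1 : IntegrableOn (fun l => h • a l) (ball 0 R) := ((a.continuous.const_smul h).continuousOn
    |>.integrableOn_compact (isCompact_closedBall 0 R)).mono_set ball_subset_closedBall
  refine ⟨∫ l in ball 0 R, h • a l, fun φ => ?_⟩
  rw [show φ.1 _ = _ from ((toStrongDual φ.1).integral_comp_comm h1).symm, G,
    ← integral_sub ((cint _ _).const_mul _) ((toStrongDual φ.1).integrable_comp h1)]
  refine (norm_integral_le_of_norm_le (((cint (φ.1 f) R).sub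
    (cint (φ.1 f - h) R)).norm.const_mul (|R| + 3)) ?_).trans ?_
  · filter_upwards [ae_restrict_mem measurableSet_ball, ae_restrict_of_ae (Measure.ae_ne _ (φ.1 f)),
      ae_restrict_of_ae (Measure.ae_ne _ (φ.1 f - h))] with l e2 e3 e4
    refine le_trans (le_of_eq ?_) (mul_le_mul_of_nonneg_right ((ha l φ).trans (by
      linarith [mem_ball_zero_iff.1 e2, le_abs_self R])) (norm_nonneg _))
    rw [← norm_mul, map_smul, show toStrongDual φ.1 (a l) = φ.1 (a l) from rfl]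
    congr 1
    have := sub_ne_zero.2 e3.symm
    have := sub_ne_zero.2 e4.symm
    simp only [Pi.sub_apply, smul_eq_mul]
    field_simp
    ring
  · rw [integral_const_mul, ← le_div_iff₀' (by positivity)]
    exact e1 _ (K_le φ f)

end Pool.Agent.H9.SR
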