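import Pool.Agent.H9.SR2

/-! The Stone-Weierstrass step. -/
namespace Pool.Agent.H9.SR
open Filter Metric Topology Set ComplexConjugate WeakDual ZeroAtInfty

variable {A : Type*} [NonUnitalNormedCommRing A] [NormedSpace ℂ A] [IsScalarTower ℂ A A]
  [SMulCommClass ℂ A A] [CompleteSpace A]

/-- the Gelfand transform on `K A` -/
noncomputable def Γ : A →ₙₐ[ℂ] C(K A, ℂ) where
  toFun a := ⟨fun φ => φ.1 a, ev a⟩
  map_smul' c a := ContinuousMap.ext fun φ => map_smul φ.1 c a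
  map_zero' := ContinuousMap.ext fun φ => map_zero φ.1
  map_add' a b := ContinuousMap.ext fun φ => map_add φ.1 a b
  map_mul' a b := ContinuousMap.ext fun φ => φ.2 a b

variable (A) in
/-- the closure of its range -/
noncomputable def B : NonUnitalSubalgebra ℂ C(K A, ℂ) :=
  (NonUnitalAlgHom.range (Γ (A := A))).topologicalClosure

omit [IsScalarTower ℂ A A] [SMulCommClass ℂ A A] [CompleteSpace A] in
lemma B_iff {k : C(K A, ℂ)} : k ∈ B A ↔ ∀ ε > 0, ∃ a : A, ∀ φ : K A, ‖k φ - φ.1 a‖ < ε :=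
  Metric.mem_closure_iff.trans (forall₂_congr fun _ hε => ⟨fun ⟨_, ⟨a, e⟩, h⟩ => ⟨a, fun φ =>
    (dist_eq_norm _ _).symm.trans_lt ((ContinuousMap.dist_lt_iff hε).1 (e ▸ h) φ)⟩, fun ⟨a, h⟩ =>
      ⟨_, ⟨a, rfl⟩, (ContinuousMap.dist_lt_iff hε).2 fun φ => (dist_eq_norm _ _).trans_lt (h φ)⟩⟩)

variable (A) in
/-- real functions in the unitisation of `B` -/
noncomputable def S : Subalgebra ℝ C(K A, ℝ) where
  carrier := {k | ∃ c : ℝ, ∃ b ∈ B A, ∀ φ, (k φ : ℂ) = c + b φ}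
  mul_mem' := fun ⟨c, b, e1, e2⟩ ⟨d, g, e3, e4⟩ => ⟨c * d, (c : ℂ) • g + (d : ℂ) • b + b * g,
    add_mem (add_mem (SMulMemClass.smul_mem _ e3) (SMulMemClass.smul_mem _ e1)) (mul_mem e1 e3),
    fun φ => by
      simp [e2, e4]
      ring⟩
  add_mem' := fun ⟨c, b, e1, e2⟩ ⟨d, g, e3, e4⟩ => ⟨c + d, b + g, add_mem e1 e3, fun φ => by
    simp [e2, e4]
    ring⟩
  algebraMap_mem' c := ⟨c, 0, zero_mem _, fun φ => by simp⟩

lemma sep (H : Hyp A) : (S A).SeparatesPoints := fun φ ψ h => by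
  wlog e : ψ.1 ≠ 0
  · obtain ⟨f, e1, e2⟩ := this H ψ φ h.symm fun e1 =>
      h (Subtype.ext (Eq.trans e1 (not_not.1 e).symm))
    exact ⟨f, e1, e2.symm⟩
  obtain ⟨a, ha⟩ := DFunLike.ne_iff.1 (Subtype.ext_iff.not.1 h)
  obtain ⟨b, hb⟩ := DFunLike.ne_iff.1 e
  have e1 : φ.1 (a * b - φ.1 a • b) = 0 := by rw [map_sub, φ.2, map_smul, smul_eq_mul, sub_self]
  have e2 : ψ.1 (a * b - φ.1 a • b) ≠ 0 := by
    rw [map_sub, ψ.2, map_smul, smul_eq_mul, ← sub_mul]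
    exact mul_ne_zero (sub_ne_zero.2 ha.symm) hb
  generalize a * b - φ.1 a • b = f at e1 e2
  have h1 := fun ε (hε : 0 < ε) => approx H f (‖ψ.1 f‖ / 3) hε
  have h2 : Continuous fun χ : K A => G (‖ψ.1 f‖ / 3) (χ.1 f) :=
    continuous_of_uniform_approx_of_continuous fun u hu => by
      obtain ⟨ε, hε, e⟩ := uniformity_basis_dist_le.mem_iff.1 hu
      exact (h1 ε hε).elim fun a ha => ⟨_, ev a, fun χ => e ((dist_eq_norm _ _).trans_le (ha χ))⟩
  refine ⟨_, ⟨⟨_, Complex.continuous_re.comp h2⟩, ⟨0, ⟨_, h2⟩, B_iff.2 fun ε hε =>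
    (h1 _ (half_pos hε)).imp fun a ha χ => (ha χ).trans_lt (half_lt_self hε), fun χ => by
      simpa using Complex.conj_eq_iff_re.1 (G_real _ _)⟩, rfl⟩, fun e3 => G_ne e2 ?_⟩
  rw [← Complex.conj_eq_iff_re.1 (G_real _ _), ← show (G (‖ψ.1 f‖ / 3) (φ.1 f)).re =
    (G (‖ψ.1 f‖ / 3) (ψ.1 f)).re from e3, e1]
  simp [G]

/-- the zero functional -/
noncomputable def o : K A := ⟨0, fun _ _ => (mul_zero (0 : ℂ)).symm⟩

lemma real (H : Hyp A) (k : C(K A, ℝ)) (h : k o = 0) :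
    (Complex.ofRealCLM : C(ℝ, ℂ)).comp k ∈ B A := B_iff.2 fun ε hε => by
  obtain ⟨⟨g, c, b, e1, e2⟩, hg⟩ :=
    ContinuousMap.exists_mem_subalgebra_near_continuousMap_of_separatesPoints
      (S A) (sep H) k (ε / 4) (by positivity)
  obtain ⟨a, ha⟩ := B_iff.1 e1 (ε / 4) (by positivity)
  have h1 : ∀ φ, ‖c + b φ - k φ‖ < ε / 4 := fun φ => by
    rw [← e2, ← Complex.ofReal_sub, Complex.norm_real]
    exact ((g - k).norm_coe_le_norm φ).trans_lt hg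
  refine ⟨a, fun φ => ?_⟩
  have e3 := h1 o
  have e4 : ‖b o - 0‖ < _ := ha o
  rw [h, Complex.ofReal_zero] at e3
  rw [show (Complex.ofRealCLM : C(ℝ, ℂ)).comp k φ - φ.1 a = c + b o - 0 - (b o - 0) +
    (b φ - φ.1 a - (c + b φ - k φ)) by
      show (k φ : ℂ) - _ = _
      ring]
  linarith [norm_add_le_of_le (norm_sub_le (c + b o - 0) (b o - 0))
    (norm_sub_le (b φ - φ.1 a) (c + b φ - k φ)), ha φ, h1 φ]

lemma cplx (H : Hyp A) (k : C(K A, ℂ)) (h : k o = 0) : k ∈ B A := by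
  have := add_mem (real H ((Complex.reCLM : C(ℂ, ℝ)).comp k) (congrArg Complex.re h))
    (SMulMemClass.smul_mem Complex.I
      (real H ((Complex.imCLM : C(ℂ, ℝ)).comp k) (congrArg Complex.im h)))
  convert this using 1
  ext φ
  simp [mul_comm Complex.I]

theorem dense (H : Hyp A) (g : C₀(characterSpace ℂ A, ℂ)) {ε : ℝ} (hε : 0 < ε) :
    ∃ a : A, ∀ φ : characterSpace ℂ A, ‖g φ - φ a‖ < ε := by
  classical
  let j : characterSpace ℂ A → K A := fun φ => ⟨φ.1, φ.2.2⟩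
  let k : K A → ℂ := fun φ => if h : φ.1 = 0 then 0 else g ⟨φ.1, h, φ.2⟩
  have h1 : ∀ φ, k (j φ) = g φ := fun φ => dif_neg φ.2.1
  have h2 : IsOpenEmbedding j := ⟨IsEmbedding.subtypeVal.of_comp (continuous_subtype_val.subtype_mk _)
    continuous_subtype_val, by
      rw [show range j = {o}ᶜ from Set.ext fun φ => ⟨fun ⟨ψ, e⟩ e1 => ψ.2.1
        (congrArg Subtype.val (e.trans e1)), fun e => ⟨⟨φ.1, fun e1 => e (Subtype.ext e1), φ.2⟩, rfl⟩⟩]
      exact isOpen_compl_singleton⟩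
  have h3 : k o = 0 := dif_pos rfl
  have h4 : Continuous k := continuous_iff_continuousAt.2 fun φ => by
    by_cases e : φ.1 = 0
    · obtain rfl : φ = o := Subtype.ext e
      refine Metric.tendsto_nhds.2 fun δ hδ => ?_
      obtain ⟨C, e1, e2⟩ := mem_cocompact.1 (Metric.tendsto_nhds.1 g.zero_at_infty' δ hδ)
      filter_upwards [(e1.image h2.continuous).isClosed.isOpen_compl.mem_nhds
        fun ⟨ψ, _, e⟩ => ψ.2.1 (congrArg Subtype.val e)] with ψ e3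
      rw [h3]
      by_cases e4 : ψ.1 = 0
      · simpa [k, e4]
      · exact h1 ⟨ψ.1, e4, ψ.2⟩ ▸ e2 fun e5 => e3 ⟨_, e5, rfl⟩
    · exact (h2.continuousAt_iff (x := ⟨φ.1, e, φ.2⟩)).1
        ((funext h1 : k ∘ j = g) ▸ g.continuous.continuousAt)
  exact (B_iff.1 (cplx H ⟨k, h4⟩ h3) ε hε).imp fun a ha φ => h1 φ ▸ ha (j φ)

end Pool.Agent.H9.SR
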