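import Mathlib

set_option autoImplicit false

namespace Pool.Agent.H9.Selberg

open Real MeasureTheory Set Filter Topology

noncomputable section

/-- Two-sided local sampling estimate on one interval. -/
lemma local_bounds (α : ℝ) (hα : 1 ≤ α) (G G' : ℝ → ℝ) (hG : ∀ u, HasDerivAt G (G' u) u)
    (hG' : Continuous G') (p q : ℝ) (hp : 0 ≤ p) (hpq : p ≤ q) (hl : q - p ≤ 1 / 4) :
    (3 / 4) * (∫ u in p..q, u ^ α * G u ^ 2) - (1 / 4) * (∫ u in p..q, u ^ α * G' u ^ 2)
      ≤ (q - p) * q ^ α * G q ^ 2 ∧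
    (q - p) * q ^ α * G q ^ 2
      ≤ (α + 2) * (∫ u in p..q, u ^ α * G u ^ 2) + (∫ u in p..q, u ^ α * G' u ^ 2) := by
  have hGc : Continuous G := continuous_iff_continuousAt.2 fun u => (hG u).continuousAt
  have hpow : Continuous fun u : ℝ => u ^ α := Real.continuous_rpow_const (by linarith)
  have hpow1 : Continuous fun u : ℝ => u ^ (α - 1) := Real.continuous_rpow_const (by linarith)
  set φ' : ℝ → ℝ := fun u => u ^ α * G u ^ 2 + (u - p) * (α * u ^ (α - 1)) * G u ^ 2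
    + (u - p) * u ^ α * (2 * G u * G' u) with hφ'
  have hder : ∀ u, HasDerivAt (fun u => (u - p) * u ^ α * G u ^ 2) (φ' u) u := by
    intro u
    have h1 : HasDerivAt (fun u : ℝ => u ^ α) (α * u ^ (α - 1)) u :=
      Real.hasDerivAt_rpow_const (Or.inr hα)
    have h2 : HasDerivAt (fun u : ℝ => u - p) 1 u := (hasDerivAt_id u).sub_const p
    have h3 : HasDerivAt (fun u => G u ^ 2) (2 * G u * G' u) u :=
      ((hG u).fun_pow 2).congr_deriv (by simp)
    refine ((h2.fun_mul h1).fun_mul h3).congr_deriv ?_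
    simp only [hφ']
    ring
  have hφc : Continuous φ' := by
    simp only [hφ']
    fun_prop
  have hFTC : ∫ u in p..q, φ' u = (q - p) * q ^ α * G q ^ 2 := by
    rw [intervalIntegral.integral_eq_sub_of_hasDerivAt (fun u _ => hder u)
      (hφc.intervalIntegrable _ _)]
    simp
  have hi1 : IntervalIntegrable (fun u => u ^ α * G u ^ 2) volume p q :=
    (by fun_prop : Continuous fun u => u ^ α * G u ^ 2).intervalIntegrable _ _
  have hi2 : IntervalIntegrable (fun u => u ^ α * G' u ^ 2) volume p q :=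
    (by fun_prop : Continuous fun u => u ^ α * G' u ^ 2).intervalIntegrable _ _
  have key : ∀ u ∈ Icc p q,
      (3 / 4) * (u ^ α * G u ^ 2) - (1 / 4) * (u ^ α * G' u ^ 2) ≤ φ' u ∧
      φ' u ≤ (α + 2) * (u ^ α * G u ^ 2) + u ^ α * G' u ^ 2 := by
    intro u hu
    have hu0 : 0 ≤ u := hp.trans hu.1
    have ha : 0 ≤ u ^ α := Real.rpow_nonneg hu0 _
    have hb : 0 ≤ u ^ (α - 1) := Real.rpow_nonneg hu0 _
    have hup : 0 ≤ u - p := by linarith [hu.1]
    have hup' : u - p ≤ 1 / 4 := by linarith [hu.2]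
    have hab : u * u ^ (α - 1) = u ^ α := by
      rcases hu0.eq_or_lt with h | h
      · rw [← h, zero_mul, Real.zero_rpow (by linarith)]
      · rw [Real.rpow_sub_one h.ne']; field_simp
    have hc : (u - p) * u ^ (α - 1) ≤ u ^ α := by
      rw [← hab]; exact mul_le_mul_of_nonneg_right (by linarith) hb
    have h2a : -(G u ^ 2 + G' u ^ 2) ≤ 2 * G u * G' u := by nlinarith [sq_nonneg (G u + G' u)]
    have h2b : 2 * G u * G' u ≤ G u ^ 2 + G' u ^ 2 := by nlinarith [sq_nonneg (G u - G' u)]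
    have hw : 0 ≤ (u - p) * u ^ α := mul_nonneg hup ha
    have hw' : (u - p) * u ^ α ≤ 1 / 4 * u ^ α := mul_le_mul_of_nonneg_right hup' ha
    have hS : 0 ≤ G u ^ 2 + G' u ^ 2 := by positivity
    have e1 : (u - p) * u ^ α * (2 * G u * G' u) ≤ 1 / 4 * u ^ α * (G u ^ 2 + G' u ^ 2) :=
      (mul_le_mul_of_nonneg_left h2b hw).trans (mul_le_mul_of_nonneg_right hw' hS)
    have e2 : -(1 / 4 * u ^ α * (G u ^ 2 + G' u ^ 2)) ≤ (u - p) * u ^ α * (2 * G u * G' u) := by
      have := mul_le_mul_of_nonneg_left h2a hw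
      have := mul_le_mul_of_nonneg_right hw' hS
      linarith
    have e3 : 0 ≤ (u - p) * (α * u ^ (α - 1)) * G u ^ 2 := by
      have : 0 ≤ α := by linarith
      positivity
    have e4 : (u - p) * (α * u ^ (α - 1)) * G u ^ 2 ≤ α * (u ^ α * G u ^ 2) := by
      have h0 : 0 ≤ α * G u ^ 2 := by
        have : 0 ≤ α := by linarith
        positivity
      have := mul_le_mul_of_nonneg_right hc h0
      nlinarith
    have e5 : 0 ≤ u ^ α * G u ^ 2 := by positivity
    have e6 : 0 ≤ u ^ α * G' u ^ 2 := by positivity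
    simp only [hφ']
    constructor <;> nlinarith
  rw [← hFTC]
  constructor
  · rw [← intervalIntegral.integral_const_mul, ← intervalIntegral.integral_const_mul,
      ← intervalIntegral.integral_sub (hi1.const_mul _) (hi2.const_mul _)]
    exact intervalIntegral.integral_mono_on hpq ((hi1.const_mul _).sub (hi2.const_mul _))
      (hφc.intervalIntegrable _ _) fun u hu => (key u hu).1
  · rw [← intervalIntegral.integral_const_mul,
      ← intervalIntegral.integral_add (hi1.const_mul _) hi2]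
    exact intervalIntegral.integral_mono_on hpq (hφc.intervalIntegrable _ _)
      ((hi1.const_mul _).add hi2) fun u hu => (key u hu).2

lemma interval_le_Ioi (f : ℝ → ℝ) (hf : IntegrableOn f (Ioi 0)) (h0 : ∀ u, 0 ≤ u → 0 ≤ f u)
    (x : ℝ) (hx : 0 ≤ x) : ∫ u in (0 : ℝ)..x, f u ≤ ∫ u in Ioi (0 : ℝ), f u := by
  rw [intervalIntegral.integral_of_le hx]
  refine setIntegral_mono_set hf ?_ (Ioc_subset_Ioi_self).eventuallyLE
  filter_upwards [ae_restrict_mem measurableSet_Ioi] with u hu using h0 u (le_of_lt hu)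

/-- Global sampling estimate. -/
lemma global_bounds (α : ℝ) (hα : 1 ≤ α) (G G' : ℝ → ℝ) (hG : ∀ u, HasDerivAt G (G' u) u)
    (hG' : Continuous G')
    (h1 : IntegrableOn (fun u => u ^ α * G u ^ 2) (Ioi 0))
    (h2 : IntegrableOn (fun u => u ^ α * G' u ^ 2) (Ioi 0))
    (heq : ∫ u in Ioi (0 : ℝ), u ^ α * G u ^ 2 = ∫ u in Ioi (0 : ℝ), u ^ α * G' u ^ 2)
    (p : ℕ → ℝ) (hp0 : p 0 = 0) (hmono : Monotone p) (hgap : ∀ j, p (j + 1) - p j ≤ 1 / 4)
    (htop : Tendsto p atTop atTop) :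
    Summable (fun j => (p (j + 1) - p j) * p (j + 1) ^ α * G (p (j + 1)) ^ 2) ∧
    ∀ q, 0 ≤ q → q ≤ 1 / 4 → q * q ^ α * G q ^ 2 ≤
      2 * (α + 3) * ∑' j, (p (j + 1) - p j) * p (j + 1) ^ α * G (p (j + 1)) ^ 2 := by
  have hGc : Continuous G := continuous_iff_continuousAt.2 fun u => (hG u).continuousAt
  have hpow : Continuous fun u : ℝ => u ^ α := Real.continuous_rpow_const (by linarith)
  set A := ∫ u in Ioi (0 : ℝ), u ^ α * G u ^ 2 with hA
  have hpn : ∀ j, 0 ≤ p j := fun j => hp0 ▸ hmono (Nat.zero_le j)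
  have c1 : Continuous fun u => u ^ α * G u ^ 2 := by fun_prop
  have c2 : Continuous fun u => u ^ α * G' u ^ 2 := by fun_prop
  have n1 : ∀ u, 0 ≤ u → 0 ≤ u ^ α * G u ^ 2 := fun u hu => by
    have := Real.rpow_nonneg hu α; positivity
  have n2 : ∀ u, 0 ≤ u → 0 ≤ u ^ α * G' u ^ 2 := fun u hu => by
    have := Real.rpow_nonneg hu α; positivity
  have s1 : ∀ N, ∑ j ∈ Finset.range N, ∫ u in p j..p (j + 1), u ^ α * G u ^ 2
      = ∫ u in (0 : ℝ)..p N, u ^ α * G u ^ 2 := fun N => by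
    rw [intervalIntegral.sum_integral_adjacent_intervals (fun k _ => c1.intervalIntegrable _ _), hp0]
  have s2 : ∀ N, ∑ j ∈ Finset.range N, ∫ u in p j..p (j + 1), u ^ α * G' u ^ 2
      = ∫ u in (0 : ℝ)..p N, u ^ α * G' u ^ 2 := fun N => by
    rw [intervalIntegral.sum_integral_adjacent_intervals (fun k _ => c2.intervalIntegrable _ _), hp0]
  have hloc := fun j => local_bounds α hα G G' hG hG' (p j) (p (j + 1)) (hpn j)
    (hmono (Nat.le_succ j)) (hgap j)
  have hterm : ∀ j, 0 ≤ (p (j + 1) - p j) * p (j + 1) ^ α * G (p (j + 1)) ^ 2 := fun j => by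
    have := Real.rpow_nonneg (hpn (j + 1)) α
    have : 0 ≤ p (j + 1) - p j := sub_nonneg.2 (hmono (Nat.le_succ j))
    positivity
  have hα0 : 0 ≤ α + 2 := by linarith
  have hsum : Summable (fun j => (p (j + 1) - p j) * p (j + 1) ^ α * G (p (j + 1)) ^ 2) := by
    refine summable_of_sum_range_le hterm (c := (α + 3) * A) fun N => ?_
    calc ∑ j ∈ Finset.range N, (p (j + 1) - p j) * p (j + 1) ^ α * G (p (j + 1)) ^ 2
        ≤ ∑ j ∈ Finset.range N, ((α + 2) * (∫ u in p j..p (j + 1), u ^ α * G u ^ 2)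
            + ∫ u in p j..p (j + 1), u ^ α * G' u ^ 2) :=
          Finset.sum_le_sum fun j _ => (hloc j).2
      _ = (α + 2) * (∫ u in (0 : ℝ)..p N, u ^ α * G u ^ 2)
            + ∫ u in (0 : ℝ)..p N, u ^ α * G' u ^ 2 := by
          rw [Finset.sum_add_distrib, ← Finset.mul_sum, s1, s2]
      _ ≤ (α + 2) * A + A := by
          have a1 := interval_le_Ioi _ h1 n1 (p N) (hpn N)
          have a2 := interval_le_Ioi _ h2 n2 (p N) (hpn N)
          rw [← heq] at a2
          exact add_le_add (mul_le_mul_of_nonneg_left a1 hα0) a2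
      _ = (α + 3) * A := by ring
  refine ⟨hsum, fun q hq hq' => ?_⟩
  set S := ∑' j, (p (j + 1) - p j) * p (j + 1) ^ α * G (p (j + 1)) ^ 2 with hS
  have hAS : A ≤ 2 * S := by
    have hN : ∀ N, (3 / 4) * (∫ u in (0 : ℝ)..p N, u ^ α * G u ^ 2) ≤ S + (1 / 4) * A := by
      intro N
      have a2 := interval_le_Ioi _ h2 n2 (p N) (hpn N)
      rw [← heq] at a2
      have a3 : ∑ j ∈ Finset.range N, ((3 / 4) * (∫ u in p j..p (j + 1), u ^ α * G u ^ 2)
            - (1 / 4) * ∫ u in p j..p (j + 1), u ^ α * G' u ^ 2) ≤ S :=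
        (Finset.sum_le_sum fun j _ => (hloc j).1).trans
          (hsum.sum_le_tsum _ fun j _ => hterm j)
      rw [Finset.sum_sub_distrib, ← Finset.mul_sum, ← Finset.mul_sum, s1, s2] at a3
      linarith
    have hlim : Tendsto (fun N => (3 / 4) * (∫ u in (0 : ℝ)..p N, u ^ α * G u ^ 2)) atTop
        (𝓝 ((3 / 4) * A)) :=
      (intervalIntegral_tendsto_integral_Ioi 0 h1 htop).const_mul _
    have := le_of_tendsto' hlim hN
    linarith
  have hq2 := (local_bounds α hα G G' hG hG' 0 q le_rfl hq (by linarith)).2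
  have a1 := interval_le_Ioi _ h1 n1 q hq
  have a2 := interval_le_Ioi _ h2 n2 q hq
  rw [← heq] at a2
  rw [sub_zero] at hq2
  have a3 := mul_le_mul_of_nonneg_left a1 hα0
  have a4 : (α + 3) * A ≤ (α + 3) * (2 * S) := mul_le_mul_of_nonneg_left hAS (by linarith)
  nlinarith

/-- The test function. -/
def gf (α t u : ℝ) : ℝ := exp (-(t * u)) - t ^ (-α) * exp (-(t⁻¹ * u))

/-- Its derivative. -/
def gd (α t u : ℝ) : ℝ := -t * exp (-(t * u)) + t ^ (-α) * t⁻¹ * exp (-(t⁻¹ * u))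

lemma hasDerivAt_gf (α t u : ℝ) : HasDerivAt (gf α t) (gd α t u) u := by
  have h1 : HasDerivAt (fun u => exp (-(t * u))) (exp (-(t * u)) * (-t)) u := by
    simpa using ((hasDerivAt_id u).const_mul t).neg.exp
  have h2 : HasDerivAt (fun u => exp (-(t⁻¹ * u))) (exp (-(t⁻¹ * u)) * (-t⁻¹)) u := by
    simpa using ((hasDerivAt_id u).const_mul t⁻¹).neg.exp
  refine (h1.fun_sub (h2.const_mul (t ^ (-α)))).congr_deriv ?_
  unfold gd; ring

lemma continuous_gd (α t : ℝ) : Continuous (gd α t) := by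
  unfold gd; fun_prop

lemma J_int (α : ℝ) (hα : 1 ≤ α) (r : ℝ) (hr : 0 < r) :
    IntegrableOn (fun u : ℝ => u ^ α * exp (-(r * u))) (Ioi 0) := by
  have := integrableOn_rpow_mul_exp_neg_mul_rpow (p := 1) (s := α) (b := r) (by linarith)
    one_pos hr
  simpa [neg_mul] using this

lemma J_val (α : ℝ) (hα : 1 ≤ α) (r : ℝ) (hr : 0 < r) :
    ∫ u in Ioi (0 : ℝ), u ^ α * exp (-(r * u)) = r ^ (-α) * r⁻¹ * Gamma (α + 1) := by
  have := integral_rpow_mul_exp_neg_mul_Ioi (a := α + 1) (r := r) (by linarith) hr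
  rw [add_sub_cancel_right] at this
  rw [this, one_div, Real.inv_rpow hr.le, Real.rpow_add_one hr.ne', Real.rpow_neg hr.le, mul_inv]

lemma four_int (α : ℝ) (hα : 1 ≤ α) (r1 r2 r3 r4 c1 c2 c3 c4 : ℝ) (h1 : 0 < r1) (h2 : 0 < r2)
    (h3 : 0 < r3) (h4 : 0 < r4) (f : ℝ → ℝ)
    (hf : ∀ u, f u = c1 * (u ^ α * exp (-(r1 * u))) + c2 * (u ^ α * exp (-(r2 * u)))
      + c3 * (u ^ α * exp (-(r3 * u))) + c4 * (u ^ α * exp (-(r4 * u)))) :
    IntegrableOn f (Ioi 0) ∧ ∫ u in Ioi (0 : ℝ), f u =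
      (c1 * (r1 ^ (-α) * r1⁻¹) + c2 * (r2 ^ (-α) * r2⁻¹) + c3 * (r3 ^ (-α) * r3⁻¹)
        + c4 * (r4 ^ (-α) * r4⁻¹)) * Gamma (α + 1) := by
  have e : f = fun u => c1 * (u ^ α * exp (-(r1 * u))) + c2 * (u ^ α * exp (-(r2 * u)))
      + c3 * (u ^ α * exp (-(r3 * u))) + c4 * (u ^ α * exp (-(r4 * u))) := funext hf
  have i1 := (J_int α hα r1 h1).const_mul c1
  have i2 := (J_int α hα r2 h2).const_mul c2
  have i3 := (J_int α hα r3 h3).const_mul c3
  have i4 := (J_int α hα r4 h4).const_mul c4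
  have i12 : Integrable (fun u : ℝ => c1 * (u ^ α * exp (-(r1 * u)))
      + c2 * (u ^ α * exp (-(r2 * u)))) (volume.restrict (Ioi 0)) := i1.add i2
  have i123 : Integrable (fun u : ℝ => c1 * (u ^ α * exp (-(r1 * u)))
      + c2 * (u ^ α * exp (-(r2 * u))) + c3 * (u ^ α * exp (-(r3 * u))))
      (volume.restrict (Ioi 0)) := i12.add i3
  rw [e]
  refine ⟨i123.add i4, ?_⟩
  rw [integral_add i123 i4, integral_add i12 i3, integral_add i1 i2,
    integral_const_mul, integral_const_mul, integral_const_mul, integral_const_mul,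
    J_val α hα r1 h1, J_val α hα r2 h2, J_val α hα r3 h3, J_val α hα r4 h4]
  ring

lemma pair (α : ℝ) (hα : 1 ≤ α) (s t : ℝ) (hs : 0 < s) (ht : 0 < t) :
    IntegrableOn (fun u => u ^ α * (gf α s u * gf α t u)) (Ioi 0) ∧
    IntegrableOn (fun u => u ^ α * (gd α s u * gd α t u)) (Ioi 0) ∧
    ∫ u in Ioi (0 : ℝ), u ^ α * (gf α s u * gf α t u)
      = ∫ u in Ioi (0 : ℝ), u ^ α * (gd α s u * gd α t u) := by
  have hsi : 0 < s⁻¹ := inv_pos.2 hs
  have hti : 0 < t⁻¹ := inv_pos.2 ht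
  have ex : ∀ a b u : ℝ, exp (-((a + b) * u)) = exp (-(a * u)) * exp (-(b * u)) := by
    intro a b u; rw [← Real.exp_add]; ring_nf
  have A := four_int α hα (s + t) (s + t⁻¹) (s⁻¹ + t) (s⁻¹ + t⁻¹) 1 (-t ^ (-α)) (-s ^ (-α))
    (s ^ (-α) * t ^ (-α)) (by positivity) (by positivity) (by positivity) (by positivity)
    (fun u => u ^ α * (gf α s u * gf α t u)) (by
      intro u; simp only [gf, ex]; ring)
  have B := four_int α hα (s + t) (s + t⁻¹) (s⁻¹ + t) (s⁻¹ + t⁻¹) (s * t)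
    (-(s * (t ^ (-α) * t⁻¹))) (-(t * (s ^ (-α) * s⁻¹)))
    (s ^ (-α) * s⁻¹ * (t ^ (-α) * t⁻¹)) (by positivity) (by positivity) (by positivity)
    (by positivity)
    (fun u => u ^ α * (gd α s u * gd α t u)) (by
      intro u; simp only [gd, ex]; ring)
  refine ⟨A.1, B.1, ?_⟩
  rw [A.2, B.2]
  congr 1
  have hst : 0 < s * t + 1 := by positivity
  have hS : 0 < s ^ (-α) := Real.rpow_pos_of_pos hs _
  have hT : 0 < t ^ (-α) := Real.rpow_pos_of_pos ht _
  have e1 : (s + t⁻¹) ^ (-α) = (s * t + 1) ^ (-α) / t ^ (-α) := by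
    rw [← Real.div_rpow hst.le ht.le]; congr 1; field_simp
  have e2 : (s⁻¹ + t) ^ (-α) = (s * t + 1) ^ (-α) / s ^ (-α) := by
    rw [← Real.div_rpow hst.le hs.le]; congr 1; field_simp; ring
  have e3 : (s⁻¹ + t⁻¹) ^ (-α) = (s + t) ^ (-α) / (s ^ (-α) * t ^ (-α)) := by
    rw [← Real.mul_rpow hs.le ht.le, ← Real.div_rpow (by positivity) (by positivity)]
    congr 1; field_simp; ring
  rw [e1, e2, e3]
  have f1 : (s + t⁻¹)⁻¹ = t / (s * t + 1) := by field_simp
  have f2 : (s⁻¹ + t)⁻¹ = s / (s * t + 1) := by field_simp; ring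
  have f3 : (s⁻¹ + t⁻¹)⁻¹ = s * t / (s + t) := by field_simp; ring
  rw [f1, f2, f3]
  field_simp
  ring

/-- Sampling estimate for finite linear combinations of the test functions. -/
lemma comb_bounds (α : ℝ) (hα : 1 ≤ α) (n : ℕ) (c t : Fin n → ℝ) (ht : ∀ i, 0 < t i)
    (p : ℕ → ℝ) (hp0 : p 0 = 0) (hmono : Monotone p) (hgap : ∀ j, p (j + 1) - p j ≤ 1 / 4)
    (htop : Tendsto p atTop atTop) :
    Summable (fun j => (p (j + 1) - p j) * p (j + 1) ^ α
      * (∑ i, c i * gf α (t i) (p (j + 1))) ^ 2) ∧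
    ∀ q, 0 ≤ q → q ≤ 1 / 4 → q * q ^ α * (∑ i, c i * gf α (t i) q) ^ 2 ≤
      2 * (α + 3) * ∑' j, (p (j + 1) - p j) * p (j + 1) ^ α
        * (∑ i, c i * gf α (t i) (p (j + 1))) ^ 2 := by
  have e1 : (fun u => u ^ α * (∑ i, c i * gf α (t i) u) ^ 2) = fun u =>
      ∑ i, ∑ j, c i * c j * (u ^ α * (gf α (t i) u * gf α (t j) u)) := by
    funext u
    rw [sq, Finset.sum_mul_sum, Finset.mul_sum]
    refine Finset.sum_congr rfl fun i _ => ?_
    rw [Finset.mul_sum]
    refine Finset.sum_congr rfl fun j _ => by ring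
  have e2 : (fun u => u ^ α * (∑ i, c i * gd α (t i) u) ^ 2) = fun u =>
      ∑ i, ∑ j, c i * c j * (u ^ α * (gd α (t i) u * gd α (t j) u)) := by
    funext u
    rw [sq, Finset.sum_mul_sum, Finset.mul_sum]
    refine Finset.sum_congr rfl fun i _ => ?_
    rw [Finset.mul_sum]
    refine Finset.sum_congr rfl fun j _ => by ring
  have P := fun i j => pair α hα (t i) (t j) (ht i) (ht j)
  have i1 : ∀ i, IntegrableOn (fun u => ∑ j, c i * c j * (u ^ α * (gf α (t i) u * gf α (t j) u)))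
      (Ioi 0) := fun i => integrable_finsetSum _ fun j _ => (P i j).1.const_mul _
  have i2 : ∀ i, IntegrableOn (fun u => ∑ j, c i * c j * (u ^ α * (gd α (t i) u * gd α (t j) u)))
      (Ioi 0) := fun i => integrable_finsetSum _ fun j _ => (P i j).2.1.const_mul _
  refine global_bounds α hα (fun u => ∑ i, c i * gf α (t i) u) (fun u => ∑ i, c i * gd α (t i) u)
    (fun u => ?_) ?_ ?_ ?_ ?_ p hp0 hmono hgap htop
  · exact HasDerivAt.fun_sum fun i _ => (hasDerivAt_gf α (t i) u).const_mul (c i)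
  · exact continuous_finsetSum _ fun i _ => (continuous_gd α (t i)).const_mul _
  · rw [e1]; exact integrable_finsetSum _ fun i _ => i1 i
  · rw [e2]; exact integrable_finsetSum _ fun i _ => i2 i
  · rw [e1, e2, integral_finsetSum _ fun i _ => i1 i, integral_finsetSum _ fun i _ => i2 i]
    refine Finset.sum_congr rfl fun i _ => ?_
    rw [integral_finsetSum _ fun j _ => (P i j).1.const_mul _,
      integral_finsetSum _ fun j _ => (P i j).2.1.const_mul _]
    refine Finset.sum_congr rfl fun j _ => ?_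
    rw [integral_const_mul, integral_const_mul, (P i j).2.2]

end

end Pool.Agent.H9.Selberg
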