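import Pool.Agent.H9.SelbergA

set_option autoImplicit false

namespace Pool.Agent.H9.Selberg

open Real MeasureTheory Set Filter Topology

noncomputable section

/-- Abstract duality lemma in the space of square-summable sequences. -/
lemma dual_exists {ι : Type} (x : ι → ℕ → ℝ) (hx : ∀ t, Summable fun j => x t j ^ 2) (C : ℝ)
    (hC : ∀ (n : ℕ) (c : Fin n → ℝ) (t : Fin n → ι),
      (∑ i, c i * x (t i) 0) ^ 2 ≤ C * ∑' j, (∑ i, c i * x (t i) (j + 1)) ^ 2) :
    ∃ b : ℕ → ℝ, b 0 = 1 ∧ Summable (fun j => b j ^ 2) ∧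
      ∀ t, HasSum (fun j => b j * x t j) 0 := by
  have hmem : ∀ t, Memℓp (x t : ∀ _ : ℕ, ℝ) 2 := fun t => by
    apply memℓp_gen
    simpa using hx t
  let v : ι → lp (fun _ : ℕ => ℝ) 2 := fun t => ⟨x t, hmem t⟩
  let K : Submodule ℝ (lp (fun _ : ℕ => ℝ) 2) := Submodule.span ℝ (Set.range v)
  let e : lp (fun _ : ℕ => ℝ) 2 := lp.single 2 0 1
  have hin : ∀ y z : lp (fun _ : ℕ => ℝ) 2, HasSum (fun j => y j * z j) (inner ℝ y z) := by
    intro y z
    have := lp.hasSum_inner (𝕜 := ℝ) y z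
    simpa [mul_comm] using this
  let S : Set (lp (fun _ : ℕ => ℝ) 2) := {y | (y 0) ^ 2 ≤ C * (inner ℝ y y - (y 0) ^ 2)}
  have hev : Continuous fun y : lp (fun _ : ℕ => ℝ) 2 => y 0 :=
    (lp.lipschitzWith_one_eval 2 0).continuous
  have hS : IsClosed S := by
    apply isClosed_le
    · exact hev.pow 2
    · exact continuous_const.mul ((continuous_id.inner continuous_id).sub (hev.pow 2))
  have hKS : (K : Set (lp (fun _ : ℕ => ℝ) 2)) ⊆ S := by
    intro y hy
    obtain ⟨n, c, g, rfl⟩ := Submodule.mem_span_set'.1 hy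
    choose t ht using fun i => (g i).2
    have hval : ∀ j, (∑ i, c i • (g i : lp (fun _ : ℕ => ℝ) 2)) j = ∑ i, c i * x (t i) j := by
      intro j
      rw [lp.coeFn_sum, Finset.sum_apply]
      refine Finset.sum_congr rfl fun i _ => ?_
      rw [lp.coeFn_smul, ← ht i]
      rfl
    have h1 := hin (∑ i, c i • (g i : lp (fun _ : ℕ => ℝ) 2)) (∑ i, c i • (g i : lp (fun _ : ℕ => ℝ) 2))
    simp only [hval, ← sq] at h1
    have h2 := h1.summable.tsum_eq_zero_add
    rw [h1.tsum_eq] at h2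
    simp only [S, Set.mem_ofPred_eq]
    rw [hval, h2, add_sub_cancel_left]
    exact hC n c t
  have heS : e ∉ S := by
    have h0 : e 0 = 1 := by simp [e]
    have h1 : inner ℝ e e = (1 : ℝ) := by
      simp only [e]
      rw [lp.inner_single_left]
      simp
    simp only [S, Set.mem_ofPred_eq, h0, h1]
    norm_num
  have heK : e ∉ Kᗮᗮ := by
    rw [Submodule.orthogonal_orthogonal_eq_closure]
    intro h
    exact heS (closure_minimal hKS hS h)
  rw [Submodule.mem_orthogonal] at heK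
  push Not at heK
  obtain ⟨b, hbK, hb⟩ := heK
  have hb0 : inner ℝ b e = b 0 := by
    simp only [e]
    rw [lp.inner_single_right]
    simp
  rw [hb0] at hb
  refine ⟨fun j => b j / b 0, div_self hb, ?_, fun t => ?_⟩
  · have := (hin b b).summable.div_const (b 0 ^ 2)
    refine this.congr fun j => ?_
    rw [div_pow, sq (b j)]
  · have h1 : inner ℝ (v t) b = 0 :=
      (Submodule.mem_orthogonal _ _).1 hbK _ (Submodule.subset_span ⟨t, rfl⟩)
    have h2 := (hin (v t) b).div_const (b 0)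
    rw [h1, zero_div] at h2
    have e3 : (fun j => b j / b 0 * x t j) = fun i => (v t) i * b i / b 0 := by
      funext j
      have : (v t) j = x t j := rfl
      rw [this]; ring
    rw [e3]; exact h2

/-- The frequencies. -/
def mu (α : ℝ) (n : ℕ) : ℝ := (1 / 8) * (n : ℝ) ^ α⁻¹

lemma mu_mono (α : ℝ) (hα : 1 ≤ α) : Monotone (mu α) := by
  intro m n h
  unfold mu
  have : (m : ℝ) ^ α⁻¹ ≤ (n : ℝ) ^ α⁻¹ :=
    Real.rpow_le_rpow (Nat.cast_nonneg m) (Nat.cast_le.2 h) (inv_nonneg.2 (by linarith))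
  linarith

lemma mu_gap (α : ℝ) (hα : 1 ≤ α) (n : ℕ) : mu α (n + 1) - mu α n ≤ 1 / 8 := by
  unfold mu
  have h := Real.rpow_add_le_add_rpow (p := α⁻¹) (a := (n : ℝ)) (b := 1) (Nat.cast_nonneg n)
    zero_le_one (inv_nonneg.2 (by linarith)) (inv_le_one_of_one_le₀ hα)
  rw [Real.one_rpow] at h
  push_cast
  linarith

lemma mu_zero (α : ℝ) (hα : 1 ≤ α) : mu α 0 = 0 := by
  unfold mu
  rw [Nat.cast_zero, Real.zero_rpow (inv_ne_zero (by linarith)), mul_zero]

lemma mu_one (α : ℝ) : mu α 1 = 1 / 8 := by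
  unfold mu; simp

lemma mu_top (α : ℝ) (hα : 1 ≤ α) : Tendsto (mu α) atTop atTop := by
  unfold mu
  exact ((tendsto_rpow_atTop (inv_pos.2 (by linarith))).comp
    tendsto_natCast_atTop_atTop).const_mul_atTop (by norm_num)

lemma mu_pow (α : ℝ) (hα : 1 ≤ α) (n : ℕ) : mu α n ^ α ≤ n := by
  unfold mu
  rw [Real.mul_rpow (by norm_num) (Real.rpow_nonneg (Nat.cast_nonneg n) _),
    Real.rpow_inv_rpow (Nat.cast_nonneg n) (by linarith)]
  have : ((1 : ℝ) / 8) ^ α ≤ 1 := Real.rpow_le_one (by norm_num) (by norm_num) (by linarith)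
  have h0 : (0 : ℝ) ≤ n := Nat.cast_nonneg n
  nlinarith

lemma summable_of_sq (a b : ℕ → ℝ) (hb : Summable fun n => b n ^ 2)
    (hab : ∀ n, a n ^ 2 ≤ b n ^ 2 * n) (σ : ℝ) (hσ : 1 < σ) :
    Summable fun n : ℕ => |a n| / (n : ℝ) ^ σ := by
  have h1 : Summable fun n : ℕ => ((n : ℝ) ^ (2 * σ - 1))⁻¹ :=
    Real.summable_nat_rpow_inv.2 (by linarith)
  refine Summable.of_nonneg_of_le (fun n => by positivity) (fun n => ?_) (hb.add h1)
  rcases Nat.eq_zero_or_pos n with rfl | hn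
  · rw [Nat.cast_zero, Real.zero_rpow (by linarith), div_zero]
    positivity
  have hn' : (0 : ℝ) < n := Nat.cast_pos.2 hn
  have hp : 0 < (n : ℝ) ^ σ := Real.rpow_pos_of_pos hn' _
  have e : (n : ℝ) ^ (2 * σ - 1) = ((n : ℝ) ^ σ) ^ 2 / n := by
    rw [Real.rpow_sub_one hn'.ne', mul_comm, Real.rpow_mul hn'.le, Real.rpow_two]
  rw [e, inv_div]
  have h2 : (|a n| / (n : ℝ) ^ σ) ^ 2 ≤ b n ^ 2 * (n / ((n : ℝ) ^ σ) ^ 2) := by
    rw [div_pow, sq_abs, ← mul_div_assoc]
    exact div_le_div_of_nonneg_right (hab n) (by positivity)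
  have h3 : 0 ≤ (n : ℝ) / ((n : ℝ) ^ σ) ^ 2 := by positivity
  have h4 : 0 ≤ b n ^ 2 := sq_nonneg _
  refine le_of_pow_le_pow_left₀ two_ne_zero (by positivity) (h2.trans ?_)
  nlinarith [mul_nonneg h3 h4, sq_nonneg (b n ^ 2), sq_nonneg ((n : ℝ) / ((n : ℝ) ^ σ) ^ 2)]

lemma exists_coeff (α : ℝ) (hα : 1 ≤ α) :
    ∃ a : ℕ → ℝ, a 0 = 0 ∧ a 1 = 1 ∧
      (∀ σ : ℝ, 1 < σ → Summable fun n : ℕ => |a n| / (n : ℝ) ^ σ) ∧
      ∀ t : ℝ, 0 < t → HasSum (fun n => a n * gf α t (mu α n)) 0 := by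
  let p : ℕ → ℝ := fun j => if j = 0 then 0 else mu α (j + 1)
  have hp0 : p 0 = 0 := by simp [p]
  have hps : ∀ j, p (j + 1) = mu α (j + 2) := fun j => by simp [p]
  have hmu0 : ∀ n, 0 ≤ mu α n := fun n => mu_zero α hα ▸ mu_mono α hα (Nat.zero_le n)
  have hmono : Monotone p := by
    refine monotone_nat_of_le_succ fun j => ?_
    rcases j with _ | j
    · rw [hp0, hps]; exact hmu0 _
    · rw [hps, hps]; exact mu_mono α hα (by omega)
  have hgap : ∀ j, p (j + 1) - p j ≤ 1 / 4 := by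
    intro j
    rcases j with _ | j
    · rw [hp0, hps]
      have := mu_gap α hα 1
      rw [mu_one] at this
      norm_num at this ⊢
      linarith
    · rw [hps, hps]
      have := mu_gap α hα (j + 2)
      linarith
  have htop : Tendsto p atTop atTop := by
    rw [← tendsto_add_atTop_iff_nat 1]
    simp only [hps]
    exact (mu_top α hα).comp (tendsto_add_atTop_nat 2)
  let W : ℕ → ℝ := fun j => (p (j + 1) - p j) * p (j + 1) ^ α
  have hW0 : ∀ j, 0 ≤ W j := fun j =>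
    mul_nonneg (sub_nonneg.2 (hmono (Nat.le_succ j))) (Real.rpow_nonneg (hps j ▸ hmu0 _) _)
  have hW1 : ∀ j, W j ≤ ((j + 2 : ℕ) : ℝ) := fun j => by
    have h1 := mu_pow α hα (j + 2)
    have h2 : 0 ≤ p (j + 1) ^ α := Real.rpow_nonneg (hps j ▸ hmu0 _) _
    have h3 := hgap j
    rw [← hps] at h1
    simp only [W]
    nlinarith
  let x : Ioi (0 : ℝ) → ℕ → ℝ := fun t j =>
    match j with
    | 0 => gf α t (mu α 1)
    | j + 1 => √(W j) * gf α t (p (j + 1))
  have hcomb : ∀ (n : ℕ) (c : Fin n → ℝ) (t : Fin n → Ioi (0 : ℝ)) (j : ℕ),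
      (∑ i, c i * x (t i) (j + 1)) ^ 2
        = (p (j + 1) - p j) * p (j + 1) ^ α * (∑ i, c i * gf α (t i) (p (j + 1))) ^ 2 := by
    intro n c t j
    have : ∑ i, c i * x (t i) (j + 1) = √(W j) * ∑ i, c i * gf α (t i) (p (j + 1)) := by
      rw [Finset.mul_sum]
      exact Finset.sum_congr rfl fun i _ => by simp only [x]; ring
    rw [this, mul_pow, Real.sq_sqrt (hW0 j)]
  have hx : ∀ t, Summable fun j => x t j ^ 2 := by
    intro t
    rw [← summable_nat_add_iff 1]
    have := (comb_bounds α hα 1 (fun _ => 1) (fun _ => t) (fun _ => t.2) p hp0 hmono hgap htop).1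
    refine this.congr fun j => ?_
    rw [← hcomb 1 (fun _ => 1) (fun _ => t) j]
    simp
  have hq : 0 < (1 / 8 : ℝ) * (1 / 8 : ℝ) ^ α := by positivity
  obtain ⟨b, hb0, hb, hbt⟩ := dual_exists x hx
    (2 * (α + 3) / ((1 / 8 : ℝ) * (1 / 8 : ℝ) ^ α)) (by
      intro n c t
      have := (comb_bounds α hα n c (fun i => t i) (fun i => (t i).2) p hp0 hmono hgap htop).2
        (1 / 8) (by norm_num) (by norm_num)
      simp only [hcomb]
      rw [div_mul_eq_mul_div, le_div_iff₀ hq]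
      simp only [x, mu_one]
      linarith)
  let a : ℕ → ℝ := fun n =>
    match n with
    | 0 => 0
    | 1 => 1
    | j + 2 => b (j + 1) * √(W j)
  let b' : ℕ → ℝ := fun n =>
    match n with
    | 0 => 0
    | j + 1 => b j
  refine ⟨a, rfl, rfl, ?_, fun t ht => ?_⟩
  · refine summable_of_sq a b' ?_ ?_
    · rw [← summable_nat_add_iff 1]; exact hb
    · intro n
      match n with
      | 0 => simp [a]
      | 1 => simp [a, b', hb0]
      | j + 2 =>
        simp only [a, b']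
        rw [mul_pow, Real.sq_sqrt (hW0 j)]
        exact mul_le_mul_of_nonneg_left (hW1 j) (sq_nonneg _)
  · rw [← hasSum_nat_add_iff' 1]
    simp only [Finset.range_one, Finset.sum_singleton, a, zero_mul, sub_zero]
    have e : (fun n => a (n + 1) * gf α t (mu α (n + 1))) = fun j => b j * x ⟨t, ht⟩ j := by
      funext j
      rcases j with _ | j
      · simp [a, x, hb0]
      · simp only [a, x, hps]; ring
    have := hbt ⟨t, ht⟩
    rw [← e] at this
    exact this

end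

end Pool.Agent.H9.Selberg
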