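import Pool.Agent.H9.SelbergB

set_option autoImplicit false

namespace Pool.Agent.H9.Selberg

open Real MeasureTheory Set Filter Topology Asymptotics
open scoped ComplexConjugate

noncomputable section

lemma term_bound (a ν t δ : ℝ) (m : ℕ) (hpos : a = 0 ∨ 0 < ν) (hδ : 0 < δ) (ht : δ ≤ t) :
    ‖a * exp (-(ν * t))‖ ≤ (m.factorial / δ ^ m) * (|a| / ν ^ (m : ℝ)) := by
  rcases hpos with rfl | hν
  · simp
  have h1 := Real.pow_div_factorial_le_exp (ν * δ) (by positivity) m
  have h2 : exp (ν * δ) ≤ exp (ν * t) := exp_le_exp.2 (mul_le_mul_of_nonneg_left ht hν.le)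
  have hf : (0 : ℝ) < m.factorial := Nat.cast_pos.2 m.factorial_pos
  have h3 : exp (-(ν * t)) ≤ m.factorial / (ν * δ) ^ m := by
    rw [exp_neg, ← inv_div]
    exact inv_anti₀ (by positivity) (h1.trans h2)
  rw [norm_mul, Real.norm_eq_abs, Real.norm_eq_abs, abs_of_pos (exp_pos _), Real.rpow_natCast]
  calc |a| * exp (-(ν * t)) ≤ |a| * (m.factorial / (ν * δ) ^ m) :=
        mul_le_mul_of_nonneg_left h3 (abs_nonneg a)
    _ = _ := by rw [mul_pow]; field_simp

lemma exists_Lambda (α : ℝ) (hα : 0 < α) (a ν : ℕ → ℝ) (hpos : ∀ n, a n = 0 ∨ 0 < ν n)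
    (hsum : ∀ R : ℝ, α < R → Summable fun n => |a n| / ν n ^ R)
    (hfe : ∀ t : ℝ, 0 < t → HasSum (fun n => a n * gf α t (ν n)) 0) :
    ∃ Λ : ℂ → ℂ, Differentiable ℂ Λ ∧ (∀ w, Λ (α - w) = Λ w) ∧
      (∀ w, Λ (conj w) = conj (Λ w)) ∧
      (∀ w : ℂ, α < w.re → HasSum (fun n => Complex.Gamma w * (a n : ℂ) / (ν n : ℂ) ^ w) (Λ w)) ∧
      (∀ A B : ℝ, ∃ C : ℝ, ∀ w : ℂ, A ≤ w.re → w.re ≤ B → ‖Λ w‖ ≤ C) := by
  let θ : ℝ → ℝ := fun t => ∑' n, a n * exp (-(ν n * t))
  obtain ⟨m₀, hm₀⟩ := exists_nat_gt α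
  have hs : ∀ t : ℝ, 0 < t → Summable fun n => a n * exp (-(ν n * t)) := fun t ht =>
    Summable.of_norm_bounded ((hsum m₀ hm₀).mul_left (m₀.factorial / t ^ m₀))
      fun n => term_bound (a n) (ν n) t t m₀ (hpos n) ht le_rfl
  have hb : ∀ m : ℕ, α < m → ∀ t : ℝ, 0 < t →
      ‖θ t‖ ≤ (m.factorial / t ^ m) * ∑' n, |a n| / ν n ^ (m : ℝ) := fun m hm t ht => by
    rw [← tsum_mul_left]
    exact tsum_of_norm_bounded ((hsum m hm).mul_left _).hasSum
      fun n => term_bound (a n) (ν n) t t m (hpos n) ht le_rfl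
  have hcont : ContinuousOn θ (Ioi 0) := by
    intro x hx
    have hx0 : (0 : ℝ) < x := hx
    have h1 : ContinuousOn θ (Ioi (x / 2)) :=
      continuousOn_tsum (fun n => by fun_prop)
        ((hsum m₀ hm₀).mul_left (m₀.factorial / (x / 2) ^ m₀))
        fun n t ht => term_bound (a n) (ν n) t (x / 2) m₀ (hpos n) (by linarith) (le_of_lt ht)
    exact (h1.continuousAt (Ioi_mem_nhds (by linarith))).continuousWithinAt
  let Θ : ℝ → ℂ := fun t => (θ t : ℂ)
  have hint : LocallyIntegrableOn Θ (Ioi 0) :=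
    (Complex.continuous_ofReal.comp_continuousOn hcont).locallyIntegrableOn measurableSet_Ioi
  have htop : ∀ r : ℝ, (fun x => Θ x - 0) =O[atTop] (· ^ r) := by
    intro r
    obtain ⟨m, hm⟩ := exists_nat_gt (max α (-r))
    refine IsBigO.of_bound (m.factorial * ∑' n, |a n| / ν n ^ (m : ℝ)) ?_
    filter_upwards [eventually_ge_atTop (1 : ℝ)] with t ht
    have ht0 : 0 < t := by linarith
    have h1 := hb m ((le_max_left _ _).trans_lt hm) t ht0
    have h2 : (t ^ m)⁻¹ ≤ t ^ r := by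
      rw [← Real.rpow_natCast, ← Real.rpow_neg ht0.le]
      exact Real.rpow_le_rpow_of_exponent_le ht (by linarith [(le_max_right _ _).trans_lt hm])
    have h3 : 0 ≤ ∑' n, |a n| / ν n ^ (m : ℝ) := by
      refine tsum_nonneg fun n => ?_
      rcases hpos n with h | h
      · simp [h]
      · positivity
    rw [sub_zero, Complex.norm_real, Real.norm_eq_abs (t ^ r),
      abs_of_pos (Real.rpow_pos_of_pos ht0 r)]
    calc ‖θ t‖ ≤ (m.factorial / t ^ m) * ∑' n, |a n| / ν n ^ (m : ℝ) := h1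
      _ = (m.factorial * ∑' n, |a n| / ν n ^ (m : ℝ)) * (t ^ m)⁻¹ := by ring
      _ ≤ _ := mul_le_mul_of_nonneg_left h2 (by positivity)
  have hfeq : ∀ x ∈ Ioi (0 : ℝ), Θ (1 / x) = ((1 : ℂ) * ↑(x ^ α)) • Θ x := by
    intro x hx
    have hx0 : (0 : ℝ) < x := hx
    have h1 := ((hs x hx0).hasSum.sub ((hs x⁻¹ (inv_pos.2 hx0)).hasSum.mul_left (x ^ (-α))))
    have e : (fun n => a n * gf α x (ν n)) = fun n => a n * exp (-(ν n * x))
        - x ^ (-α) * (a n * exp (-(ν n * x⁻¹))) := by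
      funext n; unfold gf; rw [mul_comm x, mul_comm x⁻¹]; ring
    have h2 := hfe x hx0
    rw [e] at h2
    have h3 : θ x - x ^ (-α) * θ x⁻¹ = 0 := h1.unique h2
    have h4 : θ x⁻¹ = x ^ α * θ x := by
      have h5 : x ^ α * x ^ (-α) = 1 := by
        rw [← Real.rpow_add hx0]; simp
      have : θ x = x ^ (-α) * θ x⁻¹ := by linarith
      rw [this, ← mul_assoc, h5, one_mul]
    simp only [Θ, one_div, h4, one_mul, smul_eq_mul, Complex.ofReal_mul]
  let P : WeakFEPair ℂ :=
    { f := Θ, g := Θ, k := α, ε := 1, f₀ := 0, g₀ := 0, hf_int := hint, hg_int := hint,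
      hk := hα, hε := one_ne_zero, h_feq := hfeq, hf_top := htop, hg_top := htop }
  have hP : IsStrongFEPair P := ⟨rfl, rfl⟩
  have hconv : ∀ w, MellinConvergent Θ w := fun w => (hP.hasMellin w).1
  refine ⟨mellin Θ, ?_, fun w => ?_, fun w => ?_, fun w hw => ?_, fun A B => ?_⟩
  · have := hP.differentiable_Λ
    rwa [hP.Λ_eq] at this
  · have := P.functional_equation w
    rw [hP.Λ_eq, hP.symm_Λ_eq] at this
    simpa [P] using this
  · simp only [mellin]
    rw [← integral_conj]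
    refine setIntegral_congr_fun measurableSet_Ioi fun t ht => ?_
    have ht0 : (0 : ℝ) < t := ht
    have harg : (t : ℂ).arg ≠ π := by
      rw [Complex.arg_ofReal_of_nonneg ht0.le]; exact Real.pi_ne_zero.symm
    simp only [smul_eq_mul, map_mul, Θ, Complex.conj_ofReal]
    have : conj w - 1 = conj (w - 1) := by simp
    rw [this, Complex.cpow_conj _ _ harg, Complex.conj_ofReal]
  · refine hasSum_mellin (a := fun n => (a n : ℂ)) (p := ν) (F := Θ) (fun n => ?_) (by linarith)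
      (fun t ht => ?_) ?_
    · rcases hpos n with h | h
      · left; simp [h]
      · right; exact h
    · have := Complex.ofRealCLM.hasSum (hs t ht).hasSum
      simpa [Θ, θ] using this
    · simpa using hsum w.re hw
  · refine ⟨∫ t in Ioi (0 : ℝ), (‖(t : ℂ) ^ ((A : ℂ) - 1) • Θ t‖ + ‖(t : ℂ) ^ ((B : ℂ) - 1) • Θ t‖),
      fun w hA hB => ?_⟩
    refine norm_integral_le_of_norm_le ((hconv A).norm.add (hconv B).norm) ?_
    filter_upwards [ae_restrict_mem measurableSet_Ioi] with t ht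
    have ht0 : (0 : ℝ) < t := ht
    simp only [norm_smul, Complex.norm_cpow_eq_rpow_re_of_pos ht0, Complex.sub_re, Complex.one_re,
      Complex.ofReal_re]
    rw [← add_mul]
    refine mul_le_mul_of_nonneg_right ?_ (norm_nonneg _)
    have p1 := Real.rpow_pos_of_pos ht0 (A - 1)
    have p2 := Real.rpow_pos_of_pos ht0 (B - 1)
    rcases le_total t 1 with h | h
    · have := Real.rpow_le_rpow_of_exponent_ge ht0 h (show A - 1 ≤ w.re - 1 by linarith)
      linarith
    · have := Real.rpow_le_rpow_of_exponent_le h (show w.re - 1 ≤ B - 1 by linarith)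
      linarith

lemma norm_Gamma_le (z : ℂ) (hz : 0 < z.re) : ‖Complex.Gamma z‖ ≤ Real.Gamma z.re := by
  rw [Complex.Gamma_eq_integral hz, Real.Gamma_eq_integral hz, Complex.GammaIntegral]
  refine norm_integral_le_of_norm_le (Real.GammaIntegral_convergent hz) ?_
  filter_upwards [ae_restrict_mem measurableSet_Ioi] with t ht
  have ht0 : (0 : ℝ) < t := ht
  rw [norm_mul, Complex.norm_cpow_eq_rpow_re_of_pos ht0, Complex.norm_real, Real.norm_eq_abs,
    abs_of_pos (exp_pos _)]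
  simp

lemma inv_Gamma_prod (z : ℂ) (m : ℕ) :
    (Complex.Gamma z)⁻¹ = (∏ i ∈ Finset.range m, (z + i)) * (Complex.Gamma (z + m))⁻¹ := by
  induction m with
  | zero => simp
  | succ m ih =>
    rw [ih, Complex.one_div_Gamma_eq_self_mul_one_div_Gamma_add_one (z + m),
      Finset.prod_range_succ]
    push_cast
    rw [add_assoc]; ring

lemma norm_sin_le (z : ℂ) : ‖Complex.sin z‖ ≤ exp |z.im| := by
  rw [Complex.sin]
  have h1 : ‖Complex.exp (-z * Complex.I)‖ ≤ exp |z.im| := by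
    rw [Complex.norm_exp]; apply exp_le_exp.2; simp; exact le_abs_self _
  have h2 : ‖Complex.exp (z * Complex.I)‖ ≤ exp |z.im| := by
    rw [Complex.norm_exp]; apply exp_le_exp.2; simp; exact neg_le_abs _
  have h3 := norm_sub_le (Complex.exp (-z * Complex.I)) (Complex.exp (z * Complex.I))
  rw [norm_div, norm_mul, Complex.norm_I, mul_one]
  simp only [Complex.norm_ofNat]
  linarith

lemma inv_Gamma_refl (z : ℂ) (hz : z.re < 1) :
    (Complex.Gamma z)⁻¹ = Complex.Gamma (1 - z) * Complex.sin (π * z) / π := by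
  have h1 : Complex.Gamma (1 - z) ≠ 0 := Complex.Gamma_ne_zero_of_re_pos (by simp; linarith)
  have h2 := Complex.Gamma_mul_Gamma_one_sub z
  have hpi : (π : ℂ) ≠ 0 := Complex.ofReal_ne_zero.2 Real.pi_ne_zero
  have h3 : Complex.Gamma z = π / Complex.sin (π * z) / Complex.Gamma (1 - z) := by
    rw [← h2]; field_simp
  rw [h3, inv_div, div_div_eq_mul_div]

lemma norm_inv_Gamma_le (z : ℂ) (hz : z.re < 1) :
    ‖(Complex.Gamma z)⁻¹‖ ≤ Real.Gamma (1 - z.re) * exp (π * |z.im|) := by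
  rw [inv_Gamma_refl z hz, norm_div, norm_mul, Complex.norm_real, Real.norm_eq_abs,
    abs_of_pos Real.pi_pos]
  have h1 := norm_Gamma_le (1 - z) (by simp; linarith)
  have h2 := norm_sin_le (π * z)
  simp only [Complex.sub_re, Complex.one_re] at h1
  have e : |((π : ℂ) * z).im| = π * |z.im| := by
    simp [abs_mul, abs_of_pos Real.pi_pos]
  rw [e] at h2
  have h3 : ‖Complex.Gamma (1 - z)‖ * ‖Complex.sin (π * z)‖
      ≤ Real.Gamma (1 - z.re) * exp (π * |z.im|) :=
    mul_le_mul h1 h2 (norm_nonneg _) (Real.Gamma_pos_of_pos (by linarith)).le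
  refine le_trans (div_le_self (by positivity) (by linarith [Real.pi_gt_three])) h3

lemma inv_Gamma_strip (A B : ℝ) : ∃ C : ℝ, ∀ w : ℂ, A ≤ w.re → w.re ≤ B → 1 ≤ |w.im| →
    ‖(Complex.Gamma w)⁻¹‖ ≤ C * exp (π * |w.im|) := by
  obtain ⟨N, hN⟩ := exists_nat_gt B
  have hc : ContinuousOn Real.Gamma (Icc 1 (1 + N - A)) := fun x hx =>
    (Real.differentiableAt_Gamma fun m => by
      have : (0 : ℝ) ≤ m := Nat.cast_nonneg m
      linarith [hx.1]).continuousAt.continuousWithinAt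
  obtain ⟨C, hC⟩ := isCompact_Icc.exists_bound_of_continuousOn hc
  refine ⟨C, fun w hA hB him => ?_⟩
  have h1 := inv_Gamma_prod (w - N) N
  rw [sub_add_cancel] at h1
  have h2 : 1 ≤ ‖∏ i ∈ Finset.range N, (w - N + i)‖ := by
    rw [norm_prod]
    refine Finset.one_le_prod fun i _ => ?_
    refine him.trans (le_trans (le_of_eq ?_) (Complex.abs_im_le_norm _))
    simp
  have h3 := norm_inv_Gamma_le (w - N) (by simp; linarith)
  have h4 := hC (1 - (w - N).re) ⟨by simp; linarith, by simp; linarith⟩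
  have e : (w - N).im = w.im := by simp
  rw [e] at h3
  calc ‖(Complex.Gamma w)⁻¹‖ ≤ ‖∏ i ∈ Finset.range N, (w - N + i)‖ * ‖(Complex.Gamma w)⁻¹‖ :=
        le_mul_of_one_le_left (norm_nonneg _) h2
    _ = ‖(Complex.Gamma (w - N))⁻¹‖ := by rw [h1, norm_mul]
    _ ≤ _ := h3
    _ ≤ _ := mul_le_mul_of_nonneg_right ((le_abs_self _).trans h4) (exp_pos _).le

end

end Pool.Agent.H9.Selberg
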