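import Pool.Agent.H9.SelbergC

set_option autoImplicit false

namespace Pool.Agent.H9.Selberg

open Real MeasureTheory Set Filter Topology Asymptotics
open scoped ComplexConjugate

noncomputable section

/-- Polynomial growth of `Λ / Γ` in vertical strips, by the Phragmen-Lindelof principle. -/
lemma poly_growth (α : ℝ) (hα : 0 < α) (Λ : ℂ → ℂ) (hd : Differentiable ℂ Λ)
    (hfe : ∀ w, Λ (α - w) = Λ w)
    (hright : ∀ R : ℝ, α < R → ∃ S : ℝ, ∀ w : ℂ, w.re = R → ‖Λ w * (Complex.Gamma w)⁻¹‖ ≤ S)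
    (hstrip : ∀ A B : ℝ, ∃ C : ℝ, ∀ w : ℂ, A ≤ w.re → w.re ≤ B → ‖Λ w‖ ≤ C) (A B : ℝ) :
    ∃ (C : ℝ) (m : ℕ), ∀ w : ℂ, A ≤ w.re → w.re ≤ B →
      ‖Λ w * (Complex.Gamma w)⁻¹‖ ≤ C * (1 + |w.im|) ^ m := by
  obtain ⟨m, hm⟩ := exists_nat_gt (α + 2 * |A| + 2 * |B|)
  have hA := neg_abs_le A
  have hB := le_abs_self B
  have hA0 := abs_nonneg A
  have hB0 := abs_nonneg B
  set b : ℝ := (m + α) / 2 with hb
  set a : ℝ := (α - m) / 2 with ha
  have hab : a < b := by rw [ha, hb]; linarith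
  have hbα : α < b := by rw [hb]; linarith
  obtain ⟨S, hS⟩ := hright b hbα
  have hS0 : 0 ≤ S := (norm_nonneg _).trans (hS b (by simp))
  set K : ℝ := 2 + |a| + m with hK
  have hK1 : 1 ≤ K := by
    have := abs_nonneg a
    have : (0 : ℝ) ≤ m := Nat.cast_nonneg m
    linarith
  let D : ℂ → ℂ := fun w => Λ w * (Complex.Gamma w)⁻¹
  have hD : Differentiable ℂ D := hd.mul Complex.differentiable_one_div_Gamma
  let H : ℂ → ℂ := fun w => D w / (w - (a - 1 : ℝ)) ^ m
  have hden : ∀ w : ℂ, a ≤ w.re → 1 ≤ ‖w - (a - 1 : ℝ)‖ := fun w hw => by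
    refine le_trans ?_ (Complex.re_le_norm _)
    simp; linarith
  have hHle : ∀ w : ℂ, a ≤ w.re → ‖H w‖ ≤ ‖D w‖ := fun w hw => by
    simp only [H]
    rw [norm_div, norm_pow]
    exact div_le_self (norm_nonneg _) (one_le_pow₀ (hden w hw))
  have hHd : DiffContOnCl ℂ H (Complex.re ⁻¹' Ioo a b) := by
    apply DifferentiableOn.diffContOnCl
    rw [Complex.closure_preimage_re, closure_Ioo hab.ne]
    refine hD.differentiableOn.div (by fun_prop) fun w hw => pow_ne_zero _ ?_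
    have := hden w hw.1
    intro h; rw [h, norm_zero] at this; linarith
  obtain ⟨C1, hC1⟩ := hstrip a b
  obtain ⟨C2, hC2⟩ := inv_Gamma_strip a b
  have hc : 0 < π / (b - a) / 2 := by
    have := Real.pi_pos
    have : 0 < b - a := by linarith
    positivity
  have hgrow : ∃ c < π / (b - a), ∃ B', H =O[comap (_root_.abs ∘ Complex.im) atTop ⊓
      𝓟 (Complex.re ⁻¹' Ioo a b)] fun z => exp (B' * exp (c * |z.im|)) := by
    refine ⟨π / (b - a) / 2, by linarith, π / (π / (b - a) / 2), ?_⟩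
    refine IsBigO.of_bound (|C1| * |C2|) ?_
    rw [eventually_inf_principal]
    filter_upwards [preimage_mem_comap (eventually_ge_atTop (1 : ℝ))] with w hw hw2
    have hw' : 1 ≤ |w.im| := hw
    have h1 := (hC1 w hw2.1.le hw2.2.le).trans (le_abs_self C1)
    have h2 := hC2 w hw2.1.le hw2.2.le hw'
    set c := π / (b - a) / 2
    have h3 : π * |w.im| ≤ π / c * exp (c * |w.im|) := by
      have := Real.add_one_le_exp (c * |w.im|)
      have h4 : π * |w.im| = π / c * (c * |w.im|) := by field_simp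
      rw [h4]
      exact mul_le_mul_of_nonneg_left (by linarith) (by have := Real.pi_pos; positivity)
    have h5 : ‖(Complex.Gamma w)⁻¹‖ ≤ |C2| * exp (π / c * exp (c * |w.im|)) :=
      h2.trans (mul_le_mul (le_abs_self _) (exp_le_exp.2 h3) (exp_pos _).le (abs_nonneg _))
    rw [Real.norm_eq_abs, abs_of_pos (exp_pos _)]
    refine (hHle w hw2.1.le).trans ?_
    simp only [D]
    rw [norm_mul, mul_assoc]
    exact mul_le_mul h1 h5 (norm_nonneg _) (abs_nonneg _)
  have hright' : ∀ w : ℂ, w.re = b → ‖H w‖ ≤ S * K ^ m := fun w hw =>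
    ((hHle w (by linarith)).trans (hS w hw)).trans (le_mul_of_one_le_right hS0 (one_le_pow₀ hK1))
  have hleft : ∀ w : ℂ, w.re = a → ‖H w‖ ≤ S * K ^ m := fun w hw => by
    have e1 : conj w + m = α - w := by
      apply Complex.ext
      · simp [hw, ha]; ring
      · simp
    have e2 : ‖(Complex.Gamma w)⁻¹‖ = ‖(Complex.Gamma (conj w))⁻¹‖ := by
      rw [Complex.Gamma_conj, norm_inv, norm_inv, Complex.norm_conj]
    have e3 : ‖D w‖ = ‖D (α - w)‖ * ∏ i ∈ Finset.range m, ‖conj w + i‖ := by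
      simp only [D]
      rw [norm_mul, norm_mul, e2, inv_Gamma_prod (conj w) m, e1, hfe, norm_mul, norm_prod]
      ring
    have e4 : ‖D (α - w)‖ ≤ S := hS _ (by simp [hw, ha, hb]; ring)
    have hd1 := hden w hw.ge
    have e5 : ∏ i ∈ Finset.range m, ‖conj w + i‖ ≤ (K * ‖w - (a - 1 : ℝ)‖) ^ m := by
      calc ∏ i ∈ Finset.range m, ‖conj w + i‖
          ≤ ∏ _i ∈ Finset.range m, K * ‖w - (a - 1 : ℝ)‖ := by
            refine Finset.prod_le_prod (fun _ _ => norm_nonneg _) fun i hi => ?_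
            have hi' : (i : ℝ) ≤ m := Nat.cast_le.2 (Finset.mem_range.1 hi).le
            have f1 : conj w + i = conj (w - (a - 1 : ℝ)) + ((a - 1 + i : ℝ) : ℂ) := by
              simp; ring
            have f2 : ‖((a - 1 + i : ℝ) : ℂ)‖ ≤ 1 + |a| + m := by
              rw [Complex.norm_real, Real.norm_eq_abs, abs_le]
              have := neg_abs_le a
              have := le_abs_self a
              have : (0 : ℝ) ≤ i := Nat.cast_nonneg i
              constructor <;> linarith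
            have f3 := norm_add_le (conj (w - (a - 1 : ℝ))) ((a - 1 + i : ℝ) : ℂ)
            rw [← f1, Complex.norm_conj] at f3
            have f4 : 0 ≤ 1 + |a| + m := by positivity
            have f5 := mul_le_mul_of_nonneg_left hd1 f4
            rw [hK]; nlinarith
        _ = _ := by rw [Finset.prod_const, Finset.card_range]
    simp only [H]
    rw [norm_div, norm_pow, div_le_iff₀ (by positivity), e3, mul_assoc, ← mul_pow]
    exact mul_le_mul e4 e5 (Finset.prod_nonneg fun _ _ => norm_nonneg _) hS0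
  refine ⟨S * K ^ m * (b - a + 1) ^ m, m, fun w hwA hwB => ?_⟩
  have hwa : a ≤ w.re := by rw [ha]; linarith
  have hwb : w.re ≤ b := by rw [hb]; linarith
  have hPL := PhragmenLindelof.vertical_strip hHd hgrow hleft hright' hwa hwb
  have hd1 := hden w hwa
  simp only [H] at hPL
  rw [norm_div, norm_pow, div_le_iff₀ (by positivity)] at hPL
  refine hPL.trans ?_
  rw [mul_assoc (S * K ^ m), ← mul_pow]
  refine mul_le_mul_of_nonneg_left (pow_le_pow_left₀ (norm_nonneg _) ?_ m) (by positivity)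
  refine (Complex.norm_le_abs_re_add_abs_im _).trans ?_
  have g1 : |(w - (a - 1 : ℝ)).re| ≤ b - a + 1 := by
    rw [abs_le]; simp; constructor <;> linarith
  have g2 : (w - (a - 1 : ℝ)).im = w.im := by simp
  rw [g2]
  have := abs_nonneg w.im
  nlinarith

/-- From the coefficient sequence to the Dirichlet series. -/
lemma exists_F (α : ℝ) (hα : 0 < α) (c : ℝ) (hc : 0 < c) (a : ℕ → ℝ) (ha0 : a 0 = 0)
    (hsum : ∀ σ : ℝ, 1 < σ → Summable fun n : ℕ => |a n| / (n : ℝ) ^ σ)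
    (hfe : ∀ t : ℝ, 0 < t → HasSum (fun n : ℕ => a n * gf α t (c * (n : ℝ) ^ α⁻¹)) 0) :
    ∃ Λ : ℂ → ℂ, Differentiable ℂ Λ ∧ (∀ w, Λ (α - w) = Λ w) ∧
      (∀ w, Λ (conj w) = conj (Λ w)) ∧
      (∀ s : ℂ, 1 < s.re → LSeriesSummable (fun n => (a n : ℂ)) s ∧
        Λ (α * s) * (Complex.Gamma (α * s))⁻¹ * (c : ℂ) ^ (α * s)
          = LSeries (fun n => (a n : ℂ)) s) ∧
      (∀ A B : ℝ, ∃ (C : ℝ) (m : ℕ), ∀ w : ℂ, A ≤ w.re → w.re ≤ B →
        ‖Λ w * (Complex.Gamma w)⁻¹‖ ≤ C * (1 + |w.im|) ^ m) := by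
  let ν : ℕ → ℝ := fun n => c * (n : ℝ) ^ α⁻¹
  have hpos : ∀ n, a n = 0 ∨ 0 < ν n := fun n => by
    rcases Nat.eq_zero_or_pos n with rfl | hn
    · exact Or.inl ha0
    · right
      have : (0 : ℝ) < n := Nat.cast_pos.2 hn
      positivity
  have hsum' : ∀ R : ℝ, α < R → Summable fun n => |a n| / ν n ^ R := fun R hR => by
    have h1 := (hsum (α⁻¹ * R) (by rw [inv_mul_eq_div, one_lt_div hα]; exact hR)).div_const (c ^ R)
    refine h1.congr fun n => ?_
    simp only [ν]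
    rw [Real.mul_rpow hc.le (Real.rpow_nonneg (Nat.cast_nonneg n) _),
      ← Real.rpow_mul (Nat.cast_nonneg n), div_div, mul_comm (c ^ R)]
  obtain ⟨Λ, hd, hFE, hconj, hHas, hstrip⟩ := exists_Lambda α hα a ν hpos hsum' hfe
  have hD : ∀ w : ℂ, α < w.re →
      HasSum (fun n => (a n : ℂ) / (ν n : ℂ) ^ w) (Λ w * (Complex.Gamma w)⁻¹) := fun w hw => by
    have h1 := (hHas w hw).mul_right (Complex.Gamma w)⁻¹
    have h2 : Complex.Gamma w ≠ 0 := Complex.Gamma_ne_zero_of_re_pos (by linarith)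
    have e : (fun n => (a n : ℂ) / (ν n : ℂ) ^ w)
        = fun n => Complex.Gamma w * (a n : ℂ) / (ν n : ℂ) ^ w * (Complex.Gamma w)⁻¹ := by
      funext n; field_simp
    rw [e]; exact h1
  refine ⟨Λ, hd, hFE, hconj, fun s hs => ?_, poly_growth α hα Λ hd hFE (fun R hR => ?_) hstrip⟩
  · have hre : α < ((α : ℂ) * s).re := by
      simp only [Complex.re_ofReal_mul]; nlinarith
    have h1 := (hD _ hre).mul_right ((c : ℂ) ^ ((α : ℂ) * s))
    have e : (fun n => (a n : ℂ) / (ν n : ℂ) ^ ((α : ℂ) * s) * (c : ℂ) ^ ((α : ℂ) * s))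
        = LSeries.term (fun n => (a n : ℂ)) s := by
      funext n
      rcases Nat.eq_zero_or_pos n with rfl | hn
      · simp [ha0]
      have hn' : (0 : ℝ) < n := Nat.cast_pos.2 hn
      rw [LSeries.term_of_ne_zero hn.ne']
      simp only [ν]
      rw [Complex.ofReal_mul, Complex.mul_cpow_ofReal_nonneg hc.le (Real.rpow_nonneg hn'.le _)]
      have h2 : (((n : ℝ) ^ α⁻¹ : ℝ) : ℂ) ^ ((α : ℂ) * s) = (n : ℂ) ^ s := by
        rw [← Complex.cpow_mul_ofReal_nonneg hn'.le, ← mul_assoc, ← Complex.ofReal_mul,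
          inv_mul_cancel₀ hα.ne']
        simp
      have h3 : (c : ℂ) ^ ((α : ℂ) * s) ≠ 0 :=
        Complex.cpow_ne_zero_iff.2 (Or.inl (Complex.ofReal_ne_zero.2 hc.ne'))
      rw [h2]; field_simp
    rw [e] at h1
    exact ⟨h1.summable, h1.tsum_eq.symm⟩
  · refine ⟨∑' n, |a n| / ν n ^ R, fun w hw => ?_⟩
    rw [← (hD w (by linarith)).tsum_eq]
    refine tsum_of_norm_bounded (hsum' R hR).hasSum fun n => le_of_eq ?_
    rcases hpos n with h | h
    · simp [h]
    · rw [norm_div, Complex.norm_cpow_eq_rpow_re_of_pos h, hw, Complex.norm_real, Real.norm_eq_abs]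

end

end Pool.Agent.H9.Selberg
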