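import Mathlib

set_option autoImplicit false

namespace Pool.Agent.H9.Slender

open Function

/-- tail decomposition -/
lemma tail (ψ : (ℕ → ℤ) →+ ℤ) (x : ℕ → ℤ) (n : ℕ) (d : ℤ) (h : ∀ m, n ≤ m → d ∣ x m) :
    d ∣ ψ x - ∑ i ∈ Finset.range n, x i * ψ (Pi.single i 1) := by
  classical
  let y : ℕ → ℤ := fun m => if n ≤ m then x m / d else 0
  have hx : x = (∑ i ∈ Finset.range n, x i • (Pi.single i 1 : ℕ → ℤ)) + d • y := by
    funext m
    simp only [Pi.add_apply, Finset.sum_apply, Pi.smul_apply, smul_eq_mul, y, Pi.single_apply]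
    by_cases hm : n ≤ m
    · rw [if_pos hm, Finset.sum_eq_zero, Int.mul_ediv_cancel' (h m hm), zero_add]
      intro i hi
      rw [if_neg, mul_zero]
      have := Finset.mem_range.mp hi
      omega
    · rw [if_neg hm, Finset.sum_eq_single m]
      · simp
      · intro i _ hi; rw [if_neg (Ne.symm hi), mul_zero]
      · intro hi; exact absurd (Finset.mem_range.mpr (by omega)) hi
  have : ψ x = ∑ i ∈ Finset.range n, x i * ψ (Pi.single i 1) + d * ψ y := by
    conv_lhs => rw [hx]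
    rw [map_add, map_sum, map_zsmul]
    simp only [map_zsmul, smul_eq_mul]
  rw [this]
  simp

lemma pow_zero_of (ψ : (ℕ → ℤ) →+ ℤ) (h : ∀ n, ψ (Pi.single n 1) = 0) (p : ℤ) (hp : 2 ≤ p)
    (a : ℕ → ℤ) : ψ (fun n => p ^ n * a n) = 0 := by
  have h1 : ∀ n : ℕ, p ^ n ∣ ψ (fun n => p ^ n * a n) := by
    intro n
    have := tail ψ (fun n => p ^ n * a n) n (p ^ n)
      (fun m hm => Dvd.dvd.mul_right (pow_dvd_pow p hm) _)
    simpa [h] using this
  set z := ψ (fun n => p ^ n * a n)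
  apply Int.eq_zero_of_abs_lt_dvd (h1 z.natAbs)
  have h2 : (z.natAbs : ℤ) < 2 ^ z.natAbs := by exact_mod_cast Nat.lt_two_pow_self
  calc |z| = (z.natAbs : ℤ) := (Int.natCast_natAbs z).symm
    _ < 2 ^ z.natAbs := h2
    _ ≤ p ^ z.natAbs := pow_le_pow_left₀ (by norm_num) hp _

theorem specker_b (ψ : (ℕ → ℤ) →+ ℤ) (h : ∀ n, ψ (Pi.single n 1) = 0) (x : ℕ → ℤ) : ψ x = 0 := by
  have hc : ∀ n : ℕ, ∃ u v : ℤ, u * 2 ^ n + v * 3 ^ n = 1 := fun n =>
    (IsCoprime.pow (m := n) (n := n) (by norm_num : IsCoprime (2 : ℤ) 3))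
  choose u v huv using hc
  have : x = (fun n => 2 ^ n * (u n * x n)) + fun n => 3 ^ n * (v n * x n) := by
    funext n
    simp only [Pi.add_apply]
    linear_combination (-x n) * huv n
  rw [this, map_add, pow_zero_of ψ h 2 le_rfl, pow_zero_of ψ h 3 (by norm_num), add_zero]

theorem specker_a (ψ : (ℕ → ℤ) →+ ℤ) : ∃ n, ψ (Pi.single n 1) = 0 := by
  by_contra hne
  push Not at hne
  set a : ℕ → ℤ := fun n => ψ (Pi.single n 1) with ha
  let q : ℕ → ℤ × ℤ := fun n => Nat.rec (1, 0)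
    (fun n r => (r.1 * (2 * (r.2 + r.1 * a n ^ 2) + 1), r.2 + r.1 * a n ^ 2)) n
  have q1 : ∀ n, (q (n + 1)).1 = (q n).1 * (2 * (q (n + 1)).2 + 1) := fun n => rfl
  have q2 : ∀ n, (q (n + 1)).2 = (q n).2 + (q n).1 * a n ^ 2 := fun n => rfl
  have ha2 : ∀ n, 1 ≤ a n ^ 2 := fun n => by
    have : a n ≠ 0 := hne n
    have : 0 < a n ^ 2 := by positivity
    omega
  have hq : ∀ n : ℕ, 1 ≤ (q n).1 ∧ (n : ℤ) ≤ (q n).2 := by
    intro n
    induction n with
    | zero => exact ⟨le_rfl, le_rfl⟩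
    | succ n ih =>
      have h2 : ((n + 1 : ℕ) : ℤ) ≤ (q (n + 1)).2 := by
        rw [q2]; push_cast; nlinarith [ha2 n, ih.1, ih.2]
      refine ⟨?_, h2⟩
      rw [q1]
      have : (0 : ℤ) ≤ ((n + 1 : ℕ) : ℤ) := Nat.cast_nonneg _
      nlinarith [ih.1]
  have hdvd : ∀ n m, n ≤ m → (q n).1 ∣ (q m).1 := by
    intro n m hnm
    induction m, hnm using Nat.le_induction with
    | base => exact dvd_rfl
    | succ m _ ih => rw [q1]; exact ih.mul_right _
  have hS : ∀ n, ∑ i ∈ Finset.range n, ((q i).1 * a i) * a i = (q n).2 := by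
    intro n
    induction n with
    | zero => rfl
    | succ n ih => rw [Finset.sum_range_succ, ih, q2]; ring
  let x : ℕ → ℤ := fun i => (q i).1 * a i
  set z := ψ x
  have h1 := tail ψ x (z.natAbs + 1) (q (z.natAbs + 1)).1
    (fun m hm => (hdvd _ _ hm).mul_right _)
  have h2 : ∑ i ∈ Finset.range (z.natAbs + 1), x i * ψ (Pi.single i 1) = (q (z.natAbs + 1)).2 :=
    hS _
  rw [h2] at h1
  have h3 := (hq (z.natAbs + 1)).2
  have h4 := (hq z.natAbs).1
  have h5 := q1 z.natAbs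
  have h6 : 2 * (q (z.natAbs + 1)).2 + 1 ≤ (q (z.natAbs + 1)).1 := by
    rw [h5]
    have : (0 : ℤ) ≤ ((z.natAbs + 1 : ℕ) : ℤ) := Nat.cast_nonneg _
    nlinarith
  have h7 := Int.eq_zero_of_abs_lt_dvd h1 (by
    rw [abs_lt]; push_cast at h3
    constructor <;> cases abs_cases z <;> omega)
  push_cast at h3
  cases abs_cases z <;> omega

variable {X : Type}

def Psi (idx : X → ℕ) (y : X → ℤ) : (ℕ → ℤ) →+ (X → ℤ) where
  toFun k := fun b => k (idx b) * y b
  map_zero' := by funext b; simp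
  map_add' k l := by funext b; simp [add_mul]

def Null (φ : (X → ℤ) →+ ℤ) (A : Set X) : Prop := ∀ x : X → ℤ, (∀ b, b ∉ A → x b = 0) → φ x = 0

lemma Null.mono {φ : (X → ℤ) →+ ℤ} {A B : Set X} (h : Null φ B) (hAB : A ⊆ B) : Null φ A :=
  fun x hx => h x fun b hb => hx b fun hA => hb (hAB hA)

lemma null_iUnion {φ : (X → ℤ) →+ ℤ} (A : ℕ → Set X) (h : ∀ n, Null φ (A n)) :
    Null φ (⋃ n, A n) := by
  classical
  intro x hx
  let idx : X → ℕ := fun b => if hb : ∃ n, b ∈ A n then hb.choose else 0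
  have h1 : Psi idx x (fun _ => 1) = x := by funext b; simp [Psi]
  rw [← h1]
  apply specker_b (φ.comp (Psi idx x))
  intro n
  apply h n
  intro b hb
  show (Pi.single n (1 : ℤ) : ℕ → ℤ) (idx b) * x b = 0
  by_cases hb2 : ∃ n, b ∈ A n
  · have : idx b ≠ n := by
      intro h3
      apply hb
      have := hb2.choose_spec
      simp only [idx, dif_pos hb2] at h3
      rwa [h3] at this
    simp [this]
  · rw [hx b (by simpa using hb2), mul_zero]

lemma null_union {φ : (X → ℤ) →+ ℤ} {A B : Set X} (hA : Null φ A) (hB : Null φ B) :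
    Null φ (A ∪ B) := by
  have := null_iUnion (φ := φ) (fun n => if n = 0 then A else B) (fun n => by
    split_ifs <;> assumption)
  refine this.mono ?_
  rintro b (hb | hb)
  · exact Set.mem_iUnion.mpr ⟨0, by simpa using hb⟩
  · exact Set.mem_iUnion.mpr ⟨1, by simpa using hb⟩

lemma exists_null {φ : (X → ℤ) →+ ℤ} (U : ℕ → Set X) (hU : Pairwise (Disjoint on U)) :
    ∃ n, Null φ (U n) := by
  classical
  by_contra hne
  have : ∀ n, ∃ x : X → ℤ, (∀ b, b ∉ U n → x b = 0) ∧ φ x ≠ 0 := by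
    intro n
    by_contra h
    apply hne
    refine ⟨n, fun x hx => ?_⟩
    by_contra h2
    exact h ⟨x, hx, h2⟩
  choose x hx1 hx2 using this
  let idx : X → ℕ := fun b => if hb : ∃ n, b ∈ U n then hb.choose else 0
  obtain ⟨n, hn⟩ := specker_a (φ.comp (Psi idx fun b => x (idx b) b))
  apply hx2 n
  rw [← hn]
  show φ (x n) = φ (Psi idx (fun b => x (idx b) b) (Pi.single n 1))
  congr 1
  funext b
  show x n b = (Pi.single n (1 : ℤ) : ℕ → ℤ) (idx b) * x (idx b) b
  by_cases h : idx b = n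
  · simp [h]
  · rw [Pi.single_eq_of_ne h, zero_mul]
    apply hx1
    intro hb
    apply h
    have hb2 : ∃ n, b ∈ U n := ⟨n, hb⟩
    have h3 := hb2.choose_spec
    simp only [idx, dif_pos hb2]
    by_contra h4
    exact Set.disjoint_left.mp (hU h4) h3 hb

theorem los [TopologicalSpace X] [T2Space X] [SecondCountableTopology X] (φ : (X → ℤ) →+ ℤ) :
    ∃ B : Set X, B.Finite ∧ Null φ Bᶜ := by
  let N : Set (Set X) := {V | IsOpen V ∧ Null φ V}
  obtain ⟨T, hTc, hTN, hT⟩ := TopologicalSpace.isOpen_sUnion_countable N (fun s hs => hs.1)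
  have hnull : Null φ (⋃₀ N) := by
    rw [← hT]
    rcases T.eq_empty_or_nonempty with h | h
    · rw [h]
      intro x hx
      have : x = 0 := by funext b; exact hx b (by simp)
      rw [this, map_zero]
    · obtain ⟨f, hf⟩ := hTc.exists_eq_range h
      rw [hf, Set.sUnion_range]
      apply null_iUnion
      intro n
      exact (hTN (hf ▸ Set.mem_range_self n)).2
  refine ⟨(⋃₀ N)ᶜ, ?_, by rwa [compl_compl]⟩
  by_contra hinf
  have : Infinite ((⋃₀ N)ᶜ : Set X) := Set.infinite_coe_iff.mpr hinf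
  obtain ⟨U, hU1, hU2, hU3⟩ := exists_seq_infinite_isOpen_pairwise_disjoint ((⋃₀ N)ᶜ : Set X)
  obtain ⟨n, hn⟩ := exists_null (φ := φ) (fun n => Subtype.val '' U n) (fun i j hij =>
    (Set.disjoint_image_iff Subtype.val_injective).mpr (hU3 hij))
  obtain ⟨V, hV, hVU⟩ := isOpen_induced_iff.mp (hU2 n)
  obtain ⟨b, hb⟩ := (hU1 n).nonempty
  have hVn : Null φ V := by
    refine (null_union hn hnull).mono ?_
    intro c hc
    by_cases h : c ∈ ⋃₀ N
    · exact Or.inr h
    · left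
      exact ⟨⟨c, h⟩, by rw [← hVU]; exact hc, rfl⟩
  apply b.2
  refine ⟨V, ⟨hV, hVn⟩, ?_⟩
  rw [← hVU] at hb
  exact hb

theorem cont [TopologicalSpace X] [T2Space X] [SecondCountableTopology X] (φ : (X → ℤ) →+ ℤ) :
    Continuous φ := by
  classical
  obtain ⟨B, hB, hN⟩ := los φ
  have : (φ : (X → ℤ) → ℤ) = fun x => ∑ b ∈ hB.toFinset, x b * φ (Pi.single b 1) := by
    funext x
    have h1 : φ (x - ∑ b ∈ hB.toFinset, x b • (Pi.single b 1 : X → ℤ)) = 0 := by
      apply hN
      intro c hc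
      have hc' : c ∈ hB.toFinset := by simpa using hc
      simp only [Pi.sub_apply, Finset.sum_apply, Pi.smul_apply, smul_eq_mul]
      rw [Finset.sum_eq_single c]
      · simp
      · intro i _ hi; rw [Pi.single_eq_of_ne (Ne.symm hi), mul_zero]
      · intro h; exact absurd hc' h
    rw [map_sub, map_sum, sub_eq_zero] at h1
    rw [h1]
    simp only [map_zsmul, smul_eq_mul]
  rw [this]
  fun_prop

@[reducible] def T (G : Type) [AddCommGroup G] : TopologicalSpace G :=
  ⨅ f : G →+ ℤ, TopologicalSpace.induced f inferInstance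

lemma T_group (G : Type) [AddCommGroup G] : @IsTopologicalAddGroup G (T G) _ :=
  topologicalAddGroup_iInf fun f => topologicalAddGroup_induced f

lemma T_cont (G H : Type) [AddCommGroup G] [AddCommGroup H] (f : G →+ H) :
    @Continuous G H (T G) (T H) f := by
  refine continuous_iInf_rng.mpr fun g => continuous_induced_rng.mpr ?_
  exact continuous_iInf_dom (i := g.comp f) continuous_induced_dom

lemma T_eq [TopologicalSpace X] [T2Space X] [SecondCountableTopology X] :
    T (X → ℤ) = Pi.topologicalSpace := by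
  apply le_antisymm
  · refine le_iInf fun b => ?_
    exact iInf_le_of_le (Pi.evalAddMonoidHom (fun _ : X => ℤ) b) le_rfl
  · exact le_iInf fun f => continuous_iff_le_induced.mp (cont f)

def dn (p : Σ n : ℕ, ((Fin n → Bool) → ℤ)) : (ℕ → Bool) → ℤ := fun b => p.2 fun i => b i

lemma dense_dn : Dense (Set.range dn) := by
  classical
  intro x
  rw [mem_closure_iff_nhds]
  intro t ht
  rw [nhds_pi, Filter.mem_pi] at ht
  obtain ⟨I, hI, s, hs, hst⟩ := ht
  obtain ⟨n, hn⟩ : ∃ n : ℕ, ∀ b ∈ I, ∀ c ∈ I, (∀ i : Fin n, b i = c i) → b = c := by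
    have h1 : ∀ p : (ℕ → Bool) × (ℕ → Bool), ∃ m : ℕ, p.1 m = p.2 m → p.1 = p.2 := by
      intro p
      by_cases h : p.1 = p.2
      · exact ⟨0, fun _ => h⟩
      · obtain ⟨m, hm⟩ := Function.ne_iff.mp h
        exact ⟨m, fun h => absurd h hm⟩
    choose m hm using h1
    obtain ⟨n, hn⟩ := ((hI.prod hI).image m).bddAbove
    refine ⟨n + 1, fun b hb c hc h => hm (b, c) ?_⟩
    have : m (b, c) ≤ n := hn ⟨(b, c), ⟨hb, hc⟩, rfl⟩
    exact h ⟨m (b, c), by omega⟩
  let g : (Fin n → Bool) → ℤ := fun w =>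
    if h : ∃ b ∈ I, (fun i : Fin n => b i) = w then x h.choose else 0
  refine ⟨dn ⟨n, g⟩, hst ?_, Set.mem_range_self _⟩
  intro b hb
  have h : ∃ c ∈ I, (fun i : Fin n => c i) = fun i : Fin n => b i := ⟨b, hb, rfl⟩
  have h2 : dn ⟨n, g⟩ b = x b := by
    show g (fun i : Fin n => b i) = x b
    simp only [g, dif_pos h]
    congr 1
    exact hn _ h.choose_spec.1 b hb fun i => congrFun h.choose_spec.2 i
  rw [h2]
  exact mem_of_mem_nhds (hs b)

theorem main :
    ∃ T : (G : Type) → [AddCommGroup G] → TopologicalSpace G,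
      (∀ (G : Type) [AddCommGroup G], @IsTopologicalAddGroup G (T G) _) ∧
      (∀ (G H : Type) [AddCommGroup G] [AddCommGroup H] (f : G →+ H),
          @Continuous G H (T G) (T H) f) ∧
      ∃ (G : Type) (_ : AddCommGroup G), Infinite G ∧ @T2Space G (T G) ∧
        ∃ D : Set G, @Dense G (T G) D ∧
          (2 : Cardinal) ^ Cardinal.mk ↥D < Cardinal.mk G := by
  refine ⟨fun G _ => T G, T_group, T_cont, (ℕ → Bool) → ℤ, inferInstance, inferInstance, ?_,
    Set.range dn, ?_, ?_⟩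
  · show @T2Space _ (T ((ℕ → Bool) → ℤ))
    rw [T_eq]; infer_instance
  · show @Dense _ (T ((ℕ → Bool) → ℤ)) _
    rw [T_eq]; exact dense_dn
  · have h1 : Cardinal.mk (Set.range dn) ≤ Cardinal.aleph0 :=
      Cardinal.mk_le_aleph0_iff.mpr (Set.countable_range dn).to_subtype
    have h2 : Cardinal.mk (ℕ → Bool) = 2 ^ Cardinal.aleph0 := by simp
    calc (2 : Cardinal) ^ Cardinal.mk (Set.range dn) ≤ 2 ^ Cardinal.aleph0 :=
          Cardinal.power_le_power_left two_ne_zero h1
      _ = Cardinal.mk (ℕ → Bool) := h2.symm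
      _ < 2 ^ Cardinal.mk (ℕ → Bool) := Cardinal.cantor _
      _ ≤ Cardinal.mk ℤ ^ Cardinal.mk (ℕ → Bool) := by
          apply Cardinal.power_le_power_right
          rw [Cardinal.mk_int]
          exact_mod_cast (Cardinal.natCast_lt_aleph0 (n := 2)).le
      _ = Cardinal.mk ((ℕ → Bool) → ℤ) := by rw [Cardinal.power_def]

end Pool.Agent.H9.Slender
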