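import Mathlib

/-! A Cantor scheme for open relations, a relative Baire lemma and a local Simons inequality. -/
namespace Pool.Agent.H9.Supp1
open Set Filter Metric Function Topology

lemma split {α : Type} [MetricSpace α] [SecondCountableTopology α] (I : Set α → Prop)
    (hmono : ∀ s t, s ⊆ t → I t → I s)
    (hU : ∀ S : Set (Set α), S.Countable → (∀ s ∈ S, I s) → I (⋃₀ S))
    (R : α → α → Prop) (hR : IsOpen {p : α × α | R p.1 p.2})
    (hs : ∀ s, ¬ I s → ∃ x ∈ s, ∃ y ∈ s, R x y) (C : Set α) (hC : IsClosed C ∧ ¬ I C) (n : ℕ) :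
    ∃ D : Bool → Set α, (∀ b, (IsClosed (D b) ∧ ¬ I (D b)) ∧ D b ⊆ C ∧
      ediam (D b) ≤ 2 * ENNReal.ofReal (1 / ((n : ℝ) + 1))) ∧
      ∀ x ∈ D false, ∀ y ∈ D true, R x y := by
  let P := {x ∈ C | ∀ r > 0, ¬ I (C ∩ closedBall x r)}
  have hP : ¬ I P := fun h => by
    have : ∀ x, ∃ r > 0, x ∈ C \ P → I (C ∩ closedBall x r) := fun x => by
      by_cases hx : x ∈ C \ P
      · have := hx.2
        simp only [P, mem_ofPred, not_and, not_forall, not_not] at this
        obtain ⟨r, h1, h2⟩ := this hx.1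
        exact ⟨r, h1, fun _ => h2⟩
      · exact ⟨1, one_pos, fun h => absurd h hx⟩
    choose r hr hr' using this
    obtain ⟨t, h1, h2, h3⟩ := TopologicalSpace.countable_cover_nhdsWithin (s := C \ P)
      (f := fun x => closedBall x (r x))
      fun x _ => mem_nhdsWithin_of_mem_nhds (closedBall_mem_nhds x (hr x))
    refine hC.2 (hmono _ _ ?_ (hU (insert P ((fun x => C ∩ closedBall x (r x)) '' t))
      ((h2.image _).insert _) ?_))
    · intro x hx
      by_cases hxP : x ∈ P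
      · exact ⟨P, mem_insert _ _, hxP⟩
      · obtain ⟨y, hy, h4⟩ := mem_iUnion₂.1 (h3 ⟨hx, hxP⟩)
        exact ⟨_, mem_insert_of_mem _ ⟨y, hy, rfl⟩, hx, h4⟩
    · rintro s (rfl | ⟨y, hy, rfl⟩)
      exacts [h, hr' y (h1 hy)]
  obtain ⟨x, hx, y, hy, hxy⟩ := hs P hP
  obtain ⟨e, he, hb⟩ := Metric.nhds_basis_closedBall.mem_iff.1
    (hR.mem_nhds (show (x, y) ∈ _ from hxy))
  have hn : (0 : ℝ) < 1 / ((n : ℝ) + 1) := Nat.one_div_pos_of_nat
  have hr : 0 < min e (1 / ((n : ℝ) + 1)) := lt_min he hn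
  have hd : ∀ z : α, ediam (C ∩ closedBall z (min e (1 / ((n : ℝ) + 1)))) ≤
      2 * ENNReal.ofReal (1 / ((n : ℝ) + 1)) := fun z => by
    refine ediam_le fun a ha b hb => ?_
    rw [edist_dist, ← ENNReal.ofReal_ofNat, ← ENNReal.ofReal_mul (by norm_num)]
    refine ENNReal.ofReal_le_ofReal ((dist_triangle_right a b z).trans ?_)
    have h1 := (mem_closedBall.1 ha.2).trans (min_le_right _ _)
    have h2 := (mem_closedBall.1 hb.2).trans (min_le_right _ _)
    linarith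
  refine ⟨fun b => C ∩ closedBall (if b then y else x) (min e (1 / ((n : ℝ) + 1))), fun b =>
    ⟨⟨hC.1.inter isClosed_closedBall, ?_⟩, inter_subset_left, hd _⟩, fun a ha b hb' => ?_⟩
  · cases b
    exacts [hx.2 _ hr, hy.2 _ hr]
  · exact hb (show dist (a, b) (x, y) ≤ e from max_le
      ((mem_closedBall.1 ha.2).trans (min_le_left _ _))
      ((mem_closedBall.1 hb'.2).trans (min_le_left _ _)))

theorem scheme {α : Type} [MetricSpace α] [CompleteSpace α] [SecondCountableTopology α]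
    (I : Set α → Prop) (hmono : ∀ s t, s ⊆ t → I t → I s)
    (hU : ∀ S : Set (Set α), S.Countable → (∀ s ∈ S, I s) → I (⋃₀ S))
    (R : α → α → Prop) (hR : IsOpen {p : α × α | R p.1 p.2}) (hsym : ∀ x y, R x y → R y x)
    (hs : ∀ s, ¬ I s → ∃ x ∈ s, ∃ y ∈ s, R x y) (C : Set α) (hC : IsClosed C ∧ ¬ I C) :
    ∃ f : (ℕ → Bool) → α, range f ⊆ C ∧ Continuous f ∧ ∀ a b, a ≠ b → R (f a) (f b) := by
  choose F h0 h1 using split I hmono hU R hR hs
  let DP : List Bool → {E : Set α // IsClosed E ∧ ¬ I E} := fun l =>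
    l.rec ⟨C, hC⟩ fun a l ih => ⟨F ih.1 ih.2 l.length a, (h0 _ _ _ _).1⟩
  let D : List Bool → Set α := fun l => (DP l).1
  have hanti : CantorScheme.ClosureAntitone D :=
    CantorScheme.Antitone.closureAntitone (fun l a => (h0 _ _ _ _).2.1) fun l => (DP l).2.1
  have hdiam : CantorScheme.VanishingDiam D := by
    intro x
    rw [← tendsto_add_atTop_iff_nat 1]
    have hu : Tendsto (fun n : ℕ => 2 * ENNReal.ofReal (1 / ((n : ℝ) + 1))) atTop (𝓝 0) := by
      simpa using ENNReal.Tendsto.const_mul (a := 2)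
        (ENNReal.tendsto_ofReal tendsto_one_div_add_atTop_nhds_zero_nat) (Or.inr (by simp))
    refine tendsto_of_tendsto_of_tendsto_of_le_of_le tendsto_const_nhds hu (fun _ => zero_le)
      fun n => ?_
    have := (h0 (DP (PiNat.res x n)).1 (DP (PiNat.res x n)).2 (PiNat.res x n).length (x n)).2.2
    conv_rhs at this => rw [PiNat.res_length]
    exact this
  have hdom : ∀ {x : ℕ → Bool}, x ∈ (CantorScheme.inducedMap D).1 := fun {x} => by
    rw [hanti.map_of_vanishingDiam hdiam fun l => ?_]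
    · exact mem_univ _
    · obtain ⟨x, hx, -⟩ := hs _ (DP l).2.2
      exact ⟨x, hx⟩
  refine ⟨fun x => (CantorScheme.inducedMap D).2 ⟨x, hdom⟩, ?_,
    hdiam.map_continuous.comp (by fun_prop), fun a b hab => ?_⟩
  · rintro y ⟨x, rfl⟩
    exact CantorScheme.map_mem ⟨_, hdom⟩ 0
  · by_contra hn
    refine hab (PiNat.res_injective (funext fun n => ?_))
    induction n with
    | zero => simp
    | succ n ih =>
      have e1 := CantorScheme.map_mem (A := D) ⟨a, hdom⟩ (n + 1)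
      have e2 := CantorScheme.map_mem (A := D) ⟨b, hdom⟩ (n + 1)
      simp only [PiNat.res_succ] at e1 e2 ⊢
      rw [← ih] at e2 ⊢
      cases ha : a n <;> cases hb : b n <;> rw [ha] at e1 <;> rw [hb] at e2
      · exact absurd (h1 _ _ _ _ e1 _ e2) hn
      · exact absurd (hsym _ _ (h1 _ _ _ _ e2 _ e1)) hn

lemma baire_rel {α ι : Type} [MetricSpace α] [CompleteSpace α] [Countable ι] (Z : Set α)
    (V : ι → Set α) (hV : ∀ i, IsOpen (V i)) (hd : ∀ i, Z ⊆ closure (Z ∩ V i)) (V0 : Set α)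
    (h0 : IsOpen V0) (hne : (Z ∩ V0).Nonempty) : ∃ p ∈ V0, ∀ i, p ∈ V i := by
  have : CompleteSpace (closure Z) := isClosed_closure.completeSpace_coe
  have h1 : Dense (⋂ i, Subtype.val ⁻¹' V i : Set (closure Z)) :=
    dense_iInter_of_isOpen (fun i => (hV i).preimage continuous_subtype_val) fun i => by
      rw [Subtype.dense_iff, Subtype.image_preimage_coe]
      exact closure_minimal ((hd i).trans
        (closure_mono (inter_subset_inter_left _ subset_closure))) isClosed_closure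
  obtain ⟨p, hp, hp'⟩ := hne
  obtain ⟨q, h2, h3⟩ := h1.inter_open_nonempty _ (h0.preimage continuous_subtype_val)
    ⟨⟨p, subset_closure hp⟩, hp'⟩
  exact ⟨q, h2, fun i => mem_iInter.1 h3 i⟩

variable {X : Type} [NormedAddCommGroup X] [NormedSpace ℝ X]

/-- support functionals -/
def J (x : X) : Set (X →L[ℝ] ℝ) := {g | ‖g‖ ≤ 1 ∧ g x = ‖x‖}

lemma le_norm {g : X →L[ℝ] ℝ} (hg : ‖g‖ ≤ 1) (x : X) : g x ≤ ‖x‖ :=
  (le_abs_self _).trans ((g.le_opNorm x).trans (mul_le_of_le_one_left (norm_nonneg _) hg))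

lemma usc {T : Type} [TopologicalSpace T] (u : T → X) (hu : Continuous u)
    (F : T → (X →L[ℝ] ℝ) → Prop) (hF : IsClosed {p : T × WeakDual ℝ X | F p.1 p.2}) :
    IsClosed {t | ∃ g ∈ J (u t), F t g} := by
  let K : Set (WeakDual ℝ X) := WeakDual.toStrongDual ⁻¹' closedBall 0 1
  have : CompactSpace K := isCompact_iff_compactSpace.1 (WeakDual.isCompact_closedBall 0 1)
  have h1 : IsClosed {p : T × K | (∀ y, ‖u p.1‖ - ‖u p.1 - y‖ ≤ p.2.1 y) ∧ F p.1 p.2.1} := by
    refine IsClosed.inter ?_ (hF.preimage (f := fun p : T × K => (p.1, p.2.1)) (by fun_prop))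
    show IsClosed {p : T × K | ∀ y, ‖u p.1‖ - ‖u p.1 - y‖ ≤ p.2.1 y}
    rw [ofPred_forall]
    exact isClosed_iInter fun y => isClosed_le (by fun_prop)
      ((WeakDual.eval_continuous y).comp (by fun_prop))
  convert isClosedMap_fst_of_compactSpace _ h1
  ext t
  constructor
  · rintro ⟨g, ⟨h2, h3⟩, h4⟩
    refine ⟨(t, ⟨g, mem_closedBall_zero_iff.2 h2⟩), ⟨fun y => ?_, h4⟩, rfl⟩
    have := le_norm h2 (u t - y)
    rw [map_sub, h3] at this
    show _ ≤ g y
    linarith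
  · rintro ⟨⟨t, g, hg⟩, ⟨h2, h3⟩, rfl⟩
    have h4 : ‖WeakDual.toStrongDual g‖ ≤ 1 := mem_closedBall_zero_iff.1 hg
    exact ⟨g, ⟨h4, le_antisymm (le_norm h4 _) ((by simp : ‖u t‖ ≤ ‖u t‖ - ‖u t - u t‖).trans (h2 (u t)))⟩, h3⟩

lemma simons [CompleteSpace X] (C : ℕ → Set X) (hconv : ∀ n, Convex ℝ (C n)) (hanti : Antitone C)
    (hne : ∀ n, (C n).Nonempty) (hb : ∀ n, ∀ z ∈ C n, ‖z‖ ≤ 1) (x : X) {a θ m : ℝ} (ha : 0 < a)
    (hθ : 0 < θ) (h0 : ∀ z ∈ C 0, ‖x‖ + a * m ≤ ‖x + a • z‖) :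
    ∃ s, ‖s - x‖ ≤ 2 * a ∧ ∀ g ∈ J s, ∀ n M, (∀ z ∈ C n, g z ≤ M) → m - θ ≤ M := by
  let q : ℕ → ℝ := fun n => a / 2 ^ n
  have hq : ∀ n, 0 < q n := fun n => by positivity
  have hq' : ∀ n, q (n + 1) = q n / 2 := fun n => by simp only [q]; ring
  have : ∀ n (s : X), ∃ z ∈ C n, ∀ w ∈ C n, ‖s + q n • z‖ ≤ ‖s + q n • w‖ + θ * q n / 2 ^ n / 6 := by
    intro n s
    obtain ⟨_, ⟨z, hz, rfl⟩, h⟩ := Real.lt_sInf_add_pos ((hne n).image fun w => ‖s + q n • w‖)
      (show 0 < θ * q n / 2 ^ n / 6 by have := hq n; positivity)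
    refine ⟨z, hz, fun w hw => h.le.trans
      (add_le_add_left (csInf_le ⟨0, ?_⟩ (mem_image_of_mem _ hw)) _)⟩
    rintro _ ⟨w, -, rfl⟩
    exact norm_nonneg _
  choose nx h1 h2 using this
  let s : ℕ → X := fun n => n.rec x fun n s => s + q n • nx n s
  have hs : ∀ n, s (n + 1) = s n + q n • nx n (s n) := fun _ => rfl
  have hd : ∀ n, dist (s n) (s (n + 1)) ≤ 2 * a / 2 / 2 ^ n := fun n => by
    rw [hs, dist_self_add_right, norm_smul, Real.norm_of_nonneg (hq n).le]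
    refine (mul_le_of_le_one_right (hq n).le (hb n _ (h1 _ _))).trans (le_of_eq ?_)
    simp only [q]; ring
  obtain ⟨l, hl⟩ := cauchySeq_tendsto_of_complete (cauchySeq_of_le_geometric_two hd)
  have h3 : ∀ n, ‖s n‖ + q n * (m - θ + θ / 2 ^ n) ≤ ‖s (n + 1)‖ := fun n => by
    induction n with
    | zero => simpa [q, s] using h0 _ (h1 0 x)
    | succ n ih =>
      have h4 := h2 n (s n) _ (hconv n (h1 n (s n)) (hanti n.le_succ (h1 (n + 1) (s (n + 1))))
        (by norm_num : (0 : ℝ) ≤ 2 / 3) (by norm_num : (0 : ℝ) ≤ 1 / 3) (by norm_num))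
      have h5 : s n + q n • ((2 / 3 : ℝ) • nx n (s n) + (1 / 3 : ℝ) • nx (n + 1) (s (n + 1))) =
          (1 / 3 : ℝ) • s n + (2 / 3 : ℝ) • s (n + 2) := by
        rw [hs (n + 1), hq']
        generalize nx (n + 1) (s (n + 1)) = w
        rw [hs]
        module
      have h6 := norm_add_le ((1 / 3 : ℝ) • s n) ((2 / 3 : ℝ) • s (n + 2))
      rw [norm_smul, norm_smul, Real.norm_of_nonneg (by norm_num),
        Real.norm_of_nonneg (by norm_num)] at h6
      rw [h5, ← hs] at h4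
      have h7 : q (n + 1) * (m - θ + θ / 2 ^ (n + 1)) =
        (q n * (m - θ + θ / 2 ^ n) - 3 * (θ * q n / 2 ^ n / 6)) / 2 := by rw [hq']; ring
      rw [h7]
      linarith
  have hq0 : Tendsto q atTop (𝓝 0) :=
    tendsto_const_nhds.div_atTop (tendsto_pow_atTop_atTop_of_one_lt one_lt_two)
  refine ⟨l, ?_, fun g hg n M hM => ?_⟩
  · rw [← dist_eq_norm']
    exact dist_le_of_le_geometric_two_of_tendsto₀ hd hl
  · have h4 : Monotone fun k => ‖s (k + n)‖ - g (s (k + n)) + 2 * q (k + n) * (m - θ - M) := by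
      refine monotone_nat_of_le_succ fun k => ?_
      have h5 := h3 (k + n)
      have h6 := hM _ (hanti (Nat.le_add_left n k) (h1 (k + n) (s (k + n))))
      have h7 : 0 ≤ q (k + n) * (θ / 2 ^ (k + n)) := by have := hq (k + n); positivity
      have h8 := mul_le_mul_of_nonneg_left h6 (hq (k + n)).le
      rw [Nat.add_right_comm k 1 n, hq', hs (k + n), map_add, map_smul, ← hs, smul_eq_mul]
      linarith
    have h5 := h4.ge_of_tendsto (((hl.norm.sub ((g.continuous.tendsto _).comp hl)).add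
      ((hq0.const_mul 2).mul_const (m - θ - M))).comp (tendsto_add_atTop_nat n)) 0
    have h6 := le_norm hg.1 (s (0 + n))
    rw [hg.2] at h5
    have h7 := hq (0 + n)
    nlinarith

end Pool.Agent.H9.Supp1
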