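import Pool.Agent.H9.Supp1

/-! Smooth points whose derivative is far from a given sequence of functionals. -/
namespace Pool.Agent.H9.Supp2
open Set Filter Metric Function Topology Supp1

variable {X : Type} [NormedAddCommGroup X] [NormedSpace ℝ X]

def Cn (y : ℕ → X →L[ℝ] ℝ) (n : ℕ) : Set X := {z | ‖z‖ ≤ 1 ∧ ∀ i < n, y i z = 0}

def Big (y : ℕ → X →L[ℝ] ℝ) (g : X →L[ℝ] ℝ) (e : ℝ) : Prop :=
  ∀ n M, (∀ z ∈ Cn y n, g z ≤ M) → e ≤ M

lemma conv_Cn (y : ℕ → X →L[ℝ] ℝ) (n : ℕ) : Convex ℝ (Cn y n) := by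
  intro u hu v hv a b ha hb hab
  refine ⟨mem_closedBall_zero_iff.1 (convex_closedBall (0 : X) 1 (mem_closedBall_zero_iff.2 hu.1)
    (mem_closedBall_zero_iff.2 hv.1) ha hb hab), fun i hi => ?_⟩
  simp [hu.2 i hi, hv.2 i hi]

lemma loc [CompleteSpace X] (y : ℕ → X →L[ℝ] ℝ) {f : X →L[ℝ] ℝ} (hf : ‖f‖ ≤ 1) {e d θ : ℝ}
    (he : Big y f e) (x : X) (hd : 0 < d) (hθ : 0 < θ) (hx : ‖x‖ ≤ f x + d) :
    ∃ s, ‖s - x‖ ≤ 2 * (d / θ) ∧ ∀ g ∈ J s, Big y g (e - 3 * θ) := by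
  obtain ⟨s, h1, h2⟩ := simons (fun n => Cn y n ∩ {z | e - θ ≤ f z})
    (fun n => (conv_Cn y n).inter (convex_halfSpace_ge (f : X →ₗ[ℝ] ℝ).isLinear _))
    (fun n m h z hz => ⟨⟨hz.1.1, fun i hi => hz.1.2 i (hi.trans_le h)⟩, hz.2⟩)
    (fun n => by
      by_contra h
      have := he n (e - θ) fun z hz => le_of_not_ge fun h' => h ⟨z, hz, h'⟩
      linarith)
    (fun n z hz => hz.1.1) x (div_pos hd hθ) hθ (m := e - 2 * θ) fun z hz => by
      have h1 := le_norm hf (x + (d / θ) • z)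
      have h2 := mul_le_mul_of_nonneg_left (show e - θ ≤ f z from hz.2) (div_pos hd hθ).le
      have h3 : d / θ * θ = d := div_mul_cancel₀ _ hθ.ne'
      rw [map_add, map_smul, smul_eq_mul] at h1
      linarith
  exact ⟨s, h1, fun g hg n M hM => by have := h2 g hg n M fun z hz => hM z hz.1; linarith⟩

lemma J_ne (x : X) : (J x).Nonempty := by
  obtain ⟨g, h1, h2⟩ := exists_dual_vector'' ℝ x
  exact ⟨g, h1, h2⟩

lemma width [CompleteSpace X] (y : ℕ → X →L[ℝ] ℝ) {x : X} {e : ℝ} (he : ∀ g ∈ J x, Big y g e)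
    (h : X) {k θ r : ℝ} (hk : 0 < k) (hθ : 0 < θ) (hr : 0 < r) :
    ∃ s, ‖s - x‖ < r ∧ (∀ g ∈ J s, Big y g (e - 3 * θ)) ∧ ∀ g ∈ J s, ∀ g' ∈ J s, g h - g' h < k := by
  obtain ⟨c, hc, hck⟩ : ∃ c > 0, c + 4 * (c / θ) = k := ⟨k * θ / (θ + 4), by positivity, by
    field_simp⟩
  obtain ⟨_, ⟨f, hf, rfl⟩, h1⟩ := Real.add_neg_lt_sSup ((J_ne x).image fun g => g h)
    (neg_lt_zero.2 hc)
  have h2 : IsClosed {s : X | ∃ g ∈ J s, f h + c ≤ g h} := usc id continuous_id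
    (fun _ g => f h + c ≤ g h)
    (isClosed_le continuous_const ((WeakDual.eval_continuous h).comp continuous_snd))
  have h3 : x ∈ {s : X | ∃ g ∈ J s, f h + c ≤ g h}ᶜ := by
    rintro ⟨g, hg, h4⟩
    have : g h ≤ sSup ((fun g => g h) '' J x) :=
      le_csSup ⟨‖h‖, by rintro _ ⟨g, hg, rfl⟩; exact le_norm hg.1 h⟩ ⟨g, hg, rfl⟩
    linarith
  obtain ⟨r0, hr0, h4⟩ := Metric.isOpen_iff.1 h2.isOpen_compl x h3
  have h5 : ∀ s, ‖s - x‖ < r0 → ∀ g ∈ J s, g h < f h + c := fun s hs g hg =>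
    lt_of_not_ge fun h6 => h4 (mem_ball_iff_norm.2 hs) ⟨g, hg, h6⟩
  obtain ⟨t, ht, h6⟩ : ∃ t > 0, t * (‖h‖ + 2 * (c / θ)) < min r r0 := by
    have : 0 < ‖h‖ + 2 * (c / θ) := by positivity
    refine ⟨min r r0 / 2 / (‖h‖ + 2 * (c / θ)), by positivity, ?_⟩
    rw [div_mul_cancel₀ _ this.ne']
    exact half_lt_self (lt_min hr hr0)
  have h7 : ‖x + t • h - x‖ = t * ‖h‖ := by simp [norm_smul, abs_of_pos ht]
  have h8 : 0 < t * (c / θ) := by positivity
  obtain ⟨s, h9, h10⟩ := loc y hf.1 (he f hf) (x + t • h) (mul_pos ht hc) hθ (by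
    obtain ⟨g, hg⟩ := J_ne (x + t • h)
    have e1 := mul_lt_mul_of_pos_left (h5 _ (by have := min_le_right r r0; linarith) g hg) ht
    have e2 := le_norm hg.1 x
    rw [← hg.2, map_add, map_add, map_smul, map_smul, hf.2, smul_eq_mul, smul_eq_mul]
    linarith)
  have h11 : ‖s - x‖ < min r r0 := by
    have := norm_sub_le_norm_sub_add_norm_sub s (x + t • h) x
    rw [mul_div_assoc] at h9
    linarith
  refine ⟨s, h11.trans_le (min_le_left _ _), h10, fun g hg g' hg' => ?_⟩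
  have e1 := h5 s (h11.trans_le (min_le_right _ _)) g hg
  have e2 := le_norm hf.1 s
  have e3 := le_norm hf.1 (x + t • h - s)
  have e4 := le_norm hg'.1 (s - (x + t • h))
  have e5 := le_norm hg'.1 x
  rw [norm_sub_rev] at e3
  rw [map_sub, map_add, map_smul, smul_eq_mul] at e3 e4
  rw [hg'.2] at e4
  rw [hf.2] at e3
  rw [mul_div_assoc] at h9
  have e6 : t * (f h - 4 * (c / θ)) ≤ t * g' h := by linarith
  have := le_of_mul_le_mul_left e6 ht
  linarith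

lemma exists_big (hX : ¬ TopologicalSpace.SeparableSpace (X →L[ℝ] ℝ)) (y : ℕ → X →L[ℝ] ℝ) :
    ∃ f e, ‖f‖ ≤ 1 ∧ 0 < e ∧ Big y f e := by
  by_contra hn
  have h1 : ∀ f : X →L[ℝ] ℝ, ‖f‖ ≤ 1 → f ∈ (Submodule.span ℝ (range y)).topologicalClosure := by
    intro f hf
    refine Metric.mem_closure_iff.2 fun e he => ?_
    have : ¬ Big y f e := fun h => hn ⟨f, e, hf, he, h⟩
    simp only [Big, not_forall, not_le] at this
    obtain ⟨n, M, hM, hMe⟩ := this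
    let p : Submodule ℝ X := ⨅ i : Fin n, LinearMap.ker (y i : X →ₗ[ℝ] ℝ)
    have hp : ∀ v : p, ‖v‖ ≤ 1 → f v ≤ M := fun v hv =>
      hM v ⟨hv, fun i hi => (Submodule.mem_iInf _).1 v.2 ⟨i, hi⟩⟩
    obtain ⟨g, h2, h3⟩ := exists_extension_norm_eq p (f.comp p.subtypeL)
    have h4 : ‖f.comp p.subtypeL‖ ≤ M := ContinuousLinearMap.opNorm_le_of_unit_norm
      (by simpa using hp 0 (by simp)) fun v hv => abs_le.2 ⟨by
        have := hp (-v) (by simp [hv])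
        rw [Submodule.coe_neg, map_neg] at this
        exact neg_le.1 this, hp v hv.le⟩
    obtain ⟨a, ha⟩ := (Submodule.mem_span_range_iff_exists_fun ℝ).1
      (mem_span_of_iInf_ker_le_ker (L := fun i : Fin n => (y i : X →ₗ[ℝ] ℝ))
        (K := ((f - g : X →L[ℝ] ℝ) : X →ₗ[ℝ] ℝ)) fun v hv => sub_eq_zero.2 (h2 ⟨v, hv⟩).symm)
    refine ⟨f - g, ?_, by rw [dist_eq_norm, sub_sub_cancel, h3]; exact h4.trans_lt hMe⟩
    have : f - g = ∑ i, a i • y i := by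
      ext v
      simpa using (LinearMap.congr_fun ha v).symm
    rw [this]
    exact Submodule.sum_mem _ fun i _ => Submodule.smul_mem _ _ (Submodule.subset_span ⟨_, rfl⟩)
  refine hX (TopologicalSpace.isSeparable_univ_iff.1
    ((countable_range y).isSeparable.span (R := ℝ).closure.mono fun f _ => ?_))
  have h2 : 0 < ‖f‖ + 1 := by positivity
  have := Submodule.smul_mem _ (‖f‖ + 1) (h1 ((‖f‖ + 1)⁻¹ • f) (by
    rw [norm_smul, norm_inv, Real.norm_of_nonneg h2.le, inv_mul_le_iff₀ h2]; linarith))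
  rwa [smul_inv_smul₀ h2.ne'] at this

theorem smooth_far [CompleteSpace X] [TopologicalSpace.SeparableSpace X]
    (hX : ¬ TopologicalSpace.SeparableSpace (X →L[ℝ] ℝ)) (y : ℕ → X →L[ℝ] ℝ) :
    ∃ (x : X) (e : ℝ), ‖x‖ = 1 ∧ 0 < e ∧ (J x).Subsingleton ∧ ∀ g ∈ J x, ∀ i, e < ‖g - y i‖ := by
  let h := TopologicalSpace.denseSeq X
  let Z : Set (X × ℝ) := {p | 0 < p.2 ∧ ∀ g ∈ J p.1, Big y g p.2}
  let V : ℕ × ℕ → Set (X × ℝ) := fun i =>
    {p | ∃ g ∈ J p.1, ∀ z ∈ Cn y i.1, g z ≤ p.2 / 2}ᶜ ∩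
      {p | ∃ g ∈ J p.1, ∃ g' ∈ J p.1, 1 / ((i.2 : ℝ) + 1) ≤ g (h i.1) - g' (h i.1)}ᶜ
  obtain ⟨⟨x, e⟩, he, hV⟩ := baire_rel Z V (fun i => IsOpen.inter (isOpen_compl_iff.2
      (usc _ continuous_fst _ (by
        simp only [ofPred_forall]
        exact isClosed_iInter fun z => isClosed_iInter fun _ => isClosed_le
          ((WeakDual.eval_continuous z).comp continuous_snd) (by fun_prop))))
      (isOpen_compl_iff.2 (usc _ continuous_fst _
        (usc (T := (X × ℝ) × WeakDual ℝ X) _ continuous_fst.fst _ (isClosed_le continuous_const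
          (((WeakDual.eval_continuous _).comp continuous_fst.snd).sub
            ((WeakDual.eval_continuous _).comp continuous_snd)))))))
    (by
      rintro i ⟨x, e⟩ ⟨h1, h2⟩
      refine Metric.mem_closure_iff.2 fun r hr => ?_
      have h3 : 0 < min r e := lt_min hr h1
      have h4 := min_le_left r e
      have h5 := min_le_right r e
      obtain ⟨s, e1, e2, e3⟩ := width y h2 (h i.1) (k := 1 / ((i.2 : ℝ) + 1)) (θ := min r e / 4)
        Nat.one_div_pos_of_nat (by positivity) hr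
      have h6 : 0 < e - 3 * (min r e / 4) := by linarith
      refine ⟨(s, e - 3 * (min r e / 4)), ⟨⟨h6, e2⟩, ?_, ?_⟩, max_lt ?_ ?_⟩
      · rintro ⟨g, hg, h7⟩
        have := e2 g hg _ _ h7
        linarith
      · rintro ⟨g, hg, g', hg', h7⟩
        exact not_le.2 (e3 g hg g' hg') h7
      · rwa [dist_comm, dist_eq_norm]
      · rw [Real.dist_eq, abs_lt]
        constructor <;> linarith)
    {p | 0 < p.2} (isOpen_lt continuous_const continuous_snd) (by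
      obtain ⟨f, e, h1, h2, h3⟩ := exists_big hX y
      obtain ⟨s, -, h4⟩ := loc y h1 h3 0 one_pos (show 0 < e / 4 by positivity) (by simp)
      have : 0 < e - 3 * (e / 4) := by linarith
      exact ⟨(s, _), ⟨this, h4⟩, this⟩)
  have he' : 0 < e := he
  have h1 : ∀ g ∈ J x, ∀ n, ∃ z ∈ Cn y n, e / 2 < g z := fun g hg n => by
    by_contra hn
    exact (hV (n, 0)).1 ⟨g, hg, fun z hz => le_of_not_gt fun h => hn ⟨z, hz, h⟩⟩
  have h2 : ∀ g ∈ J x, ∀ g' ∈ J x, ∀ n, g (h n) ≤ g' (h n) := fun g hg g' hg' n => by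
    by_contra hn
    obtain ⟨k, hk⟩ := exists_nat_one_div_lt (sub_pos.2 (not_le.1 hn))
    exact (hV (n, k)).2 ⟨g, hg, g', hg', hk.le⟩
  have hx : 0 < ‖x‖ := norm_pos_iff.2 fun h0 => by
    obtain ⟨z, -, hz⟩ := h1 0 ⟨by simp, by simp [h0]⟩ 0
    simp only [zero_apply] at hz
    linarith
  have hn : ‖‖x‖⁻¹ • x‖ = 1 := norm_smul_inv_norm (norm_pos_iff.1 hx)
  have h3 : J (‖x‖⁻¹ • x) ⊆ J x := fun g hg => ⟨hg.1, by
    have := hg.2
    rwa [hn, map_smul, smul_eq_mul, inv_mul_eq_one₀ hx.ne', eq_comm] at this⟩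
  refine ⟨_, e / 2, hn, by positivity, Subsingleton.anti (fun g hg g' hg' => ?_) h3,
    fun g hg i => ?_⟩
  · exact DFunLike.coe_injective ((TopologicalSpace.denseRange_denseSeq X).equalizer g.continuous
      g'.continuous (funext fun n => le_antisymm (h2 g hg g' hg' n) (h2 g' hg' g hg n)))
  · obtain ⟨z, hz, h4⟩ := h1 g (h3 hg) (i + 1)
    have h5 := (le_abs_self _).trans (((g - y i).le_opNorm z).trans
      (mul_le_of_le_one_right (norm_nonneg _) hz.1))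
    rw [sub_apply, hz.2 i i.lt_succ_self] at h5
    linarith

theorem main [CompleteSpace X] [TopologicalSpace.SeparableSpace X]
    (hX : ¬ TopologicalSpace.SeparableSpace (X →L[ℝ] ℝ)) :
    ∃ (e : ℝ) (f : (ℕ → Bool) → X), 0 < e ∧ range f ⊆ sphere 0 1 ∧ Continuous f ∧
      ∀ a b, a ≠ b → ¬ ∃ g ∈ J (f a), ∃ g' ∈ J (f b), ‖g - g'‖ ≤ e := by
  have := UniformSpace.secondCountable_of_separable X
  let I : ℝ → Set X → Prop := fun e s => ∃ Y : Set (X →L[ℝ] ℝ), Y.Countable ∧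
    ∀ x ∈ s, (J x).Subsingleton → ∀ g ∈ J x, ∃ g' ∈ Y, ‖g - g'‖ ≤ e
  obtain ⟨k, hk⟩ : ∃ k : ℕ, ¬ I (1 / ((k : ℝ) + 1)) (sphere 0 1) := by
    by_contra hn
    simp only [not_exists, not_not] at hn
    choose Y h1 h2 using hn
    obtain ⟨y, hy⟩ := ((countable_iUnion h1).insert 0).exists_eq_range (insert_nonempty _ _)
    obtain ⟨x, e, e1, e2, e3, e4⟩ := smooth_far hX y
    obtain ⟨k, hk⟩ := exists_nat_one_div_lt e2
    obtain ⟨g, hg⟩ := J_ne x
    obtain ⟨g', h3, h4⟩ := h2 k x (mem_sphere_zero_iff_norm.2 e1) e3 g hg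
    obtain ⟨i, rfl⟩ : g' ∈ range y := hy ▸ mem_insert_of_mem _ (mem_iUnion.2 ⟨k, h3⟩)
    have := e4 g hg i
    linarith
  have he : (0 : ℝ) < 1 / ((k : ℝ) + 1) := Nat.one_div_pos_of_nat
  generalize 1 / ((k : ℝ) + 1) = e at hk he
  obtain ⟨f, h1, h2, h3⟩ := scheme (I e) (fun s t h ⟨Y, h1, h2⟩ => ⟨Y, h1, fun x hx => h2 x (h hx)⟩)
    (fun S hS h => by
      choose! Y h1 h2 using h
      refine ⟨⋃ s ∈ S, Y s, hS.biUnion h1, ?_⟩
      rintro x ⟨s, hs, hx⟩ h3 g hg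
      obtain ⟨g', h4, h5⟩ := h2 s hs x hx h3 g hg
      exact ⟨g', mem_biUnion hs h4, h5⟩)
    (fun x x' => ¬ ∃ g ∈ J x, ∃ g' ∈ J x', ‖g - g'‖ ≤ e)
    (isOpen_compl_iff.2 (usc _ continuous_fst _
      (usc (T := (X × X) × WeakDual ℝ X) _ continuous_fst.snd _ (by
        simp only [ContinuousLinearMap.opNorm_le_iff he.le, ofPred_forall]
        exact isClosed_iInter fun z => isClosed_le
          (((WeakDual.eval_continuous z).comp continuous_fst.snd).sub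
            ((WeakDual.eval_continuous z).comp continuous_snd)).norm continuous_const))))
    (fun x x' h ⟨g, hg, g', hg', h1⟩ => h ⟨g', hg', g, hg, by rwa [norm_sub_rev]⟩)
    (fun s hs => by
      by_contra hn
      by_cases h : ∃ x ∈ s, (J x).Subsingleton
      · obtain ⟨x0, h1, h2⟩ := h
        refine hs ⟨J x0, h2.finite.countable, fun x hx h3 g hg => ?_⟩
        obtain ⟨f, hf, g', hg', h4⟩ := not_not.1 fun h => hn ⟨x, hx, x0, h1, h⟩
        exact ⟨g', hg', h3 hf hg ▸ h4⟩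
      · exact hs ⟨∅, countable_empty, fun x hx h3 => absurd ⟨x, hx, h3⟩ h⟩)
    (sphere 0 1) ⟨isClosed_sphere, hk⟩
  exact ⟨e, f, he, h1, h2, h3⟩

end Pool.Agent.H9.Supp2
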