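import Pool.Agent.H9.Supp2

/-! Smooth points whose derivative is large along a decreasing sequence of convex sets, and a
covering dichotomy for spaces without a copy of `ℓ¹`. -/
namespace Pool.Agent.H9.Supp3
open Set Filter Metric Function Topology Supp1 Supp2

variable {X : Type} [NormedAddCommGroup X] [NormedSpace ℝ X]

def Big (C : ℕ → Set X) (g : X →L[ℝ] ℝ) (e : ℝ) : Prop := ∀ n M, (∀ z ∈ C n, g z ≤ M) → e ≤ M

structure Fam (C : ℕ → Set X) : Prop where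
  conv : ∀ n, Convex ℝ (C n)
  anti : Antitone C
  bd : ∀ n, ∀ z ∈ C n, ‖z‖ ≤ 1

lemma loc [CompleteSpace X] {C : ℕ → Set X} (hC : Fam C) {f : X →L[ℝ] ℝ} (hf : ‖f‖ ≤ 1)
    {e d θ : ℝ} (he : Big C f e) (x : X) (hd : 0 < d) (hθ : 0 < θ) (hx : ‖x‖ ≤ f x + d) :
    ∃ s, ‖s - x‖ ≤ 2 * (d / θ) ∧ ∀ g ∈ J s, Big C g (e - 3 * θ) := by
  obtain ⟨s, h1, h2⟩ := simons (fun n => C n ∩ {z | e - θ ≤ f z})
    (fun n => (hC.conv n).inter (convex_halfSpace_ge (f : X →ₗ[ℝ] ℝ).isLinear _))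
    (fun n m h z hz => ⟨hC.anti h hz.1, hz.2⟩)
    (fun n => by
      by_contra h
      have := he n (e - θ) fun z hz => le_of_not_ge fun h' => h ⟨z, hz, h'⟩
      linarith)
    (fun n z hz => hC.bd n z hz.1) x (div_pos hd hθ) hθ (m := e - 2 * θ) fun z hz => by
      have h1 := le_norm hf (x + (d / θ) • z)
      have h2 := mul_le_mul_of_nonneg_left (show e - θ ≤ f z from hz.2) (div_pos hd hθ).le
      have h3 : d / θ * θ = d := div_mul_cancel₀ _ hθ.ne'
      rw [map_add, map_smul, smul_eq_mul] at h1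
      linarith
  exact ⟨s, h1, fun g hg n M hM => by have := h2 g hg n M fun z hz => hM z hz.1; linarith⟩

lemma width [CompleteSpace X] {C : ℕ → Set X} (hC : Fam C) {x : X} {e : ℝ}
    (he : ∀ g ∈ J x, Big C g e) (h : X) {k θ r : ℝ} (hk : 0 < k) (hθ : 0 < θ) (hr : 0 < r) :
    ∃ s, ‖s - x‖ < r ∧ (∀ g ∈ J s, Big C g (e - 3 * θ)) ∧ ∀ g ∈ J s, ∀ g' ∈ J s, g h - g' h < k := by
  obtain ⟨c, hc, hck⟩ : ∃ c > 0, c + 4 * (c / θ) = k := ⟨k * θ / (θ + 4), by positivity, by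
    field_simp⟩
  obtain ⟨_, ⟨f, hf, rfl⟩, h1⟩ := Real.add_neg_lt_sSup ((J_ne x).image fun g => g h)
    (neg_lt_zero.2 hc)
  have h2 : IsClosed {s : X | ∃ g ∈ J s, f h + c ≤ g h} := usc id continuous_id
    (fun _ g => f h + c ≤ g h)
    (isClosed_le continuous_const ((WeakDual.eval_continuous h).comp continuous_snd))
  have h3 : x ∈ {s : X | ∃ g ∈ J s, f h + c ≤ g h}ᶜ := by
    rintro ⟨g, hg, h4⟩
    have : g h ≤ sSup ((fun g => g h) '' J x) :=
      le_csSup ⟨‖h‖, by rintro _ ⟨g, hg, rfl⟩; exact le_norm hg.1 h⟩ ⟨g, hg, rfl⟩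
    linarith
  obtain ⟨r0, hr0, h4⟩ := Metric.isOpen_iff.1 h2.isOpen_compl x h3
  have h5 : ∀ s, ‖s - x‖ < r0 → ∀ g ∈ J s, g h < f h + c := fun s hs g hg =>
    lt_of_not_ge fun h6 => h4 (mem_ball_iff_norm.2 hs) ⟨g, hg, h6⟩
  obtain ⟨t, ht, h6⟩ : ∃ t > 0, t * (‖h‖ + 2 * (c / θ)) < min r r0 := by
    have : 0 < ‖h‖ + 2 * (c / θ) := by positivity
    refine ⟨min r r0 / 2 / (‖h‖ + 2 * (c / θ)), by positivity, ?_⟩
    rw [div_mul_cancel₀ _ this.ne']
    exact half_lt_self (lt_min hr hr0)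
  have h7 : ‖x + t • h - x‖ = t * ‖h‖ := by simp [norm_smul, abs_of_pos ht]
  have h8 : 0 < t * (c / θ) := by positivity
  obtain ⟨s, h9, h10⟩ := loc hC hf.1 (he f hf) (x + t • h) (mul_pos ht hc) hθ (by
    obtain ⟨g, hg⟩ := J_ne (x + t • h)
    have e1 := mul_lt_mul_of_pos_left (h5 _ (by have := min_le_right r r0; linarith) g hg) ht
    have e2 := le_norm hg.1 x
    rw [← hg.2, map_add, map_add, map_smul, map_smul, hf.2, smul_eq_mul, smul_eq_mul]
    linarith)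
  have h11 : ‖s - x‖ < min r r0 := by
    have := norm_sub_le_norm_sub_add_norm_sub s (x + t • h) x
    rw [mul_div_assoc] at h9
    linarith
  refine ⟨s, h11.trans_le (min_le_left _ _), h10, fun g hg g' hg' => ?_⟩
  have e1 := h5 s (h11.trans_le (min_le_right _ _)) g hg
  have e2 := le_norm hf.1 s
  have e3 := le_norm hf.1 (x + t • h - s)
  have e4 := le_norm hg'.1 (s - (x + t • h))
  have e5 := le_norm hg'.1 x
  rw [norm_sub_rev] at e3
  rw [map_sub, map_add, map_smul, smul_eq_mul] at e3 e4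
  rw [hg'.2] at e4
  rw [hf.2] at e3
  rw [mul_div_assoc] at h9
  have e6 : t * (f h - 4 * (c / θ)) ≤ t * g' h := by linarith
  have := le_of_mul_le_mul_left e6 ht
  linarith

theorem smooth_big [CompleteSpace X] [TopologicalSpace.SeparableSpace X] {C : ℕ → Set X}
    (hC : Fam C) {f : X →L[ℝ] ℝ} (hf : ‖f‖ ≤ 1) {e e' : ℝ} (he : Big C f e) (h' : e' < e) :
    ∃ x : X, (J x).Subsingleton ∧ ∀ g ∈ J x, ∀ n, ∃ z ∈ C n, e' < g z := by
  let h := TopologicalSpace.denseSeq X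
  let Z : Set (X × ℝ) := {p | e' < p.2 ∧ ∀ g ∈ J p.1, Big C g p.2}
  let V : ℕ × ℕ → Set (X × ℝ) := fun i =>
    {p | ∃ g ∈ J p.1, ∀ z ∈ C i.1, g z ≤ e'}ᶜ ∩
      {p | ∃ g ∈ J p.1, ∃ g' ∈ J p.1, 1 / ((i.2 : ℝ) + 1) ≤ g (h i.1) - g' (h i.1)}ᶜ
  obtain ⟨⟨x, e⟩, -, hV⟩ := baire_rel Z V (fun i => IsOpen.inter (isOpen_compl_iff.2
      (usc _ continuous_fst _ (by
        simp only [ofPred_forall]
        exact isClosed_iInter fun z => isClosed_iInter fun _ => isClosed_le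
          ((WeakDual.eval_continuous z).comp continuous_snd) (by fun_prop))))
      (isOpen_compl_iff.2 (usc _ continuous_fst _
        (usc (T := (X × ℝ) × WeakDual ℝ X) _ continuous_fst.fst _ (isClosed_le continuous_const
          (((WeakDual.eval_continuous _).comp continuous_fst.snd).sub
            ((WeakDual.eval_continuous _).comp continuous_snd)))))))
    (by
      rintro i ⟨x, e⟩ ⟨h1, h2⟩
      refine Metric.mem_closure_iff.2 fun r hr => ?_
      have h3 : 0 < min r (e - e') := lt_min hr (sub_pos.2 h1)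
      have h4 := min_le_left r (e - e')
      have h5 := min_le_right r (e - e')
      obtain ⟨s, e1, e2, e3⟩ := width hC h2 (h i.1) (k := 1 / ((i.2 : ℝ) + 1))
        (θ := min r (e - e') / 4) Nat.one_div_pos_of_nat (by positivity) hr
      have h6 : e' < e - 3 * (min r (e - e') / 4) := by linarith
      refine ⟨(s, e - 3 * (min r (e - e') / 4)), ⟨⟨h6, e2⟩, ?_, ?_⟩, max_lt ?_ ?_⟩
      · rintro ⟨g, hg, h7⟩
        have := e2 g hg _ _ h7
        linarith
      · rintro ⟨g, hg, g', hg', h7⟩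
        exact not_le.2 (e3 g hg g' hg') h7
      · rwa [dist_comm, dist_eq_norm]
      · rw [Real.dist_eq, abs_lt]
        constructor <;> linarith)
    univ isOpen_univ (by
      obtain ⟨s, -, h4⟩ := loc hC hf he 0 one_pos (show 0 < (e - e') / 4 by linarith) (by simp)
      exact ⟨(s, _), ⟨by linarith, h4⟩, trivial⟩)
  have h2 : ∀ g ∈ J x, ∀ g' ∈ J x, ∀ n, g (h n) ≤ g' (h n) := fun g hg g' hg' n => by
    by_contra hn
    obtain ⟨k, hk⟩ := exists_nat_one_div_lt (sub_pos.2 (not_le.1 hn))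
    exact (hV (n, k)).2 ⟨g, hg, g', hg', hk.le⟩
  refine ⟨x, fun g hg g' hg' => ?_, fun g hg n => ?_⟩
  · exact DFunLike.coe_injective ((TopologicalSpace.denseRange_denseSeq X).equalizer g.continuous
      g'.continuous (funext fun n => le_antisymm (h2 g hg g' hg' n) (h2 g' hg' g hg n)))
  · by_contra hn
    exact (hV (n, 0)).1 ⟨g, hg, fun z hz => le_of_not_gt fun h => hn ⟨z, hz, h⟩⟩

abbrev W (X : Type) [NormedAddCommGroup X] [NormedSpace ℝ X] := WeakDual ℝ X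

/-- a compact convex family of constraints satisfied by `F` -/
def Good (F : W X →ₗ[ℝ] ℝ) (T : Set (W X × ℝ)) : Prop :=
  IsCompact T ∧ Convex ℝ T ∧ ∀ p ∈ T, F p.1 ≤ p.2

lemma good_join {F : W X →ₗ[ℝ] ℝ} {A B : Set (W X × ℝ)} (hA : Good F A) (hB : Good F B) :
    ∃ T, Good F T ∧ A ⊆ T ∧ B ⊆ T := by
  rcases A.eq_empty_or_nonempty with rfl | h1
  · exact ⟨B, hB, empty_subset _, Subset.rfl⟩
  rcases B.eq_empty_or_nonempty with rfl | h2
  · exact ⟨A, hA, Subset.rfl, empty_subset _⟩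
  refine ⟨convexJoin ℝ A B, ⟨?_, hA.2.1.convexJoin hB.2.1, fun p hp => ?_⟩,
    subset_convexJoin_left h2, subset_convexJoin_right h1⟩
  · convert (isCompact_Icc (a := (0 : ℝ)) (b := 1) |>.prod (hA.1.prod hB.1)).image
      (f := fun q => (1 - q.1) • q.2.1 + q.1 • q.2.2) (by fun_prop)
    ext p
    simp only [mem_convexJoin, segment_eq_image, mem_image, mem_prod]
    exact ⟨fun ⟨a, ha, b, hb, t, ht, h⟩ => ⟨(t, a, b), ⟨ht, ha, hb⟩, h⟩,
      fun ⟨q, ⟨ht, ha, hb⟩, h⟩ => ⟨_, ha, _, hb, _, ht, h⟩⟩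
  · obtain ⟨a, ha, b, hb, s, t, hs, ht, -, rfl⟩ := mem_convexJoin.1 hp
    simp only [Prod.fst_add, Prod.snd_add, Prod.smul_fst, Prod.smul_snd, map_add, map_smul,
      smul_eq_mul]
    exact add_le_add (mul_le_mul_of_nonneg_left (hA.2.2 a ha) hs)
      (mul_le_mul_of_nonneg_left (hB.2.2 b hb) ht)

lemma exists_small (g : X →L[ℝ] ℝ) {c η : ℝ} (hc : -‖g‖ ≤ c) (hη : 0 < η) :
    ∃ z : X, ‖z‖ ≤ 1 ∧ -η < c - g z := by
  obtain ⟨z, h1, h2⟩ := g.exists_lt_apply_of_lt_opNorm (sub_lt_self _ hη)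
  rcases lt_abs.1 h2 with h | h
  · exact ⟨-z, by simpa using h1.le, by rw [map_neg]; linarith⟩
  · exact ⟨z, h1.le, by linarith⟩

lemma approx {F : W X →ₗ[ℝ] ℝ} (hF : ∀ g : X →L[ℝ] ℝ, -‖g‖ ≤ F g) {ι : Type} [Finite ι]
    (A : ι → Set (W X × ℝ)) (hA : ∀ i, Good F (A i)) {η : ℝ} (hη : 0 < η) :
    ∃ z : X, ‖z‖ ≤ 1 ∧ ∀ i, ∀ p ∈ A i, p.1 z < p.2 + η := by
  classical
  have := Fintype.ofFinite ι
  obtain ⟨T, hT, hAT⟩ : ∃ T, Good F T ∧ ∀ i ∈ (Finset.univ : Finset ι), A i ⊆ T := by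
    induction (Finset.univ : Finset ι) using Finset.induction_on with
    | empty => exact ⟨∅, ⟨isCompact_empty, convex_empty, by simp⟩, by simp⟩
    | insert a s _ ih =>
      obtain ⟨T, h1, h2⟩ := ih
      obtain ⟨T', h3, h4, h5⟩ := good_join (hA a) h1
      exact ⟨T', h3, Finset.forall_mem_insert _ _ _ |>.2 ⟨h4, fun i hi => (h2 i hi).trans h5⟩⟩
  rcases T.eq_empty_or_nonempty with rfl | hne
  · exact ⟨0, by simp, fun i p hp => (hAT i (Finset.mem_univ i) hp).elim⟩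
  have hc : ∀ z : X, Continuous fun p : W X × ℝ => p.2 - p.1 z := fun z =>
    continuous_snd.sub ((WeakDual.eval_continuous z).comp continuous_fst)
  obtain ⟨s, hs⟩ := hT.1.elim_finite_subcover
    (fun z : closedBall (0 : X) 1 => {p : W X × ℝ | -η < p.2 - p.1 z})
    (fun z => isOpen_lt continuous_const (hc z)) fun p hp => by
      obtain ⟨z, h1, h2⟩ := exists_small p.1 ((hF p.1).trans (hT.2.2 p hp)) hη
      exact mem_iUnion.2 ⟨⟨z, mem_closedBall_zero_iff.2 h1⟩, h2⟩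
  obtain ⟨z, h1, h2⟩ := Sion.exists_lt_iInf_of_lt_iInf_of_finite (X := T)
    (Y := closedBall (0 : X) 1) (f := fun p z => p.2 - p.1 z) hne hT.1
    (fun z _ => (hc z).lowerSemicontinuous.lowerSemicontinuousOn _)
    (fun z _ => ConvexOn.quasiconvexOn ⟨hT.2.1, fun a _ b _ s t _ _ _ => le_of_eq (by
      show s * a.2 + t * b.2 - (s * a.1 z + t * b.1 z) = s * (a.2 - a.1 z) + t * (b.2 - b.1 z)
      ring)⟩)
    (convex_closedBall _ _)
    (fun p _ => (continuous_const.sub (show X →L[ℝ] ℝ from p.1).continuous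
      ).upperSemicontinuous.upperSemicontinuousOn _)
    (fun p _ => ConcaveOn.quasiconcaveOn ⟨convex_closedBall _ _, fun a _ b _ s t _ _ h =>
      le_of_eq (by
        simp only [map_add, map_smul, smul_eq_mul]
        linear_combination p.2 * h)⟩)
    hT.2.1 (s.finite_toSet.image Subtype.val) (by rintro _ ⟨z, -, rfl⟩; exact z.2) (t := -η)
    fun p hp => by
      obtain ⟨z, h1, h2⟩ := mem_iUnion₂.1 (hs hp)
      exact ⟨z, ⟨z, h1, rfl⟩, h2⟩
  exact ⟨z, mem_closedBall_zero_iff.1 h1, fun i p hp => by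
    have := h2 p (hAT i (Finset.mem_univ i) hp); linarith⟩

end Pool.Agent.H9.Supp3
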