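import Pool.Agent.H9.Supp3

/-! A covering dichotomy for separable spaces without a copy of `ℓ¹`. -/
namespace Pool.Agent.H9.Supp4
open Set Filter Metric Function Topology Supp1 Supp3

variable {X : Type} [NormedAddCommGroup X] [NormedSpace ℝ X]

lemma dc {α : Type} [Zero α] (Q : ℕ → (ℕ → α) → Prop) (h0 : ∀ x, Q 0 x)
    (hloc : ∀ n x y, (∀ i < n, x i = y i) → Q n x → Q n y)
    (hs : ∀ n x, Q n x → ∃ a, Q (n + 1) (update x n a)) : ∃ x, ∀ n, Q n x := by
  have : Nonempty α := ⟨0⟩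
  choose! nx h using hs
  let s : ℕ → ℕ → α := fun n => n.rec 0 fun n s => update s n (nx n s)
  have h1 : ∀ n, Q n (s n) := fun n => n.rec (h0 _) fun n ih => h n _ ih
  refine ⟨fun i => s (i + 1) i, fun n => hloc n _ _ ?_ (h1 n)⟩
  induction n with
  | zero => simp
  | succ n ih =>
    intro i hi
    rcases (Nat.lt_succ_iff.1 hi).eq_or_lt with rfl | h2
    · rfl
    · exact (update_of_ne h2.ne _ _).trans (ih i h2)

lemma ell1 [CompleteSpace X] (x : ℕ → X) (hx : ∀ i, ‖x i‖ ≤ 1) {r1 r2 : ℝ} (h : r1 < r2)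
    (hτ : ∀ n (τ : ℕ → Prop), ∃ g : X →L[ℝ] ℝ, ‖g‖ ≤ 1 ∧
      ∀ i < n, (τ i → r2 < g (x i)) ∧ (¬ τ i → g (x i) < r1)) :
    ∃ T : lp (fun _ : ℕ => ℝ) 1 →L[ℝ] X, ∃ c : ℝ, 0 < c ∧ ∀ a, c * ‖a‖ ≤ ‖T a‖ := by
  have h1 : ∀ a : lp (fun _ : ℕ => ℝ) 1, HasSum (fun i => ‖a i‖) ‖a‖ := fun a => by
    simpa using lp.hasSum_norm (by simp) a
  have h2 : ∀ (a : lp (fun _ : ℕ => ℝ) 1) i, ‖a i • x i‖ ≤ ‖a i‖ := fun a i => by
    rw [norm_smul]
    exact mul_le_of_le_one_right (norm_nonneg _) (hx i)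
  have h3 : ∀ a : lp (fun _ : ℕ => ℝ) 1, Summable fun i => a i • x i := fun a =>
    .of_norm_bounded (h1 a).summable (h2 a)
  refine ⟨LinearMap.mkContinuous
    { toFun := fun a => ∑' i, a i • x i
      map_add' := fun a b => by
        rw [← (h3 a).tsum_add (h3 b)]
        simp [add_smul]
      map_smul' := fun c a => by
        rw [← (h3 a).tsum_const_smul]
        simp [mul_smul] } 1 fun a => ?_, (r2 - r1) / 2, by linarith, fun a => ?_⟩
  · rw [one_mul]
    exact tsum_of_norm_bounded (h1 a) (h2 a)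
  refine le_of_tendsto_of_tendsto' ((h1 a).tendsto_sum_nat.const_mul _)
    (h3 a).hasSum.tendsto_sum_nat.norm fun n => ?_
  obtain ⟨g, e1, e2⟩ := hτ n fun i => 0 ≤ a i
  obtain ⟨g', e3, e4⟩ := hτ n fun i => ¬ 0 ≤ a i
  have e5 := le_norm e1 (∑ i ∈ Finset.range n, a i • x i)
  have e6 := le_norm e3 (-∑ i ∈ Finset.range n, a i • x i)
  rw [norm_neg, map_neg] at e6
  have e7 : (r2 - r1) * ∑ i ∈ Finset.range n, ‖a i‖ ≤
      g (∑ i ∈ Finset.range n, a i • x i) - g' (∑ i ∈ Finset.range n, a i • x i) := by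
    rw [map_sum, map_sum, ← Finset.sum_sub_distrib, Finset.mul_sum]
    refine Finset.sum_le_sum fun i hi => ?_
    rw [map_smul, map_smul, smul_eq_mul, smul_eq_mul]
    have e8 := e2 i (Finset.mem_range.1 hi)
    have e9 := e4 i (Finset.mem_range.1 hi)
    by_cases ha : 0 ≤ a i
    · rw [Real.norm_of_nonneg ha]
      nlinarith [e8.1 ha, e9.2 (not_not.2 ha)]
    · rw [Real.norm_of_nonpos (not_le.1 ha).le]
      nlinarith [e8.2 ha, e9.1 ha, not_le.1 ha]
  linarith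

/-- the dual unit ball -/
def K (X : Type) [NormedAddCommGroup X] [NormedSpace ℝ X] : Set (W X) :=
  WeakDual.toStrongDual ⁻¹' closedBall 0 1

/-- covered by countably many compact convex sets on which `F ≤ r` -/
def Small (F : W X →ₗ[ℝ] ℝ) (r : ℝ) (S : Set (W X)) : Prop :=
  ∃ H : Set (Set (W X)), H.Countable ∧
    (∀ A ∈ H, IsCompact A ∧ Convex ℝ A ∧ ∀ h ∈ A, F h ≤ r) ∧ S ⊆ ⋃₀ H

lemma good_pt {F : W X →ₗ[ℝ] ℝ} {g : W X} {c : ℝ} (h : F g ≤ c) : Good F {(g, c)} :=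
  ⟨isCompact_singleton, convex_singleton _, by rintro _ rfl; exact h⟩

theorem cover [CompleteSpace X] [TopologicalSpace.SeparableSpace X]
    (hX : ¬ ∃ T : lp (fun _ : ℕ => ℝ) 1 →L[ℝ] X, ∃ c : ℝ, 0 < c ∧ ∀ a, c * ‖a‖ ≤ ‖T a‖)
    {F : W X →ₗ[ℝ] ℝ} (hF : ∀ g : X →L[ℝ] ℝ, -‖g‖ ≤ F g) {r r' : ℝ} (hr : r < r') :
    Small F r' (K X ∩ {g | F g ≤ r}) := by
  by_contra hn
  set A := K X ∩ {g | F g ≤ r}
  have hK : IsCompact (K X) := WeakDual.isCompact_closedBall 0 1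
  have hK' : Convex ℝ (K X) :=
    (convex_closedBall (0 : X →L[ℝ] ℝ) 1).linear_preimage WeakDual.toStrongDual.toLinearMap
  let P := {g ∈ A | ∀ U ∈ 𝓝 g, ¬ Small F r' (A ∩ U)}
  have hP : Small F r' (A \ P) := by
    have := WeakDual.metrizable_of_isCompact ℝ X _ hK
    have := isCompact_iff_compactSpace.1 hK
    have h1 : IsLindelof (A \ P) := by
      have := (HereditarilyLindelofSpace.isLindelof (Subtype.val ⁻¹' (A \ P) : Set (K X))).image
        continuous_subtype_val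
      rwa [Subtype.image_preimage_coe, inter_eq_right.2 fun g hg => hg.1.1] at this
    have h2 : ∀ g ∈ A \ P, ∃ U ∈ 𝓝 g, Small F r' (A ∩ U) := fun g hg => by
      by_contra h
      exact hg.2 ⟨hg.1, fun U hU h' => h ⟨U, hU, h'⟩⟩
    choose! U h2 H h3 h4 h5 using h2
    obtain ⟨t, h6, h7, h8⟩ := h1.elim_nhds_subcover U h2
    refine ⟨⋃ g ∈ t, H g, h6.biUnion fun g hg => h3 g (h7 g hg), fun B hB => ?_, fun g hg => ?_⟩
    · obtain ⟨g, hg, hB⟩ := mem_iUnion₂.1 hB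
      exact h4 g (h7 g hg) B hB
    · obtain ⟨g', hg', h9⟩ := mem_iUnion₂.1 (h8 hg)
      obtain ⟨B, h10, h11⟩ := h5 g' (h7 g' hg') ⟨hg.1, h9⟩
      exact ⟨B, mem_biUnion hg' h10, h11⟩
  have h1 : ∀ U, ¬ Small F r' (A ∩ U) → ∃ h ∈ closure (convexHull ℝ (P ∩ U)), r' < F h := by
    intro U hU
    by_contra h
    obtain ⟨H, h2, h3, h4⟩ := hP
    refine hU ⟨insert (closure (convexHull ℝ (P ∩ U))) H, h2.insert _, ?_, fun g hg => ?_⟩
    · rintro B (rfl | hB)
      · exact ⟨hK.of_isClosed_subset isClosed_closure (closure_minimal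
          (convexHull_min (fun g hg => hg.1.1.1) hK') hK.isClosed), (convex_convexHull _ _).closure,
          fun g hg => le_of_not_gt fun h' => h ⟨g, hg, h'⟩⟩
      · exact h3 B hB
    · by_cases hgP : g ∈ P
      · exact ⟨_, mem_insert _ _, subset_closure (subset_convexHull _ _ ⟨hgP, hg.2⟩)⟩
      · exact sUnion_subset_sUnion (subset_insert _ _) (h4 ⟨hg.1, hgP⟩)
  obtain ⟨g0, hg0⟩ : P.Nonempty := by
    obtain ⟨h, h2, -⟩ := h1 univ (by rwa [inter_univ])
    exact (convexHull_nonempty_iff.1 (closure_nonempty_iff.1 ⟨h, h2⟩)).mono inter_subset_left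
  have hη : 0 < (r' - r) / 3 := by linarith
  obtain ⟨x, hx⟩ := dc (fun n (x : ℕ → X) => (∀ i < n, ‖x i‖ ≤ 1) ∧ ∀ τ : ℕ → Prop, ∃ g ∈ P,
      ∀ i < n, (τ i → r' - (r' - r) / 3 < g (x i)) ∧ (¬ τ i → g (x i) < r + (r' - r) / 3))
    (fun x => ⟨by simp, fun τ => ⟨g0, hg0, by simp⟩⟩)
    (fun n x y h ⟨h2, h3⟩ => ⟨fun i hi => h i hi ▸ h2 i hi, fun τ =>
      (h3 τ).imp fun g hg => ⟨hg.1, fun i hi => h i hi ▸ hg.2 i hi⟩⟩) (by
      rintro n x ⟨h2, h3⟩
      let U : (Fin n → Prop) → Set (W X) := fun s => ⋂ i,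
        {g | (s i → r' - (r' - r) / 3 < g (x i)) ∧ (¬ s i → g (x i) < r + (r' - r) / 3)}
      have hU : ∀ s, IsOpen (U s) := fun s => isOpen_iInter_of_finite fun i => by
        by_cases h : s i
        · simpa [h] using isOpen_lt continuous_const (WeakDual.eval_continuous (x i))
        · simpa [h] using isOpen_lt (WeakDual.eval_continuous (x i)) continuous_const
      have h4 : ∀ s, ∃ g ∈ P, g ∈ U s := fun s => by
        obtain ⟨g, h4, h5⟩ := h3 fun i => ∃ h : i < n, s ⟨i, h⟩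
        exact ⟨g, h4, mem_iInter.2 fun i => by simpa using h5 i i.2⟩
      choose p h4 h5 using h4
      choose q h6 h7 using fun s => h1 _ ((h4 s).2 _ ((hU s).mem_nhds (h5 s)))
      obtain ⟨z, h8, h9⟩ := approx hF (fun s : (Fin n → Prop) × Bool =>
        if s.2 then {(p s.1, r)} else {(-q s.1, -r')}) (by
          rintro ⟨s, _ | _⟩
          · exact good_pt (by rw [map_neg]; exact neg_le_neg (h7 s).le)
          · exact good_pt (h4 s).1.2) hη
      refine ⟨z, fun i hi => ?_, fun τ => ?_⟩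
      · rcases (Nat.lt_succ_iff.1 hi).eq_or_lt with rfl | h
        · rwa [update_self]
        · rw [update_of_ne h.ne]
          exact h2 i h
      obtain ⟨g, h10, h11⟩ : ∃ g ∈ P ∩ U fun i => τ i,
          (τ n → r' - (r' - r) / 3 < g z) ∧ (¬ τ n → g z < r + (r' - r) / 3) := by
        by_cases h : τ n
        · by_contra h'
          have h10 : q (fun i => τ i) z ≤ r' - (r' - r) / 3 := closure_minimal (convexHull_min
            (t := {g : W X | g z ≤ r' - (r' - r) / 3})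
            (fun g hg => le_of_not_gt fun h'' => h' ⟨g, hg, fun _ => h'', fun h'' => absurd h h''⟩)
            (convex_halfSpace_le ⟨fun _ _ => rfl, fun _ _ => rfl⟩ _))
            (isClosed_le (WeakDual.eval_continuous z) continuous_const) (h6 _)
          have h11 : -q (fun i => τ i) z < -r' + (r' - r) / 3 := h9 (_, false) _ rfl
          linarith
        · exact ⟨_, ⟨h4 _, h5 _⟩, fun h' => absurd h' h, fun _ => h9 (_, true) _ rfl⟩
      refine ⟨g, h10.1, fun i hi => ?_⟩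
      rcases (Nat.lt_succ_iff.1 hi).eq_or_lt with rfl | h
      · rwa [update_self]
      · rw [update_of_ne h.ne]
        exact mem_iInter.1 h10.2 ⟨i, h⟩)
  exact hX (ell1 x (fun i => (hx (i + 1)).1 i i.lt_succ_self) (by linarith) fun n τ =>
    ((hx n).2 τ).imp fun g hg => ⟨mem_closedBall_zero_iff.1 hg.1.1.1, hg.2⟩)

end Pool.Agent.H9.Supp4
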