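import Mathlib

/-! The intersection of two cylinders in `ℝ³` and the Euler top vector field. -/
namespace Pool.Agent.H9.Top

/-- the subspace -/
noncomputable def S0 : Submodule ℝ (ℂ × ℂ) :=
  (Complex.imLm ∘ₗ LinearMap.fst ℝ ℂ ℂ).eqLocus (Complex.imLm ∘ₗ LinearMap.snd ℝ ℂ ℂ)

/-- the space -/
def S : Type := S0

noncomputable instance : NormedAddCommGroup S := inferInstanceAs (NormedAddCommGroup S0)
noncomputable instance : NormedSpace ℝ S := inferInstanceAs (NormedSpace ℝ S0)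
instance : FiniteDimensional ℝ S := inferInstanceAs (FiniteDimensional ℝ S0)

/-- points -/
def mk (x y z : ℝ) : S := ⟨(⟨x, y⟩, ⟨z, y⟩), rfl⟩

noncomputable def cx : S →L[ℝ] ℝ := Complex.reCLM ∘L .fst ℝ ℂ ℂ ∘L S0.subtypeL
noncomputable def cy : S →L[ℝ] ℝ := Complex.imCLM ∘L .fst ℝ ℂ ℂ ∘L S0.subtypeL
noncomputable def cz : S →L[ℝ] ℝ := Complex.reCLM ∘L .snd ℝ ℂ ℂ ∘L S0.subtypeL

@[simp] lemma cx_mk (x y z : ℝ) : cx (mk x y z) = x := rfl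
@[simp] lemma cy_mk (x y z : ℝ) : cy (mk x y z) = y := rfl
@[simp] lemma cz_mk (x y z : ℝ) : cz (mk x y z) = z := rfl

lemma eta (p : S) : p = mk (cx p) (cy p) (cz p) :=
  Subtype.ext (Prod.ext rfl (Complex.ext rfl p.2.symm))

lemma dec (x y z : ℝ) : mk x y z = x • mk 1 0 0 + y • mk 0 1 0 + z • mk 0 0 1 := by
  rw [eta (_ + _)]
  simp

lemma nle {x y z r : ℝ} (h : 0 ≤ r) :
    ‖mk x y z‖ ≤ r ↔ x ^ 2 + y ^ 2 ≤ r ^ 2 ∧ z ^ 2 + y ^ 2 ≤ r ^ 2 := by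
  refine max_le_iff.trans (and_congr ?_ ?_) <;>
  rw [← pow_le_pow_iff_left₀ (norm_nonneg _) h two_ne_zero, Complex.sq_norm, Complex.normSq_apply,
    sq, sq, sq] <;> rfl

lemma sq_le (p : S) : cx p ^ 2 + cy p ^ 2 ≤ ‖p‖ ^ 2 ∧ cz p ^ 2 + cy p ^ 2 ≤ ‖p‖ ^ 2 :=
  (nle (norm_nonneg p)).1 (eta p ▸ le_rfl)

/-- the bilinear map -/
noncomputable def A : S →L[ℝ] S →L[ℝ] S := cy.smulRight (cz.smulRight (mk 1 0 0)) +
  (-cx).smulRight (cz.smulRight (mk 0 1 0)) + cx.smulRight (cy.smulRight (mk 0 0 1))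

lemma A_eq (p : S) : A p p = mk (cy p * cz p) (-cx p * cz p) (cx p * cy p) := by
  rw [dec]
  simp [A, smul_smul]

lemma A_le (p : S) (h : ‖p‖ ≤ 1) : ‖A p p‖ ≤ 1 := by
  obtain ⟨h1, h2⟩ := (nle zero_le_one).1 (eta p ▸ h)
  rw [A_eq, nle zero_le_one]
  constructor <;> nlinarith [sq_nonneg (cx p), sq_nonneg (cy p), sq_nonneg (cz p)]

lemma A_one : ‖mk 1 0 1‖ ≤ 1 ∧ ‖A (mk 1 0 1) (mk 1 0 1)‖ = 1 := by
  have : ‖mk 1 0 1‖ ≤ 1 := (nle zero_le_one).2 (by simp)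
  refine ⟨this, (A_le _ this).antisymm (abs_le_of_sq_le_sq' ?_ (norm_nonneg _)).2⟩
  refine le_trans ?_ (sq_le _).1
  rw [A_eq]
  simp

lemma A_zero (p : S) (f : S →L[ℝ] ℝ) (h : ‖p‖ = 1) (h1 : ‖f‖ = 1) (h2 : f p = 1) :
    f (A p p) = 0 := by
  obtain ⟨h3, h4⟩ := sq_le p
  have h5 : ∀ t : ℝ, ‖p + t • A p p‖ ≤ 1 + t ^ 2 / 2 := fun t => by
    rw [eta (p + _), nle (by positivity), A_eq]
    rw [h] at h3 h4
    have e1 := mul_le_mul h3 (show 1 + t ^ 2 * cz p ^ 2 ≤ 1 + t ^ 2 by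
      nlinarith [sq_nonneg t, sq_nonneg (cy p)]) (by positivity) (by simp)
    have e2 := mul_le_mul h4 (show 1 + t ^ 2 * cx p ^ 2 ≤ 1 + t ^ 2 by
      nlinarith [sq_nonneg t, sq_nonneg (cy p)]) (by positivity) (by simp)
    simp only [map_add, map_smul, smul_eq_mul, cx_mk, cy_mk, cz_mk]
    constructor <;> nlinarith [sq_nonneg (t ^ 2)]
  have := (le_abs_self _).trans (f.le_of_opNorm_le_of_le h1.le (h5 (f (A p p))))
  rw [map_add, map_smul, h2, smul_eq_mul] at this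
  nlinarith

lemma low (T : S →L[ℝ] S) {V : ℝ} (h : ∀ (p : S) (f : S →L[ℝ] ℝ), ‖p‖ = 1 → ‖f‖ = 1 → f p = 1 →
    |f (T p)| ≤ V) : ‖T‖ ≤ 30 * V := by
  have h1 : ∀ (p : S) (f : S →L[ℝ] ℝ), ‖p‖ ≤ 1 → (∀ q, f q ^ 2 ≤ ‖q‖ ^ 2) → f p = 1 →
      -V ≤ f (T p) ∧ f (T p) ≤ V := fun p f e1 e2 e3 => by
    have e4 := f.opNorm_le_bound zero_le_one fun q =>
      (abs_le_of_sq_le_sq (e2 q) (norm_nonneg q)).trans_eq (one_mul _).symm
    have e5 := f.le_opNorm p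
    rw [e3, norm_one] at e5
    exact abs_le.1 (h p f (by nlinarith [norm_nonneg p, norm_nonneg f])
      (by nlinarith [norm_nonneg p, norm_nonneg f]) e3)
  have h2 := fun a b z : ℝ => fun (e1 : a ^ 2 + b ^ 2 = 1) (e2 : z ^ 2 + b ^ 2 ≤ 1 ^ 2) =>
    And.intro (h1 (mk a b z) (a • cx + b • cy) ((nle zero_le_one).2 ⟨by linarith, e2⟩) (fun q => by
      show (a * cx q + b * cy q) ^ 2 ≤ _
      linarith [(sq_le q).1, sq_nonneg (a * cy q - b * cx q),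
        congrArg (· * (cx q ^ 2 + cy q ^ 2)) e1]) (show a * a + b * b = 1 by linarith))
    (h1 (mk z b a) (a • cz + b • cy) ((nle zero_le_one).2 ⟨e2, by linarith⟩) (fun q => by
      show (a * cz q + b * cy q) ^ 2 ≤ _
      linarith [(sq_le q).2, sq_nonneg (a * cy q - b * cz q),
        congrArg (· * (cz q ^ 2 + cy q ^ 2)) e1]) (show a * a + b * b = 1 by linarith))
  obtain ⟨u, v, w, h0⟩ : ∃ u v w, ∀ x y z : ℝ, T (mk x y z) = x • u + y • v + z • w :=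
    ⟨_, _, _, fun x y z => by rw [dec, map_add, map_add, map_smul, map_smul, map_smul]⟩
  simp only [h0, map_add, map_smul, add_apply, smul_apply, smul_eq_mul] at h2
  obtain ⟨⟨a1, a2⟩, a3, a4⟩ := h2 1 0 1 (by simp) (by simp)
  obtain ⟨⟨b1, b2⟩, b3, b4⟩ := h2 1 0 (-1) (by simp) (by simp)
  obtain ⟨⟨c1, c2⟩, -⟩ := h2 0 1 0 (by simp) (by simp)
  obtain ⟨⟨d1, d2⟩, d3, d4⟩ := h2 (3 / 5) (4 / 5) (3 / 5) (by norm_num) (by norm_num)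
  obtain ⟨⟨e1, e2⟩, e3, e4⟩ := h2 (3 / 5) (4 / 5) (-3 / 5) (by norm_num) (by norm_num)
  have h3 : 0 ≤ V := by linarith
  have h4 : ∀ q, |cx q| ≤ 7 * V → |cy q| ≤ 7 * V → |cz q| ≤ 7 * V → ‖q‖ ≤ 10 * V :=
    fun q e1 e2 e3 => by
      rw [eta q, nle (by linarith)]
      constructor <;> nlinarith [sq_le_sq' (abs_le.1 e1).1 (abs_le.1 e1).2,
        sq_le_sq' (abs_le.1 e2).1 (abs_le.1 e2).2, sq_le_sq' (abs_le.1 e3).1 (abs_le.1 e3).2]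
  refine T.opNorm_le_of_unit_norm (by linarith) fun p hp => ?_
  obtain ⟨f1, f2⟩ := sq_le p
  have h5 : ∀ (x : ℝ) (q : S), x ^ 2 ≤ ‖p‖ ^ 2 → ‖q‖ ≤ 10 * V → ‖x • q‖ ≤ 10 * V :=
    fun x q e1 e2 => (norm_smul _ _).trans_le ((mul_le_of_le_one_left (norm_nonneg _)
      ((abs_le_of_sq_le_sq e1 (norm_nonneg _)).trans hp.le)).trans e2)
  rw [eta p, h0]
  refine (norm_add₃_le.trans (add_le_add_three (h5 _ _ ?_ (h4 _ ?_ ?_ ?_))
    (h5 _ _ ?_ (h4 _ ?_ ?_ ?_)) (h5 _ _ ?_ (h4 _ ?_ ?_ ?_)))).trans_eq (by ring)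
  all_goals first
    | exact abs_le.2 ⟨by linarith, by linarith⟩
    | linarith [sq_nonneg (cx p), sq_nonneg (cy p)]

end Pool.Agent.H9.Top
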