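import Mathlib

/-! Packed counting of list elements along a binary decision tree. -/

namespace Pool.Agent.H9.Tour

noncomputable def force {α : Type} (x : ℕ) (f : ℕ → α) : α :=
  Nat.rec (motive := fun _ => α) (f 0) (fun i _ => f (Nat.succ i)) x

@[simp] theorem force_eq {α : Type} (x : ℕ) (f : ℕ → α) : force x f = f x := by
  cases x <;> rfl

def pack : List Bool → ℕ
  | [] => 0
  | b :: l => 2 ^ 10 * pack l + b.toNat

lemma toNat_lt (b : Bool) : b.toNat < 2 ^ 10 := by cases b <;> simp

lemma land_split (k x y a b : ℕ) (ha : a < 2 ^ k) (hb : b < 2 ^ k) :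
    (2 ^ k * x + a) &&& (2 ^ k * y + b) = 2 ^ k * (x &&& y) + (a &&& b) := by
  apply Nat.eq_of_testBit_eq
  intro i
  have hab : a &&& b < 2 ^ k := lt_of_le_of_lt Nat.and_le_left ha
  rw [Nat.testBit_and, Nat.testBit_two_pow_mul_add _ ha, Nat.testBit_two_pow_mul_add _ hb,
    Nat.testBit_two_pow_mul_add _ hab]
  split_ifs <;> simp

lemma pack_and {α : Type} (P : List α) (f g : α → Bool) :
    pack (P.map f) &&& pack (P.map g) = pack (P.map fun l => f l && g l) := by
  induction P with
  | nil => simp [pack]
  | cons a P ih =>
    simp only [List.map_cons, pack]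
    rw [land_split _ _ _ _ _ (toNat_lt _) (toNat_lt _), ih]
    cases f a <;> cases g a <;> simp

lemma pack_mod {α : Type} (P : List α) (f : α → Bool) :
    pack (P.map f) % 1023 = P.countP f % 1023 := by
  induction P with
  | nil => simp [pack]
  | cons a P ih =>
    simp only [List.map_cons, pack, List.countP_cons]
    cases f a <;> simp <;> omega

noncomputable def step (M A : ℕ) : ℕ :=
  force (Nat.land M A) fun r => Nat.xor r (Nat.mod r 2305843009213693951)

def lift (A : ℕ) : ℕ := 2 ^ 64 * A + (2 ^ 64 - 1)

lemma step_shift (M A : ℕ) : step M (lift A) >>> 64 = (M >>> 64) &&& A := by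
  simp only [step, force_eq]
  apply Nat.eq_of_testBit_eq
  intro i
  have h1 : ∀ r : ℕ, (Nat.mod r 2305843009213693951).testBit (64 + i) = false := by
    intro r
    apply Nat.testBit_eq_false_of_lt
    have : Nat.mod r 2305843009213693951 < 2305843009213693951 := Nat.mod_lt _ (by norm_num)
    calc _ < 2305843009213693951 := this
      _ ≤ 2 ^ 64 := by norm_num
      _ ≤ 2 ^ (64 + i) := Nat.pow_le_pow_right (by norm_num) (by omega)
  have h2 : (lift A).testBit (64 + i) = A.testBit i := by
    unfold lift
    rw [Nat.testBit_two_pow_mul_add _ (by norm_num)]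
    simp
  rw [Nat.testBit_shiftRight, Nat.testBit_and, Nat.testBit_shiftRight]
  show ((M &&& lift A) ^^^ _).testBit _ = _
  rw [Nat.testBit_xor, h1, Nat.testBit_and, h2]
  simp

noncomputable def cnt (M : ℕ) : ℕ := Nat.mod (Nat.shiftRight M 64) 1023

noncomputable def go (h : ℕ) (L : List (ℕ × ℕ)) : ℕ → Bool :=
  List.rec (motive := fun _ => ℕ → Bool) (fun M => Bool.rec true false (Nat.beq (cnt M) h))
    (fun p _ ih M => Bool.rec true
      (Bool.rec false (force (step M p.2) ih) (force (step M p.1) ih)) (Nat.ble h (cnt M))) L

lemma go_sound {α β : Type} (h : ℕ) (P : List α) (hP : P.length < 1023) (u w : β → α → Bool)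
    (c : β → Bool) (K : List β) : ∀ (M : ℕ) (f : α → Bool), M >>> 64 = pack (P.map f) →
    go h (K.map fun k => (lift (pack (P.map (u k))), lift (pack (P.map (w k))))) M = true →
    P.countP (fun l => f l && K.all fun k => if c k then u k l else w k l) ≠ h := by
  have hc : ∀ (M : ℕ) (f : α → Bool), M >>> 64 = pack (P.map f) → cnt M = P.countP f := by
    intro M f hM
    show (M >>> 64) % 1023 = _
    rw [hM, pack_mod, Nat.mod_eq_of_lt (lt_of_le_of_lt List.countP_le_length hP)]
  induction K with
  | nil =>
    intro M f hM hgo
    have h1 : (Bool.rec true false (Nat.beq (cnt M) h) : Bool) = true := hgo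
    rw [hc M f hM] at h1
    simp only [List.all_nil, Bool.and_true]
    intro he
    rw [he, Nat.beq_refl] at h1
    exact absurd h1 (by simp)
  | cons k K ih =>
    intro M f hM hgo
    have h1 : (Bool.rec true (Bool.rec false
        (force (step M (lift (pack (P.map (w k))))) (go h (K.map fun k =>
          (lift (pack (P.map (u k))), lift (pack (P.map (w k)))))))
        (force (step M (lift (pack (P.map (u k))))) (go h (K.map fun k =>
          (lift (pack (P.map (u k))), lift (pack (P.map (w k)))))))) (Nat.ble h (cnt M)) : Bool)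
        = true := hgo
    rw [hc M f hM, force_eq, force_eq] at h1
    cases hb : Nat.ble h (P.countP f) with
    | false =>
      have h2 : ¬ h ≤ P.countP f := by
        intro h3; rw [Nat.ble_eq_true_of_le h3] at hb; exact absurd hb (by simp)
      have h3 : P.countP (fun l => f l && (k :: K).all fun k => if c k then u k l else w k l)
          ≤ P.countP f := by
        apply List.countP_mono_left
        intro x _ hx
        simp only [Bool.and_eq_true] at hx
        exact hx.1
      omega
    | true =>
      rw [hb] at h1
      have e1 := step_shift M (pack (P.map (u k)))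
      have e2 := step_shift M (pack (P.map (w k)))
      rw [hM, pack_and] at e1 e2
      cases hg : go h (K.map fun k => (lift (pack (P.map (u k))), lift (pack (P.map (w k)))))
          (step M (lift (pack (P.map (u k))))) with
      | false => rw [hg] at h1; exact absurd h1 (by simp)
      | true =>
        rw [hg] at h1
        cases hck : c k with
        | true =>
          have := ih _ _ e1 hg
          simpa [hck, Bool.and_assoc] using this
        | false =>
          have := ih _ _ e2 h1
          simpa [hck, Bool.and_assoc] using this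

/-- `arcsOf l` lists the arcs of the closed walk `0, l, 0`. -/
def arcsOf (l : List (Fin 7)) : List (Fin 7 × Fin 7) := (0 :: l).zip (l ++ [0])

def PP : List (List (Fin 7)) := List.permutations' [1, 2, 3, 4, 5, 6]

def KK : List (Fin 7 × Fin 7) :=
  [(0,1),(0,2),(1,2),(0,3),(1,3),(2,3),(0,4),(1,4),(2,4),(3,4),(0,5),(1,5),(2,5),(3,5),(4,5),
   (0,6),(1,6),(2,6),(3,6),(4,6),(5,6)]

def uu (k : Fin 7 × Fin 7) (l : List (Fin 7)) : Bool :=
  (arcsOf l).all fun a => !(a.1 == k.2 && a.2 == k.1)
def ww (k : Fin 7 × Fin 7) (l : List (Fin 7)) : Bool :=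
  (arcsOf l).all fun a => !(a.1 == k.1 && a.2 == k.2)

lemma PP_len : PP.length = 720 := by decide +kernel

set_option maxRecDepth 100000 in
lemma main_check : go 23 (KK.map fun k => (lift (pack (PP.map (uu k))), lift (pack (PP.map (ww k)))))
    (lift (pack (PP.map fun _ => true))) = true := by decide +kernel

lemma not23 (c : Fin 7 × Fin 7 → Bool) :
    PP.countP (fun l => KK.all fun k => if c k then uu k l else ww k l) ≠ 23 := by
  have := go_sound 23 PP (by rw [PP_len]; norm_num) uu ww c KK _ (fun _ => true) (by
    unfold lift
    rw [Nat.shiftRight_eq_div_pow, Nat.mul_add_div (by norm_num), Nat.div_eq_of_lt (by norm_num)]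
    simp) main_check
  simpa using this

end Pool.Agent.H9.Tour
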