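import Mathlib

namespace Pool.Agent.H9.UC

lemma six (a b c d e f : ℝ) (h : a ^ 2 + b ^ 2 + c ^ 2 + d ^ 2 + e ^ 2 + f ^ 2 = 0) :
    a = 0 ∧ b = 0 ∧ c = 0 ∧ d = 0 ∧ e = 0 ∧ f = 0 := by
  have ha := sq_nonneg a
  have hb := sq_nonneg b
  have hc := sq_nonneg c
  have hd := sq_nonneg d
  have he := sq_nonneg e
  have hf := sq_nonneg f
  refine ⟨?_, ?_, ?_, ?_, ?_, ?_⟩ <;> apply pow_eq_zero_iff (two_ne_zero) |>.mp <;> linarith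

lemma finl (xa xb xc xd xe xf pa pb pc pd pe pf qa qb qc qd qe qf k u1 u2 : ℝ)
    (hde : xd - xe ≠ 0) (hef : xe - xf ≠ 0) (hdf : xd - xf ≠ 0)
    (e1 : pe = pd + (xe - xd) * u1) (e2 : pf = pd + (xf - xd) * u1)
    (e3 : qe = qd + (xe - xd) * u2) (e4 : qf = qd + (xf - xd) * u2)
    (a1 : (pa - pd) * (pe - pf) + (qa - qd) * (qe - qf) = k * (xa - xd) * (xe - xf))
    (a2 : (pa - pe) * (pd - pf) + (qa - qe) * (qd - qf) = k * (xa - xe) * (xd - xf))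
    (b1 : (pb - pd) * (pe - pf) + (qb - qd) * (qe - qf) = k * (xb - xd) * (xe - xf))
    (c1 : (pc - pd) * (pe - pf) + (qc - qd) * (qe - qf) = k * (xc - xd) * (xe - xf))
    (ab : (pa - pd) * (pb - pe) + (qa - qd) * (qb - qe) = k * (xa - xd) * (xb - xe))
    (ac : (pa - pd) * (pc - pe) + (qa - qd) * (qc - qe) = k * (xa - xd) * (xc - xe))
    (bc : (pb - pd) * (pc - pe) + (qb - qd) * (qc - qe) = k * (xb - xd) * (xc - xe))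
    (N : (pa + pb + pc - pd - pe - pf) ^ 2 + (qa + qb + qc - qd - qe - qf) ^ 2 =
      k * (xa + xb + xc - xd - xe - xf) ^ 2) :
    u1 ^ 2 + u2 ^ 2 = k ∧ pa = pd + (xa - xd) * u1 ∧ pb = pd + (xb - xd) * u1 ∧
      pc = pd + (xc - xd) * u1 ∧ qa = qd + (xa - xd) * u2 ∧ qb = qd + (xb - xd) * u2 ∧
      qc = qd + (xc - xd) * u2 := by
  obtain ⟨Pa, rfl⟩ : ∃ P, pa = pd + (xa - xd) * u1 + P := ⟨pa - pd - (xa - xd) * u1, by ring⟩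
  obtain ⟨Pb, rfl⟩ : ∃ P, pb = pd + (xb - xd) * u1 + P := ⟨pb - pd - (xb - xd) * u1, by ring⟩
  obtain ⟨Pc, rfl⟩ : ∃ P, pc = pd + (xc - xd) * u1 + P := ⟨pc - pd - (xc - xd) * u1, by ring⟩
  obtain ⟨Qa, rfl⟩ : ∃ P, qa = qd + (xa - xd) * u2 + P := ⟨qa - qd - (xa - xd) * u2, by ring⟩
  obtain ⟨Qb, rfl⟩ : ∃ P, qb = qd + (xb - xd) * u2 + P := ⟨qb - qd - (xb - xd) * u2, by ring⟩
  obtain ⟨Qc, rfl⟩ : ∃ P, qc = qd + (xc - xd) * u2 + P := ⟨qc - qd - (xc - xd) * u2, by ring⟩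
  subst e1 e2 e3 e4
  have h1 : Pa * u1 + Qa * u2 + (xa - xd) * (u1 ^ 2 + u2 ^ 2 - k) = 0 :=
    mul_left_cancel₀ hef (by linear_combination a1)
  have h2 : Pa * u1 + Qa * u2 + (xa - xe) * (u1 ^ 2 + u2 ^ 2 - k) = 0 :=
    mul_left_cancel₀ hdf (by linear_combination a2)
  have h3 : Pb * u1 + Qb * u2 + (xb - xd) * (u1 ^ 2 + u2 ^ 2 - k) = 0 :=
    mul_left_cancel₀ hef (by linear_combination b1)
  have h4 : Pc * u1 + Qc * u2 + (xc - xd) * (u1 ^ 2 + u2 ^ 2 - k) = 0 :=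
    mul_left_cancel₀ hef (by linear_combination c1)
  have hm : u1 ^ 2 + u2 ^ 2 - k = 0 := mul_left_cancel₀ hde (by linear_combination h2 - h1)
  have ga : Pa * u1 + Qa * u2 = 0 := by linear_combination h1 - (xa - xd) * hm
  have gb : Pb * u1 + Qb * u2 = 0 := by linear_combination h3 - (xb - xd) * hm
  have gc : Pc * u1 + Qc * u2 = 0 := by linear_combination h4 - (xc - xd) * hm
  have oab : Pa * Pb + Qa * Qb = 0 := by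
    linear_combination ab - (xb - xe) * ga - (xa - xd) * gb - (xa - xd) * (xb - xe) * hm
  have oac : Pa * Pc + Qa * Qc = 0 := by
    linear_combination ac - (xc - xe) * ga - (xa - xd) * gc - (xa - xd) * (xc - xe) * hm
  have obc : Pb * Pc + Qb * Qc = 0 := by
    linear_combination bc - (xc - xe) * gb - (xb - xd) * gc - (xb - xd) * (xc - xe) * hm
  have hs : Pa ^ 2 + Pb ^ 2 + Pc ^ 2 + Qa ^ 2 + Qb ^ 2 + Qc ^ 2 = 0 := by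
    linear_combination N - 2 * oab - 2 * oac - 2 * obc -
      2 * (xa + xb + xc - xd - xe - xf) * (ga + gb + gc) - (xa + xb + xc - xd - xe - xf) ^ 2 * hm
  obtain ⟨z1, z2, z3, z4, z5, z6⟩ := six _ _ _ _ _ _ hs
  subst z1 z2 z3 z4 z5 z6
  refine ⟨by linear_combination hm, ?_, ?_, ?_, ?_, ?_, ?_⟩ <;> ring

lemma core (p0 p1 p2 p3 p4 p5 q0 q1 q2 q3 q4 q5 k : ℝ) (hk : k ≠ 0)
    (n0 : (p0 - p1 - p2 + p3 + p4 - p5) ^ 2 + (q0 - q1 - q2 + q3 + q4 - q5) ^ 2 = k * (12) ^ 2)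
    (n1 : (-p0 + p1 + p2 - p3 + p4 - p5) ^ 2 + (-q0 + q1 + q2 - q3 + q4 - q5) ^ 2 = k * (-14) ^ 2)
    (n2 : (-p0 + p1 - p2 + p3 - p4 + p5) ^ 2 + (-q0 + q1 - q2 + q3 - q4 + q5) ^ 2 = k * (-10) ^ 2)
    (n3 : (p0 - p1 + p2 - p3 - p4 + p5) ^ 2 + (q0 - q1 + q2 - q3 - q4 + q5) ^ 2 = k * (12) ^ 2)
    (n4 : (-p0 - p1 + p2 + p3 - p4 + p5) ^ 2 + (-q0 - q1 + q2 + q3 - q4 + q5) ^ 2 = k * (-8) ^ 2)
    (n5 : (p0 + p1 + p2 - p3 - p4 - p5) ^ 2 + (q0 + q1 + q2 - q3 - q4 - q5) ^ 2 = k * (4) ^ 2)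
    (n6 : (-p0 + p1 - p2 - p3 + p4 + p5) ^ 2 + (-q0 + q1 - q2 - q3 + q4 + q5) ^ 2 = k * (-8) ^ 2)
    (n7 : (p0 - p1 - p2 - p3 + p4 + p5) ^ 2 + (q0 - q1 - q2 - q3 + q4 + q5) ^ 2 = k * (16) ^ 2)
    (n8 : (p0 + p1 - p2 + p3 - p4 - p5) ^ 2 + (q0 + q1 - q2 + q3 - q4 - q5) ^ 2 = k * (6) ^ 2)
    (n9 : (-p0 - p1 + p2 + p3 + p4 - p5) ^ 2 + (-q0 - q1 + q2 + q3 + q4 - q5) ^ 2 = k * (-10) ^ 2) :
    ∃ u1 u2 : ℝ, u1 ^ 2 + u2 ^ 2 = k ∧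
      (p0 - p1 - p2 + p3 + p4 - p5 = (12) * u1 ∧ q0 - q1 - q2 + q3 + q4 - q5 = (12) * u2) ∧
      (-p0 + p1 + p2 - p3 + p4 - p5 = (-14) * u1 ∧ -q0 + q1 + q2 - q3 + q4 - q5 = (-14) * u2) ∧
      (-p0 + p1 - p2 + p3 - p4 + p5 = (-10) * u1 ∧ -q0 + q1 - q2 + q3 - q4 + q5 = (-10) * u2) ∧
      (p0 - p1 + p2 - p3 - p4 + p5 = (12) * u1 ∧ q0 - q1 + q2 - q3 - q4 + q5 = (12) * u2) ∧
      (-p0 - p1 + p2 + p3 - p4 + p5 = (-8) * u1 ∧ -q0 - q1 + q2 + q3 - q4 + q5 = (-8) * u2) ∧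
      (p0 + p1 + p2 - p3 - p4 - p5 = (4) * u1 ∧ q0 + q1 + q2 - q3 - q4 - q5 = (4) * u2) ∧
      (-p0 + p1 - p2 - p3 + p4 + p5 = (-8) * u1 ∧ -q0 + q1 - q2 - q3 + q4 + q5 = (-8) * u2) ∧
      (p0 - p1 - p2 - p3 + p4 + p5 = (16) * u1 ∧ q0 - q1 - q2 - q3 + q4 + q5 = (16) * u2) ∧
      (p0 + p1 - p2 + p3 - p4 - p5 = (6) * u1 ∧ q0 + q1 - q2 + q3 - q4 - q5 = (6) * u2) ∧
      (-p0 - p1 + p2 + p3 + p4 - p5 = (-10) * u1 ∧ -q0 - q1 + q2 + q3 + q4 - q5 = (-10) * u2) := by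
  have s1 : (p0 - p1) * (p3 - p4) + (q0 - q1) * (q3 - q4) = k * (-12) := (by linear_combination (1/8) * (n6 - n2 + n1 - n7))
  have s2 : (p0 - p1) * (p3 - p5) + (q0 - q1) * (q3 - q5) = k * (-24) := (by linear_combination (1/8) * (n6 - n3 + n0 - n7))
  have s3 : (p0 - p2) * (p3 - p4) + (q0 - q2) * (q3 - q4) = k * (-11) := (by linear_combination (1/8) * (n8 - n4 + n1 - n7))
  have s4 : (p0 - p2) * (p3 - p5) + (q0 - q2) * (q3 - q5) = k * (-22) := (by linear_combination (1/8) * (n8 - n9 + n0 - n7))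
  by_cases hd : (p3 - p4) * (q3 - q5) - (q3 - q4) * (p3 - p5) = 0
  · have t1 : 2 * (p3 - p4) - (p3 - p5) = 0 := mul_left_cancel₀ hk (by
      linear_combination (1/12) * (2 * (p3 - p4) - (p3 - p5)) * s1 -
        (1/12) * (p3 - p4) * (2 * s1 - s2) - (1/12) * (q0 - q1) * hd)
    have t2 : 2 * (q3 - q4) - (q3 - q5) = 0 := mul_left_cancel₀ hk (by
      linear_combination (1/12) * (2 * (q3 - q4) - (q3 - q5)) * s1 -
        (1/12) * (q3 - q4) * (2 * s1 - s2) + (1/12) * (p0 - p1) * hd)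
    obtain ⟨u1, u2, e1, e2, e3, e4⟩ : ∃ u1 u2 : ℝ, p4 = p3 + ((1) - (0)) * u1 ∧
        p5 = p3 + ((2) - (0)) * u1 ∧ q4 = q3 + ((1) - (0)) * u2 ∧
        q5 = q3 + ((2) - (0)) * u2 :=
      ⟨p4 - p3, q4 - q3, by linarith, by linarith, by linarith, by linarith⟩
    obtain ⟨r0, r1, r2, r3, r4, r5, r6⟩ := finl (10) (-2) (-1) (0) (1) (2) p0 p1 p2 p3 p4 p5 q0 q1 q2 q3 q4 q5 k u1 u2
      (by norm_num) (by norm_num) (by norm_num) e1 e2 e3 e4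
      (by linear_combination (1/8) * (n4 - n9 + n2 - n3))
      (by linear_combination (1/8) * (n8 - n9 + n6 - n3))
      (by linear_combination (1/8) * (n4 - n9 + n1 - n0))
      (by linear_combination (1/8) * (n2 - n3 + n1 - n0))
      (by linear_combination (1/8) * (n5 - n2 + n9 - n7))
      (by linear_combination (1/8) * (n5 - n4 + n3 - n7))
      (by linear_combination (1/8) * (n5 - n4 + n0 - n6))
      (by linear_combination n5)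
    refine ⟨u1, u2, r0, ?_⟩
    refine ⟨⟨?_, ?_⟩, ⟨?_, ?_⟩, ⟨?_, ?_⟩, ⟨?_, ?_⟩, ⟨?_, ?_⟩, ⟨?_, ?_⟩, ⟨?_, ?_⟩, ⟨?_, ?_⟩,
      ⟨?_, ?_⟩, ⟨?_, ?_⟩⟩ <;> linarith
  · have t1 : 11 * (p0 - p1) - 12 * (p0 - p2) = 0 := mul_left_cancel₀ hd (by
      linear_combination (q3 - q5) * (11 * s1 - 12 * s3) - (q3 - q4) * (11 * s2 - 12 * s4))
    have t2 : 11 * (q0 - q1) - 12 * (q0 - q2) = 0 := mul_left_cancel₀ hd (by
      linear_combination (p3 - p4) * (11 * s2 - 12 * s4) - (p3 - p5) * (11 * s1 - 12 * s3))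
    obtain ⟨u1, u2, e1, e2, e3, e4⟩ : ∃ u1 u2 : ℝ, p1 = p0 + ((-2) - (10)) * u1 ∧
        p2 = p0 + ((-1) - (10)) * u1 ∧ q1 = q0 + ((-2) - (10)) * u2 ∧
        q2 = q0 + ((-1) - (10)) * u2 :=
      ⟨(p0 - p1) / 12, (q0 - q1) / 12, by linarith, by linarith, by linarith, by linarith⟩
    obtain ⟨r0, r1, r2, r3, r4, r5, r6⟩ := finl (0) (1) (2) (10) (-2) (-1) p3 p4 p5 p0 p1 p2 q3 q4 q5 q0 q1 q2 k u1 u2
      (by norm_num) (by norm_num) (by norm_num) e1 e2 e3 e4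
      (by linear_combination (1/8) * (n3 - n9 + n2 - n4))
      (by linear_combination (1/8) * (n0 - n9 + n1 - n4))
      (by linear_combination (1/8) * (n3 - n9 + n6 - n8))
      (by linear_combination (1/8) * (n2 - n4 + n6 - n8))
      (by linear_combination (1/8) * (n9 - n7 + n5 - n2))
      (by linear_combination (1/8) * (n4 - n7 + n5 - n3))
      (by linear_combination (1/8) * (n8 - n1 + n5 - n3))
      (by linear_combination n5)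
    refine ⟨u1, u2, r0, ?_⟩
    refine ⟨⟨?_, ?_⟩, ⟨?_, ?_⟩, ⟨?_, ?_⟩, ⟨?_, ?_⟩, ⟨?_, ?_⟩, ⟨?_, ?_⟩, ⟨?_, ?_⟩, ⟨?_, ?_⟩,
      ⟨?_, ?_⟩, ⟨?_, ?_⟩⟩ <;> linarith

end Pool.Agent.H9.UC
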