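import Mathlib

namespace Pool.Agent.H9.UC
open Matrix Complex

/-- labels of the computational basis of `k` qubits -/
abbrev Q (k : ℕ) := Fin k → Fin 2

/-- the spin observable `n_x X + n_y Y + n_z Z` -/
def sn (n : Fin 3 → ℝ) : Matrix (Fin 2) (Fin 2) ℂ :=
  (n 0 : ℂ) • !![0, 1; 1, 0] + (n 1 : ℂ) • !![0, -I; I, 0] + (n 2 : ℂ) • !![1, 0; 0, -1]

/-- the tensor product with `sn n` on the qubits in `J` and the identity elsewhere -/
def obs {N : ℕ} (n : Fin 3 → ℝ) (J : Finset (Fin N)) : Matrix (Q N) (Q N) ℂ :=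
  Matrix.of fun u v => ∏ i, (if i ∈ J then sn n else 1) (u i) (v i)

/-- the uniform-measurement data -/
def data {N : ℕ} (ρ : Matrix (Q N) (Q N) ℂ) (n : Fin 3 → ℝ) (J : Finset (Fin N)) : ℂ :=
  trace (ρ * obs n J)

/-- equal data for all unit directions and all subsets -/
def SameData {N : ℕ} (ρ τ : Matrix (Q N) (Q N) ℂ) : Prop :=
  ∀ n : Fin 3 → ℝ, n 0 ^ 2 + n 1 ^ 2 + n 2 ^ 2 = 1 → ∀ J, data ρ n J = data τ n J

/-- the projector onto a vector -/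
def proj {N : ℕ} (ψ : Q N → ℂ) : Matrix (Q N) (Q N) ℂ := vecMulVec ψ (star ψ)

lemma data_proj {N : ℕ} (φ : Q N → ℂ) (n : Fin 3 → ℝ) (J : Finset (Fin N)) :
    data (proj φ) n J = star φ ⬝ᵥ obs n J *ᵥ φ := by
  rw [data, proj, trace_mul_comm, mul_vecMulVec, trace_vecMulVec, dotProduct_comm]

def emb : Fin 10 → Q 5 := ![![1, 1, 0, 0, 0], ![1, 0, 1, 0, 0], ![1, 0, 0, 1, 0],
  ![1, 0, 0, 0, 1], ![0, 1, 1, 0, 0], ![0, 1, 0, 1, 0], ![0, 1, 0, 0, 1], ![0, 0, 1, 1, 0],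
  ![0, 0, 1, 0, 1], ![0, 0, 0, 1, 1]]

lemma emb_inj : Function.Injective emb := by decide +kernel

def lift (f : Fin 10 → ℂ) : Q 5 → ℂ := fun u => ∑ α, if u = emb α then f α else 0

lemma lift_emb (f : Fin 10 → ℂ) (α : Fin 10) : lift f (emb α) = f α := by
  simp [lift, emb_inj.eq_iff]

lemma lift_out (f : Fin 10 → ℂ) (u : Q 5) (h : ∀ α, u ≠ emb α) : lift f u = 0 := by
  simp [lift, h]

lemma sum_lift (f : Fin 10 → ℂ) (g : Q 5 → ℂ) : ∑ u, g u * lift f u = ∑ α, g (emb α) * f α := by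
  simp only [lift, Finset.mul_sum]
  rw [Finset.sum_comm]
  refine Finset.sum_congr rfl fun α _ => ?_
  simp

lemma star_lift (f : Fin 10 → ℂ) : star (lift f) = lift (star f) := by
  funext u
  simp only [lift, Pi.star_apply, star_sum]
  refine Finset.sum_congr rfl fun α _ => ?_
  split_ifs <;> simp

lemma quad (f : Fin 10 → ℂ) (M : Matrix (Q 5) (Q 5) ℂ) :
    star (lift f) ⬝ᵥ M *ᵥ lift f = ∑ α, ∑ β, star (f α) * f β * M (emb α) (emb β) := by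
  rw [star_lift, dotProduct_comm]
  simp only [dotProduct, mulVec]
  rw [sum_lift]
  refine Finset.sum_congr rfl fun α _ => ?_
  rw [sum_lift, Finset.sum_mul]
  refine Finset.sum_congr rfl fun β _ => ?_
  simp only [Pi.star_apply]; ring

def s1 (b : Bool) (a c : Fin 2) : ℤ :=
  if b then (if a = 1 ∧ c = 1 then -1 else 1) else (if a = c then 1 else 0)
def k1 (b : Bool) (a c : Fin 2) : ℕ := if b ∧ a = c then 1 else 0
def k2 (b : Bool) (a c : Fin 2) : ℕ := if b ∧ a = 1 ∧ c = 0 then 1 else 0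
def k3 (b : Bool) (a c : Fin 2) : ℕ := if b ∧ a = 0 ∧ c = 1 then 1 else 0

lemma entry1 (n : Fin 3 → ℝ) (b : Bool) (a c : Fin 2) :
    (if b then sn n else 1) a c = (s1 b a c : ℂ) * (n 2 : ℂ) ^ k1 b a c *
      ((n 0 : ℂ) + n 1 * I) ^ k2 b a c * ((n 0 : ℂ) - n 1 * I) ^ k3 b a c := by
  cases b <;> fin_cases a <;> fin_cases c <;> simp [sn, s1, k1, k2, k3, sub_eq_add_neg]

def SS (t : Fin 5 → Bool) (u v : Q 5) : ℤ := ∏ i, s1 (t i) (u i) (v i)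
def K1 (t : Fin 5 → Bool) (u v : Q 5) : ℕ := ∑ i, k1 (t i) (u i) (v i)
def K2 (t : Fin 5 → Bool) (u v : Q 5) : ℕ := ∑ i, k2 (t i) (u i) (v i)
def K3 (t : Fin 5 → Bool) (u v : Q 5) : ℕ := ∑ i, k3 (t i) (u i) (v i)
def cnt (t : Fin 5 → Bool) : ℕ := ∑ i, if t i then 1 else 0
def tt (J : Finset (Fin 5)) : Fin 5 → Bool := fun i => decide (i ∈ J)

lemma entry (n : Fin 3 → ℝ) (J : Finset (Fin 5)) (u v : Q 5) :
    obs n J u v = (SS (tt J) u v : ℂ) * (n 2 : ℂ) ^ K1 (tt J) u v *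
      ((n 0 : ℂ) + n 1 * I) ^ K2 (tt J) u v * ((n 0 : ℂ) - n 1 * I) ^ K3 (tt J) u v := by
  simp only [obs, Matrix.of_apply, SS, K1, K2, K3, Int.cast_prod, ← Finset.prod_pow_eq_pow_sum,
    ← Finset.prod_mul_distrib]
  refine Finset.prod_congr rfl fun i _ => ?_
  rw [← entry1]
  simp [tt]

lemma fact1 : ∀ (t : Fin 5 → Bool) (α β : Fin 10), SS t (emb α) (emb β) = 0 ∨
    (K3 t (emb α) (emb β) = K2 t (emb α) (emb β) ∧
      K1 t (emb α) (emb β) = cnt t - 2 * K2 t (emb α) (emb β) ∧ K2 t (emb α) (emb β) < 3) := by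
  decide +kernel

def cf (t : Fin 5 → Bool) (j : Fin 3) (α β : Fin 10) : ℤ :=
  if K2 t (emb α) (emb β) = j then SS t (emb α) (emb β) else 0

noncomputable def gg (n : Fin 3 → ℝ) (t : Fin 5 → Bool) (j : Fin 3) : ℂ :=
  (n 2 : ℂ) ^ (cnt t - 2 * j) * ((n 0 : ℂ) + n 1 * I) ^ (j : ℕ) * ((n 0 : ℂ) - n 1 * I) ^ (j : ℕ)

lemma entry_emb (n : Fin 3 → ℝ) (J : Finset (Fin 5)) (α β : Fin 10) :
    obs n J (emb α) (emb β) = ∑ j, (cf (tt J) j α β : ℂ) * gg n (tt J) j := by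
  rw [entry]
  rcases fact1 (tt J) α β with h | ⟨h3, h1, h2⟩
  · simp [cf, h]
  · rw [Finset.sum_eq_single (⟨_, h2⟩ : Fin 3)]
    · simp only [cf, gg, if_true, h3, h1]; ring
    · intro j _ hj
      have : K2 (tt J) (emb α) (emb β) ≠ j := fun h => hj (Fin.ext h.symm)
      simp [cf, this]
    · simp

def psiZ : Fin 10 → ℤ := ![12, -14, -10, 12, -8, 4, -8, 16, 6, -10]

def GZ : Fin 11 → Fin 10 → ℤ := ![![14, -18, -10, 14, -6, -2, -6, 22, 2, -10],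
  ![1, -1, 3, -3, -3, -1, 3, 1, 3, -3], ![-2, 2, -2, 2, -2, 2, 2, 2, -2, -2],
  ![-1, -3, 1, 3, 3, 1, -3, -1, 1, -1], ![4, 0, -4, 0, 0, 0, -4, 0, 0, 4],
  ![-1, 1, -1, 1, -1, 1, 1, 1, -1, -1], ![0, -2, 2, 0, 0, 0, 0, 0, 2, -2],
  ![3, -1, 1, -3, -3, -1, 1, 1, 3, -1], ![-1, 1, -1, 1, -1, 1, 1, 1, -1, -1],
  ![-2, 2, -2, 2, -2, 2, 2, 2, -2, -2], ![-3, -3, 3, 3, 3, 1, -1, -1, 1, -3]]

def wt : Fin 11 → ℕ := ![1, 2, 2, 2, 2, 2, 2, 2, 2, 2, 2]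

def DL (α β : Fin 10) : ℤ := ∑ k, (wt k : ℤ) * (GZ k α * GZ k β) - 2 * (psiZ α * psiZ β)

lemma fact2 : ∀ (t : Fin 5 → Bool) (j : Fin 3), ∑ α, ∑ β, DL α β * cf t j α β = 0 := by
  decide +kernel

lemma fact3 : DL 0 1 ≠ 0 := by decide +kernel

end Pool.Agent.H9.UC
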