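import Pool.Agent.H9.UC1
import Pool.Agent.H9.UC2

namespace Pool.Agent.H9.UC
open Matrix Complex
open scoped ComplexOrder

noncomputable def cc : ℝ := (Real.sqrt 1120)⁻¹

lemma cc_sq : (cc : ℂ) * cc = 1 / 1120 := by
  have : cc * cc = 1 / 1120 := by
    rw [cc, ← mul_inv, Real.mul_self_sqrt (by norm_num)]; norm_num
  rw [← Complex.ofReal_mul, this]; push_cast; rfl

noncomputable def f0 : Fin 10 → ℂ := fun α => (cc : ℂ) * (psiZ α : ℂ)
noncomputable def psi0 : Q 5 → ℂ := lift f0

lemma f0_mul (α β : Fin 10) : star (f0 α) * f0 β = (psiZ α * psiZ β : ℂ) / 1120 := by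
  simp only [f0, star_mul', Complex.star_def, conj_ofReal, map_intCast]
  linear_combination (psiZ α * psiZ β : ℂ) * cc_sq

noncomputable def rho0 : Matrix (Q 5) (Q 5) ℂ :=
  ∑ k, ((wt k : ℂ) / 2240) • proj (lift fun α => (GZ k α : ℂ))

lemma rho0_psd : rho0.PosSemidef := by
  refine Matrix.posSemidef_sum _ fun k _ => ?_
  refine (Matrix.posSemidef_vecMulVec_self_star _).smul ?_
  have : ((wt k : ℂ) / 2240) = (((wt k : ℝ) / 2240 : ℝ) : ℂ) := by push_cast; rfl
  rw [this]
  exact Complex.zero_le_real.mpr (by positivity)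

lemma same0 (n : Fin 3 → ℝ) (J : Finset (Fin 5)) : data rho0 n J = data (proj psi0) n J := by
  have h1 : data rho0 n J =
      ∑ k, ((wt k : ℂ) / 2240) * data (proj (lift fun α => (GZ k α : ℂ))) n J := by
    simp only [data, rho0, Finset.sum_mul, trace_sum, smul_mul_assoc, trace_smul, smul_eq_mul]
  have h2 : data rho0 n J - data (proj psi0) n J =
      (1 / 2240) * ∑ α, ∑ β, (DL α β : ℂ) * obs n J (emb α) (emb β) := by
    rw [h1]
    simp only [data_proj, psi0, quad, f0_mul, Finset.mul_sum]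
    rw [Finset.sum_comm, ← Finset.sum_sub_distrib]
    refine Finset.sum_congr rfl fun α _ => ?_
    rw [Finset.sum_comm, ← Finset.sum_sub_distrib]
    refine Finset.sum_congr rfl fun β _ => ?_
    simp only [DL, Int.cast_sub, Int.cast_sum, Int.cast_mul, Int.cast_natCast, star_intCast,
      sub_mul, mul_sub, Finset.sum_mul, Finset.mul_sum, Int.cast_ofNat]
    congr 1
    · exact Finset.sum_congr rfl fun k _ => by ring
    · ring
  have h3 : ∑ α, ∑ β, (DL α β : ℂ) * obs n J (emb α) (emb β) =
      ∑ j, ((∑ α, ∑ β, DL α β * cf (tt J) j α β : ℤ) : ℂ) * gg n (tt J) j := by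
    simp only [entry_emb, Finset.mul_sum, Int.cast_sum, Int.cast_mul, Finset.sum_mul]
    rw [Finset.sum_comm (s := (Finset.univ : Finset (Fin 3)))]
    refine Finset.sum_congr rfl fun α _ => ?_
    rw [Finset.sum_comm (s := (Finset.univ : Finset (Fin 3)))]
    exact Finset.sum_congr rfl fun β _ => Finset.sum_congr rfl fun j _ => by ring
  rw [h3] at h2
  simp only [fact2, Int.cast_zero, zero_mul, Finset.sum_const_zero, mul_zero] at h2
  exact sub_eq_zero.mp h2

lemma psi0_norm : star psi0 ⬝ᵥ psi0 = 1 := by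
  rw [psi0, star_lift, dotProduct, sum_lift]
  simp only [lift_emb, Pi.star_apply, f0_mul]
  simp [psiZ, Fin.sum_univ_succ]
  norm_num

lemma obs_empty {N : ℕ} (n : Fin 3 → ℝ) : obs n (∅ : Finset (Fin N)) = 1 := by
  ext u v
  simp only [obs, Matrix.of_apply, Finset.notMem_empty, if_false, Matrix.one_apply]
  by_cases h : u = v
  · subst h; simp
  · rw [if_neg h]
    obtain ⟨i, hi⟩ := Function.ne_iff.mp h
    exact Finset.prod_eq_zero (Finset.mem_univ i) (if_neg hi)

lemma rho0_tr : trace rho0 = 1 := by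
  have := same0 (fun _ => 0) ∅
  rw [data_proj, data, obs_empty, Matrix.mul_one, one_mulVec, psi0_norm] at this
  exact this

lemma rho0_ne : rho0 ≠ proj psi0 := by
  intro h
  have h1 := congrFun (congrFun h (emb 1)) (emb 0)
  simp only [rho0, proj, psi0, Matrix.sum_apply, Matrix.smul_apply, vecMulVec_apply,
    Pi.star_apply, lift_emb, smul_eq_mul, star_intCast] at h1
  rw [mul_comm (f0 1), f0_mul] at h1
  apply fact3
  have : ((DL 0 1 : ℤ) : ℂ) = 0 := by
    simp only [DL, Int.cast_sub, Int.cast_sum, Int.cast_mul, Int.cast_natCast, Int.cast_ofNat]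
    have h2 : ∑ k, (wt k : ℂ) * ((GZ k 0 : ℂ) * GZ k 1) =
        2240 * ∑ k, (wt k : ℂ) / 2240 * ((GZ k 1 : ℂ) * GZ k 0) := by
      rw [Finset.mul_sum]; exact Finset.sum_congr rfl fun k _ => by ring
    rw [h2, h1]; ring
  exact_mod_cast this

def sg (a : Fin 2) : ℂ := if a = 1 then -1 else 1

lemma obs_z (J : Finset (Fin 5)) (u v : Q 5) :
    obs ![0, 0, 1] J u v = if u = v then ∏ i ∈ J, sg (u i) else 0 := by
  simp only [obs, Matrix.of_apply]
  by_cases h : u = v
  · subst h
    rw [if_pos rfl, ← Finset.prod_filter_mul_prod_filter_not Finset.univ (· ∈ J)]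
    have e1 : Finset.univ.filter (· ∈ J) = J := by ext; simp
    rw [e1, Finset.prod_eq_one (s := Finset.univ.filter (· ∉ J)), mul_one]
    · refine Finset.prod_congr rfl fun i hi => ?_
      rw [if_pos hi]
      generalize u i = a
      fin_cases a <;> simp [sn, sg]
    · intro i hi
      rw [if_neg (by simpa using hi)]; simp
  · rw [if_neg h]
    obtain ⟨i, hi⟩ := Function.ne_iff.mp h
    refine Finset.prod_eq_zero (Finset.mem_univ i) ?_
    revert hi
    generalize u i = a
    generalize v i = b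
    intro hi
    split_ifs
    · fin_cases a <;> fin_cases b <;> simp_all [sn]
    · simp [hi]

lemma fourier (h : Q 5 → ℂ) (hh : ∀ J : Finset (Fin 5), ∑ u, h u * ∏ i ∈ J, sg (u i) = 0)
    (v : Q 5) : h v = 0 := by
  have key : ∀ u : Q 5, ∑ J : Finset (Fin 5), (∏ i ∈ J, sg (u i)) * ∏ i ∈ J, sg (v i) =
      if u = v then 32 else 0 := by
    intro u
    simp_rw [← Finset.prod_mul_distrib]
    rw [← Finset.powerset_univ, ← Finset.prod_one_add]
    by_cases e : u = v
    · subst e
      have : ∀ a, 1 + sg a * sg a = 2 := by intro a; fin_cases a <;> simp [sg] <;> norm_num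
      simp [this]; norm_num
    · rw [if_neg e]
      obtain ⟨i, hi⟩ := Function.ne_iff.mp e
      refine Finset.prod_eq_zero (Finset.mem_univ i) ?_
      revert hi
      generalize u i = a
      generalize v i = b
      intro hi
      fin_cases a <;> fin_cases b <;> simp_all [sg]
  have h1 : ∑ J : Finset (Fin 5), (∑ u, h u * ∏ i ∈ J, sg (u i)) * ∏ i ∈ J, sg (v i) = 0 := by
    simp [hh]
  simp_rw [Finset.sum_mul, mul_assoc] at h1
  rw [Finset.sum_comm] at h1
  simp_rw [← Finset.mul_sum, key] at h1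
  simpa using h1

lemma diag_eq {φ ψ : Q 5 → ℂ} (h : SameData (proj φ) (proj ψ)) (v : Q 5) :
    star (φ v) * φ v = star (ψ v) * ψ v := by
  have e : ∀ (χ : Q 5 → ℂ) (J : Finset (Fin 5)), data (proj χ) ![0, 0, 1] J =
      ∑ u, (star (χ u) * χ u) * ∏ i ∈ J, sg (u i) := by
    intro χ J
    simp only [data_proj, dotProduct, mulVec, obs_z, Pi.star_apply]
    refine Finset.sum_congr rfl fun u _ => ?_
    simp only [ite_mul, zero_mul, Finset.sum_ite_eq, Finset.mem_univ, if_true]
    ring
  refine sub_eq_zero.mp (fourier (fun u => star (φ u) * φ u - star (ψ u) * ψ u) (fun J => ?_) v)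
  have := h ![0, 0, 1] (by simp) J
  rw [e, e] at this
  simp only [sub_mul, Finset.sum_sub_distrib, this, sub_self]

end Pool.Agent.H9.UC
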