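import Pool.Agent.H9.UC3

namespace Pool.Agent.H9.UC
open Matrix Complex

lemma rep (a0 a1 a2 a3 a4 a5 a6 a7 a8 a9 : ℝ)
    (v0 : a0 + a1 + a2 + a3 = 0)
    (v1 : a0 + a4 + a5 + a6 = 0)
    (v2 : a1 + a4 + a7 + a8 = 0)
    (v3 : a2 + a5 + a7 + a9 = 0)
    (v4 : a3 + a6 + a8 + a9 = 0) :
    ∃ p0 p1 p2 p3 p4 p5 : ℝ, a0 = p0 - p1 - p2 + p3 + p4 - p5 ∧
      a1 = -p0 + p1 + p2 - p3 + p4 - p5 ∧
      a2 = -p0 + p1 - p2 + p3 - p4 + p5 ∧
      a3 = p0 - p1 + p2 - p3 - p4 + p5 ∧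
      a4 = -p0 - p1 + p2 + p3 - p4 + p5 ∧
      a5 = p0 + p1 + p2 - p3 - p4 - p5 ∧
      a6 = -p0 + p1 - p2 - p3 + p4 + p5 ∧
      a7 = p0 - p1 - p2 - p3 + p4 + p5 ∧
      a8 = p0 + p1 - p2 + p3 - p4 - p5 ∧
      a9 = -p0 - p1 + p2 + p3 + p4 - p5 := by
  refine ⟨((a0 - a1 - a2 + a3 - a4 + a5 - a6 + a7 + a8 - a9) / 12),
    ((-a0 + a1 + a2 - a3 - a4 + a5 + a6 - a7 + a8 - a9) / 12),
    ((-a0 + a1 - a2 + a3 + a4 + a5 - a6 - a7 - a8 + a9) / 12),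
    ((a0 - a1 + a2 - a3 + a4 - a5 - a6 - a7 + a8 + a9) / 12),
    ((a0 + a1 - a2 - a3 - a4 - a5 + a6 + a7 - a8 + a9) / 12),
    ((-a0 - a1 + a2 + a3 + a4 - a5 + a6 + a7 - a8 - a9) / 12), ?_, ?_, ?_, ?_, ?_, ?_, ?_, ?_, ?_, ?_⟩ <;> linarith

lemma core2 (a0 a1 a2 a3 a4 a5 a6 a7 a8 a9 b0 b1 b2 b3 b4 b5 b6 b7 b8 b9 k : ℝ) (hk : k ≠ 0)
    (v0 : a0 + a1 + a2 + a3 = 0) (w0 : b0 + b1 + b2 + b3 = 0)
    (v1 : a0 + a4 + a5 + a6 = 0) (w1 : b0 + b4 + b5 + b6 = 0)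
    (v2 : a1 + a4 + a7 + a8 = 0) (w2 : b1 + b4 + b7 + b8 = 0)
    (v3 : a2 + a5 + a7 + a9 = 0) (w3 : b2 + b5 + b7 + b9 = 0)
    (v4 : a3 + a6 + a8 + a9 = 0) (w4 : b3 + b6 + b8 + b9 = 0)
    (n0 : a0 ^ 2 + b0 ^ 2 = k * (12) ^ 2)
    (n1 : a1 ^ 2 + b1 ^ 2 = k * (-14) ^ 2)
    (n2 : a2 ^ 2 + b2 ^ 2 = k * (-10) ^ 2)
    (n3 : a3 ^ 2 + b3 ^ 2 = k * (12) ^ 2)
    (n4 : a4 ^ 2 + b4 ^ 2 = k * (-8) ^ 2)
    (n5 : a5 ^ 2 + b5 ^ 2 = k * (4) ^ 2)
    (n6 : a6 ^ 2 + b6 ^ 2 = k * (-8) ^ 2)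
    (n7 : a7 ^ 2 + b7 ^ 2 = k * (16) ^ 2)
    (n8 : a8 ^ 2 + b8 ^ 2 = k * (6) ^ 2)
    (n9 : a9 ^ 2 + b9 ^ 2 = k * (-10) ^ 2) :
    ∃ u1 u2 : ℝ, u1 ^ 2 + u2 ^ 2 = k ∧
      (a0 = (12) * u1 ∧ b0 = (12) * u2) ∧
      (a1 = (-14) * u1 ∧ b1 = (-14) * u2) ∧
      (a2 = (-10) * u1 ∧ b2 = (-10) * u2) ∧
      (a3 = (12) * u1 ∧ b3 = (12) * u2) ∧
      (a4 = (-8) * u1 ∧ b4 = (-8) * u2) ∧
      (a5 = (4) * u1 ∧ b5 = (4) * u2) ∧
      (a6 = (-8) * u1 ∧ b6 = (-8) * u2) ∧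
      (a7 = (16) * u1 ∧ b7 = (16) * u2) ∧
      (a8 = (6) * u1 ∧ b8 = (6) * u2) ∧
      (a9 = (-10) * u1 ∧ b9 = (-10) * u2) := by
  obtain ⟨p0, p1, p2, p3, p4, p5, rfl, rfl, rfl, rfl, rfl, rfl, rfl, rfl, rfl, rfl⟩ :=
    rep a0 a1 a2 a3 a4 a5 a6 a7 a8 a9 v0 v1 v2 v3 v4
  obtain ⟨q0, q1, q2, q3, q4, q5, rfl, rfl, rfl, rfl, rfl, rfl, rfl, rfl, rfl, rfl⟩ :=
    rep b0 b1 b2 b3 b4 b5 b6 b7 b8 b9 w0 w1 w2 w3 w4
  exact core p0 p1 p2 p3 p4 p5 q0 q1 q2 q3 q4 q5 k hk n0 n1 n2 n3 n4 n5 n6 n7 n8 n9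

def pr (γ : Fin 10) : Finset (Fin 5) := Finset.univ.filter fun i => emb γ i = 1

def xt (t : Fin 5 → Bool) (u v : Q 5) : ℤ := if K1 t u v = 0 then SS t u v else 0

def inc (k : Fin 5) (α : Fin 10) : ℤ := if emb α k = 1 then 1 else 0

lemma fact4 : ∀ α β : Fin 10, ∑ k, inc k α * inc k β =
    ∑ γ, xt (tt (pr γ)) (emb α) (emb β) + if α = β then 2 else 0 := by decide +kernel

lemma fact5 : ∀ k, ∑ α, inc k α * psiZ α = 0 := by decide +kernel

lemma obs_x (J : Finset (Fin 5)) (u v : Q 5) : obs ![1, 0, 0] J u v = (xt (tt J) u v : ℂ) := by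
  rw [entry, xt]
  split_ifs with h
  · simp [h]
  · simp [h]

lemma vsum (f : Fin 10 → ℂ) :
    ∑ k, star (∑ α, (inc k α : ℂ) * f α) * (∑ α, (inc k α : ℂ) * f α) =
      ∑ γ, data (proj (lift f)) ![1, 0, 0] (pr γ) + 2 * ∑ α, star (f α) * f α := by
  have h1 : ∑ k, star (∑ α, (inc k α : ℂ) * f α) * (∑ α, (inc k α : ℂ) * f α) =
      ∑ α, ∑ β, star (f α) * f β * ((∑ k, inc k α * inc k β : ℤ) : ℂ) := by
    simp only [star_sum, star_mul', star_intCast]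
    simp only [Finset.sum_mul_sum]
    simp only [Int.cast_sum, Int.cast_mul, Finset.mul_sum]
    rw [Finset.sum_comm]
    refine Finset.sum_congr rfl fun α _ => ?_
    rw [Finset.sum_comm]
    exact Finset.sum_congr rfl fun β _ => Finset.sum_congr rfl fun k _ => by ring
  rw [h1]
  simp only [fact4, data_proj, quad, obs_x, Int.cast_add, Int.cast_sum, mul_add,
    Finset.sum_add_distrib, Finset.mul_sum]
  congr 1
  · rw [Finset.sum_comm (s := (Finset.univ : Finset (Fin 10)))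
      (f := fun γ α => ∑ β, star (f α) * f β * (xt (tt (pr γ)) (emb α) (emb β) : ℂ))]
    exact Finset.sum_congr rfl fun α _ => Finset.sum_comm
  · refine Finset.sum_congr rfl fun α _ => ?_
    rw [Finset.sum_eq_single α]
    · simp; ring
    · intro β _ hβ; simp [Ne.symm hβ]
    · simp

lemma udp (φ : Q 5 → ℂ) (h : SameData (proj φ) (proj psi0)) : proj φ = proj psi0 := by
  have hd := diag_eq h
  obtain ⟨f, rfl⟩ : ∃ f, φ = lift f := by
    refine ⟨fun α => φ (emb α), funext fun u => ?_⟩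
    by_cases hu : ∃ α, u = emb α
    · obtain ⟨α, rfl⟩ := hu
      rw [lift_emb]
    · have hu' : ∀ α, u ≠ emb α := fun α e => hu ⟨α, e⟩
      have := hd u
      rw [psi0, lift_out f0 u hu', mul_zero] at this
      rw [lift_out _ u hu']
      simpa using this
  have hn : ∀ α, star (f α) * f α = star (f0 α) * f0 α := by
    intro α
    have := hd (emb α)
    rwa [psi0, lift_emb, lift_emb] at this
  have hv : ∑ k, star (∑ α, (inc k α : ℂ) * f α) * (∑ α, (inc k α : ℂ) * f α) = 0 := by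
    have e1 : ∀ γ, data (proj (lift f)) ![1, 0, 0] (pr γ) =
        data (proj (lift f0)) ![1, 0, 0] (pr γ) := fun γ => h _ (by simp) _
    rw [vsum]
    simp_rw [e1, hn]
    rw [← vsum]
    refine Finset.sum_eq_zero fun k _ => ?_
    have : ∑ α, (inc k α : ℂ) * f0 α = (cc : ℂ) * ((∑ α, inc k α * psiZ α : ℤ) : ℂ) := by
      simp only [f0, Int.cast_sum, Int.cast_mul, Finset.mul_sum]
      exact Finset.sum_congr rfl fun α _ => by ring
    rw [this, fact5]; simp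
  have hv' : ∀ k, ∑ α, (inc k α : ℂ) * f α = 0 := by
    intro k
    simp only [Complex.star_def, ← Complex.normSq_eq_conj_mul_self, ← Complex.ofReal_sum,
      Complex.ofReal_eq_zero] at hv
    exact Complex.normSq_eq_zero.mp ((Finset.sum_eq_zero_iff_of_nonneg
      fun k _ => Complex.normSq_nonneg _).mp hv k (Finset.mem_univ k))
  have hr : ∀ α, (f α).re ^ 2 + (f α).im ^ 2 = 1 / 1120 * (psiZ α : ℝ) ^ 2 := by
    intro α
    have := hn α
    rw [f0_mul, Complex.star_def, ← Complex.normSq_eq_conj_mul_self] at this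
    have h2 : ((normSq (f α) : ℝ) : ℂ) = ((1 / 1120 * (psiZ α : ℝ) ^ 2 : ℝ) : ℂ) := by
      rw [this]; push_cast; ring
    rw [← Complex.ofReal_injective h2, normSq_apply]; ring
  have s0 : f 0 + f 1 + f 2 + f 3 = 0 := by
    have := hv' 0; simp [inc, emb, Fin.sum_univ_succ] at this; linear_combination this
  have s1 : f 0 + f 4 + f 5 + f 6 = 0 := by
    have := hv' 1; simp [inc, emb, Fin.sum_univ_succ] at this; linear_combination this
  have s2 : f 1 + f 4 + f 7 + f 8 = 0 := by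
    have := hv' 2; simp [inc, emb, Fin.sum_univ_succ] at this; linear_combination this
  have s3 : f 2 + f 5 + f 7 + f 9 = 0 := by
    have := hv' 3; simp [inc, emb, Fin.sum_univ_succ] at this; linear_combination this
  have s4 : f 3 + f 6 + f 8 + f 9 = 0 := by
    have := hv' 4; simp [inc, emb, Fin.sum_univ_succ] at this; linear_combination this
  obtain ⟨u1, u2, hu, t0, t1, t2, t3, t4, t5, t6, t7, t8, t9⟩ := core2
    (f 0).re (f 1).re (f 2).re (f 3).re (f 4).re (f 5).re (f 6).re (f 7).re (f 8).re (f 9).re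
    (f 0).im (f 1).im (f 2).im (f 3).im (f 4).im (f 5).im (f 6).im (f 7).im (f 8).im (f 9).im
    (1 / 1120) (by norm_num)
    (by simpa using congrArg Complex.re s0) (by simpa using congrArg Complex.im s0)
    (by simpa using congrArg Complex.re s1) (by simpa using congrArg Complex.im s1)
    (by simpa using congrArg Complex.re s2) (by simpa using congrArg Complex.im s2)
    (by simpa using congrArg Complex.re s3) (by simpa using congrArg Complex.im s3)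
    (by simpa using congrArg Complex.re s4) (by simpa using congrArg Complex.im s4)
    (by simpa [psiZ] using hr 0) (by simpa [psiZ] using hr 1) (by simpa [psiZ] using hr 2)
    (by simpa [psiZ] using hr 3) (by simpa [psiZ] using hr 4) (by simpa [psiZ] using hr 5)
    (by simpa [psiZ] using hr 6) (by simpa [psiZ] using hr 7) (by simpa [psiZ] using hr 8)
    (by simpa [psiZ] using hr 9)
  have hf : ∀ α, f α = (psiZ α : ℂ) * ((u1 : ℂ) + u2 * I) := by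
    intro α
    fin_cases α <;> apply Complex.ext <;>
      simp [psiZ, t0.1, t0.2, t1.1, t1.2, t2.1, t2.2, t3.1, t3.2, t4.1, t4.2, t5.1, t5.2,
        t6.1, t6.2, t7.1, t7.2, t8.1, t8.2, t9.1, t9.2]
  have huc : (u1 : ℂ) ^ 2 + (u2 : ℂ) ^ 2 = 1 / 1120 := by
    have := congrArg (fun x : ℝ => (x : ℂ)) hu
    simpa using this
  have hB : ∀ α β, f α * star (f β) = f0 α * star (f0 β) := by
    intro α β
    rw [mul_comm (f0 α), f0_mul, hf, hf]
    simp only [star_mul', star_add, star_intCast, Complex.star_def, conj_ofReal, conj_I]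
    linear_combination (psiZ α * psiZ β : ℂ) * huc -
      (psiZ α * psiZ β * (u2 : ℂ) ^ 2) * I_mul_I
  ext u v
  simp only [proj, psi0, vecMulVec_apply, Pi.star_apply]
  by_cases h1 : ∃ α, u = emb α
  · obtain ⟨α, rfl⟩ := h1
    by_cases h2 : ∃ β, v = emb β
    · obtain ⟨β, rfl⟩ := h2
      simp only [lift_emb, hB]
    · have h3 : ∀ α, v ≠ emb α := fun α e => h2 ⟨α, e⟩
      simp [lift_out _ v h3]
  · have h3 : ∀ α, u ≠ emb α := fun α e => h1 ⟨α, e⟩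
    simp [lift_out _ u h3]

end Pool.Agent.H9.UC
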