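import Mathlib

set_option autoImplicit false

namespace Pool.Agent.H9.Visib

open Set

abbrev E := EuclideanSpace ℝ (Fin 2)

def X : Fin 6 → ℤ := ![0, 8, 0, 1, 5, 1]
def Y : Fin 6 → ℤ := ![0, 0, 8, 1, 2, 5]

noncomputable def p (i : Fin 6) : E := !₂[(X i : ℝ), (Y i : ℝ)]
noncomputable def x0 : E := !₂[2, 3]

def facets : List (Finset (Fin 6)) :=
  [{3, 4, 5}, {0, 3, 4}, {0, 1, 4}, {1, 4, 5}, {1, 2, 5}, {2, 3, 5}, {0, 2, 3}]

def Δ : Finset (Finset (Fin 6)) := Finset.univ.filter fun S => ∃ F ∈ facets, S ⊆ F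

def ev (h : ℤ × ℤ × ℤ) (i : Fin 6) : ℤ := h.1 * X i + h.2.1 * Y i + h.2.2
def evx (h : ℤ × ℤ × ℤ) : ℤ := h.1 * 2 + h.2.1 * 3 + h.2.2

noncomputable def H (h : ℤ × ℤ × ℤ) (z : E) : ℝ := h.1 * z 0 + h.2.1 * z 1 + h.2.2

lemma H_p (h : ℤ × ℤ × ℤ) (i : Fin 6) : H h (p i) = (ev h i : ℝ) := by
  simp [H, p, ev]

lemma H_x (h : ℤ × ℤ × ℤ) : H h x0 = (evx h : ℝ) := by
  simp [H, x0, evx]

lemma H_comb (h : ℤ × ℤ × ℤ) (y z : E) (a b : ℝ) (hab : a + b = 1) :
    H h (a • y + b • z) = a * H h y + b * H h z := by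
  simp only [H, PiLp.add_apply, PiLp.smul_apply, smul_eq_mul]
  linear_combination (h.2.2 : ℝ) * hab.symm

def L : List (ℤ × ℤ × ℤ) := [(0, 0, 0), (-5, -7, 40), (-2, 5, 0), (7, 1, -8), (-1, 0, 1),
  (5, 7, -39), (1, -2, 1), (-4, -1, 9), (-1, -1, 8), (0, 1, 0), (1, -4, 3), (1, 0, 0), (3, 1, -8),
  (-1, 1, 0), (-2, -3, 16), (3, 4, -23), (-3, -1, 8), (1, -1, 0), (2, 3, -16), (-7, -1, 8),
  (2, -5, 0), (5, 7, -40), (-3, -4, 23), (-1, 4, -3), (1, 0, -1), (0, 0, 1)]

lemma sep_check : ∀ S ∈ Δ, ∀ T ∈ Δ, ∃ h ∈ L,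
    (∀ i ∈ S, 0 ≤ ev h i ∧ (i ∉ T → 0 < ev h i)) ∧ ∀ j ∈ T, ev h j ≤ 0 := by
  decide +kernel

lemma ind_check : ∀ S ∈ Δ, ∀ i ∈ S, ∃ h ∈ L, ev h i ≠ 0 ∧ ∀ j ∈ S, j ≠ i → ev h j = 0 := by
  decide +kernel

lemma gen_check : ∀ S ∈ Δ, S.card + 1 = 3 → ∃ h ∈ L, evx h ≠ 0 ∧ ∀ j ∈ S, ev h j = 0 := by
  decide +kernel

lemma hull_le (h : ℤ × ℤ × ℤ) (T : Finset (Fin 6)) (hT : ∀ j ∈ T, ev h j ≤ 0) :
    ∀ y ∈ convexHull ℝ (p '' (T : Set (Fin 6))), H h y ≤ 0 := by
  refine convexHull_min (t := {y | H h y ≤ 0}) ?_ ?_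
  · rintro _ ⟨j, hj, rfl⟩
    show H h (p j) ≤ 0
    rw [H_p]; exact_mod_cast hT j hj
  · intro y hy z hz a b ha hb hab
    show H h (a • y + b • z) ≤ 0
    rw [H_comb h y z a b hab]
    have h1 : H h y ≤ 0 := hy
    have h2 : H h z ≤ 0 := hz
    nlinarith [mul_nonneg ha (neg_nonneg.2 h1), mul_nonneg hb (neg_nonneg.2 h2)]

lemma inter (S : Finset (Fin 6)) (hS : S ∈ Δ) (T : Finset (Fin 6)) (hT : T ∈ Δ) :
    convexHull ℝ (p '' (S : Set (Fin 6))) ∩ convexHull ℝ (p '' (T : Set (Fin 6))) =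
      convexHull ℝ (p '' ((S ∩ T : Finset (Fin 6)) : Set (Fin 6))) := by
  obtain ⟨h, -, h1, h2⟩ := sep_check S hS T hT
  apply Subset.antisymm
  · rintro y ⟨hyS, hyT⟩
    have hle := hull_le h T h2 y hyT
    have hge : ∀ z ∈ convexHull ℝ (p '' ((S ∩ T : Finset (Fin 6)) : Set (Fin 6))), 0 ≤ H h z := by
      intro z hz
      have := hull_le (-h.1, -h.2.1, -h.2.2) (S ∩ T) (fun j hj => by
        have := (h1 j (Finset.mem_inter.1 hj).1).1
        simp only [ev] at this ⊢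
        linarith) z hz
      simp only [H] at this ⊢
      push_cast at this
      linarith
    have hK : convexHull ℝ (p '' (S : Set (Fin 6))) ⊆ {z | 0 < H h z} ∪
        convexHull ℝ (p '' ((S ∩ T : Finset (Fin 6)) : Set (Fin 6))) := by
      refine convexHull_min ?_ ?_
      · rintro _ ⟨j, hj, rfl⟩
        by_cases hjT : j ∈ T
        · right
          exact subset_convexHull ℝ _ ⟨j, by simpa using ⟨hj, hjT⟩, rfl⟩
        · left
          show 0 < H h (p j)
          rw [H_p]; exact_mod_cast (h1 j hj).2 hjT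
      · intro y hy z hz a b ha hb hab
        have hy0 : 0 ≤ H h y := hy.elim (fun t => le_of_lt t) (hge y)
        have hz0 : 0 ≤ H h z := hz.elim (fun t => le_of_lt t) (hge z)
        rcases ha.eq_or_lt with rfl | ha'
        · rw [zero_add] at hab; subst hab; simpa using hz
        rcases hb.eq_or_lt with rfl | hb'
        · rw [add_zero] at hab; subst hab; simpa using hy
        rcases hy with hy | hy
        · left
          show 0 < H h (a • y + b • z)
          rw [H_comb h y z a b hab]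
          have : 0 < H h y := hy
          positivity
        rcases hz with hz | hz
        · left
          show 0 < H h (a • y + b • z)
          rw [H_comb h y z a b hab]
          have : 0 < H h z := hz
          positivity
        · right
          exact convex_convexHull ℝ _ hy hz ha hb hab
    rcases hK hyS with h3 | h3
    · exact absurd hle (not_le.2 h3)
    · exact h3
  · refine subset_inter (convexHull_mono (image_mono ?_)) (convexHull_mono (image_mono ?_))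
    · simp
    · simp

lemma span_zero (h : ℤ × ℤ × ℤ) (T : Finset (Fin 6)) (hT : ∀ j ∈ T, ev h j = 0) :
    ∀ y ∈ affineSpan ℝ (p '' (T : Set (Fin 6))), H h y = 0 := by
  intro y hy
  refine affineSpan_induction hy ?_ ?_
  · rintro _ ⟨j, hj, rfl⟩
    rw [H_p]; exact_mod_cast hT j hj
  · intro c u v w hu hv hw
    simp only [H, vsub_eq_sub, vadd_eq_add, PiLp.add_apply, PiLp.smul_apply, PiLp.sub_apply,
      smul_eq_mul] at hu hv hw ⊢
    linear_combination c * hu - c * hv + hw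

lemma indep (S : Finset (Fin 6)) (hS : S ∈ Δ) :
    AffineIndependent ℝ (fun i : (S : Set (Fin 6)) => p i) := by
  rw [affineIndependent_iff]
  intro s w hw hs e he
  obtain ⟨h, -, h1, h2⟩ := ind_check S hS e e.2
  have a0 : ∑ i ∈ s, w i * (X i : ℝ) = 0 := by
    have := congrArg (fun z : E => z 0) hs
    simpa [p] using this
  have a1 : ∑ i ∈ s, w i * (Y i : ℝ) = 0 := by
    have := congrArg (fun z : E => z 1) hs
    simpa [p] using this
  have a2 : ∑ i ∈ s, w i * (ev h i : ℝ) = 0 := by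
    have : ∑ i ∈ s, w i * (ev h i : ℝ) = h.1 * ∑ i ∈ s, w i * (X i : ℝ)
        + h.2.1 * ∑ i ∈ s, w i * (Y i : ℝ) + h.2.2 * ∑ i ∈ s, w i := by
      simp only [Finset.mul_sum, ← Finset.sum_add_distrib]
      refine Finset.sum_congr rfl fun i _ => ?_
      simp only [ev]; push_cast; ring
    rw [this, a0, a1, hw]; simp
  rw [Finset.sum_eq_single e] at a2
  · have : (ev h e : ℝ) ≠ 0 := by exact_mod_cast h1
    exact (mul_eq_zero.1 a2).resolve_right this
  · intro b _ hb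
    rw [h2 b b.2 (fun t => hb (Subtype.ext t))]; simp
  · intro t; exact absurd he t

lemma generic (S : Finset (Fin 6)) (hS : S ∈ Δ) (hc : S.card + 1 = 3) :
    x0 ∉ affineSpan ℝ (p '' (S : Set (Fin 6))) := by
  obtain ⟨h, -, h1, h2⟩ := gen_check S hS hc
  intro hx
  have := span_zero h S h2 x0 hx
  rw [H_x] at this
  exact h1 (by exact_mod_cast this)

lemma tri (z : E) (i j l : Fin 6) (a b c : ℝ) (ha : 0 ≤ a) (hb : 0 ≤ b) (hc : 0 ≤ c)
    (hs : a + b + c = 1) (h0 : a * X i + b * X j + c * X l = z 0)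
    (h1 : a * Y i + b * Y j + c * Y l = z 1) :
    z ∈ convexHull ℝ (p '' (({i, j, l} : Finset (Fin 6)) : Set (Fin 6))) := by
  have hz : z = ∑ t : Fin 3, ![a, b, c] t • ![p i, p j, p l] t := by
    ext t
    fin_cases t
    · simp [Fin.sum_univ_three, p, ← h0]
    · simp [Fin.sum_univ_three, p, ← h1]
  rw [hz]
  refine (convex_convexHull ℝ _).sum_mem ?_ ?_ ?_
  · intro t _; fin_cases t <;> simpa
  · simpa [Fin.sum_univ_three] using hs
  · intro t _
    apply subset_convexHull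
    fin_cases t
    · exact ⟨i, by simp, rfl⟩
    · exact ⟨j, by simp, rfl⟩
    · exact ⟨l, by simp, rfl⟩

lemma cover (z : E) (h0 : 0 ≤ z 0) (h1 : 0 ≤ z 1) (h2 : z 0 + z 1 ≤ 8) :
    ∃ S ∈ Δ, z ∈ convexHull ℝ (p '' (S : Set (Fin 6))) := by
  obtain ⟨x, hx⟩ : ∃ x, x = z 0 := ⟨_, rfl⟩
  obtain ⟨y, hy⟩ : ∃ y, y = z 1 := ⟨_, rfl⟩
  rw [← hx] at h0 h2
  rw [← hy] at h1 h2
  rcases le_total 0 (-2 * x + 5 * y + 0) with g1 | g1
  · skip
    rcases le_total 0 (7 * x + 1 * y + -8) with g2 | g2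
    · skip
      rcases le_total 0 (-1 * x + 0 * y + 1) with g3 | g3
      · skip
        rcases le_total 0 (3 * x + 1 * y + -8) with g4 | g4
        · skip
          exact ⟨{1, 2, 5}, by decide, tri z 1 2 5 ((3 * x + 1 * y + -8) / 16) ((5 * x + 7 * y + -40) / 16) ((-1 * x + -1 * y + 8) / 2)
            (by linarith) (by linarith) (by linarith) (by ring) (by simp [X, ← hx] <;> ring) (by simp [Y, ← hy] <;> ring)⟩
        · skip
          exact ⟨{2, 3, 5}, by decide, tri z 2 3 5 ((-1 * x + 0 * y + 1) / 1) ((-3 * x + -1 * y + 8) / 4) ((7 * x + 1 * y + -8) / 4)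
            (by linarith) (by linarith) (by linarith) (by ring) (by simp [X, ← hx] <;> ring) (by simp [Y, ← hy] <;> ring)⟩
      · skip
        rcases le_total 0 (-3 * x + -4 * y + 23) with g5 | g5
        · skip
          rcases le_total 0 (-1 * x + 4 * y + -3) with g6 | g6
          · skip
            exact ⟨{3, 4, 5}, by decide, tri z 3 4 5 ((-3 * x + -4 * y + 23) / 16) ((1 * x + 0 * y + -1) / 4) ((-1 * x + 4 * y + -3) / 16)
              (by linarith) (by linarith) (by linarith) (by ring) (by simp [X, ← hx] <;> ring) (by simp [Y, ← hy] <;> ring)⟩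
          · skip
            exact ⟨{0, 3, 4}, by decide, tri z 0 3 4 ((1 * x + -4 * y + 3) / 3) ((-2 * x + 5 * y + 0) / 3) ((1 * x + -1 * y + 0) / 3)
              (by linarith) (by linarith) (by linarith) (by ring) (by simp [X, ← hx] <;> ring) (by simp [Y, ← hy] <;> ring)⟩
        · skip
          rcases le_total 0 (-5 * x + -7 * y + 40) with g7 | g7
          · skip
            exact ⟨{1, 4, 5}, by decide, tri z 1 4 5 ((3 * x + 4 * y + -23) / 1) ((-5 * x + -7 * y + 40) / 1) ((2 * x + 3 * y + -16) / 1)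
              (by linarith) (by linarith) (by linarith) (by ring) (by simp [X, ← hx] <;> ring) (by simp [Y, ← hy] <;> ring)⟩
          · skip
            exact ⟨{1, 2, 5}, by decide, tri z 1 2 5 ((3 * x + 1 * y + -8) / 16) ((5 * x + 7 * y + -40) / 16) ((-1 * x + -1 * y + 8) / 2)
              (by linarith) (by linarith) (by linarith) (by ring) (by simp [X, ← hx] <;> ring) (by simp [Y, ← hy] <;> ring)⟩
    · skip
      rcases le_total 0 (-1 * x + 1 * y + 0) with g8 | g8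
      · skip
        exact ⟨{0, 2, 3}, by decide, tri z 0 2 3 ((-7 * x + -1 * y + 8) / 8) ((-1 * x + 1 * y + 0) / 8) ((1 * x + 0 * y + 0) / 1)
          (by linarith) (by linarith) (by linarith) (by ring) (by simp [X, ← hx] <;> ring) (by simp [Y, ← hy] <;> ring)⟩
      · skip
        exact ⟨{0, 3, 4}, by decide, tri z 0 3 4 ((1 * x + -4 * y + 3) / 3) ((-2 * x + 5 * y + 0) / 3) ((1 * x + -1 * y + 0) / 3)
          (by linarith) (by linarith) (by linarith) (by ring) (by simp [X, ← hx] <;> ring) (by simp [Y, ← hy] <;> ring)⟩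
  · skip
    rcases le_total 0 (-2 * x + -3 * y + 16) with g9 | g9
    · skip
      exact ⟨{0, 1, 4}, by decide, tri z 0 1 4 ((-2 * x + -3 * y + 16) / 16) ((2 * x + -5 * y + 0) / 16) ((0 * x + 1 * y + 0) / 2)
        (by linarith) (by linarith) (by linarith) (by ring) (by simp [X, ← hx] <;> ring) (by simp [Y, ← hy] <;> ring)⟩
    · skip
      rcases le_total 0 (-5 * x + -7 * y + 40) with g10 | g10
      · skip
        exact ⟨{1, 4, 5}, by decide, tri z 1 4 5 ((3 * x + 4 * y + -23) / 1) ((-5 * x + -7 * y + 40) / 1) ((2 * x + 3 * y + -16) / 1)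
          (by linarith) (by linarith) (by linarith) (by ring) (by simp [X, ← hx] <;> ring) (by simp [Y, ← hy] <;> ring)⟩
      · skip
        exact ⟨{1, 2, 5}, by decide, tri z 1 2 5 ((3 * x + 1 * y + -8) / 16) ((5 * x + 7 * y + -40) / 16) ((-1 * x + -1 * y + 8) / 2)
          (by linarith) (by linarith) (by linarith) (by ring) (by simp [X, ← hx] <;> ring) (by simp [Y, ← hy] <;> ring)⟩

lemma union_eq : (⋃ S ∈ Δ, convexHull ℝ (p '' (S : Set (Fin 6)))) =
    {z : E | 0 ≤ z 0 ∧ 0 ≤ z 1 ∧ z 0 + z 1 ≤ 8} := by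
  ext z
  simp only [mem_iUnion, mem_ofPred_eq, exists_prop]
  constructor
  · rintro ⟨S, -, hz⟩
    have a1 := hull_le (-1, 0, 0) S (fun j hj => by clear hj; revert j; decide) z hz
    have a2 := hull_le (0, -1, 0) S (fun j hj => by clear hj; revert j; decide) z hz
    have a3 := hull_le (1, 1, -8) S (fun j hj => by clear hj; revert j; decide) z hz
    simp only [H] at a1 a2 a3
    push_cast at a1 a2 a3
    exact ⟨by linarith, by linarith, by linarith⟩
  · rintro ⟨h0, h1, h2⟩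
    exact cover z h0 h1 h2

lemma union_convex : Convex ℝ (⋃ S ∈ Δ, convexHull ℝ (p '' (S : Set (Fin 6)))) := by
  rw [union_eq]
  rintro y ⟨y0, y1, y2⟩ z ⟨z0, z1, z2⟩ a b ha hb hab
  simp only [mem_ofPred_eq, PiLp.add_apply, PiLp.smul_apply, smul_eq_mul]
  refine ⟨by positivity, by positivity, ?_⟩
  nlinarith [mul_le_mul_of_nonneg_left y2 ha, mul_le_mul_of_nonneg_left z2 hb]

lemma x_mem : x0 ∈ (⋃ S ∈ Δ, convexHull ℝ (p '' (S : Set (Fin 6)))) := by
  rw [union_eq]
  simp [x0]; norm_num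

lemma not_opp (S : Finset (Fin 6)) (v : Fin 6) (h : ℤ × ℤ × ℤ) (hS : ∀ i ∈ S, ev h i = 0)
    (hx : 0 < evx h) (hv : 0 < ev h v) :
    ¬ (affineSpan ℝ (p '' (S : Set (Fin 6)))).SOppSide x0 (p v) := by
  intro hh
  obtain ⟨q, hq, t, ⟨t0, t1⟩, rfl⟩ := AffineSubspace.wOppSide_iff_exists_wbtw.1 hh.wOppSide
  have := span_zero h S hS _ hq
  rw [AffineMap.lineMap_apply_module, H_comb h _ _ _ _ (by ring), H_x, H_p] at this
  have h1 : (0 : ℝ) < evx h := by exact_mod_cast hx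
  have h2 : (0 : ℝ) < ev h v := by exact_mod_cast hv
  rcases t0.eq_or_lt with rfl | t0'
  · simp at this; omega
  · have : 0 ≤ (1 - t) * (evx h : ℝ) := mul_nonneg (by linarith) h1.le
    have : 0 < t * (ev h v : ℝ) := mul_pos t0' h2
    linarith

lemma opp (S : Finset (Fin 6)) (v i j : Fin 6) (hi : i ∈ S) (hj : j ∈ S) (h : ℤ × ℤ × ℤ)
    (hS : ∀ i ∈ S, ev h i = 0) (hx : evx h ≠ 0) (hv : ev h v ≠ 0) (t r : ℝ) (t0 : 0 ≤ t)
    (t1 : t ≤ 1) (e0 : (1 - t) * 2 + t * X v = (1 - r) * X i + r * X j)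
    (e1 : (1 - t) * 3 + t * Y v = (1 - r) * Y i + r * Y j) :
    (affineSpan ℝ (p '' (S : Set (Fin 6)))).SOppSide x0 (p v) := by
  refine ⟨AffineSubspace.wOppSide_iff_exists_wbtw.2 ⟨AffineMap.lineMap (p i) (p j) r, ?_,
    t, ⟨t0, t1⟩, ?_⟩, ?_, ?_⟩
  · exact AffineMap.lineMap_mem r (subset_affineSpan ℝ _ ⟨i, hi, rfl⟩)
      (subset_affineSpan ℝ _ ⟨j, hj, rfl⟩)
  · rw [AffineMap.lineMap_apply_module, AffineMap.lineMap_apply_module]
    ext k
    fin_cases k
    · simpa [p, x0] using e0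
    · simpa [p, x0] using e1
  · intro hh
    have := span_zero h S hS _ hh
    rw [H_x] at this
    exact hx (by exact_mod_cast this)
  · intro hh
    have := span_zero h S hS _ hh
    rw [H_p] at this
    exact hv (by exact_mod_cast this)

end Pool.Agent.H9.Visib
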