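import Mathlib

namespace Pool.Agent.H9.WS1

open Finset

def loop (f : ℕ → ℕ) (n : ℕ) : ℕ := Nat.rec 0 (fun i acc => f i + acc) n

def allB (f : ℕ → Bool) (n : ℕ) : Bool := Nat.rec true (fun i acc => f i && acc) n

lemma loop_eq (f : ℕ → ℕ) (n : ℕ) : loop f n = ∑ i ∈ range n, f i := by
  induction n with
  | zero => rfl
  | succ n ih => rw [sum_range_succ, ← ih, add_comm (loop f n)]; rfl

lemma allB_spec {f : ℕ → Bool} {n : ℕ} (h : allB f n = true) : ∀ i < n, f i = true := by
  induction n with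
  | zero => simp
  | succ n ih =>
    have h : (f n && allB f n) = true := h
    rw [Bool.and_eq_true] at h
    intro i hi
    rcases Nat.lt_succ_iff_lt_or_eq.1 hi with h' | rfl
    · exact ih h.2 i h'
    · exact h.1

def cnt (d X Y D : ℕ) : ℕ := loop (fun p => loop (fun q =>
  cond (Nat.beq (X * (q + 1) + Y * (p + 1)) (D * ((p + 1) * (q + 1)))) 1 0) (d - 1)) d

lemma cnt_spec (d X Y D : ℕ) : cnt d X Y D = ((range d ×ˢ range (d - 1)).filter fun s =>
    X * (s.2 + 1) + Y * (s.1 + 1) = D * ((s.1 + 1) * (s.2 + 1))).card := by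
  rw [card_filter, sum_product, cnt]
  simp only [loop_eq]
  refine sum_congr rfl fun p _ => sum_congr rfl fun q _ => ?_
  split_ifs with h
  · rw [h, Nat.beq_refl]; rfl
  · rw [Bool.cond_eq_ite, if_neg (by simpa using h)]

def ok3 (d X Y D : ℕ) : Bool := Nat.ble (d * D) (X + Y) ||
  Nat.ble (cnt d X Y D + cnt d Y (d * D - (X + Y)) D + cnt d (d * D - (X + Y)) X D) (d + 1)

def ok (d p q p' q' : ℕ) : Bool := ok3 d (p * p' * (q - q')) (q * q' * (p' - p)) (q * p' - q' * p)

def chk (d : ℕ) : Bool := allB (fun p' => allB (fun p => allB (fun q => allB (fun q' =>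
  ok d (p + 1) (q + 1) (p' + 1) (q' + 1)) q) (d - 1)) p') d

lemma c7 : allB chk 8 = true := by decide +kernel
lemma c8 : chk 8 = true := by decide +kernel
lemma c9 : chk 9 = true := by decide +kernel
lemma c10 : chk 10 = true := by decide +kernel

lemma chk_all (d : ℕ) (hd : d < 11) : ∀ p' < d, ∀ p < p', ∀ q < d - 1, ∀ q' < q,
    ok d (p + 1) (q + 1) (p' + 1) (q' + 1) = true := by
  have : chk d = true := by
    by_cases h : d < 8
    · exact allB_spec c7 d h
    · obtain rfl | rfl | rfl : d = 8 ∨ d = 9 ∨ d = 10 := by omega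
      exacts [c8, c9, c10]
  exact fun p' a p b q c q' e => allB_spec (allB_spec (allB_spec (allB_spec this p' a) p b) q c) q' e

end Pool.Agent.H9.WS1
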