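import Mathlib

/-! A four-tap orthogonal scaling function that is cardinal at offset `2/3`. -/

namespace Pool.Agent.H9.Wave

open Set MeasureTheory

lemma exists_par : ∃ a b : ℝ, a * (1 - a) + (1 - b) * b = 0 ∧ a * b + (1 - a) ^ 2 = 0 ∧
    0.64 < a ∧ a < 0.65 ∧ -0.2 < b ∧ b < -0.18 := by
  have hc : ContinuousOn (fun c : ℝ => 2 * c ^ 3 - 2 * c ^ 2 + 2 * c - 1) (Icc 0.645 0.65) := by
    fun_prop
  obtain ⟨c, ⟨h1, h2⟩, h3⟩ := intermediate_value_Ioo (by norm_num) hc
    (show (0 : ℝ) ∈ Ioo _ _ by constructor <;> norm_num)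
  have h3' : 2 * c ^ 3 - 2 * c ^ 2 + 2 * c - 1 = 0 := h3
  have hc0 : 0 < c := by linarith
  refine ⟨c, -(1 - c) ^ 2 / c, ?_, ?_, by linarith, h2, ?_, ?_⟩
  · field_simp
    linear_combination (1 - c) * h3'
  · field_simp; ring
  · rw [lt_div_iff₀ hc0]; nlinarith
  · rw [div_lt_iff₀ hc0]; nlinarith

def T (a b : ℝ) (f : ℝ → ℝ) (x : ℝ) : ℝ :=
  a * f (2 * x) + (1 - b) * f (2 * x - 1) + (1 - a) * f (2 * x - 2) + b * f (2 * x - 3)

structure Good (s : ℝ) (f : ℝ → ℝ) : Prop where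
  cont : Continuous f
  left : ∀ x, x ≤ 0 → f x = 0
  right : ∀ x, 3 ≤ x → f x = 0
  part : ∀ t, 0 ≤ t → t ≤ 1 → f t + f (t + 1) + f (t + 2) = s

variable {a b s : ℝ} {f : ℝ → ℝ}

lemma Good.lo (h : Good s f) (a b u : ℝ) (h0 : 0 ≤ u) (h1 : u ≤ 1) :
    T a b f (u / 2) = a * f u ∧
    T a b f (u / 2 + 1) = a * f (u + 2) + (1 - b) * f (u + 1) + (1 - a) * f u ∧
    T a b f (u / 2 + 2) = (1 - a) * f (u + 2) + b * f (u + 1) := by
  unfold T
  refine ⟨?_, ?_, ?_⟩
  · rw [h.left (2 * (u / 2) - 1) (by linarith), h.left (2 * (u / 2) - 2) (by linarith),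
      h.left (2 * (u / 2) - 3) (by linarith), show 2 * (u / 2) = u by ring]
    ring
  · rw [h.left (2 * (u / 2 + 1) - 3) (by linarith), show 2 * (u / 2 + 1) - 1 = u + 1 by ring,
      show 2 * (u / 2 + 1) - 2 = u by ring, show 2 * (u / 2 + 1) = u + 2 by ring]
    ring
  · rw [h.right (2 * (u / 2 + 2)) (by linarith), h.right (2 * (u / 2 + 2) - 1) (by linarith),
      show 2 * (u / 2 + 2) - 2 = u + 2 by ring, show 2 * (u / 2 + 2) - 3 = u + 1 by ring]
    ring

lemma Good.hi (h : Good s f) (a b u : ℝ) (h0 : 0 ≤ u) (h1 : u ≤ 1) :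
    T a b f ((u + 1) / 2) = a * f (u + 1) + (1 - b) * f u ∧
    T a b f ((u + 1) / 2 + 1) = (1 - b) * f (u + 2) + (1 - a) * f (u + 1) + b * f u ∧
    T a b f ((u + 1) / 2 + 2) = b * f (u + 2) := by
  unfold T
  refine ⟨?_, ?_, ?_⟩
  · rw [h.left (2 * ((u + 1) / 2) - 2) (by linarith), h.left (2 * ((u + 1) / 2) - 3) (by linarith),
      show 2 * ((u + 1) / 2) - 1 = u by ring, show 2 * ((u + 1) / 2) = u + 1 by ring]
    ring
  · rw [h.right (2 * ((u + 1) / 2 + 1)) (by linarith),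
      show 2 * ((u + 1) / 2 + 1) - 1 = u + 2 by ring,
      show 2 * ((u + 1) / 2 + 1) - 2 = u + 1 by ring, show 2 * ((u + 1) / 2 + 1) - 3 = u by ring]
    ring
  · rw [h.right (2 * ((u + 1) / 2 + 2)) (by linarith),
      h.right (2 * ((u + 1) / 2 + 2) - 1) (by linarith),
      h.right (2 * ((u + 1) / 2 + 2) - 2) (by linarith),
      show 2 * ((u + 1) / 2 + 2) - 3 = u + 2 by ring]
    ring

lemma halves (t : ℝ) (h0 : 0 ≤ t) (h1 : t ≤ 1) :
    ∃ u, 0 ≤ u ∧ u ≤ 1 ∧ (t = u / 2 ∨ t = (u + 1) / 2) := by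
  rcases le_total t (1 / 2) with h | h
  · exact ⟨2 * t, by linarith, by linarith, Or.inl (by ring)⟩
  · exact ⟨2 * t - 1, by linarith, by linarith, Or.inr (by ring)⟩

lemma Good.T (h : Good s f) (a b : ℝ) : Good s (T a b f) := by
  refine ⟨?_, fun x hx => ?_, fun x hx => ?_, fun t h0 h1 => ?_⟩
  · have := h.cont
    unfold Wave.T
    fun_prop
  · unfold Wave.T
    rw [h.left _ (by linarith), h.left _ (by linarith), h.left _ (by linarith),
      h.left _ (by linarith)]
    ring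
  · unfold Wave.T
    rw [h.right _ (by linarith), h.right _ (by linarith), h.right _ (by linarith),
      h.right _ (by linarith)]
    ring
  · obtain ⟨u, u0, u1, rfl | rfl⟩ := halves t h0 h1
    · obtain ⟨e1, e2, e3⟩ := h.lo a b u u0 u1
      rw [e1, e2, e3, ← h.part u u0 u1]; ring
    · obtain ⟨e1, e2, e3⟩ := h.hi a b u u0 u1
      rw [e1, e2, e3, ← h.part u u0 u1]; ring

def Bd (f : ℝ → ℝ) (M : ℝ) : Prop := ∀ t, 0 ≤ t → t ≤ 1 → |f t| ≤ M ∧ 2 * |f (t + 2)| ≤ M

lemma lin_bd (p q x z M : ℝ) (hx : |x| ≤ M) (hz : 2 * |z| ≤ M) :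
    |p * x + q * z| ≤ (|p| + |q| / 2) * M := by
  have h1 := abs_add_le (p * x) (q * z)
  rw [abs_mul, abs_mul] at h1
  have h2 := mul_le_mul_of_nonneg_left hx (abs_nonneg p)
  have h3 := mul_le_mul_of_nonneg_left hz (abs_nonneg q)
  nlinarith

lemma Bd.T (h : Good 0 f) {M : ℝ} (hb : Bd f M) (a1 : 0.64 < a) (a2 : a < 0.65) (b1 : -0.2 < b)
    (b2 : b < -0.18) : Bd (T a b f) (0.97 * M) := by
  intro t h0 h1
  obtain ⟨u, u0, u1, rfl | rfl⟩ := halves t h0 h1
  · obtain ⟨e1, -, e3⟩ := h.lo a b u u0 u1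
    obtain ⟨hx, hz⟩ := hb u u0 u1
    have hM : 0 ≤ M := (abs_nonneg _).trans hx
    have e : f (u + 1) = -f u - f (u + 2) := by linarith [h.part u u0 u1]
    have k1 := lin_bd a 0 _ _ M hx hz
    have k2 := lin_bd (-b) (1 - a - b) _ _ M hx hz
    rw [abs_of_pos (by linarith : 0 < a)] at k1
    rw [abs_of_pos (by linarith : 0 < -b), abs_of_pos (by linarith : 0 < 1 - a - b)] at k2
    rw [e1, e3, e, show (1 - a) * f (u + 2) + b * (-f u - f (u + 2)) =
      -b * f u + (1 - a - b) * f (u + 2) by ring]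
    simp only [zero_mul, add_zero, abs_zero, zero_div] at k1
    constructor <;> nlinarith
  · obtain ⟨e1, -, e3⟩ := h.hi a b u u0 u1
    obtain ⟨hx, hz⟩ := hb u u0 u1
    have hM : 0 ≤ M := (abs_nonneg _).trans hx
    have e : f (u + 1) = -f u - f (u + 2) := by linarith [h.part u u0 u1]
    have k1 := lin_bd (1 - a - b) (-a) _ _ M hx hz
    have k2 := lin_bd 0 b _ _ M hx hz
    rw [abs_of_pos (by linarith : 0 < 1 - a - b), abs_of_neg (by linarith : -a < 0)] at k1
    rw [abs_of_neg (by linarith : b < 0)] at k2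
    rw [e1, e3, e, show a * (-f u - f (u + 2)) + (1 - b) * f u =
      (1 - a - b) * f u + -a * f (u + 2) by ring]
    simp only [zero_mul, zero_add, abs_zero] at k2
    constructor <;> nlinarith

lemma Bd.all (h : Good 0 f) {M : ℝ} (hb : Bd f M) (x : ℝ) : |f x| ≤ 2 * M := by
  have hM : 0 ≤ M := (abs_nonneg _).trans (hb 0 le_rfl zero_le_one).1
  by_cases h0 : x ≤ 0
  · rw [h.left x h0]; simpa using hM
  by_cases h3 : 3 ≤ x
  · rw [h.right x h3]; simpa using hM
  by_cases h1 : x ≤ 1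
  · linarith [(hb x (by linarith) h1).1]
  by_cases h2 : x ≤ 2
  · obtain ⟨hx, hz⟩ := hb (x - 1) (by linarith) (by linarith)
    have := h.part (x - 1) (by linarith) (by linarith)
    rw [sub_add_cancel] at this
    have e : f x = -(f (x - 1) + f (x - 1 + 2)) := by linarith
    rw [e, abs_neg]
    linarith [abs_add_le (f (x - 1)) (f (x - 1 + 2))]
  · obtain ⟨hx, hz⟩ := hb (x - 2) (by linarith) (by linarith)
    rw [sub_add_cancel] at hz
    linarith

lemma Good.bdd (h : Good s f) : ∃ M, ∀ x, |f x| ≤ M := by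
  obtain ⟨M, hM⟩ := isCompact_Icc.exists_bound_of_continuousOn
    (h.cont.continuousOn (s := Icc 0 3))
  have h0 : 0 ≤ M := (norm_nonneg _).trans (hM 0 ⟨le_rfl, by norm_num⟩)
  refine ⟨M, fun x => ?_⟩
  by_cases h1 : x ≤ 0
  · rw [h.left x h1]; simpa using h0
  by_cases h3 : 3 ≤ x
  · rw [h.right x h3]; simpa using h0
  exact hM x ⟨by linarith, by linarith⟩

noncomputable def hat (x : ℝ) : ℝ := max 0 (1 - |x - 1|)

lemma hat_good : Good 1 hat := by
  refine ⟨by unfold hat; fun_prop, fun x hx => ?_, fun x hx => ?_, fun t h0 h1 => ?_⟩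
  · unfold hat; rw [abs_of_nonpos (by linarith)]; exact max_eq_left (by linarith)
  · unfold hat; rw [abs_of_nonneg (by linarith)]; exact max_eq_left (by linarith)
  · unfold hat
    rw [abs_of_nonpos (by linarith), abs_of_nonneg (by linarith), abs_of_nonneg (by linarith),
      max_eq_right (by linarith), max_eq_right (by linarith), max_eq_left (by linarith)]
    ring

lemma exists_fixed (a1 : 0.64 < a) (a2 : a < 0.65) (b1 : -0.2 < b) (b2 : b < -0.18) :
    ∃ φ, Good 1 φ ∧ ∀ x, T a b φ x = φ x := by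
  let g0 : ℝ → ℝ := fun x => T a b hat x - hat x
  have hT := hat_good.T a b
  have hg0 : Good 0 g0 := by
    refine ⟨hT.cont.sub hat_good.cont, fun x hx => ?_, fun x hx => ?_, fun t h0 h1 => ?_⟩
    · simp [g0, hT.left x hx, hat_good.left x hx]
    · simp [g0, hT.right x hx, hat_good.right x hx]
    · simp only [g0]; linarith [hT.part t h0 h1, hat_good.part t h0 h1]
  obtain ⟨M, hM⟩ := hg0.bdd
  let g : ℕ → ℝ → ℝ := fun n => (T a b)^[n] g0
  have gs : ∀ n, g (n + 1) = T a b (g n) := fun n => Function.iterate_succ_apply' _ _ _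
  have hg : ∀ n, Good 0 (g n) ∧ Bd (g n) (0.97 ^ n * (2 * M)) := by
    intro n
    induction n with
    | zero =>
      refine ⟨hg0, fun t _ _ => ⟨?_, ?_⟩⟩
      · have := hM t
        have h2 := (abs_nonneg _).trans this
        show |g0 t| ≤ _
        simp only [pow_zero, one_mul]; linarith
      · have := hM (t + 2)
        show 2 * |g0 (t + 2)| ≤ _
        simp only [pow_zero, one_mul]; linarith
    | succ n ih =>
      rw [gs, pow_succ', mul_assoc]
      exact ⟨ih.1.T a b, Bd.T ih.1 ih.2 a1 a2 b1 b2⟩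
  have hsum : Summable fun n : ℕ => 2 * ((0.97 : ℝ) ^ n * (2 * M)) :=
    ((summable_geometric_of_lt_one (by norm_num) (by norm_num)).mul_right _).mul_left _
  have hbd : ∀ n x, ‖g n x‖ ≤ 2 * ((0.97 : ℝ) ^ n * (2 * M)) := fun n x =>
    Bd.all (hg n).1 (hg n).2 x
  have hs : ∀ x, Summable fun n => g n x := fun x => Summable.of_norm_bounded hsum (hbd · x)
  refine ⟨fun x => hat x + ∑' n, g n x, ⟨?_, fun x hx => ?_, fun x hx => ?_, fun t h0 h1 => ?_⟩,
    fun x => ?_⟩
  · exact hat_good.cont.add (continuous_tsum (fun n => (hg n).1.cont) hsum hbd)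
  · simp [hat_good.left x hx, fun n => (hg n).1.left x hx]
  · simp [hat_good.right x hx, fun n => (hg n).1.right x hx]
  · have h2 := ((hs t).hasSum.add (hs (t + 1)).hasSum).add (hs (t + 2)).hasSum
    simp only [fun n => (hg n).1.part t h0 h1] at h2
    have h3 := h2.unique hasSum_zero
    linarith [hat_good.part t h0 h1]
  · have h2 := (((((hs (2 * x)).hasSum.mul_left a).add
      ((hs (2 * x - 1)).hasSum.mul_left (1 - b))).add
      ((hs (2 * x - 2)).hasSum.mul_left (1 - a))).add ((hs (2 * x - 3)).hasSum.mul_left b))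
    have h3 := h2.tsum_eq
    have h4 := (hs x).tsum_eq_zero_add
    simp only [gs, T] at h4
    rw [h3] at h4
    have h5 : g 0 x = T a b hat x - hat x := rfl
    show T a b (fun x => hat x + ∑' n, g n x) x = hat x + ∑' n, g n x
    rw [h4, h5]
    unfold T
    ring

lemma cardinal {φ : ℝ → ℝ} (h : Good 1 φ) (hf : ∀ x, T a b φ x = φ x)
    (e2 : a * b + (1 - a) ^ 2 = 0) (a1 : 0.64 < a) (a2 : a < 0.65) (b1 : -0.2 < b)
    (b2 : b < -0.18) : φ (2 / 3) = 1 ∧ φ (2 / 3 + 1) = 0 ∧ φ (2 / 3 + 2) = 0 := by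
  obtain ⟨p1, p2, p3⟩ := h.lo a b (2 / 3) (by norm_num) (by norm_num)
  obtain ⟨q1, q2, q3⟩ := h.hi a b (1 / 3) (by norm_num) (by norm_num)
  have r := h.part (2 / 3) (by norm_num) (by norm_num)
  rw [hf] at p1 p2 p3 q1 q2 q3
  rw [show (2 / 3 / 2 : ℝ) = 1 / 3 by norm_num] at p1 p2 p3
  rw [show ((1 / 3 + 1) / 2 : ℝ) = 2 / 3 by norm_num] at q1 q2 q3
  rw [p1, p2, p3] at q2
  rw [p3] at q3
  generalize φ (2 / 3) = x at *
  generalize φ (2 / 3 + 1) = y at *
  generalize φ (2 / 3 + 2) = z at *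
  have k1 : y * (1 - (1 - b) * b - (1 - a) * (1 - b)) = z * ((1 - b) * (1 - a) + (1 - a) * a) := by
    linear_combination q2 + x * e2
  have k2 : z * (1 - b * (1 - a)) = b * b * y := by linear_combination q3
  have k3 : y * ((1 - (1 - b) * b - (1 - a) * (1 - b)) * (1 - b * (1 - a)) -
      b * b * ((1 - b) * (1 - a) + (1 - a) * a)) = 0 := by
    linear_combination (1 - b * (1 - a)) * k1 + ((1 - b) * (1 - a) + (1 - a) * a) * k2
  have n1 : 0.5 < 1 - (1 - b) * b - (1 - a) * (1 - b) := by nlinarith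
  have n2 : 1 < 1 - b * (1 - a) := by nlinarith
  have n3 : b * b < 0.04 := by nlinarith
  have n4 : (1 - b) * (1 - a) + (1 - a) * a < 1 := by nlinarith
  have n5 : 0 < (1 - b) * (1 - a) + (1 - a) * a := by nlinarith
  have hy : y = 0 := by
    rcases mul_eq_zero.1 k3 with h | h
    · exact h
    · nlinarith [mul_self_nonneg b]
  have hz : z = 0 := by
    rw [hy, mul_zero] at k2
    rcases mul_eq_zero.1 k2 with h | h
    · exact h
    · linarith
  exact ⟨by linarith, hy, hz⟩

lemma Good.compact (h : Good s f) : HasCompactSupport f := by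
  apply HasCompactSupport.intro (isCompact_Icc (a := (0 : ℝ)) (b := 3))
  intro x hx
  rw [mem_Icc, not_and_or] at hx
  rcases hx with hx | hx
  · exact h.left x (by linarith)
  · exact h.right x (by linarith)

noncomputable def ac (φ : ℝ → ℝ) (r : ℝ) : ℝ := ∫ x, φ x * φ (x - r)

lemma Good.int_shift (h : Good s f) (i j : ℝ) : Integrable fun x => f (x - i) * f (x - j) := by
  have hc := h.cont
  apply Continuous.integrable_of_hasCompactSupport (by fun_prop)
  apply HasCompactSupport.mul_right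
  exact h.compact.comp_homeomorph (Homeomorph.subRight i)

lemma ac_shift (φ : ℝ → ℝ) (i j : ℝ) : ∫ x, φ (x - i) * φ (x - j) = ac φ (j - i) := by
  have := integral_sub_right_eq_self (μ := volume) (fun x => φ x * φ (x - (j - i))) i
  rw [ac, ← this]
  congr 1
  funext x
  congr 2
  ring

lemma ac_neg (φ : ℝ → ℝ) (r : ℝ) : ac φ (-r) = ac φ r := by
  have := ac_shift φ r 0
  rw [zero_sub] at this
  rw [← this, ac]
  congr 1
  funext x
  rw [sub_zero, mul_comm]

lemma Good.ac_far (h : Good s f) (r : ℝ) (hr : 3 ≤ r) : ac f r = 0 := by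
  have : (fun x => f x * f (x - r)) = fun _ => 0 := by
    funext x
    rcases le_total x 3 with hx | hx
    · rw [h.left (x - r) (by linarith), mul_zero]
    · rw [h.right x hx, zero_mul]
  rw [ac, this, integral_zero]

lemma ac_rec {φ : ℝ → ℝ} (h : Good 1 φ) (hf : ∀ x, T a b φ x = φ x) (r : ℝ) :
    2 * ac φ r = ∑ i : Fin 4, ∑ j : Fin 4, (![a, 1 - b, 1 - a, b] i * ![a, 1 - b, 1 - a, b] j) *
      ac φ (2 * r + ((j : ℕ) : ℝ) - ((i : ℕ) : ℝ)) := by
  have e : ∀ x, φ x * φ (x - r) = (fun y => ∑ i : Fin 4, ∑ j : Fin 4,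
      (![a, 1 - b, 1 - a, b] i * ![a, 1 - b, 1 - a, b] j) *
        (φ (y - ((i : ℕ) : ℝ)) * φ (y - (2 * r + ((j : ℕ) : ℝ))))) (2 * x) := by
    intro x
    rw [← hf x, ← hf (x - r)]
    simp only [Fin.sum_univ_four, T, Matrix.cons_val_zero, Matrix.cons_val_one, Matrix.cons_val,
      Fin.val_zero, Fin.val_one, Fin.val_two, show ((3 : Fin 4) : ℕ) = 3 from rfl, Nat.cast_zero,
      Nat.cast_one, Nat.cast_ofNat, sub_zero, add_zero]
    rw [show 2 * (x - r) = 2 * x - 2 * r by ring, show 2 * x - 2 * r - 1 = 2 * x - (2 * r + 1) by ring,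
      show 2 * x - 2 * r - 2 = 2 * x - (2 * r + 2) by ring,
      show 2 * x - 2 * r - 3 = 2 * x - (2 * r + 3) by ring]
    ring
  rw [ac]
  simp_rw [e]
  rw [Measure.integral_comp_mul_left (fun y => ∑ i : Fin 4, ∑ j : Fin 4,
      (![a, 1 - b, 1 - a, b] i * ![a, 1 - b, 1 - a, b] j) *
        (φ (y - ((i : ℕ) : ℝ)) * φ (y - (2 * r + ((j : ℕ) : ℝ))))) 2,
    integral_finsetSum _ fun i _ => integrable_finsetSum _ fun j _ =>
      (h.int_shift _ _).const_mul _]
  rw [smul_eq_mul, ← mul_assoc, show (2 : ℝ) * |2⁻¹| = 1 by norm_num, one_mul]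
  apply Finset.sum_congr rfl
  intro i _
  rw [integral_finsetSum _ fun j _ => (h.int_shift _ _).const_mul _]
  apply Finset.sum_congr rfl
  intro j _
  rw [integral_const_mul, ac_shift]

lemma Good.integral_one {φ : ℝ → ℝ} (h : Good 1 φ) : ∫ x, φ x = 1 := by
  have hc := h.cont
  have h1 : ∫ x, φ x = ∫ x in (0 : ℝ)..3, φ x := by
    symm
    apply intervalIntegral.integral_eq_integral_of_support_subset
    intro x hx
    by_contra hn
    rw [mem_Ioc, not_and_or] at hn
    rcases hn with hn | hn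
    · exact hx (h.left x (by linarith))
    · exact hx (h.right x (by linarith))
  have hi : ∀ p q : ℝ, IntervalIntegrable φ volume p q := fun p q => hc.intervalIntegrable p q
  have h2 : ∫ x in (1 : ℝ)..2, φ x = ∫ x in (0 : ℝ)..1, φ (x + 1) := by
    rw [intervalIntegral.integral_comp_add_right]; norm_num
  have h3 : ∫ x in (2 : ℝ)..3, φ x = ∫ x in (0 : ℝ)..1, φ (x + 2) := by
    rw [intervalIntegral.integral_comp_add_right]; norm_num
  rw [h1, ← intervalIntegral.integral_add_adjacent_intervals (hi 0 2) (hi 2 3),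
    ← intervalIntegral.integral_add_adjacent_intervals (hi 0 1) (hi 1 2), h2, h3,
    ← intervalIntegral.integral_add (hi 0 1) (Continuous.intervalIntegrable (by fun_prop) _ _),
    ← intervalIntegral.integral_add (Continuous.intervalIntegrable (by fun_prop) _ _)
      (Continuous.intervalIntegrable (by fun_prop) _ _),
    intervalIntegral.integral_congr (g := fun _ => (1 : ℝ))]
  · simp
  · intro x hx
    rw [uIcc_of_le zero_le_one] at hx
    exact h.part x hx.1 hx.2

lemma Good.five {φ : ℝ → ℝ} (h : Good 1 φ) (x : ℝ) :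
    φ x * (φ (x - -2) + φ (x - -1) + φ (x - 0) + φ (x - 1) + φ (x - 2)) = φ x := by
  by_cases h0 : x ≤ 0
  · rw [h.left x h0, zero_mul]
  by_cases h3 : 3 ≤ x
  · rw [h.right x h3, zero_mul]
  have : φ (x - -2) + φ (x - -1) + φ (x - 0) + φ (x - 1) + φ (x - 2) = 1 := by
    by_cases h1 : x ≤ 1
    · have := h.part x (by linarith) h1
      rw [h.left (x - 1) (by linarith), h.left (x - 2) (by linarith), sub_zero, sub_neg_eq_add,
        sub_neg_eq_add]
      linarith
    by_cases h2 : x ≤ 2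
    · have := h.part (x - 1) (by linarith) (by linarith)
      rw [sub_add_cancel, show x - 1 + 2 = x - -1 by ring] at this
      rw [h.right (x - -2) (by linarith), h.left (x - 2) (by linarith), sub_zero]
      linarith
    · have := h.part (x - 2) (by linarith) (by linarith)
      rw [sub_add_cancel, show x - 2 + 1 = x - 1 by ring] at this
      rw [h.right (x - -2) (by linarith), h.right (x - -1) (by linarith), sub_zero]
      linarith
  rw [this, mul_one]

lemma ac_vals {φ : ℝ → ℝ} (h : Good 1 φ) (hf : ∀ x, T a b φ x = φ x)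
    (e1 : a * (1 - a) + (1 - b) * b = 0) (a1 : 0.64 < a) (b2 : b < -0.18) :
    ac φ 0 = 1 ∧ ac φ 1 = 0 ∧ ac φ 2 = 0 := by
  have r1 := ac_rec h hf 1
  have r2 := ac_rec h hf 2
  simp only [Fin.sum_univ_four, Matrix.cons_val_zero, Matrix.cons_val_one, Matrix.cons_val,
      Fin.val_zero, Fin.val_one, Fin.val_two, show ((3 : Fin 4) : ℕ) = 3 from rfl, Nat.cast_zero,
      Nat.cast_one, Nat.cast_ofNat] at r1 r2
  norm_num at r1 r2
  rw [ac_neg] at r1
  simp only [h.ac_far 3 le_rfl, h.ac_far 4 (by norm_num), h.ac_far 5 (by norm_num),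
    h.ac_far 6 (by norm_num), h.ac_far 7 (by norm_num)] at r1 r2
  have k2 : 2 * ac φ 2 = a * b * ac φ 1 := by linear_combination r2 + ac φ 2 * e1
  have k1 : ac φ 1 = 2 * ac φ 2 := by
    linear_combination r1 + (ac φ 0 - 2 * ac φ 2) * e1
  have h1 : ac φ 1 = 0 := by
    have : ac φ 1 * (1 - a * b) = 0 := by linear_combination k1 + k2
    rcases mul_eq_zero.1 this with h | h
    · exact h
    · nlinarith
  have h2 : ac φ 2 = 0 := by linarith
  refine ⟨?_, h1, h2⟩
  have hi : ∀ r, Integrable fun x => φ x * φ (x - r) := fun r => by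
    simpa using h.int_shift 0 r
  have h5 : ac φ (-2) + ac φ (-1) + ac φ 0 + ac φ 1 + ac φ 2 = 1 := by
    have h6 := integral_finsetSum (μ := volume) (Finset.univ : Finset (Fin 5))
      (f := fun i x => φ x * φ (x - ![-2, -1, 0, 1, 2] i)) fun i _ => hi _
    simp only [Fin.sum_univ_five, Matrix.cons_val_zero, Matrix.cons_val_one, Matrix.cons_val,
      ← mul_add, h.five, h.integral_one] at h6
    exact h6.symm
  rw [ac_neg, ac_neg] at h5
  linarith

/-- The real scaling function with all the pointwise facts that are needed. -/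
theorem exists_phi : ∃ (a b : ℝ) (φ : ℝ → ℝ), Good 1 φ ∧ (∀ x, T a b φ x = φ x) ∧
    (∀ k : ℤ, ac φ k = if k = 0 then 1 else 0) ∧
    ∀ k : ℤ, φ (2 / 3 + k) = if k = 0 then 1 else 0 := by
  obtain ⟨a, b, e1, e2, a1, a2, b1, b2⟩ := exists_par
  obtain ⟨φ, h, hf⟩ := exists_fixed a1 a2 b1 b2
  obtain ⟨c0, c1, c2⟩ := cardinal h hf e2 a1 a2 b1 b2
  obtain ⟨d0, d1, d2⟩ := ac_vals h hf e1 a1 b2
  refine ⟨a, b, φ, h, hf, fun k => ?_, fun k => ?_⟩
  · have key : ∀ k : ℤ, 0 ≤ k → ac φ k = if k = 0 then 1 else 0 := by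
      intro k hk
      by_cases h3 : 3 ≤ k
      · rw [h.ac_far k (by exact_mod_cast h3), if_neg (by omega)]
      · have : k = 0 ∨ k = 1 ∨ k = 2 := by omega
        rcases this with rfl | rfl | rfl <;> simp [d0, d1, d2]
    rcases le_total 0 k with hk | hk
    · exact key k hk
    · have := key (-k) (by omega)
      rw [Int.cast_neg, ac_neg] at this
      simpa using this
  · by_cases h3 : 3 ≤ k
    · have : (3 : ℝ) ≤ k := by exact_mod_cast h3
      rw [h.right _ (by linarith), if_neg (by omega)]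
    by_cases h0 : k ≤ -1
    · have : (k : ℝ) ≤ -1 := by exact_mod_cast h0
      rw [h.left _ (by linarith), if_neg (by omega)]
    have : k = 0 ∨ k = 1 ∨ k = 2 := by omega
    rcases this with rfl | rfl | rfl <;> simp [c0, c1, c2]

end Pool.Agent.H9.Wave
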