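import Pool.Agent.H9.Hyper

/-! A weakly Cauchy rotund norm on `ℝ × c₀` whose bidual norm is not weak* Cauchy rotund. -/
namespace Pool.Agent.H9.Wcr
open Filter Metric Topology Finset Hyper

lemma nle {y : V} {c : ℝ} (h : ∀ i, |y i| ≤ c) : ‖y‖ ≤ c :=
  (BoundedContinuousFunction.norm_le (f := y.toBCF) ((abs_nonneg _).trans (h 0))).2 h

lemma zero0 (y : V) : Tendsto y atTop (𝓝 0) := by
  simpa using y.zero_at_infty'

/-- truncation -/
noncomputable def tr (g : ℕ → ℝ) (K : ℕ) : V :=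
  ⟨⟨fun i => if i < K then g i else 0, continuous_of_discreteTopology⟩, by
    simpa using tendsto_const_nhds.congr' ((eventually_ge_atTop K).mono fun i hi =>
      (if_neg (not_lt.2 hi)).symm)⟩

lemma tr_apply (g : ℕ → ℝ) (K i : ℕ) : tr g K i = if i < K then g i else 0 := rfl

lemma tr_sum (f : V →L[ℝ] ℝ) (g : ℕ → ℝ) (K : ℕ) :
    f (tr g K) = ∑ k ∈ range K, g k * f (tr (Pi.single k 1) (k + 1)) := by
  induction K with
  | zero => exact (congrArg f (ZeroAtInftyContinuousMap.ext fun _ => rfl)).trans f.map_zero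
  | succ K ih =>
    rw [sum_range_succ, ← ih, ← smul_eq_mul, ← map_smul, ← map_add]
    refine congrArg f (ZeroAtInftyContinuousMap.ext fun i => ?_)
    show ite _ _ _ = ite _ _ _ + g K * ite _ _ _
    rw [Pi.single_apply]
    grind

lemma weak (f : V →L[ℝ] ℝ) {y : ℕ → V} (h1 : ∀ n, ‖y n‖ ≤ 1) (h2 : ∀ k, CauchySeq fun n => y n k) :
    CauchySeq fun n => f (y n) := by
  set c := fun k => f (tr (Pi.single k 1) (k + 1))
  have h3 : Summable fun k => |c k| := summable_of_sum_range_le (c := ‖f‖) (fun _ => abs_nonneg _)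
    fun K => by
      have := f.unit_le_opNorm (tr (fun k => SignType.sign (c k)) K) (nle fun i => by
        rw [tr_apply]
        split_ifs
        · rcases lt_trichotomy (c i) 0 with h | h | h <;> simp [h]
        · simp)
      rw [tr_sum] at this
      exact (sum_congr rfl fun k _ => (sign_mul_self (c k)).symm).trans_le
        ((le_abs_self _).trans this)
  have h4 : ∀ n k, ‖y n k * c k‖ ≤ |c k| := fun n k => (abs_mul _ _).trans_le
    (mul_le_of_le_one_left (abs_nonneg _) ((le0 _ _).trans (h1 n)))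
  have h5 : ∀ n, f (y n) = ∑' k, y n k * c k := fun n => by
    refine tendsto_nhds_unique ?_ (Summable.of_norm_bounded h3 (h4 n)).hasSum.tendsto_sum_nat
    simp only [c, ← tr_sum]
    refine (f.continuous.tendsto _).comp (Metric.tendsto_atTop'.2 fun ε hε => ?_)
    obtain ⟨N, hN⟩ := eventually_atTop.1 ((zero0 (y n)).abs.eventually_lt_const
      (show |0| < ε / 2 by simpa using hε))
    refine ⟨N, fun K hK => (dist_eq_norm _ _).trans_lt ((nle fun i => ?_).trans_lt
      (half_lt_self hε))⟩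
    show |ite _ _ _ - y n i| ≤ _
    split_ifs
    · simpa using (half_pos hε).le
    · rw [zero_sub, abs_neg]
      exact (hN i (by omega)).le
  choose z hz using fun k => cauchySeq_tendsto_of_complete (h2 k)
  simp only [h5]
  exact (tendsto_tsum_of_dominated_convergence h3 (fun k => (hz k).mul_const _)
    (.of_forall h4)).cauchySeq

lemma sq_bd {y : V} {n : ℕ} (h : ∀ k < n, y k = 0) (k : ℕ) :
    ‖(1 / 2 : ℝ) ^ k * y k‖ ^ (2 : ENNReal).toReal ≤ (1 / 2) ^ k * ((1 / 2) ^ n * ‖y‖ ^ 2) := by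
  rw [ENNReal.toReal_ofNat, Real.rpow_two, Real.norm_eq_abs, sq_abs, mul_pow, sq, mul_assoc]
  refine mul_le_mul_of_nonneg_left ?_ (by positivity)
  rcases lt_or_ge k n with h1 | h1
  · rw [h k h1]
    simp only [ne_eq, OfNat.ofNat_ne_zero, not_false_eq_true, zero_pow, mul_zero]
    positivity
  · exact mul_le_mul (pow_le_pow_of_le_one (by norm_num) (by norm_num) h1)
      (sq_le_sq' (abs_le.1 (le0 y k)).1 (abs_le.1 (le0 y k)).2) (by positivity) (by positivity)

noncomputable def D : V →ₗ[ℝ] lp (fun _ : ℕ => ℝ) 2 where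
  toFun y := ⟨fun k => (1 / 2) ^ k * y k, memℓp_gen (.of_nonneg_of_le (fun _ => by positivity)
    (sq_bd (n := 0) (by simp)) (summable_geometric_two.mul_right _))⟩
  map_add' _ _ := lp.ext (funext fun _ => mul_add _ _ _)
  map_smul' _ _ := lp.ext (funext fun _ => mul_left_comm _ _ _)

lemma D_le {y : V} {n : ℕ} (h : ∀ k < n, y k = 0) : ‖D y‖ ^ 2 ≤ 2 * ((1 / 2) ^ n * ‖y‖ ^ 2) := by
  have := hasSum_le (sq_bd h) (lp.hasSum_norm (by simp) (D y)) (hasSum_geometric_two.mul_right _)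
  rwa [ENNReal.toReal_ofNat, Real.rpow_two] at this

/-- the renormed space -/
def E : Type := ℝ × V

noncomputable instance : AddCommGroup E := inferInstanceAs (AddCommGroup (ℝ × V))
noncomputable instance : Module ℝ E := inferInstanceAs (Module ℝ (ℝ × V))

noncomputable def T : E →ₗ[ℝ] WithLp 2 (WithLp 1 (ℝ × V) × lp (fun _ : ℕ => ℝ) 2) :=
  (WithLp.linearEquiv 2 ℝ _).symm.toLinearMap ∘ₗ
    LinearMap.prod (WithLp.linearEquiv 1 ℝ (ℝ × V)).symm.toLinearMap (D ∘ₗ LinearMap.snd ℝ ℝ V)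

noncomputable instance : NormedAddCommGroup E := .induced E _ T fun _ _ h =>
  congrArg (fun v => v.ofLp.1.ofLp) h
noncomputable instance : NormedSpace ℝ E := .induced ℝ E _ T

lemma norm_sq (u : E) : ‖u‖ ^ 2 = (|u.1| + ‖u.2‖) ^ 2 + ‖D u.2‖ ^ 2 := by
  rw [show ‖u‖ = ‖T u‖ from rfl, WithLp.prod_norm_sq_eq_of_L2, WithLp.prod_norm_eq_of_L1]
  rfl

lemma le_norm (u : E) : |u.1| + ‖u.2‖ ≤ ‖u‖ :=
  abs_le_of_sq_le_sq' (by rw [norm_sq]; exact le_add_of_nonneg_right (sq_nonneg _))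
    (norm_nonneg _) |>.2

noncomputable def iso : E ≃L[ℝ] ℝ × V :=
  LinearEquiv.toContinuousLinearEquivOfBounds (E := E) (F := ℝ × V) (LinearEquiv.refl ℝ (ℝ × V))
    1 3 (fun u => by
      have := le_norm u
      exact max_le (show |u.1| ≤ _ by linarith [norm_nonneg u.2])
        (show ‖u.2‖ ≤ _ by linarith [abs_nonneg u.1])) fun u => (abs_le_of_sq_le_sq' (by
      have h1 := D_le (y := u.2) (n := 0) (by simp)
      have h2 : |u.1| ≤ ‖u‖ := norm_fst_le u
      have h3 := norm_snd_le u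
      refine (norm_sq u).trans_le ?_
      nlinarith [abs_nonneg u.1, norm_nonneg u.2]) (by positivity)).2

instance : CompleteSpace E :=
  (completeSpace_congr (e := iso.toEquiv) iso.isUniformEmbedding).2 inferInstance

theorem wcr (x : ℕ → E) (h1 : ∀ n, ‖x n‖ = 1)
    (h2 : Tendsto (fun p : ℕ × ℕ => ‖x p.1 + x p.2‖) atTop (𝓝 2)) (f : E →L[ℝ] ℝ) :
    CauchySeq fun n => f (x n) := by
  have h3 : ∀ ε > 0, ∃ N, ∀ n ≥ N, ∀ m ≥ N, ‖D (x n).2 - D (x m).2‖ ≤ ε ∧
      |(x n).1| + ‖(x n).2‖ - (|(x m).1| + ‖(x m).2‖) ≤ ε ∧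
      |(x n).1| + ‖(x n).2‖ + (|(x m).1| + ‖(x m).2‖) -
        (|(x n).1 + (x m).1| + ‖(x n).2 + (x m).2‖) ≤ ε := fun ε hε => by
    obtain ⟨⟨a, b⟩, h⟩ := eventually_atTop.1 ((h2.pow 2).eventually_const_lt
      (show 2 ^ 2 - ε ^ 2 < (2 : ℝ) ^ 2 by nlinarith))
    refine ⟨max a b, fun n hn m hm => ?_⟩
    have e1 := h (n, m) ⟨le_of_max_le_left hn, le_of_max_le_right hm⟩
    have e2 := norm_sq (x n)
    have e3 := norm_sq (x m)
    have e4 := parallelogram_law_with_norm ℝ (D (x n).2) (D (x m).2)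
    have e5 := add_le_add (abs_add_le (x n).1 (x m).1) (norm_add_le (x n).2 (x m).2)
    have e6 := add_nonneg (abs_nonneg ((x n).1 + (x m).1)) (norm_nonneg ((x n).2 + (x m).2))
    rw [h1] at e2 e3
    rw [norm_sq, show (x n + x m).2 = (x n).2 + (x m).2 from rfl, map_add,
      show (x n + x m).1 = (x n).1 + (x m).1 from rfl] at e1
    rw [add_add_add_comm] at e5
    generalize |(x n).1| + ‖(x n).2‖ = A at *
    generalize |(x m).1| + ‖(x m).2‖ = B at *
    generalize |(x n).1 + (x m).1| + ‖(x n).2 + (x m).2‖ = C at *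
    refine ⟨(abs_le_of_sq_le_sq' ?_ hε.le).2, (abs_le_of_sq_le_sq' ?_ hε.le).2,
      (abs_le_of_sq_le_sq' ?_ hε.le).2⟩ <;>
    nlinarith [sq_nonneg (A - B), sq_nonneg ‖D (x n).2 - D (x m).2‖,
      mul_nonneg e6 (sub_nonneg.2 e5), sq_nonneg (A + B - C)]
  have h4 : ∀ k, ∀ ε > 0, ∃ N, ∀ n ≥ N, ∀ m ≥ N, ∀ j ≤ k, |(x n).2 j - (x m).2 j| ≤ ε :=
    fun k ε hε => (h3 ((1 / 2) ^ k * ε) (by positivity)).imp fun N h n hn m hm j hj => by
      have : |(1 / 2) ^ j * (x n).2 j - (1 / 2) ^ j * (x m).2 j| ≤ _ :=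
        (lp.norm_apply_le_norm two_ne_zero (D (x n).2 - D (x m).2) j).trans (h n hn m hm).1
      rw [← mul_sub, abs_mul, abs_of_pos (by positivity)] at this
      exact le_of_mul_le_mul_left (this.trans (mul_le_mul_of_nonneg_right
        (pow_le_pow_of_le_one (by norm_num) (by norm_num) hj) hε.le)) (by positivity)
  have h5 : CauchySeq fun n => (x n).1 := Metric.cauchySeq_iff.2 fun δ hδ => by
    obtain ⟨N, hN⟩ := h3 (δ / 6) (by positivity)
    obtain ⟨M, hM⟩ : ∃ M, ∀ m ≥ M, ∀ m' ≥ M, m ≥ N → ‖(x m).2‖ ≤ ‖(x m').2‖ + 3 * (δ / 6) := by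
      by_cases h : ∃ n ≥ N, 2 * (δ / 6) < ‖(x n).2‖
      · obtain ⟨n, hn, h⟩ := h
        obtain ⟨K, hK⟩ := eventually_atTop.1 ((zero0 (x n).2).abs.eventually_lt_const
          (show |0| < ‖(x n).2‖ - 2 * (δ / 6) by simpa using h))
        refine (h4 K (δ / 6) (by positivity)).imp fun M hM m hm m' hm' hmN => le_of_not_gt fun e => ?_
        have e1 := (hN n hn m hmN).2.2
        have e2 := abs_add_le (x n).1 (x m).1
        have e3 := nle (y := (x n).2 + (x m).2) (c := ‖(x n).2‖ + ‖(x m).2‖ - 2 * (δ / 6)) fun i =>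
          (abs_add_le ((x n).2 i) ((x m).2 i)).trans (by
            rcases le_total i K with hi | hi
            · linarith [le0 (x n).2 i, le0 (x m').2 i, hM m hm m' hm' i hi,
                abs_sub_abs_le_abs_sub ((x m).2 i) ((x m').2 i)]
            · linarith [hK i hi, le0 (x m).2 i])
        linarith
      · exact ⟨0, fun m _ m' _ hm => by
          linarith [le_of_not_gt fun h' => h ⟨m, hm, h'⟩, norm_nonneg (x m').2]⟩
    refine ⟨max M N, fun m hm m' hm' => ?_⟩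
    obtain ⟨e1, e2⟩ := max_le_iff.1 hm
    obtain ⟨e3, e4⟩ := max_le_iff.1 hm'
    have e5 := hM m e1 m' e3 e2
    have e6 := hM m' e3 m e1 e4
    have e7 := (hN m e2 m' e4).2
    have e8 := (hN m' e4 m e2).2.1
    have e9 := norm_add_le (x m).2 (x m').2
    rw [Real.dist_eq]
    grind
  have h6 := weak (f ∘L (iso.symm : ℝ × V →L[ℝ] E) ∘L ContinuousLinearMap.inr ℝ ℝ V)
    (y := fun n => (x n).2) (fun n => by linarith [le_norm (x n), h1 n, abs_nonneg (x n).1])
    fun k => Metric.cauchySeq_iff.2 fun ε hε => (h4 k _ (half_pos hε)).imp fun N h n hn m hm =>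
      (h n hn m hm k le_rfl).trans_lt (half_lt_self hε)
  convert ((f ∘L (iso.symm : ℝ × V →L[ℝ] E) ∘L ContinuousLinearMap.inl ℝ ℝ V
    ).uniformContinuous.comp_cauchySeq h5).add h6 using 2 with n
  exact (congrArg f (Prod.ext (add_zero _).symm (zero_add _).symm)).trans (map_add f _ _)

theorem bidual (n : ℕ) (t : ℝ) (h0 : 0 ≤ t) (h1 : t ≤ 1) : ∃ G : (E →L[ℝ] ℝ) →L[ℝ] ℝ,
    ‖G‖ ≤ 1 + 2 * (1 / 2) ^ n ∧ ∀ (f : E →L[ℝ] ℝ) (a b : ℝ) (k : ℕ), n ≤ k →
      (∀ u : E, f u = a * u.1 + b * u.2 k) → G f = a * t + b * (1 - t) := by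
  let x : ℕ → E := fun K => (t, tr (fun i => if i < n then 0 else 1 - t) K)
  obtain ⟨G, h2, h3⟩ := (WeakDual.isCompact_closedBall (0 : StrongDual ℝ (StrongDual ℝ E))
    (1 + 2 * (1 / 2) ^ n)).exists_mapClusterPt_of_frequently
    (f := fun K => StrongDual.toWeakDual (NormedSpace.inclusionInDoubleDual ℝ E (x K)))
    (l := atTop) (.of_forall fun K => mem_closedBall_zero_iff.2
      ((NormedSpace.double_dual_bound ℝ E (x K)).trans (abs_le_of_sq_le_sq' (by
        have e1 : ‖(x K).2‖ ≤ 1 - t := nle fun i => by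
          show |ite _ (ite _ _ _) _| ≤ _
          grind
        have e2 := D_le (y := (x K).2) (n := n) fun k hk => by
          show ite _ (ite _ _ _) _ = _
          grind
        have e3 := norm_nonneg (x K).2
        have e4 : (0 : ℝ) < (1 / 2) ^ n := by positivity
        have e5 := mul_le_mul_of_nonneg_left (show ‖(x K).2‖ ^ 2 ≤ 1 by nlinarith) e4.le
        rw [norm_sq, show (x K).1 = t from rfl, abs_of_nonneg h0]
        nlinarith) (by positivity)).2))
  refine ⟨G, mem_closedBall_zero_iff.1 h2, fun f a b k hk hf =>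
    (isClosed_eq (WeakDual.eval_continuous f) continuous_const).mem_of_mapClusterPt h3
      ((eventually_gt_atTop k).mono fun K hK => (hf (x K)).trans ?_)⟩
  show a * t + b * ite _ (ite _ _ _) _ = _
  rw [if_pos hK, if_neg (not_lt.2 hk)]

noncomputable def fn (a b : ℝ) (k : ℕ) : E →ₗ[ℝ] ℝ where
  toFun u := a * u.1 + b * u.2 k
  map_add' u v := by
    show a * (u.1 + v.1) + b * (u.2 k + v.2 k) = _
    ring
  map_smul' c u := by
    show a * (c * u.1) + b * (c * u.2 k) = c * _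
    ring

lemma fn_le (b : ℝ) (hb : |b| ≤ 1) (k : ℕ) (u : E) : ‖fn 1 b k u‖ ≤ 1 * ‖u‖ := by
  refine (abs_add_le _ _).trans ?_
  rw [one_mul, one_mul, abs_mul]
  linarith [le_norm u, le0 u.2 k, mul_le_of_le_one_left (abs_nonneg (u.2 k)) hb]

lemma unit {Y : Type*} [NormedAddCommGroup Y] [NormedSpace ℝ Y] {g : Y →L[ℝ] ℝ} (h : 1 ≤ ‖g‖) :
    ‖‖g‖⁻¹ • g‖ = 1 := by
  rw [norm_smul, norm_inv, norm_norm, inv_mul_cancel₀ (by linarith)]

end Pool.Agent.H9.Wcr
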